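import Pool.Agent.P.MP_638e8a_ag.CDefs

/-!
Task CK BASIC: base change, integration and the diagonal.
-/

open CategoryTheory AlgebraicGeometry MonoidalCategory CartesianMonoidalCategory Order

universe u v w

namespace Pool.Agent.P.MP_638e8a_ag

open Pool.Agent.P.MP_90138e_ag
open Pool.Agent.P.MP_90138e_ag.WeilCohomology (fstH sndH)

variable {k : Type u} [Field k] {S S' X X' Y Y' Z : SmProj k}

theorem residueDegree_comp {A B C : Scheme.{u}} (f : A ⟶ B) (g : B ⟶ C) (z : A) :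
    (f ≫ g).residueDegree z = g.residueDegree (f z) * f.residueDegree z := by
  unfold Scheme.Hom.residueDegree
  rw [Scheme.residueFieldMap_comp]
  let a1 := (g.residueFieldMap (f z)).hom.toAlgebra
  let a2 := (f.residueFieldMap z).hom.toAlgebra
  let a3 : Algebra (C.residueField (g (f z))) (A.residueField z) :=
    (g.residueFieldMap (f z) ≫ f.residueFieldMap z).hom.toAlgebra
  have : IsScalarTower (C.residueField (g (f z))) (B.residueField (f z)) (A.residueField z) :=
    IsScalarTower.of_algebraMap_eq fun _ => rfl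
  exact (Module.finrank_mul_finrank (C.residueField (g (f z))) (B.residueField (f z))
    (A.residueField z)).symm

theorem residueDegree_section (s : X.X ⟶ S.X) (p : S.X ⟶ X.X) (h : s ≫ p = 𝟙 _)
    (z : X.X.left) : s.left.residueDegree z = 1 := by
  have h1 := residueDegree_comp s.left p.left z
  have h2 : s.left ≫ p.left = 𝟙 _ := congrArg (fun f => f.left) h
  rw [h2, Scheme.Hom.residueDegree_id] at h1
  exact Nat.eq_one_of_mul_eq_one_left h1.symm

theorem left_apply_of_comp (s : X.X ⟶ S.X) (p : S.X ⟶ X.X) (h : s ≫ p = 𝟙 _)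
    (z : X.X.left) : p.left (s.left z) = z :=
  congrArg (fun f : X.X ⟶ X.X => f.left z) h

theorem left_gen (s : X.X ⟶ S.X) (p : S.X ⟶ X.X) (h : s ≫ p = 𝟙 _) :
    p.left S.gen = X.gen := by
  have h1 : S.gen ⤳ s.left X.gen := genericPoint_specializes _
  have h2 := h1.map p.left.continuous
  rw [left_apply_of_comp s p h] at h2
  exact (h2.antisymm (genericPoint_specializes _)).eq

namespace ChowTheory

variable (T : ChowTheory k)

/-- The classes of subvarieties span. -/
theorem cl_ind {P : T.A X → Prop} (h0 : P 0) (hadd : ∀ a b, P a → P b → P (a + b))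
    (h : ∀ (q : ℚ) z, P (q • T.cl X z)) (x : T.A X) : P x := by
  obtain ⟨c, rfl⟩ := T.cl_surjective X x
  induction c using Finsupp.induction_linear with
  | zero => simpa using h0
  | add a b ha hb => rw [map_add]; exact hadd _ _ ha hb
  | single z q => rw [Finsupp.linearCombination_single]; exact h q z

theorem push_id (x : T.A X) : T.push (𝟙 X.X) x = x := by
  induction x using T.cl_ind with
  | h0 => exact map_zero _
  | hadd a b ha hb => rw [map_add, ha, hb]
  | h q z =>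
    rw [map_smul, T.push_cl, residueDegree_section (𝟙 X.X) (𝟙 X.X) (Category.id_comp _),
      one_smul]
    rfl

theorem push_comp (f : X.X ⟶ Y.X) (g : Y.X ⟶ Z.X) (x : T.A X) :
    T.push (f ≫ g) x = T.push g (T.push f x) := by
  induction x using T.cl_ind with
  | h0 => simp only [map_zero]
  | hadd a b ha hb => simp only [map_add, ha, hb]
  | h q z =>
    rw [map_smul, map_smul, map_smul, T.push_cl, T.push_cl, map_nsmul, T.push_cl, ← mul_smul,
      mul_comm, ← residueDegree_comp]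
    rfl

theorem projection' (f : X.X ⟶ Y.X) (x : T.A X) (y : T.A Y) :
    T.push f (T.pull f y * x) = y * T.push f x := by
  rw [mul_comm, T.projection, mul_comm]

theorem push_cl_section (s : X.X ⟶ S.X) (p : S.X ⟶ X.X) (h : s ≫ p = 𝟙 _) (z : X.X.left) :
    T.push s (T.cl X z) = T.cl S (s.left z) := by
  rw [T.push_cl, residueDegree_section s p h, one_smul]

theorem push_pull (f : X.X ⟶ Y.X) (y : T.A Y) : T.push f (T.pull f y) = T.push f 1 * y := by
  rw [← T.projection, one_mul]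

/-- Push-forward along an isomorphism is pull-back along the inverse. -/
theorem push_eq_pull (f : X.X ⟶ Y.X) (g : Y.X ⟶ X.X) (h : f ≫ g = 𝟙 _) (h' : g ≫ f = 𝟙 _)
    (x : T.A X) : T.push f x = T.pull g x := by
  have h1 : T.push f 1 = 1 := by
    rw [← T.cl_gen X, T.push_cl_section f g h, left_gen g f h', T.cl_gen]
  have h2 := T.push_pull f (T.pull g x)
  rwa [← T.pull_comp, h, T.pull_id, h1, one_mul] at h2

/-- A section has residue degree one everywhere. -/
theorem push_cl_of_section (s : X.X ⟶ S.X) (p : S.X ⟶ X.X) (h : s ≫ p = 𝟙 _) (z : X.X.left) :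
    T.push s (T.cl X z) = T.cl S (s.left z) := T.push_cl_section s p h z

/-- Pull-back along a section. -/
theorem pull_section (s : X.X ⟶ S.X) (p : S.X ⟶ X.X) (h : s ≫ p = 𝟙 _) (v : T.A S) :
    T.pull s v = T.push p (T.push s 1 * v) := by
  rw [← T.push_pull, ← T.push_comp, h, T.push_id]

theorem swap_swap (X Y : SmProj k) :
    pair (sndH X Y) (fstH X Y) ≫ pair (sndH Y X) (fstH Y X) = 𝟙 _ :=
  prod_ext (by simp) (by simp)

/-- Base change along the second projection. -/
theorem base_change_snd (f : X'.X ⟶ X.X) (Y : SmProj k) (x : T.A X') :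
    T.pull (sndH Y X) (T.push f x) =
      T.push (pair (fstH Y X') (sndH Y X' ≫ f)) (T.pull (sndH Y X') x) := by
  have e1 : sndH Y X = pair (sndH Y X) (fstH Y X) ≫ fstH X Y := (pair_fst _ _).symm
  have e2 : sndH Y X' = pair (sndH Y X') (fstH Y X') ≫ fstH X' Y := (pair_fst _ _).symm
  have e3 : pair (fstH X' Y ≫ f) (sndH X' Y) ≫ pair (sndH X Y) (fstH X Y) =
      pair (sndH X' Y) (fstH X' Y) ≫ pair (fstH Y X') (sndH Y X' ≫ f) :=
    prod_ext (by simp) (by simp)
  calc T.pull (sndH Y X) (T.push f x)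
      = T.pull (pair (sndH Y X) (fstH Y X)) (T.pull (fstH X Y) (T.push f x)) := by
        rw [← T.pull_comp, ← e1]
    _ = T.push (pair (fstH Y X') (sndH Y X' ≫ f))
          (T.push (pair (sndH X' Y) (fstH X' Y)) (T.pull (fstH X' Y) x)) := by
        rw [T.base_change, ← T.push_eq_pull _ _ (swap_swap X Y) (swap_swap Y X), ← T.push_comp,
          e3, T.push_comp]
    _ = _ := by
        rw [T.push_eq_pull _ _ (swap_swap X' Y) (swap_swap Y X'), ← T.pull_comp, ← e2]

theorem int_pull_mul (a : T.A S) (w : T.A (S.prod Y)) :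
    T.int S Y (T.pull (fstH S Y) a * w) = a * T.int S Y w := T.projection' _ _ _

theorem assoc_hom_inv (X Y Z : SmProj k) :
    pair (fstH (X.prod Y) Z ≫ fstH X Y) (pair (fstH (X.prod Y) Z ≫ sndH X Y) (sndH _ _)) ≫
      pair (pair (fstH X (Y.prod Z)) (sndH _ _ ≫ fstH Y Z)) (sndH _ _ ≫ sndH Y Z) = 𝟙 _ :=
  prod_ext (prod_ext (by simp) (by simp)) (by simp)

theorem assoc_inv_hom (X Y Z : SmProj k) :
    pair (pair (fstH X (Y.prod Z)) (sndH _ _ ≫ fstH Y Z)) (sndH _ _ ≫ sndH Y Z) ≫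
      pair (fstH (X.prod Y) Z ≫ fstH X Y) (pair (fstH (X.prod Y) Z ≫ sndH X Y) (sndH _ _)) =
      𝟙 _ :=
  prod_ext (by simp) (prod_ext (by simp) (by simp))

theorem pull_snd_int (w : T.A (S.prod Y)) :
    T.pull (sndH S' S) (T.int S Y w) =
      T.int (S'.prod S) Y (T.pull (pair (fstH _ Y ≫ sndH S' S) (sndH _ Y)) w) := by
  have e1 : pair (fstH (S'.prod S) Y ≫ sndH S' S) (sndH _ Y) =
      pair (fstH (S'.prod S) Y ≫ fstH S' S) (pair (fstH (S'.prod S) Y ≫ sndH S' S) (sndH _ _)) ≫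
        sndH S' (S.prod Y) := (pair_snd _ _).symm
  rw [e1, T.pull_comp, ← T.push_eq_pull _ _ (assoc_inv_hom S' S Y) (assoc_hom_inv S' S Y), int,
    int, ← T.push_comp, pair_fst, T.base_change_snd]

theorem pull_section_int (s : S'.X ⟶ S.X) (p : S.X ⟶ S'.X) (h : s ≫ p = 𝟙 _)
    (w : T.A (S.prod Y)) :
    T.pull s (T.int S Y w) = T.int S' Y (T.pull (pair (fstH S' Y ≫ s) (sndH S' Y)) w) := by
  rw [T.pull_section s p h, ← T.int_pull_mul, T.base_change, map_one, ← T.push_pull, int, int,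
    ← T.push_comp, ← T.push_comp, ← Category.assoc, pair_fst, Category.assoc, h, Category.comp_id]

/-- Integration commutes with pull-back. -/
theorem pull_int (f : S'.X ⟶ S.X) (w : T.A (S.prod Y)) :
    T.pull f (T.int S Y w) = T.int S' Y (T.pull (pair (fstH S' Y ≫ f) (sndH S' Y)) w) := by
  have e1 : f = pair (𝟙 S'.X) f ≫ sndH S' S := (pair_snd _ _).symm
  have e2 : pair (fstH S' Y ≫ pair (𝟙 S'.X) f) (sndH S' Y) ≫
      pair (fstH (S'.prod S) Y ≫ sndH S' S) (sndH _ Y) = pair (fstH S' Y ≫ f) (sndH S' Y) :=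
    prod_ext (by simp) (by simp)
  calc T.pull f (T.int S Y w)
      = T.pull (pair (𝟙 S'.X) f) (T.pull (sndH S' S) (T.int S Y w)) := by
        rw [← T.pull_comp, ← e1]
    _ = _ := by
        rw [T.pull_snd_int, T.pull_section_int _ (fstH S' S) (pair_fst _ _), ← T.pull_comp, e2]

theorem fubini (w : T.A ((S.prod Y).prod Z)) :
    T.int S Y (T.int (S.prod Y) Z w) = T.int S Z (T.int (S.prod Z) Y (T.pull
      (pair (pair (fstH _ _ ≫ fstH S Z) (sndH (S.prod Z) Y)) (fstH _ _ ≫ sndH S Z)) w)) := by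
  have e : ∀ Y Z : SmProj k,
      pair (pair (fstH _ _ ≫ fstH S Y) (sndH (S.prod Y) Z)) (fstH _ _ ≫ sndH S Y) ≫
        pair (pair (fstH _ _ ≫ fstH S Z) (sndH (S.prod Z) Y)) (fstH _ _ ≫ sndH S Z) = 𝟙 _ :=
    fun Y Z => prod_ext (prod_ext (by simp) (by simp)) (by simp)
  rw [← T.push_eq_pull _ _ (e Y Z) (e Z Y), int, int, int, int, ← T.push_comp, ← T.push_comp,
    ← T.push_comp]
  congr 2
  simp

theorem pt_hom_inv (Y : SmProj k) :
    sndH (SmProj.pt k) Y ≫ pair (toPt Y) (𝟙 Y.X) = 𝟙 _ :=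
  prod_ext (toPt_ext _ _) (by simp)

theorem pull_snd_pt (y : T.A Y) :
    T.pull (sndH (SmProj.pt k) Y) y = T.push (pair (toPt Y) (𝟙 Y.X)) y :=
  (T.push_eq_pull _ _ (pair_snd _ _) (pt_hom_inv Y) y).symm

theorem int_pull_snd (y : T.A Y) :
    T.int S Y (T.pull (sndH S Y) y) = T.pull (toPt S) (T.tr Y y) := by
  have h : T.tr Y y = T.int (SmProj.pt k) Y (T.pull (sndH (SmProj.pt k) Y) y) := by
    rw [T.pull_snd_pt, int, ← T.push_comp, pair_fst, tr]
  rw [h, T.pull_int, ← T.pull_comp, pair_snd]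

theorem pull_ev (f : S'.X ⟶ S.X) (x : T.A (X.prod Y)) (a : S.X ⟶ X.X) (b : S.X ⟶ Y.X) :
    T.pull f (T.ev x a b) = T.ev x (f ≫ a) (f ≫ b) := by
  rw [ev, ev, ← T.pull_comp, comp_pair]

theorem ev_fst_snd (x : T.A (X.prod Y)) : T.ev x (fstH X Y) (sndH X Y) = x := by
  rw [ev, pair_fst_snd, T.pull_id]

theorem ev_tp (x : T.A (X.prod Y)) (b : S.X ⟶ Y.X) (a : S.X ⟶ X.X) :
    T.ev (T.tp x) b a = T.ev x a b := by
  rw [ev, tp, T.pull_ev, pair_fst, pair_snd]

theorem ev_boxc (x : T.A (X.prod Y)) (x' : T.A (X'.prod Y')) (a : S.X ⟶ (X.prod X').X)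
    (b : S.X ⟶ (Y.prod Y').X) : T.ev (T.boxc x x') a b =
      T.ev x (a ≫ fstH X X') (b ≫ fstH Y Y') * T.ev x' (a ≫ sndH X X') (b ≫ sndH Y Y') := by
  rw [ev, boxc, map_mul, T.pull_ev, T.pull_ev]
  simp only [pair_fst_assoc, pair_snd_assoc]

theorem pull_dl (f : S'.X ⟶ S.X) (a b : S.X ⟶ X.X) :
    T.pull f (T.dl a b) = T.dl (f ≫ a) (f ≫ b) := T.pull_ev _ _ _ _

theorem dl_symm (a b : S.X ⟶ X.X) : T.dl a b = T.dl b a := by
  have h : T.tp (T.diag X) = T.diag X := by
    rw [tp, ev, ← T.push_eq_pull _ _ (swap_swap X X) (swap_swap X X), diag_eq, ← T.push_comp]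
    congr 2
    exact prod_ext (by simp) (by simp)
  rw [dl, dl, ← T.ev_tp, h]

theorem dl_graph_snd (S X : SmProj k) :
    T.dl (fstH (S.prod X) X ≫ sndH S X) (sndH (S.prod X) X) =
      T.push (pair (𝟙 (S.prod X).X) (sndH S X)) 1 := by
  have e1 : pair (fstH (S.prod X) X ≫ sndH S X) (sndH _ X) =
      pair (fstH (S.prod X) X ≫ fstH S X) (pair (fstH (S.prod X) X ≫ sndH S X) (sndH _ _)) ≫
        sndH S (X.prod X) := (pair_snd _ _).symm
  rw [dl, ev, e1, T.pull_comp, diag_eq, T.base_change_snd, map_one,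
    ← T.push_eq_pull _ _ (assoc_inv_hom S X X) (assoc_hom_inv S X X), ← T.push_comp]
  congr 2
  exact prod_ext (prod_ext (by simp) (by simp)) (by simp)

/-- The class of the graph. -/
theorem dl_graph (a : S.X ⟶ X.X) :
    T.dl (fstH S X ≫ a) (sndH S X) = T.push (pair (𝟙 S.X) a) 1 := by
  have e1 : pair (fstH S X ≫ pair (𝟙 S.X) a) (sndH S X) ≫
      pair (fstH (S.prod X) X ≫ fstH S X) (sndH _ X) = 𝟙 _ := prod_ext (by simp) (by simp)
  have e2 : pair (𝟙 (S.prod X).X) (sndH S X) ≫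
      pair (fstH (S.prod X) X ≫ fstH S X) (sndH _ X) = 𝟙 _ := prod_ext (by simp) (by simp)
  have h1 : T.dl (fstH S X ≫ a) (sndH S X) =
      T.pull (pair (fstH S X ≫ pair (𝟙 S.X) a) (sndH S X))
        (T.dl (fstH (S.prod X) X ≫ sndH S X) (sndH (S.prod X) X)) := by
    rw [T.pull_dl]
    simp
  have h2 := T.base_change (pair (𝟙 S.X) a) X 1
  rw [map_one (T.pull (fstH S X))] at h2
  rw [h1, T.pull_section _ _ e1, T.dl_graph_snd, ← h2, ← T.projection', ← T.pull_comp, pair_fst,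
    T.pull_id, mul_one, ← T.push_comp, e2, T.push_id]

theorem int_dl_mul (a : S.X ⟶ X.X) (w : T.A (S.prod X)) :
    T.int S X (T.dl (fstH S X ≫ a) (sndH S X) * w) = T.pull (pair (𝟙 S.X) a) w := by
  rw [T.dl_graph, T.pull_section _ (fstH S X) (pair_fst _ _), int]

theorem dl_subst (a b : S.X ⟶ X.X) (G : T.A (S.prod X)) :
    T.dl a b * T.pull (pair (𝟙 S.X) a) G = T.dl a b * T.pull (pair (𝟙 S.X) b) G := by
  have h1 : T.dl (fstH S X ≫ a) (sndH S X) * T.pull (fstH S X ≫ pair (𝟙 S.X) a) G =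
      T.dl (fstH S X ≫ a) (sndH S X) * G := by
    rw [T.dl_graph, ← T.push_pull, ← T.push_pull, ← T.pull_comp, pair_fst_assoc,
      Category.id_comp]
  have h2 := congrArg (T.pull (pair (𝟙 S.X) b)) h1
  rw [map_mul, map_mul, T.pull_dl, ← T.pull_comp] at h2
  simpa only [pair_fst_assoc, pair_snd, Category.id_comp] using h2

theorem dl_mul_dl (a b c : S.X ⟶ X.X) : T.dl a b * T.dl a c = T.dl a b * T.dl b c := by
  have h := T.dl_subst a b (T.dl (sndH S X) (fstH S X ≫ c))
  rw [T.pull_dl, T.pull_dl] at h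
  simpa only [pair_fst_assoc, pair_snd, Category.id_comp] using h

theorem cl_point (s : (SmProj.pt k).X ⟶ X.X) :
    T.cl X (s.left (SmProj.pt k).gen) = T.push s 1 := by
  rw [← T.push_cl_section s (toPt X) (toPt_ext _ _), T.cl_gen]

/-- The locus where `a` is the rational point `s`. -/
theorem dl_point (s : (SmProj.pt k).X ⟶ X.X) (a : S.X ⟶ X.X) :
    T.dl (toPt S ≫ s) a = T.pull a (T.cl X (s.left (SmProj.pt k).gen)) := by
  have h1 : T.dl (fstH (SmProj.pt k) X ≫ s) (sndH _ X) =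
      T.pull (sndH (SmProj.pt k) X) (T.cl X (s.left (SmProj.pt k).gen)) := by
    rw [T.dl_graph, T.pull_snd_pt, T.cl_point, ← T.push_comp]
    congr 2
    exact prod_ext (toPt_ext _ _) (by simp)
  have h2 := congrArg (T.pull (pair (toPt S) a)) h1
  rw [T.pull_dl, ← T.pull_comp] at h2
  simpa only [pair_fst_assoc, pair_snd] using h2

theorem tr_cl_point (s : (SmProj.pt k).X ⟶ X.X) :
    T.tr X (T.cl X (s.left (SmProj.pt k).gen)) = 1 := by
  rw [T.cl_point, tr, ← T.push_comp, toPt_ext (s ≫ toPt X) (𝟙 _), T.push_id]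

theorem pt_eq (x : T.A (SmProj.pt k)) : ∃ q : ℚ, x = algebraMap ℚ _ q := by
  induction x using T.cl_ind with
  | h0 => exact ⟨0, (map_zero _).symm⟩
  | hadd a b ha hb =>
    obtain ⟨p, rfl⟩ := ha
    obtain ⟨q, rfl⟩ := hb
    exact ⟨p + q, (map_add _ _ _).symm⟩
  | h q z =>
    have := SmProj.pt_subsingleton (k := k)
    rw [Subsingleton.elim z (SmProj.pt k).gen, T.cl_gen]
    exact ⟨q, (Algebra.algebraMap_eq_smul_one q).symm⟩

theorem tr_int (w : T.A (S.prod Y)) : T.tr S (T.int S Y w) = T.tr (S.prod Y) w := by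
  rw [tr, tr, int, ← T.push_comp, toPt_ext (fstH S Y ≫ toPt S) (toPt _)]

/-- Pull-back of a subvariety along a projection. -/
theorem pull_cl_of_isProj {p : S.X ⟶ X.X} (hp : IsProj p) {z : S.X.left} (hz : Top p z) :
    T.pull p (T.cl X (p.left z)) = T.cl S z := by
  obtain ⟨Y, e, rfl⟩ := hp
  have h1 : Top (fstH X Y) (e.hom.left z) := by
    intro t ht
    have h2 : e.inv.left t ≤ z := by
      refine hz _ ?_
      change (fstH X Y).left (e.hom.left (e.inv.left t)) = (fstH X Y).left (e.hom.left z)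
      rw [left_apply_of_comp e.inv e.hom e.inv_hom_id, ht]
    have h3 : e.hom.left z ⤳ e.hom.left (e.inv.left t) :=
      Specializes.map h2 e.hom.left.continuous
    rwa [left_apply_of_comp e.inv e.hom e.inv_hom_id] at h3
  have h4 := T.pull_fst h1
  change T.pull (e.hom ≫ fstH X Y) (T.cl X ((fstH X Y).left (e.hom.left z))) = _
  rw [T.pull_comp, h4, ← T.push_eq_pull _ _ e.inv_hom_id e.hom_inv_id,
    T.push_cl_section _ _ e.inv_hom_id, left_apply_of_comp e.hom e.inv e.hom_inv_id]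

theorem clD_div (X : SmProj k) (φ : X.FF) (hφ : φ ≠ 0) : T.clD X (X.div φ) = 0 := by
  let c : X.X.left →₀ ℚ := ((X.div φ).mapRange (fun n : ℤ => (n : ℚ)) Int.cast_zero).embDomain
    (Function.Embedding.subtype _)
  have hc : c ∈ ratEq X := by
    refine Submodule.subset_span ⟨X.X.left, inferInstance, inferInstance, 𝟙 _, inferInstance, φ,
      hφ, fun t => ?_, fun x hx => absurd ⟨x, rfl⟩ hx⟩
    change c t = _
    by_cases ht : coheight t = 1
    · exact Finsupp.embDomain_apply_self (Function.Embedding.subtype _) _ ⟨t, ht⟩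
    · rw [Finsupp.embDomain_of_notMem_range, Scheme.ord_eq_zero_of_coheight_neq_one ht,
        Int.cast_zero]
      rintro ⟨s, rfl⟩
      exact ht s.2
  rw [← T.cl_ker, LinearMap.mem_ker, Finsupp.linearCombination_apply,
    Finsupp.sum_embDomain] at hc
  have h2 := Finsupp.sum_mapRange_index (f := fun n : ℤ => (n : ℚ)) (hf := Int.cast_zero)
    (g := X.div φ) (h := fun (t : X.Pr) (q : ℚ) => q • T.cl X t.1) (fun _ => zero_smul _ _)
  rw [clD, Finsupp.linearCombination_apply, ← hc]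
  refine Eq.trans ?_ h2.symm
  exact Finsupp.sum_congr fun t _ => (Int.cast_smul_eq_zsmul ℚ _ _).symm

end ChowTheory

end Pool.Agent.P.MP_638e8a_ag
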