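import Pool.Agent.P.MP_638e8a_ag.CDefs
import Pool.Agent.P.MP_90138e_ag.Image

/-!
Task CK FIB: fibres of projections.
-/

open CategoryTheory AlgebraicGeometry MonoidalCategory CartesianMonoidalCategory Order

universe u v w

namespace Pool.Agent.P.MP_638e8a_ag

open Pool.Agent.P.MP_90138e_ag
open Pool.Agent.P.MP_90138e_ag.WeilCohomology (fstH sndH)

variable {k : Type u} [Field k] {S S' X Y Z : SmProj k}

theorem isProj_fst (X Y : SmProj k) : IsProj (fstH X Y) := ⟨Y, Iso.refl _, Category.id_comp _⟩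

theorem isProj_snd (X Y : SmProj k) : IsProj (sndH X Y) := by
  refine ⟨X, ⟨pair (sndH X Y) (fstH X Y), pair (sndH Y X) (fstH Y X), ?_, ?_⟩, pair_fst _ _⟩
  · rw [comp_pair, pair_snd, pair_fst, pair_fst_snd]
  · rw [comp_pair, pair_snd, pair_fst, pair_fst_snd]

theorem isProj_id (X : SmProj k) : IsProj (𝟙 X.X) := by
  refine ⟨SmProj.pt k, ⟨pair (𝟙 _) (toPt X), fstH X _, pair_fst _ _, ?_⟩, pair_fst _ _⟩
  exact prod_ext (by simp) (toPt_ext _ _)

theorem IsProj.comp {p : S.X ⟶ X.X} {q : X.X ⟶ Y.X} (hp : IsProj p) (hq : IsProj q) :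
    IsProj (p ≫ q) := by
  obtain ⟨A, e, rfl⟩ := hp
  obtain ⟨B, e', rfl⟩ := hq
  refine ⟨B.prod A, e ≪≫ ⟨pair (fstH X A ≫ e'.hom ≫ fstH Y B)
      (pair (fstH X A ≫ e'.hom ≫ sndH Y B) (sndH X A)),
    pair (pair (fstH Y _) (sndH Y _ ≫ fstH B A) ≫ e'.inv) (sndH Y _ ≫ sndH B A), ?_, ?_⟩, ?_⟩
  · refine prod_ext ?_ (by simp)
    rw [Category.assoc, pair_fst, Category.id_comp, ← Category.assoc, Iso.comp_inv_eq]
    exact prod_ext (by simp) (by simp)
  · exact prod_ext (by simp) (prod_ext (by simp) (by simp))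
  · simp

theorem IsProj.prod {p : S.X ⟶ X.X} (hp : IsProj p) (Y : SmProj k) :
    IsProj (pair (fstH S Y ≫ p) (sndH S Y)) := by
  obtain ⟨A, e, rfl⟩ := hp
  refine ⟨A, ⟨pair (pair (fstH S Y ≫ e.hom ≫ fstH X A) (sndH S Y)) (fstH S Y ≫ e.hom ≫ sndH X A),
    pair (pair (fstH _ A ≫ fstH X Y) (sndH _ A) ≫ e.inv) (fstH _ A ≫ sndH X Y), ?_, ?_⟩, ?_⟩
  · refine prod_ext ?_ (by simp)
    rw [Category.assoc, pair_fst, Category.id_comp, ← Category.assoc, Iso.comp_inv_eq]
    exact prod_ext (by simp) (by simp)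
  · exact prod_ext (prod_ext (by simp) (by simp)) (by simp)
  · simp

/-- Properties stable under base change pass from the second factor to the projection. -/
theorem IsProj.of_baseChange {p : S.X ⟶ X.X} (hp : IsProj p) (P : MorphismProperty Scheme.{u})
    [P.IsStableUnderBaseChange] (h : ∀ A : SmProj k, P A.X.hom) : P p.left := by
  obtain ⟨A, e, rfl⟩ := hp
  have h1 : IsPullback (fstH X A).left (sndH X A).left X.X.hom A.X.hom :=
    IsPullback.of_hasPullback X.X.hom A.X.hom
  have h2 : IsPullback (e.hom ≫ fstH X A).left (e.hom ≫ sndH X A).left X.X.hom A.X.hom :=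
    h1.of_iso ((Over.forget _).mapIso e.symm) (Iso.refl _) (Iso.refl _) (Iso.refl _)
      (by simp [← Over.comp_left]) (by simp [← Over.comp_left]) (by simp) (by simp)
  exact P.of_isPullback h2.flip (h A)

theorem IsProj.geometricallyIntegral {p : S.X ⟶ X.X} (hp : IsProj p) :
    GeometricallyIntegral p.left :=
  hp.of_baseChange @GeometricallyIntegral fun A => A.integral

theorem IsProj.flat {p : S.X ⟶ X.X} (hp : IsProj p) : Flat p.left :=
  hp.of_baseChange @Flat fun _ => inferInstance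

theorem IsProj.isProper {p : S.X ⟶ X.X} (hp : IsProj p) : IsProper p.left :=
  hp.of_baseChange @IsProper fun _ => inferInstance

theorem IsProj.gen {p : S.X ⟶ X.X} (hp : IsProj p) : p.left S.gen = X.gen := by
  have := hp.geometricallyIntegral
  have h1 : IsGenericPoint (p.left S.gen) (closure (p.left '' Set.univ)) :=
    (genericPoint_spec S.X.left).image p.left.continuous
  rw [Set.image_univ, p.left.surjective.range_eq, closure_univ] at h1
  exact h1.eq (genericPoint_spec X.X.left)

theorem fiber_mem {A B : Scheme.{u}} (f : A ⟶ B) (y : B) (c : f.fiber y) :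
    f (f.fiberι y c) = y := (f.range_fiberι y).le ⟨c, rfl⟩

theorem IsProj.top_fiber {p : S.X ⟶ X.X} (z : X.X.left) [IsIntegral (p.left.fiber z)] :
    Top p (p.left.fiberι z (genericPoint _)) := by
  intro t ht
  obtain ⟨c, rfl⟩ := (p.left.range_fiberι z).ge (ht.trans (fiber_mem _ _ _))
  exact (genericPoint_specializes c).map (p.left.fiberι z).continuous

theorem IsProj.exists_top {p : S.X ⟶ X.X} (hp : IsProj p) (z : X.X.left) :
    ∃ z', p.left z' = z ∧ Top p z' := by
  have := hp.geometricallyIntegral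
  exact ⟨_, fiber_mem _ _ _, IsProj.top_fiber z⟩

theorem IsProj.le_top {p : S.X ⟶ X.X} (hp : IsProj p) {z' t : S.X.left} (hz : Top p z')
    (ht : p.left t ≤ p.left z') : t ≤ z' := by
  have := hp.flat
  obtain ⟨s, h1, h2⟩ := Flat.generalizingMap p.left (a := t) (b := p.left z') ht
  exact le_trans (show t ≤ s from h1) (hz s h2)

theorem max_fiber {A B : Scheme.{u}} (p : A ⟶ B) (y : B) (z : p.fiber y)
    (hz : IsField ((p.fiber y).presheaf.stalk z)) (x : A) (hx : p.fiberι y z = x) :
    IsLocalRing.maximalIdeal (A.presheaf.stalk x) =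
      (IsLocalRing.maximalIdeal (B.presheaf.stalk (p x))).map (p.stalkMap x).hom := by
  obtain rfl : p x = y := by rw [← hx, fiber_mem]
  set I := (IsLocalRing.maximalIdeal (B.presheaf.stalk (p x))).map (p.stalkMap x).hom
  have hI : I ≤ IsLocalRing.maximalIdeal (A.presheaf.stalk x) :=
    Ideal.map_le_iff_le_comap.2 fun a ha => map_nonunit (p.stalkMap x).hom a ha
  refine le_antisymm ?_ hI
  have hI' : I ≠ ⊤ := fun h =>
    (IsLocalRing.maximalIdeal.isMaximal _).ne_top (top_le_iff.1 (h ▸ hI))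
  have : Nontrivial (A.presheaf.stalk x ⧸ I) := Ideal.Quotient.nontrivial_iff.2 hI'
  have : IsLocalRing (A.presheaf.stalk x ⧸ I) :=
    .of_surjective' (Ideal.Quotient.mk I) Ideal.Quotient.mk_surjective
  have hl : IsLocalHom (Ideal.Quotient.mk I) := .of_surjective _ Ideal.Quotient.mk_surjective
  let R : CommRingCat.{u} := .of (A.presheaf.stalk x ⧸ I)
  let φ : A.presheaf.stalk x ⟶ R := CommRingCat.ofHom (Ideal.Quotient.mk I)
  let χ : B.residueField (p x) ⟶ R := CommRingCat.ofHom (Ideal.Quotient.lift _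
    ((Ideal.Quotient.mk I).comp (p.stalkMap x).hom) fun a ha =>
      Ideal.Quotient.eq_zero_iff_mem.2 (Ideal.mem_map_of_mem _ ha))
  have hχ : p.stalkMap x ≫ φ = B.residue _ ≫ χ := rfl
  have h1 : (Spec.map φ ≫ A.fromSpecStalk x) ≫ p =
      Spec.map χ ≫ B.fromSpecResidueField (p x) := by
    rw [Category.assoc, ← Scheme.SpecMap_stalkMap_fromSpecStalk, ← Spec.map_comp_assoc, hχ,
      Spec.map_comp_assoc]
    rfl
  have H : IsPullback (p.fiberι (p x)) (p.fiberToSpecResidueField (p x)) p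
      (B.fromSpecResidueField (p x)) := IsPullback.of_hasPullback _ _
  have h4 := H.lift_fst _ _ h1
  generalize H.lift _ _ h1 = g at h4
  have h5 : g (IsLocalRing.closedPoint R) = z := (p.fiberι (p x)).isEmbedding.injective (by
    rw [← Scheme.Hom.comp_apply, h4, Scheme.Hom.comp_apply]
    have : IsLocalHom φ.hom := hl
    rw [Spec_closedPoint, Scheme.fromSpecStalk_closedPoint, hx])
  generalize p.fiberι (p x) = ι at hx h4
  generalize p.fiber (p x) = F at z hz g h5 ι hx h4
  clear H h1 hχ χ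
  subst hx
  obtain ⟨ψ, hψ⟩ := ProdAux.factor ι z φ g h5 h4
  intro a ha
  have h6 : (ι.stalkMap z).hom a = 0 := by
    have := map_nonunit (ι.stalkMap z).hom a ha
    rwa [(IsLocalRing.isField_iff_maximalIdeal_eq).1 hz, Ideal.mem_bot] at this
  have h7 : φ.hom a = 0 := by rw [hψ, CommRingCat.hom_comp, RingHom.comp_apply, h6, map_zero]
  exact Ideal.Quotient.eq_zero_iff_mem.1 h7

/-- The fibres are reduced at their generic points. -/
theorem IsProj.maximalIdeal_eq {p : S.X ⟶ X.X} (hp : IsProj p) {z' : S.X.left} (hz : Top p z') :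
    IsLocalRing.maximalIdeal (S.X.left.presheaf.stalk z') =
      (IsLocalRing.maximalIdeal (X.X.left.presheaf.stalk (p.left z'))).map
        (p.left.stalkMap z').hom := by
  have := hp.geometricallyIntegral
  refine max_fiber p.left (p.left z') (genericPoint _)
    (Field.toIsField (p.left.fiber (p.left z')).functionField) z' ?_
  have h1 := fiber_mem p.left (p.left z') (genericPoint _)
  exact (Specializes.antisymm (IsProj.top_fiber (p.left z') z' h1.symm) (hz _ h1)).eq

theorem IsProj.coheight_top {p : S.X ⟶ X.X} (hp : IsProj p) {z' : S.X.left} (hz : Top p z')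
    (h : coheight (p.left z') = 1) : coheight z' = 1 := by
  have h1 := hp.maximalIdeal_eq hz
  have := X.isDVR _ h
  obtain ⟨s, hs⟩ := IsDiscreteValuationRing.exists_irreducible (X.X.left.presheaf.stalk (p.left z'))
  rw [hs.maximalIdeal_eq, Ideal.map_span, Set.image_singleton] at h1
  have h2 : ¬ IsUnit ((p.left.stalkMap z').hom s) := by
    have : (p.left.stalkMap z').hom s ∈ IsLocalRing.maximalIdeal (S.X.left.presheaf.stalk z') := by
      rw [h1]
      exact Ideal.mem_span_singleton_self _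
    exact this
  have h3 := Ideal.height_span_singleton_le_one h2
  rw [← h1, ← WithBot.coe_le_coe, IsLocalRing.maximalIdeal_height_eq_ringKrullDim,
    ringKrullDim_stalk_eq_coheight, WithBot.coe_le_coe] at h3
  refine le_antisymm h3 (Order.one_le_iff_ne_zero.2 fun h0 => ?_)
  rw [(S.coheight_eq_zero_iff _).1 h0, hp.gen, (X.coheight_eq_zero_iff _).2 rfl] at h
  exact zero_ne_one h

theorem map_le (f : S.X ⟶ X.X) {t t' : S.X.left} (h : t ≤ t') : f.left t ≤ f.left t' :=
  Specializes.map h f.left.continuous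

theorem eq_of_le_of_coheight {t t' : X.X.left} (h : t ≤ t') (h' : coheight t ≤ coheight t') :
    t = t' := by
  by_contra h0
  have h1 : t < t' := lt_of_le_not_ge h fun h2 => h0 (Specializes.antisymm h2 h).eq
  exact absurd h' (not_le.2 (coheight_strictAnti h1 (X.coheight_ne_top t').lt_top))

theorem ffMap_comp (f : S.X ⟶ X.X) (g : X.X ⟶ Y.X) (hf : f.left S.gen = X.gen)
    (hg : g.left X.gen = Y.gen) (hfg : (f ≫ g).left S.gen = Y.gen) (φ : Y.FF) :
    SmProj.ffMap (f ≫ g) hfg φ = SmProj.ffMap f hf (SmProj.ffMap g hg φ) := by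
  obtain ⟨s, rfl⟩ : Y.Reg (g.left (f.left S.gen)) φ := by
    rw [hf, hg]
    exact Y.reg_gen φ
  rw [SmProj.ffMap_algebraMap g hg, SmProj.ffMap_algebraMap f hf]
  refine (SmProj.ffMap_algebraMap (f ≫ g) hfg S.gen s).trans ?_
  congr 1
  exact congrArg (fun a => a.hom s) (Scheme.Hom.stalkMap_comp f.left g.left S.gen)

theorem van_of_ffMap (f : S.X ⟶ X.X) (hf : f.left S.gen = X.gen) (t : S.X.left) (φ : X.FF)
    (h : X.Reg (f.left t) φ) (h' : S.Van t (SmProj.ffMap f hf φ)) : X.Van (f.left t) φ := by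
  obtain ⟨s, rfl⟩ := h
  obtain ⟨s', hs', e⟩ := h'
  rw [SmProj.ffMap_algebraMap] at e
  rw [IsFractionRing.injective _ S.FF e] at hs'
  exact ⟨s, fun hu => hs' (hu.map (f.left.stalkMap t).hom), rfl⟩

/-- Chains of specializations lift along a projection. -/
theorem IsProj.exists_chain {p : S.X ⟶ X.X} (hp : IsProj p) (t : S.X.left)
    (ht : p.left t = X.gen) (n : ℕ) (y : X.X.left) (hy : coheight y = n) :
    ∃ s, p.left s = y ∧ coheight t + n ≤ coheight s := by
  have := hp.isProper
  have H := p.left.isClosedMap.specializingMap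
  induction n generalizing y with
  | zero =>
    exact ⟨t, ht.trans ((X.coheight_eq_zero_iff y).1 hy).symm, by simp⟩
  | succ n ih =>
    obtain ⟨y', h1, h2⟩ := (coe_lt_coheight_iff (n := n) (X.coheight_ne_top y).lt_top).1
      (by rw [hy]; exact_mod_cast n.lt_succ_self)
    obtain ⟨s', rfl, h3⟩ := ih y' h2
    obtain ⟨s, h4, rfl⟩ := H (a := s') (b := y) h1.le
    have h5 : s < s' := lt_of_le_not_ge h4 fun h6 => h1.not_ge (map_le p h6)
    refine ⟨s, rfl, le_trans ?_ (coheight_add_one_le h5)⟩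
    rw [Nat.cast_succ, ← add_assoc]
    exact add_le_add_left h3 _

variable [IsAlgClosed k] {K : Type v} [Field K] [CharZero K] (W : WeilCohomology.{u, v, w} k K)

include W in
theorem curve_point {C : SmProj k} (hC : C.dim = 1) (x : C.X.left) :
    x = C.gen ∨ (coheight x = 1 ∧ IsClosed {x}) := by
  by_cases h0 : coheight x = 0
  · exact Or.inl ((C.coheight_eq_zero_iff x).1 h0)
  have h1 := W.coheight_le_dim C x
  rw [hC, Nat.cast_one] at h1
  have h2 : coheight x = 1 := le_antisymm h1 (Order.one_le_iff_ne_zero.2 h0)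
  exact Or.inr ⟨h2, W.isClosed_of_coheight C x (by rw [h2, hC, Nat.cast_one])⟩

include W in
/-- The fibres of a projection onto a curve are prime divisors, and orders of functions are
preserved by pull-back. -/
theorem IsProj.exists_fibre {C : SmProj k} (hC : C.dim = 1) {q : S.X ⟶ C.X} (hq : IsProj q) :
    ∃ D : C.Pr → S.Pr, (∀ P, q.left (D P).1 = P.1) ∧ (∀ P, Top q (D P).1) ∧
      ∀ (G : S.Pr) (g : C.FF),
        S.X.left.ord (SmProj.ffMap q hq.gen g) G.1 = C.X.left.ord g (q.left G.1) := by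
  choose D h1 h2 using hq.exists_top
  have h3 : ∀ P : C.Pr, coheight (D P.1) = 1 := fun P =>
    hq.coheight_top (h2 _) (by rw [h1, P.2])
  refine ⟨fun P => ⟨D P.1, h3 P⟩, fun P => h1 _, fun P => h2 _, fun G g => ?_⟩
  rcases curve_point W hC (q.left G.1) with h | ⟨h, -⟩
  · by_cases h0 : g = 0
    · simp [h0]
    rw [ProdAux.ord_ffMap_unit q hq.gen G.1 G.2 g h0 (h ▸ C.reg_gen _) (h ▸ C.reg_gen _),
      Scheme.ord_eq_zero_of_coheight_neq_one]
    rw [h, (C.coheight_eq_zero_iff _).2 rfl]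
    exact zero_ne_one
  · have h4 : G.1 = D (q.left G.1) :=
      eq_of_le_of_coheight (h2 _ _ (h1 _).symm) (by rw [G.2, h3 ⟨_, h⟩])
    exact ProdAux.ord_ffMap q hq.gen G.1 G.2 h (hq.maximalIdeal_eq (h4 ▸ h2 _)) g

include W in
theorem coheight_le_one (Q : SmProj k) {C : SmProj k} (hC : C.dim = 1) (t : (Q.prod C).X.left)
    (ht : (fstH Q C).left t = Q.gen) : coheight t ≤ 1 := by
  obtain ⟨y, hy, -⟩ := Q.exists_closed_le Q.gen
  obtain ⟨s, -, hs⟩ := (isProj_fst Q C).exists_chain t ht Q.dim y (W.coheight_closed Q y hy)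
  have h1 : coheight s ≤ (Q.dim + C.dim : ℕ) := W.coheight_le_dim (Q.prod C) s
  rw [hC, Nat.cast_succ, add_comm] at h1
  exact (ENat.add_le_add_iff_right (ENat.natCast_ne_top Q.dim)).1 (hs.trans h1)

include W in
/-- The non-generic points of the generic fibre of `Q × C → Q`. -/
theorem fibre_point (Q : SmProj k) {C : SmProj k} (hC : C.dim = 1) (t : (Q.prod C).X.left)
    (ht : (fstH Q C).left t = Q.gen) (ht' : t ≠ (Q.prod C).gen) :
    coheight t = 1 ∧ (fstH Q C).left.residueDegree t ≠ 0 := by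
  have h1 : coheight t = 1 := le_antisymm (coheight_le_one W Q hC t ht)
    (Order.one_le_iff_ne_zero.2 fun h0 => ht' (((Q.prod C).coheight_eq_zero_iff t).1 h0))
  have := (isProj_fst Q C).isProper
  obtain ⟨c, hc⟩ := ((fstH Q C).left.range_fiberι Q.gen).ge ht
  refine ⟨h1, residueDegree_ne_zero_of_isClosed _ t Q.gen ht c hc ?_⟩
  have h2 : ({c} : Set ((fstH Q C).left.fiber Q.gen)) =
      (fstH Q C).left.fiberι Q.gen ⁻¹' closure {t} := by
    ext c'
    refine ⟨fun h => ?_, fun h => ((fstH Q C).left.fiberι Q.gen).isEmbedding.injective ?_⟩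
    · rw [Set.mem_singleton_iff.1 h, Set.mem_preimage, hc]
      exact subset_closure rfl
    · rw [hc]
      exact eq_of_le_of_coheight (specializes_iff_mem_closure.2 h)
        (h1 ▸ coheight_le_one W Q hC _ (fiber_mem _ _ _))
  rw [h2]
  exact isClosed_closure.preimage ((fstH Q C).left.fiberι Q.gen).continuous

end Pool.Agent.P.MP_638e8a_ag
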