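import Pool.Agent.P.MP_638e8a_ag.ChPts
import Pool.Agent.P.MP_638e8a_ag.GFib
import Pool.Agent.P.MP_638e8a_ag.CBasic

/-!
Working definitions for the construction of the Chow ring: families of ideals, cutting cycles by
locally complete intersections, products, sections of line bundles, divisors of functions.
-/

open CategoryTheory AlgebraicGeometry IsLocalRing TopologicalSpace

universe u

namespace Pool.Agent.P.MP_638e8a_ag.Cyc

open Pool.Agent.P.MP_90138e_ag
open Pool.Agent.P.MP_90138e_ag.WeilCohomology (fstH sndH)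

/-- `g` is a multiplicity system on `M`: the support of `M / g M` consists of maximal ideals. -/
def MS {R : Type u} [CommRing R] (g : List R) (M : Type u) [AddCommGroup M] [Module R M] : Prop :=
  ∀ P ∈ Module.support R M, Ideal.ofList g ≤ P.asIdeal → P.asIdeal.IsMaximal

/-- The filter generated by the complements of affine hyperplanes. -/
def genF (k : Type u) [Field k] (V : Type u) [AddCommGroup V] [Module k V] : Filter V :=
  ⨅ (φ : V →ₗ[k] k) (_ : φ ≠ 0) (c : k), Filter.principal {β | φ β ≠ c}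

/-- `Q` holds when the rows `0, ..., n - 1` are chosen generically one after the other. -/
def RowGen (k : Type u) [Field k] {V : Type u} [AddCommGroup V] [Module k V] (n : ℕ)
    (Q : (ℕ → V) → Prop) : Prop :=
  ∃ P : ℕ → (ℕ → V) → Prop, (∀ A, P 0 A) ∧
    (∀ r < n, ∀ A, P r A → ∀ᶠ β in genF k V, P (r + 1) (Function.update A r β)) ∧
    ∀ A, P n A → Q A

section Schemes

variable {X Y : Scheme.{u}}

/-- A closed subscheme, given by its ideals in the local rings. -/
@[ext]
structure IF (X : Scheme.{u}) where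
  J : ∀ x : X, Ideal (St x)
  spec : ∀ {x y : X} (h : x ≤ y), J y = (J x).map (sp h)
  closed : IsClosed {x | J x ≠ ⊤}

namespace IF

/-- The support. -/
def supp (I : IF X) : Set X := {x | I.J x ≠ ⊤}

theorem isClosed_supp (I : IF X) : IsClosed I.supp := I.closed

theorem mem_supp {I : IF X} {x : X} : x ∈ I.supp ↔ I.J x ≠ ⊤ := Iff.rfl

/-- Locally generated by `d` elements. -/
def Gen (I : IF X) (d : ℕ) : Prop :=
  ∀ x ∈ I.supp, ∃ g : List (St x), g.length = d ∧ Ideal.ofList g = I.J x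

/-- The reduced subscheme structure on the closure of `v`. -/
noncomputable def prime (v : X) : IF X where
  J x := primeOf x v
  spec h := primeOf_spec h v
  closed := by simpa only [primeOf_ne_top] using isClosed_le v

@[simp]
theorem prime_J (v x : X) : (prime v).J x = primeOf x v := rfl

@[simp]
theorem mem_supp_prime {v x : X} : x ∈ (prime v).supp ↔ x ≤ v := primeOf_ne_top

/-- The inverse image. -/
noncomputable def comap (I : IF Y) (f : X ⟶ Y) : IF X where
  J x := (I.J (f x)).map (stm f x)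
  spec {x y} h := by
    rw [I.spec (map_le f h), Ideal.map_map, Ideal.map_map]
    congr 1
    exact RingHom.ext fun a => (sp_stm f h a).symm
  closed := by
    simp only [map_stm_ne_top]
    exact I.closed.preimage f.continuous

@[simp]
theorem comap_J (I : IF Y) (f : X ⟶ Y) (x : X) : (I.comap f).J x = (I.J (f x)).map (stm f x) := rfl

@[simp]
theorem mem_supp_comap {I : IF Y} {f : X ⟶ Y} {x : X} : x ∈ (I.comap f).supp ↔ f x ∈ I.supp :=
  map_stm_ne_top f x _

theorem comap_comp {Z : Scheme.{u}} (I : IF Z) (f : X ⟶ Y) (g : Y ⟶ Z) :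
    I.comap (f ≫ g) = (I.comap g).comap f := by
  refine IF.ext (funext fun x => ?_)
  rw [comap_J, comap_J, comap_J, Ideal.map_map]
  congr 1
  exact RingHom.ext (stm_comp f g x)

theorem Gen.comap {I : IF Y} {d : ℕ} (h : I.Gen d) (f : X ⟶ Y) : (I.comap f).Gen d := by
  intro x hx
  obtain ⟨g, h1, h2⟩ := h _ (mem_supp_comap.1 hx)
  exact ⟨g.map (stm f x), by simpa using h1, by rw [comap_J, ← h2, Ideal.map_ofList]⟩

/-- The intersection of two closed subschemes. -/
noncomputable def add (I I' : IF X) : IF X where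
  J x := I.J x ⊔ I'.J x
  spec h := by rw [I.spec h, I'.spec h, Ideal.map_sup]
  closed := by
    simp only [sup_ne_top]
    exact I.closed.inter I'.closed

@[simp]
theorem add_J (I I' : IF X) (x : X) : (I.add I').J x = I.J x ⊔ I'.J x := rfl

@[simp]
theorem mem_supp_add {I I' : IF X} {x : X} : x ∈ (I.add I').supp ↔ x ∈ I.supp ∧ x ∈ I'.supp :=
  sup_ne_top

theorem add_comm (I I' : IF X) : I.add I' = I'.add I :=
  IF.ext (funext fun _ => sup_comm _ _)

theorem comap_add (I I' : IF Y) (f : X ⟶ Y) :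
    (I.add I').comap f = (I.comap f).add (I'.comap f) :=
  IF.ext (funext fun _ => Ideal.map_sup _ _ _)

theorem Gen.add {I I' : IF X} {d d' : ℕ} (h : I.Gen d) (h' : I'.Gen d') :
    (I.add I').Gen (d + d') := by
  intro x hx
  obtain ⟨g, h1, h2⟩ := h _ (mem_supp_add.1 hx).1
  obtain ⟨g', h1', h2'⟩ := h' _ (mem_supp_add.1 hx).2
  exact ⟨g ++ g', by simp [h1, h1'], by rw [Ideal.ofList_append, h2, h2', add_J]⟩

/-- `x` is a component of the intersection with `v`. -/
def Comp (I : IF X) (v x : X) : Prop := Maximal (fun s => s ∈ I.supp ∧ s ≤ v) x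

/-- The intersection with `v` has codimension at least `d` in `v`. -/
def Pr (I : IF X) (d : ℕ) (v : X) : Prop := ∀ x ∈ I.supp, x ≤ v → dm x + d ≤ dm v

open Classical in
/-- The multiplicity of `x` in the intersection with `v`. -/
noncomputable def cm (I : IF X) (d : ℕ) (v x : X) : ℤ :=
  if I.Comp v x then emI d (I.J x) (primeOf x v) else 0

theorem finite_comp [NoetherianSpace X] (I : IF X) (v : X) : {x | I.Comp v x}.Finite :=
  finite_maximal (I.closed.inter (isClosed_le v))

theorem exists_comp [NoetherianSpace X] (I : IF X) {v x : X} (h : x ∈ I.supp) (h' : x ≤ v) :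
    ∃ y, x ≤ y ∧ I.Comp v y :=
  exists_maximal (I.closed.inter (isClosed_le v)) ⟨h, h'⟩

theorem cm_of_comp {I : IF X} (d : ℕ) {v x : X} (h : I.Comp v x) :
    I.cm d v x = emI d (I.J x) (primeOf x v) := if_pos h

theorem cm_of_not_comp {I : IF X} (d : ℕ) {v x : X} (h : ¬ I.Comp v x) : I.cm d v x = 0 := if_neg h

/-- The intersection cycle with a subvariety. -/
noncomputable def cutPt [NoetherianSpace X] (I : IF X) (d : ℕ) (v : X) : X →₀ ℚ :=
  Finsupp.onFinset (I.finite_comp v).toFinset (fun x => (I.cm d v x : ℚ)) fun x hx => by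
    by_contra h
    exact hx (by rw [cm_of_not_comp d (by simpa using h), Int.cast_zero])

/-- The intersection with a cycle. -/
noncomputable def cut [NoetherianSpace X] (I : IF X) (d : ℕ) : (X →₀ ℚ) →ₗ[ℚ] (X →₀ ℚ) :=
  Finsupp.linearCombination ℚ (I.cutPt d)

theorem cut_single_apply [NoetherianSpace X] (I : IF X) (d : ℕ) (v x : X) :
    I.cut d (Finsupp.single v 1) x = I.cm d v x := by
  simp [cut, cutPt]

theorem comp_of_mem_cut [NoetherianSpace X] {I : IF X} {d : ℕ} {v x : X}
    (h : x ∈ (I.cut d (Finsupp.single v 1)).support) : I.Comp v x := by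
  by_contra h'
  rw [Finsupp.mem_support_iff, cut_single_apply, cm_of_not_comp d h', Int.cast_zero] at h
  exact h rfl

/-- The point `ι` with values in a local ring lies on the closed subscheme. -/
def Kills (I : IF X) {R : CommRingCat.{u}} [IsLocalRing R] (ι : Spec R ⟶ X) : Prop :=
  I.J (ι (closedPoint R)) ≤ RingHom.ker (Scheme.stalkClosedPointTo ι).hom

end IF

theorem pushZ_single (f : X ⟶ Y) (x : X) (q : ℚ) :
    pushZ f (Finsupp.single x q) = Finsupp.single (f x) (q * f.residueDegree x) := by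
  simp [pushZ]

/-- A family of sections of a line bundle, given by germs that are defined up to units. -/
structure Sec (X : Scheme.{u}) (σ : Type) where
  s : ∀ x : X, σ → St x
  loc : ∀ x, ∃ (U : X.Opens) (_ : x ∈ U) (t : σ → Γ(X, U)), ∀ (y : X) (hy : y ∈ U),
    ∃ c : (St y)ˣ, ∀ i, s y i = c * X.presheaf.germ U y hy (t i)

namespace Sec

variable {σ τ : Type}

theorem exists_unit (a : Sec X σ) {x y : X} (h : x ≤ y) :
    ∃ c : (St y)ˣ, ∀ i, a.s y i = c * sp h (a.s x i) := by
  obtain ⟨U, hx, t, ht⟩ := a.loc x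
  obtain ⟨c, hc⟩ := ht x hx
  obtain ⟨c', hc'⟩ := ht y (mem_of_le h hx)
  refine ⟨c' * (Units.map (sp h).toMonoidHom c)⁻¹, fun i => ?_⟩
  rw [hc, hc', map_mul, sp_germ, Units.val_mul, mul_assoc]
  congr 1
  exact (Units.inv_mul_cancel_left (Units.map (sp h).toMonoidHom c) _).symm

theorem isOpen_unit (a : Sec X σ) (i : σ) : IsOpen {x | IsUnit (a.s x i)} := by
  refine isOpen_iff_forall_mem_open.2 fun x hx => ?_
  obtain ⟨U, hU, t, ht⟩ := a.loc x
  refine ⟨X.basicOpen (t i), fun y hy => ?_, (X.basicOpen (t i)).isOpen, ?_⟩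
  · have hy' := X.basicOpen_le _ hy
    obtain ⟨c, hc⟩ := ht y hy'
    change IsUnit _
    rw [hc]
    exact c.isUnit.mul ((Scheme.mem_basicOpen _ _ _ hy').1 hy)
  · obtain ⟨c, hc⟩ := ht x hU
    have h1 : IsUnit (a.s x i) := hx
    rw [hc] at h1
    exact (Scheme.mem_basicOpen _ _ _ hU).2 (isUnit_of_mul_isUnit_right h1)

theorem span_ne_top {R : Type*} [CommRing R] [IsLocalRing R] (s : σ → R) :
    Ideal.span (Set.range s) ≠ ⊤ ↔ ∀ i, s i ∈ maximalIdeal R := by
  refine ⟨fun h i => le_maximalIdeal h (Ideal.subset_span ⟨i, rfl⟩), fun h h' => ?_⟩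
  have : Ideal.span (Set.range s) ≤ maximalIdeal R := Ideal.span_le.2 (Set.range_subset_iff.2 h)
  exact (maximalIdeal.isMaximal R).ne_top (top_le_iff.1 (h' ▸ this))

theorem span_unit_mul {R : Type*} [CommRing R] (c : Rˣ) (s : σ → R) :
    Ideal.span (Set.range fun i => c * s i) = Ideal.span (Set.range s) := by
  refine le_antisymm (Ideal.span_le.2 (Set.range_subset_iff.2 fun i =>
    Ideal.mul_mem_left _ _ (Ideal.subset_span ⟨i, rfl⟩)))
    (Ideal.span_le.2 (Set.range_subset_iff.2 fun i => ?_))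
  have h : (c * s i : R) ∈ Ideal.span (Set.range fun i => c * s i) := Ideal.subset_span ⟨i, rfl⟩
  simpa using Ideal.mul_mem_left _ (↑c⁻¹ : R) h

/-- The common zero scheme of the sections. -/
noncomputable def zero (a : Sec X σ) : IF X where
  J x := Ideal.span (Set.range (a.s x))
  spec {x y} h := by
    obtain ⟨c, hc⟩ := a.exists_unit h
    rw [funext hc, span_unit_mul, Ideal.map_span, ← Set.range_comp]
    rfl
  closed := by
    simp only [span_ne_top, Set.ofPred_forall]
    exact isClosed_iInter fun i => (a.isOpen_unit i).isClosed_compl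

@[simp]
theorem zero_J (a : Sec X σ) (x : X) : a.zero.J x = Ideal.span (Set.range (a.s x)) := rfl

theorem mem_supp_zero {a : Sec X σ} {x : X} :
    x ∈ a.zero.supp ↔ ∀ i, a.s x i ∈ maximalIdeal (St x) := span_ne_top _

/-- The sections have no common zero. -/
def Bpf (a : Sec X σ) : Prop := ∀ x, ∃ i, IsUnit (a.s x i)

/-- Pull-back of sections. -/
noncomputable def comap (a : Sec Y σ) (f : X ⟶ Y) : Sec X σ where
  s x i := stm f x (a.s (f x) i)
  loc x := by
    obtain ⟨U, hU, t, ht⟩ := a.loc (f x)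
    refine ⟨f ⁻¹ᵁ U, hU, fun i => f.app U (t i), fun y hy => ?_⟩
    obtain ⟨c, hc⟩ := ht (f y) hy
    refine ⟨Units.map (stm f y).toMonoidHom c, fun i => ?_⟩
    rw [hc, map_mul, Scheme.Hom.germ_stalkMap_apply]
    rfl

theorem Bpf.comap {a : Sec Y σ} (h : a.Bpf) (f : X ⟶ Y) : (a.comap f).Bpf := fun x =>
  (h (f x)).imp fun _ hi => hi.map _

theorem zero_comap (a : Sec Y σ) (f : X ⟶ Y) : (a.comap f).zero = a.zero.comap f := by
  refine IF.ext (funext fun x => ?_)
  rw [IF.comap_J, zero_J, zero_J, Ideal.map_span, ← Set.range_comp]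
  rfl

/-- A subfamily. -/
def sub (a : Sec X σ) (e : τ → σ) : Sec X τ where
  s x j := a.s x (e j)
  loc x := by
    obtain ⟨U, hU, t, ht⟩ := a.loc x
    exact ⟨U, hU, fun j => t (e j), fun y hy => (ht y hy).imp fun _ hc j => hc (e j)⟩

/-- One section. -/
def one (a : Sec X σ) (i : σ) : Sec X Unit := a.sub fun _ => i

theorem one_gen (a : Sec X σ) (i : σ) : (a.one i).zero.Gen 1 := fun x _ =>
  ⟨[a.s x i], rfl, by simp [one, sub]⟩

theorem exists_loc₂ (a : Sec X σ) (b : Sec X τ) (x : X) :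
    ∃ (U : X.Opens) (_ : x ∈ U) (t : σ → Γ(X, U)) (t' : τ → Γ(X, U)), ∀ (y : X) (hy : y ∈ U),
      ∃ c c' : (St y)ˣ, (∀ i, a.s y i = c * X.presheaf.germ U y hy (t i)) ∧
        ∀ j, b.s y j = c' * X.presheaf.germ U y hy (t' j) := by
  obtain ⟨U, hU, t, ht⟩ := a.loc x
  obtain ⟨U', hU', t', ht'⟩ := b.loc x
  refine ⟨U ⊓ U', ⟨hU, hU'⟩, fun i => X.presheaf.map (homOfLE inf_le_left).op (t i),
    fun j => X.presheaf.map (homOfLE inf_le_right).op (t' j), fun y hy => ?_⟩
  obtain ⟨c, hc⟩ := ht y hy.1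
  obtain ⟨c', hc'⟩ := ht' y hy.2
  refine ⟨c, c', fun i => ?_, fun j => ?_⟩
  · rw [hc, TopCat.Presheaf.germ_res_apply]
  · rw [hc', TopCat.Presheaf.germ_res_apply]

/-- Products of sections. -/
noncomputable def mul (a : Sec X σ) (b : Sec X τ) : Sec X (σ × τ) where
  s x ij := a.s x ij.1 * b.s x ij.2
  loc x := by
    obtain ⟨U, hU, t, t', h⟩ := exists_loc₂ a b x
    refine ⟨U, hU, fun ij => t ij.1 * t' ij.2, fun y hy => ?_⟩
    obtain ⟨c, c', h1, h2⟩ := h y hy
    refine ⟨c * c', fun ij => ?_⟩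
    rw [h1, h2, map_mul, Units.val_mul]
    ring

/-- The two by two minors. -/
noncomputable def minor (a b : Sec X σ) : Sec X (σ × σ) where
  s x ij := a.s x ij.1 * b.s x ij.2 - a.s x ij.2 * b.s x ij.1
  loc x := by
    obtain ⟨U, hU, t, t', h⟩ := exists_loc₂ a b x
    refine ⟨U, hU, fun ij => t ij.1 * t' ij.2 - t ij.2 * t' ij.1, fun y hy => ?_⟩
    obtain ⟨c, c', h1, h2⟩ := h y hy
    refine ⟨c * c', fun ij => ?_⟩
    simp only [h1, h2, map_sub, map_mul, Units.val_mul]
    ring

end Sec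

/-- The cycle `c` is the divisor of the rational function `ψ` on the subvariety `v`. -/
def IsDivP (v : X) (ψ : Rf v) (c : X →₀ ℚ) : Prop :=
  (∀ (x : X) (h : x ≤ v), dm x + 1 = dm v → ∀ a b : St x, ev h b ≠ 0 → ev h a = ψ * ev h b →
    c x = (emult [a] (St x ⧸ primeOf x v) - emult [b] (St x ⧸ primeOf x v) : ℤ)) ∧
  ∀ x, ¬ (x ≤ v ∧ dm x + 1 = dm v) → c x = 0

/-- The span of the divisors of rational functions on subvarieties. -/
noncomputable def ratP (X : Scheme.{u}) : Submodule ℚ (X →₀ ℚ) :=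
  Submodule.span ℚ {c | ∃ (v : X) (ψ : Rf v), ψ ≠ 0 ∧ IsDivP v ψ c}

/-- The cycle has integral coefficients. -/
def IntZ (c : X →₀ ℚ) : Prop := ∀ x, ∃ n : ℤ, c x = n

/-- The points of the subvariety `v` over `y`. -/
abbrev Fib (f : X ⟶ Y) (v : X) (y : Y) : Type u := {x : X // x ≤ v ∧ f x = y}

/-- The semi-local ring of the subvariety `v` along the fibre over `y`, finite over the local
ring at `y`. -/
structure FinData (f : X ⟶ Y) (v : X) (y : Y) where
  B : Type u
  [ring : CommRing B]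
  [algA : Algebra (St y) B]
  fin : Module.Finite (St y) B
  n : Fib f v y → Ideal B
  n_max : ∀ x, (n x).IsMaximal
  n_inj : Function.Injective n
  n_surj : ∀ m : Ideal B, m.IsMaximal → ∃ x, n x = m
  [algC : ∀ x : Fib f v y, Algebra B (St x.1 ⧸ primeOf x.1 v)]
  loc : ∀ x : Fib f v y, haveI := (n_max x).isPrime
    IsLocalization.AtPrime (St x.1 ⧸ primeOf x.1 v) (n x)
  compat : ∀ (x : Fib f v y) (a : St y), algebraMap B (St x.1 ⧸ primeOf x.1 v) (algebraMap _ B a) =
    Ideal.Quotient.mk _ (stm f x.1 (sp x.2.2.ge a))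
  β : B →+* Rf v
  β_inj : Function.Injective β
  β_eq : ∀ (x : Fib f v y) (b : B) (a : St x.1),
    algebraMap B (St x.1 ⧸ primeOf x.1 v) b = Ideal.Quotient.mk _ a → β b = ev x.2.1 a

end Schemes

variable {k : Type u} [Field k] {S S' T U X Y : SmProj k}

instance isProper_left (f : X.X ⟶ Y.X) : IsProper f.left := by
  have : IsProper (f.left ≫ Y.X.hom) := by
    rw [Over.w f]
    infer_instance
  exact IsProper.of_comp f.left Y.X.hom

theorem isClosedImmersion_of_section (s : X.X ⟶ S.X) (p : S.X ⟶ X.X) (h : s ≫ p = 𝟙 _) :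
    IsClosedImmersion s.left := by
  have h2 : s.left ≫ p.left = 𝟙 _ := congrArg (fun f => f.left) h
  have : IsClosedImmersion (s.left ≫ p.left) := by
    rw [h2]
    infer_instance
  exact IsClosedImmersion.of_comp s.left p.left

theorem comp_left_apply (f : S.X ⟶ X.X) (g : X.X ⟶ Y.X) (x : S.X.left) :
    (f ≫ g).left x = g.left (f.left x) := rfl

/-- Cycles. -/
abbrev Zc (S : SmProj k) : Type u := S.X.left →₀ ℚ

/-- The cycle of a subvariety. -/
noncomputable abbrev cy {S : SmProj k} (x : S.X.left) : Zc S := Finsupp.single x 1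

/-- Constants in the local rings. -/
noncomputable def cst (S : SmProj k) (x : S.X.left) : k →+* St x :=
  (S.X.left.presheaf.germ ⊤ x trivial).hom.comp S.const

theorem stm_cst (f : X.X ⟶ Y.X) (x : X.X.left) (c : k) :
    stm f.left x (cst Y (f.left x) c) = cst X x c := by
  change (f.left.stalkMap x).hom ((Y.X.left.presheaf.germ ⊤ _ _).hom (Y.const c)) =
    (X.X.left.presheaf.germ ⊤ _ _).hom (X.const c)
  rw [Scheme.Hom.germ_stalkMap_apply, ← SmProj.const_comp f c]
  rfl

theorem sp_cst {x y : X.X.left} (h : x ≤ y) (c : k) : sp h (cst X x c) = cst X y c :=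
  sp_germ (U := ⊤) h trivial _

/-- The residue fields as `k`-algebras. -/
@[reducible]
noncomputable def algRf (S : SmProj k) (x : S.X.left) : Algebra k (Rf x) :=
  ((ev (le_refl x)).comp (cst S x)).toAlgebra

/-- Linear combinations of sections. -/
noncomputable def Sec.lin {σ τ : Type} [Fintype σ] (a : Sec S.X.left σ) (A : τ → σ → k) :
    Sec S.X.left τ where
  s x j := ∑ i, cst S x (A j i) * a.s x i
  loc x := by
    obtain ⟨U, hU, t, ht⟩ := a.loc x
    refine ⟨U, hU, fun j => ∑ i, S.X.left.presheaf.map (homOfLE le_top).op (S.const (A j i)) * t i,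
      fun y hy => ?_⟩
    obtain ⟨c, hc⟩ := ht y hy
    refine ⟨c, fun j => ?_⟩
    simp only [hc, map_sum, map_mul, Finset.mul_sum, TopCat.Presheaf.germ_res_apply]
    exact Finset.sum_congr rfl fun i _ => mul_left_comm _ _ _

/-- The first `d + 1` rows. -/
def rows {V : Type u} (d : ℕ) (A : ℕ → V) : Fin (d + 1) → V := fun j => A j

/-- `S` is the product of `X` and `Y` with projections `p`, `q`. -/
def IsProd (p : S.X ⟶ X.X) (q : S.X ⟶ Y.X) : Prop := IsPullback p.left q.left X.X.hom Y.X.hom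

/-- The product of two subvarieties. -/
noncomputable def extPt (p : S.X ⟶ X.X) (q : S.X ⟶ Y.X) (w : X.X.left) (v : Y.X.left) :
    S.X.left :=
  Classical.epsilon fun z => ∀ t, t ≤ z ↔ p.left t ≤ w ∧ q.left t ≤ v

/-- The exterior product of cycles. -/
noncomputable def extZ (p : S.X ⟶ X.X) (q : S.X ⟶ Y.X) : Zc X →ₗ[ℚ] Zc Y →ₗ[ℚ] Zc S :=
  Finsupp.linearCombination ℚ fun w => Finsupp.linearCombination ℚ fun v => cy (extPt p q w v)

theorem extZ_cy (p : S.X ⟶ X.X) (q : S.X ⟶ Y.X) (w : X.X.left) (v : Y.X.left) :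
    extZ p q (cy w) (cy v) = cy (extPt p q w v) := by
  simp [extZ]

/-- The locus where `a` and `b` agree. -/
noncomputable def Dg (a b : S.X ⟶ X.X) : IF S.X.left :=
  (IF.prime ((pair (𝟙 X.X) (𝟙 X.X)).left X.gen)).comap (pair a b).left

/-- The action of a locally complete intersection `M` in a product. -/
noncomputable def actM (p : S.X ⟶ X.X) (q : S.X ⟶ Y.X) (M : IF S.X.left) (d : ℕ) :
    Zc X →ₗ[ℚ] Zc Y →ₗ[ℚ] Zc X :=
  (extZ p q).compr₂ (pushZ p.left ∘ₗ M.cut d)

theorem actM_apply (p : S.X ⟶ X.X) (q : S.X ⟶ Y.X) (M : IF S.X.left) (d : ℕ) (α : Zc X)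
    (β : Zc Y) : actM p q M d α β = pushZ p.left (M.cut d (extZ p q α β)) := rfl

/-- The intersection cycle `α ·_f β`. -/
noncomputable def act (f : S.X ⟶ T.X) : Zc S →ₗ[ℚ] Zc T →ₗ[ℚ] Zc S :=
  actM (fstH S T) (sndH S T) (Dg (fstH S T ≫ f) (sndH S T)) T.dim

/-- `w` meets the inverse image of `v` properly. -/
def PrI (f : S.X ⟶ T.X) (w : S.X.left) (v : T.X.left) : Prop :=
  ∀ x, x ≤ w → f.left x ≤ v → dm x + T.dim ≤ dm w + dm v

/-- `α` meets the inverse image of `β` properly. -/
def PrA (f : S.X ⟶ T.X) (α : Zc S) (β : Zc T) : Prop :=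
  ∀ w ∈ α.support, ∀ v ∈ β.support, PrI f w v

/-- The multiplicity of `x` in `w ·_f v`. -/
noncomputable def icm (f : S.X ⟶ T.X) (w : S.X.left) (v : T.X.left) (x : S.X.left) : ℤ :=
  (Dg (fstH S T ≫ f) (sndH S T)).cm T.dim (extPt (fstH S T) (sndH S T) w v)
    ((pair (𝟙 S.X) f).left x)

/-- The projective line with its homogeneous coordinates; `s i` is the zero of `t i`. -/
structure Line (k : Type u) [Field k] where
  C : SmProj k
  dim : C.dim = 1
  t : Sec C.X.left (Fin 2)
  bpf : t.Bpf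
  s : Fin 2 → ((SmProj.pt k).X ⟶ C.X)
  zero : ∀ i, (t.one i).zero = IF.prime ((s i).left (SmProj.pt k).gen)
  univ : ∀ (L : Type u) [Field L] (c : Spec (.of L) ⟶ Spec (.of k)) (φ : L),
    ∃ ι : Spec (.of L) ⟶ C.X.left, ι ≫ C.X.hom = c ∧
      (Scheme.stalkClosedPointTo ι).hom (t.s _ 0) ≠ 0 ∧
      (Scheme.stalkClosedPointTo ι).hom (t.s _ 1) = φ * (Scheme.stalkClosedPointTo ι).hom (t.s _ 0)

end Pool.Agent.P.MP_638e8a_ag.Cyc
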