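import Pool.Agent.P.MP_638e8a_ag.ChA0
import Pool.Agent.P.MP_638e8a_ag.ChBase

/-!
Task CHOW A1: basic properties of the multiplicity symbol, additivity, vanishing.
-/

open IsLocalRing

universe u

namespace Pool.Agent.P.MP_638e8a_ag.Cyc

variable {R : Type u} [CommRing R] {M N P : Type u} [AddCommGroup M] [Module R M]
  [AddCommGroup N] [Module R N] [AddCommGroup P] [Module R P]

namespace A1

/-- The map induced on torsion submodules. -/
def tmap (x : R) (f : M →ₗ[R] N) : Submodule.torsionBy R M x →ₗ[R] Submodule.torsionBy R N x :=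
  f.restrict fun m hm => by
    rw [Submodule.mem_torsionBy_iff] at hm ⊢
    rw [← map_smul, hm, map_zero]

theorem tmap_inj (x : R) {f : M →ₗ[R] N} (hf : Function.Injective f) :
    Function.Injective (tmap x f) := fun _ _ h => Subtype.ext (hf (congrArg Subtype.val h))

theorem tmap_exact (x : R) {f : N →ₗ[R] M} {p : M →ₗ[R] P} (hf : Function.Injective f)
    (hfp : Function.Exact f p) : Function.Exact (tmap x f) (tmap x p) := by
  intro m
  constructor
  · intro h
    obtain ⟨n, hn⟩ := (hfp m.1).1 (congrArg Subtype.val h)
    refine ⟨⟨n, (Submodule.mem_torsionBy_iff _ _).2 (hf ?_)⟩, Subtype.ext hn⟩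
    rw [map_smul, hn, map_zero]
    exact (Submodule.mem_torsionBy_iff _ _).1 m.2
  · rintro ⟨n, rfl⟩
    exact Subtype.ext (hfp.apply_apply_eq_zero n.1)

theorem exact_tors (x : R) (M : Type u) [AddCommGroup M] [Module R M] :
    Function.Exact (Submodule.torsionBy R M x).subtype (LinearMap.lsmul R M x) := by
  intro m
  constructor
  · intro h
    exact ⟨⟨m, (Submodule.mem_torsionBy_iff _ _).2 h⟩, rfl⟩
  · rintro ⟨n, rfl⟩
    exact (Submodule.mem_torsionBy_iff _ _).1 n.2

theorem exact_quot (x : R) (M : Type u) [AddCommGroup M] [Module R M] :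
    Function.Exact (LinearMap.lsmul R M x)
      (Submodule.mkQ _ : M →ₗ[R] QuotSMulTop x M) := by
  intro m
  rw [Submodule.mkQ_apply, Submodule.Quotient.mk_eq_zero, Submodule.mem_smul_pointwise_iff_exists]
  constructor
  · rintro ⟨n, -, hn⟩
    exact ⟨n, hn⟩
  · rintro ⟨n, hn⟩
    exact ⟨n, trivial, hn⟩

theorem exists_delta (x : R) {f : N →ₗ[R] M} {p : M →ₗ[R] P} (hf : Function.Injective f)
    (hp : Function.Surjective p) (hfp : Function.Exact f p) :
    ∃ δ : Submodule.torsionBy R P x →ₗ[R] QuotSMulTop x N,
      Function.Exact (tmap x p) δ ∧ Function.Exact δ (QuotSMulTop.map x f) := by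
  have h1 : f.comp (LinearMap.lsmul R N x) = (LinearMap.lsmul R M x).comp f := by
    ext; simp
  have h2 : p.comp (LinearMap.lsmul R M x) = (LinearMap.lsmul R P x).comp p := by
    ext; simp
  exact ⟨SnakeLemma.δ' _ _ _ f p hfp f p hfp h1 h2 _ (exact_tors x P) _ (exact_quot x N) hp hf,
    SnakeLemma.exact_δ'_right _ _ _ f p hfp f p hfp h1 h2 _ (exact_tors x M) _ (exact_tors x P) _
      (exact_quot x N) hp hf _ rfl (Submodule.subtype_injective _),
    SnakeLemma.exact_δ'_left _ _ _ f p hfp f p hfp h1 h2 _ (exact_tors x P) _ (exact_quot x N) _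
      (exact_quot x M) hp hf _ (QuotSMulTop.map_comp_mkQ x f) (Submodule.mkQ_surjective _)⟩

/-- The additivity statement for a fixed list. -/
def Add (g : List R) : Prop :=
  ∀ (N M P : Type u) [AddCommGroup N] [Module R N] [AddCommGroup M] [Module R M]
    [Module.Finite R M] [AddCommGroup P] [Module R P] (f : N →ₗ[R] M) (p : M →ₗ[R] P),
    MS g M → Function.Injective f → Function.Surjective p → Function.Exact f p →
      emult g M = emult g N + emult g P

theorem Add.range {g : List R} (H : Add g) [Module.Finite R M] (h : MS g M) {f : N →ₗ[R] M}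
    {p : M →ₗ[R] P} (hfp : Function.Exact f p) :
    emult g M = emult g (LinearMap.range f) + emult g (LinearMap.range p) := by
  refine H _ M _ (LinearMap.range f).subtype p.rangeRestrict h (Submodule.subtype_injective _)
    p.surjective_rangeRestrict fun m => ?_
  constructor
  · intro hm
    exact ⟨⟨m, (hfp m).1 (congrArg Subtype.val hm)⟩, rfl⟩
  · rintro ⟨n, rfl⟩
    exact Subtype.ext ((hfp n.1).2 n.2)

theorem add [IsNoetherianRing R] (g : List R) : Add g := by
  induction g with
  | nil =>
    intro N M P _ _ _ _ _ _ _ f p h hf hp hfp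
    have h1 := h.length_ne_top
    have h2 := Module.length_eq_add_of_exact f p hf hp hfp
    rw [h2] at h1
    rw [emult_nil, emult_nil, emult_nil, h2,
      ENat.toNat_add (fun h3 => h1 (by rw [h3, top_add])) (fun h3 => h1 (by rw [h3, add_top]))]
    push_cast
    rfl
  | cons x g ih =>
    intro N M P _ _ _ _ _ _ _ f p h hf hp hfp
    have : Module.Finite R N := Module.Finite.of_injective f hf
    have : Module.Finite R P := Module.Finite.of_surjective p hp
    have hN := h.of_injective f hf
    have hP := h.of_surjective p hp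
    obtain ⟨δ, d1, d2⟩ := exists_delta x hf hp hfp
    have e1 := emult_congr (LinearEquiv.ofInjective _ (tmap_inj x hf)) g
    have e2 := ih.range h.torsion (tmap_exact x hf hfp)
    have e3 := ih.range hP.torsion d1
    have e4 := ih.range hN.quot d2
    have e5 := ih.range h.quot (QuotSMulTop.map_exact x hfp hp)
    have e6 := emult_congr (LinearEquiv.ofTop _
      (LinearMap.range_eq_top.2 (QuotSMulTop.map_surjective x hp))) g
    rw [emult_cons, emult_cons, emult_cons]
    omega

end A1

variable [IsNoetherianRing R] [Module.Finite R M]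

/-- Additivity on short exact sequences. -/
theorem emult_add {g : List R} (h : MS g M) (f : N →ₗ[R] M) (p : M →ₗ[R] P)
    (hf : Function.Injective f) (hp : Function.Surjective p) (hfp : Function.Exact f p) :
    emult g M = emult g N + emult g P :=
  A1.add g N M P f p h hf hp hfp

/-- Induction along a prime filtration. -/
theorem filtration_induction
    (F : ∀ (M : Type u) [AddCommGroup M] [Module R M] [Module.Finite R M], Prop)
    (s : Set (PrimeSpectrum R)) (hs : Module.support R M ⊆ s)
    (h0 : ∀ (M : Type u) [AddCommGroup M] [Module R M] [Module.Finite R M] [Subsingleton M], F M)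
    (h1 : ∀ (M : Type u) [AddCommGroup M] [Module R M] [Module.Finite R M] (Q : PrimeSpectrum R),
      Q ∈ s → Module.support R M ⊆ s → (M ≃ₗ[R] R ⧸ Q.asIdeal) → F M)
    (h2 : ∀ (N M P : Type u) [AddCommGroup N] [Module R N] [Module.Finite R N] [AddCommGroup M]
      [Module R M] [Module.Finite R M] [AddCommGroup P] [Module R P] [Module.Finite R P]
      (f : N →ₗ[R] M) (p : M →ₗ[R] P), Function.Injective f → Function.Surjective p →
      Function.Exact f p → Module.support R M ⊆ s → F N → F P → F M) : F M := by
  revert hs
  refine IsNoetherianRing.induction_on_isQuotientEquivQuotientPrime R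
    (motive := fun M _ _ _ => Module.support R M ⊆ s → F M) ‹Module.Finite R M› ?_ ?_ ?_
  · intro N _ _ _ _ _
    exact h0 N
  · intro N _ _ _ Q e hN
    refine h1 N Q (hN ?_) hN e
    rw [e.support_eq, Module.mem_support_iff_of_finite, Ideal.annihilator_quotient]
  · intro N _ _ _ M _ _ _ P _ _ _ f p hf hp hfp a b hM
    exact h2 N M P f p hf hp hfp hM (a ((Module.support_subset_of_injective f hf).trans hM))
      (b ((Module.support_subset_of_surjective p hp).trans hM))

variable [IsLocalRing R]

theorem emult_eq_zero_of_dim_lt {g : List R} (h : MS g M)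
    (hd : ∀ Q ∈ Module.support R M, ringKrullDim (R ⧸ Q.asIdeal) < g.length) : emult g M = 0 := by
  induction g generalizing M with
  | nil =>
    have : Subsingleton M := by
      rw [← Module.support_eq_empty_iff (R := R), Set.eq_empty_iff_forall_notMem]
      intro Q hQ
      have h1 : (0 : WithBot ℕ∞) ≤ ringKrullDim (R ⧸ Q.asIdeal) := ringKrullDim_nonneg_of_nontrivial
      have h2 := hd Q hQ
      rw [List.length_nil, Nat.cast_zero] at h2
      exact h2.not_ge h1
    exact emult_of_subsingleton _
  | cons x g ih =>
    refine filtration_induction (R := R) (M := M) (fun N _ _ _ => emult (x :: g) N = 0)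
      (Module.support R M) subset_rfl (fun N _ _ _ _ => emult_of_subsingleton _) ?_ ?_
    · intro N _ _ _ Q hQ hN e
      have hN' : MS (x :: g) N := fun P hP => h P (hN hP)
      have hsm : ∀ n : N, e (x • n) = Ideal.Quotient.mk Q.asIdeal x * e n := fun n => by
        rw [map_smul, Algebra.smul_def, Ideal.Quotient.algebraMap_eq]
      by_cases hx : x ∈ Q.asIdeal
      · refine emult_eq_zero_of_smul_eq_zero List.mem_cons_self fun n => e.injective ?_
        rw [hsm, Ideal.Quotient.eq_zero_iff_mem.2 hx, zero_mul, map_zero]
      · have hx0 : Ideal.Quotient.mk Q.asIdeal x ≠ 0 :=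
          fun h0 => hx (Ideal.Quotient.eq_zero_iff_mem.1 h0)
        have : Subsingleton (Submodule.torsionBy R N x) := by
          refine subsingleton_of_forall_eq 0 fun n => Subtype.ext (e.injective ?_)
          have h1 := hsm n.1
          rw [(Submodule.mem_torsionBy_iff _ _).1 n.2, map_zero] at h1
          rw [(mul_eq_zero.1 h1.symm).resolve_left hx0]
          exact (map_zero e).symm
        rw [emult_cons, emult_of_subsingleton (M := Submodule.torsionBy R N x), sub_zero]
        refine ih hN'.quot fun P hP => ?_
        rw [Module.support_quotSMulTop] at hP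
        have hQP : Q.asIdeal ≤ P.asIdeal := by
          have h1 := hP.1
          rwa [e.support_eq, Module.mem_support_iff_of_finite, Ideal.annihilator_quotient] at h1
        have h1 := ringKrullDim_succ_le_of_surjective (Ideal.Quotient.factor hQP)
          (Ideal.Quotient.factor_surjective hQP) (mem_nonZeroDivisors_of_ne_zero hx0)
          (by
            rw [Ideal.Quotient.factor_mk, Ideal.Quotient.eq_zero_iff_mem]
            simpa using hP.2)
        have h2 := h1.trans_lt (hd Q hQ)
        rw [List.length_cons, Nat.cast_add, Nat.cast_one] at h2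
        by_contra h3
        exact h2.not_ge (add_le_add_left (not_lt.1 h3) 1)
    · intro N M' P _ _ _ _ _ _ _ _ _ f p hf hp hfp hM a b
      rw [emult_add (fun P hP => h P (hM hP)) f p hf hp hfp, a, b, add_zero]

end Pool.Agent.P.MP_638e8a_ag.Cyc
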