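import Pool.Agent.P.MP_638e8a_ag.ChA2b
import Pool.Agent.P.MP_638e8a_ag.ChA1

/-!
Task CHOW A2: the multiplicity symbol depends only on the ideal; positivity; multiplicity one.
-/

open IsLocalRing

universe u

namespace Pool.Agent.P.MP_638e8a_ag.Cyc

namespace A2

open scoped Pointwise

section

variable {R : Type u} [CommRing R] {M A B Z : Type u} [AddCommGroup M] [Module R M]
  [AddCommGroup A] [Module R A] [AddCommGroup B] [Module R B] [AddCommGroup Z] [Module R Z]

theorem mem_top {x : R} {m : M} : m ∈ x • (⊤ : Submodule R M) ↔ ∃ c, x • c = m := by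
  rw [Submodule.mem_smul_pointwise_iff_exists]
  simp

theorem mk_eq_zero {x : R} {m : M} :
    (Submodule.Quotient.mk m : QuotSMulTop x M) = 0 ↔ ∃ c, x • c = m := by
  rw [Submodule.Quotient.mk_eq_zero, mem_top]

theorem eq_of_ker (g : List R) (f : Z →ₗ[R] A) (f' : Z →ₗ[R] B) (hf : Function.Surjective f)
    (hf' : Function.Surjective f') (h : ∀ z, f z = 0 ↔ f' z = 0) : emult g A = emult g B :=
  emult_congr ((f.quotKerEquivOfSurjective hf).symm.trans
    ((Submodule.quotEquivOfEq _ _ (by ext z; exact h z)).trans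
      (f'.quotKerEquivOfSurjective hf'))) g

theorem eq_of_range (g : List R) (f : A →ₗ[R] Z) (f' : B →ₗ[R] Z) (hf : Function.Injective f)
    (hf' : Function.Injective f') (h : ∀ z, (∃ a, f a = z) ↔ ∃ b, f' b = z) :
    emult g A = emult g B :=
  emult_congr ((LinearEquiv.ofInjective f hf).trans
    ((LinearEquiv.ofEq _ _ (by ext z; exact h z)).trans (LinearEquiv.ofInjective f' hf').symm)) g

theorem ann_quot (x : R) :
    Module.annihilator R M ⊔ Ideal.span {x} ≤ Module.annihilator R (QuotSMulTop x M) := by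
  refine sup_le ((x • (⊤ : Submodule R M)).mkQ.annihilator_le_of_surjective
    (Submodule.mkQ_surjective _)) ?_
  rw [Ideal.span_singleton_le_iff_mem]
  exact QuotSMulTop.mem_annihilator M x

theorem ann_tors (x : R) :
    Module.annihilator R M ⊔ Ideal.span {x} ≤
      Module.annihilator R (Submodule.torsionBy R M x) := by
  refine sup_le ((Submodule.subtype _).annihilator_le_of_injective Subtype.val_injective) ?_
  rw [Ideal.span_singleton_le_iff_mem, Module.mem_annihilator]
  intro m
  exact Subtype.ext m.2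

theorem ms_of_le {g g' : List R} (h : MS g M)
    (hle : Ideal.ofList g ≤ Ideal.ofList g' ⊔ Module.annihilator R M) : MS g' M :=
  fun P hP hg => h P hP (hle.trans (sup_le hg (Module.annihilator_le_of_mem_support hP)))

theorem ofList_perm {g g' : List R} (hp : g.Perm g') : Ideal.ofList g = Ideal.ofList g' :=
  congrArg Ideal.span (Set.ext fun _ => hp.mem_iff)

theorem qq_le (x y : R) (m : M)
    (h : ((y • (⊤ : Submodule R (QuotSMulTop x M))).mkQ ∘ₗ (x • (⊤ : Submodule R M)).mkQ) m = 0) :
    ((x • (⊤ : Submodule R (QuotSMulTop y M))).mkQ ∘ₗ (y • (⊤ : Submodule R M)).mkQ) m = 0 := by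
  obtain ⟨c, hc⟩ := mk_eq_zero.1 h
  obtain ⟨c, rfl⟩ := Submodule.Quotient.mk_surjective _ c
  have h1 : (Submodule.Quotient.mk (m - y • c) : QuotSMulTop x M) = 0 := by
    rw [Submodule.Quotient.mk_sub, Submodule.Quotient.mk_smul, hc]
    exact sub_self _
  obtain ⟨d, hd⟩ := mk_eq_zero.1 h1
  refine mk_eq_zero.2 ⟨Submodule.Quotient.mk d, ?_⟩
  rw [← Submodule.Quotient.mk_smul, hd]
  exact (Submodule.Quotient.eq _).2 (mem_top.2 ⟨-c, by rw [smul_neg]; abel⟩)

theorem qq (g : List R) (x y : R) :
    emult g (QuotSMulTop y (QuotSMulTop x M)) = emult g (QuotSMulTop x (QuotSMulTop y M)) :=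
  eq_of_ker g
    ((y • (⊤ : Submodule R (QuotSMulTop x M))).mkQ ∘ₗ (x • (⊤ : Submodule R M)).mkQ)
    ((x • (⊤ : Submodule R (QuotSMulTop y M))).mkQ ∘ₗ (y • (⊤ : Submodule R M)).mkQ)
    ((Submodule.mkQ_surjective _).comp (Submodule.mkQ_surjective _))
    ((Submodule.mkQ_surjective _).comp (Submodule.mkQ_surjective _))
    fun m => ⟨qq_le x y m, qq_le y x m⟩

theorem tt (g : List R) (x y : R) :
    emult g (Submodule.torsionBy R (Submodule.torsionBy R M x) y) =
      emult g (Submodule.torsionBy R (Submodule.torsionBy R M y) x) := by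
  have k : ∀ (x y : R) (z : M), (∃ a, ((Submodule.torsionBy R M x).subtype ∘ₗ
      (Submodule.torsionBy R (Submodule.torsionBy R M x) y).subtype) a = z) →
      ∃ a, ((Submodule.torsionBy R M y).subtype ∘ₗ
      (Submodule.torsionBy R (Submodule.torsionBy R M y) x).subtype) a = z := by
    rintro x y _ ⟨⟨⟨m, h1⟩, h2⟩, rfl⟩
    exact ⟨⟨⟨m, congrArg Subtype.val h2⟩, Subtype.ext h1⟩, rfl⟩
  exact eq_of_range g _ _ (Subtype.val_injective.comp Subtype.val_injective)
    (Subtype.val_injective.comp Subtype.val_injective) fun z => ⟨k x y z, k y x z⟩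

/-- The first Koszul homology. -/
theorem koszul [IsNoetherianRing R] [Module.Finite R Z] (g : List R) (x y : R)
    (a b : Z →ₗ[R] M) (W : Submodule R Z) (i : Submodule.torsionBy R M x →ₗ[R] Z)
    (hab : ∀ z, x • a z + y • b z = 0)
    (huniv : ∀ u v, x • u + y • v = 0 → ∃ z, b z = v)
    (hW : ∀ z, z ∈ W ↔ ∃ c, a z = y • c ∧ b z = -(x • c))
    (hi : ∀ m, a (i m) = m ∧ b (i m) = 0) (hMS : MS g (Z ⧸ W)) :
    emult g (Z ⧸ W) = emult g (QuotSMulTop y (Submodule.torsionBy R M x)) +
      emult g (Submodule.torsionBy R (QuotSMulTop x M) y) := by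
  have k1 : ∀ m, W.mkQ (i m) = 0 ↔ m ∈ y • (⊤ : Submodule R (Submodule.torsionBy R M x)) := by
    intro m
    rw [Submodule.mkQ_apply, Submodule.Quotient.mk_eq_zero, hW, mem_top, (hi m).1, (hi m).2]
    constructor
    · rintro ⟨c, h1, h2⟩
      exact ⟨⟨c, neg_eq_zero.1 h2.symm⟩, Subtype.ext h1.symm⟩
    · rintro ⟨⟨c, h2⟩, rfl⟩
      exact ⟨c, rfl, (neg_eq_zero.2 h2).symm⟩
  let b' : Z →ₗ[R] Submodule.torsionBy R (QuotSMulTop x M) y :=
    LinearMap.codRestrict _ ((x • (⊤ : Submodule R M)).mkQ ∘ₗ b) fun z => by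
      rw [Submodule.mem_torsionBy_iff, LinearMap.comp_apply, ← map_smul]
      exact mk_eq_zero.2 ⟨-a z, by rw [smul_neg]; exact neg_eq_of_add_eq_zero_right (hab z)⟩
  have k2 : ∀ z, b' z = 0 ↔ ∃ c, x • c = b z := by
    intro z
    rw [Subtype.ext_iff]
    exact mk_eq_zero
  refine emult_add hMS (Submodule.liftQ _ (W.mkQ ∘ₗ i) fun m hm => (k1 m).2 hm)
    (W.liftQ b' fun z hz => ?_) ?_ ?_ ?_
  · obtain ⟨c, -, h2⟩ := (hW z).1 hz
    exact (k2 z).2 ⟨-c, by rw [h2, smul_neg]⟩
  · rw [← LinearMap.ker_eq_bot]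
    exact Submodule.ker_liftQ_eq_bot _ _ _ fun m hm => (k1 m).1 hm
  · rintro ⟨q, hq⟩
    obtain ⟨v, rfl⟩ := Submodule.Quotient.mk_surjective _ q
    rw [Submodule.mem_torsionBy_iff, ← Submodule.Quotient.mk_smul] at hq
    obtain ⟨c, hc⟩ := mk_eq_zero.1 hq
    obtain ⟨z, hz⟩ := huniv (-c) v (by rw [smul_neg, hc, neg_add_cancel])
    exact ⟨Submodule.Quotient.mk z, Subtype.ext (congrArg Submodule.Quotient.mk hz)⟩
  · intro q
    obtain ⟨z, rfl⟩ := Submodule.Quotient.mk_surjective _ q
    rw [Submodule.liftQ_apply, k2]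
    constructor
    · rintro ⟨c, hc⟩
      have h1 : x • (a z + y • c) = 0 := by
        rw [smul_add, smul_comm x y, hc, hab]
      refine ⟨Submodule.Quotient.mk ⟨a z + y • c, h1⟩, ?_⟩
      rw [Submodule.liftQ_apply, LinearMap.comp_apply, Submodule.mkQ_apply,
        Submodule.Quotient.eq, hW]
      refine ⟨c, ?_, ?_⟩
      · rw [map_sub, (hi _).1]; simp
      · rw [map_sub, (hi _).2, hc]; simp
    · rintro ⟨q, hq⟩
      obtain ⟨m, rfl⟩ := Submodule.Quotient.mk_surjective _ q
      rw [Submodule.liftQ_apply, LinearMap.comp_apply, Submodule.mkQ_apply,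
        Submodule.Quotient.eq, hW] at hq
      obtain ⟨c, -, h2⟩ := hq
      rw [map_sub, (hi _).2, zero_sub, neg_inj] at h2
      exact ⟨c, h2.symm⟩

theorem swap [IsNoetherianRing R] [Module.Finite R M] {g : List R} {x y : R}
    (h : MS (x :: y :: g) M) : emult (x :: y :: g) M = emult (y :: x :: g) M := by
  let φ : M × M →ₗ[R] M := x • LinearMap.fst R M M + y • LinearMap.snd R M M
  have hφ : ∀ u v, (u, v) ∈ LinearMap.ker φ ↔ x • u + y • v = 0 := fun u v => Iff.rfl
  let a : LinearMap.ker φ →ₗ[R] M := LinearMap.fst R M M ∘ₗ Submodule.subtype _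
  let b : LinearMap.ker φ →ₗ[R] M := LinearMap.snd R M M ∘ₗ Submodule.subtype _
  let ψ : M →ₗ[R] LinearMap.ker φ := LinearMap.codRestrict _
    (LinearMap.prod (y • LinearMap.id) (-(x • LinearMap.id))) fun c => by
      refine (hφ (y • c) (-(x • c))).2 ?_
      rw [smul_neg, smul_comm, add_neg_cancel]
  have hW : ∀ z, z ∈ LinearMap.range ψ ↔ ∃ c, a z = y • c ∧ b z = -(x • c) := by
    intro z
    constructor
    · rintro ⟨c, rfl⟩
      exact ⟨c, rfl, rfl⟩
    · rintro ⟨c, h1, h2⟩
      exact ⟨c, Subtype.ext (Prod.ext h1.symm h2.symm)⟩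
  have hMS : MS g (LinearMap.ker φ ⧸ LinearMap.range ψ) := by
    intro P hP hg
    have hann := Module.annihilator_le_of_mem_support hP
    have k : ∀ r : R, (∀ z : LinearMap.ker φ, r • z ∈ LinearMap.range ψ) → r ∈ P.asIdeal := by
      intro r hr
      refine hann (Module.mem_annihilator.2 fun q => ?_)
      obtain ⟨z, rfl⟩ := Submodule.Quotient.mk_surjective _ q
      rw [← Submodule.Quotient.mk_smul, Submodule.Quotient.mk_eq_zero]
      exact hr z
    refine h P (Module.mem_support_iff_of_finite.2 fun r hr => k r fun z => ?_) ?_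
    · have : r • z = 0 := Subtype.ext (Prod.ext (Module.mem_annihilator.1 hr _)
        (Module.mem_annihilator.1 hr _))
      rw [this]
      exact zero_mem _
    · rw [Ideal.ofList_cons, Ideal.ofList_cons]
      refine sup_le ?_ (sup_le ?_ hg) <;> rw [Ideal.span_singleton_le_iff_mem]
      · refine k x fun z => (hW _).2 ⟨-b z, ?_, ?_⟩
        · rw [map_smul, smul_neg]
          exact eq_neg_of_add_eq_zero_left z.2
        · rw [map_smul, smul_neg, neg_neg]
      · refine k y fun z => (hW _).2 ⟨a z, map_smul _ _ _, ?_⟩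
        rw [map_smul]
        exact eq_neg_of_add_eq_zero_right z.2
  have e1 := koszul g x y a b (LinearMap.range ψ)
    (LinearMap.codRestrict _ (LinearMap.inl R M M ∘ₗ Submodule.subtype _) fun m =>
      (hφ m 0).2 (by rw [smul_zero, add_zero]; exact m.2))
    (fun z => z.2) (fun u v huv => ⟨⟨(u, v), huv⟩, rfl⟩) hW
    (fun m => ⟨rfl, rfl⟩) hMS
  have e2 := koszul g y x b a (LinearMap.range ψ)
    (LinearMap.codRestrict _ (LinearMap.inr R M M ∘ₗ Submodule.subtype _) fun m =>
      (hφ 0 m).2 (by rw [smul_zero, zero_add]; exact m.2))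
    (fun z => (add_comm _ _).trans z.2)
    (fun u v huv => ⟨⟨(v, u), (hφ v u).2 ((add_comm _ _).trans huv)⟩, rfl⟩)
    (fun z => (hW z).trans ⟨fun ⟨c, h1, h2⟩ => ⟨-c, by rw [h2, smul_neg], by
      rw [h1, smul_neg, neg_neg]⟩, fun ⟨c, h1, h2⟩ => ⟨-c, by rw [h2, smul_neg], by
      rw [h1, smul_neg, neg_neg]⟩⟩)
    (fun m => ⟨rfl, rfl⟩) hMS
  simp only [emult_cons]
  rw [qq g x y, tt g x y]
  linarith

end

theorem perm {R : Type u} [CommRing R] [IsNoetherianRing R] {g g' : List R} (hp : g.Perm g') :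
    ∀ (M : Type u) [AddCommGroup M] [Module R M] [Module.Finite R M], MS g M →
      emult g M = emult g' M := by
  induction hp with
  | nil => intros; rfl
  | cons x _ ih =>
    intro M _ _ _ h
    rw [emult_cons, emult_cons, ih _ h.quot, ih _ h.torsion]
  | swap x y l => intro M _ _ _ h; exact swap h
  | trans h1 _ ih1 ih2 =>
    intro M _ _ _ h
    rw [ih1 M h, ih2 M (ms_of_le h ((ofList_perm h1).le.trans le_sup_left))]

theorem last {R : Type u} [CommRing R] {x x' u : R} (hu : IsUnit u) (g : List R) :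
    ∀ (M : Type u) [AddCommGroup M] [Module R M],
      x' - u * x ∈ Ideal.ofList g ⊔ Module.annihilator R M →
      emult (g ++ [x]) M = emult (g ++ [x']) M := by
  induction g with
  | nil =>
    intro M _ _ h
    rw [Ideal.ofList_nil, bot_sup_eq, Module.mem_annihilator] at h
    have h' : ∀ m : M, x' • m = u • x • m := fun m => by
      have := h m
      rwa [sub_smul, sub_eq_zero, mul_smul] at this
    obtain ⟨u, rfl⟩ := hu
    have e1 : x • (⊤ : Submodule R M) = x' • (⊤ : Submodule R M) := by
      ext m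
      rw [mem_top, mem_top]
      constructor
      · rintro ⟨c, rfl⟩
        exact ⟨(u⁻¹ : Rˣ) • c, by
          rw [h', Units.smul_def, smul_comm x, smul_smul, Units.mul_inv, one_smul]⟩
      · rintro ⟨c, rfl⟩
        exact ⟨(u : R) • c, by rw [h', smul_comm]⟩
    have e2 : Submodule.torsionBy R M x = Submodule.torsionBy R M x' := by
      ext m
      rw [Submodule.mem_torsionBy_iff, Submodule.mem_torsionBy_iff, h']
      exact (u.isUnit.smul_eq_zero).symm
    rw [List.nil_append, List.nil_append, emult_cons, emult_cons,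
      emult_congr (Submodule.quotEquivOfEq _ _ e1), emult_congr (LinearEquiv.ofEq _ _ e2)]
  | cons z g ih =>
    intro M _ _ h
    have k : ∀ K : Ideal R, Module.annihilator R M ⊔ Ideal.span {z} ≤ K →
        x' - u * x ∈ Ideal.ofList g ⊔ K := by
      intro K hK
      refine (?_ : _ ≤ Ideal.ofList g ⊔ K) h
      rw [Ideal.ofList_cons]
      exact sup_le (sup_le (le_sup_of_le_right (le_sup_right.trans hK)) le_sup_left)
        (le_sup_of_le_right (le_sup_left.trans hK))
    rw [List.cons_append, List.cons_append, emult_cons, emult_cons, ih _ (k _ (ann_quot z)),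
      ih _ (k _ (ann_tors z))]

theorem dich {R : Type u} [CommRing R] [IsLocalRing R] (K : Ideal R) (g : List R) :
    ∀ x ∈ Ideal.ofList g ⊔ K,
      (∃ y h u, g.Perm (y :: h) ∧ IsUnit u ∧ x - u * y ∈ Ideal.ofList h ⊔ K) ∨
      x ∈ maximalIdeal R * Ideal.ofList g ⊔ K := by
  induction g with
  | nil => intro x hx; right; simpa using hx
  | cons z t ih =>
    intro x hx
    rw [Ideal.ofList_cons, sup_assoc, Ideal.mem_span_singleton_sup] at hx
    obtain ⟨c, w, hw, rfl⟩ := hx
    by_cases hc : IsUnit c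
    · exact Or.inl ⟨z, t, c, List.Perm.refl _, hc, by simpa using hw⟩
    · rcases ih w hw with ⟨y, h, u, hp, hu, hy⟩ | hw'
      · refine Or.inl ⟨y, z :: h, u, (hp.cons z).trans (List.Perm.swap _ _ _), hu, ?_⟩
        rw [Ideal.ofList_cons, sup_assoc, Ideal.mem_span_singleton_sup]
        exact ⟨c, _, hy, by ring⟩
      · right
        rw [Ideal.ofList_cons, Ideal.mul_sup, sup_assoc]
        exact Submodule.add_mem_sup (Ideal.mul_mem_mul ((mem_maximalIdeal c).2 hc)
          (Ideal.mem_span_singleton_self z)) hw'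

theorem eq_zero_of_top {R : Type u} [CommRing R] [IsLocalRing R] {M : Type u} [AddCommGroup M]
    [Module R M] {g : List R} (h : Ideal.ofList g ⊔ Module.annihilator R M = ⊤) :
    emult g M = 0 := by
  by_cases h1 : ∃ x ∈ g, IsUnit x
  · obtain ⟨x, hx, hu⟩ := h1
    exact emult_eq_zero_of_isUnit hx hu
  · push Not at h1
    by_cases h2 : Module.annihilator R M = ⊤
    · have := Module.annihilator_eq_top_iff.1 h2
      exact emult_of_subsingleton g
    · exfalso
      refine (maximalIdeal.isMaximal R).ne_top (top_le_iff.1 (h ▸ sup_le ?_ (le_maximalIdeal h2)))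
      exact Ideal.span_le.2 fun x hx => (mem_maximalIdeal x).2 (h1 x hx)

theorem span_aux {R : Type u} [CommRing R] [IsNoetherianRing R] [IsLocalRing R] (g : List R) :
    ∀ (g' : List R) (M : Type u) [AddCommGroup M] [Module R M] [Module.Finite R M],
      g.length = g'.length → Ideal.ofList g ⊔ Module.annihilator R M =
        Ideal.ofList g' ⊔ Module.annihilator R M → MS g M → emult g M = emult g' M := by
  induction g with
  | nil =>
    intro g' M _ _ _ hl _ _
    rw [List.length_eq_zero_iff.1 hl.symm]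
  | cons x h ih =>
    intro g' M _ _ _ hl hs hms
    have hms' : MS g' M := ms_of_le hms (hs ▸ le_sup_left)
    have hx : x ∈ Ideal.ofList g' ⊔ Module.annihilator R M := by
      rw [← hs]
      exact Ideal.mem_sup_left (Ideal.subset_span (List.mem_cons_self))
    by_cases htop : Ideal.ofList (x :: h) ⊔ Module.annihilator R M = ⊤
    · rw [eq_zero_of_top htop, eq_zero_of_top (hs ▸ htop)]
    rcases dich _ g' x hx with ⟨y, h', u, hp, hu, hy⟩ | hx'
    · have e1 : Ideal.ofList (y :: h') ⊔ Module.annihilator R M =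
          Ideal.ofList (x :: h') ⊔ Module.annihilator R M := by
        rw [Ideal.ofList_cons, Ideal.ofList_cons, sup_assoc, sup_assoc]
        obtain ⟨u, rfl⟩ := hu
        refine le_antisymm (sup_le ?_ le_sup_right) (sup_le ?_ le_sup_right) <;>
          rw [Ideal.span_singleton_le_iff_mem, Ideal.mem_span_singleton_sup]
        · refine ⟨(u⁻¹ : Rˣ), _, Ideal.mul_mem_left _ (-((u⁻¹ : Rˣ) : R)) hy, ?_⟩
          have := u.inv_mul
          linear_combination y * this
        · exact ⟨u, _, hy, by ring⟩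
      have e2 : Ideal.ofList (x :: h) ⊔ Module.annihilator R M =
          Ideal.ofList (x :: h') ⊔ Module.annihilator R M := by
        rw [hs, ofList_perm hp, e1]
      have m1 : MS (x :: h') M := ms_of_le hms (e2 ▸ le_sup_left)
      have m2 : MS (y :: h') M := ms_of_le hms' ((ofList_perm hp).le.trans le_sup_left)
      have hl' : h.length = h'.length := by
        have := hp.length_eq
        simp only [List.length_cons] at hl this
        omega
      have k : ∀ K : Ideal R, Module.annihilator R M ⊔ Ideal.span {x} ≤ K →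
          Ideal.ofList h ⊔ K = Ideal.ofList h' ⊔ K := by
        intro K hK
        have k' : ∀ l : List R, Ideal.ofList l ⊔ K =
            (Ideal.ofList (x :: l) ⊔ Module.annihilator R M) ⊔ K := by
          intro l
          rw [Ideal.ofList_cons]
          refine le_antisymm (sup_le_sup_right (le_sup_of_le_left le_sup_right) _)
            (sup_le (sup_le (sup_le (le_sup_of_le_right (le_sup_right.trans hK)) le_sup_left)
              (le_sup_of_le_right (le_sup_left.trans hK))) le_sup_right)
        rw [k' h, k' h', e2]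
      rw [perm hp M hms', perm (List.perm_append_singleton y h').symm M m2, last hu h' M hy,
        ← perm (List.perm_append_singleton x h').symm M m1, emult_cons, emult_cons,
        ih h' _ hl' (k _ (ann_quot x)) hms.quot, ih h' _ hl' (k _ (ann_tors x)) hms.torsion]
    · have hle : Ideal.ofList (x :: h) ⊔ Module.annihilator R M ≤
          Ideal.ofList h ⊔ Module.annihilator R M := by
        refine Submodule.le_of_le_smul_of_le_jacobson_bot (IsNoetherian.noetherian _)
          (IsLocalRing.jacobson_eq_maximalIdeal _ bot_ne_top).ge ?_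
        conv_lhs => rw [Ideal.ofList_cons, sup_assoc]
        refine sup_le ?_ le_sup_left
        rw [Ideal.span_singleton_le_iff_mem, hs, smul_eq_mul]
        exact (sup_le (le_sup_of_le_right (Ideal.mul_mono_right le_sup_left))
          (le_sup_of_le_left le_sup_right) :
          maximalIdeal R * Ideal.ofList g' ⊔ Module.annihilator R M ≤ _) hx'
      have m1 : MS h M := ms_of_le hms (le_sup_left.trans hle)
      have hne : Ideal.ofList h ≠ ⊤ := by
        intro e
        apply htop
        rw [Ideal.ofList_cons, e]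
        simp
      have hd : ∀ Q ∈ Module.support R M,
          ringKrullDim (R ⧸ Q.asIdeal) < (x :: h).length := by
        intro Q hQ
        refine (dim_le_of_ms (ms_quot_iff.2 fun P hP h1 h2 =>
          m1 ⟨P, hP⟩ (Module.mem_support_mono h1 hQ) h2) hne).trans_lt ?_
        rw [List.length_cons]
        exact_mod_cast Nat.lt_succ_self _
      rw [emult_eq_zero_of_dim_lt hms hd, emult_eq_zero_of_dim_lt hms' (hl ▸ hd)]

end A2

variable {R : Type u} [CommRing R] [IsNoetherianRing R] [IsLocalRing R] {M : Type u}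
  [AddCommGroup M] [Module R M] [Module.Finite R M]

theorem emult_perm {g g' : List R} (hp : g.Perm g') (h : MS g M) : emult g M = emult g' M :=
  A2.perm hp M h

theorem emult_eq_of_span {g g' : List R} (hl : g.length = g'.length) (K : Ideal R)
    (hK : K ≤ Module.annihilator R M) (hs : Ideal.ofList g ⊔ K = Ideal.ofList g' ⊔ K)
    (h : MS g M) : emult g M = emult g' M := by
  refine A2.span_aux g g' M hl ?_ h
  rw [← sup_eq_right.2 hK, ← sup_assoc, ← sup_assoc, hs]

theorem emI_eq {g : List R} {d : ℕ} {J I : Ideal R} (hl : g.length = d) (hg : Ideal.ofList g = J)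
    (h : MS g (R ⧸ I)) : emI d J I = emult g (R ⧸ I) := by
  have hs := Classical.epsilon_spec
    (p := fun g : List R => g.length = d ∧ Ideal.ofList g = J) ⟨g, hl, hg⟩
  exact (emult_eq_of_span (hl.trans hs.1.symm) ⊥ bot_le (congrArg (· ⊔ ⊥) (hg.trans hs.2.symm)) h).symm

end Pool.Agent.P.MP_638e8a_ag.Cyc
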