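import Pool.Agent.P.MP_638e8a_ag.ChA3b
import Pool.Agent.P.MP_638e8a_ag.ChA1

/-!
Task CHOW A3: the associativity formula.
-/

open IsLocalRing

universe u

namespace Pool.Agent.P.MP_638e8a_ag.Cyc

theorem emult_localized_quot {R : Type u} [CommRing R] (g : List R) (I Q : Ideal R) [Q.IsPrime]
    (C : Type u) [CommRing C] [Algebra R C] [IsLocalization.AtPrime C Q] :
    emult (g.map (algebraMap R (Localization.AtPrime Q))) (LocalizedModule Q.primeCompl (R ⧸ I)) =
      emult (g.map (algebraMap R C)) (C ⧸ I.map (algebraMap R C)) := by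
  let A := Localization.AtPrime Q
  let e : A ≃ₐ[R] C := IsLocalization.algEquiv Q.primeCompl A C
  have he : (e : A →+* C).comp (algebraMap R A) = algebraMap R C :=
    RingHom.ext fun r => e.commutes r
  have h1 := emult_quot_of_surjective (e : A →+* C) e.surjective (I.map (algebraMap R C))
    (g.map (algebraMap R A))
  rw [List.map_map, ← RingHom.coe_comp, he] at h1
  rw [h1]
  have h2 : (I.map (algebraMap R C)).comap (e : A →+* C) = I.map (algebraMap R A) := by
    rw [← he, ← Ideal.map_map]
    exact Ideal.comap_map_of_bijective (e : A →+* C) e.bijective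
  have e1 : LocalizedModule Q.primeCompl (R ⧸ I) ≃ₗ[A]
      A ⧸ Submodule.localized' A Q.primeCompl (Algebra.linearMap R A) I :=
    (IsLocalizedModule.iso Q.primeCompl (Submodule.toLocalizedQuotient' A Q.primeCompl
      (Algebra.linearMap R A) I)).extendScalarsOfIsLocalization Q.primeCompl A
  refine emult_congr (e1 ≪≫ₗ Submodule.quotEquivOfEq _ _ ?_) _
  rw [h2]
  exact Ideal.localized'_eq_map A Q.primeCompl I

theorem mem_support_quot_iff {R : Type u} [CommRing R] {I : Ideal R} {P : PrimeSpectrum R} :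
    P ∈ Module.support R (R ⧸ I) ↔ I ≤ P.asIdeal := by
  rw [Module.mem_support_iff_of_finite, Ideal.annihilator_quotient]

theorem dim_quot_le_of_le {R : Type u} [CommRing R] {P Q : Ideal R} (h : P ≤ Q) :
    ringKrullDim (R ⧸ Q) ≤ ringKrullDim (R ⧸ P) :=
  ringKrullDim_le_of_surjective (Ideal.Quotient.factor h) (Ideal.Quotient.factor_surjective h)

theorem eq_of_dim_quot_eq {R : Type u} [CommRing R] {P Q : Ideal R} [P.IsPrime] (h : P ≤ Q) {n : ℕ}
    (hP : ringKrullDim (R ⧸ P) = n) (hQ : ringKrullDim (R ⧸ Q) = n) : Q = P := by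
  refine le_antisymm (fun r hr => ?_) h
  by_contra hr'
  have h1 : Ideal.Quotient.mk P r ∈ nonZeroDivisors (R ⧸ P) :=
    mem_nonZeroDivisors_of_ne_zero fun h0 => hr' (Ideal.Quotient.eq_zero_iff_mem.1 h0)
  have h2 := ringKrullDim_succ_le_of_surjective (Ideal.Quotient.factor h)
    (Ideal.Quotient.factor_surjective h) h1
    (by rw [Ideal.Quotient.factor_mk]; exact Ideal.Quotient.eq_zero_iff_mem.2 hr)
  rw [hP, hQ] at h2
  have h3 : n + 1 ≤ n := by exact_mod_cast h2
  omega

/-- The length of the localization of a finite domain at the generic point of its support. -/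
theorem length_localized_eq_finrank {R B K L : Type u} [CommRing R] [CommRing B] [Algebra R B]
    [Module.Finite R B] [Field K] [Field L] [Algebra K L] (φ : R →+* K)
    (hφ : ∀ c : K, ∃ a a', φ a' ≠ 0 ∧ φ a = c * φ a')
    (β : B →+* L) (hβ : Function.Injective β) (hβ' : ∀ c : L, ∃ b b', β b' ≠ 0 ∧ β b = c * β b')
    (hc : ∀ r, algebraMap K L (φ r) = β (algebraMap R B r)) (P : Ideal R) [P.IsPrime]
    (hP : P = RingHom.ker φ) :
    Module.length (Localization.AtPrime P) (LocalizedModule P.primeCompl B) =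
      Module.finrank K L := by
  let A := Localization.AtPrime P
  have hu : ∀ y : P.primeCompl, φ y ≠ 0 := fun y h0 => y.2 (hP.ge h0)
  have hu' : ∀ y : P.primeCompl, IsUnit (φ y) := fun y => (hu y).isUnit
  let ψ : A →+* K := IsLocalization.lift (M := P.primeCompl) hu'
  have hψ : ∀ r, ψ (algebraMap R A r) = φ r := fun r => IsLocalization.lift_eq hu' r
  have hψs : Function.Surjective ψ := by
    intro c
    obtain ⟨a, a', h1, h2⟩ := hφ c
    refine ⟨IsLocalization.mk' A a (⟨a', fun h => h1 (by rwa [hP] at h)⟩ : P.primeCompl), ?_⟩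
    rw [IsLocalization.lift_mk'_spec, h2, mul_comm]
  let _ : Algebra A K := ψ.toAlgebra
  let _ : Algebra R L := (β.comp (algebraMap R B)).toAlgebra
  let _ : Algebra A L := ((algebraMap K L).comp ψ).toAlgebra
  have : IsScalarTower A K L := IsScalarTower.of_algebraMap_eq fun _ => rfl
  have : IsScalarTower R A L := IsScalarTower.of_algebraMap_eq fun r => by
    change β (algebraMap R B r) = algebraMap K L (ψ (algebraMap R A r))
    rw [hψ, hc]
  have hsm : ∀ (r : R) (y : L), r • y = β (algebraMap R B r) * y := fun r y => Algebra.smul_def r y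
  let f : B →ₗ[R] L :=
    { toFun := β
      map_add' := β.map_add
      map_smul' := fun r b => by rw [Algebra.smul_def, map_mul, RingHom.id_apply, hsm] }
  have : IsDomain B := hβ.isDomain β
  have hker : (⊥ : Ideal B).comap (algebraMap R B) = P := by
    ext r
    rw [hP, Ideal.mem_comap, Ideal.mem_bot, RingHom.mem_ker, ← map_eq_zero_iff β hβ, ← hc,
      map_eq_zero_iff _ (algebraMap K L).injective]
  have : IsLocalizedModule P.primeCompl f :=
    { map_units := fun x => IsLocalizedModule.map_units (S := P.primeCompl) (M := L) (M' := L)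
        (f := LinearMap.id) (self := isLocalizedModule_id P.primeCompl L A) x
      surj := fun y => by
        obtain ⟨b, b', h1, h2⟩ := hβ' y
        have hb' : b' ≠ 0 := fun h0 => h1 (by rw [h0, map_zero])
        have hlt := Ideal.comap_lt_comap_of_integral_mem_sdiff (R := R) (I := (⊥ : Ideal B))
          (J := Ideal.span {b'}) bot_le (x := b')
          ⟨Ideal.subset_span rfl, hb'⟩ (Algebra.IsIntegral.isIntegral b')
        rw [hker] at hlt
        obtain ⟨r, hr, hr'⟩ := SetLike.exists_of_lt hlt
        obtain ⟨b'', hb''⟩ := Ideal.mem_span_singleton'.1 (Ideal.mem_comap.1 hr)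
        refine ⟨⟨b'' * b, ⟨r, hr'⟩⟩, ?_⟩
        change r • y = β (b'' * b)
        rw [hsm, ← hb'', map_mul, map_mul, h2]
        ring
      exists_of_eq := fun h => ⟨1, by rw [hβ h]⟩ }
  have e : LocalizedModule P.primeCompl B ≃ₗ[A] L :=
    (IsLocalizedModule.iso P.primeCompl f).extendScalarsOfIsLocalization P.primeCompl A
  have : Module.Finite A L := Module.Finite.equiv e
  have : Module.Finite K L := Module.Finite.of_restrictScalars_finite A K L
  rw [e.length_eq, Module.length_eq_of_surjective (S := A) (R := K) hψs, Module.length_eq_finrank]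

variable {R : Type u} [CommRing R] [IsNoetherianRing R] [IsLocalRing R] {M : Type u}
  [AddCommGroup M] [Module R M] [Module.Finite R M]

theorem emult_append_quot (g h : List R) (I : Ideal R) (hms : MS (g ++ h) (R ⧸ I)) {ι : Type u}
    (s : Finset ι) (Q : ι → Ideal R) [∀ i, (Q i).IsPrime] (hQ : Function.Injective Q)
    (C : ι → Type u) [∀ i, CommRing (C i)] [∀ i, Algebra R (C i)]
    [∀ i, IsLocalization.AtPrime (C i) (Q i)]
    (hd : ∀ P : Ideal R, P.IsPrime → I ≤ P → Ideal.ofList g ≤ P → ringKrullDim (R ⧸ P) ≤ h.length)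
    (hs : ∀ P : Ideal R, P.IsPrime → I ≤ P → Ideal.ofList g ≤ P →
      ringKrullDim (R ⧸ P) = h.length → ∃ i ∈ s, Q i = P)
    (hs' : ∀ i ∈ s, ringKrullDim (R ⧸ Q i) = h.length) :
    emult (g ++ h) (R ⧸ I) = ∑ i ∈ s, emult (g.map (algebraMap R (C i)))
      (C i ⧸ I.map (algebraMap R (C i))) * emult h (R ⧸ Q i) := by
  classical
  let F : ι → PrimeSpectrum R := fun i => ⟨Q i, inferInstance⟩
  have hF : Function.Injective F := fun i j hij => hQ (congrArg PrimeSpectrum.asIdeal hij)
  rw [emult_append g h hms (s.image F)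
    (fun P hP hg => hd _ P.isPrime (mem_support_quot_iff.1 hP) hg) (fun P hP hg hdim => ?_)
    (fun P hP => ?_), Finset.sum_image fun i _ j _ hij => hF hij]
  · exact Finset.sum_congr rfl fun i _ => by rw [emult_localized_quot g I (Q i) (C i)]
  · obtain ⟨i, hi, hiP⟩ := hs _ P.isPrime (mem_support_quot_iff.1 hP) hg hdim
    exact Finset.mem_image.2 ⟨i, hi, PrimeSpectrum.ext hiP⟩
  · obtain ⟨i, hi, rfl⟩ := Finset.mem_image.1 hP
    exact hs' i hi

/-- The multiplicity of a finite domain over `R` is the degree of the extension of fraction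
fields times the multiplicity of the image of `R`. -/
theorem emult_rank {B K L : Type u} [CommRing B] [Algebra R B] [Module.Finite R B] [Field K]
    [Field L] [Algebra K L] (φ : R →+* K) (hφ : ∀ c : K, ∃ a a', φ a' ≠ 0 ∧ φ a = c * φ a')
    (β : B →+* L) (hβ : Function.Injective β) (hβ' : ∀ c : L, ∃ b b', β b' ≠ 0 ∧ β b = c * β b')
    (hc : ∀ r, algebraMap K L (φ r) = β (algebraMap R B r)) (g : List R)
    (h : MS g (R ⧸ RingHom.ker φ)) (hd : ringKrullDim (R ⧸ RingHom.ker φ) ≤ g.length) :
    emult g B = Module.finrank K L * emult g (R ⧸ RingHom.ker φ) := by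
  let P : PrimeSpectrum R := ⟨RingHom.ker φ, RingHom.ker_isPrime φ⟩
  have : P.asIdeal.IsPrime := P.isPrime
  have hsup : ∀ Q ∈ Module.support R B, RingHom.ker φ ≤ Q.asIdeal := fun Q hQ => by
    refine le_trans (fun r hr => Module.mem_annihilator.2 fun b => ?_)
      (Module.annihilator_le_of_mem_support hQ)
    have h0 : algebraMap R B r = 0 := hβ (by rw [← hc, RingHom.mem_ker.1 hr, map_zero, map_zero])
    rw [Algebra.smul_def, h0, zero_mul]
  have hms : MS g B := fun Q hQ hg => h Q (mem_support_quot_iff.2 (hsup Q hQ)) hg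
  rcases hd.lt_or_eq with hlt | heq
  · rw [emult_eq_zero_of_dim_lt hms fun Q hQ => (dim_quot_le_of_le (hsup Q hQ)).trans_lt hlt,
      emult_eq_zero_of_dim_lt h fun Q hQ =>
        (dim_quot_le_of_le (mem_support_quot_iff.1 hQ)).trans_lt hlt, mul_zero]
  · have h1 := emult_append (M := B) [] g hms {P}
      (fun Q hQ _ => (dim_quot_le_of_le (hsup Q hQ)).trans hd)
      (fun Q hQ _ hdim => Finset.mem_singleton.2 (PrimeSpectrum.ext
        (eq_of_dim_quot_eq (P := P.asIdeal) (hsup Q hQ) heq hdim)))
      (fun Q hQ => by rw [Finset.mem_singleton.1 hQ]; exact heq)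
    rw [List.nil_append, Finset.sum_singleton, List.map_nil, emult_nil,
      length_localized_eq_finrank φ hφ β hβ hβ' hc P.asIdeal rfl, ENat.toNat_natCast] at h1
    exact h1

end Pool.Agent.P.MP_638e8a_ag.Cyc
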