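import Pool.Agent.P.MP_638e8a_ag.ChA7

/-!
Task CHOW DIM0: dimension theory on smooth projective varieties.
-/

open CategoryTheory AlgebraicGeometry IsLocalRing TopologicalSpace

universe u

namespace Pool.Agent.P.MP_638e8a_ag.Cyc

open Pool.Agent.P.MP_90138e_ag
open Pool.Agent.P.MP_90138e_ag.WeilCohomology (fstH sndH)

variable {k : Type u} [Field k] {S T : SmProj k}

namespace Dim0

section Alg

variable {A L : Type u} [CommRing A] [Algebra k A]

theorem trdeg_frac [IsDomain A] [Field L] [Algebra k L] (e : A →ₐ[k] L)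
    (he : Function.Injective e) (h : ∀ c : L, ∃ a b, e b ≠ 0 ∧ e a = c * e b) :
    Algebra.trdeg k A = Algebra.trdeg k L := by
  let : Algebra A L := e.toRingHom.toAlgebra
  have : IsScalarTower k A L := IsScalarTower.of_algebraMap_eq fun c => (e.commutes c).symm
  have : FaithfulSMul A L := (faithfulSMul_iff_algebraMap_injective A L).2 he
  have : Algebra.IsAlgebraic A L := ⟨fun c => by
    obtain ⟨a, b, hb, hab⟩ := h c
    have hb0 : b ≠ 0 := fun h0 => hb (by rw [h0, map_zero])
    refine IsAlgebraic.of_mul (y := algebraMap A L b)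
      (mem_nonZeroDivisors_of_ne_zero hb) (isAlgebraic_algebraMap b) ?_
    have : algebraMap A L b * c = algebraMap A L a := by
      rw [mul_comm]
      exact hab.symm
    rw [this]
    exact isAlgebraic_algebraMap a⟩
  rw [← trdeg_add_eq k A (A := L), trdeg_eq_zero (R := A) (A := L), add_zero]

theorem dim_ker [Algebra.FiniteType k A] [Field L] [Algebra k L] (e : A →ₐ[k] L)
    (h : ∀ c : L, ∃ a b, e b ≠ 0 ∧ e a = c * e b) (P : Ideal A) (hP : ∀ a, a ∈ P ↔ e a = 0) :
    ∃ n : ℕ, ringKrullDim (A ⧸ P) = n ∧ Algebra.trdeg k L = n := by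
  obtain rfl : P = RingHom.ker e := Ideal.ext hP
  have : (RingHom.ker e).IsPrime := RingHom.ker_isPrime e
  obtain ⟨n, h1, h2⟩ := dim_eq_trdeg (k := k) (A := A ⧸ RingHom.ker e)
  refine ⟨n, h1, ?_⟩
  rw [← h2]
  refine (trdeg_frac (Ideal.kerLiftAlg e) (Ideal.kerLiftAlg_injective e) fun c => ?_).symm
  obtain ⟨a, b, hb, hab⟩ := h c
  exact ⟨Ideal.Quotient.mk _ a, Ideal.Quotient.mk _ b, hb, hab⟩

include k in
theorem dim_loc [Algebra.FiniteType k A] (p : Ideal A) [p.IsPrime] {R : Type u} [CommRing R]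
    [Algebra A R] [IsLocalization.AtPrime R p] (Q : Ideal R) [hQ : Q.IsPrime] :
    ringKrullDim (R ⧸ Q) + ringKrullDim (A ⧸ p) =
      ringKrullDim (A ⧸ Q.comap (algebraMap A R)) := by
  set P := Q.comap (algebraMap A R) with hP
  have hPp : P ≤ p := fun a ha => by
    by_contra hc
    exact hQ.ne_top (Ideal.eq_top_of_isUnit_mem _ ha (IsLocalization.map_units R
      (⟨a, hc⟩ : p.primeCompl)))
  have hq : (p.map (Ideal.Quotient.mk P)).IsPrime :=
    Ideal.map_isPrime_of_surjective Ideal.Quotient.mk_surjective (by simpa using hPp)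
  have h1 : IsLocalization (p.primeCompl.map (Ideal.Quotient.mk P)) (R ⧸ Q) :=
    IsLocalization.of_surjective p.primeCompl R (Ideal.Quotient.mk P)
      Ideal.Quotient.mk_surjective (Ideal.Quotient.mk Q) Ideal.Quotient.mk_surjective rfl
      (by
        rw [Ideal.mk_ker, Ideal.mk_ker]
        exact (IsLocalization.map_under p.primeCompl R Q).ge)
  have h2 : p.primeCompl.map (Ideal.Quotient.mk P) = (p.map (Ideal.Quotient.mk P)).primeCompl := by
    ext z
    obtain ⟨a, rfl⟩ := Ideal.Quotient.mk_surjective z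
    have h3 : Ideal.Quotient.mk P a ∈ p.map (Ideal.Quotient.mk P) ↔ a ∈ p :=
      Ideal.mem_quotient_iff_mem hPp
    constructor
    · rintro ⟨b, hb, hab⟩ hc
      refine hb ((Ideal.mem_quotient_iff_mem hPp).1 ?_)
      exact (show Ideal.Quotient.mk P b = Ideal.Quotient.mk P a from hab) ▸ hc
    · exact fun ha => ⟨a, fun hc => ha (h3.2 hc), rfl⟩
  rw [h2] at h1
  rw [IsLocalization.AtPrime.ringKrullDim_eq_height (p.map (Ideal.Quotient.mk P)) (R ⧸ Q),
    ← height_add_dim (k := k) (p.map (Ideal.Quotient.mk P)),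
    ringKrullDim_eq_of_ringEquiv (DoubleQuot.quotQuotEquivQuotOfLE hPp)]

open scoped TensorProduct nonZeroDivisors in
theorem trdeg_smooth [IsDomain A] (d : ℕ) [Algebra.IsStandardSmoothOfRelativeDimension d k A] :
    Algebra.trdeg k A = d := by
  obtain ⟨g, hg⟩ := Algebra.IsStandardSmoothOfRelativeDimension.exists_etale_mvPolynomial d k A
  let R := MvPolynomial (Fin d) k
  let : Algebra R A := g.toRingHom.toAlgebra
  have : IsScalarTower k R A := IsScalarTower.of_algebraMap_eq fun c => (g.commutes c).symm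
  have : Algebra.Etale R A := hg
  let K := FractionRing R
  have hinj : Function.Injective (algebraMap R A) := by
    rw [injective_iff_map_eq_zero]
    intro r hr
    by_contra h0
    have h1 : IsSMulRegular A r :=
      Module.Flat.isSMulRegular_of_nonZeroDivisors (mem_nonZeroDivisors_of_ne_zero h0)
    have h2 : r • (1 : A) = r • (0 : A) := by
      rw [Algebra.smul_def, hr, zero_mul, smul_zero]
    exact one_ne_zero (h1 h2)
  have : FaithfulSMul R A := (faithfulSMul_iff_algebraMap_injective R A).2 hinj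
  have hfin : Module.Finite K (K ⊗[R] A) := Algebra.FormallyUnramified.finite_of_free _ _
  have : Algebra.IsAlgebraic R A := ⟨fun a => by
    rw [← isAlgebraic_algHom_iff (Algebra.TensorProduct.includeRight : A →ₐ[R] K ⊗[R] A)
      (Algebra.TensorProduct.includeRight_injective (IsFractionRing.injective R K)),
      IsFractionRing.isAlgebraic_iff R K]
    exact Algebra.IsAlgebraic.isAlgebraic _⟩
  rw [← trdeg_add_eq k R (A := A), trdeg_eq_zero (R := R) (A := A), add_zero,
    MvPolynomial.trdeg_of_isDomain]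
  simp

end Alg

/-- Sections as a `k`-algebra. -/
@[reducible]
noncomputable def algSec (S : SmProj k) (U : S.X.left.Opens) : Algebra k Γ(S.X.left, U) :=
  ((S.X.hom.appLE ⊤ U le_top).hom.comp (Scheme.ΓSpecIso (CommRingCat.of k)).inv.hom).toAlgebra

theorem finiteType_sec {U : S.X.left.Opens} (hU : IsAffineOpen U) :
    letI := algSec S U
    Algebra.FiniteType k Γ(S.X.left, U) := by
  have := SmoothOfRelativeDimension.smooth S.dim S.X.hom
  exact (S.X.hom.finiteType_appLE (isAffineOpen_top _) hU le_top).comp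
    (RingHom.FiniteType.of_surjective _
      (Scheme.ΓSpecIso (CommRingCat.of k)).symm.commRingCatIsoToRingEquiv.surjective)

theorem germ_sec {U : S.X.left.Opens} {x : S.X.left} (hx : x ∈ U) (c : k) :
    letI := algSec S U
    S.X.left.presheaf.germ U x hx (algebraMap k Γ(S.X.left, U) c) = cst S x c :=
  TopCat.Presheaf.germ_res_apply S.X.left.presheaf (homOfLE le_top) x hx (S.const c)

/-- Evaluation of sections at a point. -/
noncomputable def evSec {U : S.X.left.Opens} {x : S.X.left} (hx : x ∈ U) :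
    letI := algSec S U
    letI := algRf S x
    Γ(S.X.left, U) →ₐ[k] Rf x :=
  letI := algSec S U
  letI := algRf S x
  { (ev (le_refl x)).comp (S.X.left.presheaf.germ U x hx).hom with
    commutes' := fun c => congrArg (ev (le_refl x)) (germ_sec hx c) }

theorem evSec_apply {U : S.X.left.Opens} {x : S.X.left} (hx : x ∈ U) (a : Γ(S.X.left, U)) :
    evSec hx a = ev (le_refl x) (S.X.left.presheaf.germ U x hx a) := rfl

theorem mem_primeIdealOf {X : Scheme.{u}} {U : X.Opens} (hU : IsAffineOpen U) {x : X}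
    (hx : x ∈ U) (a : Γ(X, U)) : a ∈ (hU.primeIdealOf ⟨x, hx⟩).asIdeal ↔
      X.presheaf.germ U x hx a ∈ maximalIdeal (St x) := by
  let := TopCat.Presheaf.algebra_section_stalk X.presheaf (⟨x, hx⟩ : U)
  have h1 : IsLocalization.AtPrime (St x) _ := hU.isLocalization_stalk ⟨x, hx⟩
  exact (IsLocalization.AtPrime.to_map_mem_maximal_iff (St x) _ a).symm

theorem evSec_frac {U : S.X.left.Opens} (hU : IsAffineOpen U) {x : S.X.left} (hx : x ∈ U)
    (c : Rf x) : ∃ a b, evSec hx b ≠ 0 ∧ evSec hx a = c * evSec hx b := by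
  let := TopCat.Presheaf.algebra_section_stalk S.X.left.presheaf (⟨x, hx⟩ : U)
  have h1 : IsLocalization.AtPrime (St x) _ := hU.isLocalization_stalk ⟨x, hx⟩
  obtain ⟨c, rfl⟩ := S.X.left.residue_surjective x c
  obtain ⟨⟨a, b⟩, hz⟩ := IsLocalization.surj (hU.primeIdealOf ⟨x, hx⟩).asIdeal.primeCompl
    (c : St x)
  refine ⟨a, b, fun h0 => b.2 ?_, ?_⟩
  · rw [evSec_apply, ev_eq_zero, primeOf_self] at h0
    exact (mem_primeIdealOf hU hx _).2 h0
  · have h2 := congrArg (ev (le_refl x)) hz
    rw [map_mul] at h2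
    have h3 : ev (le_refl x) (c : St x) = S.X.left.residue x c :=
      congrArg (S.X.left.residue x).hom (sp_refl x c)
    rw [← h3]
    exact h2.symm

/-- The transcendence degree of the residue field. -/
noncomputable def tr (x : S.X.left) : ℕ :=
  letI := algRf S x
  (Algebra.trdeg k (Rf x)).toNat

theorem chart {U : S.X.left.Opens} (hU : IsAffineOpen U) {x : S.X.left} (hx : x ∈ U) :
    letI := algRf S x
    ringKrullDim (Γ(S.X.left, U) ⧸ (hU.primeIdealOf ⟨x, hx⟩).asIdeal) = tr x ∧
      Algebra.trdeg k (Rf x) = tr x := by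
  let := algSec S U
  let := algRf S x
  have := finiteType_sec hU
  obtain ⟨n, h1, h2⟩ := dim_ker (evSec hx) (evSec_frac hU hx) (hU.primeIdealOf ⟨x, hx⟩).asIdeal
    fun a => by rw [mem_primeIdealOf, evSec_apply, ev_eq_zero, primeOf_self]
  have h3 : tr x = n := by
    change (Algebra.trdeg k (Rf x)).toNat = n
    rw [h2, Cardinal.toNat_natCast]
  rw [h3]
  exact ⟨h1, h2⟩

theorem quot_add {x v : S.X.left} (h : x ≤ v) :
    ringKrullDim (St x ⧸ primeOf x v) + tr x = tr v := by
  obtain ⟨U, hU, hx, -⟩ :=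
    exists_isAffineOpen_mem_and_subset (X := S.X.left) (x := x) (U := ⊤) trivial
  have hv := mem_of_le h hx
  let := algSec S U
  have := finiteType_sec hU
  let := TopCat.Presheaf.algebra_section_stalk S.X.left.presheaf (⟨x, hx⟩ : U)
  have h1 : IsLocalization.AtPrime (St x) _ := hU.isLocalization_stalk ⟨x, hx⟩
  have := primeOf_isPrime h
  have h2 := dim_loc (k := k) (hU.primeIdealOf ⟨x, hx⟩).asIdeal (primeOf x v)
  have h3 : (primeOf x v).comap (algebraMap Γ(S.X.left, U) (St x)) =
      (hU.primeIdealOf ⟨v, hv⟩).asIdeal := Ideal.ext fun a => by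
    rw [mem_primeIdealOf, Ideal.mem_comap, mem_primeOf h, ← sp_germ h hx]
    rfl
  rwa [h3, (chart hU hx).1, (chart hU hv).1] at h2

theorem quot_eq {x v : S.X.left} (h : x ≤ v) :
    ∃ m : ℕ, ringKrullDim (St x ⧸ primeOf x v) = m ∧ m + tr x = tr v := by
  have h1 := quot_add h
  generalize ringKrullDim (St x ⧸ primeOf x v) = r at h1
  induction r with
  | bot => simp at h1
  | coe r =>
    induction r with
    | top => exact absurd h1 (by
        rw [show ((⊤ : ℕ∞) : WithBot ℕ∞) + (tr x : WithBot ℕ∞) = ((⊤ + (tr x : ℕ∞) : ℕ∞) :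
          WithBot ℕ∞) from rfl, top_add]
        exact fun h2 => ENat.coe_ne_top (tr v) (WithBot.coe_injective h2).symm)
    | coe m => exact ⟨m, rfl, by exact_mod_cast h1⟩

theorem tr_strictMono : StrictMono (tr : S.X.left → ℕ) := by
  intro x v h
  obtain ⟨m, h1, h2⟩ := quot_eq h.le
  have := primeOf_isPrime h.le
  have h3 : m ≠ 0 := by
    rintro rfl
    have : Ring.KrullDimLE 0 (St x ⧸ primeOf x v) := Ring.krullDimLE_iff.2 h1.le
    have h4 : IsField (St x ⧸ primeOf x v) := Ring.KrullDimLE.isField_of_isDomain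
    have h5 : primeOf x v = primeOf x x := by
      rw [primeOf_self]
      exact eq_maximalIdeal (Ideal.Quotient.maximal_of_isField _ h4)
    exact h.not_ge (primeOf_inj le_rfl h.le h5).le
  omega

theorem height_eq_tr (x : S.X.left) : Order.height x = tr x := by
  refine le_antisymm ?_ ?_
  · simpa using Order.height_le_height_apply_of_strictMono _ tr_strictMono x
  obtain ⟨U, hU, hx, -⟩ :=
    exists_isAffineOpen_mem_and_subset (X := S.X.left) (x := x) (U := ⊤) trivial
  have h1 : ∀ p q : PrimeSpectrum Γ(S.X.left, U), hU.fromSpec q ≤ hU.fromSpec p ↔ p ≤ q :=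
    fun p q => hU.fromSpec.isOpenEmbedding.isInducing.specializes_iff.trans
      (PrimeSpectrum.le_iff_specializes p q).symm
  let f : (PrimeSpectrum.zeroLocus (R := Γ(S.X.left, U))
      (hU.primeIdealOf ⟨x, hx⟩).asIdeal)ᵒᵈ → Set.Iic x := fun q =>
    ⟨hU.fromSpec (OrderDual.ofDual q).1, by
      have h2 := (h1 (hU.primeIdealOf ⟨x, hx⟩) (OrderDual.ofDual q).1).2 (OrderDual.ofDual q).2
      rwa [hU.fromSpec_primeIdealOf] at h2⟩
  have hf : StrictMono f := fun p q hpq =>
    lt_of_le_not_ge ((h1 _ _).2 hpq.le) fun h2 => hpq.not_ge ((h1 _ _).1 h2)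
  have h3 := Order.krullDim_le_of_strictMono f hf
  rw [Order.krullDim_orderDual, ← ringKrullDim_quotient, (chart hU hx).1,
    ← Order.height_eq_krullDim_Iic] at h3
  exact WithBot.coe_le_coe.1 h3

theorem dm_eq_tr (x : S.X.left) : dm x = tr x := by
  rw [dm, height_eq_tr, ENat.toNat_natCast]

end Dim0

open Dim0

theorem height_eq_dm (x : S.X.left) : Order.height x = dm x := by
  rw [dm_eq_tr, height_eq_tr]

theorem trdeg_eq_dm (x : S.X.left) :
    letI := algRf S x
    Algebra.trdeg k (Rf x) = dm x := by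
  obtain ⟨U, hU, hx, -⟩ :=
    exists_isAffineOpen_mem_and_subset (X := S.X.left) (x := x) (U := ⊤) trivial
  rw [dm_eq_tr]
  exact (chart hU hx).2

theorem dm_gen (S : SmProj k) : dm S.gen = S.dim := by
  obtain ⟨U, hU, V, hV, hx, e, hf⟩ :=
    SmoothOfRelativeDimension.exists_isStandardSmoothOfRelativeDimension (n := S.dim)
      (f := S.X.hom) S.gen
  have hU' : U = ⊤ := by
    refine eq_top_iff.2 fun y _ => ?_
    have : y = S.X.hom S.gen := Subsingleton.elim (α := PrimeSpectrum k) _ _
    rw [this]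
    exact e hx
  subst hU'
  let := algSec S V
  let := algRf S S.gen
  have : Nonempty V := ⟨⟨S.gen, hx⟩⟩
  have : Algebra.IsStandardSmoothOfRelativeDimension S.dim k Γ(S.X.left, V) :=
    RingHom.isStandardSmoothOfRelativeDimension_respectsIso.2 _
      (Scheme.ΓSpecIso (CommRingCat.of k)).symm.commRingCatIsoToRingEquiv hf
  have h1 := trdeg_smooth (k := k) (A := Γ(S.X.left, V)) S.dim
  have h2 : Function.Injective (evSec hx) := by
    rw [injective_iff_map_eq_zero]
    intro a ha
    rw [evSec_apply, ev_eq_zero, primeOf_gen, Ideal.mem_bot] at ha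
    exact (map_eq_zero_iff _ (germ_injective_of_isIntegral S.X.left S.gen hx)).1 ha
  rw [trdeg_frac (evSec hx) h2 (evSec_frac hV hx), trdeg_eq_dm] at h1
  exact_mod_cast h1

/-- The dimension formula. -/
theorem dim_quot {x v : S.X.left} (h : x ≤ v) :
    ringKrullDim (St x ⧸ primeOf x v) = (dm v - dm x : ℕ) := by
  obtain ⟨m, h1, h2⟩ := quot_eq h
  rw [h1, dm_eq_tr, dm_eq_tr, ← h2, Nat.add_sub_cancel]

end Pool.Agent.P.MP_638e8a_ag.Cyc
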