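import Pool.Agent.P.MP_638e8a_ag.ChA1

/-!
Task CHOW A3b: the associativity formula for modules.
-/

open IsLocalRing

universe u

namespace Pool.Agent.P.MP_638e8a_ag.Cyc

namespace A3b

variable {R : Type u} [CommRing R] {M N K : Type u} [AddCommGroup M] [Module R M]
  [AddCommGroup N] [Module R N] [AddCommGroup K] [Module R K]

theorem map_exact (S : Submonoid R) (f : N →ₗ[R] M) (p : M →ₗ[R] K) (h : Function.Exact f p) :
    Function.Exact (LocalizedModule.map S f) (LocalizedModule.map S p) :=
  LocalizedModule.map_exact S f p h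

theorem map_lsmul (S : Submonoid R) (x : R) (m : LocalizedModule S M) :
    LocalizedModule.map S (LinearMap.lsmul R M x) m = algebraMap R (Localization S) x • m := by
  induction m using LocalizedModule.induction_on with
  | _ m s => rw [LocalizedModule.map_mk, algebraMap_smul, LocalizedModule.smul'_mk]; rfl

open Pointwise in
theorem emult_quot (S : Submonoid R) (x : R) (g : List (Localization S)) :
    emult g (QuotSMulTop (algebraMap R (Localization S) x) (LocalizedModule S M)) =
      emult g (LocalizedModule S (QuotSMulTop x M)) := by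
  have h1 : Function.Exact (LinearMap.lsmul R M x) (Submodule.mkQ (x • (⊤ : Submodule R M))) := by
    intro m
    simp [Submodule.mem_smul_pointwise_iff_exists]
  have h2 := map_exact S _ _ h1
  have h3 := LocalizedModule.map_surjective S _ (Submodule.mkQ_surjective (x • (⊤ : Submodule R M)))
  refine emult_congr ((Submodule.quotEquivOfEq _ _ ?_).trans
    (LinearMap.quotKerEquivOfSurjective _ h3)) g
  ext m
  rw [LinearMap.mem_ker, h2 m, Submodule.mem_smul_pointwise_iff_exists]
  simp [map_lsmul]

theorem emult_tors (S : Submonoid R) (x : R) (g : List (Localization S)) :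
    emult g (Submodule.torsionBy (Localization S) (LocalizedModule S M)
      (algebraMap R (Localization S) x)) =
      emult g (LocalizedModule S (Submodule.torsionBy R M x)) := by
  have h1 : Function.Exact (Submodule.torsionBy R M x).subtype (LinearMap.lsmul R M x) := by
    intro m
    simp
  have h2 := map_exact S _ _ h1
  have h3 := LocalizedModule.map_injective S _ (Submodule.torsionBy R M x).subtype_injective
  refine (emult_congr ((LinearEquiv.ofInjective _ h3).trans (LinearEquiv.ofEq _ _ ?_)) g).symm
  ext m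
  rw [Submodule.mem_torsionBy_iff, ← map_lsmul, h2 m]
  rfl

theorem dim_succ_le {Q P : Ideal R} [Q.IsPrime] (h : Q ≤ P) (hne : Q ≠ P) :
    ringKrullDim (R ⧸ P) + 1 ≤ ringKrullDim (R ⧸ Q) := by
  obtain ⟨x, hx, hx'⟩ := SetLike.exists_of_lt (lt_of_le_of_ne h hne)
  refine ringKrullDim_succ_le_of_surjective (Ideal.Quotient.factor h)
    (Ideal.Quotient.factor_surjective h) (r := Ideal.Quotient.mk Q x)
    (mem_nonZeroDivisors_of_ne_zero ?_) ?_
  · rwa [Ne, Ideal.Quotient.eq_zero_iff_mem]
  · rwa [Ideal.Quotient.factor_mk, Ideal.Quotient.eq_zero_iff_mem]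

theorem eq_of_dim {Q P : PrimeSpectrum R} {n : ℕ} (h : Q.asIdeal ≤ P.asIdeal)
    (hQ : ringKrullDim (R ⧸ Q.asIdeal) ≤ n) (hP : ringKrullDim (R ⧸ P.asIdeal) = n) : Q = P := by
  by_contra hne
  have h1 := (dim_succ_le h fun e => hne (PrimeSpectrum.ext e)).trans hQ
  rw [hP] at h1
  have h2 : n + 1 ≤ n := by exact_mod_cast h1
  omega

theorem mem_support_quot {Q : Ideal R} {P : PrimeSpectrum R} :
    P ∈ Module.support R (R ⧸ Q) ↔ Q ≤ P.asIdeal := by
  rw [Module.mem_support_iff_of_finite, Ideal.annihilator_quotient]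

theorem length_one (Q : PrimeSpectrum R) :
    Module.length (Localization.AtPrime Q.asIdeal)
      (LocalizedModule Q.asIdeal.primeCompl (R ⧸ Q.asIdeal)) = 1 := by
  have : Nontrivial (LocalizedModule Q.asIdeal.primeCompl (R ⧸ Q.asIdeal)) :=
    Module.mem_support_iff.mp (mem_support_quot.mpr le_rfl)
  set f := LinearMap.toSpanSingleton (Localization.AtPrime Q.asIdeal) _
    (LocalizedModule.mk (1 : R ⧸ Q.asIdeal) (1 : Q.asIdeal.primeCompl)) with hf
  have h1 : Function.Surjective f := by
    intro m
    induction m using LocalizedModule.induction_on with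
    | _ m s =>
      obtain ⟨r, rfl⟩ := Ideal.Quotient.mk_surjective m
      refine ⟨Localization.mk r s, ?_⟩
      rw [hf, LinearMap.toSpanSingleton_apply, LocalizedModule.mk_smul_mk, mul_one,
        Algebra.smul_def, mul_one]
      rfl
  have h2 : maximalIdeal (Localization.AtPrime Q.asIdeal) = LinearMap.ker f := by
    refine (maximalIdeal.isMaximal _).eq_of_le (fun h => ?_) ?_
    · obtain ⟨m, hm⟩ := exists_ne (0 : LocalizedModule Q.asIdeal.primeCompl (R ⧸ Q.asIdeal))
      obtain ⟨r, rfl⟩ := h1 m
      exact hm (LinearMap.mem_ker.mp (h ▸ Submodule.mem_top))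
    · rw [← Localization.AtPrime.map_eq_maximalIdeal, Ideal.map_le_iff_le_comap]
      intro r hr
      rw [Ideal.mem_comap, LinearMap.mem_ker, hf, LinearMap.toSpanSingleton_apply,
        algebraMap_smul, LocalizedModule.smul'_mk, Algebra.smul_def, mul_one,
        Ideal.Quotient.algebraMap_eq, Ideal.Quotient.eq_zero_iff_mem.mpr hr,
        LocalizedModule.zero_mk]
  rw [Module.length_eq_one_iff, isSimpleModule_iff_quot_maximal]
  exact ⟨_, h2 ▸ maximalIdeal.isMaximal _, ⟨(LinearMap.quotKerEquivOfSurjective f h1).symm⟩⟩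

theorem length_fin [IsNoetherianRing R] [Module.Finite R M] (P : PrimeSpectrum R)
    (h : ∀ Q ∈ Module.support R M, Q.asIdeal ≤ P.asIdeal → Q = P) :
    Module.length (Localization.AtPrime P.asIdeal) (LocalizedModule P.asIdeal.primeCompl M) ≠ ⊤ := by
  refine MS.length_ne_top fun Q hQ _ => ?_
  have h1 : PrimeSpectrum.comap (algebraMap R (Localization.AtPrime P.asIdeal)) Q ∈
      Module.support R M := by
    rw [Module.mem_support_iff_of_finite]
    intro a ha
    refine Module.annihilator_le_of_mem_support hQ (Module.mem_annihilator.mpr fun m => ?_)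
    induction m using LocalizedModule.induction_on with
    | _ m s => rw [algebraMap_smul, LocalizedModule.smul'_mk, Module.mem_annihilator.mp ha,
        LocalizedModule.zero_mk]
  have h2 := h _ h1 (by
    conv_rhs => rw [← Localization.AtPrime.under_maximalIdeal (I := P.asIdeal)]
    exact Ideal.comap_mono (le_maximalIdeal Q.isPrime.ne_top))
  have h3 : maximalIdeal (Localization.AtPrime P.asIdeal) ≤ Q.asIdeal := by
    rw [← Localization.AtPrime.map_eq_maximalIdeal, Ideal.map_le_iff_le_comap]
    exact (congrArg PrimeSpectrum.asIdeal h2).ge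
  exact ((maximalIdeal.isMaximal _).eq_of_le Q.isPrime.ne_top h3) ▸ maximalIdeal.isMaximal _

theorem base [IsNoetherianRing R] [IsLocalRing R] [Module.Finite R M] (h : List R) (hms : MS h M)
    (s : Finset (PrimeSpectrum R))
    (hd : ∀ P ∈ Module.support R M, ringKrullDim (R ⧸ P.asIdeal) ≤ h.length)
    (hs : ∀ P ∈ Module.support R M, ringKrullDim (R ⧸ P.asIdeal) = h.length → P ∈ s)
    (hs' : ∀ P ∈ s, ringKrullDim (R ⧸ P.asIdeal) = h.length) :
    emult h M = ∑ P ∈ s, ((Module.length (Localization.AtPrime P.asIdeal)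
      (LocalizedModule P.asIdeal.primeCompl M)).toNat : ℤ) * emult h (R ⧸ P.asIdeal) := by
  classical
  refine filtration_induction (M := M) (fun N _ _ _ => emult h N = ∑ P ∈ s,
    ((Module.length (Localization.AtPrime P.asIdeal)
      (LocalizedModule P.asIdeal.primeCompl N)).toNat : ℤ) * emult h (R ⧸ P.asIdeal))
    (Module.support R M) subset_rfl ?_ ?_ ?_
  · intro N _ _ _ _
    rw [emult_of_subsingleton]
    refine (Finset.sum_eq_zero fun P _ => ?_).symm
    have : Subsingleton (LocalizedModule P.asIdeal.primeCompl N) :=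
      Module.notMem_support_iff.mp (by simp [Module.support_eq_empty])
    simp
  · intro N _ _ _ Q hQ hN e
    have hz : ∀ P ∈ s, P ≠ Q → ((Module.length (Localization.AtPrime P.asIdeal)
        (LocalizedModule P.asIdeal.primeCompl N)).toNat : ℤ) * emult h (R ⧸ P.asIdeal) = 0 := by
      intro P hP hne
      have : Subsingleton (LocalizedModule P.asIdeal.primeCompl N) := by
        rw [← Module.notMem_support_iff, e.support_eq, mem_support_quot]
        exact fun hle => hne (eq_of_dim hle (hd Q hQ) (hs' P hP)).symm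
      simp
    by_cases hQs : Q ∈ s
    · rw [Finset.sum_eq_single_of_mem Q hQs hz, emult_congr e,
        (IsLocalizedModule.mapEquiv Q.asIdeal.primeCompl
          (LocalizedModule.mkLinearMap Q.asIdeal.primeCompl _)
          (LocalizedModule.mkLinearMap Q.asIdeal.primeCompl _)
          (Localization.AtPrime Q.asIdeal) e).length_eq,
        length_one]
      simp
    · rw [Finset.sum_eq_zero fun P hP => hz P hP (ne_of_mem_of_not_mem hP hQs)]
      refine emult_eq_zero_of_dim_lt (fun P hP => hms P (hN hP)) fun P hP => ?_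
      refine lt_of_le_of_ne (hd P (hN hP)) fun he => hQs ?_
      rw [e.support_eq, mem_support_quot] at hP
      rw [eq_of_dim hP (hd Q hQ) he]
      exact hs P (hN (by rwa [e.support_eq, mem_support_quot])) he
  · intro N M' K _ _ _ _ _ _ _ _ _ f p hf hp hfp hM' h1 h2
    rw [emult_add (fun P hP => hms P (hM' hP)) f p hf hp hfp, h1, h2, ← Finset.sum_add_distrib]
    refine Finset.sum_congr rfl fun P hP => ?_
    have h3 := length_fin (M := M') P fun Q hQ hle => eq_of_dim hle (hd Q (hM' hQ)) (hs' P hP)
    have h4 := Module.length_eq_add_of_exact _ _ (LocalizedModule.map_injective _ f hf)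
      (LocalizedModule.map_surjective _ p hp) (map_exact P.asIdeal.primeCompl f p hfp)
    rw [h4] at h3
    rw [h4, ENat.toNat_add (WithTop.add_ne_top.mp h3).1 (WithTop.add_ne_top.mp h3).2]
    push_cast
    ring

end A3b

variable {R : Type u} [CommRing R] [IsNoetherianRing R] [IsLocalRing R] {M : Type u}
  [AddCommGroup M] [Module R M] [Module.Finite R M]

theorem emult_append (g h : List R) (hms : MS (g ++ h) M) (s : Finset (PrimeSpectrum R))
    (hd : ∀ P ∈ Module.support R M, Ideal.ofList g ≤ P.asIdeal →
      ringKrullDim (R ⧸ P.asIdeal) ≤ h.length)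
    (hs : ∀ P ∈ Module.support R M, Ideal.ofList g ≤ P.asIdeal →
      ringKrullDim (R ⧸ P.asIdeal) = h.length → P ∈ s)
    (hs' : ∀ P ∈ s, ringKrullDim (R ⧸ P.asIdeal) = h.length) :
    emult (g ++ h) M = ∑ P ∈ s, emult (g.map (algebraMap R (Localization.AtPrime P.asIdeal)))
      (LocalizedModule P.asIdeal.primeCompl M) * emult h (R ⧸ P.asIdeal) := by
  induction g generalizing M with
  | nil => exact A3b.base h hms s (fun P hP => hd P hP (by simp)) (fun P hP => hs P hP (by simp)) hs'
  | cons x g ih =>
    have k1 : ∀ P ∈ Module.support R (QuotSMulTop x M), Ideal.ofList g ≤ P.asIdeal →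
        P ∈ Module.support R M ∧ Ideal.ofList (x :: g) ≤ P.asIdeal := by
      intro P hP hg
      rw [Module.support_quotSMulTop] at hP
      refine ⟨hP.1, ?_⟩
      rw [Ideal.ofList_cons, sup_le_iff, Ideal.span_le]
      exact ⟨hP.2, hg⟩
    have k2 : ∀ P ∈ Module.support R (Submodule.torsionBy R M x), Ideal.ofList g ≤ P.asIdeal →
        P ∈ Module.support R M ∧ Ideal.ofList (x :: g) ≤ P.asIdeal := by
      intro P hP hg
      refine ⟨Module.support_subset_of_injective _ (Submodule.subtype_injective _) hP, ?_⟩
      rw [Ideal.ofList_cons, sup_le_iff, Ideal.span_singleton_le_iff_mem]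
      exact ⟨Module.annihilator_le_of_mem_support hP
        (Module.mem_annihilator.mpr fun m => Subtype.ext m.2), hg⟩
    rw [List.cons_append, emult_cons,
      ih (MS.quot hms) (fun P hP hg => hd P (k1 P hP hg).1 (k1 P hP hg).2)
        (fun P hP hg => hs P (k1 P hP hg).1 (k1 P hP hg).2),
      ih (MS.torsion hms) (fun P hP hg => hd P (k2 P hP hg).1 (k2 P hP hg).2)
        (fun P hP hg => hs P (k2 P hP hg).1 (k2 P hP hg).2), ← Finset.sum_sub_distrib]
    refine Finset.sum_congr rfl fun P _ => ?_
    rw [List.map_cons, emult_cons, A3b.emult_quot, A3b.emult_tors, sub_mul]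

end Pool.Agent.P.MP_638e8a_ag.Cyc
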