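import Pool.Agent.P.MP_638e8a_ag.ChKill
import Pool.Agent.P.MP_90138e_ag.SegreB

/-!
Task CHOW COORD0: homogeneous coordinates on projective space.
-/

open CategoryTheory AlgebraicGeometry IsLocalRing TopologicalSpace

universe u

namespace Pool.Agent.P.MP_638e8a_ag.Cyc

open Pool.Agent.P.MP_90138e_ag
open Pool.Agent.P.MP_90138e_ag.WeilCohomology (fstH sndH)

variable {k : Type u} [Field k]

namespace Coord0

open SegreAux HomogeneousLocalization

attribute [local instance] MvPolynomial.gradedAlgebra algCh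

variable (k) {σ : Type}

/-- The standard affine opens. -/
noncomputable abbrev UU (j : σ) : (Proj (gr k σ)).Opens :=
  Proj.basicOpen (gr k σ) (MvPolynomial.X j)

theorem hUU (j : σ) : IsAffineOpen (UU k j) :=
  Proj.isAffineOpen_basicOpen (gr k σ) (MvPolynomial.X j) (X_mem k j) one_pos

theorem exists_tau (j : σ) : ∃ τ : CommRingCat.of (Ch k j) ⟶ Γ(Proj (gr k σ), UU k j),
    Spec.map τ ≫ chι k j = (hUU k j).fromSpec := by
  have := isOpenImmersion_chι k j
  have h : Set.range (hUU k j).fromSpec ⊆ Set.range (chι k j) := by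
    rw [range_chι, IsAffineOpen.range_fromSpec]
  obtain ⟨τ, hτ⟩ := Spec.map_surjective (IsOpenImmersion.lift (chι k j) (hUU k j).fromSpec h)
  exact ⟨τ, by rw [hτ, IsOpenImmersion.lift_fac]⟩

/-- Elements of the chart ring as sections. -/
noncomputable def tau (j : σ) : CommRingCat.of (Ch k j) ⟶ Γ(Proj (gr k σ), UU k j) :=
  (exists_tau k j).choose

/-- Elements of the chart ring as germs. -/
noncomputable def al (j : σ) (x : Proj (gr k σ)) (hx : x ∈ UU k j) :
    CommRingCat.of (Ch k j) ⟶ (Proj (gr k σ)).presheaf.stalk x :=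
  tau k j ≫ (Proj (gr k σ)).presheaf.germ (UU k j) x hx

theorem al_spec (j : σ) (x : Proj (gr k σ)) (hx : x ∈ UU k j) :
    Spec.map (al k j x hx) ≫ chι k j = (Proj (gr k σ)).fromSpecStalk x := by
  rw [al, Spec.map_comp, Category.assoc, tau, (exists_tau k j).choose_spec,
    ← (hUU k j).fromSpecStalk_eq_fromSpecStalk hx]
  rfl

variable {k}

theorem coord_mul {R : CommRingCat.{u}} {i j : σ} (α : CommRingCat.of (Ch k i) ⟶ R)
    (β : CommRingCat.of (Ch k j) ⟶ R) (h : Spec.map α ≫ chι k i = Spec.map β ≫ chι k j) (l : σ) :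
    α.hom (coord k i l) = α.hom (coord k i j) * β.hom (coord k j l) :=
  coords_of_eq (gr k σ) (X_mem k i) (X_mem k j) α.hom β.hom h _ (X_mem k l)

theorem coord_unit {R : CommRingCat.{u}} {i j : σ} (α : CommRingCat.of (Ch k i) ⟶ R)
    (β : CommRingCat.of (Ch k j) ⟶ R) (h : Spec.map α ≫ chι k i = Spec.map β ≫ chι k j) :
    IsUnit (α.hom (coord k i j)) := by
  have h1 := coord_mul β α h.symm j
  rw [coord_self, map_one] at h1
  exact IsUnit.of_mul_eq_one_right _ h1.symm

variable (k)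

/-- A chart containing the point. -/
noncomputable def JJ (x : Proj (gr k σ)) : σ := (exists_mem_basicOpen_X k x).choose

theorem hJJ (x : Proj (gr k σ)) : x ∈ UU k (JJ k x) := (exists_mem_basicOpen_X k x).choose_spec

variable (σ)

/-- The homogeneous coordinates. -/
noncomputable def sec : Sec (Proj (gr k σ)) σ where
  s x i := (al k (JJ k x) x (hJJ k x)).hom (coord k (JJ k x) i)
  loc x := by
    refine ⟨UU k (JJ k x), hJJ k x, fun i => (tau k (JJ k x)).hom (coord k (JJ k x) i),
      fun y hy => ?_⟩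
    have h := (al_spec k (JJ k y) y (hJJ k y)).trans (al_spec k (JJ k x) y hy).symm
    exact ⟨(coord_unit _ _ h).unit, fun i => coord_mul _ _ h i⟩

theorem sec_bpf : (sec k σ).Bpf := fun x => ⟨JJ k x, by
  change IsUnit ((al k (JJ k x) x (hJJ k x)).hom (coord k (JJ k x) (JJ k x)))
  rw [coord_self, map_one]
  exact isUnit_one⟩

variable {k σ}

/-- A point of a chart is given by its coordinates. -/
theorem chart_eq_pt {R : CommRingCat.{u}} {j : σ} (β : CommRingCat.of (Ch k j) ⟶ R) :
    ∃ (c : k →+* R) (h : IsUnit (MvPolynomial.eval₂Hom c (fun i => β.hom (coord k j i))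
      (MvPolynomial.X j))), Spec.map β ≫ chι k j = pt (gr k σ) _ h (X_mem k j) one_pos := by
  have h1 : MvPolynomial.eval₂Hom (β.hom.comp (algebraMap k (Ch k j)))
      (fun i => β.hom (coord k j i)) (MvPolynomial.X j) = 1 := by
    rw [MvPolynomial.eval₂Hom_X', coord_self, map_one]
  refine ⟨β.hom.comp (algebraMap k (Ch k j)), h1 ▸ isUnit_one, ?_⟩
  rw [pt, ← awayLift_eq_of (gr k σ) _ _ (X_mem k j) β.hom fun n a ha => ?_]
  · rfl
  · rw [h1, one_pow, mul_one, ← aeval_coord k j n a ha, MvPolynomial.aeval_def,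
      MvPolynomial.hom_eval₂]
    rfl

theorem exists_chart {R : CommRingCat.{u}} [IsLocalRing R] (a : Spec R ⟶ Proj (gr k σ)) :
    ∃ (j : σ) (β : CommRingCat.of (Ch k j) ⟶ R), Spec.map β ≫ chι k j = a ∧
      ∀ i, (Scheme.stalkClosedPointTo a).hom ((sec k σ).s _ i) = β.hom (coord k j i) := by
  refine ⟨JJ k (a (closedPoint R)), al k _ _ (hJJ k _) ≫ Scheme.stalkClosedPointTo a, ?_,
    fun i => rfl⟩
  rw [Spec.map_comp, Category.assoc, al_spec, Scheme.Spec_stalkClosedPointTo_fromSpecStalk]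

theorem sec_sep {R : CommRingCat.{u}} [IsLocalRing R] (a b : Spec R ⟶ Proj (gr k σ))
    (hab : a ≫ str k σ = b ≫ str k σ)
    (h : ∀ i j, (Scheme.stalkClosedPointTo a).hom ((sec k σ).s _ i) *
        (Scheme.stalkClosedPointTo b).hom ((sec k σ).s _ j) =
      (Scheme.stalkClosedPointTo a).hom ((sec k σ).s _ j) *
        (Scheme.stalkClosedPointTo b).hom ((sec k σ).s _ i)) : a = b := by
  obtain ⟨i, α, ha, ha'⟩ := exists_chart a
  obtain ⟨j, β, hb, hb'⟩ := exists_chart b
  simp only [ha', hb'] at h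
  obtain ⟨c, hc, e1⟩ := chart_eq_pt α
  obtain ⟨c', hc', e2⟩ := chart_eq_pt β
  rw [← ha, ← hb, e1, e2] at hab ⊢
  rw [pt_str, pt_str] at hab
  have hcc : c = c' := by
    have h1 := congrArg CommRingCat.Hom.hom (Spec.map_injective hab)
    simpa only [CommRingCat.hom_ofHom, MvPolynomial.eval₂Hom_comp_C] using h1
  subst hcc
  refine pt_scale (gr k σ) _ _ (β.hom (coord k j i)) (fun n p hp => ?_) _ _ _ _ _ _
  have e : (fun l => β.hom (coord k j l)) = fun l => β.hom (coord k j i) * α.hom (coord k i l) := by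
    funext l
    have := h l i
    rw [coord_self, map_one, one_mul] at this
    rw [← this, mul_comm]
  rw [e]
  exact eval₂_scale c _ _ hp

theorem sec_ex {R : CommRingCat.{u}} [IsLocalRing R] (c : Spec R ⟶ Spec (.of k)) (x : σ → R)
    (hx : ∃ i, IsUnit (x i)) : ∃ (a : Spec R ⟶ Proj (gr k σ)) (e : Rˣ), a ≫ str k σ = c ∧
      ∀ i, (Scheme.stalkClosedPointTo a).hom ((sec k σ).s _ i) = e * x i := by
  obtain ⟨i, hi⟩ := hx
  obtain ⟨c', rfl⟩ := Spec.map_surjective c
  have hi' : IsUnit (MvPolynomial.eval₂Hom c'.hom x (MvPolynomial.X i)) := by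
    rwa [MvPolynomial.eval₂Hom_X']
  obtain ⟨j, β, hb, hb'⟩ := exists_chart (R := R) (pt (gr k σ) _ hi' (X_mem k i) one_pos)
  have hb2 : Spec.map β ≫ chι k j =
      Spec.map (CommRingCat.ofHom (awayLift (gr k σ) _ _ hi')) ≫ chι k i := hb
  refine ⟨pt (gr k σ) _ hi' (X_mem k i) one_pos, (coord_unit _ _ hb2).unit * hi.unit⁻¹, ?_,
    fun l => ?_⟩
  · rw [pt_str, MvPolynomial.eval₂Hom_comp_C]
    rfl
  · rw [hb', coord_mul _ _ hb2 l]
    have h1 := awayLift_mk (gr k σ) _ hi' (X_mem k i) 1 (MvPolynomial.X l)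
      (by simpa using X_mem k l)
    rw [MvPolynomial.eval₂Hom_X', MvPolynomial.eval₂Hom_X', pow_one] at h1
    rw [← h1, Units.val_mul, IsUnit.unit_spec, mul_assoc]
    congr 1
    rw [mul_comm _ (x i), ← mul_assoc, IsUnit.val_inv_mul, one_mul]
    rfl

end Coord0

/-- Homogeneous coordinates on projective space: they have no common zero, separate points with
values in local rings, and take arbitrary values. -/
theorem exists_coord_proj (k : Type u) [Field k] (n : ℕ) :
    ∃ s : Sec (projSpace k n).left (Fin (n + 1)), s.Bpf ∧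
      (∀ (R : CommRingCat.{u}) [IsLocalRing R] (a b : Spec R ⟶ (projSpace k n).left),
        a ≫ (projSpace k n).hom = b ≫ (projSpace k n).hom →
        (∀ i j, (Scheme.stalkClosedPointTo a).hom (s.s _ i) *
            (Scheme.stalkClosedPointTo b).hom (s.s _ j) =
          (Scheme.stalkClosedPointTo a).hom (s.s _ j) *
            (Scheme.stalkClosedPointTo b).hom (s.s _ i)) → a = b) ∧
      ∀ (R : CommRingCat.{u}) [IsLocalRing R] (c : Spec R ⟶ Spec (.of k)) (x : Fin (n + 1) → R),
        (∃ i, IsUnit (x i)) → ∃ (a : Spec R ⟶ (projSpace k n).left) (e : Rˣ),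
          a ≫ (projSpace k n).hom = c ∧
          ∀ i, (Scheme.stalkClosedPointTo a).hom (s.s _ i) = e * x i :=
  ⟨Coord0.sec k (Fin (n + 1)), Coord0.sec_bpf k _, fun _ _ a b h h' => Coord0.sec_sep a b h h',
    fun _ _ c x hx => Coord0.sec_ex c x hx⟩

end Pool.Agent.P.MP_638e8a_ag.Cyc
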