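import Pool.Agent.P.MP_638e8a_ag.ChA7b
import Pool.Agent.P.MP_638e8a_ag.ChBase

/-!
Task CHOW A7: the dimension formula for finitely generated domains over a field.
-/

open IsLocalRing

universe u

namespace Pool.Agent.P.MP_638e8a_ag.Cyc

namespace A7

theorem dim_quot {R : Type u} [CommRing R] (P : Ideal R) [hP : P.IsPrime] :
    ringKrullDim (R ⧸ P) = (Order.coheight (⟨P, hP⟩ : PrimeSpectrum R) : ℕ∞) := by
  have h : PrimeSpectrum.zeroLocus (R := R) P = Set.Ici (⟨P, hP⟩ : PrimeSpectrum R) := rfl
  rw [ringKrullDim_quotient, Order.coheight_eq_krullDim_Ici, h]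

theorem add_le {R : Type u} [CommRing R] (P : Ideal R) [hP : P.IsPrime] :
    (P.height : WithBot ℕ∞) + ringKrullDim (R ⧸ P) ≤ ringKrullDim R := by
  have : Nonempty (PrimeSpectrum R) := ⟨⟨P, hP⟩⟩
  rw [dim_quot, PrimeSpectrum.height_eq_orderHeight ⟨P, hP⟩, ringKrullDim,
    Order.krullDim_eq_iSup_height_add_coheight_of_nonempty, ← WithBot.coe_add, WithBot.coe_le_coe]
  exact le_iSup (fun a : PrimeSpectrum R => Order.height a + Order.coheight a) ⟨P, hP⟩

theorem height_mv (k : Type u) [Field k] (n : ℕ) (M : Ideal (MvPolynomial (Fin n) k))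
    [M.IsMaximal] : (n : ℕ∞) ≤ M.height := by
  induction n with
  | zero => simp
  | succ n ih =>
    let e := (MvPolynomial.finSuccEquiv k n).toRingEquiv
    have h1 : (M.map e).IsMaximal := inferInstance
    have h2 : ((M.map e).under (MvPolynomial (Fin n) k)).IsMaximal :=
      Polynomial.isMaximal_comap_C_of_isJacobsonRing (M.map e)
    have h3 := Ideal.over_under (A := MvPolynomial (Fin n) k) (M.map e)
    rw [← e.height_map M, Polynomial.height_eq_height_add_one ((M.map e).under _) (M.map e)]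
    push_cast
    exact add_le_add_left (ih _) 1

theorem exists_max {R : Type u} [CommRing R] [IsNoetherianRing R] [IsJacobsonRing R]
    {I P : Ideal R} [hP : P.IsPrime] (h : P ∈ I.minimalPrimes) :
    ∃ m : Ideal R, m.IsMaximal ∧ P ≤ m ∧ ∀ Q ∈ I.minimalPrimes, Q ≤ m → Q = P := by
  classical
  let S := (Ideal.finite_minimalPrimes_of_isNoetherianRing R I).toFinset.erase P
  have h1 : ¬ S.inf id ≤ P := by
    rw [hP.inf_le']
    rintro ⟨Q, hQ, hle⟩
    obtain ⟨h2, h3⟩ := Finset.mem_erase.1 hQ
    exact h2 (le_antisymm hle (h.2 ((Set.Finite.mem_toFinset _).1 h3).1 hle))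
  obtain ⟨f, hf, hfP⟩ := SetLike.not_le_iff_exists.1 h1
  rw [← IsJacobsonRing.out inferInstance hP.isRadical, Ideal.jacobson, Ideal.mem_sInf] at hfP
  push Not at hfP
  obtain ⟨m, ⟨hm1, hm2⟩, hfm⟩ := hfP
  refine ⟨m, hm2, hm1, fun Q hQ hle => by_contra fun hne => hfm (hle ?_)⟩
  exact (Finset.inf_le (f := id)
    (Finset.mem_erase.2 ⟨hne, (Set.Finite.mem_toFinset _).2 hQ⟩) : S.inf id ≤ Q) hf

theorem height_le {R : Type u} [CommRing R] [IsNoetherianRing R] [IsJacobsonRing R]
    (P : Ideal R) [hP : P.IsPrime] : ∃ m : Ideal R, m.IsMaximal ∧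
      m.height ≤ P.height + Order.coheight (⟨P, hP⟩ : PrimeSpectrum R) := by
  obtain ⟨s, hs, hc⟩ := P.exists_finset_card_eq_height_of_isNoetherianRing
  obtain ⟨m, hm, hPm, hu⟩ := exists_max hs
  have hIm : Ideal.span (s : Set R) ≤ m := hs.le.trans hPm
  refine ⟨m, hm, (Ideal.height_le_height_add_spanFinrank_of_le hIm).trans ?_⟩
  rw [add_comm]
  refine add_le_add ?_ ?_
  · rw [← hc]
    exact_mod_cast (Submodule.spanFinrank_span_le_ncard_of_finite s.finite_toSet).trans
      (Set.ncard_coe_finset s).le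
  · have := Ideal.isPrime_map_quotientMk_of_isPrime hIm
    obtain ⟨l, hl, hlen⟩ :=
      (m.map (Ideal.Quotient.mk (Ideal.span (s : Set R)))).exists_ltSeries_length_eq_height
    let φ := PrimeSpectrum.comap (Ideal.Quotient.mk (Ideal.span (s : Set R)))
    have hφ : StrictMono φ :=
      Monotone.strictMono_of_injective (fun _ _ h => Ideal.comap_mono h)
        (PrimeSpectrum.comap_injective_of_surjective _ Ideal.Quotient.mk_surjective)
    have h1 : Ideal.span (s : Set R) ≤ (φ l.head).asIdeal := fun x hx => by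
      change Ideal.Quotient.mk _ x ∈ l.head.asIdeal
      rw [Ideal.Quotient.eq_zero_iff_mem.2 hx]
      exact zero_mem _
    obtain ⟨Q, hQ, hQle⟩ := Ideal.exists_minimalPrimes_le h1
    have h2 : (φ l.head).asIdeal ≤ m := by
      refine le_trans (b := (φ l.last).asIdeal) (hφ.monotone l.head_le_last) ?_
      rw [hl]
      change Ideal.comap _ (Ideal.map _ m) ≤ m
      rw [Ideal.comap_map_of_surjective _ Ideal.Quotient.mk_surjective, ← RingHom.ker_eq_comap_bot,
        Ideal.mk_ker]
      exact sup_le le_rfl hIm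
    rw [hu Q hQ (hQle.trans h2)] at hQle
    rw [← hlen]
    exact Order.length_le_coheight (p := l.map φ hφ) hQle

end A7

variable {k : Type u} [Field k] {A : Type u} [CommRing A] [IsDomain A] [Algebra k A]
  [Algebra.FiniteType k A]

include k in
/-- All maximal ideals have the same height. -/
theorem dim_le_height_max (m : Ideal A) [m.IsMaximal] : ringKrullDim A ≤ m.height := by
  obtain ⟨n, g, hg, hi⟩ := exists_integral_inj_algHom_of_fg k A
  have := Algebra.FiniteType.isNoetherianRing k A
  algebraize [g.toRingHom]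
  have : FaithfulSMul (MvPolynomial (Fin n) k) A := (faithfulSMul_iff_algebraMap_injective _ _).2 hg
  have h1 : ringKrullDim A ≤ ringKrullDim (MvPolynomial (Fin n) k) :=
    Order.krullDim_le_of_strictMono
      (PrimeSpectrum.comap (algebraMap (MvPolynomial (Fin n) k) A))
      fun _ _ h => Ideal.IsIntegral.comap_lt_comap h
  have h2 := A7.height_mv k n (m.under (MvPolynomial (Fin n) k))
  have h3 := Ideal.height_eq_height_add_of_liesOver_of_hasGoingDown
    (m.under (MvPolynomial (Fin n) k)) m
  refine h1.trans ?_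
  rw [MvPolynomial.ringKrullDim_of_isNoetherianRing, ringKrullDim_eq_zero_of_field, zero_add,
    Nat.card_fin]
  exact_mod_cast h2.trans (h3 ▸ le_self_add)

include k in
theorem height_add_dim (P : Ideal A) [P.IsPrime] :
    (P.height : WithBot ℕ∞) + ringKrullDim (A ⧸ P) = ringKrullDim A := by
  refine le_antisymm (A7.add_le P) ?_
  have := Algebra.FiniteType.isNoetherianRing k A
  have : IsJacobsonRing A := isJacobsonRing_of_finiteType (A := k)
  obtain ⟨m, hm, h⟩ := A7.height_le P
  refine (dim_le_height_max (k := k) m).trans ?_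
  rw [A7.dim_quot, ← WithBot.coe_add, WithBot.coe_le_coe]
  exact h

end Pool.Agent.P.MP_638e8a_ag.Cyc
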