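import Pool.Agent.P.MP_638e8a_ag.ChDim0
import Pool.Agent.P.MP_638e8a_ag.ChA7

/-!
Task CHOW DIM: dimension theory on smooth projective varieties.
-/

open CategoryTheory AlgebraicGeometry IsLocalRing TopologicalSpace

universe u

namespace Pool.Agent.P.MP_638e8a_ag.Cyc

open Pool.Agent.P.MP_90138e_ag
open Pool.Agent.P.MP_90138e_ag.WeilCohomology (fstH sndH)

variable {k : Type u} [Field k] {S T : SmProj k}

theorem dm_mono {x y : S.X.left} (h : x ≤ y) : dm x ≤ dm y := by
  have h1 := Order.height_mono h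
  rw [height_eq_dm, height_eq_dm] at h1
  exact_mod_cast h1

theorem dm_lt {x y : S.X.left} (h : x ≤ y) (h' : x ≠ y) : dm x < dm y := by
  have h1 := Order.height_strictMono (lt_of_le_not_ge h fun e => h' (eq_of_le_of_le h e))
    (by rw [height_eq_dm]; exact ENat.natCast_lt_top _)
  rw [height_eq_dm, height_eq_dm] at h1
  exact_mod_cast h1

theorem eq_of_le_of_dm_le {x y : S.X.left} (h : x ≤ y) (h' : dm y ≤ dm x) : x = y := by
  by_contra e
  exact absurd (dm_lt h e) (not_lt.2 h')

theorem dm_le_dim (x : S.X.left) : dm x ≤ S.dim := by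
  rw [← dm_gen S]
  exact dm_mono (le_gen x)

theorem dm_eq_zero_iff {x : S.X.left} : dm x = 0 ↔ IsClosed {x} := by
  rw [S.isClosed_iff_isMin, ← Order.height_eq_zero, height_eq_dm]
  exact_mod_cast Iff.rfl

theorem coheight_eq (x : S.X.left) : Order.coheight x = (S.dim - dm x : ℕ) := by
  have h := dim_quot (S := S) (le_gen x)
  rw [primeOf_gen, ringKrullDim_eq_of_ringEquiv (RingEquiv.quotientBot _),
    ringKrullDim_stalk_eq_coheight, dm_gen] at h
  exact WithBot.coe_injective h

theorem trdeg_rfm (f : S.X ⟶ T.X) (x : S.X.left) : ∃ n : ℕ,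
    (letI := (rfm f.left x).toAlgebra; Algebra.trdeg (Rf (f.left x)) (Rf x) = n) ∧
      dm (f.left x) + n = dm x := by
  let := algRf S x
  let := algRf T (f.left x)
  let := (rfm f.left x).toAlgebra
  have : IsScalarTower k (Rf (f.left x)) (Rf x) := IsScalarTower.of_algebraMap_eq fun c => by
    change ev _ (cst S x c) = rfm f.left x (ev _ (cst T _ c))
    rw [← stm_cst f, ev_stm]
  have h := trdeg_add_eq k (Rf (f.left x)) (A := Rf x)
  rw [trdeg_eq_dm, trdeg_eq_dm] at h
  obtain ⟨n, hn⟩ := Cardinal.lt_aleph0.1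
    ((le_add_self.trans h.le).trans_lt (Cardinal.natCast_lt_aleph0 (n := dm x)))
  refine ⟨n, hn, ?_⟩
  rw [hn] at h
  exact_mod_cast h

theorem dm_map_le (f : S.X ⟶ T.X) (x : S.X.left) : dm (f.left x) ≤ dm x := by
  obtain ⟨n, -, h⟩ := trdeg_rfm f x
  omega

theorem residueDegree_ne_zero_iff (f : S.X ⟶ T.X) (x : S.X.left) :
    f.left.residueDegree x ≠ 0 ↔ dm (f.left x) = dm x := by
  obtain ⟨n, h1, h2⟩ := trdeg_rfm f x
  let := (rfm f.left x).toAlgebra
  have : Algebra.EssFiniteType (Rf (f.left x)) (Rf x) :=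
    (LocallyOfFiniteType.stalkMap f.left x).residueFieldMap
  refine ⟨fun h => ?_, fun h => ?_⟩
  · have : Module.Finite (Rf (f.left x)) (Rf x) :=
      Module.finite_of_finrank_pos (Nat.pos_of_ne_zero h)
    rw [trdeg_eq_zero] at h1
    have : n = 0 := by exact_mod_cast h1.symm
    omega
  · obtain rfl : n = 0 := by omega
    have := trdeg_eq_zero_iff.1 h1
    have : Module.Finite (Rf (f.left x)) (Rf x) := Algebra.finite_of_essFiniteType_of_isAlgebraic
    exact (Module.finrank_pos (R := Rf (f.left x)) (M := Rf x)).ne'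

theorem residueDegree_of_closedImmersion {X Y : Scheme.{u}} (f : X ⟶ Y) [IsClosedImmersion f]
    (x : X) : f.residueDegree x = 1 := by
  let := (rfm f x).toAlgebra
  refine Module.finrank_of_bijective_algebraMap (R := Rf (f x)) (S := Rf x)
    ⟨RingHom.injective _, fun c => ?_⟩
  obtain ⟨c, rfl⟩ := X.residue_surjective x c
  obtain ⟨a, rfl⟩ := f.stalkMap_surjective x c
  exact ⟨Y.residue _ a, congrArg (fun g => g.hom a) (Scheme.residue_residueFieldMap f x)⟩

theorem dm_map_of_closedImmersion (f : S.X ⟶ T.X) [IsClosedImmersion f.left] (x : S.X.left) :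
    dm (f.left x) = dm x := by
  rw [← residueDegree_ne_zero_iff, residueDegree_of_closedImmersion]
  exact one_ne_zero

open Classical in
theorem pushZ_apply_sum {X Y : Scheme.{u}} (f : X ⟶ Y) (c : X →₀ ℚ) (y : Y) :
    pushZ f c y = ∑ x ∈ c.support, if f x = y then c x * f.residueDegree x else 0 := by
  conv_lhs => rw [← c.sum_single, Finsupp.sum, map_sum, Finsupp.finsetSum_apply]
  simp only [pushZ_single, Finsupp.single_apply]

theorem pushZ_comp {X Y Z : Scheme.{u}} (f : X ⟶ Y) (g : Y ⟶ Z) (c : X →₀ ℚ) :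
    pushZ (f ≫ g) c = pushZ g (pushZ f c) := by
  induction c using Finsupp.induction_linear with
  | zero => simp
  | add a b ha hb => simp only [map_add, ha, hb]
  | single x a =>
    rw [pushZ_single, pushZ_single, pushZ_single, residueDegree_comp, Nat.cast_mul, mul_assoc,
      mul_comm (f.residueDegree x : ℚ), Scheme.Hom.comp_apply]

theorem pushZ_id {X : Scheme.{u}} (c : X →₀ ℚ) : pushZ (𝟙 X) c = c := by
  induction c using Finsupp.induction_linear with
  | zero => simp
  | add a b ha hb => simp only [map_add, ha, hb]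
  | single x a => simp [pushZ_single]

theorem mem_support_pushZ {f : S.X ⟶ T.X} {c : Zc S} {y : T.X.left}
    (h : y ∈ (pushZ f.left c).support) : ∃ x ∈ c.support, f.left x = y ∧ dm x = dm y := by
  classical
  rw [Finsupp.mem_support_iff, pushZ_apply_sum] at h
  obtain ⟨x, hx, h1⟩ := Finset.exists_ne_zero_of_sum_ne_zero h
  obtain ⟨rfl, h2⟩ := ite_ne_right_iff.1 h1
  exact ⟨x, hx, rfl, ((residueDegree_ne_zero_iff f x).1
    (Nat.cast_ne_zero.1 (right_ne_zero_of_mul h2))).symm⟩

theorem deg_retr (s : S.X ⟶ T.X) (p : T.X ⟶ S.X) (h : s ≫ p = 𝟙 _) (x : S.X.left) :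
    p.left.residueDegree (s.left x) = 1 := by
  have h1 := residueDegree_comp s.left p.left x
  have h2 : s.left ≫ p.left = 𝟙 _ := congrArg (fun f => f.left) h
  rw [h2, Scheme.Hom.residueDegree_id] at h1
  exact Nat.eq_one_of_mul_eq_one_right h1.symm

/-- A cycle supported on the image of a section comes from the section. -/
theorem pushZ_section (s : S.X ⟶ T.X) (p : T.X ⟶ S.X) (h : s ≫ p = 𝟙 _) (c : Zc T)
    (hc : ∀ y ∈ c.support, y ∈ Set.range s.left) : pushZ s.left (pushZ p.left c) = c := by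
  conv_lhs => rw [← c.sum_single, Finsupp.sum, map_sum, map_sum]
  conv_rhs => rw [← c.sum_single, Finsupp.sum]
  refine Finset.sum_congr rfl fun y hy => ?_
  obtain ⟨x, rfl⟩ := hc y hy
  rw [pushZ_single, deg_retr s p h, left_apply_of_comp s p h, pushZ_single,
    residueDegree_section s p h]
  simp

theorem pushZ_section_apply (s : S.X ⟶ T.X) (p : T.X ⟶ S.X) (h : s ≫ p = 𝟙 _) (c : Zc T)
    (hc : ∀ y ∈ c.support, y ∈ Set.range s.left) (x : S.X.left) :
    pushZ p.left c x = c (s.left x) := by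
  classical
  rw [pushZ_apply_sum, Finset.sum_eq_single (s.left x)]
  · rw [if_pos (left_apply_of_comp s p h x), deg_retr s p h, Nat.cast_one, mul_one]
  · intro y hy hne
    obtain ⟨z, rfl⟩ := hc y hy
    exact if_neg fun e => hne (by rw [← e, left_apply_of_comp s p h])
  · intro hx
    simp [Finsupp.notMem_support_iff.1 hx]

theorem IntZ.pushZ {X Y : Scheme.{u}} {c : X →₀ ℚ} (h : IntZ c) (f : X ⟶ Y) : IntZ (pushZ f c) := by
  classical
  intro y
  choose n hn using h
  exact ⟨∑ x ∈ c.support, if f x = y then n x * f.residueDegree x else 0, by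
    simp [pushZ_apply_sum, hn, apply_ite]⟩

end Pool.Agent.P.MP_638e8a_ag.Cyc
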