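import Pool.Agent.P.MP_638e8a_ag.ChA1

/-!
Task CHOW A2b: positivity of the multiplicity symbol; multiplicity one.
-/

open IsLocalRing Pointwise

universe u

namespace Pool.Agent.P.MP_638e8a_ag.Cyc

variable {R : Type u} [CommRing R] [IsNoetherianRing R] [IsLocalRing R] {M : Type u}
  [AddCommGroup M] [Module R M] [Module.Finite R M]

omit [IsNoetherianRing R] [IsLocalRing R] in
theorem A2b.smul_quot {P : Ideal R} {x : R} (hx : x ∈ P) (m : R ⧸ P) : x • m = 0 := by
  rw [Algebra.smul_def, Ideal.Quotient.algebraMap_eq, Ideal.Quotient.eq_zero_iff_mem.2 hx, zero_mul]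

omit [IsNoetherianRing R] [IsLocalRing R] in
theorem A2b.torsion {P : Ideal R} [P.IsPrime] {x : R} (hx : x ∉ P) :
    Subsingleton (Submodule.torsionBy R (R ⧸ P) x) := by
  refine ⟨fun a b => Subtype.ext ?_⟩
  have h : ∀ a : Submodule.torsionBy R (R ⧸ P) x, a.1 = 0 := fun a => by
    have h1 := (Submodule.mem_torsionBy_iff x a.1).1 a.2
    rw [Algebra.smul_def, Ideal.Quotient.algebraMap_eq, mul_eq_zero] at h1
    exact h1.resolve_left fun h2 => hx (Ideal.Quotient.eq_zero_iff_mem.1 h2)
  rw [h a, h b]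

omit [IsNoetherianRing R] [IsLocalRing R] in
theorem A2b.cons {P : Ideal R} [P.IsPrime] {x : R} (hx : x ∉ P) (g : List R) :
    emult (x :: g) (R ⧸ P) = emult g (QuotSMulTop x (R ⧸ P)) := by
  have := A2b.torsion hx
  rw [emult_cons, emult_of_subsingleton (M := Submodule.torsionBy R (R ⧸ P) x), sub_zero]

theorem emult_nonneg {g : List R} (h : MS g M) : 0 ≤ emult g M := by
  induction g generalizing M with
  | nil => exact Int.natCast_nonneg _
  | cons x g ih =>
    revert h
    refine filtration_induction (M := M) (fun (M : Type u) [AddCommGroup M] [Module R M] [Module.Finite R M] =>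
      MS (x :: g) M → 0 ≤ emult (x :: g) M)
      Set.univ (Set.subset_univ _) (fun M _ _ _ _ _ => (emult_of_subsingleton _).ge)
      (fun M _ _ _ Q _ _ e h => ?_) fun N M P _ _ _ _ _ _ _ _ _ f p hf hp hfp _ h1 h2 h => ?_
    · rw [emult_congr e]
      by_cases hx : x ∈ Q.asIdeal
      · exact (emult_eq_zero_of_smul_eq_zero List.mem_cons_self (A2b.smul_quot hx)).ge
      · rw [A2b.cons hx]
        exact ih (h.of_surjective e.toLinearMap e.surjective).quot
    · rw [emult_add h f p hf hp hfp]
      exact add_nonneg (h1 (h.of_injective f hf)) (h2 (h.of_surjective p hp))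

theorem emult_le_length {g : List R} (h : MS g M) :
    emult g M ≤ (Module.length R (M ⧸ (Ideal.ofList g • ⊤ : Submodule R M))).toNat := by
  induction g generalizing M with
  | nil =>
    rw [emult_nil, (Submodule.quotEquivOfEqBot (Ideal.ofList ([] : List R) • ⊤ : Submodule R M)
      (by simp)).length_eq]
  | cons x g ih =>
    rw [emult_cons, (Submodule.quotOfListConsSMulTopEquivQuotSMulTopInner M x g).length_eq]
    have h1 := ih h.quot
    have h2 := emult_nonneg h.torsion
    omega

omit [IsNoetherianRing R] [IsLocalRing R] in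
theorem A2b.exists_prime {n : ℕ} (h : (n : WithBot ℕ∞) ≤ Module.supportDim R M) :
    ∃ Q : Ideal R, Q.IsPrime ∧ Module.annihilator R M ≤ Q ∧
      (n : WithBot ℕ∞) ≤ ringKrullDim (R ⧸ Q) := by
  obtain ⟨p, rfl⟩ := Order.le_krullDim_iff.1 h
  refine ⟨p.head.1.asIdeal, p.head.1.2, Module.mem_support_iff_of_finite.1 p.head.2, ?_⟩
  rw [ringKrullDim_quotient]
  exact Order.LTSeries.length_le_krullDim (LTSeries.mk p.length
    (fun i => (⟨(p i).1, p.head_le i⟩ : PrimeSpectrum.zeroLocus (R := R) p.head.1.asIdeal))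
    fun i j hij => p.strictMono hij)

theorem emult_pos {g : List R} {P : Ideal R} [P.IsPrime] (h : MS g (R ⧸ P))
    (hg : Ideal.ofList g ≠ ⊤) (hd : ringKrullDim (R ⧸ P) = g.length) : 0 < emult g (R ⧸ P) := by
  induction g generalizing P with
  | nil =>
    rw [emult_nil, Int.natCast_pos]
    exact ENat.toNat_pos Module.length_pos.ne' h.length_ne_top
  | cons x g ih =>
    have hg' : Ideal.ofList g ≠ ⊤ := fun h1 => hg (by rw [Ideal.ofList_cons, h1, sup_top_eq])
    have hxm : x ∈ maximalIdeal R :=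
      le_maximalIdeal hg (Ideal.subset_span (List.mem_cons_self))
    have hx : x ∉ P := fun hx => by
      have h1 : MS g (R ⧸ P) := ms_quot_iff.2 fun Q hQ h1 h2 => ms_quot_iff.1 h Q hQ h1 (by
        rw [Ideal.ofList_cons, sup_le_iff, Ideal.span_singleton_le_iff_mem]
        exact ⟨h1 hx, h2⟩)
      have h2 := dim_le_of_ms h1 hg'
      rw [hd, List.length_cons] at h2
      norm_cast at h2
      omega
    have h1 : (g.length : WithBot ℕ∞) ≤ Module.supportDim R (QuotSMulTop x (R ⧸ P)) := by
      have h2 := Module.supportDim_le_supportDim_quotSMulTop_succ (M := R ⧸ P) hxm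
      rw [Module.supportDim_quotient_eq_ringKrullDim, hd, List.length_cons] at h2
      push_cast at h2
      exact ENat.WithBot.add_le_add_one_right_iff.1 h2
    obtain ⟨Q, hQ, h2, h3⟩ := A2b.exists_prime h1
    have hPQ : P ≤ Q := fun y hy => h2 (Module.mem_annihilator.2 fun m => by
      obtain ⟨m, rfl⟩ := Submodule.Quotient.mk_surjective _ m
      rw [← Submodule.Quotient.mk_smul, A2b.smul_quot hy, Submodule.Quotient.mk_zero])
    have hxQ : x ∈ Q := h2 (Module.mem_annihilator.2 fun m => by
      obtain ⟨m, rfl⟩ := Submodule.Quotient.mk_surjective _ m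
      rw [← Submodule.Quotient.mk_smul, Submodule.Quotient.mk_eq_zero]
      exact Submodule.smul_mem_pointwise_smul _ _ _ Submodule.mem_top)
    let p : QuotSMulTop x (R ⧸ P) →ₗ[R] R ⧸ Q := Submodule.liftQ _ (Submodule.factor hPQ) (by
      intro m hm
      obtain ⟨m, -, rfl⟩ := (Submodule.mem_smul_pointwise_iff_exists _ _ _).1 hm
      rw [LinearMap.mem_ker, map_smul, A2b.smul_quot hxQ])
    have hp : Function.Surjective p := fun y => by
      obtain ⟨m, rfl⟩ := Submodule.factor_surjective hPQ y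
      exact ⟨Submodule.Quotient.mk m, rfl⟩
    have h4 := h.quot.of_surjective p hp
    have h5 := ih h4 hg' (le_antisymm (dim_le_of_ms h4 hg') h3)
    have h6 := emult_nonneg (h.quot.of_injective _ (LinearMap.ker p).injective_subtype)
    rw [A2b.cons hx, emult_add h.quot _ p (LinearMap.ker p).injective_subtype hp
      (LinearMap.exact_subtype_ker_map p)]
    omega

theorem emult_eq_one {g : List R} {P : Ideal R} [P.IsPrime]
    (h : Ideal.ofList g ⊔ P = maximalIdeal R) (hd : ringKrullDim (R ⧸ P) = g.length) :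
    emult g (R ⧸ P) = 1 := by
  have h1 : MS g (R ⧸ P) := ms_quot_iff.2 fun Q hQ h1 h2 => by
    rw [← (maximalIdeal.isMaximal R).eq_of_le hQ.ne_top (h ▸ sup_le h2 h1)]
    infer_instance
  have h2 := emult_pos h1 (fun h2 => (maximalIdeal.isMaximal R).ne_top (by
    rw [← h, h2, top_sup_eq])) hd
  have h3 := emult_le_length h1
  have h4 : Module.length R ((R ⧸ P) ⧸ (Ideal.ofList g • ⊤ : Submodule R (R ⧸ P))) = 1 := by
    have e : (Ideal.ofList g • ⊤ : Submodule R (R ⧸ P)) =
        Submodule.map P.mkQ (Ideal.ofList g) := by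
      conv_rhs => rw [← (Ideal.ofList g).mul_top, ← smul_eq_mul]
      rw [Submodule.map_smul'', Submodule.map_top, Submodule.range_mkQ]
    rw [(Submodule.quotEquivOfEq _ _ e).length_eq,
      (Submodule.quotientQuotientEquivQuotientSup P (Ideal.ofList g)).length_eq,
      (Submodule.quotEquivOfEq _ _ ((sup_comm _ _).trans h)).length_eq, Module.length_eq_one_iff,
      isSimpleModule_iff_isCoatom, ← Ideal.isMaximal_def]
    infer_instance
  rw [h4] at h3
  simp only [ENat.toNat_one, Nat.cast_one] at h3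
  omega

omit [IsNoetherianRing R] [IsLocalRing R] in
theorem emult_one_eq_ord {P : Ideal R} [P.IsPrime] {a : R} (ha : a ∉ P) :
    emult [a] (R ⧸ P) = (Ring.ord (R ⧸ P) (Ideal.Quotient.mk P a)).toNat := by
  have e : (a • ⊤ : Submodule R (R ⧸ P)) =
      (Ideal.span {Ideal.Quotient.mk P a}).restrictScalars R := by
    ext m
    rw [Submodule.mem_smul_pointwise_iff_exists, Submodule.restrictScalars_mem,
      Ideal.mem_span_singleton']
    constructor
    · rintro ⟨b, -, rfl⟩
      exact ⟨b, by rw [Algebra.smul_def, mul_comm, Ideal.Quotient.algebraMap_eq]⟩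
    · rintro ⟨b, rfl⟩
      exact ⟨b, Submodule.mem_top, by rw [Algebra.smul_def, mul_comm, Ideal.Quotient.algebraMap_eq]⟩
  rw [A2b.cons ha, emult_nil, Ring.ord, (Submodule.quotEquivOfEq _ _ e).length_eq,
    (Submodule.Quotient.restrictScalarsEquiv R _).length_eq,
    Module.length_eq_of_surjective (R := R ⧸ P) Ideal.Quotient.mk_surjective]

omit [IsLocalRing R] in
theorem emult_one_mul {P : Ideal R} [P.IsPrime] (hd : ringKrullDim (R ⧸ P) ≤ 1) {a b : R}
    (ha : a ∉ P) (hb : b ∉ P) :
    emult [a * b] (R ⧸ P) = emult [a] (R ⧸ P) + emult [b] (R ⧸ P) := by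
  have : Ring.KrullDimLE 1 (R ⧸ P) := Ring.krullDimLE_iff.2 hd
  have h : ∀ {c : R}, c ∉ P → Ideal.Quotient.mk P c ∈ nonZeroDivisors (R ⧸ P) := fun hc =>
    mem_nonZeroDivisors_of_ne_zero fun h => hc (Ideal.Quotient.eq_zero_iff_mem.1 h)
  rw [emult_one_eq_ord ha, emult_one_eq_ord hb,
    emult_one_eq_ord fun h => (‹P.IsPrime›.mem_or_mem h).elim ha hb, map_mul,
    Ring.ord_mul _ (h hb), ENat.toNat_add (Ring.ord_ne_top (h ha)) (Ring.ord_ne_top (h hb))]
  push_cast
  rfl

end Pool.Agent.P.MP_638e8a_ag.Cyc
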