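import Pool.Agent.P.MP_638e8a_ag.ChA4b
import Pool.Agent.P.MP_638e8a_ag.ChA1

/-!
Task CHOW A4: flat base change and finite extensions.
-/

open IsLocalRing

universe u

namespace Pool.Agent.P.MP_638e8a_ag.Cyc

namespace A4

open TensorProduct Pointwise

section Equivs

variable {B : Type u} [CommRing B] (C : Type u) [CommRing C] [Algebra B C]
  (M : Type u) [AddCommGroup M] [Module B M]

/-- Torsion commutes with flat base change. -/
noncomputable def torsionEquiv [Module.Flat B C] (b : B) :
    Submodule.torsionBy C (C ⊗[B] M) (algebraMap B C b) ≃ₗ[C] C ⊗[B] Submodule.torsionBy B M b :=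
  LinearEquiv.ofEq _ _ (by
    unfold Submodule.torsionBy
    congr 1
    ext m
    simp [TensorProduct.smul_tmul', Algebra.smul_def]) ≪≫ₗ
    (LinearMap.tensorKerEquiv C C (DistribSMul.toLinearMap B M b)).symm

variable {R : Type u} [CommRing R] [Algebra R B] [Module R M] [IsScalarTower R B M]

/-- The quotient by `x` over `R` is the quotient by the image of `x` over `B`. -/
noncomputable def quotEquiv (x : R) :
    QuotSMulTop x M ≃ₗ[R] QuotSMulTop (algebraMap R B x) M :=
  Submodule.quotEquivOfEq _ _ (by
    ext m
    simp only [Submodule.restrictScalars_mem, Submodule.mem_smul_pointwise_iff_exists,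
      Submodule.mem_top, true_and, algebraMap_smul]) ≪≫ₗ
    Submodule.Quotient.restrictScalarsEquiv R (algebraMap R B x • (⊤ : Submodule B M))

/-- The torsion of `x` over `R` is the torsion of the image of `x` over `B`. -/
noncomputable def torEquiv (x : R) :
    Submodule.torsionBy R M x ≃ₗ[R] Submodule.torsionBy B M (algebraMap R B x) :=
  LinearEquiv.ofEq _ _ (by
    ext m
    simp) ≪≫ₗ
    (Submodule.restrictScalarsEquiv R B M
      (Submodule.torsionBy B M (algebraMap R B x))).restrictScalars R

end Equivs

variable {R : Type u} [CommRing R] {B : Type u} [CommRing B] [Algebra R B] {ι : Type u}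
  [Fintype ι] (n : ι → Ideal B) [∀ i, (n i).IsMaximal] (hn : Function.Injective n)
  (hn' : ∀ m : Ideal B, m.IsMaximal → ∃ i, n i = m) (C : ι → Type u) [∀ i, CommRing (C i)]
  [∀ i, Algebra B (C i)] [∀ i, IsLocalization.AtPrime (C i) (n i)]

omit [Fintype ι] in
theorem length_self (i : ι) : Module.length (C i) (C i ⊗[B] (B ⧸ n i)) = 1 := by
  have := IsLocalization.AtPrime.isLocalRing (C i) (n i)
  rw [← (Algebra.TensorProduct.quotIdealMapEquivTensorQuot (C i) (n i)).toLinearEquiv.length_eq,
    IsLocalization.AtPrime.map_eq_maximalIdeal (n i) (C i), Module.length_eq_one_iff]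
  exact isSimpleModule_iff_quot_maximal.2 ⟨_, inferInstance, ⟨LinearEquiv.refl _ _⟩⟩

omit [Fintype ι] in
include hn in
theorem length_ne {i j : ι} (h : i ≠ j) : Module.length (C i) (C i ⊗[B] (B ⧸ n j)) = 0 := by
  rw [← (Algebra.TensorProduct.quotIdealMapEquivTensorQuot (C i) (n j)).toLinearEquiv.length_eq,
    Module.length_eq_zero_iff, Ideal.Quotient.subsingleton_iff]
  refine IsLocalization.AtPrime.map_eq_top_of_not_le (S := C i) (p := n i) fun hle => h ?_
  exact (hn (Ideal.IsMaximal.eq_of_le inferInstance Ideal.IsPrime.ne_top' hle)).symm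

include hn hn' in
theorem length_eq (M : Type u) [AddCommGroup M] [Module B M] (h : IsFiniteLength B M) :
    ∀ [Module R M] [IsScalarTower R B M], Module.length R M =
      ∑ i, Module.length R (B ⧸ n i) * Module.length (C i) (C i ⊗[B] M) := by
  induction h with
  | of_subsingleton =>
    intro _ _
    simp [Module.length_eq_zero]
  | @of_simple_quotient M _ _ N hs _ ih =>
    intro _ _
    obtain ⟨m, hm, ⟨e⟩⟩ := isSimpleModule_iff_quot_maximal.mp hs
    obtain ⟨j, rfl⟩ := hn' m hm
    have h1 : Module.length R M = Module.length R N + Module.length R (B ⧸ n j) := by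
      rw [← (e.restrictScalars R).length_eq]
      exact Module.length_eq_add_of_exact (N.subtype.restrictScalars R) (N.mkQ.restrictScalars R)
        N.injective_subtype N.mkQ_surjective (LinearMap.exact_subtype_mkQ N)
    have h2 : ∀ i, Module.length (C i) (C i ⊗[B] M) =
        Module.length (C i) (C i ⊗[B] N) + Module.length (C i) (C i ⊗[B] (B ⧸ n j)) := by
      intro i
      have : Module.Flat B (C i) := IsLocalization.flat (C i) (n i).primeCompl
      rw [← (e.baseChange B (C i) _ _).length_eq]
      exact Module.length_eq_add_of_exact (N.subtype.baseChange (C i)) (N.mkQ.baseChange (C i))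
        (Module.Flat.lTensor_preserves_injective_linearMap _ N.injective_subtype)
        (LinearMap.lTensor_surjective _ N.mkQ_surjective)
        (Module.Flat.lTensor_exact _ (LinearMap.exact_subtype_mkQ N))
    simp only [h2, mul_add, Finset.sum_add_distrib]
    rw [h1, ih]
    congr 1
    rw [Finset.sum_eq_single j, length_self, mul_one]
    · intro i _ hij
      rw [length_ne n hn C hij, mul_zero]
    · simp

theorem toNat_sum (a b : ι → ℕ∞) (h : ∑ i, a i * b i ≠ ⊤) :
    ((∑ i, a i * b i).toNat : ℤ) = ∑ i, ((a i).toNat : ℤ) * ((b i).toNat : ℤ) := by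
  have h1 : ∀ i, a i * b i ≠ ⊤ := fun i => ne_top_of_le_ne_top h
    (Finset.single_le_sum (f := fun i => a i * b i) (fun _ _ => zero_le) (Finset.mem_univ i))
  have h2 : ∑ i, a i * b i = ((∑ i, (a i).toNat * (b i).toNat : ℕ) : ℕ∞) := by
    push_cast
    refine Finset.sum_congr rfl fun i _ => ?_
    rw [← Nat.cast_mul, ← ENat.toNat_mul, ENat.natCast_toNat (h1 i)]
  rw [h2, ENat.toNat_natCast]
  push_cast
  rfl

include hn hn' in
theorem emult_module [IsNoetherianRing R] [Module.Finite R B] (g : List R) :
    ∀ (M : Type u) [AddCommGroup M] [Module B M] [Module R M] [IsScalarTower R B M]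
      [Module.Finite B M], MS g M →
      emult g M = ∑ i, ((Module.length R (B ⧸ n i)).toNat : ℤ) *
        emult (g.map ((algebraMap B (C i)).comp (algebraMap R B))) (C i ⊗[B] M) := by
  induction g with
  | nil =>
    intro M _ _ _ _ _ h
    have : Module.Finite R M := Module.Finite.trans B M
    have h1 := h.length_ne_top
    have h2 : IsFiniteLength B M := by
      have := Module.length_ne_top_iff.1 h1
      rw [isFiniteLength_iff_isNoetherian_isArtinian] at this ⊢
      exact this.imp (isNoetherian_of_tower R) (isArtinian_of_tower R)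
    have h3 := length_eq (R := R) n hn hn' C M h2
    simp only [List.map_nil, emult_nil]
    rw [h3] at h1 ⊢
    exact toNat_sum _ _ h1
  | cons x g ih =>
    intro M _ _ _ _ _ h
    have : IsNoetherianRing B := IsNoetherianRing.of_finite R B
    have e1 := quotEquiv (B := B) M x
    have e2 := torEquiv (B := B) M x
    simp only [List.map_cons, emult_cons]
    rw [emult_congr e1, emult_congr e2,
      ih _ (h.quot.of_surjective e1.toLinearMap e1.surjective),
      ih _ (h.torsion.of_surjective e2.toLinearMap e2.surjective), ← Finset.sum_sub_distrib]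
    refine Finset.sum_congr rfl fun i _ => ?_
    have : Module.Flat B (C i) := IsLocalization.flat (C i) (n i).primeCompl
    rw [← mul_sub, RingHom.comp_apply]
    congr 2
    · exact (emult_congr
        (QuotSMulTop.algebraMapTensorEquivTensorQuotSMulTop (algebraMap R B x) M (C i)) _).symm
    · exact (emult_congr (torsionEquiv (C i) M (algebraMap R B x)) _).symm

end A4

variable {R : Type u} [CommRing R] [IsNoetherianRing R] [IsLocalRing R]

omit [IsLocalRing R] in
theorem emult_finite' {B : Type u} [CommRing B] [Algebra R B] [Module.Finite R B] {ι : Type u}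
    [Fintype ι] (n : ι → Ideal B) [∀ i, (n i).IsMaximal] (hn : Function.Injective n)
    (hn' : ∀ m : Ideal B, m.IsMaximal → ∃ i, n i = m) (C : ι → Type u) [∀ i, CommRing (C i)]
    [∀ i, Algebra B (C i)] [∀ i, IsLocalization.AtPrime (C i) (n i)] (J : Ideal B) (g : List R)
    (h : MS g (B ⧸ J)) :
    emult g (B ⧸ J) = ∑ i, ((Module.length R (B ⧸ n i)).toNat : ℤ) *
      emult (g.map ((algebraMap B (C i)).comp (algebraMap R B)))
        (C i ⧸ J.map (algebraMap B (C i))) := by
  rw [A4.emult_module n hn hn' C g (B ⧸ J) h]
  refine Finset.sum_congr rfl fun i _ => ?_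
  rw [emult_congr (Algebra.TensorProduct.quotIdealMapEquivTensorQuot (C i) J).toLinearEquiv]

theorem emult_finite {B : Type u} [CommRing B] [Algebra R B] [Module.Finite R B] {ι : Type u}
    [Fintype ι] (n : ι → Ideal B) [∀ i, (n i).IsMaximal] (hn : Function.Injective n)
    (hn' : ∀ m : Ideal B, m.IsMaximal → ∃ i, n i = m) (C : ι → Type u) [∀ i, CommRing (C i)]
    [∀ i, Algebra B (C i)] [∀ i, IsLocalization.AtPrime (C i) (n i)] (J : Ideal B) (g : List R)
    (h : MS g (B ⧸ J)) :
    emult g (B ⧸ J) = ∑ i, ((Module.length R (B ⧸ n i)).toNat : ℤ) *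
      emult (g.map ((algebraMap B (C i)).comp (algebraMap R B)))
        (C i ⧸ J.map (algebraMap B (C i))) :=
  emult_finite' n hn hn' C J g h

end Pool.Agent.P.MP_638e8a_ag.Cyc
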