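import Mathlib

/-!
Determinants (`b = false`) and permanents (`b = true`) treated together, and kernels of finite
determinant or permanent rank.
-/

namespace Pool.Agent.P.MP_638e8a_ag

/-- The sign character (`b = false`) or the trivial character (`b = true`). -/
def sg (b : Bool) {α : Type*} [Fintype α] [DecidableEq α] (σ : Equiv.Perm α) : ℤ :=
  if b then 1 else Equiv.Perm.sign σ

/-- The determinant (`b = false`) or the permanent (`b = true`). -/
def Dm (b : Bool) {α R : Type*} [Fintype α] [DecidableEq α] [CommRing R] (M : α → α → R) : R :=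
  ∑ σ : Equiv.Perm α, sg b σ • ∏ i, M i (σ i)

/-- All `N × N` determinants, respectively permanents, of the kernel `M` vanish. -/
def Rk (b : Bool) (N : ℕ) {P Q R : Type*} [CommRing R] (M : P → Q → R) : Prop :=
  ∀ (r : Fin N → P) (c : Fin N → Q), Dm b (fun i j => M (r i) (c j)) = 0

end Pool.Agent.P.MP_638e8a_ag
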