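import Pool.Agent.P.MP_638e8a_ag.AlgRk

/-!
Task CK HAF: from the vanishing of an elementary symmetric expression to the vanishing of
permanents.
-/

namespace Pool.Agent.P.MP_638e8a_ag

open Finset

namespace HafA

variable {R : Type*} [CommRing R]

/-- weights of total mass zero kill a function that does not depend on one coordinate -/
theorem zero_mass {ι β : Type*} [Fintype ι] [DecidableEq ι] [Fintype β] (w : β → R)
    (hw : ∑ b, w b = 0) (k : ι) (F : (ι → β) → R)
    (hF : ∀ u u' : ι → β, (∀ i, i ≠ k → u i = u' i) → F u = F u') :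
    ∑ u : ι → β, (∏ i, w (u i)) * F u = 0 := by
  classical
  rw [← (Equiv.funSplitAt k β).symm.sum_comp, Fintype.sum_prod_type_right]
  refine sum_eq_zero fun u' _ => ?_
  rcases isEmpty_or_nonempty β with hb | ⟨⟨b0⟩⟩
  · simp
  have h1 : ∀ b i, i ≠ k → (Equiv.funSplitAt k β).symm (b, u') i =
      (Equiv.funSplitAt k β).symm (b0, u') i := fun b i hi => by
    simp [Equiv.funSplitAt_symm_apply, hi]
  have h2 : ∀ b, (∏ i, w ((Equiv.funSplitAt k β).symm (b, u') i)) *
      F ((Equiv.funSplitAt k β).symm (b, u')) =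
      w b * ((∏ i ∈ univ.erase k, w ((Equiv.funSplitAt k β).symm (b0, u') i)) *
        F ((Equiv.funSplitAt k β).symm (b0, u'))) := fun b => by
    rw [← mul_prod_erase univ _ (mem_univ k), hF _ _ (h1 b),
      prod_congr rfl fun i hi => congrArg w (h1 b i (ne_of_mem_erase hi)), mul_assoc]
    congr 2
    simp [Equiv.funSplitAt_symm_apply]
  rw [sum_congr rfl fun b _ => h2 b, ← sum_mul, hw, zero_mul]

/-- polarisation: the permanent is a combination of products of weighted row sums -/
theorem perm_zero {α : Type*} [Fintype α] [DecidableEq α] (M : α → α → R)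
    (h : ∀ τ : α → R, ∏ i, ∑ j, τ j * M i j = 0) :
    ∑ σ : Equiv.Perm α, ∏ i, M i (σ i) = 0 := by
  classical
  let w : Bool → R := fun b => if b then 1 else -1
  let x : Bool → R := fun b => if b then 1 else 0
  have hw : ∑ b, w b = 0 := by simp [w]
  have h0 : ∑ t : α → Bool, (∏ i, w (t i)) * ∏ i, ∑ j, x (t j) * M i j = 0 :=
    sum_eq_zero fun t _ => by rw [h, mul_zero]
  have h1 : ∀ f : α → α, ∑ t : α → Bool, (∏ i, w (t i)) * ∏ i, x (t (f i)) * M i (f i) =
      if Function.Bijective f then ∏ i, M i (f i) else 0 := by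
    intro f
    split_ifs with hf
    · have : ∀ t : α → Bool, (∏ i, w (t i)) * ∏ i, x (t (f i)) * M i (f i) =
          (∏ i, w (t i) * x (t i)) * ∏ i, M i (f i) := fun t => by
        rw [prod_mul_distrib, prod_mul_distrib, hf.prod_comp fun i => x (t i), mul_assoc]
      rw [sum_congr rfl fun t _ => this t, ← sum_mul,
        ← Fintype.prod_sum fun (_ : α) (b : Bool) => w b * x b]
      simp [w, x]
    · have hs : ¬Function.Surjective f := fun hs => hf (Finite.surjective_iff_bijective.1 hs)
      obtain ⟨k, hk⟩ := not_forall.1 hs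
      refine zero_mass w hw k _ fun u u' hu => prod_congr rfl fun i _ => ?_
      rw [hu (f i) fun e => hk ⟨i, e⟩]
  have h2 : ∀ t : α → Bool, ∏ i, ∑ j, x (t j) * M i j =
      ∑ f : α → α, ∏ i, x (t (f i)) * M i (f i) := fun t =>
    Fintype.prod_sum fun i j => x (t j) * M i j
  simp only [h2, mul_sum] at h0
  rw [sum_comm, sum_congr rfl fun f _ => h1 f, ← sum_filter] at h0
  rw [← h0]
  refine sum_bij (fun σ _ => (σ : α → α)) (fun σ _ => by simpa using σ.bijective)
    (fun σ _ τ _ e => Equiv.coe_fn_injective e) (fun f hf => ?_) fun _ _ => rfl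
  exact ⟨Equiv.ofBijective f (by simpa using hf), mem_univ _, rfl⟩

theorem nat_smul_zero [Algebra ℚ R] {n : ℕ} (hn : n ≠ 0) {x : R} (h : n • x = 0) : x = 0 := by
  have h1 : (n : ℚ) • x = 0 := by rwa [Nat.cast_smul_eq_nsmul]
  have h2 : (n : ℚ) ≠ 0 := by exact_mod_cast hn
  rw [← one_smul ℚ x, ← inv_mul_cancel₀ h2, mul_smul, h1, smul_zero]

theorem prod_zero [Algebra ℚ R] {α : Type*} [Fintype α] [DecidableEq α] (a : α → R)
    (h : ∀ τ : α → R, (∑ j, τ j * a j) ^ Fintype.card α = 0) : ∏ i, a i = 0 := by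
  have h1 := perm_zero (fun _ j => a j) fun τ => by rw [prod_const, card_univ, h]
  rw [sum_congr rfl fun σ _ => Equiv.prod_comp σ a, sum_const] at h1
  exact nat_smul_zero (card_ne_zero.2 univ_nonempty) h1

/-- the average of a product of functions of disjoint pairs of coordinates -/
theorem match_sum {ι κ β : Type*} [Fintype ι] [DecidableEq ι] [Fintype κ] [DecidableEq κ]
    [Fintype β] (w : β → R) (φ : κ ⊕ κ → ι) (hφ : Function.Bijective φ) (G : κ → β → β → R) :
    ∑ u : ι → β, (∏ i, w (u i)) * ∏ k, G k (u (φ (.inr k))) (u (φ (.inl k))) =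
      ∏ k, ∑ a, ∑ b, w a * w b * G k a b := by
  classical
  simp only [← Fintype.sum_prod_type']
  rw [Fintype.prod_sum fun k (p : β × β) => w p.1 * w p.2 * G k p.1 p.2]
  let E : (ι → β) ≃ (κ → β × β) :=
    { toFun := fun u k => (u (φ (.inr k)), u (φ (.inl k)))
      invFun := fun p i => Sum.elim (fun k => (p k).2) (fun k => (p k).1)
        ((Equiv.ofBijective φ hφ).symm i)
      left_inv := fun u => by
        funext i
        obtain ⟨j, rfl⟩ := hφ.2 i
        simp only [Equiv.ofBijective_symm_apply_apply]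
        cases j <;> rfl
      right_inv := fun p => by
        funext k
        simp only [Equiv.ofBijective_symm_apply_apply, Sum.elim_inl, Sum.elim_inr] }
  refine Fintype.sum_equiv E _ _ fun u => ?_
  rw [← hφ.prod_comp fun i => w (u i), Fintype.prod_sum_type, ← prod_mul_distrib,
    ← prod_mul_distrib]
  refine prod_congr rfl fun k _ => ?_
  rw [mul_comm (w _)]
  rfl

theorem quad_pow [Algebra ℚ R] {β : Type*} [Fintype β] (D : β → β → R) (e : β → R) (m : ℕ)
    (h : ∀ u : Fin (2 * m) → β, ∑ s ∈ Finset.powersetCard m Finset.univ,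
      ∏ i ∈ s, (e (u i) - ∑ j ∈ Finset.Iio i, D (u j) (u i)) = 0)
    (w : β → R) (hw : ∑ b, w b = 0) : (∑ a, ∑ b, w a * w b * D a b) ^ m = 0 := by
  classical
  set q := ∑ a, ∑ b, w a * w b * D a b with hq
  let G : Fin (2 * m) → Fin (2 * m) → β → β → R := fun i j a b =>
    if j < i then -D a b else if j = i then e b else 0
  have hG : ∀ (u : Fin (2 * m) → β) i, e (u i) - ∑ j ∈ Finset.Iio i, D (u j) (u i) =
      ∑ j, G i j (u j) (u i) := fun u i => by
    have : ∀ j, G i j (u j) (u i) =
        (if j = i then e (u i) else 0) - if j ∈ Finset.Iio i then D (u j) (u i) else 0 := by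
      intro j
      simp only [G, mem_Iio]
      by_cases h1 : j < i
      · simp [h1, h1.ne]
      · simp [h1]
    simp only [this, sum_sub_distrib, sum_ite_eq', mem_univ, if_true, sum_ite_mem, univ_inter]
  have hGs : ∀ i j, ∑ a, ∑ b, w a * w b * G i j a b = if j < i then -q else 0 := fun i j => by
    simp only [G]
    split_ifs
    · simp [hq]
    · rw [sum_comm]
      refine sum_eq_zero fun b _ => ?_
      simp only [mul_assoc, ← sum_mul, hw, zero_mul]
    · simp
  let good : (s : Finset (Fin (2 * m))) → (s → Fin (2 * m)) → Prop := fun s f =>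
    Function.Bijective (Sum.elim (fun k : s => (k : Fin (2 * m))) f) ∧ ∀ k, f k < k
  have h1 : ∀ s ∈ Finset.powersetCard m (univ : Finset (Fin (2 * m))), ∀ f : s → Fin (2 * m),
      ∑ u : Fin (2 * m) → β, (∏ i, w (u i)) * ∏ k : s, G k (f k) (u (f k)) (u k) =
        if good s f then (-q) ^ m else 0 := by
    intro s hs f
    have hc : s.card = m := (mem_powersetCard.1 hs).2
    by_cases hf : Function.Bijective (Sum.elim (fun k : s => (k : Fin (2 * m))) f)
    · have := match_sum w _ hf fun k => G k (f k)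
      simp only [Sum.elim_inl, Sum.elim_inr, hGs] at this
      rw [this, prod_ite_zero, prod_const, card_univ, Fintype.card_coe, hc]
      simp only [good, hf, true_and, mem_univ, forall_true_left]
    · rw [if_neg fun hg => hf hg.1]
      have hs : ¬Function.Surjective (Sum.elim (fun k : s => (k : Fin (2 * m))) f) := fun hs =>
        hf ((Fintype.bijective_iff_surjective_and_card _).2 ⟨hs, by simp [hc, two_mul]⟩)
      obtain ⟨k, hk⟩ := not_forall.1 hs
      refine zero_mass w hw k _ fun u u' hu => prod_congr rfl fun i _ => ?_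
      rw [hu (f i) fun e => hk ⟨.inr i, e⟩, hu i fun e => hk ⟨.inl i, e⟩]
  have h0 : ∑ u : Fin (2 * m) → β, (∏ i, w (u i)) * ∑ s ∈ Finset.powersetCard m Finset.univ,
      ∏ i ∈ s, (e (u i) - ∑ j ∈ Finset.Iio i, D (u j) (u i)) = 0 :=
    sum_eq_zero fun u _ => by rw [h, mul_zero]
  have h2 : ∀ (u : Fin (2 * m) → β) (s : Finset (Fin (2 * m))),
      ∏ i ∈ s, (e (u i) - ∑ j ∈ Finset.Iio i, D (u j) (u i)) =
        ∑ f : s → Fin (2 * m), ∏ k : s, G k (f k) (u (f k)) (u k) := fun u s => by
    rw [← prod_coe_sort s, ← Fintype.prod_sum fun (k : s) j => G k j (u j) (u k)]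
    exact prod_congr rfl fun k _ => hG u k
  simp only [h2, mul_sum] at h0
  rw [sum_comm, sum_congr rfl fun s hs =>
    (sum_comm.trans (sum_congr rfl fun f _ => h1 s hs f))] at h0
  rw [sum_congr rfl fun s _ => (sum_filter _ _).symm.trans (sum_const _), ← sum_smul] at h0
  have h3 : (-q) ^ m = 0 := by
    refine nat_smul_zero (fun hz => ?_) h0
    let s : Finset (Fin (2 * m)) := univ.filter fun i => m ≤ i.1
    let f : s → Fin (2 * m) := fun k => ⟨k.1.1 - m, by have := k.1.2; omega⟩
    have hk : ∀ k : s, m ≤ k.1.1 := fun k => (mem_filter.1 k.2).2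
    have hb : Function.Bijective (Sum.elim (fun k : s => (k : Fin (2 * m))) f) := by
      constructor
      · rintro (a | a) (b | b) hab
        · exact congrArg _ (Subtype.ext hab)
        · have := congrArg Fin.val hab
          have := hk a
          have := b.1.2
          simp only [Sum.elim_inl, Sum.elim_inr, f] at *
          omega
        · have := congrArg Fin.val hab
          have := hk b
          have := a.1.2
          simp only [Sum.elim_inl, Sum.elim_inr, f] at *
          omega
        · have := congrArg Fin.val hab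
          have := hk a
          have := hk b
          simp only [Sum.elim_inr, f] at *
          exact congrArg _ (Subtype.ext (Fin.ext (by omega)))
      · intro i
        by_cases hi : m ≤ i.1
        · exact ⟨.inl ⟨i, mem_filter.2 ⟨mem_univ _, hi⟩⟩, rfl⟩
        · exact ⟨.inr ⟨⟨i.1 + m, by omega⟩, mem_filter.2 ⟨mem_univ _, by simp⟩⟩,
            Fin.ext (by simp [f])⟩
    have hc : s.card = m := by
      have := Fintype.card_of_bijective hb
      simp only [Fintype.card_sum, Fintype.card_coe, Fintype.card_fin] at this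
      omega
    have h4 := (sum_eq_zero_iff.1 hz) s (mem_powersetCard.2 ⟨subset_univ _, hc⟩)
    refine card_ne_zero.2 ⟨f, mem_filter.2 ⟨mem_univ _, hb, fun k => ?_⟩⟩ h4
    have := hk k
    have := k.1.2
    show k.1.1 - m < k.1.1
    omega
  rwa [neg_pow, (isUnit_one.neg.pow m).mul_right_eq_zero] at h3

end HafA

theorem rk_of_esymm {R : Type*} [CommRing R] [Algebra ℚ R] {P : Type*} (o : P) (Δ : P → P → R)
    (hs : ∀ a b, Δ a b = Δ b a) (ho : Δ o o = 0) (e : P → R) (he : e o = 0) (m : ℕ)
    (h : ∀ u : Fin (2 * m) → P, ∑ s ∈ Finset.powersetCard m Finset.univ,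
      ∏ i ∈ s, (e (u i) - ∑ j ∈ Finset.Iio i, Δ (u j) (u i)) = 0) :
    Rk true (2 * m) fun a b => Δ a b - Δ o a - Δ o b := by
  intro r c
  simp only [Dm, sg, if_true, one_smul]
  refine HafA.perm_zero (fun i j => Δ (r i) (c j) - Δ o (r i) - Δ o (c j)) fun τ' => ?_
  refine HafA.prod_zero _ fun τ => ?_
  let v : Option (Fin (2 * m) ⊕ Fin (2 * m)) → P := fun x => x.elim o (Sum.elim r c)
  let x : Option (Fin (2 * m) ⊕ Fin (2 * m)) → R := fun a =>
    a.elim (-∑ i, τ i) (Sum.elim τ fun _ => 0)
  let y : Option (Fin (2 * m) ⊕ Fin (2 * m)) → R := fun a =>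
    a.elim (-∑ i, τ' i) (Sum.elim (fun _ => 0) τ')
  have hx : ∑ a, x a = 0 := by simp [x, Fintype.sum_option, Fintype.sum_sum_type]
  have hy : ∑ a, y a = 0 := by simp [y, Fintype.sum_option, Fintype.sum_sum_type]
  have hq := HafA.quad_pow (fun a b => Δ (v a) (v b)) (fun a => e (v a)) m
    fun u => h fun i => v (u i)
  have hq1 := hq (fun a => x a + y a) (by rw [sum_add_distrib, hx, hy, add_zero])
  have hq2 := hq (fun a => x a - y a) (by rw [sum_sub_distrib, hx, hy, sub_zero])
  have hq' : (-∑ a, ∑ b, (x a - y a) * (x b - y b) * Δ (v a) (v b)) ^ m = 0 := by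
    rw [neg_pow, hq2, mul_zero]
  have h2 := (Commute.all _ _).add_pow_eq_zero_of_add_le_succ_of_pow_eq_zero (k := 2 * m)
    hq1 hq' (by omega)
  have key : ∑ a, ∑ b, (x a + y a) * (x b + y b) * Δ (v a) (v b) +
      -∑ a, ∑ b, (x a - y a) * (x b - y b) * Δ (v a) (v b) =
      4 • ∑ i, τ i * ∑ j, τ' j * (Δ (r i) (c j) - Δ o (r i) - Δ o (c j)) := by
    have e1 : ∑ a, ∑ b, y a * x b * Δ (v a) (v b) = ∑ a, ∑ b, x a * y b * Δ (v a) (v b) := by
      rw [sum_comm]
      exact sum_congr rfl fun a _ => sum_congr rfl fun b _ => by rw [hs]; ring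
    have e2 : ∑ a, ∑ b, x a * y b * Δ (v a) (v b) =
        ∑ i, τ i * ∑ j, τ' j * (Δ (r i) (c j) - Δ o (r i) - Δ o (c j)) := by
      simp only [Fintype.sum_option, Fintype.sum_sum_type, v, x, y, Option.elim_none,
        Option.elim_some, Sum.elim_inl, Sum.elim_inr, ho, hs _ o, mul_zero, zero_mul,
        sum_const_zero, zero_add, add_zero, neg_mul, mul_neg, sum_mul, mul_sum, mul_sub,
        sum_neg_distrib, sum_add_distrib, sum_sub_distrib, mul_assoc]
      rw [sum_comm (f := fun j i => τ i * (τ' j * Δ o (c j)))]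
      ring
    have e3 : ∑ a, ∑ b, (x a + y a) * (x b + y b) * Δ (v a) (v b) +
        -∑ a, ∑ b, (x a - y a) * (x b - y b) * Δ (v a) (v b) =
        2 * ∑ a, ∑ b, y a * x b * Δ (v a) (v b) + 2 * ∑ a, ∑ b, x a * y b * Δ (v a) (v b) := by
      simp only [mul_sum, ← sum_neg_distrib, ← sum_add_distrib]
      exact sum_congr rfl fun a _ => sum_congr rfl fun b _ => by ring
    rw [e3, e1, e2, nsmul_eq_mul]
    push_cast
    ring
  rw [key, smul_pow] at h2
  rw [Fintype.card_fin]
  exact HafA.nat_smul_zero (by positivity) h2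

end Pool.Agent.P.MP_638e8a_ag
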