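import Pool.Agent.P.MP_638e8a_ag.AlgRk

/-!
Task CK HOOK: the entrywise product of two kernels of finite rank has finite rank.
-/

namespace Pool.Agent.P.MP_638e8a_ag

open Equiv

section Hook

variable {α V : Type*} [DecidableEq α] [AddCommGroup V] [Module ℚ V]
  (ρ : Perm α →* Module.End ℚ V)

/-- Every transposition of `S` acts on `v` by the scalar `ε`. -/
def Eig (ε : ℚ) (S : Finset α) (v : V) : Prop :=
  ∀ x ∈ S, ∀ y ∈ S, x ≠ y → ρ (swap x y) v = ε • v

theorem Eig.mono {ε : ℚ} {S S' : Finset α} {v : V} (h : Eig ρ ε S v) (hs : S' ⊆ S) :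
    Eig ρ ε S' v := fun x hx y hy hxy => h x (hs hx) y (hs hy) hxy

omit [DecidableEq α] in
theorem rho_mul (g h : Perm α) (v : V) : ρ (g * h) v = ρ g (ρ h v) := by
  rw [map_mul]; rfl

theorem Eig.insert {ε : ℚ} (hε : ε * ε = 1) {A : Finset α} {v : V} (h : Eig ρ ε A v) {y : α}
    (hy : y ∉ A) : Eig ρ ε (insert y A) (v + ε • ∑ x ∈ A, ρ (swap x y) v) := by
  have key : ∀ a ∈ A, ρ (swap a y) (v + ε • ∑ x ∈ A, ρ (swap x y) v) =
      ε • (v + ε • ∑ x ∈ A, ρ (swap x y) v) := by
    intro a ha
    have h1 : ∀ x ∈ A.erase a, ρ (swap a y) (ρ (swap x y) v) = ε • ρ (swap x y) v := by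
      intro x hx
      obtain ⟨hxa, hx⟩ := Finset.mem_erase.1 hx
      have hay : a ≠ y := fun e => hy (e ▸ ha)
      have e : swap a y * swap x y = swap x y * swap a x := by
        rw [mul_swap_eq_swap_mul (swap x y) a x, swap_apply_left,
          swap_apply_of_ne_of_ne hxa.symm hay]
      rw [← rho_mul, e, rho_mul, h a ha x hx hxa.symm, map_smul]
    rw [map_add, map_smul, map_sum, ← Finset.add_sum_erase A _ ha, Finset.sum_congr rfl h1,
      ← Finset.add_sum_erase A _ ha, ← rho_mul, swap_mul_self, map_one, ← Finset.smul_sum]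
    simp only [Module.End.one_apply, smul_add, smul_smul, hε, one_smul]
    abel
  intro a ha0 a' ha0' haa
  rcases Finset.mem_insert.1 ha0 with rfl | ha
  · rcases Finset.mem_insert.1 ha0' with rfl | ha'
    · exact absurd rfl haa
    · rw [swap_comm]; exact key a' ha'
  rcases Finset.mem_insert.1 ha0' with rfl | ha'
  · exact key a ha
  have hya : y ≠ a := fun e => hy (e ▸ ha)
  have hya' : y ≠ a' := fun e => hy (e ▸ ha')
  have h1 : ∀ x ∈ A, ρ (swap a a') (ρ (swap x y) v) = ε • ρ (swap (swap a a' x) y) v := by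
    intro x _
    rw [← rho_mul, mul_swap_eq_swap_mul, swap_apply_of_ne_of_ne hya hya', rho_mul,
      h a ha a' ha' haa, map_smul]
  have h2 : ∑ x ∈ A, ρ (swap (swap a a' x) y) v = ∑ x ∈ A, ρ (swap x y) v := by
    refine Finset.sum_equiv (swap a a') (fun x => ?_) (fun x _ => rfl)
    rw [swap_apply_def]
    split_ifs with e1 e2
    · simp [e1, ha, ha']
    · simp [e2, ha, ha']
    · rfl
  rw [map_add, map_smul, map_sum, Finset.sum_congr rfl h1, ← Finset.smul_sum, h2,
    h a ha a' ha' haa, smul_add]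

/-- The submodule of the vectors on which the transpositions of `S` act by `ε`. -/
def eigSub (ε : ℚ) (S : Finset α) : Submodule ℚ V where
  carrier := {v | Eig ρ ε S v}
  add_mem' := fun {v w} hv hw x hx y hy hxy => by
    rw [map_add, hv x hx y hy hxy, hw x hx y hy hxy, smul_add]
  zero_mem' := fun x _ y _ _ => by simp
  smul_mem' := fun c v hv x hx y hy hxy => by
    rw [map_smul, hv x hx y hy hxy, smul_comm]

theorem hook (p q : ℕ) : ∀ (U : Finset α) (W : Submodule ℚ V),
    (∀ x ∈ U, ∀ y ∈ U, ∀ v ∈ W, ρ (swap x y) v ∈ W) →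
    (∀ S ⊆ U, S.card = p → ∀ v ∈ W, Eig ρ 1 S v → v = 0) →
    (∀ S ⊆ U, S.card = q → ∀ v ∈ W, Eig ρ (-1) S v → v = 0) →
    (p - 1) * (q - 1) < U.card → ∀ v ∈ W, v = 0 := by
  induction q with
  | zero =>
    intro U W _ _ hq _ v hv
    exact hq ∅ (Finset.empty_subset _) rfl v hv fun x hx => absurd hx (Finset.notMem_empty _)
  | succ q ih =>
    intro U W hW hp hq hU v₀ hv₀
    rcases Nat.eq_zero_or_pos q with rfl | hq0
    · obtain ⟨u, hu⟩ : U.Nonempty := Finset.card_pos.1 (by omega)
      refine hq {u} (Finset.singleton_subset_iff.2 hu) rfl v₀ hv₀ fun x hx y hy hxy => ?_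
      rw [Finset.mem_singleton] at hx hy
      exact absurd (hx.trans hy.symm) hxy
    by_contra hne
    classical
    obtain ⟨A, hA, hmax⟩ := Finset.exists_max_image
      (U.powerset.filter fun A => ∃ v ∈ W, v ≠ 0 ∧ Eig ρ 1 A v) Finset.card
      ⟨∅, Finset.mem_filter.2 ⟨Finset.empty_mem_powerset _, v₀, hv₀, hne,
        fun x hx => absurd hx (Finset.notMem_empty _)⟩⟩
    obtain ⟨hAU, v₁, hv₁, hv₁0, hv₁A⟩ := Finset.mem_filter.1 hA
    rw [Finset.mem_powerset] at hAU
    have hAp : A.card < p := by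
      by_contra hle
      obtain ⟨S, hS, hSc⟩ := Finset.exists_subset_card_eq (not_lt.1 hle)
      exact hv₁0 (hp S (hS.trans hAU) hSc v₁ hv₁ (hv₁A.mono ρ hS))
    refine hv₁0 (ih (U \ A) (W ⊓ eigSub ρ 1 A) ?_ ?_ ?_ ?_ v₁ ⟨hv₁, hv₁A⟩)
    · intro x hx y hy v hv
      obtain ⟨hxU, hxA⟩ := Finset.mem_sdiff.1 hx
      obtain ⟨hyU, hyA⟩ := Finset.mem_sdiff.1 hy
      refine ⟨hW x hxU y hyU v hv.1, fun a ha a' ha' haa => ?_⟩
      have e : swap a a' * swap x y = swap x y * swap a a' := by
        rw [mul_swap_eq_swap_mul,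
          swap_apply_of_ne_of_ne (x := x) (fun e => hxA (e ▸ ha)) (fun e => hxA (e ▸ ha')),
          swap_apply_of_ne_of_ne (x := y) (fun e => hyA (e ▸ ha)) (fun e => hyA (e ▸ ha'))]
      rw [← rho_mul, e, rho_mul, hv.2 a ha a' ha' haa, map_smul]
    · intro S hS hSc v hv h
      exact hp S (hS.trans Finset.sdiff_subset) hSc v hv.1 h
    · intro B hB hBc v hv h
      have hBU : B ⊆ U := hB.trans Finset.sdiff_subset
      have hBA : ∀ y ∈ B, y ∉ A := fun y hy => (Finset.mem_sdiff.1 (hB hy)).2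
      have h1 : ∀ y ∈ B, v + ∑ x ∈ A, ρ (swap x y) v = 0 := by
        intro y hy
        by_contra h0
        have := hmax (insert y A) (Finset.mem_filter.2 ⟨Finset.mem_powerset.2
          (Finset.insert_subset (hBU hy) hAU), _,
          W.add_mem hv.1 (W.sum_mem fun x hx => hW x (hAU hx) y (hBU hy) v hv.1), h0, by
            simpa only [one_smul] using Eig.insert ρ (one_mul 1) hv.2 (hBA y hy)⟩)
        rw [Finset.card_insert_of_notMem (hBA y hy)] at this
        omega
      have h2 : ∀ x ∈ A, v + (-1 : ℚ) • ∑ y ∈ B, ρ (swap y x) v = 0 := by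
        intro x hx
        have hxB : x ∉ B := fun hb => hBA x hb hx
        refine hq (insert x B) (Finset.insert_subset (hAU hx) hBU)
          (by rw [Finset.card_insert_of_notMem hxB, hBc]) _
          (W.add_mem hv.1 (W.smul_mem _
            (W.sum_mem fun y hy => hW y (hBU hy) x (hAU hx) v hv.1))) ?_
        exact Eig.insert ρ (by norm_num) h hxB
      have h3 := Finset.sum_eq_zero h1
      have h4 := Finset.sum_eq_zero h2
      rw [Finset.sum_add_distrib, Finset.sum_const] at h3 h4
      rw [← Finset.smul_sum, Finset.sum_comm, neg_one_smul] at h4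
      have h5 : ((A.card + B.card : ℕ) : ℚ) • v = 0 := by
        have e : ∑ y ∈ B, ∑ x ∈ A, ρ (swap y x) v = ∑ y ∈ B, ∑ x ∈ A, ρ (swap x y) v :=
          Finset.sum_congr rfl fun y _ => Finset.sum_congr rfl fun x _ => by rw [swap_comm]
        rw [Nat.cast_smul_eq_nsmul, add_nsmul, eq_neg_of_add_eq_zero_left h3,
          eq_neg_of_add_eq_zero_left h4, neg_neg, e, add_neg_cancel]
      have h6 : ((A.card + B.card : ℕ) : ℚ) ≠ 0 := Nat.cast_ne_zero.2 (by omega)
      exact (smul_eq_zero.1 h5).resolve_left h6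
    · rw [Finset.card_sdiff_of_subset hAU]
      obtain ⟨q, rfl⟩ : ∃ q', q = q' + 1 := ⟨q - 1, by omega⟩
      simp only [Nat.add_sub_cancel] at hU ⊢
      rw [Nat.mul_succ] at hU
      omega

end Hook

section Main

variable {α : Type*} [Fintype α] [DecidableEq α] {R : Type*} [CommRing R]

theorem hk_sg_mul {β : Type*} [Fintype β] [DecidableEq β] (b : Bool) (σ τ : Perm β) :
    sg b (σ * τ) = sg b σ * sg b τ := by
  cases b <;> simp [sg]

theorem hk_sg_ext {N : ℕ} {S : Finset α} (e : Fin N ≃ {x // x ∈ S}) (b : Bool)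
    (τ : Perm (Fin N)) : sg b (τ.extendDomain e) = sg b τ := by
  cases b <;> simp [sg]

omit [Fintype α] in
theorem hk_swap_ext {N : ℕ} {S : Finset α} (e : Fin N ≃ {x // x ∈ S}) (x y : Fin N) :
    (swap x y).extendDomain e = swap (e x : α) (e y) := by
  ext a
  by_cases ha : a ∈ S
  · obtain ⟨i, rfl⟩ : ∃ i, (e i : α) = a := ⟨e.symm ⟨a, ha⟩, by simp⟩
    rw [Perm.extendDomain_apply_image]
    have hinj : Function.Injective fun i => (e i : α) :=
      Subtype.val_injective.comp e.injective
    exact (hinj.swap_apply x y i).symm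
  · rw [Perm.extendDomain_apply_not_subtype _ _ ha, swap_apply_of_ne_of_ne]
    · exact fun h => ha (h ▸ (e x).2)
    · exact fun h => ha (h ▸ (e y).2)

/-- Expansion along a subset of the indices. -/
theorem hk_sum {P Q : Type*} {b : Bool} {N : ℕ} {M : P → Q → R} (h : Rk b N M)
    {S : Finset α} (e : Fin N ≃ {x // x ∈ S}) (r : α → P) (c : α → Q) (x y : Perm α) :
    ∑ τ : Perm (Fin N), sg b τ • ∏ i, M (r i) (c ((x * τ.extendDomain e * y) i)) = 0 := by
  have h1 : ∀ τ : Perm (Fin N), ∏ i, M (r i) (c ((x * τ.extendDomain e * y) i)) =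
      (∏ k, M (r (y⁻¹ (e k))) (c (x (e (τ k))))) * ∏ i ∈ Sᶜ, M (r (y⁻¹ i)) (c (x i)) := by
    intro τ
    rw [← Equiv.prod_comp y⁻¹, ← Finset.prod_mul_prod_compl S]
    congr 1
    · rw [← Finset.prod_coe_sort, ← Equiv.prod_comp e]
      refine Finset.prod_congr rfl fun k _ => ?_
      simp [Perm.extendDomain_apply_image]
    · refine Finset.prod_congr rfl fun i hi => ?_
      simp [Perm.extendDomain_apply_not_subtype _ _ (Finset.mem_compl.1 hi)]
  simp only [h1, ← smul_mul_assoc, ← Finset.sum_mul]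
  have := h (fun k => r (y⁻¹ (e k))) (fun k => c (x (e k)))
  rw [Dm] at this
  rw [this, zero_mul]

variable [Algebra ℚ R]

/-- Right translation of functions on the symmetric group. -/
def rt : Perm α →* Module.End ℚ (Perm α → R) where
  toFun g :=
    { toFun := fun f s => f (s * g)
      map_add' := fun _ _ => rfl
      map_smul' := fun _ _ => rfl }
  map_one' := by ext f s; simp
  map_mul' g g' := by ext f s; simp [mul_assoc]

/-- The functions killed by all symmetrisers (`b = true`) or antisymmetrisers (`b = false`) of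
subsets of size `N`. -/
def kil (b : Bool) (N : ℕ) : Submodule ℚ (Perm α → R) where
  carrier := {f | ∀ (S : Finset α) (e : Fin N ≃ {x // x ∈ S}) (x y : Perm α),
    ∑ τ : Perm (Fin N), sg b τ • f (x * τ.extendDomain e * y) = 0}
  add_mem' := fun {f g} hf hg S e x y => by
    simp only [Pi.add_apply, smul_add, Finset.sum_add_distrib, hf S e x y, hg S e x y, add_zero]
  zero_mem' := fun S e x y => by simp
  smul_mem' := fun c f hf S e x y => by
    simp only [Pi.smul_apply, smul_comm (sg b _) c, ← Finset.smul_sum, hf S e x y, smul_zero]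

theorem kil_eig {b : Bool} {N : ℕ} {S : Finset α} (hS : S.card = N) {f : Perm α → R}
    (hf : f ∈ kil b N) (h : Eig rt (if b then 1 else -1) S f) : f = 0 := by
  let e : Fin N ≃ {x // x ∈ S} := (S.equivFinOfCardEq hS).symm
  have h1 : ∀ τ : Perm (Fin N), ∀ s, sg b τ • f (s * τ.extendDomain e) = f s := by
    intro τ
    induction τ using Perm.swap_induction_on with
    | one => intro s; cases b <;> simp [sg]
    | swap_mul τ x y hxy ih =>
      intro s
      have h2 := congrFun (h (e x) (e x).2 (e y) (e y).2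
        fun h => hxy (e.injective (Subtype.ext h))) s
      rw [← Perm.extendDomain_mul, ← mul_assoc, hk_sg_mul, mul_smul, ih, hk_swap_ext]
      change f (s * swap (e x : α) (e y)) = _ at h2
      rw [h2]
      cases b <;> simp [sg, hxy]
  funext s
  have h2 := hf S e s 1
  simp only [mul_one, h1, Finset.sum_const, Finset.card_univ] at h2
  rw [← Nat.cast_smul_eq_nsmul ℚ] at h2
  have h3 : ((Fintype.card (Perm (Fin N)) : ℕ) : ℚ) ≠ 0 := Nat.cast_ne_zero.2 Fintype.card_ne_zero
  exact (smul_eq_zero_iff_right h3).1 h2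

theorem kil_inf {N N' : ℕ} (hc : (N - 1) * (N' - 1) < Fintype.card α) {f : Perm α → R}
    (h : f ∈ kil true N) (h' : f ∈ kil false N') : f = 0 := by
  have st : ∀ b n (g : Perm α), ∀ v ∈ (kil b n : Submodule ℚ (Perm α → R)), rt g v ∈ kil b n :=
    fun b n g v hv S e x y => by
      have := hv S e x (y * g)
      simp only [← mul_assoc] at this
      exact this
  refine hook rt N N' Finset.univ (kil true N ⊓ kil false N') ?_ ?_ ?_ hc f ⟨h, h'⟩
  · exact fun x _ y _ v hv => ⟨st _ _ _ v hv.1, st _ _ _ v hv.2⟩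
  · exact fun S _ hS v hv he => kil_eig hS hv.1 he
  · exact fun S _ hS v hv he => kil_eig hS hv.2 he

end Main

theorem Rk.mul {R : Type*} [CommRing R] [Algebra ℚ R] {P Q : Type*} {b b' : Bool} {N N' : ℕ}
    {M M' : P → Q → R} (h : Rk b N M) (h' : Rk b' N' M') :
    Rk (xor b b') (N * N' + 1) fun p q => M p q * M' p q := by
  intro r c
  let F : Perm (Fin (N * N' + 1)) → R := fun s => sg b s • ∏ i, M (r i) (c (s i))
  let G : Perm (Fin (N * N' + 1)) → R := fun s =>
    (sg false s * sg b' s) • ∏ i, M' (r i) (c (s i))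
  have hsq : ∀ {n : ℕ} (s : Perm (Fin n)), sg false s * sg false s = 1 := fun s => by
    simp [sg, ← Units.val_mul]
  have hβ : (fun g => ∑ s, F (s * g) * G s) = 0 := by
    refine kil_inf (N := N) (N' := N') ?_ ?_ ?_
    · rw [Fintype.card_fin]
      exact Nat.lt_succ_of_le (Nat.mul_le_mul (Nat.sub_le _ _) (Nat.sub_le _ _))
    · intro S e x y
      simp only [Finset.smul_sum]
      rw [Finset.sum_comm]
      refine Finset.sum_eq_zero fun s _ => ?_
      have h1 := hk_sum h e r c (s * x) y
      have h2 : ∀ τ : Perm (Fin N), sg true τ • (F (s * (x * τ.extendDomain e * y)) * G s) =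
          (sg b (s * x) * sg b y) •
            (sg b τ • ∏ i, M (r i) (c ((s * x * τ.extendDomain e * y) i))) * G s := by
        intro τ
        have : sg true τ = 1 := rfl
        rw [this, one_smul, smul_smul]
        simp only [F, ← mul_assoc, hk_sg_mul, hk_sg_ext]
        congr 2
        ring
      simp only [h2, ← Finset.sum_mul, ← Finset.smul_sum, h1, smul_zero, zero_mul]
    · intro S e x y
      have h0 : ∀ τ : Perm (Fin N'), ∑ s, F (s * (x * τ.extendDomain e * y)) * G s =
          ∑ s, F s * G (s * y⁻¹ * τ⁻¹.extendDomain e * x⁻¹) := by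
        intro τ
        refine Fintype.sum_equiv (Equiv.mulRight (x * τ.extendDomain e * y)) _ _ fun s => ?_
        simp [mul_assoc]
      simp only [h0, Finset.smul_sum]
      rw [Finset.sum_comm]
      refine Finset.sum_eq_zero fun s _ => ?_
      have h1 := hk_sum h' e r c (s * y⁻¹) x⁻¹
      rw [← Equiv.sum_comp (Equiv.inv (Perm (Fin N')))]
      have h2 : ∀ τ : Perm (Fin N'), sg false (Equiv.inv _ τ) •
          (F s * G (s * y⁻¹ * (Equiv.inv _ τ)⁻¹.extendDomain e * x⁻¹)) =
          F s * ((sg false (s * y⁻¹) * sg false x⁻¹ * (sg b' (s * y⁻¹) * sg b' x⁻¹)) •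
            (sg b' τ • ∏ i, M' (r i) (c ((s * y⁻¹ * τ.extendDomain e * x⁻¹) i)))) := by
        intro τ
        have e1 : sg false τ⁻¹ = sg false τ := by simp [sg]
        rw [Equiv.inv_apply, inv_inv, e1, ← mul_smul_comm]
        simp only [G, smul_smul, hk_sg_mul, hk_sg_ext]
        congr 2
        linear_combination (sg false s * sg false y⁻¹ * sg false x⁻¹ *
          (sg b' s * sg b' y⁻¹ * sg b' x⁻¹) * sg b' τ) * hsq τ
      simp only [h2, ← Finset.mul_sum, ← Finset.smul_sum, h1, smul_zero, mul_zero]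
  have h1 := congrFun hβ 1
  simp only [mul_one, Pi.zero_apply] at h1
  rw [Dm, ← h1]
  refine Finset.sum_congr rfl fun s _ => ?_
  simp only [F, G, smul_mul_smul_comm, Finset.prod_mul_distrib]
  congr 1
  have h2 := hsq s
  have h3 : sg true s = 1 := rfl
  cases b <;> cases b' <;> simp only [Bool.xor_false, Bool.xor_true, Bool.not_false,
    Bool.not_true, h3, h2, mul_one, one_mul]

end Pool.Agent.P.MP_638e8a_ag
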