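import Pool.Agent.P.MP_638e8a_ag.AlgD

/-!
Task CK RK: elementary properties of `Dm` and `Rk`.
-/

namespace Pool.Agent.P.MP_638e8a_ag

variable {R R' : Type*} [CommRing R] [CommRing R'] {α : Type*} [Fintype α] [DecidableEq α]

theorem sg_one (b : Bool) : sg b (1 : Equiv.Perm α) = 1 := by
  cases b <;> simp [sg]

theorem sg_mul (b : Bool) (σ τ : Equiv.Perm α) : sg b (σ * τ) = sg b σ * sg b τ := by
  cases b <;> simp [sg]

theorem sg_inv (b : Bool) (σ : Equiv.Perm α) : sg b σ⁻¹ = sg b σ := by
  cases b <;> simp [sg]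

theorem Dm_transpose (b : Bool) (M : α → α → R) : Dm b (fun i j => M j i) = Dm b M := by
  unfold Dm
  rw [← Equiv.sum_comp (Equiv.inv (Equiv.Perm α))]
  refine Finset.sum_congr rfl fun σ _ => ?_
  rw [Equiv.inv_apply, sg_inv, ← Equiv.prod_comp σ]
  simp

theorem Dm_map (b : Bool) (ψ : R →+* R') (M : α → α → R) :
    ψ (Dm b M) = Dm b fun i j => ψ (M i j) := by
  simp only [Dm, map_sum, map_zsmul, map_prod]

/-- The product along a permutation of a matrix with one row replaced. -/
theorem prod_update_row (M : α → α → R) (i : α) (w : α → R) (σ : α → α) :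
    ∏ x, Function.update M i w x (σ x) = w (σ i) * ∏ x ∈ Finset.univ.erase i, M x (σ x) := by
  rw [← Finset.mul_prod_erase Finset.univ _ (Finset.mem_univ i), Function.update_self]
  congr 1
  refine Finset.prod_congr rfl fun x hx => ?_
  rw [Function.update_of_ne (Finset.ne_of_mem_erase hx)]

theorem Dm_update_smul (b : Bool) (M : α → α → R) (i : α) (c : R) (w : α → R) :
    Dm b (Function.update M i fun j => c * w j) = c * Dm b (Function.update M i w) := by
  simp only [Dm, prod_update_row, Finset.mul_sum, mul_smul_comm, mul_assoc]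

/-- `Dm` commutes with an `R`-linear map applied to one row. -/
theorem Dm_update_map (b : Bool) (ψ : R →+* R') (φ : R' →+ R)
    (h : ∀ a w, φ (ψ a * w) = a * φ w) (M : α → α → R) (i : α) (w : α → R') :
    φ (Dm b (Function.update (fun i j => ψ (M i j)) i w)) =
      Dm b (Function.update M i fun j => φ (w j)) := by
  simp only [Dm, prod_update_row, map_sum, map_zsmul]
  refine Finset.sum_congr rfl fun σ _ => ?_
  rw [← map_prod, mul_comm, h, mul_comm]

theorem sg_decomposeFin (b : Bool) {n : ℕ} (p : Fin (n + 1)) (e : Equiv.Perm (Fin n)) :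
    sg b (Equiv.Perm.decomposeFin.symm (p, e)) =
      (if p = 0 then 1 else if b then 1 else -1) * sg b e := by
  cases b
  · simp only [sg, Equiv.Perm.decomposeFin.symm_sign]
    split_ifs <;> simp_all
  · simp [sg]

/-- Expansion according to the cycle through the index `0`. -/
theorem Dm_succ (b : Bool) {n : ℕ} (M : Fin (n + 1) → Fin (n + 1) → R) :
    Dm b M = M 0 0 * Dm b (fun i j : Fin n => M i.succ j.succ) +
      (if b then 1 else -1 : ℤ) • ∑ i : Fin n,
        Dm b (Function.update (fun i j : Fin n => M i.succ j.succ) i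
          fun j => M i.succ 0 * M 0 j.succ) := by
  unfold Dm
  rw [← Equiv.sum_comp Equiv.Perm.decomposeFin.symm, Fintype.sum_prod_type, Fin.sum_univ_succ]
  congr 1
  · rw [Finset.mul_sum]
    refine Finset.sum_congr rfl fun e _ => ?_
    rw [sg_decomposeFin, Fin.prod_univ_succ]
    simp [Equiv.Perm.decomposeFin_symm_apply_zero, Equiv.Perm.decomposeFin_symm_apply_succ]
    ring
  · rw [Finset.sum_comm, Finset.sum_comm (s := (Finset.univ : Finset (Fin n))), Finset.smul_sum]
    refine Finset.sum_congr rfl fun e _ => ?_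
    rw [← Equiv.sum_comp e, Finset.smul_sum]
    refine Finset.sum_congr rfl fun i _ => ?_
    rw [sg_decomposeFin, if_neg (Fin.succ_ne_zero _), mul_smul, prod_update_row,
      Fin.prod_univ_succ, ← Finset.mul_prod_erase Finset.univ _ (Finset.mem_univ i)]
    simp only [Equiv.Perm.decomposeFin_symm_apply_zero, Equiv.Perm.decomposeFin_symm_apply_succ,
      Equiv.swap_apply_right]
    have : ∏ x ∈ Finset.univ.erase i, M x.succ (Equiv.swap 0 (e i).succ (e x).succ) =
        ∏ x ∈ Finset.univ.erase i, M x.succ (e x).succ := by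
      refine Finset.prod_congr rfl fun x hx => ?_
      rw [Equiv.swap_apply_of_ne_of_ne (Fin.succ_ne_zero _)]
      exact fun h => Finset.ne_of_mem_erase hx (e.injective (Fin.succ_injective _ h))
    rw [this]
    congr 2
    ring

theorem Dm_fin_zero (b : Bool) (M : Fin 0 → Fin 0 → R) : Dm b M = 1 := by
  simp [Dm, sg_one]

theorem Dm_fin_one (b : Bool) (M : Fin 1 → Fin 1 → R) : Dm b M = M 0 0 := by
  rw [Dm_succ, Dm_fin_zero]
  simp

variable {P Q : Type*}

theorem Rk.transpose {b : Bool} {N : ℕ} {M : P → Q → R} (h : Rk b N M) :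
    Rk b N fun q p => M p q := fun r c => by
  rw [← Dm_transpose]
  exact h c r

theorem Rk.comp {b : Bool} {N : ℕ} {M : P → Q → R} (h : Rk b N M) {P' Q' : Type*} (f : P' → P)
    (g : Q' → Q) : Rk b N fun p q => M (f p) (g q) :=
  fun r c => h (fun i => f (r i)) fun j => g (c j)

theorem rk_zero (b : Bool) : Rk b 1 fun (_ : P) (_ : Q) => (0 : R) :=
  fun _ _ => Dm_fin_one _ _

theorem rk_rank_one (a : P → R) (c : Q → R) : Rk false 2 fun p q => a p * c q := by
  intro r s
  rw [Dm_succ, Dm_fin_one, Fin.sum_univ_one, Dm_fin_one]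
  simp
  ring

/-- Averaging over the permutations of the rows `j a`: if all `N × N` minors of these rows vanish,
then so does the signed sum of their products weighted by a function `G` that is invariant under
these permutations. -/
theorem sum_sg_eq_zero [Algebra ℚ R] (b : Bool) {β : Type*} [Fintype β] [DecidableEq β]
    (j : β ↪ α) (F : β → α → R) (h : ∀ c : β → α, Dm b (fun a a' => F a (c a')) = 0)
    (G : Equiv.Perm α → R)
    (hG : ∀ (σ : Equiv.Perm α) (τ : Equiv.Perm β), G (σ * τ.viaFintypeEmbedding j) = G σ) :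
    ∑ σ : Equiv.Perm α, sg b σ • ((∏ a, F a (σ (j a))) * G σ) = 0 := by
  have h1 : ∀ τ : Equiv.Perm β, ∑ σ : Equiv.Perm α, sg b σ • ((∏ a, F a (σ (j a))) * G σ) =
      ∑ σ : Equiv.Perm α, sg b σ • ((sg b τ • ∏ a, F a (σ (j (τ a)))) * G σ) := by
    intro τ
    rw [← Equiv.sum_comp (Equiv.mulRight (τ.viaFintypeEmbedding j))]
    refine Finset.sum_congr rfl fun σ _ => ?_
    have hs : sg b (τ.viaFintypeEmbedding j) = sg b τ := by
      simp only [sg, Equiv.Perm.viaFintypeEmbedding_sign]
    simp only [Equiv.coe_mulRight, sg_mul, hG, hs, Equiv.Perm.mul_apply,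
      Equiv.Perm.viaFintypeEmbedding_apply_image, mul_smul, smul_mul_assoc]
  have h2 : (Fintype.card (Equiv.Perm β)) •
      ∑ σ : Equiv.Perm α, sg b σ • ((∏ a, F a (σ (j a))) * G σ) = 0 := by
    rw [← Finset.card_univ, ← Finset.sum_const, Finset.sum_congr rfl fun τ _ => h1 τ,
      Finset.sum_comm]
    refine Finset.sum_eq_zero fun σ _ => ?_
    rw [← Finset.smul_sum, ← Finset.sum_mul]
    have := h fun a => σ (j a)
    unfold Dm at this
    rw [this, zero_mul, smul_zero]
  rw [← Nat.cast_smul_eq_nsmul ℚ] at h2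
  have h3 : ((Fintype.card (Equiv.Perm β) : ℕ) : ℚ) ≠ 0 := Nat.cast_ne_zero.2 Fintype.card_ne_zero
  rw [← one_smul ℚ (∑ σ : Equiv.Perm α, _), ← inv_mul_cancel₀ h3, mul_smul, h2, smul_zero]

/-- If all minors on some set of rows vanish then `Dm` vanishes. -/
theorem Dm_eq_zero_of_rows [Algebra ℚ R] (b : Bool) {β : Type*} [Fintype β] [DecidableEq β]
    (j : β ↪ α) (F : α → α → R) (h : ∀ c : β → α, Dm b (fun a a' => F (j a) (c a')) = 0) :
    Dm b F = 0 := by
  have := sum_sg_eq_zero b j (fun a => F (j a)) h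
    (fun σ => ∏ i ∈ (Finset.univ.map j)ᶜ, F i (σ i)) (fun σ τ => by
      refine Finset.prod_congr rfl fun i hi => ?_
      rw [Equiv.Perm.mul_apply, Equiv.Perm.viaFintypeEmbedding_apply_notMem_range]
      rintro ⟨a, rfl⟩
      simp at hi)
  rw [← this]
  unfold Dm
  refine Finset.sum_congr rfl fun σ _ => ?_
  rw [← Finset.prod_mul_prod_compl (Finset.univ.map j), Finset.prod_map]

/-- Multilinearity in all rows at once. -/
theorem Dm_add (b : Bool) (M M' : α → α → R) :
    Dm b (fun i j => M i j + M' i j) = ∑ S : Finset α, Dm b (S.piecewise M M') := by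
  unfold Dm
  rw [Finset.sum_comm]
  refine Finset.sum_congr rfl fun σ _ => ?_
  rw [Fintype.prod_add, Finset.smul_sum]
  refine Finset.sum_congr rfl fun S _ => ?_
  rw [← Finset.prod_mul_prod_compl S]
  congr 2
  · exact Finset.prod_congr rfl fun i hi => by rw [Finset.piecewise_eq_of_mem _ _ _ hi]
  · exact Finset.prod_congr rfl fun i hi => by
      rw [Finset.piecewise_eq_of_notMem _ _ _ (Finset.mem_compl.1 hi)]

theorem Rk.add [Algebra ℚ R] {b : Bool} {N N' : ℕ} {M M' : P → Q → R} (h : Rk b N M)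
    (h' : Rk b N' M') : Rk b (N + N') fun p q => M p q + M' p q := by
  intro r c
  rw [Dm_add]
  refine Finset.sum_eq_zero fun S _ => ?_
  by_cases hS : N ≤ S.card
  · obtain ⟨j, hj⟩ := Function.Embedding.exists_of_card_le_finset (α := Fin N) (s := S)
      (by simpa using hS)
    refine Dm_eq_zero_of_rows b j _ fun c' => ?_
    rw [← h (fun a => r (j a)) fun a => c (c' a)]
    congr 1
    funext a a'
    rw [Finset.piecewise_eq_of_mem _ _ _ (hj ⟨a, rfl⟩)]
  · have hc : N' ≤ Sᶜ.card := by
      rw [Finset.card_compl, Fintype.card_fin]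
      omega
    obtain ⟨j, hj⟩ := Function.Embedding.exists_of_card_le_finset (α := Fin N') (s := Sᶜ)
      (by simpa using hc)
    refine Dm_eq_zero_of_rows b j _ fun c' => ?_
    rw [← h' (fun a => r (j a)) fun a => c (c' a)]
    congr 1
    funext a a'
    rw [Finset.piecewise_eq_of_notMem _ _ _ (Finset.mem_compl.1 (hj ⟨a, rfl⟩))]

end Pool.Agent.P.MP_638e8a_ag
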