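import Mathlib

/-!
Task CK STAR: two identities in commutative rings, and lifting of idempotents.
-/

namespace Pool.Agent.P.MP_638e8a_ag

theorem mul_prod_congr {R : Type*} [CommRing R] {ι : Type*} (s : Finset ι) (z : R) (f g : ι → R)
    (h : ∀ i ∈ s, z * f i = z * g i) : z * ∏ i ∈ s, f i = z * ∏ i ∈ s, g i := by
  classical
  induction s using Finset.induction_on with
  | empty => simp
  | insert a s ha ih =>
    rw [Finset.prod_insert ha, Finset.prod_insert ha, ← mul_assoc, h a (Finset.mem_insert_self _ _),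
      mul_right_comm, ih fun i hi => h i (Finset.mem_insert_of_mem hi)]
    ring

/-- An effective divisor of degree `N` does not contain one of degree `N + 1`. -/
theorem star_identity {R : Type*} [CommRing R] {P : Type*} (Δ : P → P → R)
    (hsub : ∀ a b c, Δ a b * Δ a c = Δ a b * Δ b c) (N : ℕ) (y : Fin N → P)
    (u : Fin (N + 1) → P) :
    ∏ i, (∑ a, Δ (y a) (u i) - ∑ j ∈ Finset.Iio i, Δ (u j) (u i)) = 0 := by
  induction N with
  | zero =>
    refine Finset.prod_eq_zero (Finset.mem_univ 0) ?_
    have h0 : Finset.Iio (0 : Fin (0 + 1)) = ∅ := by ext; simp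
    simp [h0]
  | succ N ih =>
    have h0 : Finset.Iio (0 : Fin (N + 1 + 1)) = ∅ := by ext; simp
    rw [Fin.prod_univ_succ, h0, Finset.sum_empty, sub_zero, Finset.sum_mul]
    refine Finset.sum_eq_zero fun a _ => ?_
    rw [mul_prod_congr _ _ _ (fun i : Fin (N + 1) => ∑ a', Δ (y (a.succAbove a')) (u i.succ) -
      ∑ j ∈ Finset.Iio i, Δ (u j.succ) (u i.succ)), ih (fun a' => y (a.succAbove a'))
      (fun i => u i.succ), mul_zero]
    intro i _
    have h1 : ∑ j ∈ Finset.Iio i.succ, Δ (u j) (u i.succ) =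
        Δ (u 0) (u i.succ) + ∑ j ∈ Finset.Iio i, Δ (u j.succ) (u i.succ) := by
      rw [← Finset.filter_gt_eq_Iio, ← Finset.filter_gt_eq_Iio, Finset.sum_filter,
        Finset.sum_filter, Fin.sum_univ_succ]
      simp
    rw [h1, Fin.sum_univ_succAbove _ a]
    linear_combination hsub (y a) (u 0) (u i.succ)

theorem one_sub_pow_kill {E : Type*} [Ring E] (x z : E) (n m : ℕ) :
    (x * z = 0 → (1 - (1 - x ^ (n + 1)) ^ m) * z = 0) ∧
      (z * x = 0 → z * (1 - (1 - x ^ (n + 1)) ^ m) = 0) := by
  constructor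
  · intro h
    have : (1 - x ^ (n + 1)) ^ m * z = z := by
      induction m with
      | zero => simp
      | succ m ih =>
        rw [pow_succ _ m, mul_assoc, sub_mul, one_mul, pow_succ x, mul_assoc, h, mul_zero,
          sub_zero, ← pow_succ x, ih]
    rw [sub_mul, this, one_mul, sub_self]
  · intro h
    have : z * (1 - x ^ (n + 1)) ^ m = z := by
      induction m with
      | zero => simp
      | succ m ih =>
        rw [pow_succ' _ m, ← mul_assoc, mul_sub, mul_one, pow_succ' x, ← mul_assoc, h, zero_mul,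
          sub_zero, ← pow_succ' x, ih]
    rw [mul_sub, this, mul_one, sub_self]

theorem sum_kill {E ι : Type*} [Ring E] (s : Finset ι) (p : ι → E)
    (h1 : ∀ i ∈ s, IsIdempotentElem (p i)) (h2 : ∀ i ∈ s, ∀ j ∈ s, i ≠ j → p i * p j = 0)
    (j : ι) (hj : j ∈ s) : (1 - ∑ i ∈ s, p i) * p j = 0 ∧ p j * (1 - ∑ i ∈ s, p i) = 0 := by
  constructor
  · rw [sub_mul, one_mul, Finset.sum_mul,
      Finset.sum_eq_single_of_mem j hj fun i hi hij => h2 i hi j hj hij, (h1 j hj).eq, sub_self]
  · rw [mul_sub, mul_one, Finset.mul_sum,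
      Finset.sum_eq_single_of_mem j hj fun i hi hij => h2 j hj i hi hij.symm, (h1 j hj).eq,
      sub_self]

/-- Lifting a complete family of orthogonal idempotents when all but one of them lift into ideals
whose elements in the kernel are nilpotent. -/
theorem exists_lift_idem {E S : Type*} [Ring E] [Ring S] (ρ : E →+* S) (D : Subring E)
    {ι : Type*} [Fintype ι] [DecidableEq ι] (e : ι → S) (he : CompleteOrthogonalIdempotents e)
    (i₀ : ι) (J : ι → Set E) (hJ : ∀ i, ∀ x ∈ J i, ∀ a c, a * x * c ∈ J i)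
    (hnil : ∀ i, ∀ x ∈ J i, ρ x = 0 → IsNilpotent x)
    (hx : ∀ i, i ≠ i₀ → ∃ x ∈ J i, x ∈ D ∧ ρ x = e i) :
    ∃ p : ι → E, CompleteOrthogonalIdempotents p ∧ ∀ i, p i ∈ D ∧ ρ (p i) = e i := by
  have key : ∀ s : Finset ι, i₀ ∉ s → ∃ p : ι → E, (∀ i ∈ s, IsIdempotentElem (p i)) ∧
      (∀ i ∈ s, ∀ j ∈ s, i ≠ j → p i * p j = 0) ∧ ∀ i ∈ s, p i ∈ D ∧ ρ (p i) = e i := by
    intro s
    induction s using Finset.induction_on with
    | empty => exact fun _ => ⟨0, by simp, by simp, by simp⟩
    | insert k s hk ih =>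
      intro h0
      obtain ⟨p, h1, h2, h3⟩ := ih fun h => h0 (Finset.mem_insert_of_mem h)
      obtain ⟨x, hxJ, hxD, hxρ⟩ := hx k fun h => h0 (h ▸ Finset.mem_insert_self _ _)
      set q : E := 1 - ∑ i ∈ s, p i with hq
      have hqD : q ∈ D := D.sub_mem D.one_mem (D.sum_mem fun i hi => (h3 i hi).1)
      have hρq : ρ q = 1 - ∑ i ∈ s, e i := by
        rw [hq, map_sub, map_one, map_sum, Finset.sum_congr rfl fun i hi => (h3 i hi).2]
      have hne : ∀ i ∈ s, i ≠ k := fun i hi h => hk (h ▸ hi)
      have hl : ρ q * e k = e k := by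
        rw [hρq, sub_mul, one_mul, Finset.sum_mul,
          Finset.sum_eq_zero fun i hi => he.ortho (hne i hi), sub_zero]
      have hr : e k * ρ q = e k := by
        rw [hρq, mul_sub, mul_one, Finset.mul_sum,
          Finset.sum_eq_zero fun i hi => he.ortho (hne i hi).symm, sub_zero]
      set y : E := q * x * q with hy
      have hρy : ρ y = e k := by rw [hy, map_mul, map_mul, hxρ, hl, hr]
      have hyD : y ∈ D := D.mul_mem (D.mul_mem hqD hxD) hqD
      obtain ⟨n, hn⟩ : IsNilpotent (y - y ^ 2) := by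
        refine hnil k _ ?_ ?_
        · have : y - y ^ 2 = q * x * (q - q * y) := by
            rw [mul_sub, ← mul_assoc (q * x), ← hy, pow_two]
          rw [this]
          exact hJ k x hxJ _ _
        · rw [map_sub, map_pow, hρy, pow_two, (he.idem k).eq, sub_self]
      have hn' : (y - y ^ 2) ^ (n + 1) = 0 := by rw [pow_succ, hn, zero_mul]
      set z : E := 1 - (1 - y ^ (n + 1)) ^ (n + 1) with hz
      have hz1 : IsIdempotentElem z := isIdempotentElem_one_sub_one_sub_pow_pow y _ hn'
      have hz2 : ∀ j ∈ s, z * p j = 0 ∧ p j * z = 0 := by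
        intro j hj
        obtain ⟨a, b⟩ := sum_kill s p h1 h2 j hj
        refine ⟨(one_sub_pow_kill y _ n _).1 ?_, (one_sub_pow_kill y _ n _).2 ?_⟩
        · rw [hy, mul_assoc, a, mul_zero]
        · rw [hy, ← mul_assoc, ← mul_assoc, b, zero_mul, zero_mul]
      have hz3 : z ∈ D ∧ ρ z = e k := by
        refine ⟨D.sub_mem D.one_mem (D.pow_mem (D.sub_mem D.one_mem (D.pow_mem hyD _)) _), ?_⟩
        simp only [hz, map_sub, map_one, map_pow, hρy, (he.idem k).pow_succ_eq,
          (he.idem k).one_sub.pow_succ_eq, sub_sub_cancel]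
      have hu : ∀ i ∈ s, Function.update p k z i = p i := fun i hi =>
        Function.update_of_ne (hne i hi) _ _
      refine ⟨Function.update p k z, fun i hi => ?_, fun i hi j hj hij => ?_, fun i hi => ?_⟩
      · rcases Finset.mem_insert.1 hi with rfl | hi
        · rwa [Function.update_self]
        · rw [hu i hi]; exact h1 i hi
      · rcases Finset.mem_insert.1 hi with hi | hi <;> rcases Finset.mem_insert.1 hj with hj | hj
        · exact absurd (hi.trans hj.symm) hij
        · rw [hi, Function.update_self, hu j hj]; exact (hz2 j hj).1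
        · rw [hj, Function.update_self, hu i hi]; exact (hz2 i hi).2
        · rw [hu i hi, hu j hj]; exact h2 i hi j hj hij
      · rcases Finset.mem_insert.1 hi with rfl | hi
        · rwa [Function.update_self]
        · rw [hu i hi]; exact h3 i hi
  obtain ⟨p, h1, h2, h3⟩ := key (Finset.univ.erase i₀) (Finset.notMem_erase _ _)
  set s := Finset.univ.erase i₀ with hs
  set q : E := 1 - ∑ i ∈ s, p i with hq
  have hm : ∀ i, i ≠ i₀ → i ∈ s := fun i hi => Finset.mem_erase.2 ⟨hi, Finset.mem_univ _⟩
  have hk := sum_kill s p h1 h2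
  have hsum : ∑ i, Function.update p i₀ q i = 1 := by
    rw [Finset.sum_update_of_mem (Finset.mem_univ _), ← Finset.erase_eq, hq, sub_add_cancel]
  refine ⟨Function.update p i₀ q, ⟨⟨fun i => ?_, fun i j hij => ?_⟩, hsum⟩, fun i => ?_⟩
  · rcases eq_or_ne i i₀ with rfl | hi
    · rw [Function.update_self, IsIdempotentElem]
      nth_rw 2 [hq]
      rw [mul_sub, mul_one, Finset.mul_sum, Finset.sum_eq_zero fun j hj => (hk j hj).1, sub_zero]
    · rw [Function.update_of_ne hi]; exact h1 i (hm i hi)
  · rcases eq_or_ne i i₀ with rfl | hi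
    · rw [Function.update_self, Function.update_of_ne hij.symm]
      exact (hk j (hm j hij.symm)).1
    · rcases eq_or_ne j i₀ with rfl | hj
      · rw [Function.update_self, Function.update_of_ne hi]
        exact (hk i (hm i hi)).2
      · rw [Function.update_of_ne hi, Function.update_of_ne hj]
        exact h2 i (hm i hi) j (hm j hj) hij
  · rcases eq_or_ne i i₀ with rfl | hi
    · rw [Function.update_self]
      refine ⟨D.sub_mem D.one_mem (D.sum_mem fun i hi => (h3 i hi).1), ?_⟩
      rw [hq, map_sub, map_one, map_sum, Finset.sum_congr rfl fun i hi => (h3 i hi).2,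
        ← he.complete, ← Finset.add_sum_erase _ _ (Finset.mem_univ i), add_sub_cancel_right]
    · rw [Function.update_of_ne hi]; exact h3 i (hm i hi)

end Pool.Agent.P.MP_638e8a_ag
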