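import Pool.Agent.P.MP_638e8a_ag.CBasic

/-!
Task CK COMP: the grading, and the ring of correspondences.
-/

open CategoryTheory AlgebraicGeometry MonoidalCategory CartesianMonoidalCategory Order

universe u v w

namespace Pool.Agent.P.MP_638e8a_ag

open Pool.Agent.P.MP_90138e_ag
open Pool.Agent.P.MP_90138e_ag.WeilCohomology (fstH sndH)

variable {k : Type u} [Field k] {S S' X X' Y Y' Z Z' : SmProj k}

namespace ChowTheory

variable (T : ChowTheory k)

/-! ### Grading -/

theorem cl_mem {z : X.X.left} {j : ℕ} (h : coheight z = j) : T.cl X z ∈ T.CH X j :=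
  Submodule.subset_span ⟨z, h, rfl⟩

theorem CH_map_mem {M : Type*} [AddCommGroup M] [Module ℚ M] (L : T.A X →ₗ[ℚ] M)
    {N : Submodule ℚ M} {j : ℕ} (h : ∀ z : X.X.left, coheight z = j → L (T.cl X z) ∈ N)
    {x : T.A X} (hx : x ∈ T.CH X j) : L x ∈ N := by
  have h1 : T.CH X j ≤ N.comap L := by
    refine Submodule.span_le.mpr ?_
    rintro _ ⟨z, hz, rfl⟩
    exact h z hz
  exact h1 hx

theorem hom_ind {P : T.A X → Prop} (h0 : P 0) (hadd : ∀ a b, P a → P b → P (a + b))
    (h : ∀ j, ∀ x ∈ T.CH X j, P x) (x : T.A X) : P x := by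
  refine T.cl_ind h0 hadd (fun q z => ?_) x
  obtain ⟨j, hj⟩ := ENat.ne_top_iff_exists.mp (X.coheight_ne_top z)
  exact h j _ (Submodule.smul_mem _ q (T.cl_mem hj.symm))

theorem one_mem (X : SmProj k) : (1 : T.A X) ∈ T.CH X 0 := by
  rw [← T.cl_gen X]
  exact T.cl_mem ((X.coheight_eq_zero_iff _).mpr rfl)

theorem mul_mem {i j : ℕ} {x y : T.A X} (hx : x ∈ T.CH X i) (hy : y ∈ T.CH X j) :
    x * y ∈ T.CH X (i + j) := by
  refine T.CH_map_mem (LinearMap.mulRight ℚ y) (fun z hz => ?_) hx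
  refine T.CH_map_mem (LinearMap.mulLeft ℚ (T.cl X z)) (fun z' hz' => ?_) hy
  have h := T.mul_codim z z'
  rw [hz, hz', ← Nat.cast_add] at h
  exact h

theorem pull_mem (f : X.X ⟶ Y.X) {j : ℕ} {y : T.A Y} (hy : y ∈ T.CH Y j) :
    T.pull f y ∈ T.CH X j := by
  refine T.CH_map_mem (T.pull f).toLinearMap (fun z hz => ?_) hy
  have h := T.pull_codim f z
  rw [hz] at h
  exact h

theorem push_mem (f : X.X ⟶ Y.X) {i j : ℕ} (h : j + X.dim = i + Y.dim) {x : T.A X}
    (hx : x ∈ T.CH X i) : T.push f x ∈ T.CH Y j := by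
  refine T.CH_map_mem (T.push f) (fun z hz => ?_) hx
  refine Submodule.span_mono (Set.image_mono fun t ht => ?_) (T.push_codim f z)
  obtain ⟨n, hn⟩ := ENat.ne_top_iff_exists.mp (Y.coheight_ne_top t)
  simp only [Set.mem_ofPred_eq] at ht ⊢
  rw [hz, ← hn] at ht
  rw [← hn]
  norm_cast at ht ⊢
  omega

theorem push_eq_zero (f : X.X ⟶ Y.X) {i : ℕ} (h : i + Y.dim < X.dim) {x : T.A X}
    (hx : x ∈ T.CH X i) : T.push f x = 0 := by
  refine (Submodule.mem_bot ℚ).mp (T.CH_map_mem (T.push f) (fun z hz => ?_) hx)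
  refine Submodule.span_le.mpr ?_ (T.push_codim f z)
  rintro _ ⟨t, ht, rfl⟩
  obtain ⟨n, hn⟩ := ENat.ne_top_iff_exists.mp (Y.coheight_ne_top t)
  simp only [Set.mem_ofPred_eq] at ht
  rw [hz, ← hn] at ht
  norm_cast at ht
  omega

theorem clD_mem (N : X.Div) : T.clD X N ∈ T.CH X 1 := by
  unfold clD
  rw [Finsupp.linearCombination_apply]
  refine Submodule.sum_mem _ fun t _ => ?_
  exact zsmul_mem (T.cl_mem t.2) _

theorem diag_mem (X : SmProj k) : T.diag X ∈ T.CH (X.prod X) X.dim :=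
  T.push_mem _ (by show X.dim + X.dim = 0 + (X.dim + X.dim); omega) (T.one_mem X)

theorem comp_mem {i j n : ℕ} (h : n + Y.dim = i + j) {β : T.A (Y.prod Z)} {α : T.A (X.prod Y)}
    (hβ : β ∈ T.CH _ j) (hα : α ∈ T.CH _ i) : T.comp β α ∈ T.CH _ n := by
  rw [comp_eq]
  refine T.push_mem _ ?_ (T.mul_mem (T.pull_mem _ hα) (T.pull_mem _ hβ))
  show n + (X.dim + Z.dim + Y.dim) = i + j + (X.dim + Z.dim)
  omega

/-- The composite of two homogeneous correspondences is homogeneous. -/
theorem comp_mem' {i j : ℕ} {β : T.A (Y.prod Z)} {α : T.A (X.prod Y)}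
    (hβ : β ∈ T.CH _ j) (hα : α ∈ T.CH _ i) : ∃ n, T.comp β α ∈ T.CH _ n := by
  by_cases h : Y.dim ≤ i + j
  · exact ⟨i + j - Y.dim, T.comp_mem (by omega) hβ hα⟩
  · refine ⟨0, ?_⟩
    have h1 : T.comp β α = 0 := by
      rw [comp_eq]
      refine T.push_eq_zero _ ?_ (T.mul_mem (T.pull_mem _ hα) (T.pull_mem _ hβ))
      show i + j + (X.dim + Z.dim) < X.dim + Z.dim + Y.dim
      omega
    rw [h1]
    exact Submodule.zero_mem _

theorem boxc_mem {i j : ℕ} {x : T.A (X.prod Y)} {x' : T.A (X'.prod Y')} (hx : x ∈ T.CH _ i)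
    (hx' : x' ∈ T.CH _ j) : T.boxc x x' ∈ T.CH _ (i + j) :=
  T.mul_mem (T.pull_mem _ hx) (T.pull_mem _ hx')

/-- A class of positive codimension pulls back to zero along a constant morphism. -/
theorem pull_const {j : ℕ} (hj : j ≠ 0) {x : T.A X} (hx : x ∈ T.CH X j)
    (s : (SmProj.pt k).X ⟶ X.X) : T.pull (toPt S ≫ s) x = 0 := by
  have h : T.pull s x = 0 := by
    refine (Submodule.mem_bot ℚ).mp (Submodule.span_le.mpr ?_ (T.pull_mem s hx))
    rintro _ ⟨t, ht, rfl⟩
    have h1 : coheight t = 0 := ((SmProj.pt k).coheight_eq_zero_iff t).mpr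
      (SmProj.pt_subsingleton.elim _ _)
    simp only [Set.mem_ofPred_eq] at ht
    rw [h1] at ht
    exact absurd (by exact_mod_cast ht.symm) hj
  rw [T.pull_comp, h, map_zero]

theorem int_one (hY : Y.dim ≠ 0) : T.int S Y 1 = 0 := by
  refine T.push_eq_zero _ ?_ (T.one_mem _)
  show 0 + S.dim < S.dim + Y.dim
  omega

theorem eq_zero_of_dim_lt [IsAlgClosed k] {K : Type v} [Field K] [CharZero K]
    (W : WeilCohomology.{u, v, w} k K) {j : ℕ} (hj : X.dim < j) {x : T.A X}
    (hx : x ∈ T.CH X j) : x = 0 := by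
  refine (Submodule.mem_bot ℚ).mp (Submodule.span_le.mpr ?_ hx)
  rintro _ ⟨t, ht, rfl⟩
  have h1 := W.coheight_le_dim X t
  simp only [Set.mem_ofPred_eq] at ht
  rw [ht] at h1
  norm_cast at h1
  omega

/-! ### Composition -/

theorem ev_comp (β : T.A (Y.prod Z)) (α : T.A (X.prod Y)) (a : S.X ⟶ X.X) (c : S.X ⟶ Z.X) :
    T.ev (T.comp β α) a c =
      T.int S Y (T.ev α (fstH S Y ≫ a) (sndH S Y) * T.ev β (sndH S Y) (fstH S Y ≫ c)) := by
  show T.pull (pair a c) (T.comp β α) = _
  rw [comp_eq, pull_int, map_mul, pull_ev, pull_ev]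
  simp only [pair_fst_assoc, pair_snd, Category.assoc, pair_fst]

theorem comp_assoc (γ : T.A (Z.prod Z')) (β : T.A (Y.prod Z)) (α : T.A (X.prod Y)) :
    T.comp (T.comp γ β) α = T.comp γ (T.comp β α) := by
  rw [T.comp_eq (T.comp γ β), T.comp_eq γ (T.comp β α), ev_comp, ev_comp, ← int_pull_mul,
    mul_comm (T.int _ _ _), ← int_pull_mul, fubini]
  simp only [map_mul, pull_ev, pair_fst_assoc, pair_snd, Category.assoc]
  congr 2
  ring

theorem comp_diag (β : T.A (X.prod Y)) : T.comp β (T.diag X) = β := by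
  rw [comp_eq]
  refine (T.int_dl_mul (fstH X Y) _).trans ?_
  rw [pull_ev, pair_snd, pair_fst_assoc, Category.id_comp, ev_fst_snd]

theorem diag_comp (α : T.A (X.prod Y)) : T.comp (T.diag Y) α = α := by
  rw [comp_eq, mul_comm]
  have h : T.ev (T.diag Y) (sndH (X.prod Y) Y) (fstH _ _ ≫ sndH X Y) =
      T.dl (fstH _ _ ≫ sndH X Y) (sndH (X.prod Y) Y) := T.dl_symm _ _
  rw [h, int_dl_mul, pull_ev, pair_snd, pair_fst_assoc, Category.id_comp, ev_fst_snd]

theorem comp_add (β : T.A (Y.prod Z)) (α α' : T.A (X.prod Y)) :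
    T.comp β (α + α') = T.comp β α + T.comp β α' := by
  simp only [comp_eq, ev, map_add, add_mul]

theorem add_comp (β β' : T.A (Y.prod Z)) (α : T.A (X.prod Y)) :
    T.comp (β + β') α = T.comp β α + T.comp β' α := by
  simp only [comp_eq, ev, map_add, mul_add]

theorem comp_zero (β : T.A (Y.prod Z)) : T.comp β (0 : T.A (X.prod Y)) = 0 := by
  simp only [comp_eq, ev, map_zero, zero_mul]

theorem zero_comp (α : T.A (X.prod Y)) : T.comp (0 : T.A (Y.prod Z)) α = 0 := by
  simp only [comp_eq, ev, map_zero, mul_zero]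

theorem tp_comp (β : T.A (Y.prod Z)) (α : T.A (X.prod Y)) :
    T.tp (T.comp β α) = T.comp (T.tp α) (T.tp β) := by
  rw [T.comp_eq (T.tp α), ev_tp, ev_tp, mul_comm]
  exact T.ev_comp β α _ _

theorem tp_tp (x : T.A (X.prod Y)) : T.tp (T.tp x) = x := by
  rw [tp, ev_tp, ev_fst_snd]

/-- The ring of correspondences from `X` to itself. -/
def End (X : SmProj k) : Type u := T.A (X.prod X)

noncomputable instance (X : SmProj k) : Ring (T.End X) :=
  { (inferInstance : AddCommGroup (T.A (X.prod X))) with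
    mul := fun a b => T.comp a b
    one := T.diag X
    mul_assoc := T.comp_assoc
    one_mul := T.diag_comp
    mul_one := T.comp_diag
    left_distrib := T.comp_add
    right_distrib := T.add_comp
    zero_mul := T.zero_comp
    mul_zero := T.comp_zero }

/-- The underlying class of an element of the ring of correspondences. -/
def End.val {T : ChowTheory k} (x : T.End X) : T.A (X.prod X) := x

/-- A class as an element of the ring of correspondences. -/
def End.mk {T : ChowTheory k} (x : T.A (X.prod X)) : T.End X := x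

theorem End.val_mul {T : ChowTheory k} (x y : T.End X) : (x * y).val = T.comp x.val y.val := rfl

theorem End.val_one : (1 : T.End X).val = T.diag X := rfl

theorem End.val_add {T : ChowTheory k} (x y : T.End X) : (x + y).val = x.val + y.val := rfl

theorem End.val_zero : (0 : T.End X).val = 0 := rfl

theorem End.val_neg {T : ChowTheory k} (x : T.End X) : (-x).val = -x.val := rfl

end ChowTheory

end Pool.Agent.P.MP_638e8a_ag
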