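import Pool.Agent.P.MP_638e8a_ag.Defs
import Pool.Agent.P.MP_638e8a_ag.AlgD
import Pool.Agent.P.MP_90138e_ag.WTrans
import Pool.Agent.P.MP_90138e_ag.Prod

/-!
Working definitions: typed projections, evaluation of kernels on points with values in a variety.
-/

open CategoryTheory AlgebraicGeometry MonoidalCategory CartesianMonoidalCategory Order

universe u v w

namespace Pool.Agent.P.MP_638e8a_ag

open Pool.Agent.P.MP_90138e_ag
open Pool.Agent.P.MP_90138e_ag.WeilCohomology (fstH sndH)

variable {k : Type u} [Field k] {S S' X X' Y Y' Z : SmProj k}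

/-- The morphism into a product with given components. -/
noncomputable def pair (f : S.X ⟶ X.X) (g : S.X ⟶ Y.X) : S.X ⟶ (X.prod Y).X := lift f g

/-- The structure morphism. -/
noncomputable def toPt (X : SmProj k) : X.X ⟶ (SmProj.pt k).X := toUnit X.X

@[reassoc (attr := simp)]
theorem pair_fst (f : S.X ⟶ X.X) (g : S.X ⟶ Y.X) : pair f g ≫ fstH X Y = f := lift_fst _ _

@[reassoc (attr := simp)]
theorem pair_snd (f : S.X ⟶ X.X) (g : S.X ⟶ Y.X) : pair f g ≫ sndH X Y = g := lift_snd _ _

@[reassoc]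
theorem comp_pair (h : S'.X ⟶ S.X) (f : S.X ⟶ X.X) (g : S.X ⟶ Y.X) :
    h ≫ pair f g = pair (h ≫ f) (h ≫ g) := comp_lift _ _ _

theorem prod_ext {f g : S.X ⟶ (X.prod Y).X} (h₁ : f ≫ fstH X Y = g ≫ fstH X Y)
    (h₂ : f ≫ sndH X Y = g ≫ sndH X Y) : f = g := CartesianMonoidalCategory.hom_ext _ _ h₁ h₂

@[simp]
theorem pair_fst_snd : pair (fstH X Y) (sndH X Y) = 𝟙 _ := lift_fst_snd

theorem toPt_ext (f g : S.X ⟶ (SmProj.pt k).X) : f = g := toUnit_unique f g

/-- `p` is the projection from a product onto a factor, up to isomorphism. -/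
def IsProj (p : S.X ⟶ X.X) : Prop :=
  ∃ (Y : SmProj k) (e : S.X ≅ (X.prod Y).X), e.hom ≫ fstH X Y = p

/-- `z` is the generic point of its fibre. -/
def Top (p : S.X ⟶ X.X) (z : S.X.left) : Prop := ∀ t, p.left t = p.left z → t ≤ z

namespace ChowTheory

variable (T : ChowTheory k)

theorem cl_surjective (X : SmProj k) :
    Function.Surjective (Finsupp.linearCombination ℚ (T.cl X)) := T.productAxioms.cl_surjective X

theorem cl_ker (X : SmProj k) :
    LinearMap.ker (Finsupp.linearCombination ℚ (T.cl X)) = ratEq X := T.productAxioms.cl_ker X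

theorem cl_gen (X : SmProj k) : T.cl X X.gen = 1 := T.productAxioms.cl_generic X

theorem mul_codim (z z' : X.X.left) : T.cl X z * T.cl X z' ∈
    Submodule.span ℚ (T.cl X '' {t | coheight t = coheight z + coheight z'}) :=
  T.productAxioms.mul_codim X z z'

theorem mul_divisor (D z : X.X.left) (hD : coheight D = 1) (hz : ¬ z ≤ D) :
    ∃ m : X.X.left →₀ ℕ, (∀ t ∈ m.support, t ≤ D ∧ t ≤ z ∧ coheight t = coheight z + 1) ∧
      T.cl X D * T.cl X z = m.sum fun t n => n • T.cl X t :=
  T.productAxioms.mul_divisor X D z hD hz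

@[simp]
theorem pull_id (x : T.A X) : T.pull (𝟙 X.X) x = x := T.pullAxioms.pull_id X x

theorem pull_comp (f : X.X ⟶ Y.X) (g : Y.X ⟶ Z.X) (x : T.A Z) :
    T.pull (f ≫ g) x = T.pull f (T.pull g x) := T.pullAxioms.pull_comp f g x

theorem pull_codim (f : X.X ⟶ Y.X) (z : Y.X.left) : T.pull f (T.cl Y z) ∈
    Submodule.span ℚ (T.cl X '' {t | coheight t = coheight z}) := T.pullAxioms.pull_codim f z

theorem pull_fst {z : (X.prod Y).X.left} (hz : Top (fstH X Y) z) :
    T.pull (fstH X Y) (T.cl X ((fstH X Y).left z)) = T.cl (X.prod Y) z :=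
  T.pullAxioms.pull_fst X Y z hz

theorem push_cl (f : X.X ⟶ Y.X) (z : X.X.left) :
    T.push f (T.cl X z) = f.left.residueDegree z • T.cl Y (f.left z) := T.pushAxioms.push_cl f z

theorem push_codim (f : X.X ⟶ Y.X) (z : X.X.left) : T.push f (T.cl X z) ∈
    Submodule.span ℚ (T.cl Y '' {t | coheight t + X.dim = coheight z + Y.dim}) :=
  T.pushAxioms.push_codim f z

theorem projection (f : X.X ⟶ Y.X) (x : T.A X) (y : T.A Y) :
    T.push f (x * T.pull f y) = T.push f x * y := T.pushAxioms.projection f x y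

theorem base_change (f : X'.X ⟶ X.X) (Y : SmProj k) (x : T.A X') :
    T.pull (fstH X Y) (T.push f x) =
      T.push (pair (fstH X' Y ≫ f) (sndH X' Y)) (T.pull (fstH X' Y) x) := by
  have e : pair (fstH X' Y ≫ f) (sndH X' Y) = f ▷ Y.X :=
    prod_ext (by rw [pair_fst]; exact (whiskerRight_fst _ _).symm)
      (by rw [pair_snd]; exact (whiskerRight_snd _ _).symm)
  rw [e]
  exact T.pushAxioms.base_change f Y x

/-- The value of the kernel `x` at a pair of points with values in `S`. -/
noncomputable def ev (x : T.A (X.prod Y)) (a : S.X ⟶ X.X) (b : S.X ⟶ Y.X) : T.A S :=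
  T.pull (pair a b) x

/-- Integration over the second factor. -/
noncomputable def int (S Y : SmProj k) : T.A (S.prod Y) →ₗ[ℚ] T.A S := T.push (fstH S Y)

/-- The locus where two points agree. -/
noncomputable def dl (a b : S.X ⟶ X.X) : T.A S := T.ev (T.diag X) a b

/-- The degree, as an element of the Chow ring of the point. -/
noncomputable def tr (X : SmProj k) : T.A X →ₗ[ℚ] T.A (SmProj.pt k) := T.push (toPt X)

/-- The trace of a correspondence. -/
noncomputable def trc (x : T.A (X.prod X)) : T.A (SmProj.pt k) := T.tr X (T.ev x (𝟙 _) (𝟙 _))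

/-- The transpose of a correspondence. -/
noncomputable def tp (x : T.A (X.prod Y)) : T.A (Y.prod X) := T.ev x (sndH Y X) (fstH Y X)

/-- The exterior product of two correspondences. -/
noncomputable def boxc (x : T.A (X.prod Y)) (x' : T.A (X'.prod Y')) :
    T.A ((X.prod X').prod (Y.prod Y')) :=
  T.ev x (fstH _ _ ≫ fstH X X') (sndH _ _ ≫ fstH Y Y') *
    T.ev x' (fstH _ _ ≫ sndH X X') (sndH _ _ ≫ sndH Y Y')

/-- The class of a divisor. -/
noncomputable def clD (X : SmProj k) : X.Div →ₗ[ℤ] T.A X :=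
  Finsupp.linearCombination ℤ fun t : X.Pr => T.cl X t.1

/-- Evenly (`b = false`) or oddly (`b = true`) finite-dimensional correspondences. -/
def FinRk (b : Bool) (x : T.A (X.prod Y)) : Prop :=
  ∃ N, ∀ S : SmProj k, Rk b N fun (a : S.X ⟶ X.X) (c : S.X ⟶ Y.X) => T.ev x a c

theorem diag_eq (X : SmProj k) : T.diag X = T.push (pair (𝟙 X.X) (𝟙 X.X)) 1 := rfl

theorem comp_eq (β : T.A (Y.prod Z)) (α : T.A (X.prod Y)) :
    T.comp β α = T.int (X.prod Z) Y (T.ev α (fstH _ _ ≫ fstH X Z) (sndH _ _) *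
      T.ev β (sndH _ _) (fstH _ _ ≫ sndH X Z)) := rfl

end ChowTheory

variable [IsAlgClosed k] {K : Type v} [Field K] [CharZero K] {T : ChowTheory k}
  {W : WeilCohomology.{u, v, w} k K}

/-- The action of a correspondence on cohomology. -/
noncomputable def CycleMap.op (R : CycleMap T W) (x : T.A (X.prod Y)) : W.H X →ₗ[K] W.H Y :=
  W.push (sndH X Y) ∘ₗ LinearMap.mulRight K (R.γ _ x) ∘ₗ (W.p1 X Y).toLinearMap

end Pool.Agent.P.MP_638e8a_ag
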