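import Pool.Agent.P.MP_638e8a_ag.CComp
import Pool.Agent.P.MP_638e8a_ag.AlgHook

/-!
Task CK FIN: finite-dimensional correspondences form a tensor ideal; the nilpotence theorem.
-/

open CategoryTheory AlgebraicGeometry MonoidalCategory CartesianMonoidalCategory Order

universe u v w

namespace Pool.Agent.P.MP_638e8a_ag

open Pool.Agent.P.MP_90138e_ag
open Pool.Agent.P.MP_90138e_ag.WeilCohomology (fstH sndH)

variable {k : Type u} [Field k] {S X X' Y Y' Z : SmProj k}

namespace ChowTheory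

variable {T : ChowTheory k} {b b' : Bool}

namespace FinA

theorem ev_zero (a : S.X ⟶ X.X) (c : S.X ⟶ Y.X) : T.ev (0 : T.A (X.prod Y)) a c = 0 :=
  map_zero (T.pull (pair a c))

theorem ev_add (x y : T.A (X.prod Y)) (a : S.X ⟶ X.X) (c : S.X ⟶ Y.X) :
    T.ev (x + y) a c = T.ev x a c + T.ev y a c := map_add (T.pull (pair a c)) x y

theorem ev_rank_one (x : T.A X) (y : T.A Y) (a : S.X ⟶ X.X) (c : S.X ⟶ Y.X) :
    T.ev (T.pull (fstH X Y) x * T.pull (sndH X Y) y) a c = T.pull a x * T.pull c y := by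
  unfold ev
  rw [map_mul, ← T.pull_comp, ← T.pull_comp, pair_fst, pair_snd]

/-- Integration commutes with a determinant all of whose rows but one are pulled back. -/
theorem int_update {N : ℕ} (M : Fin N → Fin N → T.A S) (i : Fin N)
    (w : Fin N → T.A (S.prod Y)) :
    T.int S Y (Dm b (Function.update (fun i j => T.pull (fstH S Y) (M i j)) i w)) =
      Dm b (Function.update M i fun j => T.int S Y (w j)) :=
  Dm_update_map b (T.pull (fstH S Y)).toRingHom (T.int S Y).toAddMonoidHom
    (fun a w => T.int_pull_mul a w) M i w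

theorem rows {N : ℕ} {β : T.A (Y.prod Z)}
    (h : ∀ S : SmProj k, Rk b N fun (a : S.X ⟶ Y.X) (c : S.X ⟶ Z.X) => T.ev β a c)
    (s : Finset (Fin N)) :
    ∀ (S : SmProj k) (c : Fin N → (S.X ⟶ Z.X)) (M : Fin N → Fin N → T.A S),
      (∀ i ∈ s, ∃ (α : T.A (X.prod Y)) (a : S.X ⟶ X.X), ∀ j,
        M i j = T.ev (T.comp β α) a (c j)) →
      (∀ i ∉ s, ∃ y : S.X ⟶ Y.X, ∀ j, M i j = T.ev β y (c j)) → Dm b M = 0 := by
  induction s using Finset.induction_on with
  | empty =>
    intro S c M _ h2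
    choose y hy using fun i => h2 i (Finset.notMem_empty i)
    have e : M = fun i j => T.ev β (y i) (c j) := by
      funext i j
      exact hy i j
    rw [e]
    exact h S y c
  | insert i₀ s hi ih =>
    intro S c M h1 h2
    obtain ⟨α, a, ha⟩ := h1 i₀ (Finset.mem_insert_self _ _)
    have e : M = Function.update M i₀ fun j => T.int S Y
        (T.ev α (fstH S Y ≫ a) (sndH S Y) * T.ev β (sndH S Y) (fstH S Y ≫ c j)) := by
      funext i j
      by_cases hii : i = i₀
      · subst hii
        rw [Function.update_self, ha, T.ev_comp]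
      · rw [Function.update_of_ne hii]
    rw [e, ← int_update, Dm_update_smul,
      ih (S.prod Y) (fun j => fstH S Y ≫ c j) _ ?_ ?_, mul_zero, map_zero]
    · intro i his
      have hii : i ≠ i₀ := fun e => hi (e ▸ his)
      obtain ⟨α', a', ha'⟩ := h1 i (Finset.mem_insert_of_mem his)
      refine ⟨α', fstH S Y ≫ a', fun j => ?_⟩
      rw [Function.update_of_ne hii, ha', T.pull_ev]
    · intro i his
      by_cases hii : i = i₀
      · subst hii
        exact ⟨sndH S Y, fun j => by rw [Function.update_self]⟩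
      · obtain ⟨y, hy⟩ := h2 i (by
          rw [Finset.mem_insert, not_or]
          exact ⟨hii, his⟩)
        refine ⟨fstH S Y ≫ y, fun j => ?_⟩
        rw [Function.update_of_ne hii, hy, T.pull_ev]

theorem rows_univ {N : ℕ} {β : T.A (Y.prod Z)}
    (h : ∀ S : SmProj k, Rk b N fun (a : S.X ⟶ Y.X) (c : S.X ⟶ Z.X) => T.ev β a c)
    (α : Fin N → T.A (X.prod Y)) (a : Fin N → (S.X ⟶ X.X)) (c : Fin N → (S.X ⟶ Z.X)) :
    Dm b (fun i j => T.ev (T.comp β (α i)) (a i) (c j)) = 0 :=
  rows h Finset.univ S c _ (fun i _ => ⟨α i, a i, fun _ => rfl⟩)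
    fun i hi => absurd (Finset.mem_univ i) hi

/-- Contraction of the first row with the first column. -/
theorem contract {n : ℕ} (g : Fin (n + 1) → T.A (X.prod X)) (a c : Fin n → (S.X ⟶ X.X)) :
    T.int S X (Dm b fun i j => T.ev (g i)
      ((Fin.cons (sndH S X) fun i => fstH S X ≫ a i : Fin (n + 1) → ((S.prod X).X ⟶ X.X)) i)
      ((Fin.cons (sndH S X) fun i => fstH S X ≫ c i : Fin (n + 1) → ((S.prod X).X ⟶ X.X)) j)) =
    Dm b (fun i j => T.ev (g i.succ) (a i) (c j)) * T.pull (toPt S) (T.trc (g 0)) +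
      (if b then 1 else -1 : ℤ) • ∑ i : Fin n,
        Dm b (Function.update (fun i j : Fin n => T.ev (g i.succ) (a i) (c j)) i
          fun j => T.ev (T.comp (g 0) (g i.succ)) (a i) (c j)) := by
  rw [Dm_succ, map_add, map_zsmul, map_sum]
  simp only [Fin.cons_zero, Fin.cons_succ]
  have e : (fun i j : Fin n => T.ev (g i.succ) (fstH S X ≫ a i) (fstH S X ≫ c j)) =
      fun i j => T.pull (fstH S X) (T.ev (g i.succ) (a i) (c j)) := by
    funext i j
    rw [T.pull_ev]
  rw [e]
  congr 1
  · have e1 : T.ev (g 0) (sndH S X) (sndH S X) =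
        T.pull (sndH S X) (T.ev (g 0) (𝟙 _) (𝟙 _)) := by
      rw [T.pull_ev, Category.comp_id]
    have e2 := Dm_map b (T.pull (fstH S X)).toRingHom fun i j : Fin n =>
      T.ev (g i.succ) (a i) (c j)
    change T.pull (fstH S X) _ = Dm b fun i j => T.pull (fstH S X) _ at e2
    rw [← e2, e1, mul_comm, T.int_pull_mul, T.int_pull_snd]
    rfl
  · congr 1
    refine Finset.sum_congr rfl fun i _ => ?_
    rw [int_update]
    congr 2
    funext j
    rw [T.ev_comp]

/-- The invariant of the nilpotence argument. -/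
def Inv (b : Bool) (x : T.End X) (N n : ℕ) : Prop :=
  ∃ (ι : Type) (_ : Fintype ι) (_ : Nonempty ι) (m : ι → Fin n → ℕ),
    (∀ t, ∑ i, (m t i + 1) = N) ∧ ∀ (S : SmProj k) (a c : Fin n → (S.X ⟶ X.X)),
      ∑ t, Dm b (fun i j => T.ev (x ^ (m t i + 1)).val (a i) (c j)) = 0

theorem inv_step (x : T.End X) (htr : ∀ n : ℕ, T.trc (x ^ (n + 1)).val = 0) {N n : ℕ}
    (h : Inv b x N (n + 2)) : Inv b x N (n + 1) := by
  obtain ⟨ι, _, _, m, hm, h⟩ := h
  refine ⟨ι × Fin (n + 1), inferInstance, inferInstance,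
    fun p => Function.update (fun i => m p.1 i.succ) p.2 (m p.1 0 + m p.1 p.2.succ + 1), ?_, ?_⟩
  · rintro ⟨t, i⟩
    rw [← hm t, Fin.sum_univ_succ (fun i => m t i + 1),
      ← Finset.add_sum_erase _ _ (Finset.mem_univ i),
      ← Finset.add_sum_erase _ (fun i : Fin (n + 1) => m t i.succ + 1) (Finset.mem_univ i)]
    have e : ∑ j ∈ Finset.univ.erase i,
        (Function.update (fun i => m t i.succ) i (m t 0 + m t i.succ + 1) j + 1) =
        ∑ j ∈ Finset.univ.erase i, (m t j.succ + 1) :=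
      Finset.sum_congr rfl fun j hj => by
        rw [Function.update_of_ne (Finset.ne_of_mem_erase hj)]
    dsimp only
    rw [e, Function.update_self]
    ring
  · intro S a c
    have h1 := congrArg (T.int S X) (h (S.prod X)
      (Fin.cons (sndH S X) fun i => fstH S X ≫ a i) (Fin.cons (sndH S X) fun i => fstH S X ≫ c i))
    rw [map_sum, map_zero] at h1
    have h2 : ∀ t, T.int S X (Dm b fun i j => T.ev (x ^ (m t i + 1)).val
        ((Fin.cons (sndH S X) fun i => fstH S X ≫ a i :
          Fin (n + 2) → ((S.prod X).X ⟶ X.X)) i)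
        ((Fin.cons (sndH S X) fun i => fstH S X ≫ c i :
          Fin (n + 2) → ((S.prod X).X ⟶ X.X)) j)) =
        (if b then 1 else -1 : ℤ) • ∑ i : Fin (n + 1), Dm b fun i' j =>
          T.ev (x ^ (Function.update (fun i => m t i.succ) i
            (m t 0 + m t i.succ + 1) i' + 1)).val (a i') (c j) := by
      intro t
      rw [contract (fun i => (x ^ (m t i + 1)).val) a c, htr, map_zero, mul_zero, zero_add]
      congr 1
      refine Finset.sum_congr rfl fun i _ => ?_
      congr 1
      funext i' j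
      by_cases hii : i' = i
      · subst hii
        rw [Function.update_self, Function.update_self, ← End.val_mul, ← pow_add]
        congr 3
        ring
      · rw [Function.update_of_ne hii, Function.update_of_ne hii]
    rw [Finset.sum_congr rfl fun t _ => h2 t, ← Finset.smul_sum] at h1
    rw [Fintype.sum_prod_type]
    cases b
    · simpa using h1
    · simpa using h1

theorem inv_one (x : T.End X) (htr : ∀ n : ℕ, T.trc (x ^ (n + 1)).val = 0) {N : ℕ} (n : ℕ)
    (h : Inv b x N (n + 1)) : Inv b x N 1 := by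
  induction n with
  | zero => exact h
  | succ n ih => exact ih (inv_step x htr h)

end FinA

open FinA

theorem FinRk.zero : T.FinRk b (0 : T.A (X.prod Y)) := by
  refine ⟨1, fun S => ?_⟩
  simp only [ev_zero]
  exact rk_zero b

theorem FinRk.add {x y : T.A (X.prod Y)} (hx : T.FinRk b x) (hy : T.FinRk b y) :
    T.FinRk b (x + y) := by
  obtain ⟨N, hx⟩ := hx
  obtain ⟨N', hy⟩ := hy
  refine ⟨N + N', fun S => ?_⟩
  simp only [ev_add]
  exact (hx S).add (hy S)

theorem FinRk.tp {x : T.A (X.prod Y)} (hx : T.FinRk b x) : T.FinRk b (T.tp x) := by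
  obtain ⟨N, hx⟩ := hx
  refine ⟨N, fun S => ?_⟩
  simp only [T.ev_tp]
  exact (hx S).transpose

theorem FinRk.comp_right {β : T.A (Y.prod Z)} (h : T.FinRk b β) (α : T.A (X.prod Y)) :
    T.FinRk b (T.comp β α) := by
  obtain ⟨N, h⟩ := h
  exact ⟨N, fun S a c => rows_univ h (fun _ => α) a c⟩

theorem FinRk.comp_left {α : T.A (X.prod Y)} (h : T.FinRk b α) (β : T.A (Y.prod Z)) :
    T.FinRk b (T.comp β α) := by
  have h1 := (h.tp.comp_right (T.tp β)).tp
  rwa [← T.tp_comp, T.tp_tp] at h1

theorem FinRk.boxc {x : T.A (X.prod Y)} {x' : T.A (X'.prod Y')} (h : T.FinRk b x)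
    (h' : T.FinRk b' x') : T.FinRk (xor b b') (T.boxc x x') := by
  obtain ⟨N, h⟩ := h
  obtain ⟨N', h'⟩ := h'
  refine ⟨N * N' + 1, fun S => ?_⟩
  simp only [T.ev_boxc]
  exact Rk.mul
    ((h S).comp (fun a : S.X ⟶ (X.prod X').X => a ≫ fstH X X')
      fun c : S.X ⟶ (Y.prod Y').X => c ≫ fstH Y Y')
    ((h' S).comp (fun a : S.X ⟶ (X.prod X').X => a ≫ sndH X X')
      fun c : S.X ⟶ (Y.prod Y').X => c ≫ sndH Y Y')

theorem finRk_rank_one (a : T.A X) (c : T.A Y) :
    T.FinRk false (T.pull (fstH X Y) a * T.pull (sndH X Y) c) := by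
  refine ⟨2, fun S => ?_⟩
  simp only [ev_rank_one]
  exact rk_rank_one (fun f : S.X ⟶ X.X => T.pull f a) fun g : S.X ⟶ Y.X => T.pull g c

/-- The nilpotence theorem. -/
theorem FinRk.isNilpotent (x : T.End X) (h : T.FinRk b x.val)
    (htr : ∀ n : ℕ, T.trc (x ^ (n + 1)).val = 0) : IsNilpotent x := by
  obtain ⟨N, h⟩ := h
  cases N with
  | zero =>
    have h1 := h (X.prod X) Fin.elim0 Fin.elim0
    rw [Dm_fin_zero] at h1
    refine ⟨1, ?_⟩
    rw [pow_one]
    change x.val = (0 : T.A (X.prod X))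
    rw [← mul_one x.val, h1, mul_zero]
  | succ N =>
    have h0 : Inv b x (N + 1) (N + 1) := by
      refine ⟨Unit, inferInstance, inferInstance, fun _ _ => 0, by simp, fun S a c => ?_⟩
      simp only [zero_add, pow_one, Finset.univ_unique, Finset.sum_singleton]
      exact h S a c
    obtain ⟨ι, _, _, m, hm, h1⟩ := inv_one x htr N h0
    have h2 := h1 (X.prod X) (fun _ => fstH X X) fun _ => sndH X X
    have h3 : ∀ t, m t 0 + 1 = N + 1 := fun t => by simpa using hm t
    simp only [Dm_fin_one, h3, T.ev_fst_snd, Finset.sum_const, Finset.card_univ] at h2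
    refine ⟨N + 1, ?_⟩
    change (x ^ (N + 1)).val = (0 : T.A (X.prod X))
    have h4 : (Fintype.card ι : ℚ) ≠ 0 := by exact_mod_cast Fintype.card_ne_zero
    rw [← Nat.cast_smul_eq_nsmul ℚ] at h2
    have h5 := congrArg (fun y => (Fintype.card ι : ℚ)⁻¹ • y) h2
    simpa [smul_smul, inv_mul_cancel₀ h4] using h5

end ChowTheory

end Pool.Agent.P.MP_638e8a_ag
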