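import Pool.Agent.P.MP_638e8a_ag.CComp

/-!
Task CK REAL: the action of correspondences on cohomology.
-/

open CategoryTheory AlgebraicGeometry MonoidalCategory CartesianMonoidalCategory Order

universe u v w

namespace Pool.Agent.P.MP_638e8a_ag

open Pool.Agent.P.MP_90138e_ag
open Pool.Agent.P.MP_90138e_ag.WeilCohomology (fstH sndH)

variable {k : Type u} [Field k] [IsAlgClosed k] {K : Type v} [Field K] [CharZero K]
  {T : ChowTheory k} {W : WeilCohomology.{u, v, w} k K} {S X X' Y Y' Z : SmProj k}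

namespace CycleMap

variable (R : CycleMap T W)

theorem γ_smul (q : ℚ) (x : T.A X) : R.γ X (q • x) = (q : K) • R.γ X x :=
  map_ratCast_smul (R.γ X) ℚ K q x

theorem γ_push (f : X.X ⟶ Y.X) (x : T.A X) : R.γ Y (T.push f x) = W.push f (R.γ X x) := by
  induction x using T.cl_ind with
  | h0 => simp only [map_zero]
  | hadd a b ha hb => simp only [map_add, ha, hb]
  | h q z =>
    rw [map_smul, γ_smul, γ_smul, map_smul, T.push_cl, map_nsmul, R.γ_cl, R.γ_cl, W.push_cl',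
      Nat.cast_smul_eq_nsmul]

theorem γ_mem {j : ℕ} {x : T.A X} (hx : x ∈ T.CH X j) : R.γ X x ∈ W.deg X (2 * j) := by
  induction hx using Submodule.span_induction with
  | mem y hy =>
    obtain ⟨z, hz, rfl⟩ := hy
    have hz' : coheight z = j := hz
    rw [R.γ_cl]
    simpa [hz'] using W.cl_deg X z
  | zero => rw [map_zero]; exact zero_mem _
  | add a b _ _ ha hb => rw [map_add]; exact add_mem ha hb
  | smul q a _ ha => rw [γ_smul]; exact Submodule.smul_mem _ _ ha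

theorem isAlg_γ (x : T.A X) : W.IsAlg (R.γ X x) := by
  induction x using T.cl_ind with
  | h0 => rw [map_zero]; exact WeilCohomology.IsAlg.zero
  | hadd a b ha hb => rw [map_add]; exact ha.add hb
  | h q z => rw [γ_smul, R.γ_cl]; exact (WeilCohomology.IsAlg.cl z).smul q

theorem exists_γ {c : W.H X} (hc : W.IsAlg c) : ∃ x, R.γ X x = c := by
  induction hc using AddSubgroup.closure_induction with
  | mem y hy =>
    obtain ⟨q, t, rfl⟩ := hy
    exact ⟨q • T.cl X t, by rw [γ_smul, R.γ_cl]⟩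
  | zero => exact ⟨0, map_zero _⟩
  | add a b _ _ ha hb =>
    obtain ⟨x, rfl⟩ := ha
    obtain ⟨y, rfl⟩ := hb
    exact ⟨x + y, map_add _ _ _⟩
  | neg a _ ha =>
    obtain ⟨x, rfl⟩ := ha
    exact ⟨-x, map_neg _ _⟩

theorem γ_pt_eq_zero {x : T.A (SmProj.pt k)} (h : R.γ _ x = 0) : x = 0 := by
  obtain ⟨q, rfl⟩ := T.pt_eq x
  rw [Algebra.algebraMap_eq_smul_one, γ_smul, map_one] at h
  have h1 := congrArg (W.tr (SmProj.pt k)) h
  rw [map_smul, W.tr_pt_one, map_zero, smul_eq_mul, mul_one, Rat.cast_eq_zero] at h1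
  rw [h1, map_zero]

include R in
theorem nontrivial (X : SmProj k) : Nontrivial (T.A X) := by
  obtain ⟨z, hz, -⟩ := X.exists_closed_le X.gen
  have : Nontrivial (W.H X) := ⟨W.cl X z, 0, fun h => by
    have h1 := W.tr_cl X z hz
    rw [h, map_zero] at h1
    exact zero_ne_one h1⟩
  exact (R.γ X).domain_nontrivial

theorem induces_op (x : T.A (X.prod Y)) : W.Induces (R.γ _ x) (R.op x) :=
  WeilCohomology.induces_iff.2 rfl

theorem op_eq_of_induces {x : T.A (X.prod Y)} {P : W.H X →ₗ[K] W.H Y}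
    (h : W.Induces (R.γ _ x) P) : R.op x = P := (WeilCohomology.induces_iff.1 h).symm

theorem op_congr {x y : T.A (X.prod Y)} (h : R.γ _ x = R.γ _ y) : R.op x = R.op y := by
  rw [op, op, h]

theorem γ_eq_of_op {x y : T.A (X.prod Y)} (h : R.op x = R.op y) : R.γ _ x = R.γ _ y :=
  (R.induces_op x).unique (h ▸ R.induces_op y)

theorem op_apply (x : T.A (X.prod Y)) (a : W.H X) :
    R.op x a = W.push (sndH X Y) (W.pull (fstH X Y) a * R.γ _ x) := rfl

theorem op_zero : R.op (0 : T.A (X.prod Y)) = 0 := by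
  ext a
  rw [op_apply, map_zero, mul_zero, map_zero, LinearMap.zero_apply]

theorem op_add (x y : T.A (X.prod Y)) : R.op (x + y) = R.op x + R.op y := by
  ext a
  rw [LinearMap.add_apply, op_apply, op_apply, op_apply, map_add, mul_add, map_add]

theorem op_sub (x y : T.A (X.prod Y)) : R.op (x - y) = R.op x - R.op y := by
  ext a
  rw [LinearMap.sub_apply, op_apply, op_apply, op_apply, map_sub, mul_sub, map_sub]

theorem op_diag (X : SmProj k) : R.op (T.diag X) = LinearMap.id := by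
  refine R.op_eq_of_induces ?_
  rw [T.diag_eq, γ_push, map_one]
  exact WeilCohomology.delta_induces

include R in
theorem push_pull_iso {S' : SmProj k} (e : S.X ⟶ S'.X) (e' : S'.X ⟶ S.X) (h : e ≫ e' = 𝟙 _)
    (h' : e' ≫ e = 𝟙 _) (w : W.H S') : W.push e (W.pull e w) = w := by
  have h1 : W.push e 1 = 1 := by
    rw [← map_one (R.γ S), ← γ_push, T.push_eq_pull e e' h h', map_one, map_one]
  rw [← one_mul (W.pull e w), W.push_mul_pull, h1, one_mul]

omit [IsAlgClosed k] in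
theorem lwH_eq (Z : SmProj k) (f : X.X ⟶ Y.X) :
    WeilCohomology.lwH Z f = pair (fstH Z X) (sndH Z X ≫ f) :=
  prod_ext (by rw [pair_fst]; exact whiskerLeft_fst _ _)
    (by rw [pair_snd]; exact whiskerLeft_snd _ _)

omit [IsAlgClosed k] in
theorem rwH_eq (f : X.X ⟶ Y.X) (Z : SmProj k) :
    WeilCohomology.rwH f Z = pair (fstH X Z ≫ f) (sndH X Z) :=
  prod_ext (by rw [pair_fst]; exact whiskerRight_fst _ _)
    (by rw [pair_snd]; exact whiskerRight_snd _ _)

theorem op_comp (β : T.A (Y.prod Z)) (α : T.A (X.prod Y)) :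
    R.op (T.comp β α) = R.op β ∘ₗ R.op α := by
  refine R.op_eq_of_induces ?_
  have h := (R.induces_op α).box_id (R.op β)
  rw [WeilCohomology.box_id_eq (R.induces_op β), lwH_eq, lwH_eq] at h
  let e : ((X.prod Z).prod Y).X ⟶ (X.prod (Y.prod Z)).X :=
    pair (fstH _ _ ≫ fstH X Z) (pair (sndH _ _) (fstH _ _ ≫ sndH X Z))
  let e' : (X.prod (Y.prod Z)).X ⟶ ((X.prod Z).prod Y).X :=
    pair (pair (fstH _ _) (sndH _ _ ≫ sndH Y Z)) (sndH _ _ ≫ fstH Y Z)
  have h1 : e ≫ e' = 𝟙 _ := by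
    refine prod_ext (prod_ext ?_ ?_) ?_ <;> simp [e, e']
  have h2 : e' ≫ e = 𝟙 _ := by
    refine prod_ext ?_ (prod_ext ?_ ?_) <;> simp [e, e']
  have h3 : fstH (X.prod Z) Y = e ≫ pair (fstH X (Y.prod Z)) (sndH X (Y.prod Z) ≫ sndH Y Z) := by
    refine prod_ext ?_ ?_ <;> simp [e]
  have h4 : pair (fstH (X.prod Z) Y ≫ fstH X Z) (sndH (X.prod Z) Y) =
      e ≫ pair (fstH X (Y.prod Z)) (sndH X (Y.prod Z) ≫ fstH Y Z) := by
    refine prod_ext ?_ ?_ <;> simp [e]
  have h5 : pair (sndH (X.prod Z) Y) (fstH (X.prod Z) Y ≫ sndH X Z) =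
      e ≫ sndH X (Y.prod Z) := by
    simp [e]
  have h6 : R.γ _ (T.comp β α) = W.push (pair (fstH X (Y.prod Z)) (sndH X (Y.prod Z) ≫ sndH Y Z))
      (W.pull (pair (fstH X (Y.prod Z)) (sndH X (Y.prod Z) ≫ fstH Y Z)) (R.γ _ α) *
        W.pull (sndH X (Y.prod Z)) (R.γ _ β)) := by
    rw [T.comp_eq, ChowTheory.int, γ_push, map_mul, ChowTheory.ev, ChowTheory.ev, R.γ_pull,
      R.γ_pull, h4, h5, W.pull_comp, W.pull_comp, ← map_mul]
    conv_lhs => rw [h3]
    rw [W.push_comp, LinearMap.comp_apply, R.push_pull_iso e e' h1 h2]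
  rw [h6]
  exact h

theorem op_boxc (x : T.A (X.prod Y)) (x' : T.A (X'.prod Y')) :
    R.op (T.boxc x x') = W.box (R.op x) (R.op x') := by
  refine W.kun_ext fun a a' => ?_
  let e : ((X.prod X').prod (Y.prod Y')).X ⟶ ((X.prod Y).prod (X'.prod Y')).X :=
    pair (pair (fstH _ _ ≫ fstH X X') (sndH _ _ ≫ fstH Y Y'))
      (pair (fstH _ _ ≫ sndH X X') (sndH _ _ ≫ sndH Y Y'))
  let e' : ((X.prod Y).prod (X'.prod Y')).X ⟶ ((X.prod X').prod (Y.prod Y')).X :=
    pair (pair (fstH _ _ ≫ fstH X Y) (sndH _ _ ≫ fstH X' Y'))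
      (pair (fstH _ _ ≫ sndH X Y) (sndH _ _ ≫ sndH X' Y'))
  have h1 : e ≫ e' = 𝟙 _ := by
    refine prod_ext (prod_ext ?_ ?_) (prod_ext ?_ ?_) <;> simp [e, e']
  have h2 : e' ≫ e = 𝟙 _ := by
    refine prod_ext (prod_ext ?_ ?_) (prod_ext ?_ ?_) <;> simp [e, e']
  have h3 : sndH (X.prod X') (Y.prod Y') = e ≫ WeilCohomology.lwH (X.prod Y) (sndH X' Y') ≫
      WeilCohomology.rwH (sndH X Y) Y' := by
    rw [lwH_eq, rwH_eq]
    refine prod_ext ?_ ?_ <;> simp [e]
  have h4 : W.pull (fstH (X.prod X') (Y.prod Y')) (W.p1 X X' a * W.p2 X X' a') *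
      R.γ _ (T.boxc x x') = W.pull e (W.p1 _ _ (W.pull (fstH X Y) a * R.γ _ x) *
        W.p2 _ _ (W.pull (fstH X' Y') a' * R.γ _ x')) := by
    rw [ChowTheory.boxc, map_mul (R.γ _), map_mul, mul_assoc,
      ← mul_assoc (W.pull _ (W.p2 X X' a')),
      ← (R.isAlg_γ _).comm (W.pull _ (W.p2 X X' a'))]
    simp only [ChowTheory.ev, R.γ_pull, WeilCohomology.p1_eq, WeilCohomology.p2_eq, map_mul,
      ← W.pull_comp, e, pair_fst, pair_snd, pair_fst_assoc, pair_snd_assoc, mul_assoc]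
  rw [op_apply, h4]
  conv_lhs => rw [h3]
  rw [W.push_comp, W.push_comp, LinearMap.comp_apply, LinearMap.comp_apply,
    R.push_pull_iso e e' h1 h2, ← WeilCohomology.box_id_push, ← WeilCohomology.box_push_id,
    W.box_apply, W.box_apply, W.box_apply]
  rfl

theorem op_rank_one (a : T.A X) (c : T.A Y) (x : W.H X) :
    R.op (T.pull (fstH X Y) a * T.pull (sndH X Y) c) x = W.tr X (x * R.γ X a) • R.γ Y c := by
  rw [op_apply, map_mul (R.γ _), R.γ_pull, R.γ_pull, ← mul_assoc, ← map_mul]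
  exact WeilCohomology.push_snd_p1_p2 _ _

theorem algOp_op (x : T.A (X.prod Y)) : W.AlgOp (R.op x) :=
  ⟨_, R.isAlg_γ x, R.induces_op x⟩

theorem exists_op {P : W.H X →ₗ[K] W.H Y} (hP : W.AlgOp P) : ∃ x, R.op x = P := by
  obtain ⟨c, hc, h⟩ := hP
  obtain ⟨x, rfl⟩ := R.exists_γ hc
  exact ⟨x, R.op_eq_of_induces h⟩

theorem trc_eq_zero {x : T.A (X.prod X)} (h : R.op x = 0) : T.trc x = 0 := by
  have h1 : R.γ _ x = R.γ _ 0 := R.γ_eq_of_op (h.trans R.op_zero.symm)
  refine R.γ_pt_eq_zero ?_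
  rw [ChowTheory.trc, ChowTheory.tr, γ_push, ChowTheory.ev, R.γ_pull, h1, map_zero, map_zero,
    map_zero]

/-- The action on cohomology as a ring homomorphism. -/
noncomputable def ρ (X : SmProj k) : T.End X →+* Module.End K (W.H X) where
  toFun x := R.op x.val
  map_one' := R.op_diag X
  map_mul' x y := R.op_comp x.val y.val
  map_zero' := R.op_zero
  map_add' x y := R.op_add x.val y.val

theorem ρ_apply (x : T.End X) : R.ρ X x = R.op x.val := rfl

end CycleMap

end Pool.Agent.P.MP_638e8a_ag
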