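import Pool.Agent.P.MP_638e8a_ag.ChBase

/-!
Task CHOW A0: basic properties of the multiplicity symbol.
-/

open IsLocalRing

universe u

namespace Pool.Agent.P.MP_638e8a_ag.Cyc

variable {R : Type u} [CommRing R] {M N P : Type u} [AddCommGroup M] [Module R M]
  [AddCommGroup N] [Module R N] [AddCommGroup P] [Module R P]

theorem emult_nil : emult ([] : List R) M = (Module.length R M).toNat := rfl

theorem emult_cons (x : R) (g : List R) : emult (x :: g) M =
    emult g (QuotSMulTop x M) - emult g (Submodule.torsionBy R M x) := rfl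

open scoped Pointwise in
theorem emult_semi {S : Type u} [CommRing S] (φ : R →+* S) (hφ : Function.Surjective φ)
    (g : List R) : ∀ (M N : Type u) [AddCommGroup M] [Module R M] [AddCommGroup N] [Module S N]
      (f : M →ₛₗ[φ] N), Function.Bijective f → emult (g.map φ) N = emult g M := by
  have : RingHomSurjective φ := ⟨hφ⟩
  induction g with
  | nil =>
    intro M N _ _ _ _ f hf
    rw [List.map_nil, emult_nil, emult_nil]
    congr 2
    rw [Module.length, Module.length, WithBot.unbot_inj,
      Order.krullDim_eq_of_orderIso (Submodule.orderIsoMapComapOfBijective f hf)]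
  | cons x g ih =>
    intro M N _ _ _ _ f hf
    have h1 : x • (⊤ : Submodule R M) ≤ (φ x • (⊤ : Submodule S N)).comap f := by
      intro m hm
      obtain ⟨b, -, rfl⟩ := (Submodule.mem_smul_pointwise_iff_exists _ _ _).1 hm
      exact (Submodule.mem_smul_pointwise_iff_exists _ _ _).2
        ⟨f b, Submodule.mem_top, (map_smulₛₗ f x b).symm⟩
    have h2 : ∀ m : Submodule.torsionBy R M x,
        f.domRestrict _ m ∈ Submodule.torsionBy S N (φ x) := by
      intro m
      rw [Submodule.mem_torsionBy_iff, LinearMap.domRestrict_apply, ← map_smulₛₗ,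
        (Submodule.mem_torsionBy_iff _ _).1 m.2, map_zero]
    rw [List.map_cons, emult_cons, emult_cons,
      ih (QuotSMulTop x M) (QuotSMulTop (φ x) N) (Submodule.mapQ _ _ f h1) ⟨?_, ?_⟩,
      ih (Submodule.torsionBy R M x) (Submodule.torsionBy S N (φ x))
        ((f.domRestrict _).codRestrict _ h2) ⟨?_, ?_⟩]
    · intro a b hab
      exact Subtype.ext (hf.1 (congrArg Subtype.val hab))
    · rintro ⟨n, hn⟩
      obtain ⟨m, rfl⟩ := hf.2 n
      refine ⟨⟨m, (Submodule.mem_torsionBy_iff _ _).2 (hf.1 ?_)⟩, rfl⟩
      rw [map_smulₛₗ, map_zero]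
      exact (Submodule.mem_torsionBy_iff _ _).1 hn
    · rw [injective_iff_map_eq_zero]
      intro a ha
      obtain ⟨m, rfl⟩ := Submodule.Quotient.mk_surjective _ a
      rw [Submodule.mapQ_apply, Submodule.Quotient.mk_eq_zero] at ha
      obtain ⟨n, -, hn⟩ := (Submodule.mem_smul_pointwise_iff_exists _ _ _).1 ha
      obtain ⟨b, rfl⟩ := hf.2 n
      rw [← map_smulₛₗ] at hn
      exact (Submodule.Quotient.mk_eq_zero _).2
        ((Submodule.mem_smul_pointwise_iff_exists _ _ _).2 ⟨b, Submodule.mem_top, hf.1 hn⟩)
    · intro a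
      obtain ⟨n, rfl⟩ := Submodule.Quotient.mk_surjective _ a
      obtain ⟨m, rfl⟩ := hf.2 n
      exact ⟨Submodule.Quotient.mk m, rfl⟩

theorem emult_congr (e : M ≃ₗ[R] N) (g : List R) : emult g M = emult g N := by
  have h := emult_semi (RingHom.id R) Function.surjective_id g M N e.toLinearMap e.bijective
  simpa using h.symm

theorem emult_of_subsingleton [Subsingleton M] (g : List R) : emult g M = 0 := by
  induction g generalizing M with
  | nil => simp [emult_nil]
  | cons x g ih => rw [emult_cons, ih, ih, sub_zero]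

theorem emult_eq_zero_of_isUnit {g : List R} {x : R} (hx : x ∈ g) (h : IsUnit x) :
    emult g M = 0 := by
  induction g generalizing M with
  | nil => simp at hx
  | cons y g ih =>
    rw [emult_cons]
    rcases List.mem_cons.1 hx with rfl | hx
    · obtain ⟨v, rfl⟩ := h
      have h1 : Subsingleton (QuotSMulTop (v : R) M) := by
        rw [Submodule.Quotient.subsingleton_iff, eq_top_iff]
        intro m _
        exact (Submodule.mem_smul_pointwise_iff_exists _ _ _).2
          ⟨(↑v⁻¹ : R) • m, Submodule.mem_top, by rw [smul_smul, v.mul_inv, one_smul]⟩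
      have h2 : Subsingleton (Submodule.torsionBy R M (v : R)) := by
        refine subsingleton_of_forall_eq 0 fun m => Subtype.ext ?_
        have h3 : (v : R) • (m : M) = 0 := (Submodule.mem_torsionBy_iff _ _).1 m.2
        have h4 := congrArg (fun z => (↑v⁻¹ : R) • z) h3
        simp only [smul_smul, Units.inv_mul, one_smul, smul_zero] at h4
        exact h4
      rw [emult_of_subsingleton, emult_of_subsingleton, sub_zero]
    · rw [ih hx, ih hx, sub_zero]

open scoped Pointwise in
theorem emult_eq_zero_of_smul_eq_zero {g : List R} {x : R} (hx : x ∈ g) (h : ∀ m : M, x • m = 0) :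
    emult g M = 0 := by
  induction g generalizing M with
  | nil => simp at hx
  | cons y g ih =>
    rw [emult_cons]
    rcases List.mem_cons.1 hx with rfl | hx
    · have h1 : x • (⊤ : Submodule R M) = ⊥ := by
        rw [eq_bot_iff]
        intro m hm
        obtain ⟨b, -, rfl⟩ := (Submodule.mem_smul_pointwise_iff_exists _ _ _).1 hm
        exact h b
      have h2 : Submodule.torsionBy R M x = ⊤ := by
        rw [eq_top_iff]
        intro m _
        exact (Submodule.mem_torsionBy_iff _ _).2 (h m)
      rw [emult_congr (Submodule.quotEquivOfEqBot _ h1), emult_congr (LinearEquiv.ofTop _ h2),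
        sub_self]
    · rw [ih hx, ih hx, sub_zero]
      · intro m
        exact Subtype.ext (h m)
      · intro m
        obtain ⟨b, rfl⟩ := Submodule.Quotient.mk_surjective _ m
        rw [← Submodule.Quotient.mk_smul, h b, Submodule.Quotient.mk_zero]

theorem emult_map_of_surjective {S : Type u} [CommRing S] [Algebra R S]
    (h : Function.Surjective (algebraMap R S)) [Module S M] [IsScalarTower R S M] (g : List R) :
    emult (g.map (algebraMap R S)) M = emult g M := by
  exact emult_semi (algebraMap R S) h g M M ⟨AddHom.id M, by simp⟩ Function.bijective_id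

theorem emult_quot_of_surjective {S : Type u} [CommRing S] (φ : R →+* S)
    (h : Function.Surjective φ) (I : Ideal S) (g : List R) :
    emult (g.map φ) (S ⧸ I) = emult g (R ⧸ I.comap φ) := by
  refine emult_semi φ h g _ _ ⟨(Ideal.quotientMap I φ le_rfl).toAddMonoidHom.toAddHom, ?_⟩
    ⟨Ideal.quotientMap_injective, Ideal.quotientMap_surjective (H := le_rfl) h⟩
  intro r m
  obtain ⟨b, rfl⟩ := Ideal.Quotient.mk_surjective m
  change Ideal.Quotient.mk I (φ (r * b)) = Ideal.Quotient.mk I (φ r * φ b)
  rw [map_mul φ]

theorem ms_quot_iff {g : List R} {I : Ideal R} : MS g (R ⧸ I) ↔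
    ∀ Q : Ideal R, Q.IsPrime → I ≤ Q → Ideal.ofList g ≤ Q → Q.IsMaximal := by
  constructor
  · intro h Q hQ hI hg
    refine h ⟨Q, hQ⟩ (Module.mem_support_iff_of_finite.2 ?_) hg
    rwa [Ideal.annihilator_quotient]
  · intro h Q hQ hg
    refine h Q.asIdeal Q.isPrime ?_ hg
    have h1 := Module.annihilator_le_of_mem_support hQ
    rwa [Ideal.annihilator_quotient] at h1

theorem MS.of_injective {g : List R} (h : MS g M) (f : N →ₗ[R] M) (hf : Function.Injective f) :
    MS g N := by
  exact fun Q hQ => h Q (Module.support_subset_of_injective f hf hQ)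

theorem MS.of_surjective {g : List R} (h : MS g M) (f : M →ₗ[R] N) (hf : Function.Surjective f) :
    MS g N := by
  exact fun Q hQ => h Q (Module.support_subset_of_surjective f hf hQ)

theorem MS.quot {x : R} {g : List R} (h : MS (x :: g) M) : MS g (QuotSMulTop x M) := by
  intro Q hQ hg
  refine h Q (Module.support_subset_of_surjective _ (Submodule.mkQ_surjective _) hQ) ?_
  rw [Ideal.ofList_cons, sup_le_iff, Ideal.span_singleton_le_iff_mem]
  exact ⟨Module.annihilator_le_of_mem_support hQ (QuotSMulTop.mem_annihilator M x), hg⟩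

theorem MS.torsion {x : R} {g : List R} (h : MS (x :: g) M) :
    MS g (Submodule.torsionBy R M x) := by
  intro Q hQ hg
  refine h Q (Module.support_subset_of_injective _ (Submodule.subtype_injective _) hQ) ?_
  rw [Ideal.ofList_cons, sup_le_iff, Ideal.span_singleton_le_iff_mem]
  refine ⟨Module.annihilator_le_of_mem_support hQ (Module.mem_annihilator.2 fun m => ?_), hg⟩
  exact Subtype.ext ((Submodule.mem_torsionBy_iff _ _).1 m.2)

variable [IsNoetherianRing R] [Module.Finite R M]

theorem MS.length_ne_top (h : MS ([] : List R) M) : Module.length R M ≠ ⊤ := by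
  revert h
  refine IsNoetherianRing.induction_on_isQuotientEquivQuotientPrime R
    (inferInstance : Module.Finite R M)
    (motive := fun N => MS ([] : List R) N → Module.length R N ≠ ⊤) ?_ ?_ ?_
  · intro N _ _ _ _ _
    simp
  · intro N _ _ _ p e h
    have h1 : p.asIdeal.IsMaximal :=
      ms_quot_iff.1 (h.of_surjective e.toLinearMap e.surjective) _ p.isPrime le_rfl (by simp)
    have : IsSimpleModule R N := isSimpleModule_iff_quot_maximal.2 ⟨_, h1, ⟨e⟩⟩
    rw [Module.length_eq_one]
    exact ENat.one_ne_top
  · intro N₁ _ _ _ N₂ _ _ _ N₃ _ _ _ f g hf hg he h1 h3 h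
    rw [Module.length_eq_add_of_exact f g hf hg he]
    exact WithTop.add_ne_top.2 ⟨h1 (h.of_injective f hf), h3 (h.of_surjective g hg)⟩

variable [IsLocalRing R]

omit [Module.Finite R M] in
/-- Krull's bound. -/
theorem dim_le_of_ms {g : List R} {I : Ideal R} (h : MS g (R ⧸ I)) (hg : Ideal.ofList g ≠ ⊤) :
    ringKrullDim (R ⧸ I) ≤ g.length := by
  classical
  by_cases hI : I = ⊤
  · have : Subsingleton (R ⧸ I) := Ideal.Quotient.subsingleton_iff.2 hI
    rw [ringKrullDim_eq_bot_of_subsingleton]
    exact bot_le
  have : Nontrivial (R ⧸ I) := Ideal.Quotient.nontrivial_iff.2 hI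
  have hs := Ideal.Quotient.mk_surjective (I := I)
  have : IsLocalRing (R ⧸ I) := IsLocalRing.of_surjective' _ hs
  have h1 : Ideal.span ((g.map (Ideal.Quotient.mk I)).toFinset : Set (R ⧸ I)) =
      (Ideal.ofList g).map (Ideal.Quotient.mk I) := by
    rw [Ideal.map_ofList, List.coe_toFinset]
  have h2 : maximalIdeal (R ⧸ I) ∈
      (Ideal.span ((g.map (Ideal.Quotient.mk I)).toFinset : Set (R ⧸ I))).minimalPrimes := by
    rw [h1]
    refine ⟨⟨inferInstance, ?_⟩, fun q hq _ => ?_⟩
    · rw [Ideal.map_le_iff_le_comap,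
        eq_maximalIdeal (Ideal.comap_isMaximal_of_surjective (Ideal.Quotient.mk I) hs)]
      exact le_maximalIdeal hg
    · have := hq.1
      have h3 : I ≤ q.comap (Ideal.Quotient.mk I) := fun a ha => by
        rw [Ideal.mem_comap, Ideal.Quotient.eq_zero_iff_mem.2 ha]
        exact q.zero_mem
      have h4 := ms_quot_iff.1 h _ (Ideal.comap_isPrime (Ideal.Quotient.mk I) q) h3
        (Ideal.map_le_iff_le_comap.1 hq.2)
      have h5 := Ideal.IsMaximal.map_of_surjective_of_ker_le (f := Ideal.Quotient.mk I) hs
        (m := q.comap (Ideal.Quotient.mk I)) (by rwa [Ideal.mk_ker])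
      rw [Ideal.map_comap_of_surjective _ hs] at h5
      exact (eq_maximalIdeal h5).ge
  have h6 := Ideal.height_le_card_of_mem_minimalPrimes_span_finset h2
  have h7 : (g.map (Ideal.Quotient.mk I)).toFinset.card ≤ g.length :=
    (List.toFinset_card_le _).trans (List.length_map _).le
  rw [← maximalIdeal_height_eq_ringKrullDim]
  exact_mod_cast h6.trans (Nat.cast_le.2 h7)

end Pool.Agent.P.MP_638e8a_ag.Cyc
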