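import Pool.Agent.P.MP_638e8a_ag.ChA1

/-!
Task CHOW A4b: flat base change.
-/

open IsLocalRing

universe u

namespace Pool.Agent.P.MP_638e8a_ag.Cyc

variable {R : Type u} [CommRing R] [IsNoetherianRing R] [IsLocalRing R]

omit [IsNoetherianRing R] in
open TensorProduct in
theorem emult_baseChange {S : Type u} [CommRing S] [IsLocalRing S] [Algebra R S] [Module.Flat R S]
    (hm : (maximalIdeal R).map (algebraMap R S) = maximalIdeal S) (g : List R) :
    ∀ (M : Type u) [AddCommGroup M] [Module R M],
      emult (g.map (algebraMap R S)) (S ⊗[R] M) = emult g M := by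
  have : IsLocalHom (algebraMap R S) :=
    ((local_hom_TFAE (algebraMap R S)).out 2 0).mp hm.le
  induction g with
  | nil =>
    intro M _ _
    have h1 : Module.length S (S ⧸ maximalIdeal S) = 1 :=
      Module.length_eq_one_iff.mpr
        (isSimpleModule_iff_quot_maximal.mpr ⟨_, inferInstance, ⟨LinearEquiv.refl _ _⟩⟩)
    rw [List.map_nil, emult_nil, emult_nil, IsLocalRing.length_baseChange, hm, h1, mul_one]
  | cons x g ih =>
    intro M _ _
    have e : Submodule.torsionBy S (S ⊗[R] M) (algebraMap R S x) = LinearMap.ker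
        (AlgebraTensorModule.lTensor S S (DistribSMul.toLinearMap R M x)) := by
      ext y
      rw [Submodule.mem_torsionBy_iff, LinearMap.mem_ker]
      refine Eq.to_iff (congrArg (· = 0) ?_)
      induction y with
      | zero => simp
      | add a b ha hb => rw [smul_add, map_add, ha, hb]
      | tmul s m => simp [smul_tmul', Algebra.smul_def]
    rw [List.map_cons, emult_cons, emult_cons,
      emult_congr (QuotSMulTop.algebraMapTensorEquivTensorQuotSMulTop x M S), ih,
      emult_congr (LinearEquiv.ofEq _ _ e ≪≫ₗ (LinearMap.tensorKerEquiv S S _).symm), ih]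
    rfl

theorem emult_flat {S : Type u} [CommRing S] [IsLocalRing S] (φ : R →+* S) (hφ : φ.Flat)
    (hm : (maximalIdeal R).map φ = maximalIdeal S) (g : List R) (I : Ideal R)
    (h : MS g (R ⧸ I)) : emult (g.map φ) (S ⧸ I.map φ) = emult g (R ⧸ I) := by
  letI := φ.toAlgebra
  have : Module.Flat R S := hφ
  exact (emult_congr (Algebra.TensorProduct.quotIdealMapEquivTensorQuot S I).toLinearEquiv _).trans
    (emult_baseChange hm g _)

end Pool.Agent.P.MP_638e8a_ag.Cyc
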