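import Mathlib

/-!
Task CHOW A5, helper file: the length of the cokernel of a square matrix over a one-dimensional
Noetherian domain is the order of its determinant.
-/

namespace Pool.Agent.P.MP_638e8a_ag.Cyc.A5

open Matrix

section chi

variable {A : Type*} [CommRing A] {M N P : Type*} [AddCommGroup M] [Module A M]
  [AddCommGroup N] [Module A N] [AddCommGroup P] [Module A P]

/-- The length of the cokernel. -/
noncomputable def chi (f : M →ₗ[A] N) : ℕ∞ := Module.length A (N ⧸ LinearMap.range f)

theorem chi_comp (f : N →ₗ[A] P) (hf : Function.Injective f) (g : M →ₗ[A] N) :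
    chi (f ∘ₗ g) = chi f + chi g := by
  have h1 : LinearMap.range g ≤ (LinearMap.range (f ∘ₗ g)).comap f := by
    rintro _ ⟨x, rfl⟩
    exact ⟨x, rfl⟩
  have h2 : LinearMap.range (f ∘ₗ g) ≤ LinearMap.range f := LinearMap.range_comp_le_range g f
  have := Module.length_eq_add_of_exact (Submodule.mapQ _ _ f h1) (Submodule.factor h2) ?_
    (Submodule.factor_surjective h2) ?_
  · rw [chi, chi, chi, this, add_comm]
  · rw [← LinearMap.ker_eq_bot, eq_bot_iff]
    intro x hx
    obtain ⟨x, rfl⟩ := Submodule.mkQ_surjective _ x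
    rw [LinearMap.mem_ker, Submodule.mkQ_apply, Submodule.mapQ_apply,
      Submodule.Quotient.mk_eq_zero] at hx
    obtain ⟨y, hy⟩ := hx
    have : g y = x := hf hy
    rw [Submodule.mem_bot, Submodule.mkQ_apply, Submodule.Quotient.mk_eq_zero]
    exact ⟨y, this⟩
  · intro x
    obtain ⟨x, rfl⟩ := Submodule.mkQ_surjective _ x
    rw [Submodule.factor_mk, Submodule.mkQ_apply, Submodule.mkQ_apply,
      Submodule.Quotient.mk_eq_zero]
    constructor
    · rintro ⟨y, rfl⟩
      exact ⟨Submodule.Quotient.mk y, rfl⟩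
    · rintro ⟨y, hy⟩
      obtain ⟨y, rfl⟩ := Submodule.mkQ_surjective _ y
      rw [Submodule.mkQ_apply, Submodule.mapQ_apply, Submodule.Quotient.eq] at hy
      obtain ⟨z, hz⟩ := hy
      refine ⟨y - g z, ?_⟩
      rw [map_sub]
      have : f (g z) = f y - x := hz
      rw [this]; abel

end chi

variable {A : Type*} [CommRing A] {n : Type*} [Fintype n] [DecidableEq n]

theorem chi_diagonal (d : n → A) : chi (diagonal d).mulVecLin = ∑ i, Ring.ord A (d i) := by
  have : LinearMap.range (diagonal d).mulVecLin =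
      Submodule.pi Set.univ fun i => (Ideal.span {d i} : Submodule A A) := by
    ext v
    simp only [LinearMap.mem_range, mulVecLin_apply, Submodule.mem_pi, Set.mem_univ,
      forall_true_left, Ideal.mem_span_singleton']
    constructor
    · rintro ⟨w, rfl⟩ i
      exact ⟨w i, by rw [mulVec_diagonal, mul_comm]⟩
    · intro h
      choose w hw using h
      exact ⟨w, funext fun i => by rw [mulVec_diagonal, mul_comm, hw]⟩
  rw [chi, (Submodule.quotEquivOfEq _ _ this).length_eq, (Submodule.quotientPi _).length_eq,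
    Module.length_pi_of_fintype]
  rfl

variable [IsDomain A]

omit [Fintype n] in
theorem ord_prod (s : Finset n) (d : n → A) (hd : ∀ i, d i ≠ 0) :
    Ring.ord A (∏ i ∈ s, d i) = ∑ i ∈ s, Ring.ord A (d i) := by
  induction s using Finset.induction_on with
  | empty => simp
  | insert i s hi ih =>
    rw [Finset.prod_insert hi, Finset.sum_insert hi,
      Ring.ord_mul' A (mem_nonZeroDivisors_of_ne_zero (hd i)), ih]

/-- The statement of the key lemma. -/
def Key (Φ : Matrix n n A) : Prop := Φ.det ≠ 0 ∧ chi Φ.mulVecLin = Ring.ord A Φ.det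

theorem inj_of_det {Φ : Matrix n n A} (h : Φ.det ≠ 0) : Function.Injective Φ.mulVecLin := by
  rw [← LinearMap.ker_eq_bot, eq_bot_iff]
  intro v hv
  exact Matrix.eq_zero_of_mulVec_eq_zero h hv

theorem chi_mul {Φ : Matrix n n A} (h : Φ.det ≠ 0) (Ψ : Matrix n n A) :
    chi (Φ * Ψ).mulVecLin = chi Φ.mulVecLin + chi Ψ.mulVecLin := by
  rw [mulVecLin_mul, chi_comp _ (inj_of_det h)]

theorem key_diagonal (d : n → A) (hd : ∀ i, d i ≠ 0) : Key (diagonal d) := by
  refine ⟨?_, ?_⟩
  · rw [det_diagonal]; exact Finset.prod_ne_zero_iff.2 fun i _ => hd i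
  · rw [chi_diagonal, det_diagonal, ord_prod _ _ hd]

theorem Key.mul {Φ Ψ : Matrix n n A} (h : Key Φ) (h' : Key Ψ) : Key (Φ * Ψ) := by
  refine ⟨by rw [det_mul]; exact mul_ne_zero h.1 h'.1, ?_⟩
  rw [chi_mul h.1, h.2, h'.2, det_mul, Ring.ord_mul A (mem_nonZeroDivisors_of_ne_zero h'.1)]

theorem key_scalar {c : A} (hc : c ≠ 0) : Key (c • (1 : Matrix n n A)) := by
  rw [smul_one_eq_diagonal]
  exact key_diagonal _ fun _ => hc

theorem key_transvection {c : A} (hc : c ≠ 0) {i j : n} (hij : i ≠ j) (a : A) :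
    Key (c • (1 : Matrix n n A) + single i j a) := by
  set Φ := c • (1 : Matrix n n A) + single i j a with hΦ
  set Φ' := c • (1 : Matrix n n A) + single i j (-a) with hΦ'
  let d : n → A := fun k => if k = i then -1 else 1
  have hd : ∀ k, IsUnit (d k) := fun k => by
    by_cases h : k = i <;> simp [d, h]
  have hD : Key (diagonal d) := key_diagonal d fun k => (hd k).ne_zero
  have hD0 : chi (diagonal d).mulVecLin = 0 := by
    rw [chi_diagonal]
    exact Finset.sum_eq_zero fun k _ => Ring.ord_of_isUnit (hd k)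
  have h1 : diagonal d * Φ = Φ' * diagonal d := by
    ext k l
    rw [diagonal_mul, mul_diagonal]
    simp only [hΦ, hΦ', d, Matrix.add_apply, Matrix.smul_apply, one_apply, single_apply, smul_eq_mul]
    by_cases hkl : k = l
    · subst hkl
      have : ¬ (i = k ∧ j = k) := fun h => hij (h.1.trans h.2.symm)
      simp [this, mul_comm]
    · by_cases h : i = k ∧ j = l
      · obtain ⟨rfl, rfl⟩ := h
        simp [hkl, Ne.symm hkl]
      · simp [hkl, h]
  have h2 : Φ * Φ' = (c • (1 : Matrix n n A)) * (c • (1 : Matrix n n A)) := by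
    rw [hΦ, hΦ', add_mul, mul_add, mul_add, single_mul_single_of_ne _ _ _ _ hij.symm,
      smul_mul, smul_mul, one_mul, one_mul, Matrix.mul_smul, mul_one, add_zero, add_assoc,
      ← smul_add, ← single_add, neg_add_cancel, single_zero, smul_zero, add_zero]
  have hk : Key (Φ * Φ') := h2 ▸ (key_scalar hc).mul (key_scalar hc)
  have h3 : Φ'.det = Φ.det := by
    have := congrArg det h1
    rw [det_mul, det_mul, mul_comm] at this
    exact (mul_right_cancel₀ hD.1 this).symm
  have h4 : Φ.det ≠ 0 := fun h => hk.1 (by rw [det_mul, h, zero_mul])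
  have h5 : chi Φ'.mulVecLin = chi Φ.mulVecLin := by
    have : chi (diagonal d * Φ).mulVecLin = chi (Φ' * diagonal d).mulVecLin := by rw [h1]
    rw [chi_mul hD.1, chi_mul (h3 ▸ h4), hD0, zero_add, add_zero] at this
    exact this.symm
  refine ⟨h4, ?_⟩
  have h6 := hk.2
  rw [chi_mul h4, h5, det_mul, h3, Ring.ord_mul A (mem_nonZeroDivisors_of_ne_zero h4)] at h6
  revert h6
  generalize chi Φ.mulVecLin = x
  generalize Ring.ord A Φ.det = y
  intro h6
  cases x <;> cases y
  · rfl
  · simp [← Nat.cast_add] at h6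
  · simp [← Nat.cast_add] at h6
  · norm_cast at h6 ⊢
    omega

variable [IsNoetherianRing A] [Ring.KrullDimLE 1 A]

theorem Key.cancel {Φ Ψ : Matrix n n A} (h : Key Φ) (h' : Key (Φ * Ψ)) : Key Ψ := by
  have h0 : Ψ.det ≠ 0 := by
    intro h0
    exact h'.1 (by rw [det_mul, h0, mul_zero])
  refine ⟨h0, ?_⟩
  have := h'.2
  rw [chi_mul h.1, h.2, det_mul, Ring.ord_mul A (mem_nonZeroDivisors_of_ne_zero h0)] at this
  exact WithTop.add_left_cancel (Ring.ord_ne_top (mem_nonZeroDivisors_of_ne_zero h.1)) this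

theorem key (Φ : Matrix n n A) (h : Φ.det ≠ 0) : Key Φ := by
  let K := FractionRing A
  have hinj : Function.Injective (algebraMap A K) := IsFractionRing.injective A K
  have hminj : ∀ {X Y : Matrix n n A}, X.map (algebraMap A K) = Y.map (algebraMap A K) → X = Y :=
    fun h => Matrix.map_injective hinj h
  have main : ∀ M : Matrix n n K, M.det ≠ 0 → ∃ c : A, c ≠ 0 ∧ ∃ Ψ : Matrix n n A,
      Ψ.map (algebraMap A K) = algebraMap A K c • M ∧ Key Ψ := by
    intro M hM
    refine diagonal_transvection_induction_of_det_ne_zero (fun M => ∃ c : A, c ≠ 0 ∧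
      ∃ Ψ : Matrix n n A, Ψ.map (algebraMap A K) = algebraMap A K c • M ∧ Key Ψ) M hM ?_ ?_ ?_
    · intro D hD
      obtain ⟨c, hc⟩ := IsLocalization.exist_integer_multiples_of_finite (nonZeroDivisors A) D
      choose d hd using hc
      have hc0 : (c : A) ≠ 0 := nonZeroDivisors.coe_ne_zero c
      refine ⟨c, hc0, diagonal d, ?_, key_diagonal d fun i hi => ?_⟩
      · rw [diagonal_map (map_zero _), ← diagonal_smul]
        congr 1
        funext i
        rw [hd i, Pi.smul_apply, Algebra.smul_def, smul_eq_mul]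
      · have h1 := hd i
        rw [hi, map_zero, Algebra.smul_def] at h1
        rw [det_diagonal] at hD
        have h2 := Finset.prod_ne_zero_iff.1 hD i (Finset.mem_univ i)
        exact mul_ne_zero ((map_ne_zero_iff _ hinj).2 hc0) h2 h1.symm
    · rintro ⟨i, j, hij, t⟩
      obtain ⟨a, c, hc, rfl⟩ := IsFractionRing.div_surjective (A := A) t
      have hc0 : c ≠ 0 := nonZeroDivisors.ne_zero hc
      refine ⟨c, hc0, _, ?_, key_transvection hc0 hij a⟩
      have hc1 : algebraMap A K c ≠ 0 := (map_ne_zero_iff _ hinj).2 hc0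
      rw [TransvectionStruct.toMatrix_mk, transvection, smul_add, smul_single, smul_eq_mul,
        mul_div_cancel₀ _ hc1, Matrix.map_add _ (map_add _), map_single]
      congr 1
      ext k l
      by_cases hkl : k = l <;> simp [one_apply, hkl]
    · rintro X Y - - ⟨c, hc, Ψ, hΨ, hk⟩ ⟨c', hc', Ψ', hΨ', hk'⟩
      refine ⟨c * c', mul_ne_zero hc hc', Ψ * Ψ', ?_, hk.mul hk'⟩
      rw [Matrix.map_mul, hΨ, hΨ', smul_mul_smul_comm, map_mul]
  have hd : (Φ.map (algebraMap A K)).det ≠ 0 := by
    have := (algebraMap A K).map_det Φ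
    rw [RingHom.mapMatrix_apply] at this
    rw [← this]
    exact (map_ne_zero_iff _ hinj).2 h
  obtain ⟨c, hc, Ψ, hΨ, hk⟩ := main _ hd
  have : Ψ = (c • (1 : Matrix n n A)) * Φ := by
    apply hminj
    rw [hΨ]
    ext k l
    simp
  rw [this] at hk
  exact (key_scalar hc).cancel hk

omit [IsDomain A] [IsNoetherianRing A] [Ring.KrullDimLE 1 A] in
theorem span_eq_top {B K L : Type*} [CommRing B] [Algebra A B] [Module.Finite A B] [Field K]
    [Field L] [Algebra A K] [Algebra K L] (β : B →+* L)
    (hβ' : ∀ c : L, ∃ b b', β b' ≠ 0 ∧ β b = c * β b')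
    (hc : ∀ r, algebraMap K L (algebraMap A K r) = β (algebraMap A B r)) :
    Submodule.span K (Set.range β) = ⊤ ∧ Module.Finite K L := by
  obtain ⟨s, hs⟩ := Module.Finite.fg_top (R := A) (M := B)
  have h1 : Submodule.span K (Set.range β) = Submodule.span K (β '' s) := by
    refine le_antisymm (Submodule.span_le.2 ?_)
      (Submodule.span_mono (Set.image_subset_range _ _))
    rintro _ ⟨x, rfl⟩
    have hx : x ∈ Submodule.span A (s : Set B) := hs ▸ Submodule.mem_top
    induction hx using Submodule.span_induction with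
    | mem x hx => exact Submodule.subset_span ⟨x, hx, rfl⟩
    | zero => rw [map_zero]; exact Submodule.zero_mem _
    | add x y _ _ hx hy => rw [map_add]; exact Submodule.add_mem _ hx hy
    | smul r x _ hx =>
      rw [Algebra.smul_def, map_mul, ← hc, ← Algebra.smul_def]
      exact Submodule.smul_mem _ _ hx
  let S : Subalgebra K L := Algebra.adjoin K (Set.range β)
  have hS : Subalgebra.toSubmodule S = Submodule.span K (Set.range β) := by
    rw [Algebra.adjoin_eq_span]
    congr 1
    exact congrArg _ (Submonoid.closure_eq (MonoidHom.mrange (β : B →* L)))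
  have hfg : (Subalgebra.toSubmodule S).FG := by
    rw [hS, h1]
    exact Submodule.fg_span (s.finite_toSet.image β)
  have htop : Submodule.span K (Set.range β) = ⊤ := by
    rw [← hS, eq_top_iff]
    intro c _
    obtain ⟨b, b', hb', h⟩ := hβ' c
    have hb : β b ∈ S := Algebra.subset_adjoin ⟨b, rfl⟩
    have hb1 : β b' ∈ S := Algebra.subset_adjoin ⟨b', rfl⟩
    have hb2 : (β b')⁻¹ ∈ S :=
      S.inv_mem_of_algebraic (x := ⟨β b', hb1⟩) (IsIntegral.of_mem_of_fg S hfg _ hb1).isAlgebraic
    have : c = β b * (β b')⁻¹ := by rw [h, mul_inv_cancel_right₀ hb']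
    rw [this]
    exact S.mul_mem hb hb2
  refine ⟨htop, ⟨?_⟩⟩
  rw [← htop, ← hS]
  exact hfg

theorem core {B K L : Type*} [CommRing B] [Algebra A B] [Module.Finite A B] [Field K]
    [Field L] [Algebra A K] [IsFractionRing A K] [Algebra K L] (β : B →+* L)
    (hβ : Function.Injective β) (hβ' : ∀ c : L, ∃ b b', β b' ≠ 0 ∧ β b = c * β b')
    (hc : ∀ r, algebraMap K L (algebraMap A K r) = β (algebraMap A B r)) (b : B) (hb : b ≠ 0)
    (a a' : A) (ha' : a' ≠ 0)
    (h : algebraMap A K a = Algebra.norm K (β b) * algebraMap A K a') :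
    Module.length A (B ⧸ Ideal.span {b}) + Ring.ord A a' = Ring.ord A a := by
  classical
  have hinj : Function.Injective (algebraMap A K) := IsFractionRing.injective A K
  have : IsDomain B := hβ.isDomain β
  obtain ⟨hsp, hfin⟩ := span_eq_top β hβ' hc
  obtain ⟨κ, v, -, hv, hli⟩ := exists_linearIndependent' K (β : B → L)
  have : Finite κ := hli.finite
  let _ : Fintype κ := Fintype.ofFinite κ
  let e : Module.Basis κ K L := Module.Basis.mk hli (by rw [hv, hsp])
  have he : ∀ i, e i = β (v i) := fun i => Module.Basis.mk_apply _ _ _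
  have hsm : ∀ (r : A) (x : B), β (r • x) = algebraMap A K r • β x := fun r x => by
    rw [Algebra.smul_def, map_mul, ← hc, ← Algebra.smul_def]
  let ι : (κ → A) →ₗ[A] B := Fintype.linearCombination A v
  have hι : ∀ w i, e.repr (β (ι w)) i = algebraMap A K (w i) := fun w i => by
    have : β (ι w) = ∑ j, algebraMap A K (w j) • e j := by
      simp only [ι, Fintype.linearCombination_apply, map_sum, hsm, he]
    rw [this, e.repr_sum_self]
  have hιi : Function.Injective ι := fun w w' hw => funext fun i => hinj (by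
    rw [← hι, ← hι, hw])
  have htor : Module.IsTorsion A (B ⧸ LinearMap.range ι) := by
    intro x
    obtain ⟨x, rfl⟩ := Submodule.mkQ_surjective _ x
    obtain ⟨c, hc⟩ := IsLocalization.exist_integer_multiples_of_finite (nonZeroDivisors A)
      (fun i => e.repr (β x) i)
    choose w hw using hc
    refine ⟨c, ?_⟩
    rw [Submonoid.smul_def, ← map_smul, Submodule.mkQ_apply, Submodule.Quotient.mk_eq_zero]
    refine ⟨w, hβ (e.repr.injective (Finsupp.ext fun i => ?_))⟩
    rw [hι, hw, hsm, map_smul, Finsupp.smul_apply, algebraMap_smul]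
  obtain ⟨c, hc1, hc2⟩ := Submodule.annihilator_top_inter_nonZeroDivisors htor
  have hc0 : c ≠ 0 := nonZeroDivisors.ne_zero hc2
  have hc3 : ∀ x : B, c • x ∈ LinearMap.range ι := fun x => by
    have := Submodule.mem_annihilator.1 hc1 (Submodule.Quotient.mk x) Submodule.mem_top
    rwa [← Submodule.Quotient.mk_smul, Submodule.Quotient.mk_eq_zero] at this
  let π : B →ₗ[A] (κ → A) := (LinearEquiv.ofInjective ι hιi).symm.toLinearMap ∘ₗ
    LinearMap.codRestrict _ (c • LinearMap.id) hc3
  have hπ : ∀ x, ι (π x) = c • x := fun x => by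
    simp [π, LinearEquiv.ofInjective_symm_apply]
  have hcK : algebraMap A K c ≠ 0 := (map_ne_zero_iff _ hinj).2 hc0
  have hπi : Function.Injective π := fun x y hxy => by
    have := congrArg (fun z => β (ι z)) hxy
    simp only [hπ, hsm] at this
    exact hβ (smul_right_injective L hcK this)
  let m : B →ₗ[A] B := LinearMap.mulLeft A b
  have hmi : Function.Injective m := fun x y hxy => mul_left_cancel₀ hb hxy
  have hm : chi m = Module.length A (B ⧸ Ideal.span {b}) := by
    have : LinearMap.range m = (Ideal.span {b} : Ideal B).restrictScalars A := by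
      ext x
      simp only [m, LinearMap.mem_range, LinearMap.mulLeft_apply, Submodule.restrictScalars_mem,
        Ideal.mem_span_singleton', mul_comm b]
    rw [chi, (Submodule.quotEquivOfEq _ _ this).length_eq,
      (Submodule.Quotient.restrictScalarsEquiv A (Ideal.span {b} : Ideal B)).length_eq]
  let Φ : Matrix κ κ A := LinearMap.toMatrix' (π ∘ₗ m ∘ₗ ι)
  have hΦ : Φ.mulVecLin = π ∘ₗ m ∘ₗ ι := Matrix.toLin'_toMatrix' _
  have hC : (c • (1 : Matrix κ κ A)).mulVecLin = π ∘ₗ ι := by
    refine LinearMap.ext fun w => hιi ?_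
    rw [LinearMap.comp_apply, hπ, ← map_smul, mulVecLin_apply, smul_mulVec, one_mulVec]
  have hΦK : Φ.map (algebraMap A K) = algebraMap A K c • Algebra.leftMulMatrix e (β b) := by
    ext i j
    have : Φ i j = (π ∘ₗ m ∘ₗ ι) (Pi.single j 1) i := LinearMap.toMatrix'_apply _ _ _
    rw [map_apply, Matrix.smul_apply, Algebra.leftMulMatrix_eq_repr_mul, this,
      ← hι, LinearMap.comp_apply, hπ, hsm, map_smul, Finsupp.smul_apply, he, ← map_mul]
    congr 4
    simp [m, ι, Fintype.linearCombination_apply]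
  have hdet : Φ.det * a' = (c • (1 : Matrix κ κ A)).det * a := by
    apply hinj
    rw [map_mul, map_mul, (algebraMap A K).map_det Φ, RingHom.mapMatrix_apply, hΦK, det_smul,
      ← Algebra.norm_eq_matrix_det, det_smul, det_one, mul_one, map_pow, h, mul_assoc]
  have hk := key_scalar (n := κ) hc0
  have ha : a ≠ 0 := by
    rintro rfl
    rw [map_zero] at h
    exact mul_ne_zero (Algebra.norm_ne_zero_iff.2 ((map_ne_zero_iff _ hβ).2 hb))
      ((map_ne_zero_iff _ hinj).2 ha') h.symm
  have hΦ0 : Φ.det ≠ 0 := fun h0 => mul_ne_zero hk.1 ha (by rw [← hdet, h0, zero_mul])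
  have h1 := (key Φ hΦ0).2
  have h2 := hk.2
  rw [hΦ, chi_comp _ hπi, chi_comp _ hmi, hm] at h1
  rw [hC, chi_comp _ hπi] at h2
  have h3 := congrArg (Ring.ord A) hdet
  rw [Ring.ord_mul A (mem_nonZeroDivisors_of_ne_zero ha'),
    Ring.ord_mul A (mem_nonZeroDivisors_of_ne_zero ha), ← h1] at h3
  have h4 : Ring.ord A (c • (1 : Matrix κ κ A)).det +
      (Module.length A (B ⧸ Ideal.span {b}) + Ring.ord A a') =
      Ring.ord A (c • (1 : Matrix κ κ A)).det + Ring.ord A a := by
    rw [← h3, ← h2]
    abel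
  exact WithTop.add_left_cancel (Ring.ord_ne_top (mem_nonZeroDivisors_of_ne_zero hk.1)) h4

end Pool.Agent.P.MP_638e8a_ag.Cyc.A5
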