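import Pool.Agent.P.MP_638e8a_ag.ChA2
import Pool.Agent.P.MP_638e8a_ag.ChA5X

/-!
Task CHOW A5: the order of the norm.
-/

open IsLocalRing

universe u

namespace Pool.Agent.P.MP_638e8a_ag.Cyc

variable {R : Type u} [CommRing R] [IsNoetherianRing R] [IsLocalRing R]

theorem emult_norm {B K L : Type u} [CommRing B] [Algebra R B] [Module.Finite R B] [Field K]
    [Field L] [Algebra K L] (φ : R →+* K) (hφ : ∀ c : K, ∃ a a', φ a' ≠ 0 ∧ φ a = c * φ a')
    (β : B →+* L) (hβ : Function.Injective β) (hβ' : ∀ c : L, ∃ b b', β b' ≠ 0 ∧ β b = c * β b')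
    (hc : ∀ r, algebraMap K L (φ r) = β (algebraMap R B r))
    (hd : ringKrullDim (R ⧸ RingHom.ker φ) ≤ 1) (b : B) (hb : b ≠ 0) (a a' : R) (ha' : φ a' ≠ 0)
    (h : φ a = Algebra.norm K (β b) * φ a') :
    emult ([] : List R) (B ⧸ Ideal.span {b}) =
      emult [a] (R ⧸ RingHom.ker φ) - emult [a'] (R ⧸ RingHom.ker φ) := by
  have : (RingHom.ker φ).IsPrime := RingHom.ker_isPrime φ
  have : Ring.KrullDimLE 1 (R ⧸ RingHom.ker φ) := Ring.krullDimLE_iff.2 hd
  let _ : Algebra (R ⧸ RingHom.ker φ) K := (RingHom.kerLift φ).toAlgebra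
  have hK : ∀ r, algebraMap (R ⧸ RingHom.ker φ) K (Ideal.Quotient.mk _ r) = φ r := fun _ => rfl
  have hinj : Function.Injective (algebraMap (R ⧸ RingHom.ker φ) K) :=
    RingHom.kerLift_injective φ
  have : FaithfulSMul (R ⧸ RingHom.ker φ) K :=
    (faithfulSMul_iff_algebraMap_injective _ _).2 hinj
  have : IsFractionRing (R ⧸ RingHom.ker φ) K := IsFractionRing.of_field _ _ fun c => by
    obtain ⟨x, y, hy, hxy⟩ := hφ c
    exact ⟨Ideal.Quotient.mk _ x, Ideal.Quotient.mk _ y, by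
      rw [hK, hK, hxy, mul_div_cancel_right₀ _ hy]⟩
  let _ : Algebra (R ⧸ RingHom.ker φ) B :=
    (Ideal.Quotient.lift (RingHom.ker φ) (algebraMap R B) fun r hr => hβ (by
      rw [← hc, RingHom.mem_ker.1 hr, map_zero, map_zero])).toAlgebra
  have hB : ∀ r, algebraMap (R ⧸ RingHom.ker φ) B (Ideal.Quotient.mk _ r) = algebraMap R B r :=
    fun _ => rfl
  have : IsScalarTower R (R ⧸ RingHom.ker φ) B := IsScalarTower.of_algebraMap_eq fun _ => rfl
  have : Module.Finite (R ⧸ RingHom.ker φ) B := Module.Finite.of_restrictScalars_finite R _ _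
  have h0 : a' ∉ RingHom.ker φ := ha'
  have h0' : Ideal.Quotient.mk (RingHom.ker φ) a' ≠ 0 := fun h =>
    h0 (Ideal.Quotient.eq_zero_iff_mem.1 h)
  have hc' : ∀ r, algebraMap K L (algebraMap (R ⧸ RingHom.ker φ) K r) =
      β (algebraMap (R ⧸ RingHom.ker φ) B r) := fun r => by
    obtain ⟨r, rfl⟩ := Ideal.Quotient.mk_surjective r
    exact hc r
  have := (A5.span_eq_top β hβ' hc').2
  have h1 : a ∉ RingHom.ker φ := fun h1 =>
    mul_ne_zero (Algebra.norm_ne_zero_iff.2 ((map_ne_zero_iff _ hβ).2 hb)) ha'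
      (h.symm.trans h1)
  have h1' : Ideal.Quotient.mk (RingHom.ker φ) a ≠ 0 := fun h =>
    h1 (Ideal.Quotient.eq_zero_iff_mem.1 h)
  have h2 := A5.core β hβ hβ' hc' b hb (Ideal.Quotient.mk _ a) (Ideal.Quotient.mk _ a') h0' h
  have h3 := Ring.ord_ne_top (mem_nonZeroDivisors_of_ne_zero h1')
  rw [emult_nil, emult_one_eq_ord h1, emult_one_eq_ord h0,
    Module.length_eq_of_surjective (S := R) (R := R ⧸ RingHom.ker φ)
      Ideal.Quotient.mk_surjective]
  rw [← h2] at h3 ⊢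
  rw [ENat.toNat_add (WithTop.add_ne_top.1 h3).1 (WithTop.add_ne_top.1 h3).2]
  push_cast
  ring

end Pool.Agent.P.MP_638e8a_ag.Cyc
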