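import Pool.Agent.P.MP_638e8a_ag.ChBase

/-!
Task CHOW A6: generic choices of rows.
-/

open IsLocalRing

universe u

namespace Pool.Agent.P.MP_638e8a_ag.Cyc

variable {k : Type u} [Field k] {V : Type u} [AddCommGroup V] [Module k V]

namespace A6

theorem exists_avoid [Infinite k] (s : Finset ((V →ₗ[k] k) × k)) (hs : ∀ p ∈ s, p.1 ≠ 0) :
    ∃ β : V, ∀ p ∈ s, p.1 β ≠ p.2 := by
  classical
  obtain ⟨v, hv⟩ := Module.Dual.exists_forall_ne_zero_of_forall_exists (K := k) (M := V)
    (fun p : s => p.1.1) (fun p => by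
      by_contra h
      push Not at h
      exact hs p.1 p.2 (LinearMap.ext h))
  obtain ⟨t, ht⟩ := Infinite.exists_notMem_finset (s.image fun p => p.2 / p.1 v)
  refine ⟨t • v, fun p hp h => ht ?_⟩
  refine Finset.mem_image.2 ⟨p, hp, ?_⟩
  have h0 : p.1 v ≠ 0 := hv ⟨p, hp⟩
  rw [map_smul, smul_eq_mul] at h
  rw [← h]
  field_simp

/-- complements of finite unions of affine hyperplanes -/
def cofF (k : Type u) [Field k] (V : Type u) [AddCommGroup V] [Module k V] : Filter V where
  sets := {U | ∃ s : Finset ((V →ₗ[k] k) × k), (∀ p ∈ s, p.1 ≠ 0) ∧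
    ∀ β, (∀ p ∈ s, p.1 β ≠ p.2) → β ∈ U}
  univ_sets := ⟨∅, by simp, by simp⟩
  sets_of_superset := by
    rintro U W ⟨s, h1, h2⟩ hUW
    exact ⟨s, h1, fun β hβ => hUW (h2 β hβ)⟩
  inter_sets := by
    classical
    rintro U W ⟨s, h1, h2⟩ ⟨t, h3, h4⟩
    refine ⟨s ∪ t, fun p hp => ?_, fun β hβ => ⟨h2 β fun p hp => hβ p ?_, h4 β fun p hp => hβ p ?_⟩⟩
    · rcases Finset.mem_union.1 hp with h | h
      · exact h1 p h
      · exact h3 p h
    · exact Finset.mem_union_left _ hp
    · exact Finset.mem_union_right _ hp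

end A6

theorem genF_neBot [Infinite k] : (genF k V).NeBot := by
  have h1 : (A6.cofF k V).NeBot := by
    rw [← Filter.forall_mem_nonempty_iff_neBot]
    rintro U ⟨s, h1, h2⟩
    obtain ⟨β, hβ⟩ := A6.exists_avoid s h1
    exact ⟨β, h2 β hβ⟩
  have h2 : A6.cofF k V ≤ genF k V := by
    unfold genF
    refine le_iInf fun φ => le_iInf fun hφ => le_iInf fun c => ?_
    rw [Filter.le_principal_iff]
    refine ⟨{(φ, c)}, by simpa using hφ, fun β hβ => ?_⟩
    simpa using hβ
  exact Filter.neBot_of_le h2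

theorem eventually_ne {W : Type u} [AddCommGroup W] [Module k W] (φ : V →ₗ[k] W) (hφ : φ ≠ 0)
    (c : W) : ∀ᶠ β in genF k V, φ β ≠ c := by
  obtain ⟨v, hv⟩ : ∃ v, φ v ≠ 0 := by
    by_contra h
    push Not at h
    exact hφ (LinearMap.ext h)
  obtain ⟨ψ, hψ⟩ := Module.Projective.exists_dual_ne_zero k hv
  have h0 : ψ ∘ₗ φ ≠ 0 := fun h => hψ (by simpa using LinearMap.congr_fun h v)
  have h1 : genF k V ≤ Filter.principal {β | (ψ ∘ₗ φ) β ≠ ψ c} := by
    unfold genF
    exact iInf_le_of_le (ψ ∘ₗ φ) (iInf_le_of_le h0 (iInf_le _ (ψ c)))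
  rw [Filter.le_principal_iff] at h1
  filter_upwards [h1] with β hβ h
  exact hβ (by simp [h])

theorem RowGen.mono {n : ℕ} {Q Q' : (ℕ → V) → Prop} (h : RowGen k n Q) (h' : ∀ A, Q A → Q' A) :
    RowGen k n Q' := by
  obtain ⟨P, h0, h1, h2⟩ := h
  exact ⟨P, h0, h1, fun A hA => h' A (h2 A hA)⟩

theorem RowGen.and {n : ℕ} {Q Q' : (ℕ → V) → Prop} (h : RowGen k n Q) (h' : RowGen k n Q') :
    RowGen k n fun A => Q A ∧ Q' A := by
  obtain ⟨P, h0, h1, h2⟩ := h
  obtain ⟨P', h0', h1', h2'⟩ := h'
  exact ⟨fun r A => P r A ∧ P' r A, fun A => ⟨h0 A, h0' A⟩,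
    fun r hr A hA => (h1 r hr A hA.1).and (h1' r hr A hA.2),
    fun A hA => ⟨h2 A hA.1, h2' A hA.2⟩⟩

theorem RowGen.all {n : ℕ} {ι : Sort*} [Finite ι] {Q : ι → (ℕ → V) → Prop}
    (h : ∀ i, RowGen k n (Q i)) : RowGen k n fun A => ∀ i, Q i A := by
  choose P h0 h1 h2 using h
  exact ⟨fun r A => ∀ i, P i r A, fun A i => h0 i A,
    fun r hr A hA => Filter.eventually_all.2 fun i => h1 i r hr A (hA i),
    fun A hA i => h2 i A (hA i)⟩

theorem RowGen.exists [Infinite k] {n : ℕ} {Q : (ℕ → V) → Prop} (h : RowGen k n Q) : ∃ A, Q A := by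
  obtain ⟨P, h0, h1, h2⟩ := h
  have key : ∀ r, r ≤ n → ∃ A, P r A := by
    intro r
    induction r with
    | zero => exact fun _ => ⟨fun _ => 0, h0 _⟩
    | succ r ih =>
      intro hr
      obtain ⟨A, hA⟩ := ih (by omega)
      have := genF_neBot (k := k) (V := V)
      obtain ⟨β, hβ⟩ := (h1 r (by omega) A hA).exists
      exact ⟨_, hβ⟩
  obtain ⟨A, hA⟩ := key n le_rfl
  exact ⟨A, h2 A hA⟩

namespace A6

/-- Generic rows span the image of a linear map of small rank. -/
theorem gen_span {W : Type u} [AddCommGroup W] [Module k W] [FiniteDimensional k V]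
    (Φ : V →ₗ[k] W) (n : ℕ) (h : Module.finrank k (LinearMap.range Φ) ≤ n) :
    RowGen k n fun A : ℕ → V =>
      ∀ β, Φ β ∈ Submodule.span k {w | ∃ j < n, w = Φ (A j)} := by
  let S : ℕ → (ℕ → V) → Submodule k W := fun r A => Submodule.span k {w | ∃ j < r, w = Φ (A j)}
  have hS : ∀ r A, S r A ≤ LinearMap.range Φ := by
    intro r A
    refine Submodule.span_le.2 ?_
    rintro w ⟨j, -, rfl⟩
    exact ⟨A j, rfl⟩
  have hfin : ∀ r A, FiniteDimensional k (S r A) := fun r A =>
    Submodule.finiteDimensional_of_le (hS r A)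
  have hup : ∀ r A β, S r A ≤ S (r + 1) (Function.update A r β) := by
    intro r A β
    refine Submodule.span_mono ?_
    rintro w ⟨j, hj, rfl⟩
    exact ⟨j, by omega, by rw [Function.update_of_ne (by omega)]⟩
  have hnew : ∀ r A β, Φ β ∈ S (r + 1) (Function.update A r β) := by
    intro r A β
    exact Submodule.subset_span ⟨r, by omega, by simp⟩
  refine ⟨fun r A => LinearMap.range Φ ≤ S r A ∨ r ≤ Module.finrank k (S r A),
    fun A => Or.inr (Nat.zero_le _), ?_, ?_⟩
  · intro r _ A hA
    by_cases h1 : LinearMap.range Φ ≤ S r A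
    · exact Filter.Eventually.of_forall fun β => Or.inl (h1.trans (hup r A β))
    · have h2 : r ≤ Module.finrank k (S r A) := hA.resolve_left h1
      have h3 : (S r A).mkQ ∘ₗ Φ ≠ 0 := by
        intro h0
        apply h1
        rintro _ ⟨β, rfl⟩
        have := LinearMap.congr_fun h0 β
        simpa using this
      filter_upwards [eventually_ne _ h3 0] with β hβ
      right
      have h4 : Φ β ∉ S r A := by simpa using hβ
      have h5 : S r A < S (r + 1) (Function.update A r β) :=
        lt_of_le_of_ne (hup r A β) fun e => h4 (e ▸ hnew r A β)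
      have := hfin (r + 1) (Function.update A r β)
      have := Submodule.finrank_lt_finrank_of_lt h5
      omega
  · intro A hA β
    rcases hA with h1 | h1
    · exact h1 ⟨β, rfl⟩
    · have : S n A = LinearMap.range Φ :=
        Submodule.eq_of_le_of_finrank_le (hS n A) (h.trans h1)
      change Φ β ∈ S n A
      rw [this]
      exact ⟨β, rfl⟩

theorem exists_both {O : Type u} [CommRing O] [IsLocalRing O] {σ : Type} (x y : σ → O)
    (hx : ∃ i, IsUnit (x i)) (hy : ∃ i, IsUnit (y i))
    (hne : Ideal.span (Set.range fun ij : σ × σ => x ij.1 * y ij.2 - x ij.2 * y ij.1) ≠ ⊤) :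
    ∃ m, IsUnit (x m) ∧ IsUnit (y m) := by
  by_contra h
  push Not at h
  obtain ⟨i, hi⟩ := hx
  obtain ⟨j, hj⟩ := hy
  apply hne
  refine Ideal.eq_top_of_isUnit_mem _ (Ideal.subset_span ⟨(i, j), rfl⟩) ?_
  by_contra hu
  have h1 : x i * y j - x j * y i ∈ maximalIdeal O := hu
  have h2 : x j * y i ∈ maximalIdeal O := Ideal.mul_mem_left _ _ (h i hi)
  have h3 : x i * y j ∈ maximalIdeal O := by
    have := Ideal.add_mem _ h1 h2
    simpa using this
  exact h3 (hi.mul hj)

theorem nak_alg {O : Type u} [CommRing O] [IsLocalRing O] [Algebra k O]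
    (hc : ∀ a : O, ∃ t, a - algebraMap k O t ∈ maximalIdeal O) {σ : Type} [Fintype σ]
    (x y : σ → O) (m : σ) (hxm : IsUnit (x m)) (g : List O)
    (hI : Ideal.ofList g =
      Ideal.span (Set.range fun ij : σ × σ => x ij.1 * y ij.2 - x ij.2 * y ij.1)) :
    RowGen k (g.length + 1) fun A : ℕ → σ → k =>
      Ideal.span (Set.range fun ij : Fin (g.length + 1) × Fin (g.length + 1) =>
        Fintype.linearCombination k x (A ij.1) * Fintype.linearCombination k y (A ij.2) -
          Fintype.linearCombination k x (A ij.2) * Fintype.linearCombination k y (A ij.1)) =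
        Ideal.ofList g := by
  classical
  set I := Ideal.ofList g with hIdef
  let θ : σ → O := fun l => x l * y m - x m * y l
  have hθ : ∀ l, θ l ∈ I := fun l => hI ▸ Ideal.subset_span ⟨(l, m), rfl⟩
  let X : (σ → k) →ₗ[k] O := Fintype.linearCombination k x
  let Y : (σ → k) →ₗ[k] O := Fintype.linearCombination k y
  let T : (σ → k) →ₗ[k] O := Fintype.linearCombination k θ
  have hT : ∀ β, T β = X β * y m - x m * Y β := by
    intro β
    simp only [T, X, Y, θ, Fintype.linearCombination_apply, Finset.sum_mul, Finset.mul_sum,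
      ← Finset.sum_sub_distrib, smul_sub, smul_mul_assoc, mul_smul_comm]
  have hTI : ∀ β, T β ∈ I := by
    intro β
    simp only [T, Fintype.linearCombination_apply]
    refine Ideal.sum_mem _ fun l _ => ?_
    rw [Algebra.smul_def]
    exact Ideal.mul_mem_left _ _ (hθ l)
  let M1 : Submodule k O := (maximalIdeal O).restrictScalars k
  let M2 : Submodule k O := (maximalIdeal O * I).restrictScalars k
  let Φ : (σ → k) →ₗ[k] (O ⧸ M1) × (O ⧸ M2) := (M1.mkQ ∘ₗ X).prod (M2.mkQ ∘ₗ T)
  have hrank : Module.finrank k (LinearMap.range Φ) ≤ g.length + 1 := by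
    let b : Option (Fin g.length) → (O ⧸ M1) × (O ⧸ M2) := fun o =>
      match o with
      | none => (M1.mkQ 1, 0)
      | some i => (0, M2.mkQ g[i])
    have h1 : ∀ a : O, ((M1.mkQ a, 0) : (O ⧸ M1) × (O ⧸ M2)) ∈ Submodule.span k (Set.range b) := by
      intro a
      obtain ⟨t, ht⟩ := hc a
      have e : M1.mkQ a = t • M1.mkQ 1 := by
        rw [← map_smul, Submodule.mkQ_apply, Submodule.mkQ_apply, Submodule.Quotient.eq,
          ← Algebra.algebraMap_eq_smul_one]
        exact ht
      have e2 : ((M1.mkQ a, 0) : (O ⧸ M1) × (O ⧸ M2)) = t • b none := by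
        simp only [b, e, Prod.smul_mk, smul_zero]
      rw [e2]
      exact Submodule.smul_mem _ _ (Submodule.subset_span ⟨none, rfl⟩)
    have h2 : ∀ z ∈ I, ((0, M2.mkQ z) : (O ⧸ M1) × (O ⧸ M2)) ∈ Submodule.span k (Set.range b) := by
      intro z hz
      induction hz using Submodule.span_induction with
      | mem z hz =>
        obtain ⟨i, rfl⟩ := List.mem_iff_get.1 hz
        exact Submodule.subset_span ⟨some i, rfl⟩
      | zero => rw [map_zero]; exact Submodule.zero_mem _
      | add z w _ _ h1 h2 =>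
        have := Submodule.add_mem _ h1 h2
        simpa using this
      | smul a z hz h =>
        obtain ⟨t, ht⟩ := hc a
        have e : M2.mkQ (a • z) = t • M2.mkQ z := by
          rw [← map_smul, Submodule.mkQ_apply, Submodule.mkQ_apply, Submodule.Quotient.eq,
            Algebra.smul_def t, smul_eq_mul, ← sub_mul]
          exact Ideal.mul_mem_mul ht hz
        have := Submodule.smul_mem _ t h
        rw [e]
        simpa using this
    have h3 : LinearMap.range Φ ≤ Submodule.span k (Set.range b) := by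
      rintro _ ⟨β, rfl⟩
      have := Submodule.add_mem _ (h1 (X β)) (h2 (T β) (hTI β))
      simpa [Φ] using this
    have : FiniteDimensional k (Submodule.span k (Set.range b)) :=
      FiniteDimensional.span_of_finite k (Set.finite_range b)
    refine (Submodule.finrank_mono h3).trans ?_
    have := finrank_range_le_card (R := k) b
    simpa [Set.finrank] using this
  refine (gen_span Φ _ hrank).mono fun A hA => ?_
  set J := Ideal.span (Set.range fun ij : Fin (g.length + 1) × Fin (g.length + 1) =>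
        X (A ij.1) * Y (A ij.2) - X (A ij.2) * Y (A ij.1)) with hJ
  have hD : ∀ β β', X β' * T β - X β * T β' = x m * (X β * Y β' - X β' * Y β) := by
    intro β β'
    rw [hT, hT]; ring
  have hunit : ∀ (K : Ideal O) (z : O), x m * z ∈ K → z ∈ K := fun K z hz =>
    (Ideal.unit_mul_mem_iff_mem K hxm).1 hz
  have hJI : J ≤ I := by
    refine Ideal.span_le.2 ?_
    rintro _ ⟨ij, rfl⟩
    apply hunit
    rw [← hD]
    exact Ideal.sub_mem _ (Ideal.mul_mem_left _ _ (hTI _)) (Ideal.mul_mem_left _ _ (hTI _))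
  refine le_antisymm hJI ?_
  -- every row is a combination of the chosen rows up to the kernel
  have hdec : ∀ β, ∃ γ ∈ Submodule.span k {v | ∃ j < g.length + 1, v = A j},
      X (β - γ) ∈ maximalIdeal O ∧ T (β - γ) ∈ maximalIdeal O * I := by
    intro β
    have h1 : Submodule.span k {w | ∃ j < g.length + 1, w = Φ (A j)} ≤
        (Submodule.span k {v | ∃ j < g.length + 1, v = A j}).map Φ := by
      refine Submodule.span_le.2 ?_
      rintro _ ⟨j, hj, rfl⟩
      exact ⟨A j, Submodule.subset_span ⟨j, hj, rfl⟩, rfl⟩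
    obtain ⟨γ, hγ, e⟩ := h1 (hA β)
    refine ⟨γ, hγ, ?_⟩
    have e0 : Φ (β - γ) = 0 := by rw [map_sub, e, sub_self]
    have e1 : M1.mkQ (X (β - γ)) = 0 := congrArg Prod.fst e0
    have e2 : M2.mkQ (T (β - γ)) = 0 := congrArg Prod.snd e0
    rw [Submodule.mkQ_apply, Submodule.Quotient.mk_eq_zero] at e1 e2
    exact ⟨e1, e2⟩
  have hJJ : ∀ γ ∈ Submodule.span k {v | ∃ j < g.length + 1, v = A j},
      ∀ γ' ∈ Submodule.span k {v | ∃ j < g.length + 1, v = A j},
        X γ' * T γ - X γ * T γ' ∈ J := by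
    intro γ hγ γ' hγ'
    induction hγ using Submodule.span_induction with
    | mem v hv =>
      obtain ⟨i, hi, rfl⟩ := hv
      induction hγ' using Submodule.span_induction with
      | mem v hv =>
        obtain ⟨j, hj, rfl⟩ := hv
        rw [hD]
        exact Ideal.mul_mem_left _ _ (Ideal.subset_span ⟨(⟨i, hi⟩, ⟨j, hj⟩), rfl⟩)
      | zero => simp
      | add v w _ _ h1 h2 =>
        have := Ideal.add_mem _ h1 h2
        rw [map_add, map_add]
        rwa [show X v * T (A i) - X (A i) * T v + (X w * T (A i) - X (A i) * T w) =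
          (X v + X w) * T (A i) - X (A i) * (T v + T w) by ring] at this
      | smul a v _ h =>
        have := Ideal.mul_mem_left _ (algebraMap k O a) h
        rw [map_smul, map_smul, Algebra.smul_def, Algebra.smul_def]
        rwa [show algebraMap k O a * (X v * T (A i) - X (A i) * T v) =
          algebraMap k O a * X v * T (A i) - X (A i) * (algebraMap k O a * T v) by ring] at this
    | zero => simp
    | add v w _ _ h1 h2 =>
      have := Ideal.add_mem _ h1 h2
      rw [map_add, map_add]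
      rwa [show X γ' * T v - X v * T γ' + (X γ' * T w - X w * T γ') =
        X γ' * (T v + T w) - (X v + X w) * T γ' by ring] at this
    | smul a v _ h =>
      have := Ideal.mul_mem_left _ (algebraMap k O a) h
      rw [map_smul, map_smul, Algebra.smul_def, Algebra.smul_def]
      rwa [show algebraMap k O a * (X γ' * T v - X v * T γ') =
        X γ' * (algebraMap k O a * T v) - algebraMap k O a * X v * T γ' by ring] at this
  have hall : ∀ β β', X β' * T β - X β * T β' ∈ J ⊔ maximalIdeal O * I := by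
    intro β β'
    obtain ⟨γ, hγ, h1, h2⟩ := hdec β
    obtain ⟨γ', hγ', h1', h2'⟩ := hdec β'
    have e : X β' * T β - X β * T β' = (X γ' * T γ - X γ * T γ') +
        (X β' * T (β - γ) - X (β - γ) * T β' + X (β' - γ') * T γ - X γ * T (β' - γ')) := by
      simp only [map_sub]; ring
    rw [e]
    refine Submodule.add_mem_sup (hJJ γ hγ γ' hγ') ?_
    refine Ideal.sub_mem _ (Ideal.add_mem _ (Ideal.sub_mem _ ?_ ?_) ?_) ?_
    · exact Ideal.mul_mem_left _ _ h2
    · exact Ideal.mul_mem_mul h1 (hTI _)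
    · exact Ideal.mul_mem_mul h1' (hTI _)
    · exact Ideal.mul_mem_left _ _ h2'
  refine Submodule.le_of_le_smul_of_le_jacobson_bot (I := maximalIdeal O)
    (Submodule.fg_span (List.finite_toSet g)) (maximalIdeal_le_jacobson ⊥) ?_
  refine hI.le.trans (Ideal.span_le.2 ?_)
  rintro _ ⟨ij, rfl⟩
  apply hunit
  have := hall (Pi.single ij.1 1) (Pi.single ij.2 1)
  rw [hD] at this
  simpa [X, Y, Fintype.linearCombination_apply_single] using this

end A6

/-- A generic linear projection is unramified at a given point. -/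
theorem rowGen_nak {O : Type u} [CommRing O] [IsLocalRing O] (c : k →+* O)
    (hc : ∀ a : O, ∃ t, a - c t ∈ maximalIdeal O) {σ : Type} [Fintype σ] (x y : σ → O)
    (hx : ∃ i, IsUnit (x i)) (hy : ∃ i, IsUnit (y i)) (d : ℕ) (g : List O) (hg : g.length = d)
    (hI : Ideal.ofList g =
      Ideal.span (Set.range fun ij : σ × σ => x ij.1 * y ij.2 - x ij.2 * y ij.1))
    (hne : Ideal.ofList g ≠ ⊤) :
    RowGen k (d + 1) fun A : ℕ → σ → k =>
      Ideal.span (Set.range fun ij : Fin (d + 1) × Fin (d + 1) =>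
        (∑ l, c (rows d A ij.1 l) * x l) * (∑ l, c (rows d A ij.2 l) * y l) -
          (∑ l, c (rows d A ij.2 l) * x l) * (∑ l, c (rows d A ij.1 l) * y l)) =
        Ideal.ofList g := by
  subst hg
  let _ := c.toAlgebra
  obtain ⟨m, hm, -⟩ := A6.exists_both x y hx hy (hI ▸ hne)
  exact A6.nak_alg hc x y m hm g hI

end Pool.Agent.P.MP_638e8a_ag.Cyc
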