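import Pool.Agent.P.MP_638e8a_ag.ChA8b
import Pool.Agent.P.MP_638e8a_ag.ChBase

/-!
Task CHOW A8: tensor products of domains and fields over an algebraically closed field.
-/

open scoped TensorProduct

open IsLocalRing

universe u

namespace Pool.Agent.P.MP_638e8a_ag.Cyc

variable {k : Type u} [Field k] [IsAlgClosed k]

theorem tensor_zero_of_finiteType (A B : Type u) [CommRing A] [IsDomain A] [Algebra k A]
    [Algebra.FiniteType k A] [CommRing B] [IsDomain B] [Algebra k B] (s t : A ⊗[k] B)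
    (h : s * t = 0) : s = 0 ∨ t = 0 := by
  classical
  let β := Module.Basis.ofVectorSpace k B
  let γ := Algebra.TensorProduct.basis A β
  have : IsJacobsonRing A := isJacobsonRing_of_finiteType (A := k)
  by_contra hne
  push Not at hne
  obtain ⟨i, hi⟩ : ∃ i, γ.repr s i ≠ 0 := by
    by_contra hh
    push Not at hh
    exact hne.1 (γ.repr.map_eq_zero_iff.1 (Finsupp.ext hh))
  obtain ⟨j, hj⟩ : ∃ j, γ.repr t j ≠ 0 := by
    by_contra hh
    push Not at hh
    exact hne.2 (γ.repr.map_eq_zero_iff.1 (Finsupp.ext hh))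
  have hJ : (⊥ : Ideal A).jacobson = ⊥ :=
    IsJacobsonRing.out inferInstance Ideal.isPrime_bot.isRadical
  refine mul_ne_zero hi hj ?_
  rw [← Ideal.mem_bot, ← hJ, Ideal.jacobson, Ideal.mem_sInf]
  rintro m ⟨-, hm⟩
  let := Ideal.Quotient.field m
  have : Module.Finite k (A ⧸ m) := finite_of_finite_type_of_isJacobsonRing k (A ⧸ m)
  let e : k ≃ₐ[k] (A ⧸ m) := AlgEquiv.ofBijective (Algebra.ofId k (A ⧸ m))
    IsAlgClosed.algebraMap_bijective_of_isIntegral
  let φ : A →ₐ[k] k := e.symm.toAlgHom.comp (Ideal.Quotient.mkₐ k m)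
  have hφ : ∀ a, φ a = 0 → a ∈ m := fun a ha => by
    rw [← Ideal.Quotient.eq_zero_iff_mem]
    exact e.symm.injective (ha.trans (map_zero _).symm)
  let Φ : A ⊗[k] B →ₐ[k] B :=
    Algebra.TensorProduct.lift ((Algebra.ofId k B).comp φ) (AlgHom.id k B) fun _ _ => .all _ _
  have hΦ : ∀ (x : A ⊗[k] B) i, β.repr (Φ x) i = φ (γ.repr x i) := by
    intro x i
    induction x with
    | zero => simp
    | add x y hx hy => simp [hx, hy]
    | tmul a b =>
      have : Φ (a ⊗ₜ b) = φ a • b := by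
        simp [Φ, Algebra.smul_def]
      rw [this, Algebra.TensorProduct.basis_repr_tmul]
      simp
  have h0 : Φ s * Φ t = 0 := by rw [← map_mul, h, map_zero]
  rcases mul_eq_zero.1 h0 with h1 | h1
  · refine m.mul_mem_right _ (hφ _ ?_)
    rw [← hΦ, h1]
    simp
  · refine m.mul_mem_left _ (hφ _ ?_)
    rw [← hΦ, h1]
    simp

omit [IsAlgClosed k] in
theorem exists_fg_tensor {A B : Type u} [CommRing A] [Algebra k A] [CommRing B] [Algebra k B]
    (s : A ⊗[k] B) : ∃ S : Finset A, ∀ C : Subalgebra k A, (S : Set A) ⊆ C →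
      ∃ s0 : C ⊗[k] B, Algebra.TensorProduct.map C.val (AlgHom.id k B) s0 = s := by
  classical
  induction s with
  | zero => exact ⟨∅, fun C _ => ⟨0, map_zero _⟩⟩
  | tmul a b => exact ⟨{a}, fun C hC => ⟨(⟨a, hC (by simp)⟩ : C) ⊗ₜ b, by simp⟩⟩
  | add x y hx hy =>
    obtain ⟨S, hS⟩ := hx
    obtain ⟨T, hT⟩ := hy
    refine ⟨S ∪ T, fun C hC => ?_⟩
    rw [Finset.coe_union, Set.union_subset_iff] at hC
    obtain ⟨x0, rfl⟩ := hS C hC.1
    obtain ⟨y0, rfl⟩ := hT C hC.2
    exact ⟨x0 + y0, map_add _ _ _⟩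

theorem tensor_isDomain (A B : Type u) [CommRing A] [IsDomain A] [Algebra k A] [CommRing B]
    [IsDomain B] [Algebra k B] : IsDomain (A ⊗[k] B) := by
  classical
  have : Nontrivial (A ⊗[k] B) :=
    Algebra.TensorProduct.nontrivial_of_algebraMap_injective_of_isDomain k A B
      (algebraMap k A).injective (algebraMap k B).injective
  have : NoZeroDivisors (A ⊗[k] B) := ⟨fun {s t} h => by
    obtain ⟨S, hS⟩ := exists_fg_tensor s
    obtain ⟨T, hT⟩ := exists_fg_tensor t
    let C := Algebra.adjoin k ((S ∪ T : Finset A) : Set A)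
    have hC : ((S ∪ T : Finset A) : Set A) ⊆ C := Algebra.subset_adjoin
    have : Algebra.FiniteType k C :=
      (Subalgebra.fg_iff_finiteType C).1 (Subalgebra.fg_adjoin_finset _)
    rw [Finset.coe_union, Set.union_subset_iff] at hC
    obtain ⟨s0, rfl⟩ := hS C hC.1
    obtain ⟨t0, rfl⟩ := hT C hC.2
    have hinj : Function.Injective (Algebra.TensorProduct.map C.val (AlgHom.id k B)) :=
      TensorProduct.map_injective_of_flat_flat C.val.toLinearMap LinearMap.id
        Subtype.val_injective Function.injective_id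
    rw [← map_mul, map_eq_zero_iff _ hinj] at h
    rcases tensor_zero_of_finiteType C B s0 t0 h with h1 | h1
    · exact Or.inl (by rw [h1, map_zero])
    · exact Or.inr (by rw [h1, map_zero])⟩
  exact NoZeroDivisors.to_isDomain _

end Pool.Agent.P.MP_638e8a_ag.Cyc
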