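import Pool.Agent.P.MP_638e8a_ag.ChBase

/-!
Task CHOW A8b: composita of linearly disjoint fields.
-/

open scoped TensorProduct

open IsLocalRing

universe u

namespace Pool.Agent.P.MP_638e8a_ag.Cyc

variable {k : Type u} [Field k] [IsAlgClosed k]

/-- `F` is the fraction field of `K ⊗ M`. -/
def IsCompositum (k : Type u) [Field k] {K M F : Type u} [Field K] [Field M] [Field F]
    [Algebra k K] [Algebra k M] [Algebra k F] (a : K →ₐ[k] F) (b : M →ₐ[k] F) : Prop :=
  Function.Injective (Algebra.TensorProduct.productMap a b) ∧
    ∀ c : F, ∃ s t, Algebra.TensorProduct.productMap a b t ≠ 0 ∧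
      Algebra.TensorProduct.productMap a b s = c * Algebra.TensorProduct.productMap a b t

variable {K M F K' M' F' : Type u} [Field K] [Field M] [Field F] [Algebra k K] [Algebra k M]
  [Algebra k F] [Field K'] [Field M'] [Field F'] [Algebra k K'] [Algebra k M'] [Algebra k F']

omit [IsAlgClosed k] in
theorem IsCompositum.algInd {a : K →ₐ[k] F} {b : M →ₐ[k] F} (h : IsCompositum k a b)
    [Algebra K F] (hK : ∀ x, algebraMap K F x = a x) {ι : Type u} {y : ι → M}
    (hy : AlgebraicIndependent k y) : AlgebraicIndependent K fun j => b (y j) := by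
  have hl : Function.Injective (Algebra.TensorProduct.map (AlgHom.id k K)
      (MvPolynomial.aeval y : MvPolynomial ι k →ₐ[k] M)) :=
    Module.Flat.lTensor_preserves_injective_linearMap (M := K)
      (MvPolynomial.aeval y : MvPolynomial ι k →ₐ[k] M).toLinearMap hy
  have hcomp : ∀ t : K ⊗[k] MvPolynomial ι k,
      MvPolynomial.aeval (fun j => b (y j)) (MvPolynomial.algebraTensorAlgEquiv k K t) =
        Algebra.TensorProduct.productMap a b (Algebra.TensorProduct.map (AlgHom.id k K)
          (MvPolynomial.aeval y : MvPolynomial ι k →ₐ[k] M) t) := by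
    intro t
    induction t using TensorProduct.induction_on with
    | zero => simp
    | add s t hs ht => simp only [map_add, hs, ht]
    | tmul x p =>
      rw [MvPolynomial.algebraTensorAlgEquiv_tmul, map_smul, Algebra.smul_def, hK,
        Algebra.TensorProduct.map_tmul, Algebra.TensorProduct.productMap_apply_tmul]
      congr 1
      induction p using MvPolynomial.induction_on with
      | C r => simp [hK]
      | add p q hp hq => simp only [map_add, hp, hq]
      | mul_X p i hp => simp only [map_mul, hp, MvPolynomial.map_X, MvPolynomial.aeval_X]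
  intro p q hpq
  obtain ⟨s, rfl⟩ := (MvPolynomial.algebraTensorAlgEquiv k K).surjective p
  obtain ⟨t, rfl⟩ := (MvPolynomial.algebraTensorAlgEquiv k K).surjective q
  rw [hcomp, hcomp] at hpq
  rw [hl (h.1 hpq)]

omit [IsAlgClosed k] in
theorem IsCompositum.isAlg {a : K →ₐ[k] F} {b : M →ₐ[k] F} (h : IsCompositum k a b)
    [Algebra K F] [IsScalarTower k K F] (hK : ∀ x, algebraMap K F x = a x) {ι : Type u}
    {y : ι → M} (hy : Algebra.IsAlgebraic (Algebra.adjoin k (Set.range y)) M) :
    Algebra.IsAlgebraic (Algebra.adjoin K (Set.range fun j => b (y j))) F := by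
  set S := Algebra.adjoin K (Set.range fun j => b (y j)) with hS
  have hmem : ∀ z ∈ Algebra.adjoin k (Set.range y), b z ∈ S := by
    intro z hz
    induction hz using Algebra.adjoin_induction with
    | mem z hz =>
      obtain ⟨j, rfl⟩ := hz
      exact Algebra.subset_adjoin ⟨j, rfl⟩
    | algebraMap r =>
      rw [AlgHom.commutes, IsScalarTower.algebraMap_apply k K F]
      exact S.algebraMap_mem _
    | add z w _ _ hz hw => rw [map_add]; exact S.add_mem hz hw
    | mul z w _ _ hz hw => rw [map_mul]; exact S.mul_mem hz hw
  let f : Algebra.adjoin k (Set.range y) →+* S :=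
    ((b : M →+* F).comp (Algebra.adjoin k (Set.range y)).val.toRingHom).codRestrict S
      fun z => hmem z z.2
  have hf : Function.Injective f := fun z w hzw =>
    Subtype.ext (b.toRingHom.injective (congrArg Subtype.val hzw))
  have hb : ∀ m, IsAlgebraic S (b m) := fun m =>
    (hy.isAlgebraic m).ringHom_of_comp_eq f (b : M →+* F) hf rfl
  have ha : ∀ x, IsAlgebraic S (a x) := fun x => by
    rw [← hK]
    exact isAlgebraic_algebraMap (⟨algebraMap K F x, S.algebraMap_mem x⟩ : S)
  have hP : ∀ t, IsAlgebraic S (Algebra.TensorProduct.productMap a b t) := by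
    intro t
    induction t using TensorProduct.induction_on with
    | zero => rw [map_zero]; exact isAlgebraic_zero
    | add s t hs ht => rw [map_add]; exact hs.add ht
    | tmul x m =>
      rw [Algebra.TensorProduct.productMap_apply_tmul]
      exact (ha x).mul (hb m)
  refine ⟨fun c => ?_⟩
  obtain ⟨s, t, ht, hst⟩ := h.2 c
  have : c = Algebra.TensorProduct.productMap a b s *
      (Algebra.TensorProduct.productMap a b t)⁻¹ := by
    rw [hst, mul_inv_cancel_right₀ ht]
  rw [this]
  exact (hP s).mul (hP t).inv

omit [IsAlgClosed k] in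
theorem IsCompositum.trdeg {a : K →ₐ[k] F} {b : M →ₐ[k] F} (h : IsCompositum k a b) :
    Algebra.trdeg k F = Algebra.trdeg k K + Algebra.trdeg k M := by
  let _ : Algebra K F := (a : K →+* F).toAlgebra
  have hK : ∀ x, algebraMap K F x = a x := fun _ => rfl
  have : IsScalarTower k K F := IsScalarTower.of_algebraMap_eq fun r => (a.commutes r).symm
  obtain ⟨s, hs⟩ := exists_isTranscendenceBasis k M
  have hb : IsTranscendenceBasis K fun j : s => b j :=
    (h.algInd hK hs.1).isTranscendenceBasis_iff_isAlgebraic.mpr (h.isAlg hK hs.isAlgebraic)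
  rw [← trdeg_add_eq k K (A := F), ← hb.cardinalMk_eq_trdeg, hs.cardinalMk_eq_trdeg]

omit [IsAlgClosed k] in
theorem IsCompositum.denom {a : K →ₐ[k] F} {b : M →ₐ[k] F} (h : IsCompositum k a b)
    {ι : Type} [Fintype ι] (c : ι → F) : ∃ (s : ι → K ⊗[k] M) (t : K ⊗[k] M),
      Algebra.TensorProduct.productMap a b t ≠ 0 ∧ ∀ i,
        Algebra.TensorProduct.productMap a b (s i) =
          c i * Algebra.TensorProduct.productMap a b t := by
  classical
  choose s t ht hst using fun i => h.2 (c i)
  refine ⟨fun i => s i * ∏ j ∈ Finset.univ.erase i, t j, ∏ j, t j, ?_, fun i => ?_⟩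
  · rw [map_prod]
    exact Finset.prod_ne_zero_iff.mpr fun j _ => ht j
  · rw [map_mul, hst, mul_assoc, ← map_mul, Finset.mul_prod_erase _ _ (Finset.mem_univ i)]

omit [IsAlgClosed k] in
theorem IsCompositum.finrank {a : K →ₐ[k] F} {b : M →ₐ[k] F} (h : IsCompositum k a b)
    {a' : K' →ₐ[k] F'} {b' : M' →ₐ[k] F'} (h' : IsCompositum k a' b') [Algebra K K']
    [IsScalarTower k K K'] [Algebra M M'] [IsScalarTower k M M'] [Algebra F F']
    [FiniteDimensional K K'] [FiniteDimensional M M']
    (ha : ∀ x, algebraMap F F' (a x) = a' (algebraMap K K' x))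
    (hb : ∀ y, algebraMap F F' (b y) = b' (algebraMap M M' y)) :
    Module.finrank F F' = Module.finrank K K' * Module.finrank M M' := by
  classical
  let e := Module.finBasis K K'
  let f := Module.finBasis M M'
  let v : Fin (Module.finrank K K') × Fin (Module.finrank M M') → F' :=
    fun p => a' (e p.1) * b' (f p.2)
  let ι : K ⊗[k] M →ₐ[k] K' ⊗[k] M' := Algebra.TensorProduct.map
    (IsScalarTower.toAlgHom k K K') (IsScalarTower.toAlgHom k M M')
  have hι : ∀ s, algebraMap F F' (Algebra.TensorProduct.productMap a b s) =
      Algebra.TensorProduct.productMap a' b' (ι s) := by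
    intro s
    induction s using TensorProduct.induction_on with
    | zero => simp
    | add s t hs ht => simp only [map_add, hs, ht]
    | tmul x m => simp [ι, ha, hb]
  have hli : LinearIndependent F v := by
    rw [Fintype.linearIndependent_iff]
    intro c hc p
    obtain ⟨s, t, ht, hst⟩ := h.denom c
    have h0 : ∑ q, ι (s q) * (e q.1 ⊗ₜ[k] f q.2) = 0 := by
      apply h'.1
      rw [map_zero, map_sum]
      have := congrArg (fun z => algebraMap F F' (Algebra.TensorProduct.productMap a b t) * z) hc
      simp only [mul_zero, Finset.mul_sum] at this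
      rw [← this]
      refine Finset.sum_congr rfl fun q _ => ?_
      rw [map_mul, ← hι, hst, Algebra.TensorProduct.productMap_apply_tmul, Algebra.smul_def,
        map_mul]
      simp only [v]
      ring
    let φ : K' ⊗[k] M' →ₗ[k] K ⊗[k] M :=
      TensorProduct.map ((e.coord p.1).restrictScalars k) ((f.coord p.2).restrictScalars k)
    have hφ : ∀ (q : Fin (Module.finrank K K') × Fin (Module.finrank M M')) (w : K ⊗[k] M),
        φ (ι w * (e q.1 ⊗ₜ[k] f q.2)) = if q = p then w else 0 := by
      intro q w
      induction w using TensorProduct.induction_on with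
      | zero => simp
      | add s t hs ht =>
        rw [map_add, add_mul, map_add, hs, ht]
        split_ifs <;> simp
      | tmul x m =>
        simp only [ι, φ, Algebra.TensorProduct.map_tmul, IsScalarTower.coe_toAlgHom',
          Algebra.TensorProduct.tmul_mul_tmul, TensorProduct.map_tmul,
          LinearMap.coe_restrictScalars, ← Algebra.smul_def, map_smul, Module.Basis.coord_apply,
          Module.Basis.repr_self, smul_eq_mul, Finsupp.single_apply, Prod.ext_iff]
        by_cases h1 : q.1 = p.1 <;> by_cases h2 : q.2 = p.2 <;> simp [h1, h2]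
    have h1 := congrArg φ h0
    rw [map_sum, map_zero] at h1
    simp only [hφ, Finset.sum_ite_eq', Finset.mem_univ, if_true] at h1
    have h2 := hst p
    rw [h1, map_zero] at h2
    exact (mul_eq_zero.mp h2.symm).resolve_right ht
  have hP : ∀ t, Algebra.TensorProduct.productMap a' b' t ∈ Submodule.span F (Set.range v) := by
    intro t
    induction t using TensorProduct.induction_on with
    | zero => rw [map_zero]; exact Submodule.zero_mem _
    | add s t hs ht => rw [map_add]; exact Submodule.add_mem _ hs ht
    | tmul x m =>
      rw [Algebra.TensorProduct.productMap_apply_tmul, ← e.sum_repr x, ← f.sum_repr m, map_sum,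
        map_sum, Finset.sum_mul_sum]
      refine Submodule.sum_mem _ fun i _ => Submodule.sum_mem _ fun j _ => ?_
      have : a' (e.repr x i • e i) * b' (f.repr m j • f j) =
          (a (e.repr x i) * b (f.repr m j)) • v (i, j) := by
        rw [Algebra.smul_def, Algebra.smul_def, Algebra.smul_def, map_mul, map_mul, map_mul, ha,
          hb]
        simp only [v]
        ring
      rw [this]
      exact Submodule.smul_mem _ _ (Submodule.subset_span ⟨(i, j), rfl⟩)
  have hsp : ⊤ ≤ Submodule.span F (Set.range v) := by
    intro c _
    obtain ⟨s, t, ht, hst⟩ := h'.2 c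
    have : FiniteDimensional F (Submodule.span F (Set.range v)) :=
      FiniteDimensional.span_of_finite F (Set.finite_range v)
    have hmap : ∀ z ∈ Submodule.span F (Set.range v),
        LinearMap.mulLeft F (Algebra.TensorProduct.productMap a' b' t) z ∈
          Submodule.span F (Set.range v) := by
      intro z hz
      induction hz using Submodule.span_induction with
      | mem z hz =>
        obtain ⟨q, rfl⟩ := hz
        have := hP (t * (e q.1 ⊗ₜ[k] f q.2))
        rwa [map_mul, Algebra.TensorProduct.productMap_apply_tmul] at this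
      | zero => rw [map_zero]; exact Submodule.zero_mem _
      | add z w _ _ hz hw => rw [map_add]; exact Submodule.add_mem _ hz hw
      | smul r z _ hz => rw [map_smul]; exact Submodule.smul_mem _ _ hz
    have hinj : Function.Injective ((LinearMap.mulLeft F
        (Algebra.TensorProduct.productMap a' b' t)).restrict hmap) := fun z w hzw =>
      Subtype.ext (mul_left_cancel₀ ht (congrArg Subtype.val hzw))
    obtain ⟨w, hw⟩ := LinearMap.injective_iff_surjective.mp hinj ⟨_, hP s⟩
    have hw' : Algebra.TensorProduct.productMap a' b' t * w.1 =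
        Algebra.TensorProduct.productMap a' b' s := congrArg Subtype.val hw
    rw [hst, mul_comm c] at hw'
    rw [← mul_left_cancel₀ ht hw']
    exact w.2
  rw [Module.finrank_eq_card_basis (Module.Basis.mk hli hsp), Fintype.card_prod,
    Fintype.card_fin, Fintype.card_fin]

end Pool.Agent.P.MP_638e8a_ag.Cyc
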