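import Pool.Agent.P.MP_638e8a_ag.ChCut0
import Pool.Agent.P.MP_638e8a_ag.ChA2
import Pool.Agent.P.MP_638e8a_ag.ChA3
import Pool.Agent.P.MP_638e8a_ag.ChDim

/-!
Task CHOW CUT: cutting a cycle by a locally complete intersection.
-/

open CategoryTheory AlgebraicGeometry IsLocalRing TopologicalSpace

universe u

namespace Pool.Agent.P.MP_638e8a_ag.Cyc

open Pool.Agent.P.MP_90138e_ag
open Pool.Agent.P.MP_90138e_ag.WeilCohomology (fstH sndH)

namespace IF

variable {k : Type u} [Field k] {S : SmProj k} {I I' : IF S.X.left} {d d' : ℕ}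
  {u v x y : S.X.left}

theorem cutX_apply {X : Scheme.{u}} [NoetherianSpace X] (J : IF X) (e : ℕ) (c : X →₀ ℚ)
    (T : Finset X) (hT : c.support ⊆ T) (z : X) :
    J.cut e c z = ∑ w ∈ T, c w * (J.cm e w z : ℚ) := by
  rw [cut, Finsupp.linearCombination_apply,
    Finsupp.sum_of_support_subset c hT (fun i a => a • J.cutPt e i) (fun _ _ => zero_smul _ _),
    Finsupp.finsetSum_apply]
  rfl

theorem cutX_mem (hy : I.Comp v y) (hx : x ≤ y) : x ∈ I.supp :=
  mem_closed_of_le I.isClosed_supp hx hy.1.1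

theorem cutX_comp (hx : (I.add I').Comp v x) (hy : I.Comp v y) (hxy : x ≤ y) : I'.Comp y x :=
  ⟨⟨(mem_supp_add.1 hx.1.1).2, hxy⟩, fun _ hz hxz =>
    hx.2 ⟨mem_supp_add.2 ⟨cutX_mem hy hz.2, hz.1⟩, hz.2.trans hy.1.2⟩ hxz⟩

theorem cutX_prime {g : List (St x)} (hg : Ideal.ofList g = I.J x) (hv : x ≤ v)
    (P : Ideal (St x)) (hP : P.IsPrime) (h1 : primeOf x v ≤ P) (h2 : Ideal.ofList g ≤ P) :
    ∃ z y, x ≤ z ∧ z ≤ y ∧ I.Comp v y ∧ P = primeOf x z := by
  obtain ⟨z, hz, rfl⟩ := exists_primeOf P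
  have h3 : z ∈ I.supp := by
    rw [mem_supp, I.spec hz, ← hg]
    refine ne_top_of_le_ne_top ?_ (Ideal.map_mono h2)
    rw [← primeOf_spec hz]
    exact primeOf_ne_top.2 le_rfl
  obtain ⟨y, h4, h5⟩ := I.exists_comp h3 ((primeOf_le_iff hz hv).1 h1)
  exact ⟨z, y, hz, h4, h5, rfl⟩

theorem cutX_main (hI : I.Gen d) (hI' : I'.Gen d') (hx : (I.add I').Comp v x)
    (hd : dm x + (d + d') = dm v) :
    (I.add I').cm (d + d') v x =
      ∑ y ∈ (I.finite_comp v).toFinset, I.cm d v y * I'.cm d' y x := by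
  classical
  obtain ⟨g, hg1, hg2⟩ := hI x (mem_supp_add.1 hx.1.1).1
  obtain ⟨g', hg1', hg2'⟩ := hI' x (mem_supp_add.1 hx.1.1).2
  have hgg : Ideal.ofList (g ++ g') = (I.add I').J x := by
    rw [Ideal.ofList_append, hg2, hg2', add_J]
  have hdm : ∀ {y}, I.Comp v y → x ≤ y → dm y = dm x + d' := fun hy hxy => by
    have h1 := hy.dm_le hI
    have h2 := (cutX_comp hx hy hxy).dm_le hI'
    omega
  let : ∀ i : {y // x ≤ y}, Algebra (St x) (St i.1) := fun i => (sp i.2).toAlgebra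
  have : ∀ i : {y // x ≤ y}, (primeOf x i.1).IsPrime := fun i => primeOf_isPrime i.2
  have : ∀ i : {y // x ≤ y}, IsLocalization.AtPrime (St i.1) (primeOf x i.1) :=
    fun i => isLocalization_sp i.2
  rw [hx.cm_eq (by rw [List.length_append, hg1, hg1']) hgg,
    emult_append_quot g g' (primeOf x v) (hx.ms hgg)
      ((I.finite_comp v).toFinset.subtype fun y => x ≤ y) (fun i : {y // x ≤ y} => primeOf x i.1)
      (fun i j hij => Subtype.ext (primeOf_inj j.2 i.2 hij)) (fun i => St i.1)]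
  · rw [← Finset.sum_filter_of_ne (p := fun y => x ≤ y) (fun y _ hy => by
      by_contra hc
      exact hy (by rw [cm_of_not_comp d' fun h => hc h.1.2, mul_zero])),
      ← Finset.sum_subtype_eq_sum_filter]
    refine Finset.sum_congr rfl fun i hi => ?_
    have hy : I.Comp v i.1 := by simpa using hi
    rw [(cutX_comp hx hy i.2).cm_eq hg1' hg2',
      hy.cm_eq (g := g.map (sp i.2)) (by rw [List.length_map, hg1])
        (by rw [I.spec i.2, ← hg2, Ideal.map_ofList]), primeOf_spec i.2 v]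
    rfl
  · intro P hP h1 h2
    obtain ⟨z, y, hz, hzy, hy, rfl⟩ := cutX_prime hg2 hx.1.2 P hP h1 h2
    have h3 := dm_mono hzy
    have h4 := hdm hy (hz.trans hzy)
    rw [dim_quot hz, hg1']
    exact_mod_cast (by omega : dm z - dm x ≤ d')
  · intro P hP h1 h2 h5
    obtain ⟨z, y, hz, hzy, hy, rfl⟩ := cutX_prime hg2 hx.1.2 P hP h1 h2
    have h3 := dm_mono hz
    have h4 := hdm hy (hz.trans hzy)
    rw [dim_quot hz, hg1'] at h5
    have h6 : dm z - dm x = d' := by exact_mod_cast h5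
    obtain rfl : z = y := eq_of_le_of_dm_le hzy (by omega)
    exact ⟨⟨z, hz⟩, by simpa using hy, rfl⟩
  · intro i hi
    have hy : I.Comp v i.1 := by simpa using hi
    rw [dim_quot i.2, hg1', hdm hy i.2, Nat.add_sub_cancel_left]

/-- Associativity: only the total intersection has to be proper. -/
theorem cut_add (hI : I.Gen d) (hI' : I'.Gen d') (h : (I.add I').Pr (d + d') v) :
    (I.add I').cut (d + d') (cy v) = I'.cut d' (I.cut d (cy v)) := by
  ext x
  rw [cut_single_apply, cutX_apply I' d' _ (I.finite_comp v).toFinset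
    (fun y hy => by simpa using comp_of_mem_cut hy)]
  simp only [cut_single_apply]
  by_cases hx : (I.add I').Comp v x
  · rw [cutX_main hI hI' hx ((h.comp_iff (hI.add hI')).1 hx).2.2]
    push_cast
    rfl
  · rw [cm_of_not_comp _ hx, Int.cast_zero]
    refine (Finset.sum_eq_zero fun y hy => ?_).symm
    have hy' : I.Comp v y := by simpa using hy
    rw [cm_of_not_comp d' (v := y) (x := x) fun hc => hx ?_, Int.cast_zero, mul_zero]
    have h1 : x ∈ (I.add I').supp := mem_supp_add.2 ⟨cutX_mem hy' hc.1.2, hc.1.1⟩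
    have h2 : x ≤ v := hc.1.2.trans hy'.1.2
    have h3 := hy'.dm_le hI
    have h4 := hc.dm_le hI'
    have h5 := h x h1 h2
    exact (h.comp_iff (hI.add hI')).2 ⟨h1, h2, by omega⟩

theorem cut_comm (hI : I.Gen d) (hI' : I'.Gen d') (h : (I.add I').Pr (d + d') v) :
    I.cut d (I'.cut d' (cy v)) = I'.cut d' (I.cut d (cy v)) := by
  rw [← cut_add hI hI' h, ← cut_add hI' hI (by rwa [add_comm I' I, Nat.add_comm d' d]),
    add_comm I' I, Nat.add_comm d' d]

end IF

end Pool.Agent.P.MP_638e8a_ag.Cyc
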