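import Pool.Agent.P.MP_638e8a_ag.ChProd2
import Pool.Agent.P.MP_638e8a_ag.ChDim

/-!
Task CHOW EXT: dimension and degree of products of subvarieties.
-/

open CategoryTheory AlgebraicGeometry IsLocalRing TopologicalSpace

open scoped TensorProduct

universe u

namespace Pool.Agent.P.MP_638e8a_ag.Cyc

open Pool.Agent.P.MP_90138e_ag
open Pool.Agent.P.MP_90138e_ag.WeilCohomology (fstH sndH)

variable {k : Type u} [Field k] [IsAlgClosed k] {S S' X X' Y Y' : SmProj k}
  {p : S.X ⟶ X.X} {q : S.X ⟶ Y.X}

/-- A ring homomorphism as a morphism between given objects. -/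
def ringHomOf {A B : CommRingCat.{u}} (f : A →+* B) : A ⟶ B := CommRingCat.ofHom f

omit [IsAlgClosed k] in
theorem fromRf_hom (x : S.X.left) :
    letI := algRf S x
    S.X.left.fromSpecResidueField x ≫ S.X.hom =
      Spec.map (CommRingCat.ofHom (algebraMap k (Rf x))) := by
  let := algRf S x
  have key : CommRingCat.ofHom (algebraMap k (Rf x)) =
      (Scheme.ΓSpecIso (CommRingCat.of k)).inv ≫ S.X.hom.appTop ≫
      S.X.left.presheaf.germ ⊤ x trivial ≫ S.X.left.residue x := by
    ext c
    change (S.X.left.residue x).hom (sp (le_refl x) (cst S x c)) = _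
    rw [sp_refl]
    rfl
  rw [key, Spec.map_comp, Spec.map_comp, Spec.map_comp,
    ← Scheme.fromSpecStalk_toSpecΓ, Scheme.fromSpecResidueField]
  simp only [Category.assoc]
  rw [← Scheme.toSpecΓ_naturality_assoc, toSpecΓ_SpecMap_ΓSpecIso_inv, Category.comp_id]

theorem exists_fac_field {W : Scheme.{u}} {L : Type u} [Field L] (ι : Spec (.of L) ⟶ W) {x : W}
    (h : ι (closedPoint L) = x) :
    ∃ ψ : W.residueField x ⟶ .of L, Spec.map ψ ≫ W.fromSpecResidueField x = ι := by
  subst h
  exact ⟨_, Scheme.descResidueField_stalkClosedPointTo_fromSpecResidueField L W ι⟩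

omit [IsAlgClosed k] in
theorem exists_rf_algHom (f : S.X ⟶ X.X) {z : S.X.left} {w : X.X.left} (h : f.left z = w) :
    letI := algRf S z
    letI := algRf X w
    ∃ a : Rf w →ₐ[k] Rf z, Spec.map (ringHomOf a.toRingHom) ≫
      X.X.left.fromSpecResidueField w = S.X.left.fromSpecResidueField z ≫ f.left := by
  subst h
  let := algRf S z
  let := algRf X (f.left z)
  refine ⟨{ rfm f.left z with commutes' := fun c => ?_ },
    Scheme.Hom.SpecMap_residueFieldMap_fromSpecResidueField f.left z⟩
  change rfm f.left z (ev le_rfl (cst X _ c)) = ev le_rfl (cst S z c)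
  rw [← stm_cst f z c]
  exact (ev_stm f.left le_rfl _).symm

theorem eq_of_fromRf {W : Scheme.{u}} {x : W} {R : CommRingCat.{u}} {α β : W.residueField x ⟶ R}
    (h : Spec.map α ≫ W.fromSpecResidueField x = Spec.map β ≫ W.fromSpecResidueField x) :
    α = β :=
  Spec.map_injective ((cancel_mono _).1 h)

/-- The function field of the product of two subvarieties is the compositum. -/
theorem IsProd.isCompositum (h : IsProd p q) (w : X.X.left) (v : Y.X.left) {z : S.X.left}
    (hz : extPt p q w v = z) :
    letI := algRf S z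
    letI := algRf X w
    letI := algRf Y v
    ∃ (a : Rf w →ₐ[k] Rf z) (b : Rf v →ₐ[k] Rf z),
      Spec.map (ringHomOf a.toRingHom) ≫ X.X.left.fromSpecResidueField w =
        S.X.left.fromSpecResidueField z ≫ p.left ∧
      Spec.map (ringHomOf b.toRingHom) ≫ Y.X.left.fromSpecResidueField v =
        S.X.left.fromSpecResidueField z ≫ q.left ∧ IsCompositum k a b := by
  let := algRf S z
  let := algRf X w
  let := algRf Y v
  obtain ⟨a, ha⟩ := exists_rf_algHom p (z := z) (w := w) (hz ▸ h.fst_ext w v)
  obtain ⟨b, hb⟩ := exists_rf_algHom q (z := z) (w := v) (hz ▸ h.snd_ext w v)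
  refine ⟨a, b, ha, hb, ?_⟩
  have := tensor_isDomain (k := k) (Rf w) (Rf v)
  let T := CommRingCat.of (Rf w ⊗[k] Rf v)
  let i : X.X.left.residueField w ⟶ T :=
    ringHomOf (Algebra.TensorProduct.includeLeftRingHom (R := k) (A := Rf w) (B := Rf v))
  let j : Y.X.left.residueField v ⟶ T :=
    ringHomOf (Algebra.TensorProduct.includeRight (R := k) (A := Rf w) (B := Rf v)).toRingHom
  have hc : (Spec.map i ≫ X.X.left.fromSpecResidueField w) ≫ X.X.hom =
      (Spec.map j ≫ Y.X.left.fromSpecResidueField v) ≫ Y.X.hom := by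
    rw [Category.assoc, Category.assoc, fromRf_hom, fromRf_hom, ← Spec.map_comp, ← Spec.map_comp]
    congr 1
    ext c
    exact ((Algebra.TensorProduct.includeRight (R := k) (A := Rf w) (B := Rf v)).commutes c).symm
  let σ : Spec T ⟶ S.X.left := IsPullback.lift h _ _ hc
  have σ1 : σ ≫ p.left = _ := IsPullback.lift_fst h _ _ hc
  have σ2 : σ ≫ q.left = _ := IsPullback.lift_snd h _ _ hc
  let φ : T ⟶ S.X.left.residueField z :=
    ringHomOf (Algebra.TensorProduct.productMap a b).toRingHom
  have hi : i ≫ φ = ringHomOf a.toRingHom := by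
    ext c
    exact Algebra.TensorProduct.productMap_left_apply a b c
  have hj : j ≫ φ = ringHomOf b.toRingHom := by
    ext c
    exact Algebra.TensorProduct.productMap_right_apply a b c
  have hφ : Spec.map φ ≫ σ = S.X.left.fromSpecResidueField z := by
    refine IsPullback.hom_ext h ?_ ?_
    · rw [Category.assoc, σ1, ← Spec.map_comp_assoc, hi, ha]
    · rw [Category.assoc, σ2, ← Spec.map_comp_assoc, hj, hb]
  let L := FractionRing (Rf w ⊗[k] Rf v)
  let e : T ⟶ CommRingCat.of L := CommRingCat.ofHom (algebraMap _ L)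
  have h0 : (Spec.map e ≫ σ) (closedPoint L) = z := by
    refine eq_of_le_of_le ?_ ?_
    · rw [← hz, h.le_ext, ← Scheme.Hom.comp_apply, ← Scheme.Hom.comp_apply, Category.assoc,
        Category.assoc, σ1, σ2]
      simp
    · have h1 : σ (Spec.map φ (closedPoint _)) = z := by
        rw [← Scheme.Hom.comp_apply, hφ, Scheme.fromSpecResidueField_apply]
      rw [← h1, Scheme.Hom.comp_apply]
      refine map_le σ ((PrimeSpectrum.le_iff_specializes _ _).1 fun t ht => ?_)
      have h2 : algebraMap _ L t = 0 := by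
        by_contra h3
        exact ht (isUnit_iff_ne_zero.2 h3)
      rw [(map_eq_zero_iff _ (IsFractionRing.injective _ L)).1 h2]
      exact Ideal.zero_mem _
  obtain ⟨ψ, hψ⟩ := exists_fac_field _ h0
  have h1 : i ≫ φ ≫ ψ = i ≫ e := by
    apply eq_of_fromRf
    rw [Spec.map_comp, Spec.map_comp, Spec.map_comp, Category.assoc, Category.assoc,
      Category.assoc, ← σ1, reassoc_of% hφ, reassoc_of% hψ]
  have h2 : j ≫ φ ≫ ψ = j ≫ e := by
    apply eq_of_fromRf
    rw [Spec.map_comp, Spec.map_comp, Spec.map_comp, Category.assoc, Category.assoc,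
      Category.assoc, ← σ2, reassoc_of% hφ, reassoc_of% hψ]
  have h3 : φ ≫ ψ = e := by
    ext1
    exact Algebra.TensorProduct.ringHom_ext (congrArg CommRingCat.Hom.hom h1)
      (congrArg CommRingCat.Hom.hom h2)
  have h4 : ∀ t, ψ.hom (Algebra.TensorProduct.productMap a b t) = algebraMap _ L t := fun t =>
    congrArg (fun g => g.hom t) h3
  have h5 : Function.Injective (Algebra.TensorProduct.productMap a b) := fun s t hst =>
    IsFractionRing.injective _ L (by rw [← h4, ← h4, hst])
  refine ⟨h5, fun c => ?_⟩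
  obtain ⟨s, t, ht, hc⟩ := IsFractionRing.div_surjective (A := Rf w ⊗[k] Rf v) (ψ.hom c : L)
  have ht' := nonZeroDivisors.ne_zero ht
  refine ⟨s, t, (map_ne_zero_iff _ h5).2 ht', ψ.hom.injective ?_⟩
  rw [map_mul, h4, h4, ← hc, div_mul_cancel₀]
  exact (map_ne_zero_iff _ (IsFractionRing.injective _ L)).2 ht'

theorem IsProd.dm_ext (h : IsProd p q) (w : X.X.left) (v : Y.X.left) :
    dm (extPt p q w v) = dm w + dm v := by
  let := algRf S (extPt p q w v)
  let := algRf X w
  let := algRf Y v
  obtain ⟨a, b, -, -, hc⟩ := h.isCompositum w v rfl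
  have := hc.trdeg
  rw [trdeg_eq_dm, trdeg_eq_dm, trdeg_eq_dm] at this
  exact_mod_cast this

theorem IsProd.dim_eq (h : IsProd p q) : S.dim = X.dim + Y.dim := by
  rw [← dm_gen, ← dm_gen, ← dm_gen, ← h.ext_gen, h.dm_ext]

theorem IsProd.map_ext (h : IsProd p q) {p' : S'.X ⟶ X'.X} {q' : S'.X ⟶ Y'.X} (h' : IsProd p' q')
    {f : X'.X ⟶ X.X} {g : Y'.X ⟶ Y.X} {F : S'.X ⟶ S.X} (h1 : F ≫ p = p' ≫ f)
    (h2 : F ≫ q = q' ≫ g) (w : X'.X.left) (v : Y'.X.left) :
    F.left (extPt p' q' w v) = extPt p q (f.left w) (g.left v) := by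
  have e1 : F.left ≫ p.left = p'.left ≫ f.left := congrArg (fun a => a.left) h1
  have e2 : F.left ≫ q.left = q'.left ≫ g.left := congrArg (fun a => a.left) h2
  refine eq_of_le_of_le (h.le_ext.2 ⟨?_, ?_⟩) ?_
  · rw [← comp_left_apply, h1, comp_left_apply, h'.fst_ext]
  · rw [← comp_left_apply, h2, comp_left_apply, h'.snd_ext]
  obtain ⟨t, ht, ht'⟩ := Scheme.Pullback.exists_preimage_pullback (f := p.left) (g := f.left)
    _ w (h.fst_ext (f.left w) (g.left v))
  obtain ⟨s, hs, hs'⟩ := Scheme.Pullback.exists_preimage_pullback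
    (f := Limits.pullback.fst p.left f.left ≫ q.left) (g := g.left) t v
    (by rw [Scheme.Hom.comp_apply, ht, h.snd_ext])
  have hc : (Limits.pullback.fst (Limits.pullback.fst p.left f.left ≫ q.left) g.left ≫
      Limits.pullback.snd p.left f.left) ≫ X'.X.hom = Limits.pullback.snd _ _ ≫ Y'.X.hom := by
    rw [← Over.w f, ← Over.w g, ← Limits.pullback.condition_assoc, Category.assoc,
      ← Limits.pullback.condition_assoc, Category.assoc, Over.w p, Over.w q]
  have l1 := IsPullback.lift_fst h' _ _ hc
  have l2 := IsPullback.lift_snd h' _ _ hc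
  generalize IsPullback.lift h' _ _ hc = l at l1 l2
  have l3 : l ≫ F.left = Limits.pullback.fst _ _ ≫ Limits.pullback.fst p.left f.left := by
    refine IsPullback.hom_ext h ?_ ?_
    · rw [Category.assoc, e1, reassoc_of% l1, Category.assoc, Limits.pullback.condition]
    · rw [Category.assoc, e2, reassoc_of% l2, Category.assoc, Limits.pullback.condition]
  have l4 : F.left (l s) = extPt p q (f.left w) (g.left v) := by
    rw [← Scheme.Hom.comp_apply, l3, Scheme.Hom.comp_apply, hs, ht]
  rw [← l4]
  refine map_le _ (h'.le_ext.2 ⟨?_, ?_⟩)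
  · rw [← Scheme.Hom.comp_apply, l1, Scheme.Hom.comp_apply, hs, ht']
  · rw [← Scheme.Hom.comp_apply, l2, hs']

theorem IsProd.residueDegree_ext (h : IsProd p q) {p' : S'.X ⟶ X'.X} {q' : S'.X ⟶ Y'.X}
    (h' : IsProd p' q') {f : X'.X ⟶ X.X} {g : Y'.X ⟶ Y.X} {F : S'.X ⟶ S.X} (h1 : F ≫ p = p' ≫ f)
    (h2 : F ≫ q = q' ≫ g) (w : X'.X.left) (v : Y'.X.left) :
    F.left.residueDegree (extPt p' q' w v) = f.left.residueDegree w * g.left.residueDegree v := by
  have e1 : F.left ≫ p.left = p'.left ≫ f.left := congrArg (fun a => a.left) h1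
  have e2 : F.left ≫ q.left = q'.left ≫ g.left := congrArg (fun a => a.left) h2
  have hm := h.map_ext h' h1 h2 w v
  by_cases h0 : f.left.residueDegree w ≠ 0 ∧ g.left.residueDegree v ≠ 0
  · generalize hz : extPt p' q' w v = z at hm
    let := algRf S (F.left z)
    let := algRf X (f.left w)
    let := algRf Y (g.left v)
    let := algRf S' z
    let := algRf X' w
    let := algRf Y' v
    obtain ⟨a, b, ha, hb, hc⟩ := h.isCompositum _ _ hm.symm
    obtain ⟨a', b', ha', hb', hc'⟩ := h'.isCompositum _ _ hz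
    let := (rfm f.left w).toAlgebra
    let := (rfm g.left v).toAlgebra
    let := (rfm F.left z).toAlgebra
    have t1 : ∀ {A B : SmProj k} (r : A.X ⟶ B.X) (x : A.X.left) (c : k),
        ev le_rfl (cst A x c) = rfm r.left x (ev le_rfl (cst B _ c)) := fun r x c => by
      rw [← stm_cst r x c]
      exact ev_stm r.left le_rfl _
    have : IsScalarTower k (Rf (f.left w)) (Rf w) := .of_algebraMap_eq (t1 f w)
    have : IsScalarTower k (Rf (g.left v)) (Rf v) := .of_algebraMap_eq (t1 g v)
    have : FiniteDimensional (Rf (f.left w)) (Rf w) :=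
      Module.finite_of_finrank_pos (Nat.pos_of_ne_zero h0.1)
    have : FiniteDimensional (Rf (g.left v)) (Rf v) :=
      Module.finite_of_finrank_pos (Nat.pos_of_ne_zero h0.2)
    have k1 : ringHomOf a.toRingHom ≫ F.left.residueFieldMap z =
        f.left.residueFieldMap w ≫ ringHomOf a'.toRingHom := by
      apply eq_of_fromRf
      rw [Spec.map_comp, Spec.map_comp, Category.assoc, Category.assoc, ha,
        Scheme.Hom.SpecMap_residueFieldMap_fromSpecResidueField_assoc,
        Scheme.Hom.SpecMap_residueFieldMap_fromSpecResidueField, reassoc_of% ha', e1]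
    have k2 : ringHomOf b.toRingHom ≫ F.left.residueFieldMap z =
        g.left.residueFieldMap v ≫ ringHomOf b'.toRingHom := by
      apply eq_of_fromRf
      rw [Spec.map_comp, Spec.map_comp, Category.assoc, Category.assoc, hb,
        Scheme.Hom.SpecMap_residueFieldMap_fromSpecResidueField_assoc,
        Scheme.Hom.SpecMap_residueFieldMap_fromSpecResidueField, reassoc_of% hb', e2]
    exact hc.finrank hc' (fun x => congrArg (fun r => r.hom x) k1)
      (fun x => congrArg (fun r => r.hom x) k2)
  · have h3 : f.left.residueDegree w * g.left.residueDegree v = 0 := by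
      rw [Nat.mul_eq_zero]
      tauto
    rw [h3]
    by_contra h4
    rw [residueDegree_ne_zero_iff, residueDegree_ne_zero_iff] at h0
    have h5 := (residueDegree_ne_zero_iff _ _).1 h4
    rw [hm, h.dm_ext, h'.dm_ext] at h5
    have := dm_map_le f w
    have := dm_map_le g v
    omega

theorem IsProd.push_ext (h : IsProd p q) {p' : S'.X ⟶ X'.X} {q' : S'.X ⟶ Y'.X} (h' : IsProd p' q')
    {f : X'.X ⟶ X.X} {g : Y'.X ⟶ Y.X} {F : S'.X ⟶ S.X} (h1 : F ≫ p = p' ≫ f)
    (h2 : F ≫ q = q' ≫ g) (α : Zc X') (β : Zc Y') :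
    pushZ F.left (extZ p' q' α β) = extZ p q (pushZ f.left α) (pushZ g.left β) := by
  induction α using Finsupp.induction_linear with
  | zero => simp
  | add α α' ih ih' => simp [ih, ih']
  | single w c =>
    induction β using Finsupp.induction_linear with
    | zero => simp
    | add β β' ih ih' => simp only [map_add, ih, ih']
    | single v d =>
      simp only [extZ, pushZ_single, Finsupp.linearCombination_single, LinearMap.smul_apply,
        Finsupp.smul_single, h.map_ext h' h1 h2, h.residueDegree_ext h' h1 h2, smul_eq_mul,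
        Nat.cast_mul]
      congr 1
      ring

theorem IsProd.mem_range_section (h : IsProd p q) (s : (SmProj.pt k).X ⟶ Y.X) {i : X.X ⟶ S.X}
    (h1 : i ≫ p = 𝟙 _) (h2 : i ≫ q = toPt X ≫ s) {z : S.X.left}
    (hz : q.left z = s.left (SmProj.pt k).gen) : i.left (p.left z) = z := by
  have e1 : i.left ≫ p.left = 𝟙 _ := congrArg (fun a => a.left) h1
  have e2 : i.left ≫ q.left = X.X.hom ≫ s.left := congrArg (fun a => a.left) h2
  have e3 : Limits.pullback.snd q.left s.left ≫ s.left ≫ Y.X.hom =
      Limits.pullback.snd q.left s.left := by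
    rw [Over.w s]
    exact Category.comp_id _
  have e5 : p.left ≫ X.X.hom = q.left ≫ Y.X.hom := h.w
  obtain ⟨t, ht, -⟩ := Scheme.Pullback.exists_preimage_pullback (f := q.left) (g := s.left) z _ hz
  have e4 : Limits.pullback.fst q.left s.left ≫ p.left ≫ i.left =
      Limits.pullback.fst q.left s.left := by
    refine IsPullback.hom_ext h ?_ ?_
    · rw [Category.assoc, Category.assoc, e1, Category.comp_id]
    · rw [Category.assoc, Category.assoc, e2, ← Category.assoc p.left, e5, ← Category.assoc,
        Limits.pullback.condition_assoc, e3, Limits.pullback.condition]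
      rfl
  rw [← ht, ← Scheme.Hom.comp_apply, ← Scheme.Hom.comp_apply, e4]

/-- The fibre over a rational point. -/
theorem IsProd.section_apply (h : IsProd p q) (s : (SmProj.pt k).X ⟶ Y.X) {i : X.X ⟶ S.X}
    (h1 : i ≫ p = 𝟙 _) (h2 : i ≫ q = toPt X ≫ s) (w : X.X.left) :
    i.left w = extPt p q w (s.left (SmProj.pt k).gen) := by
  have := SmProj.pt_subsingleton (k := k)
  refine (h.ext_eq fun t => ⟨fun ht => ⟨?_, ?_⟩, fun ht => ?_⟩).symm
  · have := map_le p.left ht
    rwa [← comp_left_apply, h1] at this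
  · have := map_le q.left ht
    rwa [← comp_left_apply, h2, comp_left_apply, Subsingleton.elim ((toPt X).left w)
      (SmProj.pt k).gen] at this
  · have h3 : q.left t = s.left (SmProj.pt k).gen :=
      mem_closed_of_le (SmProj.isClosed_point _ s) ht.2 rfl
    rw [← h.mem_range_section s h1 h2 h3]
    exact map_le _ ht.1

end Pool.Agent.P.MP_638e8a_ag.Cyc
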