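import Pool.Agent.P.MP_638e8a_ag.ChA4
import Pool.Agent.P.MP_638e8a_ag.ChCut
import Pool.Agent.P.MP_638e8a_ag.ChExt

/-!
Task CHOW CUTEXT: cutting commutes with exterior products.
-/

open CategoryTheory AlgebraicGeometry IsLocalRing TopologicalSpace

universe u

namespace Pool.Agent.P.MP_638e8a_ag.Cyc

open Pool.Agent.P.MP_90138e_ag
open Pool.Agent.P.MP_90138e_ag.WeilCohomology (fstH sndH)

variable {k : Type u} [Field k] {S X Y : SmProj k}

theorem IsProd.ext_injective [IsAlgClosed k] {p : S.X ⟶ X.X} {q : S.X ⟶ Y.X} (h : IsProd p q)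
    (v : Y.X.left) : Function.Injective fun y : X.X.left => extPt p q y v := fun y y' e => by
  have := congrArg p.left e
  simpa only [h.fst_ext] using this

theorem extZ_cy_right (p : S.X ⟶ X.X) (q : S.X ⟶ Y.X) (c : Zc X) (v : Y.X.left) :
    extZ p q c (cy v) = Finsupp.mapDomain (fun y => extPt p q y v) c := by
  induction c using Finsupp.induction_linear with
  | zero => simp
  | add a b ha hb => rw [map_add, LinearMap.add_apply, ha, hb, Finsupp.mapDomain_add]
  | single y r => simp [extZ, Finsupp.mapDomain_single]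

theorem IsProd.comp_ext [IsAlgClosed k] {p : S.X ⟶ X.X} {q : S.X ⟶ Y.X} (h : IsProd p q)
    {I : IF X.X.left} {w y : X.X.left} (hy : I.Comp w y) (v : Y.X.left) :
    (I.comap p.left).Comp (extPt p q w v) (extPt p q y v) := by
  refine ⟨⟨?_, ?_⟩, fun t ht ht' => ?_⟩
  · rw [IF.mem_supp_comap, h.fst_ext]
    exact hy.1.1
  · rw [h.le_ext, h.fst_ext, h.snd_ext]
    exact ⟨hy.1.2, le_rfl⟩
  · have h1 := h.le_ext.1 ht.2
    have h2 := map_le p.left ht'
    rw [h.fst_ext] at h2
    exact h.le_ext.2 ⟨hy.2 ⟨IF.mem_supp_comap.1 ht.1, h1.1⟩ h2, h1.2⟩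

theorem IsProd.exists_of_comp_ext [IsAlgClosed k] {p : S.X ⟶ X.X} {q : S.X ⟶ Y.X}
    (h : IsProd p q) {I : IF X.X.left} {w : X.X.left} {v : Y.X.left} {z : S.X.left}
    (hz : (I.comap p.left).Comp (extPt p q w v) z) : ∃ y, I.Comp w y ∧ extPt p q y v = z := by
  have h1 := h.le_ext.1 hz.1.2
  obtain ⟨y, h2, h3⟩ := I.exists_comp (IF.mem_supp_comap.1 hz.1.1) h1.1
  have h4 : z ≤ extPt p q y v := h.le_ext.2 ⟨h2, h1.2⟩
  exact ⟨y, h3, eq_of_le_of_le (hz.2 (h.comp_ext h3 v).1 h4) h4⟩

theorem IsProd.cm_ext_aux [IsAlgClosed k] {p : S.X ⟶ X.X} {q : S.X ⟶ Y.X} (h : IsProd p q)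
    {I : IF X.X.left} {d : ℕ} (hI : I.Gen d) {w : X.X.left} {v : Y.X.left} {z : S.X.left}
    (hz : extPt p q (p.left z) v = z) (hy : I.Comp w (p.left z)) :
    (I.comap p.left).cm d (extPt p q w v) z = I.cm d w (p.left z) := by
  obtain ⟨g, hl, hg⟩ := hI _ hy.1.1
  have hc : (I.comap p.left).Comp (extPt p q w v) z := by
    have := h.comp_ext hy v
    rwa [hz] at this
  have hP : ∀ t : X.X.left, primeOf z (extPt p q t v) =
      (primeOf (p.left z) t).map (stm p.left z) ⊔ pullIdeal q.left z v := fun t =>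
    congrArg (fun J : IF S.X.left => J.J z) (h.prime_ext t v)
  have hm : maximalIdeal (St z) =
      (maximalIdeal (St (p.left z))).map (stm p.left z) ⊔ pullIdeal q.left z v := by
    have := hP (p.left z)
    rwa [hz, primeOf_self, primeOf_self] at this
  have hK : pullIdeal q.left z v ≠ ⊤ := fun e =>
    (maximalIdeal.isMaximal (St z)).ne_top (by rw [hm, e, sup_top_eq])
  have hs := Ideal.Quotient.mk_surjective (I := pullIdeal q.left z v)
  have : Nontrivial (St z ⧸ pullIdeal q.left z v) := Ideal.Quotient.nontrivial_iff.2 hK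
  have : IsLocalRing (St z ⧸ pullIdeal q.left z v) := IsLocalRing.of_surjective' _ hs
  have hm' : (maximalIdeal (St (p.left z))).map
      ((Ideal.Quotient.mk (pullIdeal q.left z v)).comp (stm p.left z)) =
      maximalIdeal (St z ⧸ pullIdeal q.left z v) := by
    rw [← IsLocalRing.map_maximalIdeal_of_surjective _ hs, hm, Ideal.map_sup, Ideal.map_map,
      Ideal.map_quotient_self, sup_bot_eq]
  have h1 := emult_flat _ (h.flat_quot z v) hm' g (primeOf (p.left z) w) (hy.ms hg)
  have h2 := emult_quot_of_surjective _ hs ((primeOf (p.left z) w).map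
    ((Ideal.Quotient.mk (pullIdeal q.left z v)).comp (stm p.left z))) (g.map (stm p.left z))
  have h3 : ((primeOf (p.left z) w).map
      ((Ideal.Quotient.mk (pullIdeal q.left z v)).comp (stm p.left z))).comap
      (Ideal.Quotient.mk (pullIdeal q.left z v)) = primeOf z (extPt p q w v) := by
    rw [← Ideal.map_map, Ideal.comap_map_of_surjective' _ hs, Ideal.mk_ker, hP]
  rw [h3, List.map_map] at h2
  rw [hy.cm_eq hl hg, hc.cm_eq (g := g.map (stm p.left z)) (by simpa using hl)
    (by rw [IF.comap_J, ← hg, Ideal.map_ofList]), ← h1, ← h2]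
  rfl

theorem IsProd.cut_ext_cy [IsAlgClosed k] {p : S.X ⟶ X.X} {q : S.X ⟶ Y.X} (h : IsProd p q)
    {I : IF X.X.left} {d : ℕ} (hI : I.Gen d) (w : X.X.left) (v : Y.X.left) :
    (I.comap p.left).cut d (extZ p q (cy w) (cy v)) = extZ p q (I.cut d (cy w)) (cy v) := by
  rw [extZ_cy, extZ_cy_right]
  ext z
  rw [IF.cut_single_apply]
  by_cases hz : z ∈ Set.range fun y : X.X.left => extPt p q y v
  · obtain ⟨y, rfl⟩ := hz
    rw [Finsupp.mapDomain_apply (h.ext_injective v), IF.cut_single_apply]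
    by_cases hy : I.Comp w y
    · have := h.cm_ext_aux hI (w := w) (v := v) (z := extPt p q y v) (by rw [h.fst_ext])
        (by rwa [h.fst_ext])
      rw [this, h.fst_ext]
    · rw [IF.cm_of_not_comp d hy, IF.cm_of_not_comp]
      intro hc
      obtain ⟨y', h1, h2⟩ := h.exists_of_comp_ext hc
      exact hy (h.ext_injective v h2 ▸ h1)
  · rw [Finsupp.mapDomain_of_notMem_range _ _ hz, IF.cm_of_not_comp, Int.cast_zero]
    intro hc
    obtain ⟨y', -, h2⟩ := h.exists_of_comp_ext hc
    exact hz ⟨y', h2⟩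

/-- Cutting commutes with exterior products. -/
theorem IsProd.cut_ext [IsAlgClosed k] {p : S.X ⟶ X.X} {q : S.X ⟶ Y.X} (h : IsProd p q)
    {I : IF X.X.left} {d : ℕ} (hI : I.Gen d) (α : Zc X) (β : Zc Y) :
    (I.comap p.left).cut d (extZ p q α β) = extZ p q (I.cut d α) β := by
  induction α using Finsupp.induction_linear with
  | zero => simp
  | add a b ha hb => simp only [map_add, LinearMap.add_apply, ha, hb]
  | single w r =>
    induction β using Finsupp.induction_linear with
    | zero => simp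
    | add a b ha hb => simp only [map_add, ha, hb]
    | single v s =>
      rw [← Finsupp.smul_single_one w r, ← Finsupp.smul_single_one v s]
      simp only [map_smul, LinearMap.smul_apply]
      rw [h.cut_ext_cy hI]

end Pool.Agent.P.MP_638e8a_ag.Cyc
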