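import Pool.Agent.P.MP_638e8a_ag.ChBase

/-!
Task CHOW DIAG: the diagonal of a smooth variety is a locally complete intersection.
-/

open CategoryTheory AlgebraicGeometry IsLocalRing TopologicalSpace

universe u

namespace Pool.Agent.P.MP_638e8a_ag.Cyc

open Pool.Agent.P.MP_90138e_ag
open Pool.Agent.P.MP_90138e_ag.WeilCohomology (fstH sndH)

namespace Diag

theorem ext_of_etale {B A R : Type u} [CommRing B] [CommRing A] [CommRing R] [IsLocalRing R]
    [IsNoetherianRing R] (g : B →+* A) (hg : g.Etale) (α β : A →+* R) (h1 : α.comp g = β.comp g)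
    (h2 : ∀ a, α a - β a ∈ maximalIdeal R) : α = β := by
  let := g.toAlgebra
  let := (α.comp g).toAlgebra
  have : Algebra.Etale B A := hg
  have h3 : (⟨α, fun _ => rfl⟩ : A →ₐ[B] R) = ⟨β, fun b => (RingHom.congr_fun h1 b).symm⟩ :=
    Algebra.FormallyUnramified.ext_of_iInf (maximalIdeal R)
      (Ideal.iInf_pow_eq_bot_of_isLocalRing _ (maximalIdeal.isMaximal R).ne_top)
      fun a => Ideal.Quotient.eq.2 (h2 a)
  exact congrArg AlgHom.toRingHom h3

variable {T X Y Z : Scheme.{u}}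

/-- The germ of the pull-back of a section. -/
noncomputable def gm (f : Z ⟶ X) (z : Z) (V : X.Opens) (h : f z ∈ V) :
    Γ(X, V) ⟶ Z.presheaf.stalk z := X.presheaf.germ V (f z) h ≫ f.stalkMap z

theorem gm_spec (f : Z ⟶ X) (z : Z) {V : X.Opens} (hV : IsAffineOpen V) (h : f z ∈ V) :
    Spec.map (gm f z V h) ≫ hV.fromSpec = Z.fromSpecStalk z ≫ f := by
  rw [gm, Spec.map_comp_assoc, ← Scheme.SpecMap_stalkMap_fromSpecStalk,
    ← hV.fromSpecStalk_eq_fromSpecStalk h]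
  rfl

theorem gm_comp (δ : Y ⟶ Z) (f : Z ⟶ X) (y : Y) (V : X.Opens) (h : f (δ y) ∈ V) :
    gm f (δ y) V h ≫ δ.stalkMap y = gm (δ ≫ f) y V h := by
  unfold gm
  rw [Scheme.Hom.stalkMap_comp, Category.assoc]
  rfl

theorem gm_congr {f f' : Z ⟶ X} (e : f = f') (z : Z) (V : X.Opens) (h : f z ∈ V) (h' : f' z ∈ V) :
    gm f z V h = gm f' z V h' := by
  subst e
  rfl

theorem gm_appLE (f : Z ⟶ X) (π : X ⟶ T) (z : Z) (V : X.Opens) (h : f z ∈ V)
    (e : V ≤ π ⁻¹ᵁ ⊤) : π.appLE ⊤ V e ≫ gm f z V h = gm (f ≫ π) z ⊤ trivial := by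
  unfold gm
  rw [Scheme.Hom.stalkMap_comp, Scheme.Hom.appLE, Category.assoc,
    TopCat.Presheaf.germ_res_assoc]
  exact (Scheme.Hom.germ_stalkMap_assoc π ⊤ (f z) trivial _).symm

theorem ker_le {R : CommRingCat.{u}} [IsLocalRing R] (δ : X ⟶ Z) (x : X)
    (φ : Z.presheaf.stalk (δ x) ⟶ R) [IsLocalHom φ.hom] (j : Spec R ⟶ X)
    (hj : j ≫ δ = Spec.map φ ≫ Z.fromSpecStalk (δ x)) (hx : j (closedPoint R) = x) :
    RingHom.ker (stm δ x) ≤ RingHom.ker φ.hom := by
  intro a ha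
  obtain ⟨W, hW, s, rfl⟩ := Z.presheaf.exists_germ_eq a
  have h1 : ∀ (ι : Spec R ⟶ Z) (_ : j ≫ δ = ι) (hU : ι (closedPoint R) ∈ W),
      (Z.presheaf.germ W _ hU ≫ Scheme.stalkClosedPointTo ι).hom s = 0 := by
    rintro _ rfl hU
    subst hx
    rw [Scheme.stalkClosedPointTo_comp]
    exact (congrArg (Scheme.stalkClosedPointTo j).hom ha).trans (map_zero _)
  have h2 := h1 _ hj (by
    rw [← hj]
    subst hx
    exact hW)
  rw [Scheme.germ_stalkClosedPointTo_Spec_fromSpecStalk] at h2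
  exact h2

theorem main [IsLocallyNoetherian Z] {π : X ⟶ T} {p q : Z ⟶ X} (h : IsPullback p q π π)
    {δ : X ⟶ Z} (h1 : δ ≫ p = 𝟙 _) (h2 : δ ≫ q = 𝟙 _) (x : X) {V : X.Opens}
    (hV : IsAffineOpen V) (hx : x ∈ V) (e : V ≤ π ⁻¹ᵁ ⊤) {d : ℕ}
    (g : MvPolynomial (Fin d) Γ(T, ⊤) →+* Γ(X, V))
    (hg : g.comp MvPolynomial.C = (π.appLE ⊤ V e).hom) (hg' : g.Etale) :
    ∃ l : List (St (δ x)), l.length = d ∧ Ideal.ofList l = RingHom.ker (stm δ x) := by
  have hp0 : p (δ x) = x := by rw [← Scheme.Hom.comp_apply, h1]; rfl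
  have hq0 : q (δ x) = x := by rw [← Scheme.Hom.comp_apply, h2]; rfl
  have hp : p (δ x) ∈ V := by rwa [hp0]
  have hq : q (δ x) ∈ V := by rwa [hq0]
  set α := gm p (δ x) V hp
  set β := gm q (δ x) V hq
  have h3 : ∀ a, α.hom a - β.hom a ∈ RingHom.ker (stm δ x) := fun a => by
    rw [RingHom.mem_ker, map_sub, sub_eq_zero]
    exact congrArg (fun f => f.hom a) ((gm_comp δ p x V hp).trans
      ((gm_congr (h1.trans h2.symm) x V hp hq).trans (gm_comp δ q x V hq).symm))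
  set l : List (St (δ x)) :=
    List.ofFn fun i : Fin d => α.hom (g (MvPolynomial.X i)) - β.hom (g (MvPolynomial.X i))
  have h4 : Ideal.ofList l ≤ RingHom.ker (stm δ x) := Ideal.span_le.2 fun a ha => by
    obtain ⟨i, rfl⟩ := List.mem_ofFn.1 ha
    exact h3 _
  have h5 : Ideal.ofList l ≠ ⊤ := fun h0 => RingHom.ker_ne_top _ (top_le_iff.1 (h0 ▸ h4))
  refine ⟨l, List.length_ofFn, le_antisymm h4 ?_⟩
  have : Nontrivial (St (δ x) ⧸ Ideal.ofList l) := Ideal.Quotient.nontrivial_iff.2 h5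
  have : IsLocalRing (St (δ x) ⧸ Ideal.ofList l) :=
    IsLocalRing.of_surjective' _ Ideal.Quotient.mk_surjective
  have : IsLocalHom (Ideal.Quotient.mk (Ideal.ofList l)) :=
    IsLocalHom.of_surjective _ Ideal.Quotient.mk_surjective
  let φ : Z.presheaf.stalk (δ x) ⟶ CommRingCat.of (St (δ x) ⧸ Ideal.ofList l) :=
    CommRingCat.ofHom (Ideal.Quotient.mk (Ideal.ofList l))
  have : IsLocalHom φ.hom := ‹_›
  have h6 : α ≫ φ = β ≫ φ := by
    refine CommRingCat.hom_ext (ext_of_etale g hg' _ _ (MvPolynomial.ringHom_ext (fun c => ?_)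
      fun i => ?_) fun a => ?_)
    · have h7 := (gm_appLE p π (δ x) V hp e).trans
        ((gm_congr h.w (δ x) ⊤ trivial trivial).trans (gm_appLE q π (δ x) V hq e).symm)
      have h8 : g (MvPolynomial.C c) = (π.appLE ⊤ V e).hom c := RingHom.congr_fun hg c
      rw [RingHom.comp_apply, RingHom.comp_apply, h8]
      exact congrArg φ.hom (congrArg (fun f => f.hom c) h7)
    · exact Ideal.Quotient.eq.2 (Ideal.subset_span (List.mem_ofFn.2 ⟨i, rfl⟩))
    · have h7 := map_nonunit φ.hom _ (le_maximalIdeal (RingHom.ker_ne_top _) (h3 a))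
      rwa [map_sub] at h7
  have h7 : (Spec.map φ ≫ Z.fromSpecStalk (δ x)) ≫ p = (Spec.map φ ≫ Z.fromSpecStalk (δ x)) ≫ q := by
    rw [Category.assoc, Category.assoc, ← gm_spec p _ hV hp, ← gm_spec q _ hV hq,
      ← Spec.map_comp_assoc, ← Spec.map_comp_assoc, h6]
  refine (ker_le δ x φ ((Spec.map φ ≫ Z.fromSpecStalk (δ x)) ≫ p) (h.hom_ext ?_ ?_) ?_).trans
    Ideal.mk_ker.le
  · rw [Category.assoc, h1, Category.comp_id]
  · rw [Category.assoc, h2, Category.comp_id, h7]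
  · exact (congrArg (fun t => p (Z.fromSpecStalk (δ x) t)) (Spec_closedPoint (f := φ))).trans
      ((congrArg p Scheme.fromSpecStalk_closedPoint).trans hp0)

end Diag

variable {k : Type u} [Field k] {S X : SmProj k}

theorem diag_gen (X : SmProj k) :
    (IF.prime ((pair (𝟙 X.X) (𝟙 X.X)).left X.gen)).Gen X.dim := by
  intro z hz
  obtain ⟨x, -, rfl⟩ := exists_le_of_le_map _ (IF.mem_supp_prime.1 hz)
  obtain ⟨U, hU, V, hV, hx, e, hf⟩ :=
    SmoothOfRelativeDimension.exists_isStandardSmoothOfRelativeDimension (n := X.dim)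
      (f := X.X.hom) x
  have hU' : U = ⊤ := by
    refine eq_top_iff.2 fun y _ => ?_
    have : y = X.X.hom x := Subsingleton.elim (α := PrimeSpectrum k) _ _
    rw [this]
    exact e hx
  subst hU'
  obtain ⟨g, hg, hg'⟩ := hf.exists_etale_mvPolynomial
  rw [IF.prime_J, ← ker_stm]
  exact Diag.main (p := (fstH X X).left) (q := (sndH X X).left) (IsPullback.of_hasPullback _ _)
    (congrArg (fun f => f.left) (pair_fst (𝟙 X.X) (𝟙 X.X)))
    (congrArg (fun f => f.left) (pair_snd (𝟙 X.X) (𝟙 X.X)))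
    x hV hx e g hg hg'

theorem Dg_gen (a b : S.X ⟶ X.X) : (Dg a b).Gen X.dim := (diag_gen X).comap _

end Pool.Agent.P.MP_638e8a_ag.Cyc
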