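import Pool.Agent.P.MP_638e8a_ag.ChBase

/-!
Task CHOW PROD: products of varieties and of subvarieties.
-/

open CategoryTheory AlgebraicGeometry IsLocalRing TopologicalSpace

universe u

namespace Pool.Agent.P.MP_638e8a_ag.Cyc

open Pool.Agent.P.MP_90138e_ag
open Pool.Agent.P.MP_90138e_ag.WeilCohomology (fstH sndH)

variable {k : Type u} [Field k] {S S' T U X X' Y Y' : SmProj k}

theorem isProd_prod (X Y : SmProj k) : IsProd (fstH X Y) (sndH X Y) :=
  IsPullback.of_hasPullback X.X.hom Y.X.hom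

theorem IsProd.symm {p : S.X ⟶ X.X} {q : S.X ⟶ Y.X} (h : IsProd p q) : IsProd q p :=
  IsPullback.flip h

theorem isProd_id (X : SmProj k) : IsProd (𝟙 X.X) (toPt X) := by
  have h : (toPt X).left = X.X.hom := by
    have := Over.w (toPt X)
    exact (Category.comp_id _).symm.trans this
  unfold IsProd
  rw [h]
  exact IsPullback.id_horiz X.X.hom

theorem IsProd.exists_lift {p : S.X ⟶ X.X} {q : S.X ⟶ Y.X} (h : IsProd p q) (a : T.X ⟶ X.X)
    (b : T.X ⟶ Y.X) : ∃ l : T.X ⟶ S.X, l ≫ p = a ∧ l ≫ q = b := by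
  have hw : a.left ≫ X.X.hom = b.left ≫ Y.X.hom := by rw [Over.w a, Over.w b]
  refine ⟨Over.homMk (IsPullback.lift h a.left b.left hw) ?_, ?_, ?_⟩
  · rw [← Over.w p, IsPullback.lift_fst_assoc, Over.w a]
  · ext1
    exact IsPullback.lift_fst h _ _ _
  · ext1
    exact IsPullback.lift_snd h _ _ _

theorem IsProd.hom_ext {p : S.X ⟶ X.X} {q : S.X ⟶ Y.X} (h : IsProd p q) {a b : T.X ⟶ S.X}
    (h1 : a ≫ p = b ≫ p) (h2 : a ≫ q = b ≫ q) : a = b := by
  ext1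
  refine IsPullback.hom_ext h ?_ ?_
  · rw [← Over.comp_left, h1, Over.comp_left]
  · rw [← Over.comp_left, h2, Over.comp_left]

theorem IsProd.isPullback_aux {p : S.X ⟶ X.X} {q : S.X ⟶ Y.X} (h : IsProd p q)
    {p' : S'.X ⟶ X'.X} {q' : S'.X ⟶ Y.X} (h' : IsProd p' q') {f : X'.X ⟶ X.X} {F : S'.X ⟶ S.X}
    (h1 : F ≫ p = p' ≫ f) (h2 : F ≫ q = q') : IsPullback F.left p'.left p.left f.left := by
  refine IsPullback.of_right ?_ ?_ (IsPullback.flip h)
  · rw [← Over.comp_left, h2, Over.w f]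
    exact IsPullback.flip h'
  · rw [← Over.comp_left, h1, Over.comp_left]

/-- If `S = X × Y`, `T = S × U` and `S' = Y × U`, then `T = X × S'`. -/
theorem IsProd.assoc {p : S.X ⟶ X.X} {q : S.X ⟶ Y.X} (h : IsProd p q) {a : T.X ⟶ S.X}
    {b : T.X ⟶ U.X} (h' : IsProd a b) {p' : S'.X ⟶ Y.X} {q' : S'.X ⟶ U.X} (h'' : IsProd p' q')
    {r : T.X ⟶ S'.X} (hr : r ≫ p' = a ≫ q) (hr' : r ≫ q' = b) : IsProd (a ≫ p) r := by
  have h0 := (h''.isPullback_aux h' hr hr').flip.paste_horiz h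
  rw [Over.w p'] at h0
  exact h0

/-- The square `X' × Y → X × Y` over `X' → X` is cartesian. -/
theorem IsProd.isPullback {p : S.X ⟶ X.X} {q : S.X ⟶ Y.X} (h : IsProd p q) {p' : S'.X ⟶ X'.X}
    {q' : S'.X ⟶ Y.X} (h' : IsProd p' q') {f : X'.X ⟶ X.X} {F : S'.X ⟶ S.X}
    (h1 : F ≫ p = p' ≫ f) (h2 : F ≫ q = q') : IsPullback F.left p'.left p.left f.left :=
  h.isPullback_aux h' h1 h2

theorem IsProd.isProj {p : S.X ⟶ X.X} {q : S.X ⟶ Y.X} (h : IsProd p q) : IsProj p := by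
  obtain ⟨a, a1, a2⟩ := (isProd_prod X Y).exists_lift p q
  obtain ⟨b, b1, b2⟩ := h.exists_lift (fstH X Y) (sndH X Y)
  refine ⟨Y, ⟨a, b, h.hom_ext ?_ ?_, (isProd_prod X Y).hom_ext ?_ ?_⟩, a1⟩
  · rw [Category.assoc, b1, a1, Category.id_comp]
  · rw [Category.assoc, b2, a2, Category.id_comp]
  · rw [Category.assoc, a1, b1, Category.id_comp]
  · rw [Category.assoc, a2, b2, Category.id_comp]

theorem exists_isProd_of_isProj {p : S.X ⟶ X.X} (h : IsProj p) :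
    ∃ (Y : SmProj k) (q : S.X ⟶ Y.X), IsProd p q := by
  obtain ⟨A, e, rfl⟩ := h
  refine ⟨A, e.hom ≫ sndH X A, ?_⟩
  exact IsPullback.of_iso (isProd_prod X A) ((Over.forget _).mapIso e.symm) (Iso.refl _)
    (Iso.refl _) (Iso.refl _) (by simp [← Over.comp_left]) (by simp [← Over.comp_left]) (by simp)
    (by simp)

end Pool.Agent.P.MP_638e8a_ag.Cyc
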