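import Pool.Agent.P.MP_638e8a_ag.ChSec
import Pool.Agent.P.MP_638e8a_ag.ChProd

/-!
Task CHOW KILL: closed subschemes and points with values in local rings.
-/

open CategoryTheory AlgebraicGeometry IsLocalRing TopologicalSpace

universe u

namespace Pool.Agent.P.MP_638e8a_ag.Cyc

open Pool.Agent.P.MP_90138e_ag
open Pool.Agent.P.MP_90138e_ag.WeilCohomology (fstH sndH)

namespace IF

section Schemes

variable {X Y : Scheme.{u}} {R : CommRingCat.{u}} [IsLocalRing R]

theorem kills_comap {I : IF Y} {f : X ⟶ Y} {ι : Spec R ⟶ X} :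
    (I.comap f).Kills ι ↔ I.Kills (ι ≫ f) := by
  rw [Kills, Kills, comap_J, Ideal.map_le_iff_le_comap, Scheme.stalkClosedPointTo_comp]
  rfl

theorem kills_add {I I' : IF X} {ι : Spec R ⟶ X} : (I.add I').Kills ι ↔ I.Kills ι ∧ I'.Kills ι := by
  exact sup_le_iff

theorem kills_gen [IsIntegral X] (ι : Spec R ⟶ X) : (prime (genericPoint X)).Kills ι := by
  rw [Kills, prime_J, primeOf_gen]
  exact bot_le

theorem kills_spec {I : IF X} {x : X} (φ : X.presheaf.stalk x ⟶ R) [IsLocalHom φ.hom] :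
    I.Kills (Spec.map φ ≫ X.fromSpecStalk x) ↔ I.J x ≤ RingHom.ker φ.hom := by
  have h : (Spec.map φ ≫ X.fromSpecStalk x) (closedPoint R) = x :=
    (congrArg (X.fromSpecStalk x) (Spec_closedPoint (f := φ))).trans
      Scheme.fromSpecStalk_closedPoint
  have h1 : X.presheaf.stalkSpecializes h.ge ≫
      Scheme.stalkClosedPointTo (Spec.map φ ≫ X.fromSpecStalk x) = φ := by
    refine TopCat.Presheaf.stalk_hom_ext _ fun U hU => ?_
    rw [TopCat.Presheaf.germ_stalkSpecializes_assoc,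
      Scheme.germ_stalkClosedPointTo_Spec_fromSpecStalk]
  rw [Kills, I.spec h.ge, Ideal.map_le_iff_le_comap]
  conv_rhs => rw [← h1]
  rfl

theorem exists_lift {i : X ⟶ Y} [IsClosedImmersion i] {w : X} {y : Y}
    (φ : Y.presheaf.stalk y ⟶ R) [IsLocalHom φ.hom] (h : primeOf y (i w) ≤ RingHom.ker φ.hom) :
    ∃ ι' : Spec R ⟶ X, ι' ≫ i = Spec.map φ ≫ Y.fromSpecStalk y ∧ (prime w).Kills ι' := by
  have hy : y ≤ i w := primeOf_ne_top.1 fun h' => RingHom.ker_ne_top φ.hom (top_le_iff.1 (h' ▸ h))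
  obtain ⟨x, hx, rfl⟩ := exists_le_of_le_map i hy
  rw [primeOf_map i hx] at h
  have hs : Function.Surjective (stm i x) := i.stalkMap_surjective x
  have hk : RingHom.ker (stm i x) ≤ RingHom.ker φ.hom := (Ideal.comap_mono bot_le).trans h
  obtain ⟨ψ, hψ⟩ : ∃ ψ : X.presheaf.stalk x ⟶ R, ∀ a, ψ.hom (stm i x a) = φ.hom a :=
    ⟨CommRingCat.ofHom ((stm i x).liftOfSurjective hs ⟨φ.hom, hk⟩), fun a =>
      (stm i x).liftOfRightInverse_comp_apply _ _ _ a⟩
  have : IsLocalHom ψ.hom := ⟨fun a ha => by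
    obtain ⟨b, rfl⟩ := hs a
    have hb : IsUnit (φ.hom b) := hψ b ▸ ha
    exact ((isUnit_map_iff φ.hom b).1 hb).map _⟩
  have he : φ = i.stalkMap x ≫ ψ := by
    ext a
    exact (hψ a).symm
  refine ⟨Spec.map ψ ≫ X.fromSpecStalk x, ?_, (kills_spec _).2 fun a ha => ?_⟩
  · rw [he, Spec.map_comp, Category.assoc, Category.assoc, Scheme.SpecMap_stalkMap_fromSpecStalk]
  · obtain ⟨b, rfl⟩ := hs a
    exact (hψ b).trans (h ha)

theorem kills_prime_map {i : X ⟶ Y} [IsClosedImmersion i] {w : X} {ι : Spec R ⟶ Y} :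
    (prime (i w)).Kills ι ↔ ∃ ι' : Spec R ⟶ X, ι' ≫ i = ι ∧ (prime w).Kills ι' := by
  constructor
  · intro h
    obtain ⟨ι', h1, h2⟩ := exists_lift (Scheme.stalkClosedPointTo ι) h
    exact ⟨ι', h1.trans (Scheme.Spec_stalkClosedPointTo_fromSpecStalk ι), h2⟩
  · rintro ⟨ι', rfl, h⟩
    have hx : ι' (closedPoint R) ≤ w :=
      primeOf_ne_top.1 fun h' => RingHom.ker_ne_top _ (top_le_iff.1 (h'.ge.trans h))
    rw [← kills_comap, Kills, comap_J, prime_J, primeOf_map i hx]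
    exact Ideal.map_comap_le.trans h

theorem kills_zero {σ : Type} {a : Sec X σ} {ι : Spec R ⟶ X} :
    a.zero.Kills ι ↔ ∀ i, (Scheme.stalkClosedPointTo ι).hom (a.s _ i) = 0 := by
  rw [Kills, Sec.zero_J, Ideal.span_le, Set.range_subset_iff]
  rfl

theorem le_of_kills {I I' : IF X}
    (h : ∀ (R : CommRingCat.{u}) [IsLocalRing R] (ι : Spec R ⟶ X), I'.Kills ι → I.Kills ι)
    (x : X) : I.J x ≤ I'.J x := by
  by_cases h' : I'.J x = ⊤
  · rw [h']
    exact le_top
  have : Nontrivial (St x ⧸ I'.J x) := Ideal.Quotient.nontrivial_iff.2 h'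
  have : IsLocalRing (St x ⧸ I'.J x) :=
    IsLocalRing.of_surjective' _ (Ideal.Quotient.mk_surjective (I := I'.J x))
  have : IsLocalHom (CommRingCat.ofHom (Ideal.Quotient.mk (I'.J x))).hom :=
    IsLocalHom.of_surjective _ (Ideal.Quotient.mk_surjective (I := I'.J x))
  have h1 := (kills_spec _).1 (h (CommRingCat.of (St x ⧸ I'.J x))
    (Spec.map (CommRingCat.ofHom (Ideal.Quotient.mk (I'.J x))) ≫ X.fromSpecStalk x)
    ((kills_spec _).2 Ideal.mk_ker.ge))
  exact h1.trans Ideal.mk_ker.le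

theorem ext_kills {I I' : IF X}
    (h : ∀ (R : CommRingCat.{u}) [IsLocalRing R] (ι : Spec R ⟶ X), I.Kills ι ↔ I'.Kills ι) :
    I = I' := by
  exact IF.ext (funext fun x => le_antisymm (le_of_kills (fun R _ ι => (h R ι).2) x)
    (le_of_kills (fun R _ ι => (h R ι).1) x))

theorem comap_id (I : IF X) : I.comap (𝟙 X) = I := by
  exact ext_kills fun R _ ι => by rw [kills_comap, Category.comp_id]

end Schemes

end IF

variable {k : Type u} [Field k] {S S' T X Y : SmProj k}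

theorem kills_Dg {R : CommRingCat.{u}} [IsLocalRing R] {a b : S.X ⟶ X.X} {ι : Spec R ⟶ S.X.left} :
    (Dg a b).Kills ι ↔ ι ≫ a.left = ι ≫ b.left := by
  have := isClosedImmersion_of_section (pair (𝟙 X.X) (𝟙 X.X)) (fstH X X) (pair_fst _ _)
  have e1 : ∀ {T : SmProj k} (c d : T.X ⟶ X.X), (pair c d).left ≫ (fstH X X).left = c.left :=
    fun c d => congrArg (fun f => f.left) (pair_fst c d)
  have e2 : ∀ {T : SmProj k} (c d : T.X ⟶ X.X), (pair c d).left ≫ (sndH X X).left = d.left :=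
    fun c d => congrArg (fun f => f.left) (pair_snd c d)
  rw [Dg, IF.kills_comap, IF.kills_prime_map]
  constructor
  · rintro ⟨ι', h, -⟩
    have h1 := congrArg (· ≫ (fstH X X).left) h
    have h2 := congrArg (· ≫ (sndH X X).left) h
    simp only [Category.assoc, e1, e2] at h1 h2
    exact h1.symm.trans h2
  · intro h
    refine ⟨ι ≫ a.left, IsPullback.hom_ext (isProd_prod X X) ?_ ?_, IF.kills_gen _⟩
    · simp only [Category.assoc, e1, Over.id_left, Category.comp_id]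
    · simp only [Category.assoc, e2, Over.id_left, Category.comp_id, h]

theorem Dg_comap (a b : S.X ⟶ X.X) (h : S'.X ⟶ S.X) :
    (Dg a b).comap h.left = Dg (h ≫ a) (h ≫ b) := by
  exact IF.ext_kills fun R _ ι => by
    rw [IF.kills_comap, kills_Dg, kills_Dg, Category.assoc, Category.assoc]
    rfl

theorem Dg_symm (a b : S.X ⟶ X.X) : Dg a b = Dg b a := by
  exact IF.ext_kills fun R _ ι => by rw [kills_Dg, kills_Dg, eq_comm]

/-- A point of a product on the graph of `f`. -/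
theorem IsProd.kills_section {R : CommRingCat.{u}} [IsLocalRing R] {p : S.X ⟶ X.X} {q : S.X ⟶ Y.X}
    (h : IsProd p q) {f : X.X ⟶ Y.X} {γ : X.X ⟶ S.X} (h1 : γ ≫ p = 𝟙 _) (h2 : γ ≫ q = f)
    (w : X.X.left) {ι : Spec R ⟶ S.X.left} :
    (IF.prime (γ.left w)).Kills ι ↔
      ι ≫ p.left ≫ f.left = ι ≫ q.left ∧ (IF.prime w).Kills (ι ≫ p.left) := by
  have := isClosedImmersion_of_section γ p h1
  have e1 : γ.left ≫ p.left = 𝟙 _ := congrArg (fun f => f.left) h1
  have e2 : γ.left ≫ q.left = f.left := congrArg (fun f => f.left) h2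
  rw [IF.kills_prime_map]
  constructor
  · rintro ⟨ι', rfl, h3⟩
    rw [Category.assoc, Category.assoc, Category.assoc, reassoc_of% e1, e1, e2, Category.comp_id]
    exact ⟨rfl, h3⟩
  · rintro ⟨h3, h4⟩
    refine ⟨_, IsPullback.hom_ext h ?_ ?_, h4⟩
    · rw [Category.assoc, e1, Category.comp_id]
    · rw [Category.assoc, e2, Category.assoc, h3]

theorem IsProd.Dg_graph {p : S.X ⟶ X.X} {q : S.X ⟶ Y.X} (h : IsProd p q) {f : X.X ⟶ Y.X}
    {γ : X.X ⟶ S.X} (h1 : γ ≫ p = 𝟙 _) (h2 : γ ≫ q = f) :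
    Dg (p ≫ f) q = IF.prime (γ.left X.gen) := by
  exact IF.ext_kills fun R _ ι => by
    rw [kills_Dg, h.kills_section h1 h2, and_iff_left (IF.kills_gen _)]
    rfl

theorem IsProd.mem_supp_Dg {p : S.X ⟶ X.X} {q : S.X ⟶ Y.X} (h : IsProd p q) {f : X.X ⟶ Y.X}
    {γ : X.X ⟶ S.X} (h1 : γ ≫ p = 𝟙 _) (h2 : γ ≫ q = f) {z : S.X.left} :
    z ∈ (Dg (p ≫ f) q).supp ↔ z ∈ Set.range γ.left := by
  have := isClosedImmersion_of_section γ p h1
  rw [h.Dg_graph h1 h2, IF.mem_supp_prime]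
  constructor
  · intro h3
    obtain ⟨x, -, hx⟩ := exists_le_of_le_map γ.left h3
    exact ⟨x, hx⟩
  · rintro ⟨x, rfl⟩
    exact map_le _ (le_gen x)

end Pool.Agent.P.MP_638e8a_ag.Cyc
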