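import Pool.Agent.P.MP_638e8a_ag.ChSub
import Pool.Agent.P.MP_638e8a_ag.ChBase

/-!
A proper morphism is finite near a finite fibre (Zariski's main theorem).
-/

open CategoryTheory AlgebraicGeometry IsLocalRing TopologicalSpace

universe u

namespace Pool.Agent.P.MP_638e8a_ag.Cyc

variable {X Y : Scheme.{u}}

theorem exists_lift_of_inj {B C L : Type*} [CommRing B] [CommRing C] [CommRing L] (j : C →+* L)
    (hj : Function.Injective j) (β : B →+* L) (h : ∀ b, ∃ c, j c = β b) :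
    ∃ γ : B →+* C, ∀ b, j (γ b) = β b := by
  choose γ hγ using h
  exact ⟨⟨⟨⟨γ, hj (by simp [hγ])⟩, fun a b => hj (by simp [hγ])⟩, hj (by simp [hγ]),
    fun a b => hj (by simp [hγ])⟩, hγ⟩

/-- The local ring of the subvariety `v` at `x` embeds in the function field of `v`. -/
noncomputable def evQ {x v : X} (h : x ≤ v) : St x ⧸ primeOf x v →+* Rf v :=
  Ideal.Quotient.lift _ (ev h) fun _ => (ev_eq_zero h).2

theorem evQ_mk {x v : X} (h : x ≤ v) (a : St x) : evQ h (Ideal.Quotient.mk _ a) = ev h a := rfl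

theorem evQ_inj {x v : X} (h : x ≤ v) : Function.Injective (evQ h) := by
  rw [injective_iff_map_eq_zero]
  intro a ha
  obtain ⟨a, rfl⟩ := Ideal.Quotient.mk_surjective a
  exact Ideal.Quotient.eq_zero_iff_mem.2 ((ev_eq_zero h).1 ha)

theorem isLocalRing_quot {x v : X} (h : x ≤ v) : IsLocalRing (St x ⧸ primeOf x v) :=
  haveI := primeOf_isPrime h
  IsLocalRing.of_surjective' (Ideal.Quotient.mk _) Ideal.Quotient.mk_surjective

theorem isUnit_mk_iff {x v : X} (h : x ≤ v) {a : St x} :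
    IsUnit (Ideal.Quotient.mk (primeOf x v) a) ↔ IsUnit a := by
  have := primeOf_isPrime h
  have := isLocalRing_quot h
  have := IsLocalHom.of_surjective (Ideal.Quotient.mk (primeOf x v)) Ideal.Quotient.mk_surjective
  exact isUnit_map_iff _ _

/-- The function `c` on `v` is invertible at `x`. -/
def Un {x v : X} (h : x ≤ v) (c : Rf v) : Prop := ∃ a : St x, IsUnit a ∧ ev h a = c

theorem un_evQ {x v : X} (h : x ≤ v) {c : St x ⧸ primeOf x v} : Un h (evQ h c) ↔ IsUnit c := by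
  obtain ⟨c, rfl⟩ := Ideal.Quotient.mk_surjective c
  refine ⟨fun ⟨a, h1, h2⟩ => ?_, fun h1 => ⟨c, (isUnit_mk_iff h).1 h1, rfl⟩⟩
  rw [← evQ_inj h (show evQ h (Ideal.Quotient.mk _ a) = _ from h2)]
  exact h1.map _

theorem germ_appLE (g : X ⟶ Y) {U : Y.Opens} {W : X.Opens} (e : W ≤ g ⁻¹ᵁ U) {x : X} (hx : x ∈ W)
    (a : Γ(Y, U)) : X.presheaf.germ W x hx (g.appLE U W e a) =
      stm g x (Y.presheaf.germ U (g x) (e hx) a) := by
  rw [Scheme.Hom.germ_stalkMap_apply, Scheme.Hom.appLE, CommRingCat.comp_apply,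
    TopCat.Presheaf.germ_res_apply]

theorem isUnit_germ_iff {U : X.Opens} (hU : IsAffineOpen U) {x : X} (hx : x ∈ U) (a : Γ(X, U)) :
    IsUnit (X.presheaf.germ U x hx a) ↔ a ∉ (hU.primeIdealOf ⟨x, hx⟩).asIdeal := by
  let := TopCat.Presheaf.algebra_section_stalk X.presheaf (⟨x, hx⟩ : U)
  have := hU.isLocalization_stalk ⟨x, hx⟩
  exact IsLocalization.AtPrime.isUnit_to_map_iff (St x) (hU.primeIdealOf ⟨x, hx⟩).asIdeal a

theorem exists_germ_frac {U : X.Opens} (hU : IsAffineOpen U) {x : X} (hx : x ∈ U) (c : St x) :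
    ∃ a s : Γ(X, U), IsUnit (X.presheaf.germ U x hx s) ∧
      c * X.presheaf.germ U x hx s = X.presheaf.germ U x hx a := by
  let := TopCat.Presheaf.algebra_section_stalk X.presheaf (⟨x, hx⟩ : U)
  have := hU.isLocalization_stalk ⟨x, hx⟩
  obtain ⟨⟨a, s⟩, h⟩ := IsLocalization.surj (hU.primeIdealOf ⟨x, hx⟩).asIdeal.primeCompl (S := St x) c
  exact ⟨a, s, (isUnit_germ_iff hU hx _).2 s.2, h⟩

theorem primeIdealOf_inj {U : X.Opens} (hU : IsAffineOpen U) {x x' : X} (hx : x ∈ U) (hx' : x' ∈ U)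
    (h : ∀ a, IsUnit (X.presheaf.germ U x hx a) ↔ IsUnit (X.presheaf.germ U x' hx' a)) :
    x = x' := by
  have : hU.primeIdealOf ⟨x, hx⟩ = hU.primeIdealOf ⟨x', hx'⟩ := by
    ext a
    simpa only [isUnit_germ_iff hU, not_iff_not] using h a
  simpa only [hU.fromSpec_primeIdealOf] using congrArg hU.fromSpec this

theorem exists_primeIdealOf {U : X.Opens} (hU : IsAffineOpen U) (q : PrimeSpectrum Γ(X, U)) :
    ∃ (x : X) (hx : x ∈ U), hU.primeIdealOf ⟨x, hx⟩ = q := by
  have hx : hU.fromSpec q ∈ U := hU.range_fromSpec.le ⟨q, rfl⟩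
  exact ⟨_, hx, hU.fromSpec.isOpenEmbedding.injective (hU.fromSpec_primeIdealOf _)⟩

theorem exists_finite_chart (g : X ⟶ Y) [IsProper g] (y : Y) (h : (g ⁻¹' {y}).Finite) :
    ∃ (U : Y.Opens) (_ : IsAffineOpen U) (_ : y ∈ U) (W : X.Opens) (_ : IsAffineOpen W)
      (e : W = g ⁻¹ᵁ U), (g.appLE U W e.le).hom.Finite := by
  obtain ⟨U', hy, hf⟩ := exists_isFinite_morphismRestrict_of_finite_preimage_singleton g y h
  obtain ⟨U, hU, hy', -⟩ := exists_isAffineOpen_mem_and_subset (X := U') (x := ⟨y, hy⟩) (U := ⊤)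
    trivial
  refine ⟨U'.ι ''ᵁ U, hU.image_of_isOpenImmersion _, ⟨_, hy', rfl⟩, _,
    (hU.preimage (g ∣_ U')).image_of_isOpenImmersion _, image_morphismRestrict_preimage g U' U, ?_⟩
  rw [← morphismRestrict_app']
  exact (g ∣_ U').finite_app U hU

theorem exists_chart (f : X ⟶ Y) [IsProper f] (v : X) (y : Y) (hy : y ≤ f v)
    [Finite (Fib f v y)] :
    ∃ (A A' : Type u) (_ : CommRing A) (_ : CommRing A') (α : A →+* St y) (φ : A →+* A')
      (ψ : A' →+* Rf v), (∀ c : St y, ∃ a s, IsUnit (α s) ∧ c * α s = α a) ∧ φ.Finite ∧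
      (∀ a, ψ (φ a) = rfm f v (ev hy (α a))) ∧
      (∀ (x : Fib f v y) a, ∃ c : St x.1, ev x.2.1 c = ψ a) ∧
      (∀ (x : Fib f v y) (c : St x.1), ∃ a t, Un x.2.1 (ψ t) ∧ ev x.2.1 c * ψ t = ψ a) ∧
      (∀ x x' : Fib f v y, (∀ a, Un x.2.1 (ψ a) ↔ Un x'.2.1 (ψ a)) → x = x') ∧
      ∀ q : Ideal A', q.IsPrime → (∀ a, φ a ∈ q ↔ ¬ IsUnit (α a)) →
        ∃ x : Fib f v y, ∀ a ∈ q, ¬ Un x.2.1 (ψ a) := by
  obtain ⟨V, _, i, _, rfl⟩ := exists_subvariety v
  have hi : Function.Injective i := i.isClosedEmbedding.injective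
  have hfin : ((i ≫ f) ⁻¹' {y}).Finite := by
    refine Set.finite_coe_iff.1 (Finite.of_injective
      (fun x => (⟨i x.1, map_le i (le_gen _), x.2⟩ : Fib f (i (genericPoint V)) y)) ?_)
    exact fun x x' h => Subtype.ext (hi (congrArg Subtype.val h))
  obtain ⟨U, hU, hyU, W, hW, e, hφ⟩ := exists_finite_chart (i ≫ f) y hfin
  have hs (x : V) : Function.Surjective (stm i x) := i.stalkMap_surjective x
  have hk (x : V) (a : St (i x)) (h : i x ≤ i (genericPoint V)) : ev h a = 0 ↔ stm i x a = 0 := by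
    rw [ev_eq_zero, ← ker_stm, RingHom.mem_ker]
  have hθ (x : V) : ∃ θ : St x →+* Rf (i (genericPoint V)), Function.Injective θ ∧
      ∀ a, θ (stm i x a) = ev (map_le i (le_gen x)) a := by
    refine ⟨(stm i x).liftOfSurjective (hs x) ⟨ev (map_le i (le_gen x)), fun a ha =>
      (hk x a _).2 ha⟩, ?_, fun a => RingHom.liftOfSurjective_comp_apply _ _ _ _⟩
    rw [injective_iff_map_eq_zero]
    intro a ha
    obtain ⟨a, rfl⟩ := hs x a
    rw [RingHom.liftOfSurjective_comp_apply] at ha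
    exact (hk x a _).1 ha
  choose θ θi θe using hθ
  have hg : genericPoint V ∈ W := e.ge (mem_of_le hy hyU :)
  let ψ : Γ(V, W) →+* Rf (i (genericPoint V)) := (θ _).comp (V.presheaf.germ W _ hg).hom
  have hψ (x : V) (hx : x ∈ W) (a : Γ(V, W)) : ψ a = θ x (V.presheaf.germ W x hx a) := by
    obtain ⟨c, hc⟩ := hs x (V.presheaf.germ W x hx a)
    change θ _ (V.presheaf.germ W _ hg a) = _
    rw [← sp_germ (le_gen x) hx, ← hc, sp_stm, θe, θe, ev_sp]
  have hun (x : V) (hx : x ∈ W) (h : i x ≤ i (genericPoint V)) (a : Γ(V, W)) :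
      Un h (ψ a) ↔ IsUnit (V.presheaf.germ W x hx a) := by
    rw [hψ x hx]
    refine ⟨fun ⟨c, h1, h2⟩ => ?_, fun h1 => ?_⟩
    · rw [← θe] at h2
      rw [← θi x h2]
      exact h1.map _
    · obtain ⟨c, hc⟩ := hs x (V.presheaf.germ W x hx a)
      rw [← hc] at h1 ⊢
      exact ⟨c, (isUnit_map_iff _ _).1 h1, (θe x c).symm⟩
  have hx (x : Fib f (i (genericPoint V)) y) : ∃ x' ∈ W, i x' = x.1 := by
    obtain ⟨x', -, h⟩ := exists_le_of_le_map i x.2.1
    refine ⟨x', e.ge ?_, h⟩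
    change f (i x') ∈ U
    rwa [h, x.2.2]
  refine ⟨Γ(Y, U), Γ(V, W), inferInstance, inferInstance, (Y.presheaf.germ U y hyU).hom,
    ((i ≫ f).appLE U W e.le).hom, ψ, exists_germ_frac hU hyU, hφ, fun a => ?_, fun x a => ?_,
    fun x c => ?_, fun x x' h => ?_, fun q hq h => ?_⟩
  · rw [hψ _ hg, germ_appLE, stm_comp, θe, ev_stm, ← ev_sp hy le_rfl, sp_germ]
    rfl
  · obtain ⟨x', h1, h2⟩ := hx x
    obtain ⟨x, h3, h4⟩ := x
    subst h2
    obtain ⟨c, hc⟩ := hs x' (V.presheaf.germ W x' h1 a)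
    exact ⟨c, by rw [hψ x' h1, ← hc, θe]⟩
  · obtain ⟨x', h1, h2⟩ := hx x
    obtain ⟨x, h3, h4⟩ := x
    subst h2
    obtain ⟨a, t, h5, h6⟩ := exists_germ_frac hW h1 (stm i x' c)
    exact ⟨a, t, (hun x' h1 _ _).2 h5, by rw [hψ x' h1, hψ x' h1, ← h6, map_mul, θe]⟩
  · obtain ⟨z, h1, h2⟩ := hx x
    obtain ⟨z', h1', h2'⟩ := hx x'
    obtain ⟨x, h3, h4⟩ := x
    obtain ⟨x', h3', h4'⟩ := x'
    subst h2 h2'
    refine Subtype.ext (congrArg i (primeIdealOf_inj hW h1 h1' fun a => ?_))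
    rw [← hun z h1 h3, ← hun z' h1' h3']
    exact h a
  · obtain ⟨x, h1, h2⟩ := exists_primeIdealOf hW ⟨q, hq⟩
    have h3 (a) : IsUnit (V.presheaf.germ W x h1 a) ↔ a ∉ q := by rw [isUnit_germ_iff hW, h2]
    refine ⟨⟨i x, map_le i (le_gen x), primeIdealOf_inj hU (e.le h1) hyU fun a => ?_⟩,
      fun a ha h4 => (h3 a).1 ((hun x h1 _ a).1 h4) ha⟩
    have h4 := h3 ((i ≫ f).appLE U W e.le a)
    rw [germ_appLE, isUnit_map_iff] at h4
    exact h4.trans ((not_congr (h a)).trans not_not)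

theorem nonempty_finData {X Y : Scheme.{u}} (f : X ⟶ Y) [IsProper f] (v : X) (y : Y)
    (hy : y ≤ f v) [Finite (Fib f v y)] : Nonempty (FinData f v y) := by
  obtain ⟨A, A', _, _, α, φ, ψ, h1, h2, h3, h4, h5, h6, h7⟩ := exists_chart f v y hy
  let : Algebra (St y) (Rf v) := ((rfm f v).comp (ev hy)).toAlgebra
  have h3' (a) : ψ (φ a) = algebraMap (St y) (Rf v) (α a) := h3 a
  let B := Algebra.adjoin (St y) (Set.range ψ)
  let ψ' : A' →+* B := ψ.codRestrict B fun a => Algebra.subset_adjoin ⟨a, rfl⟩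
  have hψ (a) : ψ' (φ a) = algebraMap (St y) B (α a) := Subtype.ext (h3 a)
  have hal (x : Fib f v y) (a : St y) :
      ev x.2.1 (stm f x.1 (sp x.2.2.ge a)) = algebraMap (St y) (Rf v) a := by
    rw [ev_stm, ev_sp]
    rfl
  have hfin : Module.Finite (St y) B := by
    let := φ.toAlgebra
    have : Module.Finite A A' := h2
    obtain ⟨s, hs⟩ := Module.Finite.fg_top (R := A) (M := A')
    classical
    refine Module.Finite.of_fg (N := B.toSubmodule) ⟨s.image ψ, ?_⟩
    refine le_antisymm (Submodule.span_le.2 ?_) ?_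
    · rw [Finset.coe_image]
      rintro _ ⟨a, -, rfl⟩
      exact Algebra.subset_adjoin ⟨a, rfl⟩
    have key : B.toSubmodule ≤ Submodule.span (St y) (Set.range ψ) := by
      have := Algebra.adjoin_eq_span (St y) (Set.range ψ)
      rw [show Submonoid.closure (Set.range ψ) = MonoidHom.mrange ψ from
        Submonoid.closure_eq (MonoidHom.mrange ψ)] at this
      exact this.le
    refine key.trans (Submodule.span_le.2 ?_)
    rintro _ ⟨a, rfl⟩
    have ha : a ∈ Submodule.span A (s : Set A') := hs ▸ Submodule.mem_top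
    induction ha using Submodule.span_induction with
    | mem a ha => exact Submodule.subset_span (by simpa using ⟨a, ha, rfl⟩)
    | zero => simp
    | add a b _ _ ha hb => rw [map_add]; exact Submodule.add_mem _ ha hb
    | smul r a _ ha =>
      rw [Algebra.smul_def, map_mul, RingHom.algebraMap_toAlgebra, h3', ← Algebra.smul_def]
      exact Submodule.smul_mem _ _ ha
  have hden (b : B) : ∃ a s, IsUnit (α s) ∧ b * algebraMap (St y) B (α s) = ψ' a := by
    obtain ⟨b, hb⟩ := b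
    induction hb using Algebra.adjoin_induction with
    | mem b hb =>
      obtain ⟨a, rfl⟩ := hb
      exact ⟨a, 1, by simp, by rw [map_one, map_one, mul_one]; rfl⟩
    | algebraMap c =>
      obtain ⟨a, s, h, h'⟩ := h1 c
      exact ⟨φ a, s, h, by rw [hψ, ← h', map_mul]; rfl⟩
    | add b c hb hc ib ic =>
      obtain ⟨a, s, h, h'⟩ := ib
      obtain ⟨a', s', k, k'⟩ := ic
      refine ⟨a * φ s' + a' * φ s, s * s', by rw [map_mul]; exact h.mul k, ?_⟩
      rw [map_add, map_mul, map_mul, map_mul, map_mul, ← h', ← k', hψ, hψ]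
      change ((⟨b, hb⟩ : B) + ⟨c, hc⟩) * _ = _
      ring
    | mul b c hb hc ib ic =>
      obtain ⟨a, s, h, h'⟩ := ib
      obtain ⟨a', s', k, k'⟩ := ic
      refine ⟨a * a', s * s', by rw [map_mul]; exact h.mul k, ?_⟩
      rw [map_mul, map_mul, map_mul, ← h', ← k']
      change ((⟨b, hb⟩ : B) * ⟨c, hc⟩) * _ = _
      ring
  have hγ (x : Fib f v y) : ∃ γ : B →+* St x.1 ⧸ primeOf x.1 v, ∀ b, evQ x.2.1 (γ b) = b.1 := by
    refine exists_lift_of_inj _ (evQ_inj x.2.1) B.val.toRingHom fun ⟨b, hb⟩ => ?_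
    change b ∈ (evQ x.2.1).range
    induction hb using Algebra.adjoin_induction with
    | mem b hb =>
      obtain ⟨a, rfl⟩ := hb
      obtain ⟨c, hc⟩ := h4 x a
      exact ⟨Ideal.Quotient.mk _ c, hc⟩
    | algebraMap c => exact ⟨Ideal.Quotient.mk _ _, hal x c⟩
    | add b c _ _ hb hc => exact add_mem hb hc
    | mul b c _ _ hb hc => exact mul_mem hb hc
  choose γ hγ using hγ
  have hl (x : Fib f v y) := isLocalRing_quot x.2.1
  let n (x : Fib f v y) : Ideal B := (maximalIdeal _).comap (γ x)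
  have hn (x : Fib f v y) (b : B) : b ∈ n x ↔ ¬ IsUnit (γ x b) := Iff.rfl
  have hn' (x : Fib f v y) (a) : ψ' a ∈ n x ↔ ¬ Un x.2.1 (ψ a) := by
    rw [hn, ← un_evQ x.2.1, hγ]
    rfl
  have hc (x : Fib f v y) (a : St y) : γ x (algebraMap _ B a) =
      Ideal.Quotient.mk _ (stm f x.1 (sp x.2.2.ge a)) :=
    evQ_inj x.2.1 (by rw [hγ, evQ_mk, hal]; rfl)
  have hmax (x : Fib f v y) : (n x).IsMaximal := by
    refine Ideal.isMaximal_of_isIntegral_of_isMaximal_comap (R := St y) _ ?_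
    convert maximalIdeal.isMaximal (St y)
    ext a
    rw [Ideal.mem_comap, hn, hc, isUnit_mk_iff x.2.1, isUnit_map_iff]
    obtain ⟨x, h, rfl⟩ := x
    rw [sp_refl]
    rfl
  refine ⟨{ B := B
            fin := hfin
            n := n
            n_max := hmax
            n_inj := fun x x' h => h6 x x' fun a => by rw [← not_iff_not, ← hn', ← hn', h]
            n_surj := fun m hm => ?_
            algC := fun x => (γ x).toAlgebra
            loc := fun x => ?_
            compat := hc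
            β := B.val.toRingHom
            β_inj := Subtype.val_injective
            β_eq := fun x b a h => ?_ }⟩
  · have hm' := eq_maximalIdeal (Ideal.isMaximal_comap_of_isIntegral_of_isMaximal (R := St y) m)
    obtain ⟨x, hx⟩ := h7 (m.comap ψ') inferInstance fun a => by
      rw [Ideal.mem_comap, hψ, ← Ideal.mem_comap, hm']
      rfl
    refine ⟨x, (hm.eq_of_le (hmax x).ne_top fun b hb => ?_).symm⟩
    obtain ⟨a, s, h, h'⟩ := hden b
    have h8 : ψ' a ∈ n x := (hn' x a).2 (hx a (by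
      rw [Ideal.mem_comap, ← h']
      exact m.mul_mem_right _ hb))
    rw [← h'] at h8
    exact (Ideal.mul_unit_mem_iff_mem _ (h.map _)).1 h8
  · let := (γ x).toAlgebra
    refine ⟨fun b => not_not.1 (mt (hn x b).2 b.2), fun c => ?_, fun {a b} h => ⟨1, ?_⟩⟩
    · obtain ⟨c, rfl⟩ := Ideal.Quotient.mk_surjective c
      obtain ⟨a, t, h, h'⟩ := h5 x c
      refine ⟨(ψ' a, ⟨ψ' t, fun h0 => (hn' x t).1 h0 h⟩), evQ_inj x.2.1 ?_⟩
      change evQ _ (_ * γ x _) = evQ _ (γ x _)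
      rw [map_mul, hγ, hγ]
      exact h'
    · have h' : evQ _ (γ x a) = evQ _ (γ x b) := congrArg (evQ x.2.1) h
      rw [hγ, hγ] at h'
      rw [Subtype.ext h']
  · exact (hγ x b).symm.trans (congrArg (evQ x.2.1) h)

end Pool.Agent.P.MP_638e8a_ag.Cyc
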