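import Pool.Agent.P.MP_638e8a_ag.ChPush0
import Pool.Agent.P.MP_638e8a_ag.ChA3
import Pool.Agent.P.MP_638e8a_ag.ChA4

/-!
Consequences of the finiteness data along a finite fibre.
-/

open CategoryTheory AlgebraicGeometry IsLocalRing TopologicalSpace

universe u

namespace Pool.Agent.P.MP_638e8a_ag.Cyc

variable {X Y : Scheme.{u}}

/-- Evaluation at a point between `x` and `v` of functions on the subvariety `v`. -/
noncomputable def evq {x w v : X} (h : x ≤ w) (h' : w ≤ v) : St x ⧸ primeOf x v →+* Rf w :=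
  Ideal.Quotient.lift _ (ev h) fun _ ha =>
    (ev_eq_zero h).2 ((primeOf_le_iff h (h.trans h')).2 h' ha)

theorem evq_mk {x w v : X} (h : x ≤ w) (h' : w ≤ v) (a : St x) :
    evq h h' (Ideal.Quotient.mk _ a) = ev h a := rfl

theorem ev_refl_surjective (x : X) : Function.Surjective (ev (le_refl x)) := fun c => by
  obtain ⟨a, rfl⟩ := X.residue_surjective x c
  exact ⟨a, congrArg (X.residue x).hom (sp_refl x a)⟩

theorem fib_nonempty (f : X ⟶ Y) [UniversallyClosed f] {v : X} {y : Y} (hy : y ≤ f v) :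
    Nonempty (Fib f v y) := by
  obtain ⟨x, h⟩ := exists_le_of_le_map f hy
  exact ⟨⟨x, h⟩⟩

/-- The coefficient of a push-forward as a sum over a finite fibre. -/
theorem pushZ_apply_fib (f : X ⟶ Y) (v : X) (y : Y) [Fintype (Fib f v y)] (c : X →₀ ℚ)
    (hc : ∀ x ∈ c.support, x ≤ v) :
    pushZ f c y = ∑ x : Fib f v y, c x.1 * f.residueDegree x.1 := by
  classical
  have h1 : pushZ f c y = ∑ x ∈ c.support, if f x = y then c x * f.residueDegree x else 0 := by
    rw [pushZ, Finsupp.linearCombination_apply, Finsupp.sum, Finsupp.finsetSum_apply]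
    refine Finset.sum_congr rfl fun x _ => ?_
    rw [Finsupp.smul_apply, Finsupp.single_apply]
    split_ifs <;> simp
  rw [h1, ← Finset.sum_filter]
  symm
  refine Finset.sum_bij_ne_zero (fun x _ _ => x.1) (fun x _ h => ?_) (fun x _ _ x' _ _ h => ?_)
    (fun x hx h => ?_) fun _ _ _ => rfl
  · exact Finset.mem_filter.2 ⟨Finsupp.mem_support_iff.2 (left_ne_zero_of_mul h), x.2.2⟩
  · exact Subtype.ext h
  · obtain ⟨h1, h2⟩ := Finset.mem_filter.1 hx
    exact ⟨⟨x, hc x h1, h2⟩, Finset.mem_univ _, h, rfl⟩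

namespace FinData

attribute [local instance] FinData.ring FinData.algA FinData.algC

variable {f : X ⟶ Y} {v : X} {y : Y} (D : FinData f v y)

theorem β_eq_evq (x : Fib f v y) (b : D.B) :
    D.β b = evq x.2.1 le_rfl (algebraMap D.B (St x.1 ⧸ primeOf x.1 v) b) := by
  obtain ⟨a, ha⟩ := Ideal.Quotient.mk_surjective (algebraMap D.B (St x.1 ⧸ primeOf x.1 v) b)
  rw [D.β_eq x b a ha.symm, ← ha, evq_mk]

/-- Compatibility of `β` with the map of residue fields. -/
theorem hc [Nonempty (Fib f v y)] (hy : y ≤ f v) (r : St y) :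
    rfm f v (ev hy r) = D.β (algebraMap (St y) D.B r) := by
  obtain ⟨x⟩ : Nonempty (Fib f v y) := inferInstance
  rw [D.β_eq x _ _ (D.compat x r), ev_stm, ev_sp]

theorem β_ne_zero {x : Fib f v y} {s : D.B} (hs : s ∉ D.n x) : D.β s ≠ 0 := fun h =>
  hs (by rw [(map_eq_zero_iff _ D.β_inj).1 h]; exact zero_mem _)

/-- Values of germs are fractions with denominators outside `n x`. -/
theorem exists_ev (x : Fib f v y) (a : St x.1) :
    ∃ b s : D.B, s ∉ D.n x ∧ D.β b = ev x.2.1 a * D.β s := by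
  have := (D.n_max x).isPrime
  have := D.loc x
  obtain ⟨⟨b, s⟩, h⟩ := IsLocalization.surj (D.n x).primeCompl
    (Ideal.Quotient.mk (primeOf x.1 v) a)
  refine ⟨b, s, s.2, ?_⟩
  rw [D.β_eq_evq x, D.β_eq_evq x, ← h, map_mul, evq_mk]

/-- The function field of `v` is the fraction field of `B`. -/
theorem frac [Nonempty (Fib f v y)] (c : Rf v) :
    ∃ b b' : D.B, D.β b' ≠ 0 ∧ D.β b = c * D.β b' := by
  obtain ⟨x⟩ : Nonempty (Fib f v y) := inferInstance
  obtain ⟨a, a', h1, h2⟩ := ev_frac x.2.1 c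
  obtain ⟨b, s, hs, h3⟩ := D.exists_ev x a
  obtain ⟨b', s', hs', h4⟩ := D.exists_ev x a'
  refine ⟨b * s', b' * s, ?_, ?_⟩
  · rw [map_mul, h4]
    exact mul_ne_zero (mul_ne_zero h1 (D.β_ne_zero hs')) (D.β_ne_zero hs)
  · rw [map_mul, map_mul, h3, h4, h2]
    ring

include D in
/-- The extension of function fields is finite. -/
theorem finite [Nonempty (Fib f v y)] (hy : y ≤ f v) :
    letI := (rfm f v).toAlgebra
    Module.Finite (Rf (f v)) (Rf v) := by
  let := (rfm f v).toAlgebra
  have := D.fin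
  obtain ⟨s, hs⟩ := Module.Finite.fg_top (R := St y) (M := D.B)
  let W : Submodule (Rf (f v)) (Rf v) := Submodule.span _ (D.β '' s)
  have : Module.Finite (Rf (f v)) W := Module.Finite.span_of_finite _ (s.finite_toSet.image _)
  have h1 : ∀ b, D.β b ∈ W := fun b => by
    have hb : b ∈ Submodule.span (St y) (s : Set D.B) := hs ▸ Submodule.mem_top
    induction hb using Submodule.span_induction with
    | mem x hx => exact Submodule.subset_span ⟨x, hx, rfl⟩
    | zero => simp
    | add x y _ _ hx hy => rw [map_add]; exact add_mem hx hy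
    | smul r x _ hx =>
      rw [Algebra.smul_def, map_mul, ← D.hc hy]
      exact W.smul_mem (ev hy r) hx
  have h2 : ∀ b, ∀ w ∈ W, LinearMap.mulLeft (Rf (f v)) (D.β b) w ∈ W := fun b w hw => by
    induction hw using Submodule.span_induction with
    | mem x hx =>
      obtain ⟨x, -, rfl⟩ := hx
      rw [LinearMap.mulLeft_apply, ← map_mul]
      exact h1 _
    | zero => simp
    | add x y _ _ hx hy => rw [map_add]; exact add_mem hx hy
    | smul r x _ hx => rw [map_smul]; exact W.smul_mem r hx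
  have h3 : W = ⊤ := by
    refine eq_top_iff.2 fun c _ => ?_
    obtain ⟨b, b', h4, h5⟩ := D.frac c
    have h6 : Function.Injective ((LinearMap.mulLeft (Rf (f v)) (D.β b')).restrict (h2 b')) :=
      fun w w' h => Subtype.ext (mul_left_cancel₀ h4 (congrArg Subtype.val h))
    obtain ⟨w, hw⟩ := LinearMap.surjective_of_injective h6 ⟨_, h1 b⟩
    have h7 : D.β b' * w = D.β b := congrArg Subtype.val hw
    have h8 : c = w := mul_left_cancel₀ h4 (by rw [h7, h5, mul_comm])
    rw [h8]
    exact w.2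
  exact ⟨h3 ▸ Submodule.fg_span (s.finite_toSet.image _)⟩

include D in
theorem residueDegree_ne_zero [Nonempty (Fib f v y)] (hy : y ≤ f v) : f.residueDegree v ≠ 0 := by
  let := (rfm f v).toAlgebra
  have := D.finite hy
  exact Module.finrank_pos.ne'

/-- Evaluation at a point of the fibre. -/
noncomputable def evx (x : Fib f v y) : D.B →+* Rf x.1 :=
  (evq le_rfl x.2.1).comp (algebraMap D.B (St x.1 ⧸ primeOf x.1 v))

theorem ker_evx (x : Fib f v y) : RingHom.ker (D.evx x) = D.n x := by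
  have := (D.n_max x).isPrime
  have := D.loc x
  symm
  refine (D.n_max x).eq_of_le (RingHom.ker_ne_top _) fun b hb => ?_
  obtain ⟨a, ha⟩ := Ideal.Quotient.mk_surjective (algebraMap D.B (St x.1 ⧸ primeOf x.1 v) b)
  change evq le_rfl x.2.1 (algebraMap D.B (St x.1 ⧸ primeOf x.1 v) b) = 0
  rw [← ha, evq_mk, ev_eq_zero, primeOf_self]
  intro hu
  have h1 : IsUnit (algebraMap D.B (St x.1 ⧸ primeOf x.1 v) b) := ha ▸ hu.map _
  exact (IsLocalization.AtPrime.isUnit_to_map_iff _ (D.n x) b).1 h1 hb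

theorem evx_surjective (x : Fib f v y) : Function.Surjective (D.evx x) := by
  have := (D.n_max x).isPrime
  have := D.loc x
  intro c
  obtain ⟨a, rfl⟩ := ev_refl_surjective x.1 c
  obtain ⟨⟨b, s⟩, h⟩ := IsLocalization.surj (D.n x).primeCompl
    (Ideal.Quotient.mk (primeOf x.1 v) a)
  obtain ⟨t, z, hz, h1⟩ := (D.n_max x).exists_inv s.2
  have h2 : ev (le_refl x.1) a * D.evx x s = D.evx x b := by
    have := congrArg (evq le_rfl x.2.1) h
    rwa [map_mul] at this
  have h3 : D.evx x t * D.evx x s = 1 := by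
    have h4 : D.evx x z = 0 := by rwa [← D.ker_evx x] at hz
    have := congrArg (D.evx x) h1
    rwa [map_add, h4, add_zero, map_mul, map_one] at this
  refine ⟨b * t, ?_⟩
  rw [map_mul, ← h2, mul_assoc, mul_comm (D.evx x s), h3, mul_one]

/-- The length of the residue field of `B` at `n x` is the residue degree. -/
theorem length_eq (x : Fib f v y) :
    (Module.length (St y) (D.B ⧸ D.n x)).toNat = f.residueDegree x.1 := by
  obtain ⟨x, hx, rfl⟩ := x
  let := ((ev (le_refl x)).comp (stm f x)).toAlgebra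
  let e : D.B →ₐ[St (f x)] Rf x :=
    { D.evx ⟨x, hx, rfl⟩ with
      commutes' := fun r => by
        refine (congrArg (evq le_rfl hx) (D.compat ⟨x, hx, rfl⟩ r)).trans ?_
        rw [sp_refl]
        rfl }
  have e' : (D.B ⧸ D.n ⟨x, hx, rfl⟩) ≃ₐ[St (f x)] Rf x :=
    (Ideal.quotientEquivAlgOfEq _ (D.ker_evx ⟨x, hx, rfl⟩).symm).trans
      (Ideal.quotientKerAlgEquivOfSurjective (f := e) (D.evx_surjective ⟨x, hx, rfl⟩))
  rw [e'.toLinearEquiv.length_eq]
  exact length_residue f x

theorem primeOf_le_ann [Nonempty (Fib f v y)] (hy : y ≤ f v) (J : Ideal D.B) :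
    primeOf y (f v) ≤ Module.annihilator (St y) (D.B ⧸ J) := fun r hr => by
  have h1 : algebraMap (St y) D.B r = 0 := by
    rw [← map_eq_zero_iff _ D.β_inj, ← D.hc hy, (ev_eq_zero hy).2 hr, map_zero]
  refine Module.mem_annihilator.2 fun m => ?_
  rw [← algebraMap_smul D.B, h1, zero_smul]

include D in
/-- The projection formula for multiplicities. -/
theorem emult_eq [IsLocallyNoetherian Y] [Fintype (Fib f v y)] [Nonempty (Fib f v y)]
    (hy : y ≤ f v) (g : List (St y)) (h : MS g (St y ⧸ primeOf y (f v)))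
    (hd : ringKrullDim (St y ⧸ primeOf y (f v)) ≤ g.length) :
    (f.residueDegree v : ℤ) * emult g (St y ⧸ primeOf y (f v)) =
      ∑ x : Fib f v y, (f.residueDegree x.1 : ℤ) *
        emult (g.map ((stm f x.1).comp (sp x.2.2.ge))) (St x.1 ⧸ primeOf x.1 v) := by
  let := (rfm f v).toAlgebra
  have := D.fin
  have := D.n_max
  have := D.loc
  have hms : MS g (D.B ⧸ (⊥ : Ideal D.B)) := fun P hP hg =>
    ms_quot_iff.1 h _ P.2 ((D.primeOf_le_ann hy ⊥).trans
      (Module.mem_support_iff_of_finite.1 hP)) hg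
  have h1 := emult_finite D.n D.n_inj D.n_surj (fun x => St x.1 ⧸ primeOf x.1 v) ⊥ g hms
  rw [primeOf_eq_ker hy] at h hd ⊢
  have h2 := emult_rank (ev hy) (ev_frac hy) D.β D.β_inj D.frac (D.hc hy) g h hd
  rw [emult_congr ((Submodule.quotEquivOfEqBot (⊥ : Ideal D.B) rfl).restrictScalars (St y)), h2]
    at h1
  refine h1.trans (Finset.sum_congr rfl fun x _ => ?_)
  have h3 : (algebraMap D.B (St x.1 ⧸ primeOf x.1 v)).comp (algebraMap (St y) D.B) =
      (Ideal.Quotient.mk (primeOf x.1 v)).comp ((stm f x.1).comp (sp x.2.2.ge)) :=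
    RingHom.ext (D.compat x)
  rw [D.length_eq, h3, RingHom.coe_comp, ← List.map_map,
    emult_quot_of_surjective _ Ideal.Quotient.mk_surjective, Ideal.map_bot, ← RingHom.ker_eq_comap_bot,
    Ideal.mk_ker]

end FinData

end Pool.Agent.P.MP_638e8a_ag.Cyc
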