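import Pool.Agent.P.MP_638e8a_ag.ChPush0
import Pool.Agent.P.MP_638e8a_ag.ChA4
import Pool.Agent.P.MP_638e8a_ag.ChCut
import Pool.Agent.P.MP_638e8a_ag.ChFin
import Pool.Agent.P.MP_638e8a_ag.ChPushX

/-!
Task CHOW PUSH: the projection formula for cutting, and compatibility with exterior products.
-/

open CategoryTheory AlgebraicGeometry IsLocalRing TopologicalSpace

universe u

namespace Pool.Agent.P.MP_638e8a_ag.Cyc

open Pool.Agent.P.MP_90138e_ag
open Pool.Agent.P.MP_90138e_ag.WeilCohomology (fstH sndH)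

variable {k : Type u} [Field k] {S T X Y : SmProj k}

theorem cut_pushZ_cy_apply (I : IF T.X.left) (d : ℕ) (f : S.X ⟶ T.X) (v : S.X.left)
    (y : T.X.left) : I.cut d (pushZ f.left (cy v)) y =
      f.left.residueDegree v * I.cm d (f.left v) y := by
  rw [pushZ_single, one_mul, ← Finsupp.smul_single_one, map_smul, Finsupp.smul_apply,
    IF.cut_single_apply, smul_eq_mul]

/-- The projection formula. -/
theorem push_cut {I : IF T.X.left} {d : ℕ} (hI : I.Gen d) (f : S.X ⟶ T.X) {v : S.X.left}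
    (h : (I.comap f.left).Pr d v) :
    pushZ f.left ((I.comap f.left).cut d (cy v)) = I.cut d (pushZ f.left (cy v)) := by
  ext y
  rw [cut_pushZ_cy_apply]
  have hI' := hI.comap f.left
  by_cases hy : y ∈ I.supp ∧ y ≤ f.left v ∧ dm y + d = dm v
  · obtain ⟨h1, h2, h3⟩ := hy
    have h4 : ∀ x, x ≤ v → f.left x = y → dm x ≤ dm y := fun x hx e => by
      have := h x (IF.mem_supp_comap.2 (e ▸ h1)) hx
      omega
    have := finite_fib f v y h4
    have := Fintype.ofFinite (Fib f.left v y)
    have := fib_nonempty f.left h2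
    obtain ⟨D⟩ := nonempty_finData f.left v y h2
    have h5 := (residueDegree_ne_zero_iff f v).1 (D.residueDegree_ne_zero h2)
    have h6 : I.Comp (f.left v) y := ((h.map h5).comp_iff hI).2 ⟨h1, h2, by omega⟩
    obtain ⟨g, hl, hg⟩ := hI y h1
    have h7 := D.emult_eq h2 g (h6.ms hg) (by
      rw [dim_quot h2, hl]
      exact_mod_cast (by omega : dm (f.left v) - dm y ≤ d))
    rw [h6.cm_eq hl hg, pushZ_apply_fib f.left v y _ fun x hx => (IF.comp_of_mem_cut hx).1.2]
    have h9 := congrArg (Int.cast : ℤ → ℚ) h7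
    push_cast at h9
    rw [h9]
    refine Finset.sum_congr rfl fun x _ => ?_
    have h8 : (I.comap f.left).Comp v x.1 := by
      refine (h.comp_iff hI').2 ⟨IF.mem_supp_comap.2 (x.2.2.symm ▸ h1), x.2.1, ?_⟩
      have e1 := h4 x.1 x.2.1 x.2.2
      have e2 := dm_map_le f x.1
      rw [x.2.2] at e2
      omega
    rw [IF.cut_single_apply, mul_comm, h8.cm_eq (g := g.map ((stm f.left x.1).comp (sp x.2.2.ge)))
      (by rw [List.length_map, hl])
      (by rw [IF.comap_J, I.spec x.2.2.ge, Ideal.map_map, ← hg, Ideal.map_ofList])]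
  · have h1 : pushZ f.left ((I.comap f.left).cut d (cy v)) y = 0 := by
      by_contra h1
      obtain ⟨x, hx, rfl, e⟩ := mem_support_pushZ (Finsupp.mem_support_iff.2 h1)
      obtain ⟨h2, h3, h4⟩ := (h.comp_iff hI').1 (IF.comp_of_mem_cut hx)
      exact hy ⟨IF.mem_supp_comap.1 h2, map_le _ h3, by omega⟩
    rw [h1]
    by_cases h2 : f.left.residueDegree v = 0
    · simp [h2]
    · have h5 := (residueDegree_ne_zero_iff f v).1 h2
      rw [IF.cm_of_not_comp d fun h3 => ?_, Int.cast_zero, mul_zero]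
      obtain ⟨h4, h6, h7⟩ := ((h.map h5).comp_iff hI).1 h3
      exact hy ⟨h4, h6, by omega⟩

theorem push_cut' {I : IF T.X.left} {d : ℕ} (hI : I.Gen d) (f : S.X ⟶ T.X) {c : Zc S}
    (h : ∀ v ∈ c.support, (I.comap f.left).Pr d v) :
    pushZ f.left ((I.comap f.left).cut d c) = I.cut d (pushZ f.left c) := by
  have e : c = ∑ v ∈ c.support, c v • cy v := by
    simp only [Finsupp.smul_single_one]
    exact (Finsupp.sum_single c).symm
  rw [e]
  simp only [map_sum, map_smul]
  exact Finset.sum_congr rfl fun v hv => by rw [push_cut hI f (h v hv)]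

end Pool.Agent.P.MP_638e8a_ag.Cyc
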