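import Pool.Agent.P.MP_638e8a_ag.ChAct0
import Pool.Agent.P.MP_638e8a_ag.ChPush
import Pool.Agent.P.MP_638e8a_ag.ChCutExt
import Pool.Agent.P.MP_638e8a_ag.ChKill
import Pool.Agent.P.MP_638e8a_ag.ChDiag

/-!
Task CHOW ACT: the intersection cycle `α ·_f β`.
-/

open CategoryTheory AlgebraicGeometry IsLocalRing TopologicalSpace

universe u

namespace Pool.Agent.P.MP_638e8a_ag.Cyc

open Pool.Agent.P.MP_90138e_ag
open Pool.Agent.P.MP_90138e_ag.WeilCohomology (fstH sndH)

variable {k : Type u} [Field k] [IsAlgClosed k] {S S' T U P : SmProj k} {f : S.X ⟶ T.X}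

theorem Act.push {P' : SmProj k} {p : P.X ⟶ S.X} {q : P.X ⟶ T.X} (hP : IsProd p q)
    {p' : P'.X ⟶ S'.X} {q' : P'.X ⟶ T.X} (hP' : IsProd p' q') {h : S'.X ⟶ S.X} {α : Zc S'}
    {β : Zc T} (hp : PrA (h ≫ f) α β) :
    pushZ h.left (actM p' q' (Dg (p' ≫ h ≫ f) q') T.dim α β) =
      actM p q (Dg (p ≫ f) q) T.dim (pushZ h.left α) β := by
  obtain ⟨F, h1, h2⟩ := hP.exists_lift (p' ≫ h) q'
  have h3 : Dg (p' ≫ h ≫ f) q' = (Dg (p ≫ f) q).comap F.left := by
    rw [Dg_comap, h2, ← Category.assoc F, h1, Category.assoc]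
  have h4 := hP.push_ext hP' (g := 𝟙 T.X) h1 (by rw [h2, Category.comp_id]) α β
  rw [Over.id_left, pushZ_id] at h4
  rw [actM_apply, actM_apply, ← pushZ_comp, ← Over.comp_left, ← h1, Over.comp_left, pushZ_comp,
    ← h4, ← push_cut' (Dg_gen _ _) F, h3]
  intro v hv
  obtain ⟨w, hw, t, ht, rfl⟩ := mem_support_extZ hv
  rw [← h3]
  exact hP'.pr_Dg_iff.2 (hp w hw t ht)

omit [IsAlgClosed k] in
theorem Act.ext {A B : Zc S →ₗ[ℚ] Zc T} (h : ∀ w, A (cy w) = B (cy w)) (α : Zc S) : A α = B α :=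
  LinearMap.congr_fun (Finsupp.lhom_ext' fun w => LinearMap.ext_ring (h w)) α

theorem IsProd.act_eq {p : P.X ⟶ S.X} {q : P.X ⟶ T.X} (h : IsProd p q) {α : Zc S} {β : Zc T}
    (hp : PrA f α β) : act f α β = actM p q (Dg (p ≫ f) q) T.dim α β := by
  have h1 := Act.push (f := f) (h := 𝟙 S.X) h (isProd_prod S T) (α := α) (β := β)
    (by rwa [Category.id_comp])
  rwa [Over.id_left, pushZ_id, pushZ_id, Category.id_comp] at h1

/-- The projection formula. -/
theorem push_act {h : S'.X ⟶ S.X} {α : Zc S'} {β : Zc T} (hp : PrA (h ≫ f) α β) :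
    pushZ h.left (act (h ≫ f) α β) = act f (pushZ h.left α) β := by
  exact Act.push (isProd_prod S T) (isProd_prod S' T) hp

theorem act_eq_cy {w u : S.X.left} {v : T.X.left}
    (h : (IF.prime w).add ((IF.prime v).comap f.left) = IF.prime u)
    (hd : dm u + T.dim = dm w + dm v) : PrI f w v ∧ act f (cy w) (cy v) = cy u := by
  constructor
  · intro x h1 h2
    have h3 : x ∈ (IF.prime u).supp := by
      rw [← h]
      simp [h1, h2]
    have := dm_mono (IF.mem_supp_prime.1 h3)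
    omega
  · have hP := isProd_prod S T
    have h1 : pair (𝟙 S.X) f ≫ fstH S T = 𝟙 _ := pair_fst _ _
    have h2 : pair (𝟙 S.X) f ≫ sndH S T = f := pair_snd _ _
    have := isClosedImmersion_of_section _ _ h1
    have h3 : (Dg (fstH S T ≫ f) (sndH S T)).add (IF.prime (extPt (fstH S T) (sndH S T) w v)) =
        IF.prime ((pair (𝟙 S.X) f).left u) := by
      refine IF.ext_kills fun R _ ι => ?_
      rw [hP.kills_section h1 h2, ← h, hP.prime_ext]
      simp only [IF.kills_add, IF.kills_comap, kills_Dg, Over.comp_left, Category.assoc]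
      refine and_congr_right fun h4 => ?_
      rw [h4]
    have h4 : pushZ (pair (𝟙 S.X) f).left (cy u) = cy ((pair (𝟙 S.X) f).left u) := by
      rw [pushZ_single, residueDegree_of_closedImmersion, Nat.cast_one, one_mul]
    rw [act, actM_apply, extZ_cy, IF.cut_eq_cy (Dg_gen _ _) h3
      (by rw [dm_map_of_closedImmersion, hP.dm_ext, hd]), ← h4, ← pushZ_comp, ← Over.comp_left, h1,
      Over.id_left, pushZ_id]

theorem act_gen (f : S.X ⟶ T.X) (α : Zc S) : act f α (cy T.gen) = α := by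
  rw [← LinearMap.flip_apply (act f)]
  refine (Act.ext (fun w => ?_) α).trans (LinearMap.id_apply α)
  rw [LinearMap.flip_apply, LinearMap.id_apply]
  refine (act_eq_cy (IF.ext_kills fun R _ ι => ?_) (by rw [dm_gen])).2
  simp only [IF.kills_add, IF.kills_comap, IF.kills_gen, and_true]

theorem IsProd.act_flat {p : P.X ⟶ S.X} {q : P.X ⟶ T.X} (h : IsProd p q) (α : Zc S) :
    act p (cy P.gen) α = extZ p q α (cy T.gen) := by
  rw [← LinearMap.flip_apply (extZ p q)]
  refine Act.ext (fun v => ?_) α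
  rw [LinearMap.flip_apply, extZ_cy]
  refine (act_eq_cy (IF.ext_kills fun R _ ι => ?_) ?_).2
  · rw [h.prime_ext]
    simp only [IF.kills_add, IF.kills_comap, IF.kills_gen, and_true, true_and]
  · rw [h.dm_ext, dm_gen, dm_gen, h.dim_eq]
    omega

theorem gen_act (α : Zc S) : act (𝟙 S.X) (cy S.gen) α = α := by
  refine (Act.ext (fun v => ?_) α).trans (LinearMap.id_apply α)
  rw [LinearMap.id_apply]
  refine (act_eq_cy (IF.ext_kills fun R _ ι => ?_) (by rw [dm_gen, add_comm])).2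
  rw [Over.id_left, IF.comap_id]
  simp only [IF.kills_add, IF.kills_gen, true_and]

theorem act_comm {α β : Zc S} (h : PrA (𝟙 S.X) α β) : act (𝟙 S.X) α β = act (𝟙 S.X) β α := by
  have hP := isProd_prod S S
  have h1 : pair (𝟙 S.X) (𝟙 S.X) ≫ fstH S S = 𝟙 _ := pair_fst _ _
  have h2 : pair (𝟙 S.X) (𝟙 S.X) ≫ sndH S S = 𝟙 _ := pair_snd _ _
  have h3 : ∀ y ∈ ((Dg (fstH S S ≫ 𝟙 S.X) (sndH S S)).cut S.dim
      (extZ (fstH S S) (sndH S S) α β)).support, y ∈ Set.range (pair (𝟙 S.X) (𝟙 S.X)).left := by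
    intro y hy
    obtain ⟨v, -, hv⟩ := IF.mem_support_cut hy
    exact (hP.mem_supp_Dg h1 h2).1 hv.1.1
  have h4 : Dg (sndH S S ≫ 𝟙 S.X) (fstH S S) = Dg (fstH S S ≫ 𝟙 S.X) (sndH S S) := by
    rw [Category.comp_id, Category.comp_id, Dg_symm]
  rw [hP.symm.act_eq h.symm, act, actM_apply, actM_apply, hP.extZ_symm, h4]
  ext x
  rw [pushZ_section_apply _ _ h1 _ h3, pushZ_section_apply _ _ h2 _ h3]

end Pool.Agent.P.MP_638e8a_ag.Cyc
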