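import Pool.Agent.P.MP_638e8a_ag.ChPush
import Pool.Agent.P.MP_638e8a_ag.ChCutExt
import Pool.Agent.P.MP_638e8a_ag.ChKill
import Pool.Agent.P.MP_638e8a_ag.ChDiag

/-!
Task CHOW ACT0: supports and multiplicities of the intersection cycle.
-/

open CategoryTheory AlgebraicGeometry IsLocalRing TopologicalSpace

universe u

namespace Pool.Agent.P.MP_638e8a_ag.Cyc

open Pool.Agent.P.MP_90138e_ag
open Pool.Agent.P.MP_90138e_ag.WeilCohomology (fstH sndH)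

variable {k : Type u} [Field k] [IsAlgClosed k] {S S' T U P : SmProj k} {f : S.X ⟶ T.X}

section Graph

variable {p : P.X ⟶ S.X} {q : P.X ⟶ T.X} {γ : S.X ⟶ P.X}

omit [IsAlgClosed k] in
theorem graph_fst (h1 : γ ≫ p = 𝟙 _) (x : S.X.left) : p.left (γ.left x) = x := by
  rw [← comp_left_apply, h1]
  rfl

omit [IsAlgClosed k] in
theorem graph_snd (h2 : γ ≫ q = f) (x : S.X.left) : q.left (γ.left x) = f.left x := by
  rw [← comp_left_apply, h2]

omit [IsAlgClosed k] in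
theorem graph_le_iff (h1 : γ ≫ p = 𝟙 _) {x y : S.X.left} : γ.left x ≤ γ.left y ↔ x ≤ y := by
  refine ⟨fun h => ?_, map_le _⟩
  have h2 := map_le p.left h
  rwa [graph_fst h1, graph_fst h1] at h2

omit [IsAlgClosed k] in
theorem dm_graph (h1 : γ ≫ p = 𝟙 _) (x : S.X.left) : dm (γ.left x) = dm x :=
  haveI := isClosedImmersion_of_section γ p h1
  dm_map_of_closedImmersion γ x

theorem IsProd.graph_le_ext (h : IsProd p q) (h1 : γ ≫ p = 𝟙 _) (h2 : γ ≫ q = f)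
    {w x : S.X.left} {v : T.X.left} : γ.left x ≤ extPt p q w v ↔ x ≤ w ∧ f.left x ≤ v := by
  rw [h.le_ext, graph_fst h1, graph_snd h2]

/-- The components of the intersection of the graph with `w × v`. -/
theorem IsProd.comp_Dg_iff (h : IsProd p q) (h1 : γ ≫ p = 𝟙 _) (h2 : γ ≫ q = f)
    {w x : S.X.left} {v : T.X.left} : (Dg (p ≫ f) q).Comp (extPt p q w v) (γ.left x) ↔
      Maximal (fun s => s ≤ w ∧ f.left s ≤ v) x := by
  constructor
  · intro hx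
    refine ⟨(h.graph_le_ext h1 h2).1 hx.1.2, fun y hy hxy => (graph_le_iff h1).1 ?_⟩
    exact hx.2 ⟨(h.mem_supp_Dg h1 h2).2 ⟨y, rfl⟩, (h.graph_le_ext h1 h2).2 hy⟩ (map_le _ hxy)
  · intro hx
    refine ⟨⟨(h.mem_supp_Dg h1 h2).2 ⟨x, rfl⟩, (h.graph_le_ext h1 h2).2 hx.1⟩,
      fun z hz hxz => ?_⟩
    obtain ⟨y, rfl⟩ := (h.mem_supp_Dg h1 h2).1 hz.1
    exact map_le _ (hx.2 ((h.graph_le_ext h1 h2).1 hz.2) ((graph_le_iff h1).1 hxz))

omit [IsAlgClosed k] in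
theorem IsProd.support_cut_Dg (h : IsProd p q) (h1 : γ ≫ p = 𝟙 _) (h2 : γ ≫ q = f) (d : ℕ)
    (c : Zc P) : ∀ y ∈ ((Dg (p ≫ f) q).cut d c).support, y ∈ Set.range γ.left := fun _ hy => by
  obtain ⟨v, -, hv⟩ := IF.mem_support_cut hy
  exact (h.mem_supp_Dg h1 h2).1 hv.1.1

omit [IsAlgClosed k] in
theorem IsProd.actM_Dg_apply (h : IsProd p q) (h1 : γ ≫ p = 𝟙 _) (h2 : γ ≫ q = f) (α : Zc S)
    (β : Zc T) (x : S.X.left) : actM p q (Dg (p ≫ f) q) T.dim α β x =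
      (Dg (p ≫ f) q).cut T.dim (extZ p q α β) (γ.left x) := by
  rw [actM_apply, pushZ_section_apply γ p h1 _ (h.support_cut_Dg h1 h2 _ _)]

end Graph

theorem IsProd.pr_Dg_iff {p : P.X ⟶ S.X} {q : P.X ⟶ T.X} (h : IsProd p q) {w : S.X.left}
    {v : T.X.left} : (Dg (p ≫ f) q).Pr T.dim (extPt p q w v) ↔ PrI f w v := by
  obtain ⟨γ, h1, h2⟩ := h.exists_lift (𝟙 S.X) f
  constructor
  · intro H x hx hx'
    have h3 := H _ ((h.mem_supp_Dg h1 h2).2 ⟨x, rfl⟩) ((h.graph_le_ext h1 h2).2 ⟨hx, hx'⟩)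
    rwa [dm_graph h1, h.dm_ext] at h3
  · intro H z hz hz'
    obtain ⟨x, rfl⟩ := (h.mem_supp_Dg h1 h2).1 hz
    rw [h.graph_le_ext h1 h2] at hz'
    rw [dm_graph h1, h.dm_ext]
    exact H x hz'.1 hz'.2

theorem act_apply (f : S.X ⟶ T.X) (w : S.X.left) (v : T.X.left) (x : S.X.left) :
    act f (cy w) (cy v) x = icm f w v x := by
  rw [act, (isProd_prod S T).actM_Dg_apply (pair_fst (𝟙 S.X) f) (pair_snd (𝟙 S.X) f), extZ_cy,
    IF.cut_single_apply, icm]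

theorem icm_eq_zero {w x : S.X.left} {v : T.X.left}
    (h : ¬ Maximal (fun s => s ≤ w ∧ f.left s ≤ v) x) : icm f w v x = 0 :=
  IF.cm_of_not_comp _ fun h' =>
    h (((isProd_prod S T).comp_Dg_iff (pair_fst (𝟙 S.X) f) (pair_snd (𝟙 S.X) f)).1 h')

theorem icm_nonneg (f : S.X ⟶ T.X) (w : S.X.left) (v : T.X.left) (x : S.X.left) :
    0 ≤ icm f w v x := IF.cm_nonneg (Dg_gen _ _) _ _

theorem icm_pos {w x : S.X.left} {v : T.X.left} (h : PrI f w v)
    (hx : Maximal (fun s => s ≤ w ∧ f.left s ≤ v) x) : 0 < icm f w v x := by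
  have h1 := ((isProd_prod S T).comp_Dg_iff (pair_fst (𝟙 S.X) f) (pair_snd (𝟙 S.X) f)).2 hx
  exact h1.cm_pos (Dg_gen _ _)
    ((((isProd_prod S T).pr_Dg_iff.2 h).comp_iff (Dg_gen _ _)).1 h1).2.2

/-- The lower bound for the dimension of the components of an intersection. -/
theorem dm_ge_of_maximal {w x : S.X.left} {v : T.X.left}
    (hx : Maximal (fun s => s ≤ w ∧ f.left s ≤ v) x) : dm w + dm v ≤ dm x + T.dim := by
  have h1 := (((isProd_prod S T).comp_Dg_iff (pair_fst (𝟙 S.X) f)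
    (pair_snd (𝟙 S.X) f)).2 hx).dm_le (Dg_gen _ _)
  rwa [(isProd_prod S T).dm_ext, dm_graph (pair_fst (𝟙 S.X) f)] at h1

theorem prI_of_maximal {w : S.X.left} {v : T.X.left}
    (h : ∀ x, Maximal (fun s => s ≤ w ∧ f.left s ≤ v) x → dm x + T.dim ≤ dm w + dm v) :
    PrI f w v := by
  intro x hx hx'
  obtain ⟨y, hxy, hy⟩ := exists_maximal (C := {s | s ≤ w ∧ f.left s ≤ v})
    ((isClosed_le w).inter ((isClosed_le v).preimage f.left.continuous)) (x := x) ⟨hx, hx'⟩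
  have h1 := h y hy
  have h2 := dm_mono hxy
  omega

theorem mem_support_act {α : Zc S} {β : Zc T} {x : S.X.left} (h : x ∈ (act f α β).support) :
    ∃ w ∈ α.support, ∃ v ∈ β.support, Maximal (fun s => s ≤ w ∧ f.left s ≤ v) x := by
  rw [Finsupp.mem_support_iff, act,
    (isProd_prod S T).actM_Dg_apply (pair_fst (𝟙 S.X) f) (pair_snd (𝟙 S.X) f),
    ← Finsupp.mem_support_iff] at h
  obtain ⟨z, hz, hz'⟩ := IF.mem_support_cut h
  obtain ⟨w, hw, v, hv, rfl⟩ := mem_support_extZ hz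
  exact ⟨w, hw, v, hv,
    ((isProd_prod S T).comp_Dg_iff (pair_fst (𝟙 S.X) f) (pair_snd (𝟙 S.X) f)).1 hz'⟩

omit [IsAlgClosed k] in
theorem IntZ.extZ {α : Zc S} {β : Zc T} (hα : IntZ α) (hβ : IntZ β) (p : P.X ⟶ S.X)
    (q : P.X ⟶ T.X) : IntZ (extZ p q α β) := by
  classical
  have e : ∀ a : ℚ, (∃ n : ℤ, a = n) ↔ a ∈ (Int.castRingHom ℚ).range := fun a =>
    ⟨fun ⟨n, hn⟩ => ⟨n, hn.symm⟩, fun ⟨n, hn⟩ => ⟨n, hn.symm⟩⟩
  intro x
  rw [e]
  simp only [Cyc.extZ, Finsupp.linearCombination_apply, Finsupp.sum, LinearMap.sum_apply,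
    LinearMap.smul_apply, Finsupp.finsetSum_apply, Finsupp.smul_apply, smul_eq_mul]
  refine Subring.sum_mem _ fun w _ => Subring.mul_mem _ ((e _).1 (hα w))
    (Subring.sum_mem _ fun v _ => Subring.mul_mem _ ((e _).1 (hβ v)) ?_)
  rw [Finsupp.single_apply]
  split_ifs
  · exact one_mem _
  · exact zero_mem _

theorem IntZ.act {α : Zc S} {β : Zc T} (hα : IntZ α) (hβ : IntZ β) (f : S.X ⟶ T.X) :
    IntZ (act f α β) :=
  (IF.intZ_cut (hα.extZ hβ _ _)).pushZ _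

/-- The cycle on the graph. -/
theorem IsProd.cut_Dg {p : P.X ⟶ S.X} {q : P.X ⟶ T.X} (h : IsProd p q) {γ : S.X ⟶ P.X}
    (h1 : γ ≫ p = 𝟙 _) (h2 : γ ≫ q = f) (α : Zc S) (β : Zc T) :
    pushZ γ.left (actM p q (Dg (p ≫ f) q) T.dim α β) =
      (Dg (p ≫ f) q).cut T.dim (extZ p q α β) := by
  rw [actM_apply, pushZ_section γ p h1 _ (h.support_cut_Dg h1 h2 _ _)]

theorem PrA.push {h : S'.X ⟶ S.X} {α : Zc S'} {β : Zc T} (hp : PrA (h ≫ f) α β) :
    PrA f (pushZ h.left α) β := by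
  intro w hw v hv x hx hx'
  obtain ⟨w', hw', rfl, h1⟩ := mem_support_pushZ hw
  obtain ⟨x', h2, rfl⟩ := exists_le_of_le_map h.left hx
  have h3 := hp w' hw' v hv x' h2 hx'
  have h4 := dm_map_le h x'
  omega

theorem prA_gen (f : S.X ⟶ T.X) (α : Zc S) : PrA f α (cy T.gen) := by
  intro w _ v hv x hx _
  obtain rfl := Finset.mem_singleton.1 (Finsupp.support_single_subset hv)
  have h1 := dm_mono hx
  rw [dm_gen]
  omega

theorem IsProd.prA_flat {p : P.X ⟶ S.X} {q : P.X ⟶ T.X} (h : IsProd p q) (α : Zc S) :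
    PrA p (cy P.gen) α := by
  intro w hw v _ x _ hx
  obtain rfl := Finset.mem_singleton.1 (Finsupp.support_single_subset hw)
  have h1 := dm_mono ((h.le_ext (w := v) (v := T.gen)).2 ⟨hx, le_gen _⟩)
  rw [h.dm_ext, dm_gen] at h1
  rw [dm_gen, h.dim_eq]
  omega

theorem PrA.symm {α β : Zc S} (h : PrA (𝟙 S.X) α β) : PrA (𝟙 S.X) β α := by
  intro w hw v hv x hx hx'
  have h1 := h v hv w hw x hx' hx
  omega

end Pool.Agent.P.MP_638e8a_ag.Cyc
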