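import Pool.Agent.P.MP_638e8a_ag.ChAssoc0
import Pool.Agent.P.MP_638e8a_ag.ChAct

/-!
Task CHOW ASSOC: associativity of intersection cycles.
-/

open CategoryTheory AlgebraicGeometry IsLocalRing TopologicalSpace

universe u

namespace Pool.Agent.P.MP_638e8a_ag.Cyc

open Pool.Agent.P.MP_90138e_ag
open Pool.Agent.P.MP_90138e_ag.WeilCohomology (fstH sndH)

variable {k : Type u} [Field k] [IsAlgClosed k] {S T U SU TU : SmProj k} {f : S.X ⟶ T.X}

namespace Assoc

omit [IsAlgClosed k] in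
theorem cut_comm' {I I' : IF S.X.left} {d d' : ℕ} (hI : I.Gen d) (hI' : I'.Gen d') {c : Zc S}
    (h : ∀ v ∈ c.support, (I.add I').Pr (d + d') v) :
    I.cut d (I'.cut d' c) = I'.cut d' (I.cut d c) := by
  have hc : c = ∑ v ∈ c.support, c v • cy v := by
    conv_lhs => rw [← Finsupp.sum_single c]
    refine Finset.sum_congr rfl fun v _ => ?_
    rw [Finsupp.smul_single, smul_eq_mul, mul_one]
  rw [hc]
  simp only [map_sum, map_smul]
  exact Finset.sum_congr rfl fun v hv => by rw [IF.cut_comm hI hI' (h v hv)]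

omit [IsAlgClosed k] in
theorem apply_of_comp {P : SmProj k} {γ : S.X ⟶ P.X} {q : P.X ⟶ T.X} (h : γ ≫ q = f)
    (x : S.X.left) : q.left (γ.left x) = f.left x := by
  rw [← h]
  rfl

omit [IsAlgClosed k] in
theorem apply_of_section {P : SmProj k} {γ : S.X ⟶ P.X} {p : P.X ⟶ S.X} (h : γ ≫ p = 𝟙 _)
    (x : S.X.left) : p.left (γ.left x) = x :=
  apply_of_comp h x

omit [IsAlgClosed k] in
theorem dm_section {P : SmProj k} {γ : S.X ⟶ P.X} {p : P.X ⟶ S.X} (h : γ ≫ p = 𝟙 _)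
    (x : S.X.left) : dm (γ.left x) = dm x :=
  have := isClosedImmersion_of_section γ p h
  dm_map_of_closedImmersion γ x

omit [IsAlgClosed k] in
theorem eq_of_mem_cy {x y : S.X.left} (h : x ∈ (cy y).support) : x = y :=
  Finset.mem_singleton.1 (Finsupp.support_single_subset h)

end Assoc

open Assoc

theorem act_cut {I : IF S.X.left} {d : ℕ} (hI : I.Gen d) {α : Zc S} {β : Zc T}
    (h : ∀ w ∈ α.support, ∀ v ∈ β.support, ∀ x ∈ I.supp, x ≤ w → f.left x ≤ v →
      dm x + d + T.dim ≤ dm w + dm v) :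
    act f (I.cut d α) β = I.cut d (act f α β) ∧ ∀ x ∈ (act f α β).support, I.Pr d x := by
  have h0 := isProd_prod S T
  have h1 : pair (𝟙 S.X) f ≫ fstH S T = 𝟙 _ := pair_fst _ _
  have h2 : pair (𝟙 S.X) f ≫ sndH S T = f := pair_snd _ _
  have hD := Dg_gen (fstH S T ≫ f) (sndH S T)
  have hI' := hI.comap (fstH S T).left
  have hPr : ∀ z ∈ (extZ (fstH S T) (sndH S T) α β).support,
      ((Dg (fstH S T ≫ f) (sndH S T)).add (I.comap (fstH S T).left)).Pr (T.dim + d) z := by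
    intro z hz y hy hyz
    obtain ⟨w, hw, v, hv, rfl⟩ := mem_support_extZ hz
    obtain ⟨hy1, hy2⟩ := IF.mem_supp_add.1 hy
    obtain ⟨x, rfl⟩ := (h0.mem_supp_Dg h1 h2).1 hy1
    rw [IF.mem_supp_comap, apply_of_section h1] at hy2
    rw [h0.le_ext, apply_of_section h1, apply_of_comp h2] at hyz
    have := h w hw v hv x hy2 hyz.1 hyz.2
    rw [dm_section h1, h0.dm_ext]
    omega
  refine ⟨?_, fun x hx y hy hyx => ?_⟩
  · rw [act, actM_apply, actM_apply, ← h0.cut_ext hI, cut_comm' hD hI' hPr]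
    refine push_cut' hI _ fun y hy => ?_
    obtain ⟨z, hz, hc⟩ := IF.mem_support_cut hy
    exact hc.pr_of_add hD (hPr z hz)
  · obtain ⟨w, hw, v, hv, hm⟩ := mem_support_act hx
    have e1 := dm_ge_of_maximal hm
    have e2 := h w hw v hv y hy (hyx.trans hm.1.1) ((map_le f.left hyx).trans hm.1.2)
    omega

theorem act_assoc {g : T.X ⟶ U.X} {α : Zc S} {β : Zc T} {υ : Zc U}
    (H : ∀ w ∈ α.support, ∀ b ∈ β.support, ∀ t ∈ υ.support, ∀ x, x ≤ w → f.left x ≤ b →
      g.left (f.left x) ≤ t → dm x + T.dim + U.dim ≤ dm w + dm b + dm t) :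
    act (f ≫ g) (act f α β) υ = act f α (act g β υ) ∧ PrA f α (act g β υ) := by
  have h0 := isProd_prod S U
  have h1 : pair (fstH S U ≫ f) (sndH S U) ≫ fstH T U = fstH S U ≫ f := pair_fst _ _
  have h2 : pair (fstH S U ≫ f) (sndH S U) ≫ sndH T U = sndH S U := pair_snd _ _
  have h3 : pair (𝟙 S.X) (f ≫ g) ≫ fstH S U = 𝟙 _ := pair_fst _ _
  have h4 : pair (𝟙 S.X) (f ≫ g) ≫ sndH S U = f ≫ g := pair_snd _ _
  have hM : (Dg (fstH T U ≫ g) (sndH T U)).comap (pair (fstH S U ≫ f) (sndH S U)).left =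
      Dg (fstH S U ≫ f ≫ g) (sndH S U) := by
    rw [Dg_comap, ← Category.assoc, h1, h2, Category.assoc]
  have := actM_act h0 (isProd_prod T U) h1 h2 (Dg_gen (fstH T U ≫ g) (sndH T U))
    (α := α) (β := β) (υ := υ) (by
      intro w hw b hb t ht z hz e1 e2 e3
      rw [hM] at hz
      obtain ⟨x, rfl⟩ := (h0.mem_supp_Dg h3 h4).1 hz
      rw [apply_of_section h3] at e1 e2
      rw [apply_of_comp h4] at e3
      rw [dm_section h3]
      exact H w hw b hb t ht x e1 e2 e3)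
  rw [hM] at this
  exact this

/-- Reduction to the product on `S × T`. -/
theorem act_graph {P : SmProj k} {p : P.X ⟶ S.X} {q : P.X ⟶ T.X} (h : IsProd p q) {γ : S.X ⟶ P.X}
    (h1 : γ ≫ p = 𝟙 _) (h2 : γ ≫ q = f) {α : Zc S} {β : Zc T} (hp : PrA f α β) :
    PrA (𝟙 P.X) (pushZ γ.left α) (extZ p q (cy S.gen) β) ∧
      act f α β = pushZ p.left (act (𝟙 P.X) (pushZ γ.left α) (extZ p q (cy S.gen) β)) := by
  have hB : act q (cy P.gen) β = extZ p q (cy S.gen) β := by
    rw [h.symm.act_flat, h.extZ_symm]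
  obtain ⟨e1, e2⟩ := act_assoc (f := γ) (g := q) (α := α) (β := cy P.gen) (υ := β) (by
    intro w hw b hb t ht x e1 _ e3
    rw [apply_of_comp h2] at e3
    have := hp w hw t ht x e1 e3
    rw [eq_of_mem_cy hb, dm_gen]
    omega)
  rw [act_gen, h2, hB] at e1
  rw [hB, ← Category.comp_id γ] at e2
  refine ⟨e2.push, ?_⟩
  have h3 : γ.left ≫ p.left = 𝟙 _ := congrArg (fun f => f.left) h1
  rw [← push_act e2, ← pushZ_comp, h3, pushZ_id, Category.comp_id, e1]

end Pool.Agent.P.MP_638e8a_ag.Cyc
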