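import Pool.Agent.P.MP_638e8a_ag.ChAct

/-!
Task CHOW ASSOC0: the general associativity formula.
-/

open CategoryTheory AlgebraicGeometry IsLocalRing TopologicalSpace

universe u

namespace Pool.Agent.P.MP_638e8a_ag.Cyc

open Pool.Agent.P.MP_90138e_ag
open Pool.Agent.P.MP_90138e_ag.WeilCohomology (fstH sndH)

variable {k : Type u} [Field k] [IsAlgClosed k] {S T U SU TU : SmProj k} {f : S.X ⟶ T.X}

namespace Assoc0

omit [IsAlgClosed k] in
theorem cut_add' {I I' : IF S.X.left} {d d' : ℕ} (hI : I.Gen d) (hI' : I'.Gen d') {c : Zc S}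
    (h : ∀ v ∈ c.support, (I.add I').Pr (d + d') v) :
    (I.add I').cut (d + d') c = I'.cut d' (I.cut d c) := by
  have hc : c = ∑ v ∈ c.support, c v • cy v := by
    conv_lhs => rw [← Finsupp.sum_single c]
    refine Finset.sum_congr rfl fun v _ => ?_
    rw [Finsupp.smul_single, smul_eq_mul, mul_one]
  rw [hc]
  simp only [map_sum, map_smul]
  exact Finset.sum_congr rfl fun v hv => by rw [IF.cut_add hI hI' (h v hv)]

theorem extZ_assoc {X Y S' : SmProj k} {p : S.X ⟶ X.X} {q : S.X ⟶ Y.X} (h : IsProd p q)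
    {a : T.X ⟶ S.X} {b : T.X ⟶ U.X} (h' : IsProd a b) {p' : S'.X ⟶ Y.X} {q' : S'.X ⟶ U.X}
    (h'' : IsProd p' q') {r : T.X ⟶ S'.X} (hr : r ≫ p' = a ≫ q) (hr' : r ≫ q' = b) (α : Zc X)
    (β : Zc Y) (υ : Zc U) :
    extZ a b (extZ p q α β) υ = extZ (a ≫ p) r α (extZ p' q' β υ) := by
  have e : ∀ {Z : SmProj k} (x : Z.X.left) (c : ℚ), Finsupp.single x c = c • cy x :=
    fun x c => by rw [Finsupp.smul_single, smul_eq_mul, mul_one]
  induction α using Finsupp.induction_linear with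
  | zero => simp
  | add α α' h1 h2 => simp only [map_add, LinearMap.add_apply, h1, h2]
  | single w c1 =>
    induction β using Finsupp.induction_linear with
    | zero => simp
    | add β β' h1 h2 => simp only [map_add, LinearMap.add_apply, h1, h2]
    | single v c2 =>
      induction υ using Finsupp.induction_linear with
      | zero => simp
      | add υ υ' h1 h2 => simp only [map_add, h1, h2]
      | single t c3 =>
        rw [e w, e v, e t]
        simp only [map_smul, LinearMap.smul_apply, extZ_cy, h.ext_assoc h' h'' hr hr', smul_smul]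
        congr 1
        ring

omit [IsAlgClosed k] in
theorem apply_of_comp {P : SmProj k} {γ : S.X ⟶ P.X} {q : P.X ⟶ T.X} (h : γ ≫ q = f)
    (x : S.X.left) : q.left (γ.left x) = f.left x := by
  rw [← h]
  rfl

end Assoc0

open Assoc0

/-- General associativity. -/
theorem actM_act {p : SU.X ⟶ S.X} {q : SU.X ⟶ U.X} (h : IsProd p q) {p' : TU.X ⟶ T.X}
    {q' : TU.X ⟶ U.X} (h' : IsProd p' q') {F : SU.X ⟶ TU.X} (h1 : F ≫ p' = p ≫ f)
    (h2 : F ≫ q' = q) {M : IF TU.X.left} {d : ℕ} (hM : M.Gen d) {α : Zc S} {β : Zc T} {υ : Zc U}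
    (H : ∀ w ∈ α.support, ∀ b ∈ β.support, ∀ t ∈ υ.support, ∀ z ∈ (M.comap F.left).supp,
      p.left z ≤ w → f.left (p.left z) ≤ b → q.left z ≤ t →
      dm z + T.dim + d ≤ dm w + dm b + dm t) :
    actM p q (M.comap F.left) d (act f α β) υ = act f α (actM p' q' M d β υ) ∧
      PrA f α (actM p' q' M d β υ) := by
  have hQ := isProd_prod SU T
  have h0 := isProd_prod S T
  set a := fstH SU T
  set c := sndH SU T
  set p0 := fstH S T
  set q0 := sndH S T
  obtain ⟨r, hr1, hr2⟩ := h'.exists_lift c (a ≫ q)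
  obtain ⟨e, he1, he2⟩ := h0.exists_lift (a ≫ p) c
  have hA : IsProd (a ≫ p) r := h.assoc hQ h'.symm hr2 hr1
  have hB : IsProd (a ≫ q) e := h.symm.assoc hQ h0 he1 he2
  set Z0 := extZ a c (extZ p q α υ) β with hZ0
  have hZ1 : extZ r (a ≫ p) (extZ p' q' β υ) α = Z0 := by
    rw [hA.extZ_symm, ← h'.extZ_symm, hZ0, extZ_assoc h hQ h'.symm hr2 hr1]
  have hZ2 : extZ e (a ≫ q) (extZ p0 q0 α β) υ = Z0 := by
    rw [hB.extZ_symm, hZ0, ← h.extZ_symm, extZ_assoc h.symm hQ h0 he1 he2]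
  have hD0 := Dg_gen (p0 ≫ f) q0
  have hDe : (Dg (p0 ≫ f) q0).comap e.left = Dg (a ≫ p ≫ f) c := by
    rw [Dg_comap, ← Category.assoc, he1, he2, Category.assoc]
  have hD := Dg_gen (a ≫ p ≫ f) c
  have hMF := hM.comap F.left
  have hN' := hMF.comap a.left
  have hN := hM.comap r.left
  have hDN : (M.comap r.left).add (Dg (a ≫ p ≫ f) c) =
      (Dg (a ≫ p ≫ f) c).add ((M.comap F.left).comap a.left) := by
    rw [IF.add_comm]
    refine IF.ext_kills fun R _ ι => ?_
    simp only [IF.kills_add, IF.kills_comap, kills_Dg]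
    refine and_congr_right fun h3 => ?_
    have h4 : ι ≫ r.left = (ι ≫ a.left) ≫ F.left := by
      refine IsPullback.hom_ext h' ?_ ?_
      · simp only [Category.assoc]
        rw [← Over.comp_left, ← Over.comp_left, ← Over.comp_left, hr1, h1, h3]
      · simp only [Category.assoc]
        rw [← Over.comp_left, ← Over.comp_left, ← Over.comp_left, hr2, h2]
    rw [h4]
  have hPr : ∀ z ∈ Z0.support,
      ((Dg (a ≫ p ≫ f) c).add ((M.comap F.left).comap a.left)).Pr (T.dim + d) z := by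
    intro z hz y hy hyz
    obtain ⟨s, hs, b, hb, rfl⟩ := mem_support_extZ hz
    obtain ⟨w, hw, t, ht, rfl⟩ := mem_support_extZ hs
    obtain ⟨hy1, hy2⟩ := IF.mem_supp_add.1 hy
    obtain ⟨γ, g1, g2⟩ := hQ.exists_lift (𝟙 _) (p ≫ f)
    obtain ⟨x, rfl⟩ := (hQ.mem_supp_Dg g1 g2).1 hy1
    have g3 : a.left (γ.left x) = x := apply_of_comp g1 x
    rw [IF.mem_supp_comap, g3] at hy2
    rw [hQ.le_ext, h.le_ext, g3, apply_of_comp g2] at hyz
    have := isClosedImmersion_of_section γ a g1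
    have := H w hw b hb t ht x hy2 hyz.1.1 hyz.2 hyz.1.2
    rw [dm_map_of_closedImmersion, hQ.dm_ext, h.dm_ext]
    omega
  have hPr' : ∀ z ∈ Z0.support,
      ((M.comap r.left).add (Dg (a ≫ p ≫ f) c)).Pr (d + T.dim) z := by
    rwa [hDN, add_comm d]
  constructor
  · have e1 := h.push_ext hB.symm (g := 𝟙 U.X) he1.symm (Category.comp_id _).symm
      ((Dg (p0 ≫ f) q0).cut T.dim (extZ p0 q0 α β)) υ
    have e2 := h0.push_ext hA (f := 𝟙 S.X) (he1.trans (Category.comp_id _).symm)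
      (he2.trans hr1.symm) α (M.cut d (extZ p' q' β υ))
    rw [Over.id_left, pushZ_id, ← hB.symm.cut_ext hD0, hZ2, hDe] at e1
    rw [Over.id_left, pushZ_id, ← hA.extZ_symm, ← hA.symm.cut_ext hM, hZ1] at e2
    have e3 := push_cut' hMF a (c := (Dg (a ≫ p ≫ f) c).cut T.dim Z0) fun y hy => by
      obtain ⟨z, hz, hc⟩ := IF.mem_support_cut hy
      exact hc.pr_of_add hD (hPr z hz)
    have e4 := push_cut' hD0 e (c := (M.comap r.left).cut d Z0) fun y hy => by
      obtain ⟨z, hz, hc⟩ := IF.mem_support_cut hy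
      rw [hDe]
      exact hc.pr_of_add hN (hPr' z hz)
    rw [act, actM_apply, actM_apply, actM_apply, actM_apply, ← e1, ← e2, ← e3, ← e4, hDe,
      ← cut_add' hD hN' hPr, ← cut_add' hN hD hPr', hDN, add_comm d, ← pushZ_comp, ← pushZ_comp,
      ← Over.comp_left, ← Over.comp_left, he1]
  · intro w hw b' hb' x hx hfx
    rw [actM_apply] at hb'
    obtain ⟨y, hy, rfl, hd⟩ := mem_support_pushZ hb'
    obtain ⟨s, hs, hc⟩ := IF.mem_support_cut hy
    obtain ⟨b, hb, t, ht, rfl⟩ := mem_support_extZ hs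
    obtain ⟨y', hy', e1⟩ := exists_le_of_le_map p'.left hfx
    obtain ⟨z, rfl, rfl⟩ := Scheme.exists_preimage_of_isPullback (h'.isPullback h h1 h2) y' x e1
    have e2 := h'.le_ext.1 (hy'.trans hc.1.2)
    rw [e1, apply_of_comp h2] at e2
    have e3 := H w hw b hb t ht z
      (IF.mem_supp_comap.2 (mem_closed_of_le M.isClosed_supp hy' hc.1.1)) hx e2.1 e2.2
    have e4 := hc.dm_le hM
    have e5 := dm_map_le p z
    rw [h'.dm_ext] at e4
    omega

end Pool.Agent.P.MP_638e8a_ag.Cyc
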