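import Pool.Agent.P.MP_638e8a_ag.ChDefs

/-!
Lefschetz classes, the standard conjecture `B`, weak Lefschetz.
-/

open CategoryTheory MonoidalCategory CartesianMonoidalCategory

universe u v w

namespace Pool.Agent.P.MP_638e8a_ag.Cyc

open Pool.Agent.P.MP_90138e_ag

variable {k : Type u} [Field k] {K : Type v} [Field K] (D : CohData.{u, v, w} k K)

/-- `ξ` is a divisor class satisfying hard Lefschetz. -/
def LefClass (X : SmProj k) (ξ : D.H X) : Prop :=
  (∃ c, HasCodim c 1 ∧ ξ = cls (K := K) (D.cl X) c) ∧ HardLefschetz (D.deg X) X.dim ξ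

/-- The standard conjecture `B(X, ξ)`: the operator `Λ` of the Lefschetz decomposition defined by
`ξ` is induced by a cycle of codimension `n - 1` on `X × X`, `n = dim X`. -/
def StandardB (X : SmProj k) (ξ : D.H X) : Prop :=
  ∃ c, HasCodim c (X.dim - 1) ∧ ∃ Λ : D.H X →ₗ[K] D.H X,
    Acts D c Λ ∧ IsLambda (D.deg X) X.dim ξ Λ

/-- The class `p₁^* ξ + p₂^* ζ` on `X × F`. -/
noncomputable def boxSum (X F : SmProj k) (ξ : D.H X) (ζ : D.H F) : D.H (X.prod F) :=
  D.pull (X := X.prod F) (fst X.X F.X) ξ + D.pull (X := X.prod F) (snd X.X F.X) ζ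

/-- `ι_* 1 = d • η`. -/
def HasClass {Y Z : SmProj k} (ι : Y.X ⟶ Z.X) (d : ℕ) (η : D.H Z) : Prop :=
  PushesTo (D.pull ι) (D.tr Y) (D.tr Z) 1 d η

/-- The surjectivity half of weak Lefschetz: `ι^* : H^j(Z) → H^j(Y)` is onto for `j < dim Y`. -/
def WeakLefschetz {Y Z : SmProj k} (ι : Y.X ⟶ Z.X) : Prop :=
  ∀ j < Y.dim, Set.SurjOn (D.pull ι) (D.deg Z j) (D.deg Y j)

end Pool.Agent.P.MP_638e8a_ag.Cyc
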