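import Pool.Agent.P.MP_638e8a_ag.ChFinal
import Pool.Agent.P.MP_638e8a_ag.ChDefsB
import Pool.Agent.P.MP_90138e_ag.Final2

/-!
The standard conjecture of Lefschetz type for varieties whose cohomology below the middle degree
is motivated by curves.
-/

open CategoryTheory AlgebraicGeometry

universe u v w

namespace Pool.Agent.P.MP_638e8a_ag.Cyc

open Pool.Agent.P.MP_90138e_ag
open Pool.Agent.P.MP_90138e_ag.WeilCohomology

variable {k : Type u} [Field k] [IsAlgClosed k] {K : Type v} [Field K] [CharZero K]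

theorem lefschetz_of_projFact (W : WeilCohomology.{u, v, w} k K) (X : SmProj k)
    (hlow : ∀ i < X.dim, W.ProjFact X i) (ξ : W.H X) (hξ : ξ ∈ W.C X 1)
    (hL : HardLefschetz (W.deg X) X.dim ξ) :
    ∃ γ ∈ W.C (X.prod X) (X.dim - 1), ∃ Λ : W.H X →ₗ[K] W.H X, W.Induces γ Λ ∧
      IsLambda (W.deg X) X.dim ξ Λ := by
  have hhigh : ∀ i < X.dim, W.ProjFact X (2 * X.dim - i) := fun i hi =>
    (hlow i hi).dual (by omega)
  have hne : ∀ m ≠ X.dim, W.AlgOp (W.proj X m) := by
    intro m hm
    rcases lt_or_gt_of_ne hm with h | h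
    · exact (hlow m h).algOp
    · by_cases h2 : m ≤ 2 * X.dim
      · have := (hhigh (2 * X.dim - m) (by omega)).algOp
        rwa [show 2 * X.dim - (2 * X.dim - m) = m by omega] at this
      · have : W.proj X m = 0 := by
          ext x
          have hx := W.proj_mem X m x
          rwa [W.deg_eq_bot X m (by omega)] at hx
        rw [this]
        exact AlgOp.zero
  have hπ : ∀ m, W.AlgOp (W.proj X m) := by
    intro m
    by_cases hm : m = X.dim
    · have : W.proj X m = LinearMap.id -
          ∑ m' ∈ (Finset.range (2 * X.dim + 1)).erase m, W.proj X m' := by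
        ext x
        have h := W.sum_proj X x
        rw [← Finset.add_sum_erase _ _ (a := m) (Finset.mem_range.2 (by omega))] at h
        simp only [LinearMap.sub_apply, LinearMap.id_apply, LinearMap.sum_apply]
        exact eq_sub_of_add_eq h
      rw [this]
      exact AlgOp.id.sub (AlgOp.sum _ _ fun m' hm' => hne m' (hm ▸ Finset.ne_of_mem_erase hm'))
    · exact hne m hm
  refine exists_lambda X ξ hξ hπ fun i hi => ?_
  rcases hi.lt_or_eq with hi' | rfl
  · exact exists_inverse_of_projFact (by omega) (hlow i hi') (hhigh i hi')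
      (LinearMap.mulLeft K (ξ ^ (X.dim - i))) (AlgOp.mulLeft ((IsAlg.of_C hξ).pow _)) (hL i hi)
  · exact ⟨LinearMap.id, AlgOp.id, fun x _ => by simp⟩

variable {D : CohData.{u, v, w} k K}

theorem standardB_of_motivated (hD : IsWeil D) (X : SmProj k)
    (hX : ∀ i < X.dim, Motivated D X i) (ξ : D.H X) (hξ : LefClass D X ξ) : StandardB D X ξ := by
  have h1 : (ξ : hD.toWeil.H X) ∈ hD.toWeil.C X 1 := hξ.1
  obtain ⟨_, ⟨c, h2, rfl⟩, h3⟩ := lefschetz_of_projFact hD.toWeil X (fun i hi => by
    have h4 := ((hX i hi).toWeil hD).mot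
    obtain ⟨Y, U, V, h5, h6, h7, h8⟩ := factor_proj (by omega) h4
      (h4.mul ((IsAlg.of_C h1).pow _) (hξ.2 i hi.le))
    exact ⟨1, fun _ => Y, fun _ => V, fun _ => U, fun _ => h5, fun _ => h7, fun _ => h6,
      by simpa using h8⟩) ξ h1 hξ.2
  exact ⟨c, h2, h3⟩

end Pool.Agent.P.MP_638e8a_ag.Cyc
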