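import Pool.Agent.P.MP_638e8a_ag.ChFinal

/-!
Base change in a cartesian square of smooth varieties of the expected dimension.
-/

open CategoryTheory AlgebraicGeometry IsLocalRing TopologicalSpace

universe u

namespace Pool.Agent.P.MP_638e8a_ag.Cyc

open Pool.Agent.P.MP_90138e_ag
open Pool.Agent.P.MP_90138e_ag.WeilCohomology (fstH sndH)

variable {k : Type u} [Field k] [IsAlgClosed k] {T : ChowTheory k} {X' X Y' Y : SmProj k}

theorem dl_eq_push (hT : IsStd T) {g' : X'.X ⟶ X.X} {f' : X'.X ⟶ Y'.X} {f : X.X ⟶ Y.X}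
    {g : Y'.X ⟶ Y.X} (h : IsPullback g'.left f'.left f.left g.left)
    (hd : X'.dim + Y.dim = X.dim + Y'.dim) :
    T.dl (fstH Y' X ≫ g) (sndH Y' X ≫ f) = T.push (pair f' g') 1 := by
  have e1 : (pair f' g').left ≫ (fstH Y' X).left = f'.left := congrArg (·.left) (pair_fst f' g')
  have e2 : (pair f' g').left ≫ (sndH Y' X).left = g'.left := congrArg (·.left) (pair_snd f' g')
  have : Mono (pair f' g').left := ⟨fun a b hab => h.hom_ext
    (by rw [← e2, ← Category.assoc, hab, Category.assoc])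
    (by rw [← e1, ← Category.assoc, hab, Category.assoc])⟩
  have : IsClosedImmersion (pair f' g').left :=
    (IsClosedImmersion.iff_isProper_and_mono _).2 ⟨inferInstance, inferInstance⟩
  have := isClosedImmersion_of_section (pair (𝟙 Y.X) (𝟙 Y.X)) (fstH Y Y) (pair_fst _ _)
  have h1 : (IF.prime (Y'.prod X).gen).add (Dg (fstH Y' X ≫ g) (sndH Y' X ≫ f)) =
      IF.prime ((pair f' g').left X'.gen) := by
    refine IF.ext_kills fun R _ ι => ?_
    rw [IF.kills_add, kills_Dg, IF.kills_prime_map]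
    refine ⟨fun ⟨_, h2⟩ => ⟨h.lift (ι ≫ (sndH Y' X).left) (ι ≫ (fstH Y' X).left)
      (by simpa using h2.symm), ?_, IF.kills_gen _⟩, ?_⟩
    · refine IsPullback.hom_ext (isProd_prod Y' X) ?_ ?_
      · rw [Category.assoc, e1, h.lift_snd]
      · rw [Category.assoc, e2, h.lift_fst]
    · rintro ⟨ι', rfl, -⟩
      refine ⟨IF.kills_gen _, ?_⟩
      simp only [Over.comp_left, Category.assoc]
      rw [reassoc_of% e1, reassoc_of% e2, h.w]
  obtain ⟨h2, h3⟩ := act_eq_cy (f := pair (fstH Y' X ≫ g) (sndH Y' X ≫ f)) h1 (by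
    rw [dm_map_of_closedImmersion, dm_map_of_closedImmersion, dm_gen, dm_gen, dm_gen]
    change X'.dim + (Y.dim + Y.dim) = Y'.dim + X.dim + Y.dim
    omega)
  have h4 := hT _ _ (pair (fstH Y' X ≫ g) (sndH Y' X ≫ f)) (cy (Y'.prod X).gen)
    (cy ((pair (𝟙 Y.X) (𝟙 Y.X)).left Y.gen)) (prA_cy_iff.2 fun v hv => by
      obtain rfl : v = _ := by simpa using hv
      exact h2)
  rw [h3, clZ_single, clZ_single, clZ_single, one_smul, one_smul, one_smul, T.cl_gen, one_mul,
    ← T.push_cl_section _ _ (pair_fst _ _), T.cl_gen] at h4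
  rw [← T.cl_gen, T.push_cl, residueDegree_of_closedImmersion, one_smul, h4]
  rfl

theorem base_change_of_isStd (hT : IsStd T) {g' : X'.X ⟶ X.X} {f' : X'.X ⟶ Y'.X} {f : X.X ⟶ Y.X}
    {g : Y'.X ⟶ Y.X} (h : IsPullback g'.left f'.left f.left g.left)
    (hd : X'.dim + Y.dim = X.dim + Y'.dim) (x : T.A X) :
    T.pull g (T.push f x) = T.push f' (T.pull g' x) := by
  have h1 := T.int_dl_mul g (T.pull (sndH Y' Y) (T.push f x))
  rw [← T.pull_comp, pair_snd, T.base_change_snd, ← T.projection', T.pull_dl, pair_fst_assoc,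
    pair_snd, dl_eq_push hT h hd, ← T.push_pull, ← T.pull_comp, pair_snd, ChowTheory.int,
    ← T.push_comp, ← T.push_comp, pair_fst, pair_fst] at h1
  exact h1.symm

end Pool.Agent.P.MP_638e8a_ag.Cyc
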