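import Pool.Agent.P.MP_638e8a_ag.ChRat

/-!
Task CHOW CONT: continuity in families over the projective line.
-/

open CategoryTheory AlgebraicGeometry IsLocalRing TopologicalSpace

universe u

namespace Pool.Agent.P.MP_638e8a_ag.Cyc

open Pool.Agent.P.MP_90138e_ag
open Pool.Agent.P.MP_90138e_ag.WeilCohomology (fstH sndH)

variable {k : Type u} [Field k] [IsAlgClosed k] {S S' : SmProj k}

omit [IsAlgClosed k] in
theorem Line.eq_of_mem_fib (L : Line k) (q : S'.X ⟶ L.C.X) (i : Fin 2) {x : S'.X.left}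
    (hx : x ∈ (L.fib q i).supp) : q.left x = (L.s i).left (SmProj.pt k).gen := by
  rw [Line.fib, ← Sec.one_comap, Sec.zero_comap, L.zero, IF.mem_supp_comap,
    IF.mem_supp_prime] at hx
  refine eq_of_le_of_dm_le hx ((dm_map_le (L.s i) _).trans ?_)
  rw [dm_gen]
  exact Nat.zero_le _

omit [IsAlgClosed k] in
theorem Line.comap_s_eq_zero (L : Line k) (i : Fin 2) (x : S.X.left) :
    (L.t.comap (toPt S ≫ L.s i).left).s x i = 0 := by
  have h : ∀ y : (SmProj.pt k).X.left, (L.t.comap (L.s i).left).s y i = 0 := fun y => by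
    have h1 : L.t.s ((L.s i).left y) i ∈ (L.t.one i).zero.J ((L.s i).left y) :=
      Ideal.subset_span ⟨(), rfl⟩
    rw [L.zero, IF.prime_J, ← ker_stm] at h1
    exact h1
  have h2 : L.t.comap (toPt S ≫ L.s i).left = (L.t.comap (L.s i).left).comap (toPt S).left :=
    Sec.comap_comp _ _ _
  rw [h2]
  change stm _ _ _ = 0
  rw [h, map_zero]

theorem Sec.mul_comap {σ τ : Type} {X Y : Scheme.{u}} (a : Sec Y σ) (b : Sec Y τ) (f : X ⟶ Y) :
    (a.mul b).comap f = (a.comap f).mul (b.comap f) :=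
  Sec.ext' (funext fun _ => funext fun _ => map_mul _ _ _)

/-- Continuity in a family over the projective line. -/
theorem Line.cut_sub_mem (L : Line k) {p : S'.X ⟶ S.X} {q : S'.X ⟶ L.C.X} (h : IsProd p q)
    (e : Fin 2 → (S.X ⟶ S'.X)) (he : ∀ i, e i ≫ p = 𝟙 _) (he' : ∀ i, e i ≫ q = toPt S ≫ L.s i)
    {I : IF S'.X.left} {d : ℕ} (hI : I.Gen d) {v : S.X.left}
    (hv : ∀ i, (I.comap (e i).left).Pr d v) :
    (I.comap (e 1).left).cut d (cy v) - (I.comap (e 0).left).cut d (cy v) ∈ ratP S.X.left := by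
  have hcl := fun i => isClosedImmersion_of_section (e i) p (he i)
  have hpr : ∀ i, (I.add (L.fib q i)).Pr (d + 1) (extPt p q v L.C.gen) := by
    intro i x hx hz
    obtain ⟨h1, h2⟩ := IF.mem_supp_add.1 hx
    have h3 := h.mem_range_section (L.s i) (he i) (he' i) (L.eq_of_mem_fib q i h2)
    have h4 := hv i (p.left x) (IF.mem_supp_comap.2 (h3.symm ▸ h1)) (h.le_ext.1 hz).1
    have h5 := dm_map_of_closedImmersion (e i) (p.left x)
    rw [h3] at h5
    rw [h.dm_ext, dm_gen, L.dim]
    omega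
  have key : ∀ i, (I.comap (e i).left).cut d (cy v) =
      pushZ p.left ((L.fib q i).cut 1 (I.cut d (cy (extPt p q v L.C.gen)))) := by
    intro i
    have h1 : pushZ (e i).left (cy v) = cy ((e i).left v) := by
      rw [pushZ_single, residueDegree_of_closedImmersion]
      simp
    have h2 : (e i).left ≫ p.left = 𝟙 _ := congrArg (fun f => f.left) (he i)
    rw [← IF.cut_comm hI (L.fib_gen q i) (hpr i), L.cut_fib h,
      ← h.section_apply (L.s i) (he i) (he' i), ← h1, ← push_cut hI (e i) (hv i), ← pushZ_comp,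
      h2, pushZ_id]
  rw [key, key, ← map_sub]
  exact push_mem_ratP p (L.fib_sub_mem q fun y hy i =>
    (IF.comp_of_mem_cut hy).pr_of_add hI (hpr i))

/-- Continuity in a pencil of matrices. -/
theorem pencil_mem {d : ℕ} {σ : Type} [Fintype σ] {a : Sec S.X.left (Fin (d + 1))} (ha : a.Bpf)
    (b : Sec S.X.left σ) (B B' : Fin (d + 1) → σ → k) {v : S.X.left}
    (h : (a.minor (b.lin B)).zero.Pr d v) (h' : (a.minor (b.lin B')).zero.Pr d v) :
    (a.minor (b.lin B)).zero.cut d (cy v) - (a.minor (b.lin B')).zero.cut d (cy v) ∈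
      ratP S.X.left := by
  obtain ⟨L⟩ := nonempty_line k
  let A : Fin (d + 1) → Fin 2 × σ → k := fun j il => ![B, B'] il.1 j il.2
  let cc := ((L.t.comap (sndH S L.C).left).mul (b.comap (fstH S L.C).left)).lin A
  let e : Fin 2 → (S.X ⟶ (S.prod L.C).X) := fun i => pair (𝟙 _) (toPt S ≫ L.s i)
  have he : ∀ i, e i ≫ fstH S L.C = 𝟙 _ := fun i => pair_fst _ _
  have he' : ∀ i, e i ≫ sndH S L.C = toPt S ≫ L.s i := fun i => pair_snd _ _
  have hc : ∀ {τ : Type} (c : Sec S.X.left τ) (i : Fin 2),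
      (c.comap (fstH S L.C).left).comap (e i).left = c := fun c i => by
    have h2 : (e i).left ≫ (fstH S L.C).left = 𝟙 _ := congrArg (fun f => f.left) (he i)
    rw [← Sec.comap_comp, h2, Sec.comap_id]
  have hI : ∀ i, ((a.comap (fstH S L.C).left).minor cc).zero.comap (e i).left =
      (a.minor (((L.t.comap (toPt S ≫ L.s i).left).mul b).lin A)).zero := fun i => by
    have h2 : (e i).left ≫ (sndH S L.C).left = (toPt S ≫ L.s i).left :=
      congrArg (fun f => f.left) (he' i)
    rw [Sec.minor_comap, hc, Sec.lin_comap, Sec.mul_comap, hc, ← Sec.comap_comp, h2]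
  have hu : ∀ (i j : Fin 2), i ≠ j → ∀ x : S.X.left,
      IsUnit ((L.t.comap (toPt S ≫ L.s i).left).s x j) := fun i j hij x => by
    obtain ⟨l, hl⟩ := L.bpf.comap (toPt S ≫ L.s i).left x
    have h1 : l ≠ i := fun h1 => by
      rw [h1, L.comap_s_eq_zero] at hl
      exact not_isUnit_zero hl
    obtain rfl : l = j := by omega
    exact hl
  have h1 : (a.minor (((L.t.comap (toPt S ≫ L.s 1).left).mul b).lin A)).zero =
      (a.minor (b.lin B)).zero := by
    refine Sec.minor_congr a fun x => ⟨(hu 1 0 (by decide) x).unit, fun j => ?_⟩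
    simp only [Sec.lin, Sec.mul, Fintype.sum_prod_type, Fin.sum_univ_two, L.comap_s_eq_zero,
      IsUnit.unit_spec, zero_mul, mul_zero, Finset.sum_const_zero, add_zero, Finset.mul_sum, A]
    exact Finset.sum_congr rfl fun l _ => mul_left_comm _ _ _
  have h0 : (a.minor (((L.t.comap (toPt S ≫ L.s 0).left).mul b).lin A)).zero =
      (a.minor (b.lin B')).zero := by
    refine Sec.minor_congr a fun x => ⟨(hu 0 1 (by decide) x).unit, fun j => ?_⟩
    simp only [Sec.lin, Sec.mul, Fintype.sum_prod_type, Fin.sum_univ_two, L.comap_s_eq_zero,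
      IsUnit.unit_spec, zero_mul, mul_zero, Finset.sum_const_zero, zero_add, Finset.mul_sum, A]
    exact Finset.sum_congr rfl fun l _ => mul_left_comm _ _ _
  have := L.cut_sub_mem (isProd_prod S L.C) e he he'
    (Sec.minor_gen (ha.comap (fstH S L.C).left) cc) (v := v)
    (Fin.forall_fin_two.2 ⟨by rwa [hI, h0], by rwa [hI, h1]⟩)
  rwa [hI, hI, h0, h1] at this

end Pool.Agent.P.MP_638e8a_ag.Cyc
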