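import Pool.Agent.P.MP_638e8a_ag.ChCoord0
import Pool.Agent.P.MP_638e8a_ag.ChKill

/-!
Task CHOW COORD: homogeneous coordinates.
-/

open CategoryTheory AlgebraicGeometry IsLocalRing TopologicalSpace

universe u

namespace Pool.Agent.P.MP_638e8a_ag.Cyc

open Pool.Agent.P.MP_90138e_ag
open Pool.Agent.P.MP_90138e_ag.WeilCohomology (fstH sndH)

variable {k : Type u} [Field k]

theorem coord_comap {X Y : Scheme.{u}} {R : CommRingCat.{u}} [IsLocalRing R] {σ : Type}
    (s : Sec Y σ) (f : X ⟶ Y) (ι : Spec R ⟶ X) (i : σ) :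
    (Scheme.stalkClosedPointTo ι).hom ((s.comap f).s _ i) =
      (Scheme.stalkClosedPointTo (ι ≫ f)).hom (s.s _ i) := by
  rw [Scheme.stalkClosedPointTo_comp]
  rfl

theorem exists_coord (T : SmProj k) :
    ∃ (N : ℕ) (s : Sec T.X.left (Fin (N + 1))), s.Bpf ∧
      ∀ (S : SmProj k) (a b : S.X ⟶ T.X),
        ((s.comap a.left).minor (s.comap b.left)).zero = Dg a b := by
  obtain ⟨N, e, he⟩ := T.projective
  obtain ⟨s0, h1, h2, -⟩ := exists_coord_proj k N
  refine ⟨N, s0.comap e.left, h1.comap _, fun S a b => IF.ext_kills fun R _ ι => ?_⟩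
  rw [IF.kills_zero, kills_Dg]
  have key : ∀ ij : Fin (N + 1) × Fin (N + 1),
      (Scheme.stalkClosedPointTo ι).hom
        ((((s0.comap e.left).comap a.left).minor ((s0.comap e.left).comap b.left)).s _ ij) =
      (Scheme.stalkClosedPointTo ((ι ≫ a.left) ≫ e.left)).hom (s0.s _ ij.1) *
          (Scheme.stalkClosedPointTo ((ι ≫ b.left) ≫ e.left)).hom (s0.s _ ij.2) -
        (Scheme.stalkClosedPointTo ((ι ≫ a.left) ≫ e.left)).hom (s0.s _ ij.2) *
          (Scheme.stalkClosedPointTo ((ι ≫ b.left) ≫ e.left)).hom (s0.s _ ij.1) := by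
    intro ij
    simp only [← coord_comap]
    rw [← map_mul, ← map_mul, ← map_sub]
    rfl
  simp only [key, sub_eq_zero]
  constructor
  · intro h
    refine (cancel_mono e.left).1 (h2 R _ _ ?_ fun i j => h (i, j))
    simp only [Category.assoc, Over.w]
  · intro h
    generalize ι ≫ a.left = c at h ⊢
    generalize ι ≫ b.left = d at h ⊢
    subst h
    exact fun ij => mul_comm _ _

end Pool.Agent.P.MP_638e8a_ag.Cyc
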