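import Pool.Agent.P.MP_638e8a_ag.ChA2
import Pool.Agent.P.MP_638e8a_ag.ChA3
import Pool.Agent.P.MP_638e8a_ag.ChDim

/-!
Task CHOW CUT0: cutting a cycle by a locally complete intersection.
-/

open CategoryTheory AlgebraicGeometry IsLocalRing TopologicalSpace

universe u

namespace Pool.Agent.P.MP_638e8a_ag.Cyc

open Pool.Agent.P.MP_90138e_ag
open Pool.Agent.P.MP_90138e_ag.WeilCohomology (fstH sndH)

namespace IF

variable {k : Type u} [Field k] {S : SmProj k} {I I' : IF S.X.left} {d d' : ℕ}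
  {u v x y : S.X.left}

theorem le_primeOf_iff (h : x ≤ y) : I.J x ≤ primeOf x y ↔ y ∈ I.supp := by
  rw [primeOf_eq_comap h, ← Ideal.map_le_iff_le_comap, ← I.spec h, mem_supp]
  exact ⟨fun h1 h2 => (maximalIdeal.isMaximal _).ne_top (top_le_iff.1 (h2 ▸ h1)),
    le_maximalIdeal⟩

theorem Comp.ms (h : I.Comp v x) {g : List (St x)} (hg : Ideal.ofList g = I.J x) :
    MS g (St x ⧸ primeOf x v) := by
  refine ms_quot_iff.2 fun Q hQ h1 h2 => ?_
  obtain ⟨y, hy, rfl⟩ := exists_primeOf Q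
  have h3 := h.2 ⟨(le_primeOf_iff hy).1 (hg ▸ h2), (primeOf_le_iff hy h.1.2).1 h1⟩ hy
  rw [← eq_of_le_of_le hy h3, primeOf_self]
  exact maximalIdeal.isMaximal _

theorem comp_of_ms (h : x ∈ I.supp) (h' : x ≤ v) {g : List (St x)} (hg : Ideal.ofList g = I.J x)
    (hms : MS g (St x ⧸ primeOf x v)) : I.Comp v x := by
  refine ⟨⟨h, h'⟩, fun y hy hxy => ?_⟩
  have h1 := ms_quot_iff.1 hms _ (primeOf_isPrime hxy) ((primeOf_le_iff hxy h').2 hy.2)
    (hg ▸ (le_primeOf_iff hxy).2 hy.1)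
  rw [← primeOf_le_iff hxy le_rfl, primeOf_self, eq_maximalIdeal h1]

theorem Comp.cm_eq (h : I.Comp v x) {g : List (St x)} (hl : g.length = d)
    (hg : Ideal.ofList g = I.J x) : I.cm d v x = emult g (St x ⧸ primeOf x v) := by
  rw [cm_of_comp d h, emI_eq hl hg (h.ms hg)]

/-- Krull's height theorem. -/
theorem Comp.dm_le (h : I.Comp v x) (hI : I.Gen d) : dm v ≤ dm x + d := by
  obtain ⟨g, hl, hg⟩ := hI x h.1.1
  have h1 := dim_le_of_ms (h.ms hg) (hg ▸ h.1.1)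
  rw [dim_quot h.1.2, hl, Nat.cast_le] at h1
  omega

theorem Pr.comp_iff (h : I.Pr d v) (hI : I.Gen d) :
    I.Comp v x ↔ x ∈ I.supp ∧ x ≤ v ∧ dm x + d = dm v := by
  refine ⟨fun h1 => ⟨h1.1.1, h1.1.2, le_antisymm (h x h1.1.1 h1.1.2) (h1.dm_le hI)⟩,
    fun ⟨h1, h2, h3⟩ => ?_⟩
  obtain ⟨y, h4, h5⟩ := I.exists_comp h1 h2
  have h6 := h y h5.1.1 h5.1.2
  rwa [eq_of_le_of_dm_le h4 (by omega)]

theorem pr_of_comp (h : ∀ x, I.Comp v x → dm x + d ≤ dm v) : I.Pr d v := by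
  intro x h1 h2
  obtain ⟨y, h4, h5⟩ := I.exists_comp h1 h2
  have := h y h5
  have := dm_mono h4
  omega

theorem cm_nonneg (hI : I.Gen d) (v x : S.X.left) : 0 ≤ I.cm d v x := by
  by_cases h : I.Comp v x
  · obtain ⟨g, hl, hg⟩ := hI x h.1.1
    rw [h.cm_eq hl hg]
    exact emult_nonneg (h.ms hg)
  · rw [cm_of_not_comp d h]

theorem Comp.cm_pos (h : I.Comp v x) (hI : I.Gen d) (hd : dm x + d = dm v) : 0 < I.cm d v x := by
  obtain ⟨g, hl, hg⟩ := hI x h.1.1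
  have := primeOf_isPrime h.1.2
  rw [h.cm_eq hl hg]
  refine emult_pos (h.ms hg) (hg ▸ h.1.1) ?_
  rw [dim_quot h.1.2, hl, Nat.cast_inj]
  omega

theorem Comp.congr (hI : I.Gen d) (hI' : I'.Gen d')
    (h : I.J x ⊔ primeOf x v = I'.J x ⊔ primeOf x v) (h1 : I.Comp v x) : I'.Comp v x := by
  have h2 : x ∈ I'.supp :=
    (sup_ne_top.1 (h ▸ sup_ne_top.2 ⟨h1.1.1, primeOf_ne_top.2 h1.1.2⟩)).1
  obtain ⟨g, -, hg⟩ := hI x h1.1.1
  obtain ⟨g', -, hg'⟩ := hI' x h2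
  refine comp_of_ms h2 h1.1.2 hg' (ms_quot_iff.2 fun Q hQ h3 h4 =>
    ms_quot_iff.1 (h1.ms hg) Q hQ h3 ?_)
  rw [hg]
  exact le_sup_left.trans (h.le.trans (sup_le (hg' ▸ h4) h3))

theorem cm_congr (hI : I.Gen d) (hI' : I'.Gen d)
    (h : I.J x ⊔ primeOf x v = I'.J x ⊔ primeOf x v) : I.cm d v x = I'.cm d v x := by
  by_cases h1 : I.Comp v x
  · have h2 := h1.congr hI hI' h
    obtain ⟨g, hl, hg⟩ := hI x h1.1.1
    obtain ⟨g', hl', hg'⟩ := hI' x h2.1.1
    rw [h1.cm_eq hl hg, h2.cm_eq hl' hg']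
    exact emult_eq_of_span (hl.trans hl'.symm) (primeOf x v) Ideal.annihilator_quotient.ge
      (by rw [hg, hg', h]) (h1.ms hg)
  · rw [cm_of_not_comp d h1, cm_of_not_comp d fun h2 => h1 (h2.congr hI' hI h.symm)]

theorem cut_congr (hI : I.Gen d) (hI' : I'.Gen d) (h : I.add (prime v) = I'.add (prime v)) :
    I.cut d (cy v) = I'.cut d (cy v) := by
  ext x
  rw [cut_single_apply, cut_single_apply, cm_congr hI hI' (congrArg (fun K => K.J x) h)]

/-- Multiplicity one. -/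
theorem cut_eq_cy (hI : I.Gen d) (h : I.add (prime v) = prime u) (hd : dm u + d = dm v) :
    I.cut d (cy v) = cy u := by
  have h1 : ∀ x, x ∈ I.supp ∧ x ≤ v ↔ x ≤ u := fun x => by
    rw [← mem_supp_prime (v := u), ← h, mem_supp_add, mem_supp_prime]
  have h2 : I.Comp v u := ⟨(h1 u).2 le_rfl, fun y hy _ => (h1 y).1 hy⟩
  ext x
  rw [cut_single_apply]
  by_cases hx : x = u
  · subst hx
    obtain ⟨g, hl, hg⟩ := hI x h2.1.1
    have := primeOf_isPrime h2.1.2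
    rw [h2.cm_eq hl hg, emult_eq_one, Finsupp.single_eq_same, Int.cast_one]
    · rw [hg, ← primeOf_self]
      exact congrArg (fun K => K.J x) h
    · rw [dim_quot h2.1.2, hl, Nat.cast_inj]
      omega
  · rw [cm_of_not_comp d fun h3 => hx (eq_of_le_of_le ((h1 x).1 h3.1)
      (h3.2 h2.1 ((h1 x).1 h3.1))), Finsupp.single_eq_of_ne hx, Int.cast_zero]

theorem cut_eq_zero (h : ∀ x ∈ I.supp, ¬ x ≤ v) : I.cut d (cy v) = 0 := by
  ext x
  rw [cut_single_apply, cm_of_not_comp d fun h1 => h x h1.1.1 h1.1.2, Int.cast_zero,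
    Finsupp.zero_apply]

theorem Comp.pr_of_add (hy : I.Comp v y) (hI : I.Gen d) (h : (I.add I').Pr (d + d') v) :
    I'.Pr d' y := by
  intro x h1 h2
  have h3 := h x (mem_supp_add.2 ⟨mem_closed_of_le I.isClosed_supp h2 hy.1.1, h1⟩)
    (h2.trans hy.1.2)
  have := hy.dm_le hI
  omega

theorem cut_apply (c : Zc S) (x : S.X.left) :
    I.cut d c x = ∑ v ∈ c.support, c v * I.cm d v x := by
  simp [cut, cutPt, Finsupp.linearCombination_apply, Finsupp.sum]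

theorem mem_support_cut {c : Zc S} (h : x ∈ (I.cut d c).support) :
    ∃ v ∈ c.support, I.Comp v x := by
  by_contra h1
  push Not at h1
  rw [Finsupp.mem_support_iff, cut_apply] at h
  exact h (Finset.sum_eq_zero fun v hv => by
    rw [cm_of_not_comp d (h1 v hv), Int.cast_zero, mul_zero])

theorem intZ_cut {c : Zc S} (h : IntZ c) : IntZ (I.cut d c) := by
  choose n hn using h
  refine fun x => ⟨∑ v ∈ c.support, n v * I.cm d v x, ?_⟩
  simp [cut_apply, hn]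

end IF

end Pool.Agent.P.MP_638e8a_ag.Cyc
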