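import Pool.Agent.P.MP_90138e_ag.Defs

/-!
Multiplicities, prime ideals of subvarieties, push-forward of cycles.
Subvarieties are identified with their generic points; `x ≤ v` means that `x` lies in the closure
of `v`.
-/

open CategoryTheory AlgebraicGeometry

universe u

namespace Pool.Agent.P.MP_638e8a_ag.Cyc

/-- Northcott's multiplicity symbol `e(x_1, ..., x_d | M)`: the length of `M` for `d = 0`, and
`e(x_2, ..., x_d | M / x_1 M) - e(x_2, ..., x_d | 0 :_M x_1)` otherwise. It is the Euler
characteristic of the Koszul complex and the Samuel multiplicity of `(x_1, ..., x_d)` on `M`. -/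
noncomputable def emult {R : Type u} [CommRing R] :
    List R → (M : Type u) → [AddCommGroup M] → [Module R M] → ℤ
  | [], M, _, _ => (Module.length R M).toNat
  | x :: g, M, _, _ => emult g (QuotSMulTop x M) - emult g (Submodule.torsionBy R M x)

/-- The multiplicity on `R / I` of an ideal `J` generated by `d` elements. -/
noncomputable def emI {R : Type u} [CommRing R] (d : ℕ) (J I : Ideal R) : ℤ :=
  emult (Classical.epsilon fun g : List R => g.length = d ∧ Ideal.ofList g = J) (R ⧸ I)

/-- The ideal of the subvariety `v` in the local ring at `x` (the unit ideal if `x` does not lie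
on `v`). -/
noncomputable def primeOf {X : Scheme.{u}} (x v : X) : Ideal (X.presheaf.stalk x) :=
  ⨅ h : v ⤳ x, (IsLocalRing.maximalIdeal (X.presheaf.stalk v)).comap
    (X.presheaf.stalkSpecializes h).hom

/-- The ideal of the scheme-theoretic inverse image of the subvariety `v` in the local ring
at `x`. -/
noncomputable def pullIdeal {X Y : Scheme.{u}} (f : X ⟶ Y) (x : X) (v : Y) :
    Ideal (X.presheaf.stalk x) :=
  (primeOf (f x) v).map (f.stalkMap x).hom

/-- Push-forward of cycles: `[x] ↦ [k(x) : k(f x)] [f x]`, the degree being zero if infinite. -/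
noncomputable def pushZ {X Y : Scheme.{u}} (f : X ⟶ Y) : (X →₀ ℚ) →ₗ[ℚ] (Y →₀ ℚ) :=
  Finsupp.linearCombination ℚ fun x => Finsupp.single (f x) (f.residueDegree x : ℚ)

end Pool.Agent.P.MP_638e8a_ag.Cyc
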