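import Pool.Agent.P.MP_638e8a_ag.Defs0
import Pool.Agent.P.MP_638e8a_ag.ChMult

/-!
The intersection product, composition of correspondences, Weil cohomology theories,
Chow-Kuenneth decompositions. Subvarieties are identified with their generic points; `x ≤ t`
means that `x` lies in the closure of `t`, and `coheight t` is the codimension.
-/

open CategoryTheory AlgebraicGeometry MonoidalCategory CartesianMonoidalCategory Order

universe u v w

namespace Pool.Agent.P.MP_638e8a_ag.Cyc

open Pool.Agent.P.MP_90138e_ag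

section Schemes

variable {X S : Scheme.{u}}

/-- `t` is an irreducible component of the intersection of `z` and `z'`. -/
def IsComponent (z z' t : X) : Prop := Maximal (fun s => s ≤ z ∧ s ≤ z') t

/-- The cycles `α` and `β` intersect properly. -/
def Proper (α β : X →₀ ℚ) : Prop :=
  ∀ z ∈ α.support, ∀ z' ∈ β.support, ∀ t, IsComponent z z' t →
    coheight t = coheight z + coheight z'

/-- Reduction to the diagonal `δ : X → S = X × X` with projections `p`, `q`, where `d = dim X`:
the multiplicity of the ideal of the diagonal on the local ring of `z × z'` at `δ t`. -/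
noncomputable def diagMult (d : ℕ) (δ : X ⟶ S) (p q : S ⟶ X) (z z' t : X) : ℤ :=
  emI d (RingHom.ker (δ.stalkMap t).hom) (pullIdeal p (δ t) z ⊔ pullIdeal q (δ t) z')

open Classical in
/-- `γ` is the intersection cycle of the properly intersecting cycles `α` and `β`, for the
intersection multiplicities `i`. -/
def IsInterCycle (i : X → X → X → ℤ) (α β γ : X →₀ ℚ) : Prop :=
  Proper α β ∧ ∀ t, γ t = α.sum fun z a => β.sum fun z' b =>
    if IsComponent z z' t then a * b * i z z' t else 0

/-- `α'` is the pull-back of the cycle `α` along a projection `f` with integral fibres: each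
subvariety `z` is sent to its inverse image, whose generic point is that of the fibre over `z`. -/
def IsPull (f : S ⟶ X) (α : X →₀ ℚ) (α' : S →₀ ℚ) : Prop :=
  ∃ s : X → S, (∀ z, f (s z) = z ∧ ∀ t, f t = z → t ≤ s z) ∧ α' = α.mapDomain s

/-- `t` is the product of the subvarieties `z` and `z'`. -/
def IsProdPt {X' : Scheme.{u}} (p : S ⟶ X) (q : S ⟶ X') (z : X) (z' : X') (t : S) : Prop :=
  ∀ s, s ≤ t ↔ p s ≤ z ∧ q s ≤ z'

end Schemes

variable {k : Type u} [Field k]

/-- The intersection multiplicity `i(t; z · z'; X)`. -/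
noncomputable def imult (X : SmProj k) : X.X.left → X.X.left → X.X.left → ℤ :=
  diagMult X.dim (lift (𝟙 X.X) (𝟙 X.X)).left (fst X.X X.X).left (snd X.X X.X).left

/-- `γ` is the intersection cycle of properly intersecting cycles rationally equivalent to `α`
and `β`. -/
def IsMovedInter (X : SmProj k) (α β γ : X.X.left →₀ ℚ) : Prop :=
  ∃ α' β', α' - α ∈ ratEq X ∧ β' - β ∈ ratEq X ∧ IsInterCycle (imult X) α' β' γ

/-- `γ` represents the product of the classes of `α` and `β` in the Chow ring. -/
def IsMul (X : SmProj k) (α β γ : X.X.left →₀ ℚ) : Prop :=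
  (∃ γ', IsMovedInter X α β γ') ∧ ∀ γ', IsMovedInter X α β γ' → γ - γ' ∈ ratEq X

/-- `γ` represents the composition `β ∘ α = p_{XZ *} (p_{XY}^* α · p_{YZ}^* β)` of the
correspondences `α` and `β`, computed on `(X × Z) × Y`. -/
def IsComp {X Y Z : SmProj k} (β : (Y.prod Z).X.left →₀ ℚ) (α : (X.prod Y).X.left →₀ ℚ)
    (γ : (X.prod Z).X.left →₀ ℚ) : Prop :=
  ∃ α' β' γ' : ((X.prod Z).prod Y).X.left →₀ ℚ,
    IsPull (lift (fst (X.prod Z).X Y.X ≫ fst X.X Z.X) (snd (X.prod Z).X Y.X)).left α α' ∧
    IsPull (lift (snd (X.prod Z).X Y.X) (fst (X.prod Z).X Y.X ≫ snd X.X Z.X)).left β β' ∧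
    IsMul ((X.prod Z).prod Y) α' β' γ' ∧ γ - pushZ (fst (X.prod Z).X Y.X).left γ' ∈ ratEq (X.prod Z)

/-- The diagonal. -/
noncomputable def diagCycle (Y : SmProj k) : (Y.prod Y).X.left →₀ ℚ :=
  Finsupp.single ((lift (𝟙 Y.X) (𝟙 Y.X)).left (genericPoint Y.X.left)) 1

variable {K : Type v} [Field K]

/-- The class of a cycle. -/
noncomputable def cls {P : Type u} {A : Type w} [Ring A] [Algebra K A] (cl : P → A)
    (c : P →₀ ℚ) : A :=
  c.sum fun t q => (q : K) • cl t

/-- The cycle class map: it doubles degrees, is normalised, factors through rational equivalence,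
and is compatible with push-forward, exterior products and intersection products. -/
structure IsCycleMap (D : CohData.{u, v, w} k K) : Prop where
  cl_deg : ∀ X z, D.cl X z ∈ D.deg X (2 * (coheight z).toNat)
  cl_generic : ∀ X : SmProj k, D.cl X (genericPoint X.X.left) = 1
  tr_cl : ∀ X z, IsClosed {z} → D.tr X (D.cl X z) = 1
  cl_rat : ∀ X, ∀ c ∈ ratEq X, cls (K := K) (D.cl X) c = 0
  push_cl : ∀ {X Y : SmProj k} (f : X.X ⟶ Y.X) z,
    PushesTo (D.pull f) (D.tr X) (D.tr Y) (D.cl X z) (f.left.residueDegree z) (D.cl Y (f.left z))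
  cl_prod : ∀ (X Y : SmProj k) z z' t, IsProdPt (fst X.X Y.X).left (snd X.X Y.X).left z z' t →
    D.cl (X.prod Y) t = D.pull (X := X.prod Y) (fst X.X Y.X) (D.cl X z) *
      D.pull (X := X.prod Y) (snd X.X Y.X) (D.cl Y z')
  cl_inter : ∀ X α β γ, IsInterCycle (imult X) α β γ →
    cls (K := K) (D.cl X) γ = cls (K := K) (D.cl X) α * cls (K := K) (D.cl X) β

/-- A Weil cohomology theory (Kleiman) on smooth projective varieties over `k`. -/
structure IsWeil (D : CohData.{u, v, w} k K) : Prop where
  isFunctorial : D.IsFunctorial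
  isPD : ∀ X, IsPDAlgebra (D.deg X) (D.tr X) X.dim
  isKunneth : ∀ X Y : SmProj k, IsKunneth (D.pull (X := X.prod Y) (fst X.X Y.X))
    (D.pull (X := X.prod Y) (snd X.X Y.X)) (D.tr X) (D.tr Y) (D.tr (X.prod Y))
  isCycleMap : IsCycleMap D

variable (D : CohData.{u, v, w} k K)

/-- The cycle `c` has codimension `j`. -/
def HasCodim {P : Scheme.{u}} (c : P →₀ ℚ) (j : ℕ) : Prop := ∀ t ∈ c.support, coheight t = j

/-- The cycle `c` on `X × Y` induces `T : H(X) → H(Y)`, `x ↦ q_*(p^* x ∪ cl c)`. -/
def Acts {X Y : SmProj k} (c : (X.prod Y).X.left →₀ ℚ) (T : D.H X →ₗ[K] D.H Y) : Prop :=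
  InducesVia (D.pull (X := X.prod Y) (fst X.X Y.X)) (D.pull (X := X.prod Y) (snd X.X Y.X))
    (D.tr Y) (D.tr (X.prod Y)) (cls (K := K) (D.cl (X.prod Y)) c) T

/-- `T` is induced by a cycle of some codimension. -/
def IsCorr {X Y : SmProj k} (T : D.H X →ₗ[K] D.H Y) : Prop :=
  ∃ j c, HasCodim c j ∧ Acts D c T

/-- Varieties motivated by curves: the smallest class containing all varieties of dimension at
most one and closed under products, images of surjective morphisms and direct summands of
finite sums of (Tate twisted) homological motives. -/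
inductive CurveType : SmProj k → Prop
  | curve (X : SmProj k) : X.dim ≤ 1 → CurveType X
  | prod (X Y : SmProj k) : CurveType X → CurveType Y → CurveType (X.prod Y)
  | image (X Y : SmProj k) (f : Y.X ⟶ X.X) : Surjective f.left → CurveType Y → CurveType X
  | summand (X : SmProj k) (n : ℕ) (Y : Fin n → SmProj k) (S : ∀ j, D.H X →ₗ[K] D.H (Y j))
      (T : ∀ j, D.H (Y j) →ₗ[K] D.H X) : (∀ j, CurveType (Y j)) → (∀ j, IsCorr D (S j)) →
      (∀ j, IsCorr D (T j)) → SumIsId S T ⊤ → CurveType X

/-- `H^i(Y)` is motivated by curves: an algebraic correspondence `u` maps a cohomology group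
`e H^a(X)` of a homological motive `(X, e)`, with `X` of curve type, bijectively onto `H^i(Y)`. -/
def Motivated (Y : SmProj k) (i : ℕ) : Prop :=
  ∃ (X : SmProj k) (a : ℕ) (e : D.H X →ₗ[K] D.H X) (u : D.H X →ₗ[K] D.H Y),
    CurveType D X ∧ (∃ c, HasCodim c X.dim ∧ Acts D c e) ∧ IsCorr D u ∧
      MapsSummandOnto e u (D.deg X a) (D.deg Y i)

/-- `Y` has a Chow-Kuenneth decomposition: cycles `π n` of codimension `dim Y` on `Y × Y` whose
classes modulo rational equivalence are orthogonal idempotents with sum the diagonal, `π n`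
acting on cohomology as the projector onto `H^n`. -/
def HasCK (Y : SmProj k) : Prop :=
  ∃ π : Fin (2 * Y.dim + 1) → ((Y.prod Y).X.left →₀ ℚ), (∀ n, HasCodim (π n) Y.dim) ∧
    (∀ m n, IsComp (π m) (π n) (if m = n then π n else 0)) ∧
    ∑ n, π n - diagCycle Y ∈ ratEq (Y.prod Y) ∧
    ∀ n, ∃ P : D.H Y →ₗ[K] D.H Y, Acts D (π n) P ∧ IsProjectorOnto (D.deg Y) n P

end Pool.Agent.P.MP_638e8a_ag.Cyc
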