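import Pool.Agent.P.MP_638e8a_ag.HFD
import Pool.Agent.P.MP_638e8a_ag.HFac

/-!
Chow-Kuenneth decompositions for varieties whose cohomology outside the middle degree is motivated
by curves.
-/

open CategoryTheory AlgebraicGeometry MonoidalCategory CartesianMonoidalCategory Order

universe u v w

namespace Pool.Agent.P.MP_638e8a_ag

open Pool.Agent.P.MP_90138e_ag
open Pool.Agent.P.MP_90138e_ag.WeilCohomology (fstH sndH)

variable {k : Type u} [Field k] [IsAlgClosed k] {K : Type v} [Field K] [CharZero K]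
  {T : ChowTheory k} {W : WeilCohomology.{u, v, w} k K}

/-- Correspondences of degree zero. -/
noncomputable def degZero (T : ChowTheory k) (Y : SmProj k) : Subring (T.End Y) where
  carrier := {x | x.val ∈ T.CH (Y.prod Y) Y.dim}
  mul_mem' ha hb := T.comp_mem rfl ha hb
  one_mem' := T.diag_mem Y
  add_mem' ha hb := (T.CH (Y.prod Y) Y.dim).add_mem ha hb
  zero_mem' := (T.CH (Y.prod Y) Y.dim).zero_mem
  neg_mem' {x} ha := (T.CH (Y.prod Y) Y.dim).neg_mem (x := x.val) ha

theorem mem_degZero {Y : SmProj k} {x : T.End Y} :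
    x ∈ degZero T Y ↔ x.val ∈ T.CH (Y.prod Y) Y.dim := Iff.rfl

theorem proj_complete (W : WeilCohomology.{u, v, w} k K) (Y : SmProj k) :
    CompleteOrthogonalIdempotents (R := Module.End K (W.H Y))
      fun n : Fin (2 * Y.dim + 1) => W.proj Y n := by
  refine CompleteOrthogonalIdempotents.iff_ortho_complete.2 ⟨fun m n hmn => ?_, ?_⟩
  · ext x
    exact W.proj_of_mem_ne (W.proj_mem Y n x) fun h => hmn (Fin.ext h.symm)
  · ext x
    rw [LinearMap.sum_apply, Fin.sum_univ_eq_sum_range (fun n => W.proj Y n x)]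
    exact W.sum_proj Y x

theorem hasCK_of_mot (R : CycleMap T W) (Y : SmProj k)
    (hY : ∀ i ≤ 2 * Y.dim, i ≠ Y.dim → Mot W Y i) : HasCK R Y := by
  obtain ⟨p, hp, hp'⟩ := exists_lift_idem (R.ρ Y) (degZero T Y) _ (proj_complete W Y)
    ⟨Y.dim, by omega⟩ (fun n => {x | T.FinRk (decide (Odd (n : ℕ))) x.val})
    (fun n x hx a c => (ChowTheory.FinRk.comp_left hx a.val).comp_right c.val)
    (fun n x hx h => ChowTheory.FinRk.isNilpotent x hx fun m => R.trc_eq_zero (by
      rw [← R.ρ_apply, map_pow, h, zero_pow (Nat.succ_ne_zero m)]))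
    (fun n hn => by
      have hn' : (n : ℕ) ≠ Y.dim := fun h => hn (Fin.ext h)
      obtain ⟨X, U, V, hX, hU, hV, h⟩ := factor_proj (n := n) (by omega) (hY n (by omega) hn')
        (hY (2 * Y.dim - n) (by omega) (by omega))
      obtain ⟨x, hx, hx', hx''⟩ := (fOp_proj R hX hU hV h).exists_mem
      exact ⟨ChowTheory.End.mk x, hx', mem_degZero.2 hx, hx''⟩)
  refine ⟨fun n => (p n).val, fun n => mem_degZero.1 (hp' n).1, fun m n => ?_, hp.complete, fun n =>
    ⟨W.proj Y n, ?_, fun i x hx => ?_⟩⟩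
  · split_ifs with h
    · subst h
      exact hp.idem m
    · exact hp.ortho h
  · have h := R.induces_op (p n).val
    rwa [← R.ρ_apply, (hp' n).2] at h
  · split_ifs with h
    · subst h
      exact W.proj_of_mem hx
    · exact W.proj_of_mem_ne hx h

theorem hasCK (R : CycleMap T W) (Y : SmProj k) (hlow : ∀ i < Y.dim, Motivated W Y i)
    (hhigh : (∀ i, Y.dim < i → i ≤ 2 * Y.dim → Motivated W Y i) ∨
      ∃ ξ ∈ W.C Y 1, HardLefschetz (W.deg Y) Y.dim ξ) : HasCK R Y := by
  refine hasCK_of_mot R Y fun i hi hi' => ?_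
  rcases lt_or_gt_of_ne hi' with h | h
  · exact (hlow i h).mot
  · rcases hhigh with h' | ⟨ξ, hξ, hL⟩
    · exact (h' i h hi).mot
    · have h1 := hL (2 * Y.dim - i) (by omega)
      rw [show 2 * Y.dim - (2 * Y.dim - i) = i by omega] at h1
      exact (hlow (2 * Y.dim - i) (by omega)).mot.mul
        ((WeilCohomology.IsAlg.of_C hξ).pow _) h1

end Pool.Agent.P.MP_638e8a_ag
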