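import Pool.Agent.P.MP_638e8a_ag.ChWeil
import Pool.Agent.P.MP_638e8a_ag.Final

/-!
Chow-Kuenneth decompositions, stated with cycles.
-/

open CategoryTheory AlgebraicGeometry IsLocalRing TopologicalSpace

universe u v w

namespace Pool.Agent.P.MP_638e8a_ag.Cyc

open Pool.Agent.P.MP_90138e_ag
open Pool.Agent.P.MP_90138e_ag.WeilCohomology (fstH sndH)

variable {k : Type u} [Field k] {T : ChowTheory k} {S X Y Z : SmProj k}

theorem clZ_eq_iff {a b : Zc X} : clZ T X a = clZ T X b ↔ a - b ∈ ratEq X := by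
  rw [← T.cl_ker, LinearMap.mem_ker, map_sub, sub_eq_zero]
  rfl

theorem clZ_single (z : X.X.left) (q : ℚ) : clZ T X (Finsupp.single z q) = q • T.cl X z :=
  Finsupp.linearCombination_single _ _ _

theorem exists_rep {j : ℕ} {x : T.A X} (hx : x ∈ T.CH X j) :
    ∃ c : Zc X, HasCodim c j ∧ clZ T X c = x := by
  obtain ⟨c, h1, h2⟩ := (Finsupp.mem_span_image_iff_linearCombination ℚ).1 hx
  exact ⟨c, fun t ht => h1 ht, h2⟩

theorem clZ_pushZ (f : X.X ⟶ Y.X) (c : Zc X) :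
    clZ T Y (pushZ f.left c) = T.push f (clZ T X c) := by
  induction c using Finsupp.induction_linear with
  | zero => simp
  | add a b ha hb => simp only [map_add, ha, hb]
  | single z q =>
    rw [pushZ_single, clZ_single, clZ_single, map_smul, T.push_cl, mul_smul, Nat.cast_smul_eq_nsmul]

theorem exists_isPull {p : S.X ⟶ X.X} (hp : IsProj p) (α : Zc X) :
    ∃ α' : Zc S, IsPull p.left α α' ∧ clZ T S α' = T.pull p (clZ T X α) := by
  choose s h1 h2 using hp.exists_top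
  refine ⟨α.mapDomain s, ⟨s, fun z => ⟨h1 z, fun t ht => h2 z t (ht.trans (h1 z).symm)⟩, rfl⟩, ?_⟩
  induction α using Finsupp.induction_linear with
  | zero => simp
  | add a b ha hb => simp only [Finsupp.mapDomain_add, map_add, ha, hb]
  | single z q =>
    rw [Finsupp.mapDomain_single, clZ_single, clZ_single, map_smul, ← T.pull_cl_of_isProj hp (h2 z),
      h1]

variable [IsAlgClosed k]

theorem exists_prA (f : X.X ⟶ Y.X) (α : Zc X) (β : Zc Y) :
    ∃ β' : Zc Y, β - β' ∈ ratEq Y ∧ PrA f α β' := by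
  obtain ⟨β', -, -, h1, h2, -⟩ := moving (ι := α.support) (fun _ => X) (fun _ => f) (fun w => w.1) β
  refine ⟨β', ratP_eq Y ▸ h1, fun w hw v hv => h2 ⟨w, hw⟩ w ?_ v hv⟩
  simp

theorem isMul_of (hT : IsStd T) {α β γ : Zc X} (h : clZ T X γ = clZ T X α * clZ T X β) :
    IsMul X α β γ := by
  constructor
  · obtain ⟨β', h1, h2⟩ := exists_prA (𝟙 X.X) α β
    refine ⟨_, α, β', by simp, ?_, (isInterCycle_iff _ _ _).2 ⟨h2, rfl⟩⟩
    simpa using (ratEq X).neg_mem h1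
  · rintro γ' ⟨α', β', h1, h2, h3⟩
    obtain ⟨h4, rfl⟩ := (isInterCycle_iff _ _ _).1 h3
    rw [← clZ_eq_iff (T := T)] at h1 h2 ⊢
    rw [hT _ _ _ _ _ h4, T.pull_id, h1, h2, h]

theorem isComp_of (hT : IsStd T) {β : Zc (Y.prod Z)} {α : Zc (X.prod Y)} {γ : Zc (X.prod Z)}
    (h : clZ T _ γ = T.comp (clZ T _ β) (clZ T _ α)) : IsComp β α γ := by
  have h1 : IsProj (pair (fstH (X.prod Z) Y ≫ fstH X Z) (sndH (X.prod Z) Y)) :=
    (isProj_fst X Z).prod Y
  have h2 : IsProj (pair (sndH (X.prod Z) Y) (fstH (X.prod Z) Y ≫ sndH X Z)) := by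
    have h3 := ((isProj_snd X Z).prod Y).comp (q := pair (sndH Z Y) (fstH Z Y))
      ⟨SmProj.pt k, ⟨pair (pair (sndH Z Y) (fstH Z Y)) (toPt _),
        fstH _ _ ≫ pair (sndH Y Z) (fstH Y Z), ?_, ?_⟩, pair_fst _ _⟩
    · rwa [comp_pair, pair_snd, pair_fst] at h3
    · rw [pair_fst_assoc, comp_pair, pair_snd, pair_fst, pair_fst_snd]
    · refine prod_ext ?_ (toPt_ext _ _)
      rw [Category.assoc, Category.assoc, pair_fst, comp_pair, pair_snd, pair_fst, pair_fst_snd,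
        Category.comp_id, Category.id_comp]
  obtain ⟨α', a1, a2⟩ := exists_isPull (T := T) h1 α
  obtain ⟨β', b1, b2⟩ := exists_isPull (T := T) h2 β
  obtain ⟨γ', hγ⟩ := T.cl_surjective _ (clZ T _ α' * clZ T _ β')
  refine ⟨α', β', γ', a1, b1, isMul_of hT hγ, clZ_eq_iff (T := T).1 ?_⟩
  have h4 : clZ T _ γ' = _ := hγ
  refine h.trans (Eq.trans ?_ (clZ_pushZ (fstH (X.prod Z) Y) γ').symm)
  rw [h4, a2, b2]
  rfl

variable {K : Type v} [Field K] [CharZero K] {D : CohData.{u, v, w} k K}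

theorem IsCorr.toWeil (hD : IsWeil D) {P : D.H X →ₗ[K] D.H Y} (h : IsCorr D P) :
    hD.toWeil.IsCorr P := by
  obtain ⟨j, c, h1, h2⟩ := h
  exact ⟨j, _, ⟨c, h1, rfl⟩, h2⟩

theorem CurveType.toWeil (hD : IsWeil D) (h : CurveType D X) : hD.toWeil.CurveType X := by
  induction h with
  | curve X h => exact .curve X h
  | prod X Y _ _ h1 h2 => exact .prod X Y h1 h2
  | image X Y f hf _ h => exact .image X Y f hf h
  | summand X n Y S T _ h1 h2 h3 h =>
    exact .summand X n Y S T h (fun j => (h1 j).toWeil hD) (fun j => (h2 j).toWeil hD) h3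

theorem Motivated.toWeil (hD : IsWeil D) {i : ℕ} (h : Motivated D Y i) :
    MP_638e8a_ag.Motivated hD.toWeil Y i := by
  obtain ⟨X, a, e, u, h1, ⟨c, h2, h3⟩, h4, h5⟩ := h
  exact ⟨X, a, e, u, h1.toWeil hD, ⟨_, ⟨c, h2, rfl⟩, h3⟩, h4.toWeil hD, h5⟩

theorem hasCK_final (hD : IsWeil D) (Y : SmProj k) (hlow : ∀ i < Y.dim, Motivated D Y i)
    (hhigh : (∀ i, Y.dim < i → i ≤ 2 * Y.dim → Motivated D Y i) ∨
      ∃ ξ, HasCodim ξ 1 ∧ HardLefschetz (D.deg Y) Y.dim (cls (K := K) (D.cl Y) ξ)) :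
    HasCK D Y := by
  obtain ⟨T, hT⟩ := exists_chow k
  obtain ⟨R, hR⟩ := hD.exists_cycleMap hT
  obtain ⟨π, h1, h2, h3, h4⟩ := hasCK R Y (fun i hi => (hlow i hi).toWeil hD)
    (hhigh.imp (fun h i hi hi' => (h i hi hi').toWeil hD)
      fun ⟨ξ, h, h'⟩ => ⟨_, ⟨ξ, h, rfl⟩, h'⟩)
  choose c hc hc' using fun n => exists_rep (h1 n)
  refine ⟨c, hc, fun m n => isComp_of hT ?_, clZ_eq_iff (T := T).1 ?_, fun n => ?_⟩
  · rw [hc', hc', h2]
    split_ifs
    · exact hc' n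
    · exact map_zero _
  · rw [map_sum, Finset.sum_congr rfl fun n _ => hc' n, h3, T.diag_eq, ← T.cl_gen,
      ← one_smul ℚ (T.cl Y Y.gen), ← clZ_single, ← clZ_pushZ, pushZ_single]
    have := isClosedImmersion_of_section (pair (𝟙 Y.X) (𝟙 Y.X)) (fstH Y Y) (pair_fst _ _)
    rw [residueDegree_of_closedImmersion, Nat.cast_one, mul_one]
    rfl
  · obtain ⟨P, h5, h6⟩ := h4 n
    rw [← hc', hR] at h5
    exact ⟨P, h5, h6⟩

end Pool.Agent.P.MP_638e8a_ag.Cyc
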