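import Pool.Agent.P.MP_638e8a_ag.ChBase

/-!
Task CHOW SUB: the reduced closed subscheme with a given generic point.
-/

open CategoryTheory AlgebraicGeometry IsLocalRing TopologicalSpace

universe u

namespace Pool.Agent.P.MP_638e8a_ag.Cyc

open Pool.Agent.P.MP_90138e_ag
open Pool.Agent.P.MP_90138e_ag.WeilCohomology (fstH sndH)

theorem sub_reduced {X : Scheme.{u}} (I : X.IdealSheafData) (h : ∀ U, (I.ideal U).IsRadical) :
    IsReduced I.subscheme := by
  have : ∀ U, IsReduced (I.subschemeCover.openCover.X U) := fun U => by
    have : _root_.IsReduced (Γ(X, (U : X.affineOpens).1) ⧸ I.ideal U) :=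
      (Ideal.isRadical_iff_quotient_reduced _).1 (h U)
    exact inferInstanceAs (IsReduced (Spec (.of (Γ(X, (U : X.affineOpens).1) ⧸ I.ideal U))))
  exact IsReduced.of_openCover _ I.subschemeCover.openCover

/-- The reduced closed subscheme with generic point `v`. -/
theorem exists_subvariety {X : Scheme.{u}} (v : X) :
    ∃ (V : Scheme.{u}) (_ : IsIntegral V) (i : V ⟶ X) (_ : IsClosedImmersion i),
      i (genericPoint V) = v := by
  let Z : Closeds X := ⟨closure {v}, isClosed_closure⟩
  let I := Scheme.IdealSheafData.vanishingIdeal Z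
  have hs : (I.support : Set X) = closure {v} := rfl
  have h1 : IsReduced I.subscheme :=
    sub_reduced I fun U => PrimeSpectrum.isRadical_vanishingIdeal _
  have h2 : IrreducibleSpace I.subscheme :=
    Subtype.irreducibleSpace (s := closure {v}) isIrreducible_singleton.closure
  have h3 : IsIntegral I.subscheme := isIntegral_of_irreducibleSpace_of_isReduced _
  refine ⟨I.subscheme, h3, I.subschemeι, inferInstance, ?_⟩
  have h4 := (genericPoint_spec I.subscheme).image I.subschemeι.continuous
  rw [Set.image_univ, I.range_subschemeι, hs, closure_closure] at h4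
  exact h4.eq isGenericPoint_closure

end Pool.Agent.P.MP_638e8a_ag.Cyc
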