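import Pool.Agent.P.MP_638e8a_ag.ChKill
import Pool.Agent.P.MP_638e8a_ag.ChSub

/-!
Task CHOW FLAT: flatness of the projection from the product with a subvariety.
-/

open CategoryTheory AlgebraicGeometry IsLocalRing TopologicalSpace

universe u

namespace Pool.Agent.P.MP_638e8a_ag.Cyc

open Pool.Agent.P.MP_90138e_ag
open Pool.Agent.P.MP_90138e_ag.WeilCohomology (fstH sndH)

section Aux

variable {S Y V Z : Scheme.{u}} [IsIntegral V] {q : S ⟶ Y} {j : V ⟶ Y} [IsClosedImmersion j]
  {l : Z ⟶ S} {m : Z ⟶ V}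

theorem flat_aux_lift (H : IsPullback l m q j) (R : CommRingCat.{u}) [IsLocalRing R] (x : S)
    (φ : S.presheaf.stalk x ⟶ R) (hφ : IsLocalHom φ.hom)
    (hk : pullIdeal q x (j (genericPoint V)) ≤ RingHom.ker φ.hom) :
    ∃ (z : Z) (h : x ≤ l z), l z = x ∧ ∀ a : St x, stm l z (sp h a) = 0 → φ.hom a = 0 := by
  obtain ⟨ι, hι⟩ := (SpecToEquivOfLocalRing S R).surjective ⟨x, φ, hφ⟩
  obtain ⟨rfl, h2⟩ := Sigma.mk.inj_iff.1 hι
  obtain rfl : Scheme.stalkClosedPointTo ι = φ := congrArg Subtype.val (eq_of_heq h2)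
  have h3 : ((IF.prime (j (genericPoint V))).comap q).Kills ι := hk
  rw [IF.kills_comap, IF.kills_prime_map] at h3
  obtain ⟨ι', h4, -⟩ := h3
  obtain ⟨κ, rfl⟩ : ∃ κ : Spec R ⟶ Z, κ ≫ l = ι := ⟨H.lift ι ι' h4.symm, H.lift_fst _ _ _⟩
  refine ⟨κ (closedPoint R), le_refl _, rfl, fun a ha => ?_⟩
  rw [Scheme.stalkClosedPointTo_comp]
  have h5 : stm l (κ (closedPoint R)) a = 0 := by
    rw [← ha]
    exact congrArg _ (sp_refl _ a).symm
  change (Scheme.stalkClosedPointTo κ).hom (stm l (κ (closedPoint R)) a) = 0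
  rw [h5, map_zero]

theorem flat_aux_le (H : IsPullback l m q j) (z : Z) :
    pullIdeal q (l z) (j (genericPoint V)) ≤ RingHom.ker (stm l z) := by
  have h1 : ((IF.prime (j (genericPoint V))).comap q).Kills (Z.fromSpecStalk z ≫ l) := by
    rw [IF.kills_comap, IF.kills_prime_map]
    exact ⟨Z.fromSpecStalk z ≫ m, by rw [Category.assoc, Category.assoc, H.w], IF.kills_gen _⟩
  have h2 : pullIdeal q (l (Z.fromSpecStalk z (closedPoint _))) (j (genericPoint V)) ≤
      RingHom.ker (stm l (Z.fromSpecStalk z (closedPoint _))) := by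
    intro a ha
    have h3 : (Scheme.stalkClosedPointTo (Z.fromSpecStalk z ≫ l)).hom a = 0 := h1 ha
    rw [Scheme.stalkClosedPointTo_comp] at h3
    have h4 : (Scheme.stalkClosedPointTo (Z.fromSpecStalk z)).hom
      (stm l (Z.fromSpecStalk z (closedPoint _)) a) = 0 := h3
    rw [Scheme.stalkClosedPointTo_fromSpecStalk] at h4
    exact (map_eq_zero_iff _ (ConcreteCategory.bijective_of_isIso (C := CommRingCat) _).1).1 h4
  rwa [Scheme.fromSpecStalk_closedPoint] at h2

end Aux

variable {k : Type u} [Field k] {S S' T U X X' Y Y' : SmProj k}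

theorem IsProd.flat_quot {p : S.X ⟶ X.X} {q : S.X ⟶ Y.X} (h : IsProd p q) (z : S.X.left)
    (v : Y.X.left) :
    ((Ideal.Quotient.mk (pullIdeal q.left z v)).comp (stm p.left z)).Flat := by
  by_cases hJ : pullIdeal q.left z v = ⊤
  · have : Subsingleton (St z ⧸ pullIdeal q.left z v) := Ideal.Quotient.subsingleton_iff.2 hJ
    let := ((Ideal.Quotient.mk (pullIdeal q.left z v)).comp (stm p.left z)).toAlgebra
    have : Module.Free (St (p.left z)) (St z ⧸ pullIdeal q.left z v) := inferInstance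
    exact Module.Flat.of_free
  obtain ⟨V, _, j, _, rfl⟩ := exists_subvariety v
  have H := IsPullback.of_hasPullback q.left j
  set l := Limits.pullback.fst q.left j with hl
  have : Nontrivial (St z ⧸ pullIdeal q.left z (j (genericPoint V))) :=
    Ideal.Quotient.nontrivial_iff.2 hJ
  have hs := Ideal.Quotient.mk_surjective (I := pullIdeal q.left z (j (genericPoint V)))
  have : IsLocalRing (St z ⧸ pullIdeal q.left z (j (genericPoint V))) :=
    IsLocalRing.of_surjective' _ hs
  obtain ⟨z', h1, rfl, h2⟩ := flat_aux_lift H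
    (CommRingCat.of (St z ⧸ pullIdeal q.left z (j (genericPoint V)))) z
    (CommRingCat.ofHom (Ideal.Quotient.mk _)) (IsLocalHom.of_surjective _ hs)
    (Ideal.mk_ker (I := pullIdeal q.left z (j (genericPoint V)))).ge
  have hk : pullIdeal q.left (l z') (j (genericPoint V)) = RingHom.ker (stm l z') := by
    refine le_antisymm (flat_aux_le H z') fun a ha => ?_
    exact Ideal.Quotient.eq_zero_iff_mem.1 (h2 a (by rw [sp_refl]; exact ha))
  have hsur : Function.Surjective (stm l z') := l.stalkMap_surjective z'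
  have hP : IsPullback (l ≫ p.left) (Limits.pullback.snd q.left j) X.X.hom (j ≫ Y.X.hom) :=
    H.paste_horiz h
  have hF : Flat (l ≫ p.left) :=
    MorphismProperty.of_isPullback (P := @Flat) hP.flip (inferInstance : Flat (j ≫ Y.X.hom))
  have h3 := Flat.stalkMap (l ≫ p.left) z'
  let e := (Ideal.quotEquivOfEq hk).trans (RingHom.quotientKerEquivOfSurjective hsur)
  rw [← RingHom.Flat.comp_iff_of_bijective_left (g := e.toRingHom) e.bijective]
  have h4 : e.toRingHom.comp ((Ideal.Quotient.mk (pullIdeal q.left (l z') (j (genericPoint V)))).comp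
      (stm p.left (l z'))) = stm (l ≫ p.left) z' :=
    RingHom.ext fun a => (stm_comp l p.left z' a).symm
  rw [h4]
  exact h3

end Pool.Agent.P.MP_638e8a_ag.Cyc
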