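import Pool.Agent.P.MP_638e8a_ag.ChGen0
import Pool.Agent.P.MP_638e8a_ag.ChA6
import Pool.Agent.P.MP_638e8a_ag.ChDim

/-!
Task CHOW GEN: dimension counts for generic linear projections.
-/

open CategoryTheory AlgebraicGeometry IsLocalRing TopologicalSpace

universe u

namespace Pool.Agent.P.MP_638e8a_ag.Cyc

open Pool.Agent.P.MP_90138e_ag
open Pool.Agent.P.MP_90138e_ag.WeilCohomology (fstH sndH)

variable {k : Type u} [Field k] {S : SmProj k} {σ : Type} [Fintype σ]

namespace GenAux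

theorem ev_self_eq_zero {X : Scheme.{u}} {x : X} {a : St x} :
    ev (le_refl x) a = 0 ↔ a ∈ maximalIdeal (St x) := by
  rw [ev_eq_zero, primeOf_self]

/-- A generic linear combination avoids a given value at a point. -/
theorem ev_cut (x : S.X.left) (v : σ → St x) (w : St x) (hv : ∃ i, v i ∉ maximalIdeal (St x)) :
    ∀ᶠ β in genF k (σ → k), (∑ i, cst S x (β i) * v i) - w ∉ maximalIdeal (St x) := by
  classical
  let := algRf S x
  let φ : (σ → k) →ₗ[k] Rf x := Fintype.linearCombination k fun i => ev (le_refl x) (v i)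
  have hφ : φ ≠ 0 := by
    obtain ⟨i, hi⟩ := hv
    intro h
    have h1 : φ (Pi.single i 1) = 0 := by rw [h]; rfl
    rw [Fintype.linearCombination_apply_single, one_smul] at h1
    exact hi (ev_self_eq_zero.1 h1)
  refine (eventually_ne φ hφ (ev (le_refl x) w)).mono fun β hβ h => hβ ?_
  rw [← ev_self_eq_zero, map_sub, sub_eq_zero, map_sum] at h
  rw [← h, Fintype.linearCombination_apply]
  refine Finset.sum_congr rfl fun i _ => ?_
  rw [map_mul, Algebra.smul_def]
  rfl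

theorem isClosed_van {X : Scheme.{u}} {τ : Type} (c : Sec X τ) (p : τ → Prop) (ζ : X) :
    IsClosed {x | x ≤ ζ ∧ ∀ j, p j → c.s x j ∈ maximalIdeal (St x)} := by
  have h1 : {x | ∀ j, p j → c.s x j ∈ maximalIdeal (St x)} =
      ⋂ j, ⋂ (_ : p j), {x | IsUnit (c.s x j)}ᶜ := by
    ext x
    simp only [Set.mem_ofPred_eq, Set.mem_iInter, Set.mem_compl_iff, mem_maximalIdeal,
      mem_nonunits_iff]
  have h2 : IsClosed {x | ∀ j, p j → c.s x j ∈ maximalIdeal (St x)} := by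
    rw [h1]
    exact isClosed_iInter fun j => isClosed_iInter fun _ => (c.isOpen_unit j).isClosed_compl
  exact (isClosed_le ζ).inter h2

theorem unit_of_le {X : Scheme.{u}} {τ : Type} (c : Sec X τ) (j : τ) {x y : X} (h : x ≤ y)
    (hx : IsUnit (c.s x j)) : IsUnit (c.s y j) :=
  mem_of_le (U := ⟨_, c.isOpen_unit j⟩) h hx

theorem lin_update_ne (c : Sec S.X.left σ) {d r : ℕ} (A : ℕ → σ → k) (β : σ → k) (x : S.X.left)
    {j : Fin (d + 1)} (h : (j : ℕ) < r) :
    (c.lin (rows d (Function.update A r β))).s x j = (c.lin (rows d A)).s x j := by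
  simp only [Sec.lin, rows, Function.update_of_ne h.ne]

theorem lin_update_eq (c : Sec S.X.left σ) {d r : ℕ} (A : ℕ → σ → k) (β : σ → k) (x : S.X.left)
    (h : r < d + 1) :
    (c.lin (rows d (Function.update A r β))).s x ⟨r, h⟩ = ∑ i, cst S x (β i) * c.s x i := by
  simp only [Sec.lin, rows, Function.update_self]

theorem minor_s {X : Scheme.{u}} {τ : Type} (a b : Sec X τ) (x : X) (i j : τ) :
    (a.minor b).s x (i, j) = a.s x i * b.s x j - a.s x j * b.s x i := rfl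

end GenAux

open GenAux

theorem rowGen_double {a : Sec S.X.left σ} (ha : a.Bpf) (b : Sec S.X.left σ) (ζ : S.X.left)
    (d : ℕ) : RowGen k (d + 1) fun A : ℕ → σ → k =>
      ∀ ξ ≤ ζ, ξ ∈ ((a.lin (rows d A)).minor (b.lin (rows d A))).zero.supp →
        ξ ∉ (a.minor b).zero.supp → dm ξ + d ≤ dm ζ := by
  refine ⟨fun r A => (∀ ξ, (ξ ≤ ζ ∧ ∀ j : Fin (d + 1), (j : ℕ) < r →
      (a.lin (rows d A)).s ξ j ∈ maximalIdeal (St ξ)) → dm ξ + r ≤ dm ζ) ∧
    ∀ ξ, (ξ ≤ ζ ∧ ∀ ij : Fin (d + 1) × Fin (d + 1), ((ij.1 : ℕ) < r ∧ (ij.2 : ℕ) < r) →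
      ((a.lin (rows d A)).minor (b.lin (rows d A))).s ξ ij ∈ maximalIdeal (St ξ)) →
      ξ ∉ (a.minor b).zero.supp → dm ξ + r ≤ dm ζ + 1, fun A => ?_, fun r hr A hA => ?_,
    fun A hA ξ h1 h2 h3 => ?_⟩
  · exact ⟨fun ξ h => dm_mono h.1, fun ξ h _ => (dm_mono h.1).trans (Nat.le_succ _)⟩
  · have e1 := eventually_cut (V := σ → k) (U := Set.univ)
      (isClosed_van (a.lin (rows d A)) (fun j => (j : ℕ) < r) ζ) (fun _ _ _ _ => trivial)
      (fun β => {x | ∑ i, cst S x (β i) * a.s x i ∈ maximalIdeal (St x)})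
      (fun x _ _ => by
        obtain ⟨i, hi⟩ := ha x
        refine (ev_cut x (a.s x) 0 ⟨i, fun h => h hi⟩).mono fun β hβ h => hβ ?_
        rw [sub_zero]
        exact h)
      (c := r) (n := dm ζ) fun x hx _ => hA.1 x hx
    have e2 := eventually_cut (V := σ → k)
      (U := {x | (∃ j : Fin (d + 1), (j : ℕ) < r ∧ IsUnit ((a.lin (rows d A)).s x j)) ∧
        x ∉ (a.minor b).zero.supp})
      (isClosed_van ((a.lin (rows d A)).minor (b.lin (rows d A)))
        (fun ij => (ij.1 : ℕ) < r ∧ (ij.2 : ℕ) < r) ζ)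
      (fun x y h hx => ⟨hx.1.imp fun j hj => ⟨hj.1, unit_of_le _ j h hj.2⟩,
        fun hy => hx.2 (mem_closed_of_le (IF.isClosed_supp _) h hy)⟩)
      (fun β => {x | ∀ j : Fin (d + 1), (j : ℕ) < r →
        (a.lin (rows d A)).s x j * (∑ i, cst S x (β i) * b.s x i) -
          (∑ i, cst S x (β i) * a.s x i) * (b.lin (rows d A)).s x j ∈ maximalIdeal (St x)})
      (fun x _ hx => by
        obtain ⟨⟨j, hj, hu⟩, hs⟩ := hx
        have hv : ∃ i, (a.lin (rows d A)).s x j * b.s x i - a.s x i * (b.lin (rows d A)).s x j ∉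
            maximalIdeal (St x) := by
          by_contra hc
          push Not at hc
          refine hs (Sec.mem_supp_zero.2 fun il => ?_)
          rw [← Ideal.unit_mul_mem_iff_mem _ hu]
          have h1 := Ideal.sub_mem _ (Ideal.mul_mem_left _ (a.s x il.1) (hc il.2))
            (Ideal.mul_mem_left _ (a.s x il.2) (hc il.1))
          convert h1 using 1
          change _ * (a.s x il.1 * b.s x il.2 - a.s x il.2 * b.s x il.1) = _
          ring
        refine (ev_cut x _ 0 hv).mono fun β hβ h => hβ ?_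
        convert h j hj using 1
        rw [sub_zero, Finset.mul_sum, Finset.sum_mul, ← Finset.sum_sub_distrib]
        exact Finset.sum_congr rfl fun i _ => by ring)
      (c := r) (n := dm ζ + 1) fun x hx hx' => hA.2 x hx hx'.2
    refine (e1.and e2).mono fun β hβ => ⟨fun ξ h => ?_, fun ξ h hs => ?_⟩
    · refine hβ.1 ξ ⟨h.1, fun j hj => ?_⟩ trivial ?_
      · rw [← lin_update_ne a A β ξ hj]
        exact h.2 j (hj.trans (Nat.lt_succ_self r))
      · have h1 := h.2 ⟨r, hr⟩ (Nat.lt_succ_self r)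
        rwa [lin_update_eq] at h1
    · by_cases hF : ∀ j : Fin (d + 1), (j : ℕ) < r → (a.lin (rows d A)).s ξ j ∈ maximalIdeal (St ξ)
      · have := hA.1 ξ ⟨h.1, hF⟩
        omega
      push Not at hF
      obtain ⟨j, hj, hu⟩ := hF
      refine hβ.2 ξ ⟨h.1, fun ij hij => ?_⟩ ⟨⟨j, hj, by_contra fun hc => hu hc⟩, hs⟩ fun i hi => ?_
      · have h1 := h.2 ij ⟨hij.1.trans (Nat.lt_succ_self r), hij.2.trans (Nat.lt_succ_self r)⟩
        obtain ⟨i1, i2⟩ := ij
        rwa [minor_s, lin_update_ne a A β ξ hij.1, lin_update_ne a A β ξ hij.2,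
          lin_update_ne b A β ξ hij.1, lin_update_ne b A β ξ hij.2] at h1
      · have h1 := h.2 (i, ⟨r, hr⟩) ⟨hi.trans (Nat.lt_succ_self r), Nat.lt_succ_self r⟩
        rwa [minor_s, lin_update_ne a A β ξ hi, lin_update_ne b A β ξ hi, lin_update_eq,
          lin_update_eq] at h1
  · have := hA.2 ξ ⟨h1, fun ij _ => Sec.mem_supp_zero.1 h2 ij⟩ h3
    omega

theorem rowGen_pr {d : ℕ} {a : Sec S.X.left (Fin (d + 1))} {ζ : S.X.left} (ha : Flag a ζ)
    {b : Sec S.X.left σ} (hb : b.Bpf) :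
    RowGen k (d + 1) fun B : ℕ → σ → k => (a.minor (b.lin (rows d B))).zero.Pr d ζ := by
  refine ⟨fun r B => ∀ ξ, (ξ ≤ ζ ∧ ∀ ij : Fin (d + 1) × Fin (d + 1),
      ((ij.1 : ℕ) < r ∧ (ij.2 : ℕ) < r) →
      (a.minor (b.lin (rows d B))).s ξ ij ∈ maximalIdeal (St ξ)) → dm ξ + r ≤ dm ζ + 1,
    fun B => ?_, fun r hr B hB => ?_, fun B hB ξ h1 h2 => ?_⟩
  · exact fun ξ h => (dm_mono h.1).trans (Nat.le_succ _)
  · have e2 := eventually_cut (V := σ → k)
      (U := {x | ∃ j : Fin (d + 1), (j : ℕ) < r ∧ IsUnit (a.s x j)})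
      (isClosed_van (a.minor (b.lin (rows d B))) (fun ij => (ij.1 : ℕ) < r ∧ (ij.2 : ℕ) < r) ζ)
      (fun x y h hx => hx.imp fun j hj => ⟨hj.1, unit_of_le _ j h hj.2⟩)
      (fun β => {x | ∀ j : Fin (d + 1), (j : ℕ) < r →
        a.s x j * (∑ i, cst S x (β i) * b.s x i) -
          a.s x ⟨r, hr⟩ * (b.lin (rows d B)).s x j ∈ maximalIdeal (St x)})
      (fun x _ hx => by
        obtain ⟨j, hj, hu⟩ := hx
        obtain ⟨i, hi⟩ := hb x
        refine (ev_cut x (fun i => a.s x j * b.s x i) (a.s x ⟨r, hr⟩ * (b.lin (rows d B)).s x j)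
          ⟨i, fun h => h (hu.mul hi)⟩).mono fun β hβ h => hβ ?_
        convert h j hj using 2
        rw [Finset.mul_sum]
        exact Finset.sum_congr rfl fun i _ => by ring)
      (c := r) (n := dm ζ + 1) fun x hx _ => hB x hx
    refine e2.mono fun β hβ ξ h => ?_
    by_cases hF : ∀ j : Fin (d + 1), (j : ℕ) < r → a.s ξ j ∈ maximalIdeal (St ξ)
    · have := ha r hr.le ξ h.1 hF
      omega
    push Not at hF
    obtain ⟨j, hj, hu⟩ := hF
    refine hβ ξ ⟨h.1, fun ij hij => ?_⟩ ⟨j, hj, by_contra fun hc => hu hc⟩ fun i hi => ?_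
    · have h1 := h.2 ij ⟨hij.1.trans (Nat.lt_succ_self r), hij.2.trans (Nat.lt_succ_self r)⟩
      obtain ⟨i1, i2⟩ := ij
      rwa [minor_s, lin_update_ne b B β ξ hij.1, lin_update_ne b B β ξ hij.2] at h1
    · have h1 := h.2 (i, ⟨r, hr⟩) ⟨hi.trans (Nat.lt_succ_self r), Nat.lt_succ_self r⟩
      rwa [minor_s, lin_update_ne b B β ξ hi, lin_update_eq] at h1
  · have := hB ξ ⟨h2, fun ij _ => Sec.mem_supp_zero.1 h1 ij⟩
    omega

end Pool.Agent.P.MP_638e8a_ag.Cyc
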