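import Pool.Agent.P.MP_638e8a_ag.ChA6
import Pool.Agent.P.MP_638e8a_ag.ChDim

/-!
Task CHOW GEN0: generic hyperplane sections.
-/

open CategoryTheory AlgebraicGeometry IsLocalRing TopologicalSpace

universe u

namespace Pool.Agent.P.MP_638e8a_ag.Cyc

open Pool.Agent.P.MP_90138e_ag
open Pool.Agent.P.MP_90138e_ag.WeilCohomology (fstH sndH)

variable {k : Type u} [Field k] {S : SmProj k} {σ : Type} [Fintype σ]

theorem eventually_cut {V : Type u} [AddCommGroup V] [Module k V] {C U : Set S.X.left}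
    (hC : IsClosed C) (hU : ∀ x y, x ≤ y → x ∈ U → y ∈ U) (H : V → Set S.X.left)
    (hH : ∀ x ∈ C, x ∈ U → ∀ᶠ β in genF k V, x ∉ H β) {c n : ℕ}
    (hn : ∀ x ∈ C, x ∈ U → dm x + c ≤ n) :
    ∀ᶠ β in genF k V, ∀ x ∈ C, x ∈ U → x ∈ H β → dm x + (c + 1) ≤ n := by
  have h1 : ∀ᶠ β in genF k V, ∀ y ∈ {y | Maximal (· ∈ C) y}, y ∈ U → y ∉ H β := by
    refine (Filter.eventually_all_finite (finite_maximal hC)).2 fun y hy => ?_
    by_cases hyU : y ∈ U
    · exact (hH y hy.1 hyU).mono fun β h _ => h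
    · exact Filter.Eventually.of_forall fun β h => absurd h hyU
  refine h1.mono fun β hβ x hx hxU hxH => ?_
  obtain ⟨y, hxy, hy⟩ := exists_maximal hC hx
  have hyU := hU x y hxy hxU
  have hne : x ≠ y := fun h => hβ y hy hyU (h ▸ hxH)
  have h2 := dm_lt hxy hne
  have h3 := hn y hy.1 hyU
  omega

theorem ev_self_eq_zero {X : Scheme.{u}} {x : X} {a : St x} :
    ev (le_refl x) a = 0 ↔ a ∈ maximalIdeal (St x) := by
  rw [ev_eq_zero, primeOf_self]

/-- The value at `x` of a linear combination of germs. -/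
noncomputable def evLin (x : S.X.left) (s : σ → St x) :
    letI := algRf S x
    (σ → k) →ₗ[k] Rf x :=
  letI := algRf S x
  { toFun := fun β => ev (le_refl x) (∑ l, cst S x (β l) * s l)
    map_add' := fun β γ => by
      simp only [Pi.add_apply, map_add, add_mul, Finset.sum_add_distrib]
    map_smul' := fun c β => by
      rw [RingHom.id_apply, Algebra.smul_def]
      change _ = ev (le_refl x) (cst S x c) * _
      rw [← map_mul, Finset.mul_sum]
      refine congrArg _ (Finset.sum_congr rfl fun l _ => ?_)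
      rw [← mul_assoc, ← map_mul]
      rfl }

theorem evLin_apply (x : S.X.left) (s : σ → St x) (β : σ → k) :
    evLin x s β = ev (le_refl x) (∑ l, cst S x (β l) * s l) := rfl

theorem evLin_eq_zero (x : S.X.left) (s : σ → St x) (β : σ → k) :
    evLin x s β = 0 ↔ ∑ l, cst S x (β l) * s l ∈ maximalIdeal (St x) := ev_self_eq_zero

theorem lin_mem_iff {τ : Type} (a : Sec S.X.left σ) (A : τ → σ → k) (x : S.X.left) (j : τ) :
    (a.lin A).s x j ∈ maximalIdeal (St x) ↔ evLin x (a.s x) (A j) = 0 :=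
  (evLin_eq_zero x (a.s x) (A j)).symm

theorem evLin_single [DecidableEq σ] (x : S.X.left) (s : σ → St x) (i : σ) :
    evLin x s (Pi.single i 1) = ev (le_refl x) (s i) := by
  rw [evLin_apply, Finset.sum_eq_single i]
  · simp
  · intro l _ hl
    simp [Pi.single_eq_of_ne hl]
  · simp

theorem evLin_ne_zero (x : S.X.left) {s : σ → St x} {i : σ} (h : s i ∉ maximalIdeal (St x)) :
    evLin x s ≠ 0 := by
  classical
  intro h0
  apply h
  rw [← ev_self_eq_zero, ← evLin_single, h0]
  rfl

/-- A generic linear combination does not vanish at a point where some germ does not vanish. -/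
theorem eventually_evLin_ne (x : S.X.left) {s : σ → St x} {i : σ}
    (h : s i ∉ maximalIdeal (St x)) (c : Rf x) : ∀ᶠ β in genF k (σ → k), evLin x s β ≠ c :=
  letI := algRf S x
  eventually_ne (evLin x s) (evLin_ne_zero x h) c

theorem isClosed_rows {τ : Type} (a : Sec S.X.left σ) (A : τ → σ → k) :
    IsClosed {x : S.X.left | ∀ j, evLin x (a.s x) (A j) = 0} := by
  have : {x : S.X.left | ∀ j, evLin x (a.s x) (A j) = 0} = (a.lin A).zero.supp :=
    Set.ext fun x => by
      rw [Sec.mem_supp_zero]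
      exact forall_congr' fun j => (lin_mem_iff a A x j).symm
  rw [this]
  exact IF.isClosed_supp _

theorem isClosed_rows_lt (a : Sec S.X.left σ) (A : ℕ → σ → k) (r : ℕ) :
    IsClosed {x : S.X.left | ∀ j < r, evLin x (a.s x) (A j) = 0} := by
  have h := isClosed_rows a fun j : Fin r => A j
  have e : {x : S.X.left | ∀ j < r, evLin x (a.s x) (A j) = 0} =
      {x : S.X.left | ∀ j : Fin r, evLin x (a.s x) (A j) = 0} :=
    Set.ext fun x => ⟨fun h j => h j j.2, fun h j hj => h ⟨j, hj⟩⟩
  rw [e]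
  exact h

/-- At a closed point every germ is a constant modulo the maximal ideal. -/
theorem exists_sub_cst_mem [IsAlgClosed k] {z : S.X.left} (hz : IsClosed {z}) (a : St z) :
    ∃ t, a - cst S z t ∈ maximalIdeal (St z) := by
  let r := residueFieldIsoBase S.X.hom z hz
  have key : r.inv = (Scheme.ΓSpecIso (CommRingCat.of k)).inv ≫ S.X.hom.appTop ≫
      S.X.left.presheaf.germ ⊤ z trivial ≫ S.X.left.residue z := by
    apply Spec.map_injective
    rw [SpecMap_residueFieldIsoBase_inv, Spec.map_comp, Spec.map_comp, Spec.map_comp,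
      ← Scheme.fromSpecStalk_toSpecΓ, Scheme.fromSpecResidueField]
    simp only [Category.assoc]
    rw [← Scheme.toSpecΓ_naturality_assoc, toSpecΓ_SpecMap_ΓSpecIso_inv, Category.comp_id]
  refine ⟨r.hom (S.X.left.residue z a), ?_⟩
  have e2 : S.X.left.residue z (cst S z (r.hom (S.X.left.residue z a))) =
      r.inv (r.hom (S.X.left.residue z a)) := by
    rw [key]
    rfl
  rw [r.hom_inv_id_apply] at e2
  refine (residue_eq_zero_iff _).1 ?_
  rw [map_sub, sub_eq_zero]
  exact e2.symm

/-- The first `r` of the sections cut out codimension at least `r` in `ζ`. -/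
def Flag {d : ℕ} (a : Sec S.X.left (Fin (d + 1))) (ζ : S.X.left) : Prop :=
  ∀ r ≤ d + 1, ∀ ξ ≤ ζ, (∀ j : Fin (d + 1), (j : ℕ) < r → a.s ξ j ∈ maximalIdeal (St ξ)) →
    dm ξ + r ≤ dm ζ

theorem rowGen_flag {a : Sec S.X.left σ} (ha : a.Bpf) (ζ : S.X.left) (d : ℕ) :
    RowGen k (d + 1) fun A : ℕ → σ → k => Flag (a.lin (rows d A)) ζ := by
  refine ⟨fun r A => ∀ r' ≤ r, ∀ ξ ≤ ζ, (∀ j < r', evLin ξ (a.s ξ) (A j) = 0) →
    dm ξ + r' ≤ dm ζ, fun A r' hr' ξ hξ _ => ?_, fun r _ A hA => ?_, fun A hA r hr ξ hξ h => ?_⟩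
  · have := dm_mono hξ
    omega
  · have h := eventually_cut (V := σ → k) (U := Set.univ) (c := r) (n := dm ζ)
      ((isClosed_le ζ).inter (isClosed_rows_lt a A r)) (fun _ _ _ _ => trivial)
      (fun β => {ξ | evLin ξ (a.s ξ) β = 0})
      (fun x _ _ => by
        obtain ⟨i, hi⟩ := ha x
        exact eventually_evLin_ne x (i := i) (fun h => h hi) 0)
      (fun x hx _ => hA r le_rfl x hx.1 hx.2)
    refine h.mono fun β hβ r' hr' ξ hξ hv => ?_
    have h1 : ∀ j < r', j < r → evLin ξ (a.s ξ) (A j) = 0 := fun j hj hj' => by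
      have := hv j hj
      rwa [Function.update_of_ne hj'.ne] at this
    rcases Nat.lt_or_ge r r' with h2 | h2
    · obtain rfl : r' = r + 1 := by omega
      refine hβ ξ ⟨hξ, fun j hj => h1 j (by omega) hj⟩ trivial ?_
      have := hv r h2
      rwa [Function.update_self] at this
    · exact hA r' h2 ξ hξ fun j hj => h1 j hj (by omega)
  · exact hA r hr ξ hξ fun j hj =>
      (lin_mem_iff a (rows d A) ξ ⟨j, by omega⟩).1 (h ⟨j, by omega⟩ hj)

/-- At a closed point the minors of a generic projection generate the same ideal. -/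
theorem rowGen_unram [IsAlgClosed k] {a b : Sec S.X.left σ} (ha : a.Bpf) (hb : b.Bpf) {d : ℕ}
    (hg : (a.minor b).zero.Gen d) {z : S.X.left} (hz : IsClosed {z})
    (hz' : z ∈ (a.minor b).zero.supp) : RowGen k (d + 1) fun A : ℕ → σ → k =>
      ((a.lin (rows d A)).minor (b.lin (rows d A))).zero.J z = (a.minor b).zero.J z := by
  obtain ⟨g, hg1, hg2⟩ := hg z hz'
  have h := rowGen_nak (cst S z) (exists_sub_cst_mem hz) (a.s z) (b.s z) (ha z) (hb z) d g hg1 hg2
    (hg2 ▸ hz')
  exact h.mono fun A hA => hA.trans hg2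

end Pool.Agent.P.MP_638e8a_ag.Cyc
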