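import Pool.Agent.P.MP_638e8a_ag.ChMove

/-!
The intersection cycle respects rational equivalence.
-/

open CategoryTheory AlgebraicGeometry IsLocalRing TopologicalSpace

universe u

namespace Pool.Agent.P.MP_638e8a_ag.Cyc

open Pool.Agent.P.MP_90138e_ag
open Pool.Agent.P.MP_90138e_ag.WeilCohomology (fstH sndH)

variable {k : Type u} [Field k] [IsAlgClosed k] {T : SmProj k}

variable {S : SmProj k} {f : S.X ⟶ T.X}

omit [IsAlgClosed k] in
theorem prA_cy_iff {w : S.X.left} {β : Zc T} : PrA f (cy w) β ↔ ∀ v ∈ β.support, PrI f w v := by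
  simp [PrA]

omit [IsAlgClosed k] in
theorem prA_of_subset {α : Zc S} {β : Zc T} {s : Set S.X.left} (h : ∀ w ∈ s, PrA f (cy w) β)
    (h' : ∀ w ∈ α.support, w ∈ s) : PrA f α β := fun w hw => prA_cy_iff.1 (h w (h' w hw))

omit [IsAlgClosed k] in
theorem act_mem_of_forall {α : Zc S} {β : Zc T} {N : Submodule ℚ (Zc S)}
    (h : ∀ w ∈ α.support, act f (cy w) β ∈ N) : act f α β ∈ N := by
  rw [← Finsupp.sum_single α, Finsupp.sum, map_sum, LinearMap.sum_apply]
  refine N.sum_mem fun w hw => ?_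
  rw [← mul_one (α w), ← smul_eq_mul, ← Finsupp.smul_single, map_smul, LinearMap.smul_apply]
  exact N.smul_mem _ (h w hw)

theorem moving₂ {S' : SmProj k} (f : S.X ⟶ T.X) (f' : S'.X ⟶ T.X) {s : Set S.X.left}
    {s' : Set S'.X.left} (hs : s.Finite) (hs' : s'.Finite) (β : Zc T) :
    ∃ β' : Zc T, β - β' ∈ ratP T.X.left ∧ (∀ w ∈ s, PrA f (cy w) β') ∧
      (∀ w ∈ s', PrA f' (cy w) β') ∧
      ∀ w ∈ s, PrA f (cy w) β → act f (cy w) (β - β') ∈ ratP S.X.left := by
  have := hs.to_subtype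
  have := hs'.to_subtype
  obtain ⟨β', -, -, h1, h2, h3⟩ := moving (ι := s ⊕ s') (Sum.elim (fun _ => S) fun _ => S')
    (fun i => match i with | .inl _ => f | .inr _ => f')
    (fun i => match i with | .inl w => w.1 | .inr w => w.1) β
  exact ⟨β', h1, fun w hw => h2 (.inl ⟨w, hw⟩), fun w hw => h2 (.inr ⟨w, hw⟩),
    fun w hw => h3 (.inl ⟨w, hw⟩)⟩

theorem exists_test (L : Line k) {α : Zc S} (hα : α ∈ ratP S.X.left) :
    ∃ s : Set (S.prod L.C).X.left, s.Finite ∧ ∀ β : Zc T,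
      (∀ w ∈ s, PrA (fstH S L.C ≫ f) (cy w) β) → act f α β ∈ ratP S.X.left := by
  induction hα using Submodule.span_induction with
  | zero => exact ⟨∅, Set.finite_empty, fun β _ => by simp⟩
  | add a b _ _ ha hb =>
    obtain ⟨s, h1, h2⟩ := ha
    obtain ⟨s', h1', h2'⟩ := hb
    refine ⟨s ∪ s', h1.union h1', fun β h => ?_⟩
    rw [map_add, LinearMap.add_apply]
    exact add_mem (h2 β fun w hw => h w (.inl hw)) (h2' β fun w hw => h w (.inr hw))
  | smul c a _ ha =>
    obtain ⟨s, h1, h2⟩ := ha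
    refine ⟨s, h1, fun β h => ?_⟩
    rw [map_smul, LinearMap.smul_apply]
    exact Submodule.smul_mem _ _ (h2 β h)
  | mem c hc =>
    obtain ⟨v, ψ, hψ, hc⟩ := hc
    obtain ⟨Γ, -, -, h3, rfl⟩ := L.exists_family (isProd_prod S L.C) hψ hc
    refine ⟨⋃ i, {y | (L.fib (sndH S L.C) i).Comp Γ y},
      Set.finite_iUnion fun i => IF.finite_comp _ _, fun β h => ?_⟩
    have h4 (i) : PrA (fstH S L.C ≫ f) ((L.fib (sndH S L.C) i).cut 1 (cy Γ)) β :=
      prA_of_subset h fun w hw => Set.mem_iUnion.2 ⟨i, IF.comp_of_mem_cut hw⟩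
    have h5 (i) := act_cut (f := fstH S L.C ≫ f) (L.fib_gen (sndH S L.C) i) (α := cy Γ) (β := β)
      (fun w hw t ht x h1 h2 h6 => by
        obtain rfl : w = Γ := by simpa using hw
        obtain ⟨y, h7, h8⟩ := IF.exists_comp _ h1 h2
        have h9 := prA_cy_iff.1 (h y (Set.mem_iUnion.2 ⟨i, h8⟩)) t ht x h7 h6
        have := h3 i y h8.1.1 h8.1.2
        omega)
    rw [map_sub, map_sub, LinearMap.sub_apply, ← push_act (h4 1), ← push_act (h4 0), (h5 1).1,
      (h5 0).1, ← map_sub]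
    exact push_mem_ratP _ (L.fib_sub_mem _ fun x hx i => (h5 i).2 x hx)

theorem act_mem_left {α : Zc S} {β : Zc T} (hα : α ∈ ratP S.X.left) (h : PrA f α β) :
    act f α β ∈ ratP S.X.left := by
  obtain ⟨L⟩ := nonempty_line k
  obtain ⟨s, h1, h2⟩ := exists_test (f := f) L hα
  obtain ⟨β', -, -, h3, h4⟩ := moving₂ f (fstH S L.C ≫ f) α.support.finite_toSet h1 β
  have h5 : act f α (β - β') ∈ ratP S.X.left :=
    act_mem_of_forall fun w hw => h4 w hw (prA_cy_iff.2 (h w hw))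
  simpa using add_mem h5 (h2 β' h3)

theorem act_mem_right {α : Zc S} {β : Zc T} (hβ : β ∈ ratP T.X.left) (h : PrA f α β) :
    act f α β ∈ ratP S.X.left := by
  obtain ⟨h1, h2⟩ := act_graph (isProd_prod S T) (pair_fst (𝟙 _) f) (pair_snd _ _) h
  rw [h2, act_comm h1]
  refine push_mem_ratP _ (act_mem_left ?_ h1.symm)
  rw [← (isProd_prod S T).extZ_symm]
  exact (isProd_prod S T).symm.ext_mem_ratP hβ _

omit [IsAlgClosed k] in
theorem PrA.sub_left {α α' : Zc S} {β : Zc T} (h : PrA f α β) (h' : PrA f α' β) :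
    PrA f (α - α') β := by
  classical
  exact fun w hw => (Finset.mem_union.1 (Finsupp.support_sub hw)).elim (h w) (h' w)

omit [IsAlgClosed k] in
theorem PrA.sub_right {α : Zc S} {β β' : Zc T} (h : PrA f α β) (h' : PrA f α β') :
    PrA f α (β - β') := by
  classical
  exact fun w hw v hv => (Finset.mem_union.1 (Finsupp.support_sub hv)).elim (h w hw v) (h' w hw v)

theorem act_sub_mem {α α' : Zc S} {β β' : Zc T} (hα : α - α' ∈ ratP S.X.left)
    (hβ : β - β' ∈ ratP T.X.left) (h : PrA f α β) (h' : PrA f α' β') :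
    act f α β - act f α' β' ∈ ratP S.X.left := by
  obtain ⟨γ, h1, h2, h3, -⟩ := moving₂ f f α.support.finite_toSet α'.support.finite_toSet β
  have h4 : PrA f α γ := prA_of_subset h2 fun _ hw => hw
  have h5 : PrA f α' γ := prA_of_subset h3 fun _ hw => hw
  have h6 := act_mem_right h1 (h.sub_right h4)
  have h7 := act_mem_left hα (h4.sub_left h5)
  have h8 := act_mem_right (β := γ - β') (by simpa using sub_mem hβ h1) (h5.sub_right h')
  simpa using add_mem (add_mem h6 h7) h8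

end Pool.Agent.P.MP_638e8a_ag.Cyc
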