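import Pool.Agent.P.MP_638e8a_ag.ChProj
import Pool.Agent.P.MP_638e8a_ag.ChCoord
import Pool.Agent.P.MP_638e8a_ag.ChA8

/-!
Task CHOW LINE: projective space is a smooth projective variety; the projective line.
-/

open CategoryTheory AlgebraicGeometry IsLocalRing TopologicalSpace

universe u

namespace Pool.Agent.P.MP_638e8a_ag.Cyc

open Pool.Agent.P.MP_90138e_ag
open Pool.Agent.P.MP_90138e_ag.WeilCohomology (fstH sndH)

variable {k : Type u} [Field k]

theorem stalkClosedPointTo_comp_eq_zero {Y : Scheme.{u}} {σ : Type} (t : Sec Y σ) (i : σ)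
    (a : Spec (.of k) ⟶ Y) (ha : (Scheme.stalkClosedPointTo a).hom (t.s _ i) = 0)
    {R : CommRingCat.{u}} [IsLocalRing R] (c : Spec R ⟶ Spec (.of k)) :
    (Scheme.stalkClosedPointTo (c ≫ a)).hom (t.s _ i) = 0 := by
  have h1 : ∀ x : Spec (CommRingCat.of k), stm a x (t.s (a x) i) = 0 := by
    intro x
    obtain rfl : x = closedPoint k := Subsingleton.elim (α := PrimeSpectrum k) _ _
    exact (map_eq_zero_iff _
      (stalkClosedPointIso (.of k)).commRingCatIsoToRingEquiv.injective).1 ha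
  rw [Scheme.stalkClosedPointTo_comp]
  change (Scheme.stalkClosedPointTo c).hom (stm a _ (t.s (a _) i)) = 0
  rw [h1, map_zero]

theorem nonempty_line_of_coord (C : SmProj k) (hC : C.dim = 1) (t : Sec C.X.left (Fin 2))
    (h1 : t.Bpf)
    (h2 : ∀ (R : CommRingCat.{u}) [IsLocalRing R] (a b : Spec R ⟶ C.X.left),
      a ≫ C.X.hom = b ≫ C.X.hom →
      (∀ i j, (Scheme.stalkClosedPointTo a).hom (t.s _ i) *
          (Scheme.stalkClosedPointTo b).hom (t.s _ j) =
        (Scheme.stalkClosedPointTo a).hom (t.s _ j) *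
          (Scheme.stalkClosedPointTo b).hom (t.s _ i)) → a = b)
    (h3 : ∀ (R : CommRingCat.{u}) [IsLocalRing R] (c : Spec R ⟶ Spec (.of k)) (x : Fin 2 → R),
      (∃ i, IsUnit (x i)) → ∃ (a : Spec R ⟶ C.X.left) (e : Rˣ), a ≫ C.X.hom = c ∧
        ∀ i, (Scheme.stalkClosedPointTo a).hom (t.s _ i) = e * x i) : Nonempty (Line k) := by
  have h4 : ∀ i : Fin 2, ∃ a : Spec (.of k) ⟶ C.X.left,
      a ≫ C.X.hom = 𝟙 _ ∧ (Scheme.stalkClosedPointTo a).hom (t.s _ i) = 0 := by
    intro i
    obtain ⟨j, hj⟩ := exists_ne i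
    obtain ⟨a, e, ha, he⟩ := h3 (.of k) (𝟙 _) (fun l => if l = i then 0 else 1)
      ⟨j, by rw [if_neg hj]; exact isUnit_one⟩
    exact ⟨a, ha, by rw [he, if_pos rfl, mul_zero]⟩
  choose a ha ha0 using h4
  refine ⟨⟨C, hC, t, h1, fun i => Over.homMk (a i) (ha i), fun i => ?_, fun L _ c φ => ?_⟩⟩
  · have hc : IsClosedImmersion (a i ≫ C.X.hom) := by
      rw [ha i]
      infer_instance
    have hi : IsClosedImmersion (a i) := IsClosedImmersion.of_comp (a i) C.X.hom
    refine IF.ext_kills fun R _ ι => ?_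
    refine IF.kills_zero.trans (Iff.trans ?_
      (IF.kills_prime_map (i := a i) (w := genericPoint (Spec (.of k))) (ι := ι)).symm)
    constructor
    · intro h
      have h5 : (Scheme.stalkClosedPointTo ι).hom (t.s _ i) = 0 := h ()
      refine ⟨ι ≫ C.X.hom, ?_, IF.kills_gen _⟩
      have h6 := stalkClosedPointTo_comp_eq_zero t i (a i) (ha0 i) (ι ≫ C.X.hom)
      refine h2 R _ _ (by rw [Category.assoc, ha i, Category.comp_id]) fun l m => ?_
      by_cases hl : l = i
      · rw [hl, h5, h6, mul_zero, zero_mul]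
      by_cases hm : m = i
      · rw [hm, h5, h6, mul_zero, zero_mul]
      obtain rfl : l = m := by omega
      rfl
    · rintro ⟨c, rfl, -⟩ _
      exact stalkClosedPointTo_comp_eq_zero t i (a i) (ha0 i) c
  · obtain ⟨b, e, hb, he⟩ := h3 (.of L) c ![1, φ] ⟨0, isUnit_one⟩
    refine ⟨b, hb, ?_, ?_⟩
    · rw [he]
      simp
    · rw [he, he]
      simp [mul_comm]

theorem nonempty_line (k : Type u) [Field k] : Nonempty (Line k) := by
  obtain ⟨t, h1, h2, h3⟩ := exists_coord_proj k 1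
  exact nonempty_line_of_coord (proj k 1) rfl t h1 h2 h3

end Pool.Agent.P.MP_638e8a_ag.Cyc
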