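import Pool.Agent.P.MP_638e8a_ag.ChStep
import Pool.Agent.P.MP_638e8a_ag.ChGen
import Pool.Agent.P.MP_638e8a_ag.ChAssoc
import Pool.Agent.P.MP_638e8a_ag.ChCont

/-!
Task CHOW MOVE: the moving lemma.
-/

open CategoryTheory AlgebraicGeometry IsLocalRing TopologicalSpace

universe u

namespace Pool.Agent.P.MP_638e8a_ag.Cyc

open Pool.Agent.P.MP_90138e_ag
open Pool.Agent.P.MP_90138e_ag.WeilCohomology (fstH sndH)

variable {k : Type u} [Field k] [IsAlgClosed k] {T : SmProj k}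

namespace MoveA

variable {ι : Type u} {S : ι → SmProj k} (f : ∀ i, (S i).X ⟶ T.X) (w : ∀ i, (S i).X.left)

/-- The conclusion of the moving lemma. -/
def Mv (β β' : Zc T) : Prop :=
  (IntZ β → IntZ β') ∧ (∀ x ∈ β'.support, ∃ y ∈ β.support, dm x = dm y) ∧
    β - β' ∈ ratP T.X.left ∧ (∀ i, PrA (f i) (cy (w i)) β') ∧
    ∀ i, PrA (f i) (cy (w i)) β → act (f i) (cy (w i)) (β - β') ∈ ratP (S i).X.left

omit [IsAlgClosed k] in
theorem mem_cy {U : SmProj k} {x v : U.X.left} : x ∈ (cy v).support ↔ x = v := by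
  rw [Finsupp.support_single _ one_ne_zero, Finset.mem_singleton]

omit [IsAlgClosed k] in
theorem prA_cy {U : SmProj k} {g : U.X ⟶ T.X} {u : U.X.left} {β : Zc T} :
    PrA g (cy u) β ↔ ∀ v ∈ β.support, PrI g u v :=
  ⟨fun h => h u (mem_cy.2 rfl), fun h _ hx => mem_cy.1 hx ▸ h⟩

omit [IsAlgClosed k] in
theorem intZ_cy (v : T.X.left) : IntZ (cy v) := by
  classical
  intro x
  by_cases h : v = x
  · exact ⟨1, by simp [h]⟩
  · exact ⟨0, by simp [h]⟩

omit [IsAlgClosed k] in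
theorem of_points (β : Zc T) (h : ∀ v ∈ β.support, ∃ c, Mv f w (cy v) c) :
    ∃ β', Mv f w β β' := by
  classical
  choose! m hm using h
  have hs : ∀ x ∈ (∑ v ∈ β.support, β v • m v).support,
      ∃ v ∈ β.support, x ∈ (m v).support := by
    intro x hx
    obtain ⟨v, hv, hx'⟩ := Finset.mem_biUnion.1 (Finsupp.support_finset_sum hx)
    exact ⟨v, hv, Finsupp.support_smul hx'⟩
  have he : β - ∑ v ∈ β.support, β v • m v = ∑ v ∈ β.support, β v • (cy v - m v) := by
    simp only [smul_sub, Finset.sum_sub_distrib, Finsupp.smul_single, smul_eq_mul, mul_one]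
    congr 1
    exact (Finsupp.sum_single β).symm
  refine ⟨∑ v ∈ β.support, β v • m v, fun hβ x => ?_, fun x hx => ?_, ?_, fun i => ?_,
    fun i hi => ?_⟩
  · rw [Finsupp.finset_sum_apply]
    refine Finset.sum_induction _ (fun q : ℚ => ∃ n : ℤ, q = n) ?_ ⟨0, by simp⟩ ?_
    · rintro _ _ ⟨a, rfl⟩ ⟨b, rfl⟩
      exact ⟨a + b, by simp⟩
    · intro v hv
      obtain ⟨a, ha⟩ := hβ v
      obtain ⟨b, hb⟩ := (hm v hv).1 (intZ_cy v) x
      exact ⟨a * b, by simp [ha, hb]⟩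
  · obtain ⟨v, hv, hx'⟩ := hs x hx
    obtain ⟨y, hy, e⟩ := (hm v hv).2.1 x hx'
    exact ⟨v, hv, mem_cy.1 hy ▸ e⟩
  · rw [he]
    exact Submodule.sum_mem _ fun v hv => Submodule.smul_mem _ _ (hm v hv).2.2.1
  · refine prA_cy.2 fun x hx => ?_
    obtain ⟨v, hv, hx'⟩ := hs x hx
    exact prA_cy.1 ((hm v hv).2.2.2.1 i) x hx'
  · rw [he, map_sum]
    refine Submodule.sum_mem _ fun v hv => ?_
    rw [map_smul]
    refine Submodule.smul_mem _ _ ((hm v hv).2.2.2.2 i (prA_cy.2 fun y hy => ?_))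
    rw [mem_cy.1 hy]
    exact prA_cy.1 hi v hv

theorem point [Finite ι] (n : ℕ) (v : T.X.left)
    (h : ∀ i, ∀ x ≤ w i, (f i).left x ≤ v → dm x + T.dim ≤ dm (w i) + dm v + n) :
    ∃ c, Mv f w (cy v) c := by
  classical
  induction n generalizing v with
  | zero =>
    refine ⟨cy v, id, fun x hx => ⟨x, hx, rfl⟩, by simp, fun i => prA_cy.2 fun y hy => ?_,
      fun i _ => by simp⟩
    rw [mem_cy.1 hy]
    exact h i
  | succ n ih =>
    obtain ⟨G, R, hG, hR, dG, dR, hrat, hpr, hex, hact⟩ := moving_step S f w v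
    obtain ⟨R', h1, h2, h3, h4, h5⟩ := of_points f w R fun r hr => ih r fun i x hx hx' => by
      rw [dR r hr]
      exact hex i n (h i) r hr x hx hx'
    have he : cy v - (G - R') = (cy v + R - G) - (R - R') := by abel
    have hs : ∀ x ∈ (G - R').support, x ∈ G.support ∨ x ∈ R'.support := fun x hx =>
      Finset.mem_union.1 (Finsupp.support_sub hx)
    refine ⟨G - R', fun _ x => ?_, fun x hx => ⟨v, mem_cy.2 rfl, ?_⟩, ?_, fun i => ?_,
      fun i hi => ?_⟩
    · obtain ⟨a, ha⟩ := hG x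
      obtain ⟨b, hb⟩ := h1 hR x
      exact ⟨a - b, by simp [ha, hb]⟩
    · rcases hs x hx with hx | hx
      · exact dG x hx
      · obtain ⟨y, hy, e⟩ := h2 x hx
        exact e.trans (dR y hy)
    · rw [he]
      exact Submodule.sub_mem _ hrat h3
    · refine prA_cy.2 fun x hx => ?_
      rcases hs x hx with hx | hx
      · exact prA_cy.1 (hpr i) x hx
      · exact prA_cy.1 (h4 i) x hx
    · have hi' : PrI (f i) (w i) v := prA_cy.1 hi v (mem_cy.2 rfl)
      rw [he, map_sub]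
      refine Submodule.sub_mem _ (hact i hi') (h5 i (prA_cy.2 fun r hr x hx hx' => ?_))
      rw [dR r hr]
      exact hex i 0 (fun y hy hy' => (hi' y hy hy').trans (Nat.le_add_right _ _)) r hr x hx hx'

end MoveA

/-- The moving lemma. -/
theorem moving {ι : Type u} [Finite ι] (S : ι → SmProj k) (f : ∀ i, (S i).X ⟶ T.X)
    (w : ∀ i, (S i).X.left) (β : Zc T) :
    ∃ β' : Zc T, (IntZ β → IntZ β') ∧ (∀ x ∈ β'.support, ∃ y ∈ β.support, dm x = dm y) ∧
      β - β' ∈ ratP T.X.left ∧ (∀ i, PrA (f i) (cy (w i)) β') ∧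
      ∀ i, PrA (f i) (cy (w i)) β → act (f i) (cy (w i)) (β - β') ∈ ratP (S i).X.left :=
  MoveA.of_points f w β fun v _ => MoveA.point f w T.dim v fun i x hx _ => by
    have := dm_mono hx
    omega

end Pool.Agent.P.MP_638e8a_ag.Cyc
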