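import Pool.Agent.P.MP_638e8a_ag.ChNorm0
import Pool.Agent.P.MP_638e8a_ag.ChA5
import Pool.Agent.P.MP_638e8a_ag.ChPush

/-!
Task CHOW NORM: divisors of functions, push-forward along generically finite maps.
-/

open CategoryTheory AlgebraicGeometry IsLocalRing TopologicalSpace

universe u

namespace Pool.Agent.P.MP_638e8a_ag.Cyc

open Pool.Agent.P.MP_90138e_ag
open Pool.Agent.P.MP_90138e_ag.WeilCohomology (fstH sndH)

namespace NormA

/-- A prime strictly above a prime of dimension at most one is maximal. -/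
theorem isMaximal_of_lt {R : Type u} [CommRing R] {P Q : Ideal R} [P.IsPrime] [Q.IsPrime]
    (hd : ringKrullDim (R ⧸ P) ≤ 1) (h : P < Q) : Q.IsMaximal := by
  have : Ring.KrullDimLE 1 (R ⧸ P) := Ring.krullDimLE_iff.2 (by exact_mod_cast hd)
  have h1 : (Q.map (Ideal.Quotient.mk P)).IsPrime :=
    Ideal.map_isPrime_of_surjective Ideal.Quotient.mk_surjective (by rw [Ideal.mk_ker]; exact h.le)
  have h2 : Q.map (Ideal.Quotient.mk P) ≠ ⊥ := fun h0 => by
    rw [Ideal.map_eq_bot_iff_le_ker, Ideal.mk_ker] at h0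
    exact h.not_ge h0
  have h3 := h1.isMaximal_of_ne_bot h2
  have h4 := Ideal.comap_isMaximal_of_surjective (Ideal.Quotient.mk P)
    Ideal.Quotient.mk_surjective (K := Q.map (Ideal.Quotient.mk P))
  rwa [Ideal.comap_map_of_surjective _ Ideal.Quotient.mk_surjective, ← RingHom.ker_eq_comap_bot,
    Ideal.mk_ker, sup_eq_left.2 h.le] at h4

attribute [local instance] FinData.ring FinData.algA FinData.algC

variable {X Y : Scheme.{u}} {f : X ⟶ Y} {v : X} {y : Y} (D : FinData f v y)

theorem ms_span [Nonempty (Fib f v y)] (hy : y ≤ f v)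
    (hd : ringKrullDim (St y ⧸ primeOf y (f v)) ≤ 1) {b : D.B} (hb : b ≠ 0) :
    MS ([] : List (St y)) (D.B ⧸ Ideal.span {b}) := fun P hP _ => by
  have := D.fin
  have := primeOf_isPrime hy
  have : IsDomain D.B := D.β_inj.isDomain D.β
  have h1 := Ideal.comap_lt_comap_of_integral_mem_sdiff (R := St y) (I := (⊥ : Ideal D.B))
    (J := Ideal.span {b}) bot_le (x := b) ⟨Ideal.subset_span rfl, by simpa using hb⟩
    (Algebra.IsIntegral.isIntegral b)
  have h2 : primeOf y (f v) = (⊥ : Ideal D.B).comap (algebraMap (St y) D.B) := by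
    ext r
    rw [Ideal.mem_comap, Ideal.mem_bot, ← map_eq_zero_iff _ D.β_inj, ← D.hc hy, ← ev_eq_zero hy,
      map_eq_zero_iff _ (rfm f v).injective]
  have h3 : (Ideal.span {b}).comap (algebraMap (St y) D.B) ≤
      Module.annihilator (St y) (D.B ⧸ Ideal.span {b}) := fun r hr => by
    refine Module.mem_annihilator.2 fun m => ?_
    obtain ⟨m, rfl⟩ := Ideal.Quotient.mk_surjective m
    rw [← algebraMap_smul D.B]
    exact Ideal.Quotient.eq_zero_iff_mem.2 (Ideal.mul_mem_right _ _ hr)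
  exact isMaximal_of_lt hd
    (h2 ▸ h1.trans_le (h3.trans (Module.annihilator_le_of_mem_support hP)))

theorem emult_span [IsLocallyNoetherian Y] [Fintype (Fib f v y)] [Nonempty (Fib f v y)]
    (hy : y ≤ f v) (hd : ringKrullDim (St y ⧸ primeOf y (f v)) ≤ 1) {b : D.B} (hb : b ≠ 0)
    (a : ∀ x : Fib f v y, St x.1)
    (ha : ∀ x, algebraMap D.B (St x.1 ⧸ primeOf x.1 v) b = Ideal.Quotient.mk _ (a x)) :
    emult ([] : List (St y)) (D.B ⧸ Ideal.span {b}) =
      ∑ x : Fib f v y, (f.residueDegree x.1 : ℤ) * emult [a x] (St x.1 ⧸ primeOf x.1 v) := by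
  have := D.fin
  have := D.n_max
  have := D.loc
  rw [emult_finite D.n D.n_inj D.n_surj (fun x => St x.1 ⧸ primeOf x.1 v) _ _ (ms_span D hy hd hb)]
  refine Finset.sum_congr rfl fun x _ => ?_
  have := primeOf_isPrime x.2.1
  have h1 : a x ∉ primeOf x.1 v := by
    rw [← ev_eq_zero x.2.1, ← D.β_eq x b _ (ha x), map_eq_zero_iff _ D.β_inj]
    exact hb
  rw [D.length_eq, emult_one_eq_ord h1, List.map_nil, emult_nil, Ideal.map_span,
    Set.image_singleton, ha x, Ring.ord]

end NormA

variable {k : Type u} [Field k] {S T : SmProj k}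

attribute [local instance] FinData.ring FinData.algA FinData.algC in
/-- The push-forward of a divisor is the divisor of the norm. -/
theorem IsDivP.push (f : S.X ⟶ T.X) {v : S.X.left} {ψ : Rf v} (hψ : ψ ≠ 0) {c : Zc S}
    (h : IsDivP v ψ c) (hv : dm (f.left v) = dm v) :
    letI := (rfm f.left v).toAlgebra
    IsDivP (f.left v) (Algebra.norm (Rf (f.left v)) ψ) (pushZ f.left c) := by
  let := (rfm f.left v).toAlgebra
  have : Module.Finite (Rf (f.left v)) (Rf v) :=
    Module.finite_of_finrank_pos (Nat.pos_of_ne_zero ((residueDegree_ne_zero_iff f v).2 hv))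
  have hs : ∀ x ∈ c.support, x ≤ v ∧ dm x + 1 = dm v := fun x hx => by
    by_contra h0
    exact Finsupp.mem_support_iff.1 hx (h.2 x h0)
  refine isDivP_of_exists (Algebra.norm_ne_zero_iff.2 hψ) (fun y hy hd => ?_) fun y hy => ?_
  · have h4 : ∀ x, x ≤ v → f.left x = y → dm x ≤ dm y := fun x hx e => by
      have := dm_lt hx fun e' => by
        rw [← e, e'] at hd
        omega
      omega
    have := finite_fib f v y h4
    have := Fintype.ofFinite (Fib f.left v y)
    have := fib_nonempty f.left hy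
    obtain ⟨D⟩ := nonempty_finData f.left v y hy
    have := D.fin
    have := primeOf_isPrime hy
    have h1 : ringKrullDim (St y ⧸ primeOf y (f.left v)) ≤ 1 := by
      rw [dim_quot hy]
      exact_mod_cast (by omega : dm (f.left v) - dm y ≤ 1)
    obtain ⟨b, b', h2, h3⟩ := D.frac ψ
    have h5 : D.β b ≠ 0 := h3 ▸ mul_ne_zero hψ h2
    have hb : b ≠ 0 := fun e => h5 (by rw [e, map_zero])
    have hb' : b' ≠ 0 := fun e => h2 (by rw [e, map_zero])
    choose a ha using fun x : Fib f.left v y =>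
      Ideal.Quotient.mk_surjective (algebraMap D.B (St x.1 ⧸ primeOf x.1 v) b)
    choose a' ha' using fun x : Fib f.left v y =>
      Ideal.Quotient.mk_surjective (algebraMap D.B (St x.1 ⧸ primeOf x.1 v) b')
    have e1 := NormA.emult_span D hy h1 hb a fun x => (ha x).symm
    have e2 := NormA.emult_span D hy h1 hb' a' fun x => (ha' x).symm
    obtain ⟨a₁, a₁', k1, k2⟩ := ev_frac hy (Algebra.norm (Rf (f.left v)) (D.β b))
    obtain ⟨a₂, a₂', k3, k4⟩ := ev_frac hy (Algebra.norm (Rf (f.left v)) (D.β b'))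
    have k5 : ev hy a₁ ≠ 0 := k2 ▸ mul_ne_zero (Algebra.norm_ne_zero_iff.2 h5) k1
    have k6 : ev hy a₂ ≠ 0 := k4 ▸ mul_ne_zero (Algebra.norm_ne_zero_iff.2 h2) k3
    have h1' := h1
    rw [primeOf_eq_ker hy] at h1'
    have e3 := emult_norm (ev hy) (ev_frac hy) D.β D.β_inj D.frac (D.hc hy) h1' b hb a₁ a₁' k1 k2
    have e4 := emult_norm (ev hy) (ev_frac hy) D.β D.β_inj D.frac (D.hc hy) h1' b' hb' a₂ a₂' k3 k4
    rw [← primeOf_eq_ker hy] at e3 e4
    refine ⟨a₁ * a₂', a₁' * a₂, by rw [map_mul]; exact mul_ne_zero k1 k6, ?_, ?_⟩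
    · rw [map_mul, map_mul, k2, k4, h3, map_mul]
      ring
    · rw [emult_one_mul h1 (mt (ev_eq_zero hy).2 k5) (mt (ev_eq_zero hy).2 k3),
        emult_one_mul h1 (mt (ev_eq_zero hy).2 k1) (mt (ev_eq_zero hy).2 k6),
        pushZ_apply_fib f.left v y c fun x hx => (hs x hx).1]
      have e5 : ∀ x : Fib f.left v y, c x.1 = (emult [a x] (St x.1 ⧸ primeOf x.1 v) -
          emult [a' x] (St x.1 ⧸ primeOf x.1 v) : ℤ) := fun x => by
        refine h.1 x.1 x.2.1 ?_ _ _ ?_ ?_
        · have e1 := h4 x.1 x.2.1 x.2.2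
          have e2 := dm_map_le f x.1
          rw [x.2.2] at e2
          omega
        · rw [← D.β_eq x b' _ (ha' x).symm]
          exact h2
        · rw [← D.β_eq x b' _ (ha' x).symm, ← D.β_eq x b _ (ha x).symm, h3]
      have e6 : (emult [a₁] (St y ⧸ primeOf y (f.left v)) + emult [a₂'] (St y ⧸ primeOf y (f.left v)) -
          (emult [a₁'] (St y ⧸ primeOf y (f.left v)) + emult [a₂] (St y ⧸ primeOf y (f.left v))) : ℤ) =
          ∑ x : Fib f.left v y, (emult [a x] (St x.1 ⧸ primeOf x.1 v) -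
            emult [a' x] (St x.1 ⧸ primeOf x.1 v)) * (f.left.residueDegree x.1 : ℤ) := by
        simp only [mul_comm _ (f.left.residueDegree _ : ℤ), mul_sub, Finset.sum_sub_distrib]
        rw [← e1, ← e2, e3, e4]
        ring
      rw [e6]
      push_cast
      refine Finset.sum_congr rfl fun x _ => ?_
      rw [e5 x]
      push_cast
      rfl
  · by_contra h0
    obtain ⟨x, hx, rfl, e⟩ := mem_support_pushZ (Finsupp.mem_support_iff.2 h0)
    obtain ⟨h1, h2⟩ := hs x hx
    exact hy ⟨map_le _ h1, by omega⟩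

end Pool.Agent.P.MP_638e8a_ag.Cyc
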