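import Pool.Agent.P.MP_638e8a_ag.ChA5
import Pool.Agent.P.MP_638e8a_ag.ChPush

/-!
Task CHOW NORM0: divisors of functions and of sections.
-/

open CategoryTheory AlgebraicGeometry IsLocalRing TopologicalSpace

universe u

namespace Pool.Agent.P.MP_638e8a_ag.Cyc

open Pool.Agent.P.MP_90138e_ag
open Pool.Agent.P.MP_90138e_ag.WeilCohomology (fstH sndH)

variable {k : Type u} [Field k] {S T : SmProj k}

theorem emult_one_congr {R : Type u} [CommRing R] {P : Ideal R} [P.IsPrime] {a b : R}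
    (ha : a ∉ P) (h : a - b ∈ P) : emult [a] (R ⧸ P) = emult [b] (R ⧸ P) := by
  have hb : b ∉ P := fun hb => ha (by simpa using P.add_mem h hb)
  rw [emult_one_eq_ord ha, emult_one_eq_ord hb, Ideal.Quotient.eq.2 h]

/-- The order of a fraction does not depend on its presentation. -/
theorem emult_frac {x v : S.X.left} (h : x ≤ v) (hd : dm x + 1 = dm v) {a b a' b' : St x}
    (ha : ev h a ≠ 0) (hb : ev h b ≠ 0) (ha' : ev h a' ≠ 0) (hb' : ev h b' ≠ 0)
    (e : ev h a * ev h b' = ev h a' * ev h b) :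
    emult [a] (St x ⧸ primeOf x v) - emult [b] (St x ⧸ primeOf x v) =
      emult [a'] (St x ⧸ primeOf x v) - emult [b'] (St x ⧸ primeOf x v) := by
  have := primeOf_isPrime h
  have hdim : ringKrullDim (St x ⧸ primeOf x v) ≤ 1 := by
    rw [dim_quot h, show dm v - dm x = 1 by omega]
    exact le_rfl
  have n1 : a ∉ primeOf x v := fun h0 => ha ((ev_eq_zero h).2 h0)
  have n2 : b ∉ primeOf x v := fun h0 => hb ((ev_eq_zero h).2 h0)
  have n3 : a' ∉ primeOf x v := fun h0 => ha' ((ev_eq_zero h).2 h0)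
  have n4 : b' ∉ primeOf x v := fun h0 => hb' ((ev_eq_zero h).2 h0)
  have h1 : a * b' ∉ primeOf x v := fun h0 => (this.mem_or_mem h0).elim n1 n4
  have h2 : a * b' - a' * b ∈ primeOf x v := by
    rw [← ev_eq_zero h, map_sub, map_mul, map_mul, e, sub_self]
  have h3 := emult_one_congr h1 h2
  rw [emult_one_mul hdim n1 n4, emult_one_mul hdim n3 n2] at h3
  omega

theorem isDivP_of_exists {v : S.X.left} {ψ : Rf v} (hψ : ψ ≠ 0) {c : Zc S}
    (h : ∀ (x : S.X.left) (h : x ≤ v), dm x + 1 = dm v → ∃ a b : St x, ev h b ≠ 0 ∧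
      ev h a = ψ * ev h b ∧
      c x = (emult [a] (St x ⧸ primeOf x v) - emult [b] (St x ⧸ primeOf x v) : ℤ))
    (h' : ∀ x, ¬ (x ≤ v ∧ dm x + 1 = dm v) → c x = 0) : IsDivP v ψ c := by
  refine ⟨fun x hx hd a b hb hab => ?_, h'⟩
  obtain ⟨a', b', hb', hab', hc⟩ := h x hx hd
  rw [hc, emult_frac hx hd (a := a) (b := b) (a' := a') (b' := b')
    (hab ▸ mul_ne_zero hψ hb) hb (hab' ▸ mul_ne_zero hψ hb') hb' (by rw [hab, hab']; ring)]

theorem IsDivP.unique {v : S.X.left} {ψ : Rf v} {c c' : Zc S} (h : IsDivP v ψ c)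
    (h' : IsDivP v ψ c') : c = c' := by
  ext x
  by_cases hx : x ≤ v ∧ dm x + 1 = dm v
  · obtain ⟨a, b, hb, hab⟩ := ev_frac hx.1 ψ
    rw [h.1 x hx.1 hx.2 a b hb hab, h'.1 x hx.1 hx.2 a b hb hab]
  · rw [h.2 x hx, h'.2 x hx]

theorem Sec.mem_supp_one {σ : Type} (a : Sec S.X.left σ) (i : σ) (x : S.X.left) :
    x ∈ (a.one i).zero.supp ↔ a.s x i ∈ maximalIdeal (St x) := by
  rw [Sec.mem_supp_zero]
  exact ⟨fun h => h (), fun h _ => h⟩

theorem Sec.pr_one_iff' {σ : Type} (a : Sec S.X.left σ) (i : σ) (v : S.X.left) :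
    (a.one i).zero.Pr 1 v ↔ ev (le_refl v) (a.s v i) ≠ 0 := by
  rw [Ne, ev_eq_zero, primeOf_self, ← Sec.mem_supp_one]
  refine ⟨fun h hv => ?_, fun h x hx hxv => ?_⟩
  · have := h v hv le_rfl
    omega
  · exact dm_lt hxv fun e => h (e ▸ hx)

theorem Sec.cm_one {σ : Type} (a : Sec S.X.left σ) (i : σ) {v x : S.X.left}
    (hi : ev (le_refl v) (a.s v i) ≠ 0) (h : x ≤ v) (hd : dm x + 1 = dm v) :
    (a.one i).zero.cm 1 v x = emult [a.s x i] (St x ⧸ primeOf x v) := by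
  have hc := IF.Pr.comp_iff (x := x) ((a.pr_one_iff' i v).2 hi) (a.one_gen i)
  by_cases hx : x ∈ (a.one i).zero.supp
  · exact IF.Comp.cm_eq (hc.2 ⟨hx, h, hd⟩) rfl (by simp [Sec.one, Sec.sub])
  · rw [IF.cm_of_not_comp _ fun h0 => hx (hc.1 h0).1]
    rw [Sec.mem_supp_one, mem_maximalIdeal, mem_nonunits_iff, not_not] at hx
    exact (emult_eq_zero_of_isUnit List.mem_cons_self hx).symm

theorem Sec.cm_one_eq_zero {σ : Type} (a : Sec S.X.left σ) (i : σ) {v x : S.X.left}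
    (hi : ev (le_refl v) (a.s v i) ≠ 0) (h : ¬ (x ≤ v ∧ dm x + 1 = dm v)) :
    (a.one i).zero.cm 1 v x = 0 :=
  IF.cm_of_not_comp _ fun h0 =>
    h ((IF.Pr.comp_iff ((a.pr_one_iff' i v).2 hi) (a.one_gen i)).1 h0).2

/-- The zeros of two sections of a line bundle differ by the divisor of their quotient. -/
theorem Sec.isDivP {σ : Type} (a : Sec S.X.left σ) (i j : σ) {v : S.X.left}
    (hi : ev (le_refl v) (a.s v i) ≠ 0) (hj : ev (le_refl v) (a.s v j) ≠ 0) :
    IsDivP v (ev (le_refl v) (a.s v i) / ev (le_refl v) (a.s v j))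
      ((a.one i).zero.cut 1 (cy v) - (a.one j).zero.cut 1 (cy v)) := by
  refine isDivP_of_exists (div_ne_zero hi hj) (fun x h hd => ?_) fun x hx => ?_
  · obtain ⟨c, hc⟩ := a.exists_unit h
    have e : ∀ l, ev (le_refl v) (a.s v l) = ev (le_refl v) (c : St v) * ev h (a.s x l) :=
      fun l => by rw [hc, map_mul, ev_sp]
    have hc0 : ev (le_refl v) (c : St v) ≠ 0 := (c.isUnit.map _).ne_zero
    have hj' : ev h (a.s x j) ≠ 0 := fun h0 => hj (by rw [e, h0, mul_zero])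
    refine ⟨a.s x i, a.s x j, hj', ?_, ?_⟩
    · rw [e, e, mul_div_mul_left _ _ hc0, div_mul_cancel₀ _ hj']
    · rw [Finsupp.sub_apply, IF.cut_single_apply, IF.cut_single_apply, a.cm_one i hi h hd,
        a.cm_one j hj h hd, Int.cast_sub]
  · rw [Finsupp.sub_apply, IF.cut_single_apply, IF.cut_single_apply, a.cm_one_eq_zero i hi hx,
      a.cm_one_eq_zero j hj hx, sub_self]

theorem Sec.pr_one_iff {σ : Type} (a : Sec S.X.left σ) (i : σ) (v : S.X.left) :
    (a.one i).zero.Pr 1 v ↔ ev (le_refl v) (a.s v i) ≠ 0 :=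
  a.pr_one_iff' i v

end Pool.Agent.P.MP_638e8a_ag.Cyc
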