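import Pool.Agent.P.MP_638e8a_ag.ChKill
import Pool.Agent.P.MP_638e8a_ag.ChA8
import Pool.Agent.P.MP_638e8a_ag.ChSub

/-!
Task CHOW PROD1: the product of two subvarieties is a subvariety.
-/

open CategoryTheory AlgebraicGeometry IsLocalRing TopologicalSpace

universe u

namespace Pool.Agent.P.MP_638e8a_ag.Cyc

open Pool.Agent.P.MP_90138e_ag
open Pool.Agent.P.MP_90138e_ag.WeilCohomology (fstH sndH)

variable {k : Type u} [Field k] [IsAlgClosed k] {S X Y : SmProj k}

open Limits in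
theorem isIntegral_pullback_spec {A B : CommRingCat.{u}} [IsIntegral (Spec A)] [IsIntegral (Spec B)]
    (f : Spec A ⟶ Spec (.of k)) (g : Spec B ⟶ Spec (.of k)) : IsIntegral (pullback f g) := by
  obtain ⟨f, rfl⟩ := Spec.map_surjective f
  obtain ⟨g, rfl⟩ := Spec.map_surjective g
  have : IsDomain A := (affine_isIntegral_iff A).1 inferInstance
  have : IsDomain B := (affine_isIntegral_iff B).1 inferInstance
  let : Algebra k A := f.hom.toAlgebra
  let : Algebra k B := g.hom.toAlgebra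
  have := tensor_isDomain (k := k) A B
  exact IsIntegral.of_isIso (pullbackSpecIso k A B).inv

theorem exists_integral_cover (V : Scheme.{u}) [IsIntegral V] :
    ∃ 𝒰 : V.AffineOpenCover.{u}, ∀ i, IsIntegral (Spec (𝒰.X i)) := by
  let 𝒱 := V.affineOpenCover
  refine ⟨⟨V, fun x => 𝒱.X (𝒱.idx x), fun x => 𝒱.f (𝒱.idx x), id, 𝒱.covers,
    fun x => 𝒱.map_prop _⟩, fun x => ?_⟩
  obtain ⟨y, -⟩ := 𝒱.covers x
  have : Nonempty (Spec (𝒱.X (𝒱.idx x))) := ⟨y⟩
  exact isIntegral_of_isOpenImmersion (𝒱.f (𝒱.idx x))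

open Limits in
/-- The product of integral schemes over an algebraically closed field is integral. -/
theorem isIntegral_pullback {V W : Scheme.{u}} [IsIntegral V] [IsIntegral W]
    (f : V ⟶ Spec (.of k)) (g : W ⟶ Spec (.of k)) : IsIntegral (pullback f g) := by
  obtain ⟨𝒱, hV⟩ := exists_integral_cover V
  obtain ⟨𝒲, hW⟩ := exists_integral_cover W
  let 𝒰 := Scheme.Pullback.openCoverOfLeftRight 𝒱.openCover 𝒲.openCover f g
  have hU : ∀ i, IsIntegral (𝒰.X i) := fun i =>
    haveI := hV i.1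
    haveI := hW i.2
    isIntegral_pullback_spec (𝒱.f i.1 ≫ f) (𝒲.f i.2 ≫ g)
  obtain ⟨z, hz1, hz2⟩ := Scheme.Pullback.exists_preimage_pullback (f := f) (g := g)
    (genericPoint V) (genericPoint W) (Subsingleton.elim (α := PrimeSpectrum k) _ _)
  have hz : ∀ i, z ∈ (𝒰.f i).opensRange := fun i => by
    have h1 : Set.range (𝒰.f i) = _ := Scheme.Pullback.range_map
      (𝒱.f i.1 ≫ f) (𝒲.f i.2 ≫ g) f g (𝒱.f i.1)
      (𝒲.f i.2) (𝟙 _) (Category.comp_id _) (Category.comp_id _)
    change z ∈ Set.range (𝒰.f i)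
    rw [h1]
    have := hV i.1
    have := hW i.2
    refine ⟨?_, ?_⟩
    · rw [Set.mem_preimage, hz1]
      exact mem_of_le (U := (𝒱.f i.1).opensRange) (le_gen _)
        ⟨Nonempty.some inferInstance, rfl⟩
    · rw [Set.mem_preimage, hz2]
      exact mem_of_le (U := (𝒲.f i.2).opensRange) (le_gen _)
        ⟨Nonempty.some inferInstance, rfl⟩
  have : IsReduced (pullback f g) := IsReduced.of_openCover _ 𝒰
  have : PreirreducibleSpace ↑(pullback f g) :=
    PreirreducibleSpace.of_isOpenCover (U := fun i => (𝒰.f i).opensRange)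
      (fun i j _ hd => by
        have h1 : z ∈ (𝒰.f i).opensRange ⊓ (𝒰.f j).opensRange := ⟨hz i, hz j⟩
        rw [disjoint_iff.1 hd] at h1
        exact h1)
      𝒰.isOpenCover_opensRange fun i => by
        have h1 := (IrreducibleSpace.isIrreducible_univ (𝒰.X i)).image _
          (𝒰.f i).continuous.continuousOn
        rw [Set.image_univ] at h1
        exact Subtype.preirreducibleSpace h1.2
  have : IrreducibleSpace ↑(pullback f g) := ⟨⟨z⟩⟩
  exact isIntegral_of_irreducibleSpace_of_isReduced _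

theorem kills_prime_iff {V Z : Scheme.{u}} [IsIntegral V] (i : V ⟶ Z) [IsClosedImmersion i]
    {R : CommRingCat.{u}} [IsLocalRing R] {ι : Spec R ⟶ Z} :
    (IF.prime (i (genericPoint V))).Kills ι ↔ ∃ ι' : Spec R ⟶ V, ι' ≫ i = ι :=
  IF.kills_prime_map.trans ⟨fun ⟨a, h, _⟩ => ⟨a, h⟩, fun ⟨a, h⟩ => ⟨a, h, IF.kills_gen a⟩⟩

open Limits in
theorem IsProd.exists_prime_ext {p : S.X ⟶ X.X} {q : S.X ⟶ Y.X} (h : IsProd p q) (w : X.X.left)
    (v : Y.X.left) : ∃ z : S.X.left,
      IF.prime z = ((IF.prime w).comap p.left).add ((IF.prime v).comap q.left) := by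
  obtain ⟨W, _, i, _, rfl⟩ := exists_subvariety w
  obtain ⟨V, _, j, _, rfl⟩ := exists_subvariety v
  have h : IsPullback p.left q.left X.X.hom Y.X.hom := h
  have := isIntegral_pullback (i ≫ X.X.hom) (j ≫ Y.X.hom)
  let m : pullback (i ≫ X.X.hom) (j ≫ Y.X.hom) ⟶ pullback X.X.hom Y.X.hom :=
    pullback.map _ _ _ _ i j (𝟙 _) (Category.comp_id _) (Category.comp_id _)
  have : IsClosedImmersion m := MorphismProperty.pullbackMap (P := @IsClosedImmersion)
    inferInstance inferInstance rfl rfl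
  let l : pullback (i ≫ X.X.hom) (j ≫ Y.X.hom) ⟶ S.X.left := m ≫ h.isoPullback.inv
  have hl1 : l ≫ p.left = pullback.fst _ _ ≫ i := by
    rw [Category.assoc, h.isoPullback_inv_fst]
    exact pullback.lift_fst _ _ _
  have hl2 : l ≫ q.left = pullback.snd _ _ ≫ j := by
    rw [Category.assoc, h.isoPullback_inv_snd]
    exact pullback.lift_snd _ _ _
  refine ⟨l (genericPoint _), IF.ext_kills fun R _ ι => ?_⟩
  rw [IF.kills_add, IF.kills_comap, IF.kills_comap, kills_prime_iff, kills_prime_iff,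
    kills_prime_iff]
  constructor
  · rintro ⟨a, rfl⟩
    exact ⟨⟨a ≫ pullback.fst _ _, by rw [Category.assoc, Category.assoc, hl1]⟩,
      ⟨a ≫ pullback.snd _ _, by rw [Category.assoc, Category.assoc, hl2]⟩⟩
  · rintro ⟨⟨a, ha⟩, b, hb⟩
    refine ⟨pullback.lift a b ?_, h.hom_ext ?_ ?_⟩
    · rw [← Category.assoc, ← Category.assoc, ha, hb, Category.assoc, Category.assoc, h.w]
    · rw [Category.assoc, hl1, pullback.lift_fst_assoc, ha]
    · rw [Category.assoc, hl2, pullback.lift_snd_assoc, hb]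

end Pool.Agent.P.MP_638e8a_ag.Cyc
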