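import Pool.Agent.P.MP_638e8a_ag.ChProd1
import Pool.Agent.P.MP_638e8a_ag.ChFlat
import Pool.Agent.P.MP_638e8a_ag.ChProd
import Pool.Agent.P.MP_638e8a_ag.ChA8

/-!
Task CHOW PROD2: products of subvarieties.
-/

open CategoryTheory AlgebraicGeometry IsLocalRing TopologicalSpace

universe u

namespace Pool.Agent.P.MP_638e8a_ag.Cyc

open Pool.Agent.P.MP_90138e_ag
open Pool.Agent.P.MP_90138e_ag.WeilCohomology (fstH sndH)

variable {k : Type u} [Field k] {S S' T U X X' Y Y' : SmProj k}

variable [IsAlgClosed k] {p : S.X ⟶ X.X} {q : S.X ⟶ Y.X}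

theorem IsProd.le_ext (h : IsProd p q) {w : X.X.left} {v : Y.X.left} {t : S.X.left} :
    t ≤ extPt p q w v ↔ p.left t ≤ w ∧ q.left t ≤ v := by
  obtain ⟨z, hz⟩ := h.exists_prime_ext w v
  have h1 : ∃ z : S.X.left, ∀ t, t ≤ z ↔ p.left t ≤ w ∧ q.left t ≤ v := ⟨z, fun t => by
    rw [← IF.mem_supp_prime, hz, IF.mem_supp_add, IF.mem_supp_comap, IF.mem_supp_comap,
      IF.mem_supp_prime, IF.mem_supp_prime]⟩
  exact Classical.epsilon_spec h1 t

theorem IsProd.ext_eq (h : IsProd p q) {w : X.X.left} {v : Y.X.left} {z : S.X.left}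
    (hz : ∀ t, t ≤ z ↔ p.left t ≤ w ∧ q.left t ≤ v) : extPt p q w v = z := by
  exact eq_of_le_of_le ((hz _).2 (h.le_ext.1 le_rfl)) (h.le_ext.2 ((hz _).1 le_rfl))

theorem IsProd.fst_ext (h : IsProd p q) (w : X.X.left) (v : Y.X.left) :
    p.left (extPt p q w v) = w := by
  obtain ⟨t, h1, h2⟩ := Scheme.exists_preimage_of_isPullback h w v (Subsingleton.elim _ _)
  have h3 : t ≤ extPt p q w v := h.le_ext.2 ⟨h1.le, h2.le⟩
  exact eq_of_le_of_le (h.le_ext.1 le_rfl).1 (h1.ge.trans (map_le p.left h3))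

theorem IsProd.snd_ext (h : IsProd p q) (w : X.X.left) (v : Y.X.left) :
    q.left (extPt p q w v) = v := by
  obtain ⟨t, h1, h2⟩ := Scheme.exists_preimage_of_isPullback h w v (Subsingleton.elim _ _)
  have h3 : t ≤ extPt p q w v := h.le_ext.2 ⟨h1.le, h2.le⟩
  exact eq_of_le_of_le (h.le_ext.1 le_rfl).2 (h2.ge.trans (map_le q.left h3))

theorem IsProd.ext_symm (h : IsProd p q) (w : X.X.left) (v : Y.X.left) :
    extPt q p v w = extPt p q w v := by
  exact h.symm.ext_eq fun t => h.le_ext.trans and_comm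

theorem IsProd.extZ_symm (h : IsProd p q) (α : Zc X) (β : Zc Y) :
    extZ q p β α = extZ p q α β := by
  induction α using Finsupp.induction_linear with
  | zero => simp
  | add a b ha hb => simp only [map_add, LinearMap.add_apply, ha, hb]
  | single w a =>
    induction β using Finsupp.induction_linear with
    | zero => simp
    | add c d hc hd => simp only [map_add, LinearMap.add_apply, hc, hd]
    | single v b => simp [extZ, h.ext_symm w v, mul_comm]

theorem IsProd.ext_gen (h : IsProd p q) : extPt p q X.gen Y.gen = S.gen := by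
  exact h.ext_eq fun t => ⟨fun _ => ⟨le_gen _, le_gen _⟩, fun _ => le_gen _⟩

theorem ext_id (w : X.X.left) (v : (SmProj.pt k).X.left) : extPt (𝟙 X.X) (toPt X) w v = w := by
  have hs : Subsingleton (SmProj.pt k).X.left :=
    inferInstanceAs (Subsingleton (Spec (CommRingCat.of k)))
  exact (isProd_id X).ext_eq fun t => ⟨fun ht => ⟨ht, (Subsingleton.elim _ _).le⟩, fun ht => ht.1⟩

theorem IsProd.ext_assoc (h : IsProd p q) {a : T.X ⟶ S.X}
    {b : T.X ⟶ U.X} (h' : IsProd a b) {p' : S'.X ⟶ Y.X} {q' : S'.X ⟶ U.X} (h'' : IsProd p' q')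
    {r : T.X ⟶ S'.X} (hr : r ≫ p' = a ≫ q) (hr' : r ≫ q' = b) (w : X.X.left) (v : Y.X.left)
    (t : U.X.left) : extPt a b (extPt p q w v) t = extPt (a ≫ p) r w (extPt p' q' v t) := by
  refine h'.ext_eq fun s => ?_
  rw [(h.assoc h' h'' hr hr').le_ext, h''.le_ext, h.le_ext, ← comp_left_apply r p',
    ← comp_left_apply r q', hr, hr', comp_left_apply, comp_left_apply, and_assoc]

/-- The product of two subvarieties is reduced. -/
theorem IsProd.prime_ext (h : IsProd p q) (w : X.X.left) (v : Y.X.left) :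
    IF.prime (extPt p q w v) = ((IF.prime w).comap p.left).add ((IF.prime v).comap q.left) := by
  obtain ⟨z, hz⟩ := h.exists_prime_ext w v
  rw [← hz, h.ext_eq (z := z) fun t => by
    rw [← IF.mem_supp_prime, hz, IF.mem_supp_add, IF.mem_supp_comap, IF.mem_supp_comap,
      IF.mem_supp_prime, IF.mem_supp_prime]]

theorem mem_support_extZ {α : Zc X} {β : Zc Y} {z : S.X.left} (h : z ∈ (extZ p q α β).support) :
    ∃ w ∈ α.support, ∃ v ∈ β.support, z = extPt p q w v := by
  classical
  by_contra hn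
  apply Finsupp.mem_support_iff.1 h
  simp only [extZ, Finsupp.linearCombination_apply, Finsupp.sum, LinearMap.sum_apply,
    LinearMap.smul_apply, Finsupp.finsetSum_apply, Finsupp.smul_apply]
  refine Finset.sum_eq_zero fun w hw => ?_
  rw [Finset.sum_eq_zero, smul_zero]
  intro v hv
  rw [Finsupp.single_eq_of_ne, smul_zero]
  exact fun he => hn ⟨w, hw, v, hv, he⟩

end Pool.Agent.P.MP_638e8a_ag.Cyc
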