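import Pool.Agent.P.MP_638e8a_ag.ChCoord
import Pool.Agent.P.MP_638e8a_ag.ChA8
import Pool.Agent.P.MP_638e8a_ag.ChProjX

/-!
Task CHOW PROJ: projective space is a smooth projective variety.
-/

open CategoryTheory AlgebraicGeometry IsLocalRing TopologicalSpace

universe u

namespace Pool.Agent.P.MP_638e8a_ag.Cyc

open Pool.Agent.P.MP_90138e_ag
open Pool.Agent.P.MP_90138e_ag.WeilCohomology (fstH sndH)

variable {k : Type u} [Field k]

theorem projSpace_smooth (k : Type u) [Field k] (n : ℕ) :
    SmoothOfRelativeDimension n (projSpace k n).hom :=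
  ProjX.str_smooth k n

theorem projSpace_integral (k : Type u) [Field k] (n : ℕ) :
    GeometricallyIntegral (projSpace k n).hom :=
  ProjX.str_integral k n

/-- Projective space as a smooth projective variety. -/
noncomputable def proj (k : Type u) [Field k] (n : ℕ) : SmProj k where
  X := projSpace k n
  dim := n
  smooth := projSpace_smooth k n
  integral := projSpace_integral k n
  projective := ⟨n, 𝟙 _, inferInstanceAs (IsClosedImmersion (𝟙 (projSpace k n).left))⟩

end Pool.Agent.P.MP_638e8a_ag.Cyc
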