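import Pool.Agent.P.MP_638e8a_ag.ChMult

/-!
Points of schemes, generizations and primes of local rings.
-/

open CategoryTheory AlgebraicGeometry IsLocalRing

universe u

namespace Pool.Agent.P.MP_638e8a_ag.Cyc

variable {X Y Z : Scheme.{u}}

/-- The local ring at `x`. -/
abbrev St (x : X) : Type u := X.presheaf.stalk x

/-- The residue field at `x`. -/
abbrev Rf (x : X) : Type u := X.residueField x

/-- The localization map to the local ring of a generization. -/
noncomputable def sp {x v : X} (h : x ≤ v) : St x →+* St v := (X.presheaf.stalkSpecializes h).hom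

/-- Evaluation at a generization. -/
noncomputable def ev {x v : X} (h : x ≤ v) : St x →+* Rf v := (X.residue v).hom.comp (sp h)

/-- The map on local rings. -/
noncomputable abbrev stm (f : X ⟶ Y) (x : X) : St (f x) →+* St x := (f.stalkMap x).hom

/-- The map on residue fields. -/
noncomputable abbrev rfm (f : X ⟶ Y) (x : X) : Rf (f x) →+* Rf x := (f.residueFieldMap x).hom

/-- The dimension of the closure of a point. -/
noncomputable def dm (x : X) : ℕ := (Order.height x).toNat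

theorem eq_of_le_of_le {x y : X} (h : x ≤ y) (h' : y ≤ x) : x = y :=
  (Specializes.antisymm h' h).eq

theorem map_le (f : X ⟶ Y) {x y : X} (h : x ≤ y) : f x ≤ f y := Specializes.map h f.continuous

theorem le_gen [IsIntegral X] (x : X) : x ≤ genericPoint X := genericPoint_specializes x

theorem mem_of_le {U : X.Opens} {x y : X} (h : x ≤ y) (hx : x ∈ U) : y ∈ U :=
  Specializes.mem_open h U.isOpen hx

theorem mem_closed_of_le {C : Set X} (hC : IsClosed C) {x y : X} (h : x ≤ y) (hy : y ∈ C) :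
    x ∈ C := Specializes.mem_closed h hC hy

theorem isClosed_le (v : X) : IsClosed {x | x ≤ v} := by
  have : {x | x ≤ v} = closure {v} := Set.ext fun _ => specializes_iff_mem_closure
  rw [this]
  exact isClosed_closure

theorem sp_germ {U : X.Opens} {x v : X} (h : x ≤ v) (hx : x ∈ U) (a : Γ(X, U)) :
    sp h (X.presheaf.germ U x hx a) = X.presheaf.germ U v (mem_of_le h hx) a :=
  TopCat.Presheaf.germ_stalkSpecializes_apply _ _ _ _

theorem sp_refl (x : X) (a : St x) : sp (le_refl x) a = a :=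
  congrArg (fun g => g.hom a) (TopCat.Presheaf.stalkSpecializes_refl X.presheaf x)

theorem sp_sp {x y z : X} (h : x ≤ y) (h' : y ≤ z) (a : St x) :
    sp h' (sp h a) = sp (h.trans h') a :=
  TopCat.Presheaf.stalkSpecializes_comp_apply _ _ _ a

theorem sp_comp {x y z : X} (h : x ≤ y) (h' : y ≤ z) : (sp h').comp (sp h) = sp (h.trans h') :=
  RingHom.ext (sp_sp h h')

theorem ev_sp {x y z : X} (h : x ≤ y) (h' : y ≤ z) (a : St x) :
    ev h' (sp h a) = ev (h.trans h') a := congrArg (X.residue z).hom (sp_sp h h' a)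

theorem sp_stm (f : X ⟶ Y) {x v : X} (h : x ≤ v) (a : St (f x)) :
    sp h (stm f x a) = stm f v (sp (map_le f h) a) :=
  (LocallyRingedSpace.stalkSpecializes_stalkMap_apply f.toLRSHom v x h a).symm

theorem ev_stm (f : X ⟶ Y) {x v : X} (h : x ≤ v) (a : St (f x)) :
    ev h (stm f x a) = rfm f v (ev (map_le f h) a) := by
  change (X.residue v).hom (sp h _) = _
  rw [sp_stm]
  exact (congrArg (fun g => g.hom (sp (map_le f h) a)) (Scheme.residue_residueFieldMap f v)).symm

theorem stm_comp (f : X ⟶ Y) (g : Y ⟶ Z) (x : X) (a : St ((f ≫ g) x)) :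
    stm (f ≫ g) x a = stm f x (stm g (f x) a) :=
  congrArg (fun h => h.hom a) (Scheme.Hom.stalkMap_comp f g x)

theorem stm_mem_max (f : X ⟶ Y) (x : X) (a : St (f x)) :
    stm f x a ∈ maximalIdeal (St x) ↔ a ∈ maximalIdeal (St (f x)) := by
  rw [mem_maximalIdeal, mem_maximalIdeal, mem_nonunits_iff, mem_nonunits_iff, isUnit_map_iff]

theorem map_stm_ne_top (f : X ⟶ Y) (x : X) (J : Ideal (St (f x))) :
    J.map (stm f x) ≠ ⊤ ↔ J ≠ ⊤ := by
  refine ⟨fun h h' => h (by rw [h', Ideal.map_top]), fun h h' => ?_⟩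
  have : J.map (stm f x) ≤ maximalIdeal _ := Ideal.map_le_iff_le_comap.2 fun a ha =>
    (stm_mem_max f x a).2 (le_maximalIdeal h ha)
  exact (maximalIdeal.isMaximal _).ne_top (top_le_iff.1 (h' ▸ this))

theorem sup_ne_top {R : Type*} [CommRing R] [IsLocalRing R] {I J : Ideal R} :
    I ⊔ J ≠ ⊤ ↔ I ≠ ⊤ ∧ J ≠ ⊤ := by
  refine ⟨fun h => ⟨fun h' => h (by simp [h']), fun h' => h (by simp [h'])⟩, fun h h' => ?_⟩
  exact (maximalIdeal.isMaximal R).ne_top
    (top_le_iff.1 (h' ▸ sup_le (le_maximalIdeal h.1) (le_maximalIdeal h.2)))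

theorem primeOf_eq_comap {x v : X} (h : x ≤ v) :
    primeOf x v = (maximalIdeal (St v)).comap (sp h) := iInf_pos h

theorem mem_primeOf {x v : X} (h : x ≤ v) {a : St x} :
    a ∈ primeOf x v ↔ sp h a ∈ maximalIdeal (St v) := by
  rw [primeOf_eq_comap h, Ideal.mem_comap]

theorem ev_eq_zero {x v : X} (h : x ≤ v) {a : St x} : ev h a = 0 ↔ a ∈ primeOf x v := by
  rw [mem_primeOf h]
  exact residue_eq_zero_iff _

theorem primeOf_eq_ker {x v : X} (h : x ≤ v) : primeOf x v = RingHom.ker (ev h) :=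
  Ideal.ext fun _ => (ev_eq_zero h).symm

theorem primeOf_eq_top {x v : X} (h : ¬ x ≤ v) : primeOf x v = ⊤ := iInf_neg h

theorem primeOf_isPrime {x v : X} (h : x ≤ v) : (primeOf x v).IsPrime := by
  rw [primeOf_eq_comap h]
  infer_instance

theorem primeOf_ne_top {x v : X} : primeOf x v ≠ ⊤ ↔ x ≤ v :=
  ⟨fun h => by_contra fun h' => h (primeOf_eq_top h'), fun h => (primeOf_isPrime h).ne_top⟩

theorem primeOf_self (x : X) : primeOf x x = maximalIdeal (St x) :=
  Ideal.ext fun a => by rw [mem_primeOf le_rfl, sp_refl]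

theorem primeOf_comap {x y v : X} (h : x ≤ y) (h' : y ≤ v) :
    primeOf x v = (primeOf y v).comap (sp h) :=
  Ideal.ext fun a => by rw [Ideal.mem_comap, mem_primeOf h', sp_sp, mem_primeOf]

theorem primeOf_map (f : X ⟶ Y) {x v : X} (h : x ≤ v) :
    primeOf (f x) (f v) = (primeOf x v).comap (stm f x) :=
  Ideal.ext fun a => by
    rw [Ideal.mem_comap, mem_primeOf h, sp_stm, stm_mem_max, mem_primeOf]

/-- The local ring at a generization is a localization. -/
theorem isLocalization_sp {x y : X} (h : x ≤ y) :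
    letI := (sp h).toAlgebra
    haveI := primeOf_isPrime h
    IsLocalization.AtPrime (St y) (primeOf x y) := by
  let := (sp h).toAlgebra
  have := primeOf_isPrime h
  obtain ⟨U, hU, hx, -⟩ := exists_isAffineOpen_mem_and_subset (X := X) (x := x) (U := ⊤) trivial
  have hy := mem_of_le h hx
  let := TopCat.Presheaf.algebra_section_stalk X.presheaf (⟨x, hx⟩ : U)
  let := TopCat.Presheaf.algebra_section_stalk X.presheaf (⟨y, hy⟩ : U)
  have h1 : IsLocalization.AtPrime (St x) _ := hU.isLocalization_stalk ⟨x, hx⟩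
  have h2 : IsLocalization.AtPrime (St y) _ := hU.isLocalization_stalk ⟨y, hy⟩
  have e : ∀ a : Γ(X, U), algebraMap (St x) (St y) (algebraMap Γ(X, U) (St x) a) =
      algebraMap Γ(X, U) (St y) a := fun a => sp_germ h hx a
  have hm : ∀ c : (hU.primeIdealOf ⟨y, hy⟩).asIdeal.primeCompl,
      algebraMap Γ(X, U) (St x) c ∈ (primeOf x y).primeCompl := fun c hc => by
    have := (mem_primeOf h).1 hc
    exact this (e c ▸ IsLocalization.map_units (St y) c)
  refine ⟨⟨fun c => ?_, fun z => ?_, fun {a b} hab => ?_⟩⟩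
  · by_contra hc
    exact c.2 ((mem_primeOf h).2 hc)
  · obtain ⟨⟨a, c⟩, hz⟩ := IsLocalization.surj (hU.primeIdealOf ⟨y, hy⟩).asIdeal.primeCompl z
    exact ⟨⟨algebraMap _ _ a, ⟨_, hm c⟩⟩, by simpa only [e] using hz⟩
  · obtain ⟨⟨a', c⟩, hz⟩ :=
      IsLocalization.surj (hU.primeIdealOf ⟨x, hx⟩).asIdeal.primeCompl (a - b)
    have h3 : algebraMap Γ(X, U) (St y) a' = 0 := by
      rw [← e, ← hz, map_mul, map_sub, hab, sub_self, zero_mul]
    obtain ⟨c', hc'⟩ := (IsLocalization.map_eq_zero_iff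
      (hU.primeIdealOf ⟨y, hy⟩).asIdeal.primeCompl _ _).1 h3
    refine ⟨⟨_, hm c'⟩, ?_⟩
    rw [← sub_eq_zero, ← mul_sub]
    refine (IsLocalization.map_units (St x) c).mul_right_cancel ?_
    rw [zero_mul, mul_assoc, hz, ← map_mul, hc', map_zero]

theorem primeOf_le_iff {x y v : X} (hy : x ≤ y) (hv : x ≤ v) :
    primeOf x v ≤ primeOf x y ↔ y ≤ v := by
  refine ⟨fun h => ?_, fun h a ha => ?_⟩
  · obtain ⟨U, hU, hx, -⟩ := exists_isAffineOpen_mem_and_subset (X := X) (x := x) (U := ⊤) trivial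
    by_contra h'
    obtain ⟨g, hg1, hg2⟩ := hU.exists_basicOpen_le (V := ⟨{t | t ≤ v}ᶜ, (isClosed_le v).isOpen_compl⟩)
      ⟨y, h'⟩ (mem_of_le hy hx)
    have h1 : X.presheaf.germ U x hx g ∈ primeOf x v := by
      rw [mem_primeOf hv, sp_germ, mem_maximalIdeal, mem_nonunits_iff, ← Scheme.mem_basicOpen]
      exact fun h2 => hg1 h2 (le_refl v)
    have h2 := h h1
    rw [mem_primeOf hy, sp_germ, mem_maximalIdeal, mem_nonunits_iff, ← Scheme.mem_basicOpen] at h2
    exact h2 hg2
  · rw [primeOf_comap hy h, Ideal.mem_comap] at ha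
    exact (mem_primeOf hy).2 (le_maximalIdeal (primeOf_isPrime h).ne_top ha)

theorem primeOf_inj {x y v : X} (hy : x ≤ y) (hv : x ≤ v) (h : primeOf x v = primeOf x y) :
    v = y :=
  eq_of_le_of_le ((primeOf_le_iff hv hy).1 h.ge) ((primeOf_le_iff hy hv).1 h.le)

theorem primeOf_spec {x y : X} (h : x ≤ y) (v : X) :
    primeOf y v = (primeOf x v).map (sp h) := by
  let := (sp h).toAlgebra
  have := primeOf_isPrime h
  have := isLocalization_sp h
  by_cases hy : y ≤ v
  · rw [primeOf_comap h hy]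
    exact (IsLocalization.map_under (primeOf x y).primeCompl (St y) _).symm
  · rw [primeOf_eq_top hy, eq_comm]
    by_cases hx : x ≤ v
    · obtain ⟨a, ha, ha'⟩ := SetLike.not_le_iff_exists.1 ((primeOf_le_iff h hx).not.2 hy)
      refine Ideal.eq_top_of_isUnit_mem _ (Ideal.mem_map_of_mem _ ha) ?_
      by_contra hc
      exact ha' ((mem_primeOf h).2 hc)
    · rw [primeOf_eq_top hx, Ideal.map_top]

theorem exists_primeOf {x : X} (Q : Ideal (St x)) [hQ : Q.IsPrime] :
    ∃ y, x ≤ y ∧ Q = primeOf x y := by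
  let q : Spec (X.presheaf.stalk x) := (⟨Q, hQ⟩ : PrimeSpectrum (St x))
  have h : x ≤ X.fromSpecStalk x q := by
    have : X.fromSpecStalk x q ∈ Set.range (X.fromSpecStalk x) := ⟨q, rfl⟩
    rwa [Scheme.range_fromSpecStalk] at this
  refine ⟨_, h, ?_⟩
  have h1 := Scheme.SpecMap_stalkSpecializes_fromSpecStalk (X := X) h
  have h2 : X.fromSpecStalk x (Spec.map (X.presheaf.stalkSpecializes h) (closedPoint _)) =
      X.fromSpecStalk x q := by
    rw [← Scheme.Hom.comp_apply, h1, Scheme.fromSpecStalk_closedPoint]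
  have h3 := (X.fromSpecStalk x).isEmbedding.injective h2
  rw [primeOf_eq_comap h]
  exact (congrArg PrimeSpectrum.asIdeal h3).symm

theorem ev_frac {x v : X} (h : x ≤ v) (c : Rf v) :
    ∃ a b : St x, ev h b ≠ 0 ∧ ev h a = c * ev h b := by
  let := (sp h).toAlgebra
  have := primeOf_isPrime h
  have := isLocalization_sp h
  obtain ⟨c, rfl⟩ := X.residue_surjective v c
  obtain ⟨⟨a, b⟩, hz⟩ := IsLocalization.surj (primeOf x v).primeCompl (c : St v)
  refine ⟨a, b, fun h0 => b.2 ((ev_eq_zero h).1 h0), ?_⟩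
  have := congrArg (X.residue v).hom hz
  rw [map_mul] at this
  exact this.symm

theorem primeOf_gen [IsIntegral X] (x : X) : primeOf x (genericPoint X) = ⊥ := by
  refine eq_bot_iff.2 fun a ha => ?_
  rw [mem_primeOf (le_gen x)] at ha
  have h0 : sp (le_gen x) a = 0 := by
    by_contra h0
    exact ha (isUnit_iff_ne_zero (a := (sp (le_gen x) a : X.functionField)) |>.2 h0)
  exact (map_eq_zero_iff _ (IsFractionRing.injective (St x) X.functionField)).1 h0

theorem ker_stm [IsIntegral X] (f : X ⟶ Y) (x : X) :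
    RingHom.ker (stm f x) = primeOf (f x) (f (genericPoint X)) := by
  rw [primeOf_map f (le_gen x), primeOf_gen]
  rfl

/-- The maximal points of a closed subset of a Noetherian scheme. -/
theorem finite_maximal [TopologicalSpace.NoetherianSpace X] {C : Set X} (hC : IsClosed C) :
    {x | Maximal (· ∈ C) x}.Finite := by
  obtain ⟨S, hS, h1, h2, h3⟩ :=
    TopologicalSpace.NoetherianSpace.exists_finite_set_isClosed_irreducible hC
  choose g hg using fun t : S => QuasiSober.sober (h2 t.1 t.2) (h1 t.1 t.2)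
  have := hS.to_subtype
  refine (Set.finite_range g).subset fun x hx => ?_
  obtain ⟨t, ht, hx'⟩ := Set.mem_sUnion.1 (h3 ▸ hx.1)
  have h4 : x ≤ g ⟨t, ht⟩ := (hg ⟨t, ht⟩).specializes hx'
  have h5 : g ⟨t, ht⟩ ∈ C := h3 ▸ Set.mem_sUnion.2 ⟨t, ht, (hg ⟨t, ht⟩).mem⟩
  exact ⟨⟨t, ht⟩, eq_of_le_of_le (hx.2 h5 h4) h4⟩

/-- Every point of a closed subset of a Noetherian scheme lies below a maximal point. -/
theorem exists_maximal [TopologicalSpace.NoetherianSpace X] {C : Set X} (hC : IsClosed C) {x : X}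
    (hx : x ∈ C) : ∃ y, x ≤ y ∧ Maximal (· ∈ C) y := by
  obtain ⟨S, hS, h1, h2, h3⟩ :=
    TopologicalSpace.NoetherianSpace.exists_finite_set_isClosed_irreducible hC
  choose g hg using fun t : S => QuasiSober.sober (h2 t.1 t.2) (h1 t.1 t.2)
  have := hS.to_subtype
  have h4 : ∀ y ∈ C, ∃ t, y ≤ g t := fun y hy => by
    obtain ⟨t, ht, hy'⟩ := Set.mem_sUnion.1 (h3 ▸ hy)
    exact ⟨⟨t, ht⟩, (hg ⟨t, ht⟩).specializes hy'⟩
  obtain ⟨t, ht⟩ := h4 x hx
  obtain ⟨_, h5, ⟨t', rfl⟩, h6⟩ := (Set.finite_range g).exists_le_maximal (a := g t) ⟨t, rfl⟩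
  refine ⟨g t', ht.trans h5, h3 ▸ Set.mem_sUnion.2 ⟨t', t'.2, (hg t').mem⟩, fun y hy h7 => ?_⟩
  obtain ⟨t'', h8⟩ := h4 y hy
  exact h8.trans (h6 ⟨t'', rfl⟩ (h7.trans h8))

/-- Specializations lift along closed maps. -/
theorem exists_le_of_le_map (f : X ⟶ Y) [UniversallyClosed f] {v : X} {y : Y} (h : y ≤ f v) :
    ∃ x, x ≤ v ∧ f x = y := by
  obtain ⟨x, h1, h2⟩ := f.isClosedMap.specializingMap h
  exact ⟨x, h1, h2⟩

end Pool.Agent.P.MP_638e8a_ag.Cyc
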