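import Pool.Agent.P.MP_638e8a_ag.ChA4
import Pool.Agent.P.MP_638e8a_ag.ChCut
import Pool.Agent.P.MP_638e8a_ag.ChFin

/-!
Task CHOW PUSH0: fibres and residue fields.
-/

open CategoryTheory AlgebraicGeometry IsLocalRing TopologicalSpace

universe u

namespace Pool.Agent.P.MP_638e8a_ag.Cyc

open Pool.Agent.P.MP_90138e_ag
open Pool.Agent.P.MP_90138e_ag.WeilCohomology (fstH sndH)

variable {k : Type u} [Field k] {S T X Y : SmProj k}

theorem length_residue {X Y : Scheme.{u}} (f : X ⟶ Y) (x : X) :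
    letI := ((ev (le_refl x)).comp (stm f x)).toAlgebra
    (Module.length (St (f x)) (Rf x)).toNat = f.residueDegree x := by
  let := ((ev (le_refl x)).comp (stm f x)).toAlgebra
  let := (rfm f x).toAlgebra
  let : Algebra (St (f x)) (Rf (f x)) := (ev (le_refl (f x))).toAlgebra
  have : IsScalarTower (St (f x)) (Rf (f x)) (Rf x) :=
    IsScalarTower.of_algebraMap_eq fun a => ev_stm f (le_refl x) a
  have hs : Function.Surjective (algebraMap (St (f x)) (Rf (f x))) := fun c => by
    obtain ⟨a, rfl⟩ := Y.residue_surjective (f x) c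
    exact ⟨a, congrArg (Y.residue (f x)).hom (sp_refl (f x) a)⟩
  rw [Module.length_eq_of_surjective hs, Module.length_eq_rank, Cardinal.toNat_toENat]
  rfl

theorem finite_fib (f : S.X ⟶ T.X) (v : S.X.left) (y : T.X.left)
    (h : ∀ x, x ≤ v → f.left x = y → dm x ≤ dm y) : Finite (Fib f.left v y) := by
  have hC : IsClosed {t : S.X.left | t ≤ v ∧ f.left t ≤ y} :=
    (isClosed_le v).inter ((isClosed_le y).preimage f.left.continuous)
  refine ((finite_maximal hC).subset (t := {x | x ≤ v ∧ f.left x = y}) ?_).to_subtype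
  rintro x ⟨h1, h2⟩
  refine ⟨⟨h1, h2.le⟩, fun t ht hxt => ?_⟩
  have h3 : f.left t = y := eq_of_le_of_le ht.2 (h2 ▸ map_le f.left hxt)
  have h4 := dm_map_le f x
  rw [h2] at h4
  exact (eq_of_le_of_dm_le hxt ((h t ht.1 h3).trans h4)).ge

theorem IF.Pr.map {I : IF T.X.left} {d : ℕ} {f : S.X ⟶ T.X} {v : S.X.left}
    (h : (I.comap f.left).Pr d v) (hv : dm (f.left v) = dm v) : I.Pr d (f.left v) := by
  intro y hy hle
  obtain ⟨x, h1, rfl⟩ := exists_le_of_le_map f.left hle
  have h2 := h x (IF.mem_supp_comap.2 hy) h1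
  have h3 := dm_map_le f x
  omega

theorem IF.Pr.comap {I : IF T.X.left} {d : ℕ} {f : S.X ⟶ T.X} [IsClosedImmersion f.left]
    {v : S.X.left} (h : I.Pr d (f.left v)) : (I.comap f.left).Pr d v := by
  intro x hx hle
  have h1 := h _ (IF.mem_supp_comap.1 hx) (map_le f.left hle)
  rwa [dm_map_of_closedImmersion, dm_map_of_closedImmersion] at h1

end Pool.Agent.P.MP_638e8a_ag.Cyc
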