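import Pool.Agent.P.MP_638e8a_ag.ChRat0
import Pool.Agent.P.MP_638e8a_ag.ChNorm
import Pool.Agent.P.MP_638e8a_ag.ChCutExt
import Pool.Agent.P.MP_638e8a_ag.ChLine

/-!
Task CHOW RAT: rational equivalence and families over the projective line.
-/

open CategoryTheory AlgebraicGeometry IsLocalRing TopologicalSpace

universe u

namespace Pool.Agent.P.MP_638e8a_ag.Cyc

open Pool.Agent.P.MP_90138e_ag
open Pool.Agent.P.MP_90138e_ag.WeilCohomology (fstH sndH)

variable {k : Type u} [Field k] [IsAlgClosed k] {S S' T X Y : SmProj k}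

theorem IsProd.push_section {p : S.X ⟶ X.X} {q : S.X ⟶ Y.X} (h : IsProd p q)
    (s : (SmProj.pt k).X ⟶ Y.X) (w : X.X.left) :
    pushZ p.left (cy (extPt p q w (s.left (SmProj.pt k).gen))) = cy w := by
  obtain ⟨i, h1, h2⟩ := h.exists_lift (𝟙 X.X) (toPt X ≫ s)
  have := isClosedImmersion_of_section i p h1
  have h3 : pushZ i.left (cy w) = cy (i.left w) := by
    rw [pushZ_single, residueDegree_of_closedImmersion, Nat.cast_one, mul_one]
  have h4 : i.left ≫ p.left = 𝟙 _ := congrArg (fun f => f.left) h1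
  rw [← h.section_apply s h1 h2, ← h3, ← pushZ_comp, h4, pushZ_id]

theorem push_mem_ratP (f : S.X ⟶ T.X) {c : Zc S} (hc : c ∈ ratP S.X.left) :
    pushZ f.left c ∈ ratP T.X.left := by
  refine (show ratP S.X.left ≤ (ratP T.X.left).comap (pushZ f.left) from
    Submodule.span_le.2 ?_) hc
  rintro c ⟨v, ψ, hψ, hd⟩
  change pushZ f.left c ∈ ratP T.X.left
  by_cases hv : dm (f.left v) = dm v
  · let _ := (rfm f.left v).toAlgebra
    exact Submodule.subset_span ⟨_, _, ((IsUnit.mk0 ψ hψ).map (Algebra.norm _)).ne_zero,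
      hd.push f hψ hv⟩
  obtain ⟨L⟩ := nonempty_line k
  have h' := isProd_prod T L.C
  obtain ⟨F, hF1, hF2⟩ := h'.exists_lift (fstH S L.C ≫ f) (sndH S L.C)
  obtain ⟨Γ, h1, h2, h3, rfl⟩ := L.exists_family (isProd_prod S L.C) hψ hd
  have e1 : (fstH S L.C).left ≫ f.left = F.left ≫ (fstH T L.C).left :=
    congrArg (fun f => f.left) hF1.symm
  have e2 : ∀ i, pushZ (fstH T L.C).left (pushZ F.left ((L.fib (sndH S L.C) i).cut 1 (cy Γ))) =
      (F.left.residueDegree Γ : ℚ) • cy (f.left v) := by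
    intro i
    have h4 := h3 i
    rw [← hF2, ← L.fib_comap] at h4 ⊢
    rw [push_cut (L.fib_gen _ i) F h4, pushZ_single, one_mul]
    by_cases h0 : F.left.residueDegree Γ = 0
    · simp [h0]
    have h5 := (residueDegree_ne_zero_iff F Γ).1 h0
    have h6 : F.left Γ = extPt (fstH T L.C) (sndH T L.C) (f.left v) L.C.gen := by
      refine eq_of_le_of_dm_le (h'.le_ext.2 ⟨le_of_eq ?_, le_gen _⟩) ?_
      · rw [← comp_left_apply, hF1, comp_left_apply, h1]
      · have := dm_map_le f v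
        rw [h'.dm_ext, dm_gen, L.dim]
        omega
    rw [← Finsupp.smul_single_one, map_smul, map_smul, h6, L.cut_fib h', h'.push_section]
  rw [← pushZ_comp, e1, pushZ_comp, map_sub, map_sub, e2, e2, sub_self]
  exact zero_mem _

theorem IsProd.ext_mem_ratP {p : S.X ⟶ X.X} {q : S.X ⟶ Y.X} (h : IsProd p q) {α : Zc X}
    (hα : α ∈ ratP X.X.left) (β : Zc Y) : extZ p q α β ∈ ratP S.X.left := by
  refine (show ratP X.X.left ≤ (ratP S.X.left).comap ((extZ p q).flip β) from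
    Submodule.span_le.2 ?_) hα
  rintro c ⟨v, ψ, hψ, hd⟩
  change extZ p q c β ∈ ratP S.X.left
  obtain ⟨L⟩ := nonempty_line k
  obtain ⟨Γ, -, -, h3, rfl⟩ := L.exists_family (isProd_prod X L.C) hψ hd
  have h' := isProd_prod (X.prod L.C) Y
  obtain ⟨F, hF1, hF2⟩ := h.exists_lift (fstH (X.prod L.C) Y ≫ fstH X L.C) (sndH (X.prod L.C) Y)
  have e := h.push_ext h' (g := 𝟙 Y.X) hF1 (by simpa using hF2)
    ((L.fib (sndH X L.C) 1).cut 1 (cy Γ) - (L.fib (sndH X L.C) 0).cut 1 (cy Γ)) β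
  rw [show pushZ (𝟙 Y.X : Y.X ⟶ Y.X).left β = β from pushZ_id β] at e
  rw [← e, map_sub, LinearMap.sub_apply, ← h'.cut_ext (L.fib_gen _ _), ← h'.cut_ext (L.fib_gen _ _),
    L.fib_comap, L.fib_comap]
  refine push_mem_ratP F (L.fib_sub_mem _ fun z hz i x hx hxz => dm_lt hxz ?_)
  rintro rfl
  obtain ⟨w, hw, t, -, rfl⟩ := mem_support_extZ hz
  obtain rfl : w = Γ := by simpa using Finsupp.support_single_subset hw
  rw [← L.fib_comap, IF.mem_supp_comap, h'.fst_ext] at hx
  exact absurd (h3 i _ hx le_rfl) (by omega)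

end Pool.Agent.P.MP_638e8a_ag.Cyc
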