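import Pool.Agent.P.MP_638e8a_ag.ChNorm
import Pool.Agent.P.MP_638e8a_ag.ChCutExt
import Pool.Agent.P.MP_638e8a_ag.ChLine

/-!
Task CHOW RAT0: families over the projective line.
-/

open CategoryTheory AlgebraicGeometry IsLocalRing TopologicalSpace

universe u

namespace Pool.Agent.P.MP_638e8a_ag.Cyc

open Pool.Agent.P.MP_90138e_ag
open Pool.Agent.P.MP_90138e_ag.WeilCohomology (fstH sndH)

variable {k : Type u} [Field k] [IsAlgClosed k] {S S' T X Y : SmProj k}

/-- The fibre over the zero of `t i`. -/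
noncomputable def Line.fib (L : Line k) (q : S.X ⟶ L.C.X) (i : Fin 2) : IF S.X.left :=
  ((L.t.comap q.left).one i).zero

omit [IsAlgClosed k] in
theorem Line.fib_gen (L : Line k) (q : S.X ⟶ L.C.X) (i : Fin 2) : (L.fib q i).Gen 1 :=
  Sec.one_gen _ _

omit [IsAlgClosed k] in
theorem Line.fib_comap (L : Line k) (q : S.X ⟶ L.C.X) (i : Fin 2) (h : S'.X ⟶ S.X) :
    (L.fib q i).comap h.left = L.fib (h ≫ q) i := by
  rw [Line.fib, Line.fib, ← Sec.zero_comap, Sec.one_comap, ← Sec.comap_comp]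
  rfl

theorem Line.cut_fib (L : Line k) {p : S'.X ⟶ S.X} {q : S'.X ⟶ L.C.X} (h : IsProd p q) (i : Fin 2)
    (w : S.X.left) : (L.fib q i).cut 1 (cy (extPt p q w L.C.gen)) =
      cy (extPt p q w ((L.s i).left (SmProj.pt k).gen)) := by
  have hg : ∀ I : IF S'.X.left, I.add ((IF.prime L.C.gen).comap q.left) = I := fun I => by
    refine IF.ext (funext fun x => ?_)
    rw [IF.add_J, IF.comap_J, IF.prime_J, primeOf_gen, Ideal.map_bot, sup_bot_eq]
  refine IF.cut_eq_cy (L.fib_gen q i) ?_ ?_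
  · rw [h.prime_ext, h.prime_ext, hg, Line.fib, ← Sec.one_comap, Sec.zero_comap, L.zero,
      IF.add_comm]
  · have h0 : dm ((L.s i).left (SmProj.pt k).gen) = 0 :=
      Nat.le_zero.1 ((dm_map_le _ _).trans (dm_le_dim _))
    rw [h.dm_ext, h.dm_ext, h0, dm_gen, L.dim]

/-- A point with values in the residue field of `v` that lifts `v`. -/
theorem exists_retraction {X Y : Scheme.{u}} (f : X ⟶ Y) (v : Y) (l : Spec (.of (Rf v)) ⟶ X)
    (hl : l ≫ f = Y.fromSpecResidueField v) :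
    ∃ (hv : f (l (closedPoint (Rf v))) = v) (δ : Rf (l (closedPoint (Rf v))) →+* Rf v),
      (∀ a, δ (rfm f _ a) = (Y.residueFieldCongr hv).hom a) ∧
      ∀ a, (Scheme.stalkClosedPointTo l).hom a = δ (ev le_rfl a) := by
  have h1 : Scheme.SpecToEquivOfField (Rf v) Y (l ≫ f) = ⟨v, 𝟙 _⟩ := by
    rw [← Equiv.eq_symm_apply, hl]
    change _ = Spec.map (𝟙 _) ≫ _
    rw [Spec.map_id, Category.id_comp]
  obtain ⟨e, he⟩ := Scheme.SpecToEquivOfField_eq_iff.1 h1
  refine ⟨e, (X.descResidueField (Scheme.stalkClosedPointTo l)).hom, fun a => ?_, fun a => ?_⟩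
  · have h2 := Scheme.descResidueField_stalkClosedPointTo_comp f l
    exact congrArg (fun g => g.hom a) (h2.symm.trans (he.trans (Category.comp_id _)))
  · change _ = (X.descResidueField _).hom ((X.residue _).hom (sp le_rfl a))
    rw [sp_refl]
    rfl

/-- A divisor of a function is the difference of two fibres of a family. -/
theorem Line.exists_family (L : Line k) {p : S'.X ⟶ S.X} {q : S'.X ⟶ L.C.X} (h : IsProd p q)
    {v : S.X.left} {ψ : Rf v} (hψ : ψ ≠ 0) {c : Zc S} (hc : IsDivP v ψ c) :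
    ∃ Γ : S'.X.left, p.left Γ = v ∧ dm Γ = dm v ∧ (∀ i, (L.fib q i).Pr 1 Γ) ∧
      c = pushZ p.left ((L.fib q 1).cut 1 (cy Γ) - (L.fib q 0).cut 1 (cy Γ)) := by
  obtain ⟨ι, h1, h2, h3⟩ := L.univ (Rf v) (S.X.left.fromSpecResidueField v ≫ S.X.hom) ψ
  obtain ⟨l, hl1, hl2⟩ : ∃ l : Spec (.of (Rf v)) ⟶ S'.X.left,
      l ≫ p.left = S.X.left.fromSpecResidueField v ∧ l ≫ q.left = ι :=
    ⟨IsPullback.lift h _ _ h1.symm, IsPullback.lift_fst h _ _ _, IsPullback.lift_snd h _ _ _⟩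
  subst hl2
  obtain ⟨hv, δ, hδ, hδ'⟩ := exists_retraction p.left v l hl1
  rw [Scheme.stalkClosedPointTo_comp] at h2 h3
  have h4 : δ (ev le_rfl ((L.t.comap q.left).s (l (closedPoint (Rf v))) 0)) ≠ 0 := by
    rw [← hδ']
    exact h2
  have h5 : δ (ev le_rfl ((L.t.comap q.left).s (l (closedPoint (Rf v))) 1)) =
      ψ * δ (ev le_rfl ((L.t.comap q.left).s (l (closedPoint (Rf v))) 0)) := by
    rw [← hδ', ← hδ']
    exact h3
  clear h1 h2 h3 hδ' hl1
  generalize l (closedPoint (Rf v)) = Γ at *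
  clear l
  subst hv
  have hid : ∀ a, δ (rfm p.left Γ a) = a := hδ
  have hbij : Function.Bijective (rfm p.left Γ) :=
    ⟨(rfm p.left Γ).injective, fun b => ⟨δ b, δ.injective (hid _)⟩⟩
  let := (rfm p.left Γ).toAlgebra
  have hdeg : Module.finrank (Rf (p.left Γ)) (Rf Γ) = 1 := by
    rw [← (LinearEquiv.ofBijective (Algebra.linearMap (Rf (p.left Γ)) (Rf Γ)) hbij).finrank_eq,
      Module.finrank_self]
  have hdm : dm (p.left Γ) = dm Γ :=
    (residueDegree_ne_zero_iff p Γ).1 (hdeg.trans_ne one_ne_zero)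
  have h0 : ev le_rfl ((L.t.comap q.left).s Γ 0) ≠ 0 := fun e => h4 (by rw [e, map_zero])
  have h1 : ev le_rfl ((L.t.comap q.left).s Γ 1) ≠ 0 := fun e =>
    mul_ne_zero hψ h4 (by rw [← h5, e, map_zero])
  have e : ev le_rfl ((L.t.comap q.left).s Γ 1) / ev le_rfl ((L.t.comap q.left).s Γ 0) =
      algebraMap (Rf (p.left Γ)) (Rf Γ) ψ := by
    apply δ.injective
    rw [map_div₀, h5, mul_div_cancel_right₀ _ h4]
    exact (hid ψ).symm
  have hd := ((L.t.comap q.left).isDivP 1 0 h1 h0).push p (div_ne_zero h1 h0) hdm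
  rw [e, Algebra.norm_algebraMap, hdeg, pow_one] at hd
  refine ⟨Γ, rfl, hdm.symm, fun i => (Sec.pr_one_iff _ i Γ).2 ?_, hc.unique hd⟩
  fin_cases i
  · exact h0
  · exact h1

theorem Line.fib_sub_mem (L : Line k) (q : S.X ⟶ L.C.X) {c : Zc S}
    (h : ∀ v ∈ c.support, ∀ i, (L.fib q i).Pr 1 v) :
    (L.fib q 1).cut 1 c - (L.fib q 0).cut 1 c ∈ ratP S.X.left := by
  rw [← LinearMap.sub_apply, ← c.sum_single, map_finsuppSum]
  refine Submodule.sum_mem _ fun v hv => ?_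
  have h0 := (Sec.pr_one_iff _ 0 v).1 (h v hv 0)
  have h1 := (Sec.pr_one_iff _ 1 v).1 (h v hv 1)
  beta_reduce
  rw [← mul_one (c v), ← smul_eq_mul, ← Finsupp.smul_single, map_smul]
  exact Submodule.smul_mem _ _ (Submodule.subset_span
    ⟨v, _, div_ne_zero h1 h0, (L.t.comap q.left).isDivP 1 0 h1 h0⟩)

end Pool.Agent.P.MP_638e8a_ag.Cyc
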