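import Pool.Agent.P.MP_638e8a_ag.ChNorm
import Pool.Agent.P.MP_638e8a_ag.ChSub
import Pool.Agent.P.MP_638e8a_ag.ChDim0
import Pool.Agent.P.MP_638e8a_ag.ChA0

/-!
Task CHOW RATEQ: comparison with divisors of functions on integral closed subschemes.
-/

open CategoryTheory AlgebraicGeometry IsLocalRing TopologicalSpace

universe u

namespace Pool.Agent.P.MP_638e8a_ag.Cyc

open Pool.Agent.P.MP_90138e_ag
open Pool.Agent.P.MP_90138e_ag.WeilCohomology (fstH sndH)

variable {k : Type u} [Field k]

namespace RatEq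

open scoped Pointwise in
theorem emult_one {R : Type u} [CommRing R] [IsDomain R] {a : R} (ha : a ≠ 0) :
    emult [a] (R ⧸ (⊥ : Ideal R)) = (Ring.ord R a).toNat := by
  have h1 : Subsingleton (Submodule.torsionBy R R a) :=
    subsingleton_of_forall_eq 0 fun m => Subtype.ext
      ((mul_eq_zero.1 ((Submodule.mem_torsionBy_iff _ _).1 m.2)).resolve_left ha)
  have h2 : a • (⊤ : Submodule R R) = Ideal.span {a} := by
    ext x
    rw [Submodule.mem_smul_pointwise_iff_exists, Ideal.mem_span_singleton']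
    simp [mul_comm]
  rw [emult_congr (Submodule.quotEquivOfEqBot (⊥ : Ideal R) rfl), emult_cons,
    emult_of_subsingleton (M := Submodule.torsionBy R R a), sub_zero, emult_nil, Ring.ord,
    (Submodule.quotEquivOfEq _ _ h2).length_eq]

variable {V : Scheme.{u}} [IsIntegral V]

theorem ord_sp [IsLocallyNoetherian V] {t : V} (ht : Order.coheight t = 1) {a : St t}
    (ha : a ≠ 0) : V.ord (sp (le_gen t) a : V.functionField) t = (Ring.ord (St t) a).toNat := by
  have : Ring.KrullDimLE 1 (St t) := krullDimLE_of_coheight_le ht.le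
  have h0 : (algebraMap (St t) V.functionField a) ≠ 0 :=
    (map_ne_zero_iff _ (IsFractionRing.injective (St t) V.functionField)).2 ha
  have h1 := mem_nonZeroDivisors_of_ne_zero ha
  change V.ord (algebraMap (St t) V.functionField a) t = _
  rw [Scheme.ord_eq_iff ht h0]
  change Ring.ordFrac (St t) (algebraMap (St t) V.functionField a) = _
  rw [Ring.ordFrac_eq_ord _ ha,
    Ring.ordMonoidWithZeroHom_eq_coe _ h1 (ENat.natCast_toNat (Ring.ord_ne_top h1)).symm]

theorem res_inj {φ φ' : V.functionField}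
    (h : (V.residue (genericPoint V)).hom φ = (V.residue (genericPoint V)).hom φ') : φ = φ' :=
  (show V.functionField →+* Rf (genericPoint V) from (V.residue (genericPoint V)).hom).injective h

variable {S : SmProj k} (i : V ⟶ S.X.left) [IsClosedImmersion i]

omit [IsIntegral V] in
theorem stm_surj (t : V) : Function.Surjective (stm i t) := i.stalkMap_surjective t

theorem mem_range {x : S.X.left} : x ∈ Set.range i ↔ x ≤ i (genericPoint V) := by
  refine ⟨?_, fun h => ?_⟩
  · rintro ⟨t, rfl⟩
    exact map_le i (le_gen t)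
  · obtain ⟨t, -, ht⟩ := exists_le_of_le_map i h
    exact ⟨t, ht⟩

theorem coheight_iff (t : V) :
    Order.coheight t = 1 ↔ dm (i t) + 1 = dm (i (genericPoint V)) := by
  have h1 := dim_quot (map_le i (le_gen t))
  rw [← ker_stm, ringKrullDim_eq_of_ringEquiv (RingHom.quotientKerEquivOfSurjective (stm_surj i t)),
    ringKrullDim_stalk_eq_coheight] at h1
  have h2 : Order.coheight t = (dm (i (genericPoint V)) - dm (i t) : ℕ) := WithBot.coe_injective h1
  rw [h2, Nat.cast_eq_one]
  omega

theorem emult_stm (t : V) {a : St (i t)} (ha : stm i t a ≠ 0) :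
    emult [a] (St (i t) ⧸ primeOf (i t) (i (genericPoint V))) =
      (Ring.ord (St t) (stm i t a)).toNat := by
  rw [← ker_stm, ← emult_one ha]
  exact (emult_quot_of_surjective (stm i t) (stm_surj i t) ⊥ [a]).symm

theorem ord_eq [IsLocallyNoetherian V] {φ : V.functionField} {ψ : Rf (i (genericPoint V))}
    (hψ : ψ ≠ 0) (hr : rfm i _ ψ = (V.residue (genericPoint V)).hom φ) (t : V)
    (ht : dm (i t) + 1 = dm (i (genericPoint V))) (a b : St (i t))
    (hb : ev (map_le i (le_gen t)) b ≠ 0)
    (hab : ev (map_le i (le_gen t)) a = ψ * ev (map_le i (le_gen t)) b) :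
    V.ord φ t = emult [a] (St (i t) ⧸ primeOf (i t) (i (genericPoint V))) -
      emult [b] (St (i t) ⧸ primeOf (i t) (i (genericPoint V))) := by
  have hne : ∀ c : St (i t), ev (map_le i (le_gen t)) c ≠ 0 → stm i t c ≠ 0 := fun c hc h0 =>
    hc ((ev_eq_zero _).2 (by rw [← ker_stm]; exact h0))
  have ha := hne a (by rw [hab]; exact mul_ne_zero hψ hb)
  have hb' := hne b hb
  have h1 : (sp (le_gen t) (stm i t a) : V.functionField) = φ * sp (le_gen t) (stm i t b) := by
    apply res_inj
    rw [map_mul, ← hr]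
    change ev (le_gen t) _ = _ * ev (le_gen t) _
    rw [ev_stm, ev_stm, hab, map_mul]
  have hφ : φ ≠ 0 := by
    rintro rfl
    rw [map_zero] at hr
    exact hψ ((map_eq_zero _).1 hr)
  have h2 : (sp (le_gen t) (stm i t b) : V.functionField) ≠ 0 :=
    (map_ne_zero_iff _ (IsFractionRing.injective (St t) V.functionField)).2 hb'
  have h3 := (coheight_iff i t).2 ht
  have h4 := ord_sp h3 ha
  rw [h1, Scheme.ord_mul hφ h2, ord_sp h3 hb'] at h4
  rw [emult_stm i t ha, emult_stm i t hb', ← h4, add_sub_cancel_right]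

theorem isDivP_iff [IsLocallyNoetherian V] {φ : V.functionField} {ψ : Rf (i (genericPoint V))}
    (hψ : ψ ≠ 0) (hr : rfm i _ ψ = (V.residue (genericPoint V)).hom φ) (c : Zc S) :
    IsDivP (i (genericPoint V)) ψ c ↔
      (∀ t, c (i t) = V.ord φ t) ∧ ∀ x, x ∉ Set.range i → c x = 0 := by
  constructor
  · intro h
    refine ⟨fun t => ?_, fun x hx => h.2 x fun h' => hx ((mem_range i).2 h'.1)⟩
    by_cases ht : dm (i t) + 1 = dm (i (genericPoint V))
    · obtain ⟨a, b, hb, hab⟩ := ev_frac (map_le i (le_gen t)) ψ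
      rw [h.1 _ _ ht a b hb hab, ord_eq i hψ hr t ht a b hb hab]
    · rw [h.2 _ fun h' => ht h'.2,
        Scheme.ord_eq_zero_of_coheight_neq_one fun h' => ht ((coheight_iff i t).1 h'),
        Int.cast_zero]
  · rintro ⟨h1, h2⟩
    refine ⟨fun x hx hd a b hb hab => ?_, fun x hx => ?_⟩
    · obtain ⟨t, rfl⟩ := (mem_range i).2 hx
      rw [h1, ord_eq i hψ hr t hd a b hb hab]
    · by_cases hm : x ∈ Set.range i
      · obtain ⟨t, rfl⟩ := hm
        rw [h1, Scheme.ord_eq_zero_of_coheight_neq_one fun h' =>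
          hx ⟨map_le i (le_gen t), (coheight_iff i t).1 h'⟩, Int.cast_zero]
      · exact h2 x hm

end RatEq

/-- The two definitions of rational equivalence agree. -/
theorem ratP_eq (S : SmProj k) : ratP S.X.left = ratEq S := by
  unfold ratP ratEq
  congr 1
  ext c
  constructor
  · rintro ⟨v, ψ, hψ, h⟩
    obtain ⟨V, _, i, _, rfl⟩ := exists_subvariety v
    have : IsLocallyNoetherian V := LocallyOfFiniteType.isLocallyNoetherian i
    obtain ⟨φ, hφ⟩ := V.residue_surjective (genericPoint V) (rfm i _ ψ)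
    refine ⟨V, ‹_›, ‹_›, i, ‹_›, φ, ?_, (RatEq.isDivP_iff i hψ hφ.symm c).1 h⟩
    rintro rfl
    exact hψ ((map_eq_zero (rfm i _)).1 (hφ.symm.trans (map_zero _)))
  · rintro ⟨V, _, _, i, _, φ, hφ, h⟩
    obtain ⟨a, ha⟩ := RatEq.stm_surj i (genericPoint V) φ
    have hr : rfm i _ (ev (map_le i le_rfl) a) = (V.residue (genericPoint V)).hom φ := by
      rw [← ev_stm, ha]
      exact congrArg _ (sp_refl _ _)
    have hψ : ev (map_le i (le_refl (genericPoint V))) a ≠ 0 := fun h0 => hφ (RatEq.res_inj (by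
      rw [← hr, h0, map_zero, map_zero]))
    exact ⟨_, _, hψ, (RatEq.isDivP_iff i hψ hr c).2 h⟩

end Pool.Agent.P.MP_638e8a_ag.Cyc
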