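import Pool.Agent.P.MP_638e8a_ag.ChInv
import Pool.Agent.P.MP_638e8a_ag.ChRatEq

/-!
Task CHOW RING: the Chow rings.
-/

open CategoryTheory AlgebraicGeometry IsLocalRing TopologicalSpace

universe u

namespace Pool.Agent.P.MP_638e8a_ag.Cyc

open Pool.Agent.P.MP_90138e_ag
open Pool.Agent.P.MP_90138e_ag.WeilCohomology (fstH sndH)

variable {k : Type u} [Field k] [IsAlgClosed k]

/-- The class of a cycle. -/
noncomputable def clZ (T : ChowTheory k) (X : SmProj k) : Zc X →ₗ[ℚ] T.A X :=
  Finsupp.linearCombination ℚ (T.cl X)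

/-- The operations of `T` are computed by intersection cycles. -/
def IsStd (T : ChowTheory k) : Prop :=
  ∀ (X Y : SmProj k) (f : X.X ⟶ Y.X) (α : Zc X) (β : Zc Y), PrA f α β →
    clZ T X (act f α β) = clZ T X α * T.pull f (clZ T Y β)

namespace RingA

variable {S T U X Y : SmProj k}

/-- Cycles modulo rational equivalence. -/
def CA (X : SmProj k) : Type u := Zc X ⧸ ratP X.X.left

noncomputable instance : AddCommGroup (CA X) :=
  inferInstanceAs (AddCommGroup (Zc X ⧸ ratP X.X.left))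

noncomputable instance : Module ℚ (CA X) := inferInstanceAs (Module ℚ (Zc X ⧸ ratP X.X.left))

/-- The class of a cycle. -/
noncomputable def mk (X : SmProj k) : Zc X →ₗ[ℚ] CA X := (ratP X.X.left).mkQ

omit [IsAlgClosed k] in
theorem mk_surj (a : CA X) : ∃ α, mk X α = a := (ratP X.X.left).mkQ_surjective a

omit [IsAlgClosed k] in
theorem mk_eq {α β : Zc X} : mk X α = mk X β ↔ α - β ∈ ratP X.X.left := Submodule.Quotient.eq _

/-- Finitely many subvarieties of a variety over `T`. -/
structure Dat (T : SmProj k) where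
  S : SmProj k
  f : S.X ⟶ T.X
  F : Set S.X.left
  fin : F.Finite

theorem rep (l : List (Dat T)) (β : Zc T) : ∃ β' : Zc T,
    (∀ x ∈ β'.support, ∃ y ∈ β.support, dm x = dm y) ∧ mk T β' = mk T β ∧
      ∀ d ∈ l, ∀ w ∈ d.F, ∀ v ∈ β'.support, PrI d.f w v := by
  have : ∀ i : ULift.{u} (Fin l.length), Finite (l.get i.down).F := fun i => (l.get i.down).fin
  obtain ⟨β', -, h1, h2, h3, -⟩ :=
    moving (ι := Σ i : ULift.{u} (Fin l.length), (l.get i.down).F) (fun i => (l.get i.1.down).S)
      (fun i => (l.get i.1.down).f) (fun i => i.2.1) β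
  refine ⟨β', h1, (mk_eq.2 h2).symm, fun d hd w hw v hv => ?_⟩
  obtain ⟨i, rfl⟩ := List.get_of_mem hd
  exact h3 ⟨⟨i⟩, ⟨w, hw⟩⟩ w (by simp) v hv

theorem rep₁ (f : S.X ⟶ T.X) (α : Zc S) (β : Zc T) : ∃ β' : Zc T,
    (∀ x ∈ β'.support, ∃ y ∈ β.support, dm x = dm y) ∧ mk T β' = mk T β ∧ PrA f α β' := by
  obtain ⟨β', h1, h2, h3⟩ := rep [⟨S, f, α.support, α.support.finite_toSet⟩] β
  exact ⟨β', h1, h2, h3 _ (List.mem_singleton_self _)⟩

theorem rep₁' (f : S.X ⟶ T.X) (α : Zc S) (b : CA T) : ∃ β : Zc T, mk T β = b ∧ PrA f α β := by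
  obtain ⟨β, rfl⟩ := mk_surj b
  obtain ⟨β', -, h⟩ := rep₁ f α β
  exact ⟨β', h⟩

theorem rep₂ (f : S.X ⟶ T.X) {F : Set S.X.left} (hF : F.Finite) (g : U.X ⟶ T.X) (α : Zc U)
    (b : CA T) : ∃ β : Zc T, mk T β = b ∧ (∀ w ∈ F, ∀ v ∈ β.support, PrI f w v) ∧ PrA g α β := by
  obtain ⟨β, rfl⟩ := mk_surj b
  obtain ⟨β', -, h2, h3⟩ := rep [⟨S, f, F, hF⟩, ⟨U, g, α.support, α.support.finite_toSet⟩] β
  exact ⟨β', h2, h3 _ List.mem_cons_self, h3 _ (List.mem_cons_of_mem _ List.mem_cons_self)⟩

/-- The action on classes. -/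
noncomputable def m0 (f : S.X ⟶ T.X) (a : CA S) (b : CA T) : CA S :=
  mk S (act f (mk_surj a).choose (rep₁' f (mk_surj a).choose b).choose)

theorem m0_mk {f : S.X ⟶ T.X} {α : Zc S} {β : Zc T} (h : PrA f α β) :
    m0 f (mk S α) (mk T β) = mk S (act f α β) := by
  have h1 := (mk_surj (mk S α)).choose_spec
  have h2 := (rep₁' f (mk_surj (mk S α)).choose (mk T β)).choose_spec
  exact mk_eq.2 (act_sub_mem (mk_eq.1 h1) (mk_eq.1 h2.1) h2.2 h)

/-- The action on classes as a bilinear map. -/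
noncomputable def m (f : S.X ⟶ T.X) : CA S →ₗ[ℚ] CA T →ₗ[ℚ] CA S := by
  classical
  refine LinearMap.mk₂ ℚ (m0 f) (fun a a' b => ?_) (fun c a b => ?_) (fun a b b' => ?_)
    fun c a b => ?_
  · obtain ⟨α, rfl⟩ := mk_surj a
    obtain ⟨α', rfl⟩ := mk_surj a'
    obtain ⟨β, rfl, h1, h2⟩ := rep₂ f α.support.finite_toSet f α' b
    have h3 : PrA f (α + α') β := fun w hw =>
      (Finset.mem_union.1 (Finsupp.support_add hw)).elim (h1 w) (h2 w)
    rw [← map_add, m0_mk h3, m0_mk h2, m0_mk (α := α) h1, map_add, LinearMap.add_apply, map_add]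
  · obtain ⟨α, rfl⟩ := mk_surj a
    obtain ⟨β, rfl, h1⟩ := rep₁' f α b
    have h3 : PrA f (c • α) β := fun w hw => h1 w (Finsupp.support_smul hw)
    rw [← map_smul, m0_mk h3, m0_mk h1, map_smul, LinearMap.smul_apply, map_smul]
  · obtain ⟨α, rfl⟩ := mk_surj a
    obtain ⟨β, rfl, h1⟩ := rep₁' f α b
    obtain ⟨β', rfl, h2⟩ := rep₁' f α b'
    have h3 : PrA f α (β + β') := fun w hw v hv =>
      (Finset.mem_union.1 (Finsupp.support_add hv)).elim (h1 w hw v) (h2 w hw v)
    rw [← map_add, m0_mk h3, m0_mk h2, m0_mk h1, map_add, map_add]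
  · obtain ⟨α, rfl⟩ := mk_surj a
    obtain ⟨β, rfl, h1⟩ := rep₁' f α b
    have h3 : PrA f α (c • β) := fun w hw v hv => h1 w hw v (Finsupp.support_smul hv)
    rw [← map_smul, m0_mk h3, m0_mk h1, map_smul, map_smul]

theorem m_mk {f : S.X ⟶ T.X} {α : Zc S} {β : Zc T} (h : PrA f α β) :
    m f (mk S α) (mk T β) = mk S (act f α β) := m0_mk h

omit [IsAlgClosed k] in
theorem isClosed_inter (f : S.X ⟶ T.X) (w : S.X.left) (v : T.X.left) :
    IsClosed {s | s ≤ w ∧ f.left s ≤ v} :=
  (isClosed_le w).inter ((isClosed_le v).preimage f.left.continuous)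

theorem m_assoc (f : S.X ⟶ T.X) (g : T.X ⟶ U.X) (a : CA S) (b : CA T) (c : CA U) :
    m (f ≫ g) (m f a b) c = m f a (m g b c) := by
  obtain ⟨α, rfl⟩ := mk_surj a
  obtain ⟨β, rfl, h1⟩ := rep₁' f α b
  have hF : {x | ∃ w ∈ α.support, ∃ v ∈ β.support,
      Maximal (fun s => s ≤ w ∧ f.left s ≤ v) x}.Finite := by
    have := (α.support.finite_toSet.biUnion fun w _ => β.support.finite_toSet.biUnion fun v _ =>
      finite_maximal (isClosed_inter f w v))
    refine this.subset fun x ⟨w, hw, v, hv, hx⟩ => ?_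
    exact Set.mem_biUnion hw (Set.mem_biUnion hv hx)
  obtain ⟨υ, rfl, h2, h3⟩ := rep₂ (f ≫ g) hF g β c
  have h4 : PrA (f ≫ g) (act f α β) υ := fun x hx => h2 x (mem_support_act hx)
  have h5 := act_assoc (f := f) (g := g) (α := α) (β := β) (υ := υ)
    fun w hw b hb t ht x hx hx' hx'' => by
      obtain ⟨y, hy, hy'⟩ := exists_maximal (isClosed_inter f w b) (x := x) ⟨hx, hx'⟩
      have e1 := h1 w hw b hb y hy'.1.1 hy'.1.2
      have e2 := h2 y ⟨w, hw, b, hb, hy'⟩ t ht x hy hx''
      omega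
  rw [m_mk h1, m_mk h3, m_mk h4, m_mk h5.2, h5.1]

theorem m_gen (f : S.X ⟶ T.X) (a : CA S) : m f a (mk T (cy T.gen)) = a := by
  obtain ⟨α, rfl⟩ := mk_surj a
  rw [m_mk (prA_gen f α), act_gen]

theorem m_comm (a b : CA S) : m (𝟙 S.X) a b = m (𝟙 S.X) b a := by
  obtain ⟨α, rfl⟩ := mk_surj a
  obtain ⟨β, rfl, h⟩ := rep₁' (𝟙 S.X) α b
  rw [m_mk h, m_mk h.symm, act_comm h]

noncomputable instance : CommRing (CA X) :=
  { (inferInstance : AddCommGroup (CA X)) with
    mul := fun a b => m (𝟙 X.X) a b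
    one := mk X (cy X.gen)
    left_distrib := fun a b c => map_add (m (𝟙 X.X) a) b c
    right_distrib := fun a b c => LinearMap.map_add₂ (m (𝟙 X.X)) a b c
    zero_mul := fun a => LinearMap.map_zero₂ (m (𝟙 X.X)) a
    mul_zero := fun a => map_zero (m (𝟙 X.X) a)
    mul_assoc := fun a b c => by
      have := m_assoc (𝟙 X.X) (𝟙 X.X) a b c
      rwa [Category.id_comp] at this
    one_mul := fun a => (m_comm _ a).trans (m_gen _ a)
    mul_one := fun a => m_gen _ a
    mul_comm := m_comm }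

theorem mul_def (a b : CA X) : a * b = m (𝟙 X.X) a b := rfl

theorem one_def : (1 : CA X) = mk X (cy X.gen) := rfl

theorem m_one (f : S.X ⟶ T.X) (a : CA S) : m f a 1 = a := m_gen f a

noncomputable instance : Algebra ℚ (CA X) :=
  Algebra.ofModule (fun r a b => LinearMap.map_smul₂ (m (𝟙 X.X)) r a b)
    fun r a b => map_smul (m (𝟙 X.X) a) r b

theorem m_eq (f : S.X ⟶ T.X) (a : CA S) (b : CA T) : m f a b = a * m f 1 b := by
  have := m_assoc (𝟙 S.X) f a 1 b
  rwa [Category.id_comp, m_one] at this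

/-- Pull-back. -/
noncomputable def pull (f : S.X ⟶ T.X) : CA T →ₐ[ℚ] CA S :=
  AlgHom.ofLinearMap (m f 1) (m_one f 1) fun b c => by
    have := m_assoc f (𝟙 T.X) 1 b c
    rw [Category.comp_id, m_eq] at this
    exact this.symm

theorem pull_apply (f : S.X ⟶ T.X) (b : CA T) : pull f b = m f 1 b := rfl

/-- Push-forward. -/
noncomputable def push (f : S.X ⟶ T.X) : CA S →ₗ[ℚ] CA T :=
  (ratP S.X.left).mapQ (ratP T.X.left) (pushZ f.left) fun _ hc => push_mem_ratP f hc

theorem push_mk (f : S.X ⟶ T.X) (α : Zc S) : push f (mk S α) = mk T (pushZ f.left α) := rfl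

/-- The class of a subvariety. -/
noncomputable def cl (X : SmProj k) (z : X.X.left) : CA X := mk X (cy z)

theorem lc_cl (X : SmProj k) : Finsupp.linearCombination ℚ (cl X) = mk X := by
  ext z
  simp [cl]

theorem mk_mem {s : Set X.X.left} {c : Zc X} (h : ∀ t ∈ c.support, t ∈ s) :
    mk X c ∈ Submodule.span ℚ (cl X '' s) :=
  (Finsupp.mem_span_image_iff_linearCombination ℚ).2
    ⟨c, (Finsupp.mem_supported _ _).2 h, by rw [lc_cl]⟩

theorem m_codim (f : S.X ⟶ T.X) (w : S.X.left) (v : T.X.left) :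
    m f (cl S w) (cl T v) ∈
      Submodule.span ℚ (cl S '' {t | dm t + T.dim = dm w + dm v}) := by
  obtain ⟨β, h1, h2, h3⟩ := rep₁ f (cy w) (cy v)
  rw [cl, cl, ← h2, m_mk h3]
  refine mk_mem fun t ht => ?_
  obtain ⟨w', hw, v', hv, hx⟩ := mem_support_act ht
  obtain ⟨y, hy, e⟩ := h1 v' hv
  have e1 := dm_ge_of_maximal hx
  have e2 := h3 w' hw v' hv t hx.1.1 hx.1.2
  obtain rfl : w' = w := Finset.mem_singleton.1 (Finsupp.support_single_subset hw)
  obtain rfl : y = v := Finset.mem_singleton.1 (Finsupp.support_single_subset hy)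
  change dm t + T.dim = dm w' + dm y
  omega

theorem productAxioms : ProductAxioms (A := CA (k := k)) cl where
  cl_surjective X := by
    rw [lc_cl]
    exact mk_surj
  cl_ker X := by
    rw [lc_cl, ← ratP_eq]
    exact Submodule.ker_mkQ _
  cl_generic _ := rfl
  mul_codim X z z' := by
    refine Submodule.span_mono (Set.image_mono fun t ht => ?_) (m_codim (𝟙 X.X) z z')
    have h1 : dm t + X.dim = dm z + dm z' := ht
    have h2 := dm_le_dim z
    have h3 := dm_le_dim z'
    change Order.coheight t = Order.coheight z + Order.coheight z'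
    rw [coheight_eq, coheight_eq, coheight_eq, ← Nat.cast_add, Nat.cast_inj]
    omega
  mul_divisor X D z hD hz := by
    have h0 : X.dim - dm D = 1 := by
      rw [coheight_eq] at hD
      exact_mod_cast hD
    have h1 : PrI (𝟙 X.X) D z := fun x hx hx' => by
      have := dm_lt (show x ≤ z from hx') fun e => hz (e ▸ hx)
      omega
    have h2 : PrA (𝟙 X.X) (cy D) (cy z) := fun w hw v hv => by
      obtain rfl : w = D := Finset.mem_singleton.1 (Finsupp.support_single_subset hw)
      obtain rfl : v = z := Finset.mem_singleton.1 (Finsupp.support_single_subset hv)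
      exact h1
    refine ⟨(act (𝟙 X.X) (cy D) (cy z)).mapRange (fun q => q.num.toNat) (by simp),
      fun t ht => ?_, ?_⟩
    · obtain ⟨w, hw, v, hv, hx⟩ := mem_support_act (Finsupp.support_mapRange ht)
      obtain rfl : w = D := Finset.mem_singleton.1 (Finsupp.support_single_subset hw)
      obtain rfl : v = z := Finset.mem_singleton.1 (Finsupp.support_single_subset hv)
      refine ⟨hx.1.1, hx.1.2, ?_⟩
      have e1 := dm_ge_of_maximal hx
      have e2 := h1 t hx.1.1 hx.1.2
      have e3 := dm_le_dim v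
      rw [coheight_eq, coheight_eq, ← Nat.cast_succ, Nat.cast_inj]
      omega
    · rw [Finsupp.sum_mapRange_index (by simp), mul_def, cl, cl, m_mk h2, ← lc_cl,
        Finsupp.linearCombination_apply]
      refine Finsupp.sum_congr fun t _ => ?_
      rw [act_apply, Rat.num_intCast, ← Nat.cast_smul_eq_nsmul ℚ, ← Int.cast_natCast,
        Int.toNat_of_nonneg (icm_nonneg _ _ _ _)]

theorem pull_flat {P : SmProj k} {p : P.X ⟶ S.X} {q : P.X ⟶ T.X} (h : IsProd p q) (α : Zc S) :
    pull p (mk S α) = mk P (extZ p q α (cy T.gen)) := by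
  rw [pull_apply, one_def, m_mk (h.prA_flat α), h.act_flat]

theorem pullAxioms : PullAxioms (A := CA (k := k)) cl fun f y => pull f y where
  pull_id X x := one_mul x
  pull_comp f g x := by
    have := m_assoc f g 1 1 x
    rwa [m_one] at this
  pull_codim {X Y} f z := by
    refine Submodule.span_mono (Set.image_mono fun t ht => ?_) (m_codim f X.gen z)
    have h1 : dm t + Y.dim = dm X.gen + dm z := ht
    have h2 := dm_le_dim z
    rw [dm_gen] at h1
    change Order.coheight t = Order.coheight z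
    rw [coheight_eq, coheight_eq, Nat.cast_inj]
    omega
  pull_fst X Y z hz := by
    have h := isProd_prod X Y
    have e : extPt (fstH X Y) (sndH X Y) ((fstH X Y).left z) Y.gen = z :=
      h.ext_eq fun t => ⟨fun ht => ⟨map_le _ ht, le_gen _⟩,
        fun ht => (isProj_fst X Y).le_top hz ht.1⟩
    have := pull_flat h (cy ((fstH X Y).left z))
    rw [extZ_cy, e] at this
    exact this

theorem push_cl (f : S.X ⟶ T.X) (z : S.X.left) :
    push f (cl S z) = f.left.residueDegree z • cl T (f.left z) := by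
  rw [cl, cl, push_mk, pushZ_single, ← map_nsmul, Finsupp.smul_single, one_mul, nsmul_eq_mul,
    mul_one]

theorem pushAxioms :
    PushAxioms (A := CA (k := k)) cl (fun f y => pull f y) fun f x => push f x where
  push_cl := push_cl
  push_codim {X Y} f z := by
    rw [push_cl]
    by_cases h : f.left.residueDegree z = 0
    · rw [h, zero_nsmul]
      exact zero_mem _
    · refine nsmul_mem (Submodule.subset_span (Set.mem_image_of_mem _ ?_)) _
      have h1 := (residueDegree_ne_zero_iff f z).1 h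
      have h2 := dm_le_dim z
      have h3 := dm_le_dim (f.left z)
      change Order.coheight (f.left z) + X.dim = Order.coheight z + Y.dim
      rw [coheight_eq, coheight_eq, ← Nat.cast_add, ← Nat.cast_add, Nat.cast_inj]
      omega
  projection {X Y} f x y := by
    obtain ⟨α, rfl⟩ := mk_surj x
    obtain ⟨β, rfl, h⟩ := rep₁' (f ≫ 𝟙 Y.X) α y
    have h1 := push_act h
    have h2 := h.push
    rw [Category.comp_id] at h h1
    rw [pull_apply, ← m_eq, m_mk h, push_mk, push_mk, h1, mul_def, m_mk h2]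
  base_change {X X'} f Y x := by
    obtain ⟨α, rfl⟩ := mk_surj x
    let F : (X'.prod Y).X ⟶ (X.prod Y).X := MonoidalCategoryStruct.whiskerRight f Y.X
    have h1 := (isProd_prod X Y).push_ext (isProd_prod X' Y) (f := f) (g := 𝟙 Y.X)
      (F := F) (CartesianMonoidalCategory.whiskerRight_fst _ _)
      ((CartesianMonoidalCategory.whiskerRight_snd _ _).trans (Category.comp_id _).symm)
      α (cy Y.gen)
    rw [Over.id_left, pushZ_id] at h1
    have h2 := pull_flat (isProd_prod X Y) (pushZ f.left α)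
    have h3 := pull_flat (isProd_prod X' Y) α
    rw [← h1, ← push_mk f, ← push_mk F, ← h3] at h2
    exact h2

/-- The Chow rings. -/
noncomputable def chow (k : Type u) [Field k] [IsAlgClosed k] : ChowTheory k where
  A := CA
  cl := cl
  pull := pull
  push := push
  productAxioms := productAxioms
  pullAxioms := pullAxioms
  pushAxioms := pushAxioms

theorem clZ_chow (X : SmProj k) (c : Zc X) : clZ (chow k) X c = mk X c :=
  LinearMap.congr_fun (lc_cl X) c

end RingA

theorem exists_chow (k : Type u) [Field k] [IsAlgClosed k] : ∃ T : ChowTheory k, IsStd T := by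
  refine ⟨RingA.chow k, fun X Y f α β h => ?_⟩
  rw [RingA.clZ_chow, RingA.clZ_chow, RingA.clZ_chow, ← RingA.m_mk h, RingA.m_eq]
  rfl

end Pool.Agent.P.MP_638e8a_ag.Cyc
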