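import Pool.Agent.P.MP_638e8a_ag.ChProd

/-!
Task CHOW SEC: operations on sections.
-/

open CategoryTheory AlgebraicGeometry IsLocalRing TopologicalSpace

universe u

namespace Pool.Agent.P.MP_638e8a_ag.Cyc

open Pool.Agent.P.MP_90138e_ag
open Pool.Agent.P.MP_90138e_ag.WeilCohomology (fstH sndH)

variable {k : Type u} [Field k] {S S' T X Y : SmProj k}

namespace Sec

variable {σ τ : Type}

theorem ext' {X : Scheme.{u}} {a b : Sec X σ} (h : a.s = b.s) : a = b := by
  cases a
  cases b
  congr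

theorem minor_comap {X Y : Scheme.{u}} (a b : Sec Y σ) (f : X ⟶ Y) :
    (a.minor b).zero.comap f = ((a.comap f).minor (b.comap f)).zero := by
  rw [← zero_comap]
  congr 1
  exact ext' (funext fun x => funext fun ij => by simp [comap, minor])

theorem comap_comp {X Y Z : Scheme.{u}} (a : Sec Z σ) (f : X ⟶ Y) (g : Y ⟶ Z) :
    a.comap (f ≫ g) = (a.comap g).comap f := by
  exact ext' (funext fun x => funext fun i => stm_comp f g x _)

theorem comap_id {X : Scheme.{u}} (a : Sec X σ) : a.comap (𝟙 X) = a := by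
  refine ext' (funext fun x => funext fun i => ?_)
  exact congrArg (fun h => h.hom (a.s x i)) (Scheme.Hom.stalkMap_id X x)

theorem lin_comap [Fintype σ] (a : Sec X.X.left σ) (A : τ → σ → k) (f : S.X ⟶ X.X) :
    (a.lin A).comap f.left = (a.comap f.left).lin A := by
  refine ext' (funext fun x => funext fun j => ?_)
  simp only [comap, lin, map_sum, map_mul, stm_cst]

theorem one_comap {X Y : Scheme.{u}} (a : Sec Y σ) (i : σ) (f : X ⟶ Y) :
    (a.one i).comap f = (a.comap f).one i := by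
  rfl

theorem minor_congr {X : Scheme.{u}} (a : Sec X σ) {b b' : Sec X σ}
    (h : ∀ x, ∃ c : (St x)ˣ, ∀ i, b'.s x i = c * b.s x i) :
    (a.minor b').zero = (a.minor b).zero := by
  refine IF.ext (funext fun x => ?_)
  obtain ⟨c, hc⟩ := h x
  rw [zero_J, zero_J, ← span_unit_mul c ((a.minor b).s x)]
  congr 2
  funext ij
  simp only [minor, hc]
  ring

theorem minor_gen {X : Scheme.{u}} {d : ℕ} {a : Sec X (Fin (d + 1))} (ha : a.Bpf)
    (b : Sec X (Fin (d + 1))) : (a.minor b).zero.Gen d := by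
  intro x _
  obtain ⟨i0, u, hu⟩ := ha x
  refine ⟨List.ofFn fun j : Fin d => (a.minor b).s x (i0, i0.succAbove j), List.length_ofFn, ?_⟩
  rw [zero_J]
  refine le_antisymm (Ideal.span_le.2 fun y hy => ?_) (Ideal.span_le.2 ?_)
  · obtain ⟨j, rfl⟩ := List.mem_ofFn.1 hy
    exact Ideal.subset_span ⟨_, rfl⟩
  · have h0 : ∀ j, (a.minor b).s x (i0, j) ∈
        Ideal.ofList (List.ofFn fun j : Fin d => (a.minor b).s x (i0, i0.succAbove j)) := by
      intro j
      rcases Fin.eq_self_or_eq_succAbove i0 j with rfl | ⟨j, rfl⟩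
      · simp [minor]
      · exact Ideal.subset_span (List.mem_ofFn.2 ⟨j, rfl⟩)
    rintro _ ⟨⟨i, j⟩, rfl⟩
    have e : (a.minor b).s x (i, j) = ↑u⁻¹ * (a.s x i * (a.minor b).s x (i0, j) -
        a.s x j * (a.minor b).s x (i0, i)) := by
      rw [Units.eq_inv_mul_iff_mul_eq, hu]
      simp only [minor]
      ring
    rw [SetLike.mem_coe, e]
    exact Ideal.mul_mem_left _ _ (sub_mem (Ideal.mul_mem_left _ _ (h0 j))
      (Ideal.mul_mem_left _ _ (h0 i)))

end Sec

end Pool.Agent.P.MP_638e8a_ag.Cyc
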