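import Pool.Agent.P.MP_638e8a_ag.ChStdA

/-!
The Chow rings of smooth projective varieties over an algebraically closed field.
-/

universe u

namespace Pool.Agent.P.MP_638e8a_ag.H58

theorem exists_standard (k : Type u) [Field k] [IsAlgClosed k] : ∃ A : Chow k, IsStandard A :=
  exists_standard_aux k

/-- The Chow rings: cycles modulo rational equivalence with the intersection product. -/
noncomputable def chow (k : Type u) [Field k] [IsAlgClosed k] : Chow k :=
  Classical.choose (exists_standard k)

end Pool.Agent.P.MP_638e8a_ag.H58
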