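import Pool.Agent.P.MP_638e8a_ag.H58Defs
import Pool.Agent.P.MP_638e8a_ag.ChDefs

/-!
The properties that determine the operations of the Chow ring.
-/

open CategoryTheory

universe u

namespace Pool.Agent.P.MP_638e8a_ag.H58

open SmProj Cyc

/-- The intersection multiplicity `i(t; z · z'; X)`, by reduction to the diagonal. -/
noncomputable def interMult {k : Type u} [Field k] (X : SmProj k) :
    X.X.left → X.X.left → X.X.left → ℤ :=
  diagMult X.dim (sch (pair (𝟙 X) (𝟙 X))) (sch (p1 X X)) (sch (p2 X X))

/-- The product of the classes of two properly intersecting cycles is the class of their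
intersection cycle, any two classes have properly intersecting representatives, and the pull-back
along a projection takes a subvariety to its inverse image. -/
structure IsStandard {k : Type u} [Field k] (A : Chow k) : Prop where
  inter : ∀ (X : SmProj k) α β γ, IsInterCycle (interMult X) α β γ →
    A.cyc X γ = A.cyc X α * A.cyc X β
  moving : ∀ (X : SmProj k) α β, ∃ β', A.cyc X β' = A.cyc X β ∧ Proper α β'
  pull : ∀ (X Y : SmProj k) α α', IsPull (sch (p1 X Y)) α α' →
    A.cyc (X.prod Y) α' = A.pull (p1 X Y) (A.cyc X α)

end Pool.Agent.P.MP_638e8a_ag.H58
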