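import Pool.Agent.P.MP_638e8a_ag.ChGen
import Pool.Agent.P.MP_638e8a_ag.ChAssoc
import Pool.Agent.P.MP_638e8a_ag.ChCont

/-!
Task CHOW STEP: one step of the moving lemma.
-/

open CategoryTheory AlgebraicGeometry IsLocalRing TopologicalSpace

universe u

namespace Pool.Agent.P.MP_638e8a_ag.Cyc

open Pool.Agent.P.MP_90138e_ag
open Pool.Agent.P.MP_90138e_ag.WeilCohomology (fstH sndH)

namespace StepA

variable {k : Type u} [Field k] {S T : SmProj k} {N : ℕ}

/-- The coordinates separate points. -/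
def Sep (s : Sec T.X.left (Fin (N + 1))) : Prop :=
  ∀ (S : SmProj k) (a b : S.X ⟶ T.X), ((s.comap a.left).minor (s.comap b.left)).zero = Dg a b

/-- The locus on `S × T` where the projections `A` of `f x` and `B` of `y` agree. -/
noncomputable def Mx (s : Sec T.X.left (Fin (N + 1))) (f : S.X ⟶ T.X)
    (A B : Fin (T.dim + 1) → Fin (N + 1) → k) : IF (S.prod T).X.left :=
  (((s.comap (fstH S T ≫ f).left).lin A).minor ((s.comap (sndH S T).left).lin B)).zero

/-- The morphism `f × 1`. -/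
noncomputable def Fm (f : S.X ⟶ T.X) : (S.prod T).X ⟶ (T.prod T).X :=
  pair (fstH S T ≫ f) (sndH S T)

theorem Fm_fst (f : S.X ⟶ T.X) : Fm f ≫ fstH T T = fstH S T ≫ f := pair_fst _ _

theorem Fm_snd (f : S.X ⟶ T.X) : Fm f ≫ sndH T T = sndH S T := pair_snd _ _

theorem comap_over {X Y Z : SmProj k} {σ : Type} (a : Sec Z.X.left σ) (f : X.X ⟶ Y.X)
    (g : Y.X ⟶ Z.X) : (a.comap g.left).comap f.left = a.comap (f ≫ g).left :=
  (Sec.comap_comp a f.left g.left).symm

theorem Mx_comap (s : Sec T.X.left (Fin (N + 1))) (f : S.X ⟶ T.X)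
    (A B : Fin (T.dim + 1) → Fin (N + 1) → k) :
    (Mx s (𝟙 T.X) A B).comap (Fm f).left = Mx s f A B := by
  unfold Mx
  rw [Sec.minor_comap, Sec.lin_comap, Sec.lin_comap, comap_over, comap_over, Category.comp_id,
    Fm_fst, Fm_snd]

theorem bpf_of_flag {d : ℕ} {a : Sec S.X.left (Fin (d + 1))} (h : Flag a S.gen) (hd : S.dim ≤ d) :
    a.Bpf := by
  intro x
  by_contra hx
  have h1 := h (d + 1) le_rfl x (le_gen x) fun j _ => by
    by_contra hj
    exact hx ⟨j, by simpa only [mem_maximalIdeal, mem_nonunits_iff, not_not] using hj⟩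
  rw [dm_gen] at h1
  omega

theorem lin_bpf {s : Sec T.X.left (Fin (N + 1))} {A : Fin (T.dim + 1) → Fin (N + 1) → k}
    (hA : (s.lin A).Bpf) (g : S.X ⟶ T.X) : ((s.comap g.left).lin A).Bpf := by
  rw [← Sec.lin_comap]
  exact hA.comap _

theorem Mx_gen {s : Sec T.X.left (Fin (N + 1))} {A : Fin (T.dim + 1) → Fin (N + 1) → k}
    (hA : (s.lin A).Bpf) (f : S.X ⟶ T.X) (B : Fin (T.dim + 1) → Fin (N + 1) → k) :
    (Mx s f A B).Gen T.dim := Sec.minor_gen (lin_bpf hA _) _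

/-- The diagonal. -/
noncomputable abbrev dl (T : SmProj k) : T.X ⟶ (T.prod T).X := pair (𝟙 T.X) (𝟙 T.X)

instance closedImmersion_graph (f : S.X ⟶ T.X) : IsClosedImmersion (pair (𝟙 S.X) f).left :=
  isClosedImmersion_of_section _ (fstH S T) (pair_fst _ _)

theorem fst_graph (f : S.X ⟶ T.X) (x : S.X.left) :
    (fstH S T).left ((pair (𝟙 S.X) f).left x) = x := by
  rw [← comp_left_apply, pair_fst]
  rfl

theorem snd_graph (f : S.X ⟶ T.X) (x : S.X.left) :
    (sndH S T).left ((pair (𝟙 S.X) f).left x) = f.left x := by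
  rw [← comp_left_apply, pair_snd]

theorem Fm_graph (f : S.X ⟶ T.X) (x : S.X.left) :
    (Fm f).left ((pair (𝟙 S.X) f).left x) = (dl T).left (f.left x) := by
  rw [← comp_left_apply, ← comp_left_apply]
  have : pair (𝟙 S.X) f ≫ Fm f = f ≫ dl T := prod_ext (by simp [Fm]) (by simp [Fm])
  rw [this]

theorem mem_Dg {f : S.X ⟶ T.X} {z : (S.prod T).X.left} :
    z ∈ (Dg (fstH S T ≫ f) (sndH S T)).supp ↔ z ∈ Set.range (pair (𝟙 S.X) f).left :=
  (isProd_prod S T).mem_supp_Dg (pair_fst _ _) (pair_snd _ _)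

theorem isClosed_int (f : S.X ⟶ T.X) (w : S.X.left) (v : T.X.left) :
    IsClosed {x | x ≤ w ∧ f.left x ≤ v} :=
  (isClosed_le w).inter ((isClosed_le v).preimage f.left.continuous)

theorem intZ_cy (x : S.X.left) : IntZ (cy x) := by
  classical
  intro y
  rw [Finsupp.single_apply]
  split_ifs
  · exact ⟨1, by simp⟩
  · exact ⟨0, by simp⟩

theorem intZ_sub {a b : Zc S} (ha : IntZ a) (hb : IntZ b) : IntZ (a - b) := by
  intro y
  obtain ⟨m, hm⟩ := ha y
  obtain ⟨n, hn⟩ := hb y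
  exact ⟨m - n, by rw [Finsupp.sub_apply, hm, hn, Int.cast_sub]⟩

theorem eq_of_mem_cy {x y : S.X.left} (h : y ∈ (cy x).support) : y = x :=
  Finset.mem_singleton.1 (Finsupp.support_single_subset h)

/-- The properties of a generic first matrix. -/
structure GoodA (s : Sec T.X.left (Fin (N + 1))) (v : T.X.left) (f : S.X ⟶ T.X) (w : S.X.left)
    (A : Fin (T.dim + 1) → Fin (N + 1) → k) : Prop where
  flag : Flag ((s.comap (fstH S T ≫ f).left).lin A) (extPt (fstH S T) (sndH S T) w v)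
  double : ∀ ξ ≤ extPt (fstH S T) (sndH S T) w v, ξ ∈ (Mx s f A A).supp →
    ξ ∉ (Dg (fstH S T ≫ f) (sndH S T)).supp → dm ξ + T.dim ≤ dm (extPt (fstH S T) (sndH S T) w v)
  unram : ∀ x, Maximal (fun t => t ≤ w ∧ f.left t ≤ v) x →
    (Mx s (𝟙 T.X) A A).J ((dl T).left (f.left x)) =
      (Dg (fstH T T ≫ 𝟙 T.X) (sndH T T)).J ((dl T).left (f.left x))

variable [IsAlgClosed k]

theorem rowGen_unram_at {s : Sec T.X.left (Fin (N + 1))} (hb : s.Bpf) (hs : Sep s) (y : T.X.left) :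
    RowGen k (T.dim + 1) fun A : ℕ → Fin (N + 1) → k =>
      (Mx s (𝟙 T.X) (rows T.dim A) (rows T.dim A)).J ((dl T).left y) =
        (Dg (fstH T T ≫ 𝟙 T.X) (sndH T T)).J ((dl T).left y) := by
  obtain ⟨y₀, h1, h2⟩ := (isClosed_le y).exists_closed_singleton ⟨y, le_refl y⟩
  have h3 : IsClosed {(dl T).left y₀} := by
    rw [← dm_eq_zero_iff] at h2 ⊢
    have := dm_map_le (dl T) y₀
    omega
  have h4 := rowGen_unram (hb.comap (fstH T T ≫ 𝟙 T.X).left) (hb.comap (sndH T T).left)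
    (d := T.dim) (by rw [hs]; exact Dg_gen _ _) h3 (by rw [hs]; exact mem_Dg.2 ⟨y₀, rfl⟩)
  refine h4.mono fun A hA => ?_
  rw [hs] at hA
  have h5 : (dl T).left y₀ ≤ (dl T).left y := map_le _ h1
  rw [IF.spec _ h5, IF.spec _ h5]
  exact congrArg _ hA

theorem rowGen_goodA {s : Sec T.X.left (Fin (N + 1))} (hb : s.Bpf) (hs : Sep s) (v : T.X.left)
    (f : S.X ⟶ T.X) (w : S.X.left) :
    RowGen k (T.dim + 1) fun A : ℕ → Fin (N + 1) → k => GoodA s v f w (rows T.dim A) := by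
  have hfin : Finite {x // Maximal (fun t => t ≤ w ∧ f.left t ≤ v) x} :=
    (finite_maximal (isClosed_int f w v)).to_subtype
  have h1 := rowGen_flag (hb.comap (fstH S T ≫ f).left) (extPt (fstH S T) (sndH S T) w v) T.dim
  have h2 := rowGen_double (hb.comap (fstH S T ≫ f).left) (s.comap (sndH S T).left)
    (extPt (fstH S T) (sndH S T) w v) T.dim
  have h3 := RowGen.all fun x : {x // Maximal (fun t => t ≤ w ∧ f.left t ≤ v) x} =>
    rowGen_unram_at hb hs (f.left x.1)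
  refine (h1.and (h2.and h3)).mono fun A hA => ⟨hA.1, ?_, fun x hx => hA.2.2 ⟨x, hx⟩⟩
  have := hA.2.1
  rw [hs] at this
  exact this

theorem GoodA.pr {s : Sec T.X.left (Fin (N + 1))} {v : T.X.left} {f : S.X ⟶ T.X} {w : S.X.left}
    {A : Fin (T.dim + 1) → Fin (N + 1) → k} (h : GoodA s v f w A) (hp : PrI f w v) :
    (Mx s f A A).Pr T.dim (extPt (fstH S T) (sndH S T) w v) := by
  intro ξ h1 h2
  by_cases h3 : ξ ∈ (Dg (fstH S T ≫ f) (sndH S T)).supp
  · exact (isProd_prod S T).pr_Dg_iff.2 hp ξ h3 h2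
  · exact h.double ξ h2 h1 h3

/-- The cone over `v`, cut with `T`. -/
noncomputable def Cone (s : Sec T.X.left (Fin (N + 1))) (A B : Fin (T.dim + 1) → Fin (N + 1) → k)
    (v : T.X.left) : Zc T :=
  pushZ (fstH T T).left
    ((Mx s (𝟙 T.X) A B).cut T.dim (cy (extPt (fstH T T) (sndH T T) T.gen v)))

omit [IsAlgClosed k] in
theorem Cone_eq (s : Sec T.X.left (Fin (N + 1))) (A B : Fin (T.dim + 1) → Fin (N + 1) → k)
    (v : T.X.left) :
    Cone s A B v = actM (fstH T T) (sndH T T) (Mx s (𝟙 T.X) A B) T.dim (cy T.gen) (cy v) := by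
  rw [actM_apply, extZ_cy, Cone]

omit [IsAlgClosed k] in
theorem intZ_Cone (s : Sec T.X.left (Fin (N + 1))) (A B : Fin (T.dim + 1) → Fin (N + 1) → k)
    (v : T.X.left) : IntZ (Cone s A B v) :=
  (IF.intZ_cut (intZ_cy _)).pushZ _

theorem act_Cone {s : Sec T.X.left (Fin (N + 1))} {A B : Fin (T.dim + 1) → Fin (N + 1) → k}
    (hA : (s.lin A).Bpf) {v : T.X.left} {f : S.X ⟶ T.X} {w : S.X.left}
    (h : (Mx s f A B).Pr T.dim (extPt (fstH S T) (sndH S T) w v)) :
    act f (cy w) (Cone s A B v) = pushZ (fstH S T).left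
        ((Mx s f A B).cut T.dim (cy (extPt (fstH S T) (sndH S T) w v))) ∧
      PrA f (cy w) (Cone s A B v) := by
  have key := actM_act (isProd_prod S T) (isProd_prod T T) (Fm_fst f) (Fm_snd f)
    (Mx_gen hA (𝟙 T.X) B) (α := cy w) (β := cy T.gen) (υ := cy v) (by
      intro w' hw b hb t ht z hz h1 _ h3
      rw [eq_of_mem_cy hw] at h1 ⊢
      rw [eq_of_mem_cy ht] at h3 ⊢
      rw [eq_of_mem_cy hb, dm_gen]
      rw [Mx_comap] at hz
      have h4 := h z hz ((isProd_prod S T).le_ext.2 ⟨h1, h3⟩)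
      rw [(isProd_prod S T).dm_ext] at h4
      omega)
  rw [← Cone_eq, act_gen, Mx_comap, actM_apply, extZ_cy] at key
  exact ⟨key.1.symm, key.2⟩

theorem push_sub_mem {s : Sec T.X.left (Fin (N + 1))} {A B : Fin (T.dim + 1) → Fin (N + 1) → k}
    (hA : (s.lin A).Bpf) {f : S.X ⟶ T.X} {ζ : (S.prod T).X.left}
    (h : (Mx s f A A).Pr T.dim ζ) (h' : (Mx s f A B).Pr T.dim ζ) :
    pushZ (fstH S T).left ((Mx s f A A).cut T.dim (cy ζ)) -
      pushZ (fstH S T).left ((Mx s f A B).cut T.dim (cy ζ)) ∈ ratP S.X.left := by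
  rw [← map_sub]
  exact push_mem_ratP _ (pencil_mem (lin_bpf hA _) _ A B h h')

theorem dm_of_comp {M : IF (T.prod T).X.left} (hM : M.Gen T.dim) {v : T.X.left}
    (h : M.Pr T.dim (extPt (fstH T T) (sndH T T) T.gen v)) {y : (T.prod T).X.left}
    (hy : M.Comp (extPt (fstH T T) (sndH T T) T.gen v) y) : dm y = dm v := by
  have h1 := ((h.comp_iff hM).1 hy).2.2
  rw [(isProd_prod T T).dm_ext, dm_gen] at h1
  omega

theorem dm_Cone {s : Sec T.X.left (Fin (N + 1))} {A B : Fin (T.dim + 1) → Fin (N + 1) → k}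
    (hA : (s.lin A).Bpf) {v : T.X.left}
    (h : (Mx s (𝟙 T.X) A B).Pr T.dim (extPt (fstH T T) (sndH T T) T.gen v)) {x : T.X.left}
    (hx : x ∈ (Cone s A B v).support) : dm x = dm v := by
  obtain ⟨y, h1, -, h3⟩ := mem_support_pushZ hx
  rw [← h3]
  exact dm_of_comp (Mx_gen hA _ B) h (IF.comp_of_mem_cut h1)

omit [IsAlgClosed k] in
theorem prI_gen (v : T.X.left) : PrI (𝟙 T.X) T.gen v := by
  intro x _ h
  have h1 : dm x ≤ dm v := dm_mono h
  rw [dm_gen]
  omega

omit [IsAlgClosed k] in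
theorem maximal_gen (v : T.X.left) :
    Maximal (fun t => t ≤ T.gen ∧ (𝟙 T.X : T.X ⟶ T.X).left t ≤ v) v :=
  ⟨⟨le_gen v, le_refl v⟩, fun _ h _ => h.2⟩

omit [IsAlgClosed k] in
theorem push_dl (v : T.X.left) : pushZ (fstH T T).left (cy ((dl T).left v)) = cy v := by
  have h1 : pushZ (dl T).left (cy v) = cy ((dl T).left v) := by
    rw [pushZ_single, residueDegree_of_closedImmersion, Nat.cast_one, mul_one]
  have h2 : (dl T).left ≫ (fstH T T).left = 𝟙 _ :=
    congrArg (fun g : T.X ⟶ T.X => g.left) (pair_fst (𝟙 T.X) (𝟙 T.X))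
  rw [← h1, ← pushZ_comp, h2, pushZ_id]

/-- The residual cycle comes from components off the diagonal. -/
theorem mem_residual {s : Sec T.X.left (Fin (N + 1))} {A : Fin (T.dim + 1) → Fin (N + 1) → k}
    (hA : (s.lin A).Bpf) {v : T.X.left} (h : GoodA s v (𝟙 T.X) T.gen A) {r : T.X.left}
    (hr : r ∈ (Cone s A A v - cy v).support) :
    dm r = dm v ∧ ∃ y ∈ (Mx s (𝟙 T.X) A A).supp, (fstH T T).left y = r ∧ (sndH T T).left y ≤ v ∧
      y ∉ (Dg (fstH T T ≫ 𝟙 T.X) (sndH T T)).supp := by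
  have hp := h.pr (prI_gen v)
  have h1 : (Mx s (𝟙 T.X) A A).cut T.dim (cy (extPt (fstH T T) (sndH T T) T.gen v))
      ((dl T).left v) = 1 := by
    have h2 := h.unram v (maximal_gen v)
    have h3 := act_apply (𝟙 T.X) T.gen v v
    rw [gen_act, Finsupp.single_eq_same, icm] at h3
    rw [IF.cut_single_apply, h3]
    exact congrArg _ (IF.cm_congr (Mx_gen hA _ A) (Dg_gen _ _) (congrArg (· ⊔ _) h2))
  rw [Cone, ← push_dl v, ← map_sub] at hr
  obtain ⟨y, h2, h3, h4⟩ := mem_support_pushZ hr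
  have h5 : y ≠ (dl T).left v := by
    rintro rfl
    rw [Finsupp.mem_support_iff, Finsupp.sub_apply, h1, Finsupp.single_eq_same, sub_self] at h2
    exact h2 rfl
  have h6 : (Mx s (𝟙 T.X) A A).Comp (extPt (fstH T T) (sndH T T) T.gen v) y := by
    refine IF.comp_of_mem_cut (d := T.dim) ?_
    rw [Finsupp.mem_support_iff, Finsupp.sub_apply, Finsupp.single_eq_of_ne h5, sub_zero] at h2
    exact Finsupp.mem_support_iff.2 h2
  have h7 := dm_of_comp (Mx_gen hA _ A) hp h6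
  have h8 := ((isProd_prod T T).le_ext.1 h6.1.2).2
  refine ⟨h4 ▸ h7, y, h6.1.1, h3, h8, fun h9 => h5 ?_⟩
  obtain ⟨t, rfl⟩ := mem_Dg.1 h9
  rw [snd_graph] at h8
  rw [dm_map_of_closedImmersion] at h7
  exact congrArg _ (eq_of_le_of_dm_le h8 h7.ge)

/-- The excess drops. -/
theorem excess {s : Sec T.X.left (Fin (N + 1))} {A : Fin (T.dim + 1) → Fin (N + 1) → k}
    {v : T.X.left} {f : S.X ⟶ T.X} {w : S.X.left} (h : GoodA s v f w A) {n : ℕ}
    (H : ∀ x ≤ w, f.left x ≤ v → dm x + T.dim ≤ dm w + dm v + (n + 1))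
    {y : (T.prod T).X.left} (h1 : y ∈ (Mx s (𝟙 T.X) A A).supp) (h2 : (sndH T T).left y ≤ v)
    (h3 : y ∉ (Dg (fstH T T ≫ 𝟙 T.X) (sndH T T)).supp) {x : S.X.left} (hx : x ≤ w)
    (hx' : f.left x ≤ (fstH T T).left y) : dm x + T.dim ≤ dm w + dm v + n := by
  obtain ⟨y', h4, h5⟩ := exists_le_of_le_map (fstH T T).left hx'
  obtain ⟨z, h6, h7⟩ := Scheme.exists_preimage_of_isPullback
    ((isProd_prod T T).isPullback (isProd_prod S T) (Fm_fst f) (Fm_snd f)) y' x h5
  have h6' : (Fm f).left z = y' := h6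
  have h7' : (fstH S T).left z = x := h7
  have h8 : (sndH S T).left z ≤ v := by
    rw [← Fm_snd f, comp_left_apply, h6']
    exact (map_le _ h4).trans h2
  have h9 : z ∈ (Mx s f A A).supp := by
    rw [← Mx_comap, IF.mem_supp_comap, h6']
    exact mem_closed_of_le (IF.isClosed_supp _) h4 h1
  by_cases hz : z ∈ (Dg (fstH S T ≫ f) (sndH S T)).supp
  · obtain ⟨t, rfl⟩ := mem_Dg.1 hz
    rw [fst_graph] at h7'
    subst h7'
    rw [snd_graph] at h8
    rw [Fm_graph] at h6'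
    obtain ⟨x₀, h10, h11⟩ := exists_maximal (isClosed_int f w v) (x := t) ⟨hx, h8⟩
    by_cases he : t = x₀
    · subst he
      exfalso
      apply h3
      rw [← h6'] at h4
      rw [IF.mem_supp, IF.spec _ h4] at h1 ⊢
      rwa [← h.unram t h11]
    · have h12 := dm_lt h10 he
      have h13 := H x₀ h11.1.1 h11.1.2
      omega
  · have h10 := h.double z ((isProd_prod S T).le_ext.2 ⟨h7' ▸ hx, h8⟩) h9 hz
    have h11 := dm_map_le (fstH S T) z
    rw [(isProd_prod S T).dm_ext] at h10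
    rw [h7'] at h11
    omega

end StepA

variable {k : Type u} [Field k] [IsAlgClosed k] {T : SmProj k}

open StepA in
/-- One step: `v` is equivalent to a cycle in general position minus a cycle of smaller excess. -/
theorem moving_step {ι : Type u} [Finite ι] (S : ι → SmProj k) (f : ∀ i, (S i).X ⟶ T.X)
    (w : ∀ i, (S i).X.left) (v : T.X.left) :
    ∃ G R : Zc T, IntZ G ∧ IntZ R ∧ (∀ x ∈ G.support, dm x = dm v) ∧
      (∀ x ∈ R.support, dm x = dm v) ∧ cy v + R - G ∈ ratP T.X.left ∧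
      (∀ i, PrA (f i) (cy (w i)) G) ∧
      (∀ i n, (∀ x ≤ w i, (f i).left x ≤ v → dm x + T.dim ≤ dm (w i) + dm v + (n + 1)) →
        ∀ r ∈ R.support, ∀ x ≤ w i, (f i).left x ≤ r → dm x + T.dim ≤ dm (w i) + dm v + n) ∧
      ∀ i, PrI (f i) (w i) v → act (f i) (cy (w i)) (cy v + R - G) ∈ ratP (S i).X.left := by
  obtain ⟨N, s, hb, hs⟩ := exists_coord T
  obtain ⟨A', hA, hT, hS⟩ := ((rowGen_flag hb T.gen T.dim).and
    ((rowGen_goodA hb hs v (𝟙 T.X) T.gen).and
      (RowGen.all fun i => rowGen_goodA hb hs v (f i) (w i)))).exists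
  generalize rows T.dim A' = A at hA hT hS
  replace hA := bpf_of_flag hA le_rfl
  obtain ⟨B', hT', hS'⟩ := ((rowGen_pr hT.flag (hb.comap (sndH T T).left)).and
    (RowGen.all fun i => rowGen_pr (hS i).flag (hb.comap (sndH (S i) T).left))).exists
  generalize rows T.dim B' = B at hT' hS'
  have e : cy v + (Cone s A A v - cy v) - Cone s A B v = Cone s A A v - Cone s A B v := by abel
  refine ⟨Cone s A B v, Cone s A A v - cy v, intZ_Cone _ _ _ _, intZ_sub (intZ_Cone _ _ _ _) (intZ_cy _),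
    fun x hx => dm_Cone hA hT' hx, fun x hx => (mem_residual hA hT hx).1, ?_,
    fun i => (act_Cone hA (hS' i)).2, fun i n H r hr x hx hx' => ?_, fun i hi => ?_⟩
  · rw [e]
    exact push_sub_mem hA (hT.pr (prI_gen v)) hT'
  · obtain ⟨-, y, h1, rfl, h2, h3⟩ := mem_residual hA hT hr
    exact excess (hS i) H h1 h2 h3 hx hx'
  · rw [e, map_sub, (act_Cone hA ((hS i).pr hi)).1, (act_Cone hA (hS' i)).1]
    exact push_sub_mem hA ((hS i).pr hi) (hS' i)

end Pool.Agent.P.MP_638e8a_ag.Cyc
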