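import Pool.Agent.P.MP_638e8a_ag.ChWeil0
import Pool.Agent.P.MP_638e8a_ag.ChRing
import Pool.Agent.P.MP_638e8a_ag.ChDefs

/-!
Task CHOW WEIL: the cycle class map of a Weil cohomology theory.
-/

open CategoryTheory AlgebraicGeometry IsLocalRing TopologicalSpace

universe u v w

namespace Pool.Agent.P.MP_638e8a_ag.Cyc

open Pool.Agent.P.MP_90138e_ag
open Pool.Agent.P.MP_90138e_ag.WeilCohomology (fstH sndH)

variable {k : Type u} [Field k] [IsAlgClosed k] {K : Type v} [Field K] [CharZero K]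
  {D : CohData.{u, v, w} k K} {X Y : SmProj k}

/-- The cycle class map as an additive map. -/
noncomputable def clsHom (D : CohData.{u, v, w} k K) (X : SmProj k) : Zc X →+ D.H X where
  toFun c := cls (K := K) (D.cl X) c
  map_zero' := Finsupp.sum_zero_index
  map_add' _ _ := Finsupp.sum_add_index' (by simp) fun _ _ _ => by rw [Rat.cast_add, add_smul]

omit [IsAlgClosed k] in
theorem clsHom_apply (c : Zc X) : clsHom D X c = c.sum fun t q => (q : K) • D.cl X t := rfl

omit [IsAlgClosed k] in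
theorem clsHom_single (x : X.X.left) (q : ℚ) :
    clsHom D X (Finsupp.single x q) = (q : K) • D.cl X x := by
  rw [clsHom_apply, Finsupp.sum_single_index (by simp)]

omit [IsAlgClosed k] in
theorem clsHom_cy (x : X.X.left) : clsHom D X (cy x) = D.cl X x := by
  rw [clsHom_single, Rat.cast_one, one_smul]

omit [IsAlgClosed k] in
theorem IsWeil.tr_push (hD : IsWeil D) (f : X.X ⟶ Y.X) (c : Zc X) (y : D.H Y) :
    D.tr Y (clsHom D Y (pushZ f.left c) * y) = D.tr X (clsHom D X c * D.pull f y) := by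
  induction c using Finsupp.induction_linear with
  | zero => simp
  | add a b ha hb => simp only [map_add, add_mul, ha, hb]
  | single x q =>
    rw [pushZ_single, clsHom_single, clsHom_single, smul_mul_assoc, smul_mul_assoc, map_smul,
      map_smul, hD.isCycleMap.push_cl f x y, Rat.cast_mul, Rat.cast_natCast, smul_eq_mul,
      smul_eq_mul, mul_assoc]

theorem IsWeil.cls_ext (hD : IsWeil D) (β : Zc Y) :
    clsHom D (X.prod Y) (extZ (fstH X Y) (sndH X Y) (cy X.gen) β) =
      D.pull (sndH X Y) (clsHom D Y β) := by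
  induction β using Finsupp.induction_linear with
  | zero => simp
  | add a b ha hb => simp only [map_add, ha, hb]
  | single v q =>
    have h1 : (Finsupp.single v q : Zc Y) = q • cy v := by simp
    have h2 : D.cl (X.prod Y) (extPt (fstH X Y) (sndH X Y) X.gen v) =
        D.pull (fstH X Y) (D.cl X X.gen) * D.pull (sndH X Y) (D.cl Y v) :=
      hD.isCycleMap.cl_prod X Y X.gen v _ fun s => (isProd_prod X Y).le_ext
    rw [clsHom_single, h1, map_smul, extZ_cy, Finsupp.smul_single, smul_eq_mul, mul_one,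
      clsHom_single, h2, hD.isCycleMap.cl_generic, map_one, one_mul, map_smul]

omit [IsAlgClosed k] in
theorem IsWeil.cls_rat (hD : IsWeil D) {c : Zc X} (h : c ∈ ratEq X) : clsHom D X c = 0 :=
  hD.isCycleMap.cl_rat X c h

theorem IsWeil.cls_act (hD : IsWeil D) (f : X.X ⟶ Y.X) {α : Zc X} {β : Zc Y} (h : PrA f α β) :
    clsHom D X (act f α β) = clsHom D X α * D.pull f (clsHom D Y β) := by
  obtain ⟨h1, h2⟩ := act_graph (isProd_prod X Y) (pair_fst (𝟙 X.X) f) (pair_snd (𝟙 X.X) f) h
  have h3 : clsHom D (X.prod Y) (act (𝟙 _) (pushZ (pair (𝟙 X.X) f).left α)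
      (extZ (fstH X Y) (sndH X Y) (cy X.gen) β)) =
      clsHom D (X.prod Y) (pushZ (pair (𝟙 X.X) f).left α) *
        clsHom D (X.prod Y) (extZ (fstH X Y) (sndH X Y) (cy X.gen) β) :=
    hD.isCycleMap.cl_inter _ _ _ _ ((isInterCycle_iff _ _ _).2 ⟨h1, rfl⟩)
  refine sub_eq_zero.1 ((hD.isPD X).poincare _ fun y => ?_)
  rw [sub_mul, map_sub, sub_eq_zero, h2, hD.tr_push, h3, hD.cls_ext, mul_assoc, hD.tr_push,
    map_mul (D.pull _), ← hD.isFunctorial.pull_comp, ← hD.isFunctorial.pull_comp, pair_fst, pair_snd,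
    hD.isFunctorial.pull_id, mul_assoc]

omit [IsAlgClosed k] in
theorem IntZ.isIntComb {c : Zc X} (h : IntZ c) : IsIntComb (D.cl X) (clsHom D X c) := by
  refine ⟨c.mapRange Rat.num (by simp), ?_⟩
  rw [Finsupp.sum_mapRange_index (by simp), clsHom_apply]
  refine Finsupp.sum_congr fun t _ => ?_
  obtain ⟨n, hn⟩ := h t
  rw [hn, Rat.num_intCast, Rat.cast_intCast, Int.cast_smul_eq_zsmul]

omit [IsAlgClosed k] in
theorem wl_intZ_cy (x : X.X.left) : IntZ (cy x) := by
  classical
  intro t
  refine ⟨if x = t then 1 else 0, ?_⟩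
  rw [Finsupp.single_apply]
  split_ifs <;> simp

/-- A cycle can be moved into proper position with respect to another one. -/
theorem wl_exists_prA (f : X.X ⟶ Y.X) (α : Zc X) (β : Zc Y) :
    ∃ β' : Zc Y, (IntZ β → IntZ β') ∧ β - β' ∈ ratEq Y ∧ PrA f α β' := by
  obtain ⟨β', h1, -, h2, h3, -⟩ :=
    moving (ι := α.support) (fun _ => X) (fun _ => f) (fun i => i.1) β
  refine ⟨β', h1, ratP_eq Y ▸ h2, fun w hw v hv => ?_⟩
  exact h3 ⟨w, hw⟩ w (by simp) v hv

theorem IsWeil.isIntComb (hD : IsWeil D) (f : X.X ⟶ Y.X) (w : X.X.left) (z : Y.X.left) :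
    IsIntComb (D.cl X) (D.cl X w * D.pull f (D.cl Y z)) := by
  obtain ⟨β', h1, h2, h3⟩ := wl_exists_prA f (cy w) (cy z)
  have h4 := hD.cls_rat h2
  rw [map_sub, sub_eq_zero, clsHom_cy] at h4
  rw [h4, ← clsHom_cy, ← hD.cls_act f h3]
  exact ((wl_intZ_cy w).act (h1 (wl_intZ_cy z)) f).isIntComb

theorem IsWeil.isCycle (hD : IsWeil D) : D.IsCycle where
  cl_deg := hD.isCycleMap.cl_deg
  cl_generic := hD.isCycleMap.cl_generic
  tr_cl := hD.isCycleMap.tr_cl
  push_cl := hD.isCycleMap.push_cl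
  pull_cl {X Y} f z := by
    have h := hD.isIntComb f X.gen z
    rwa [hD.isCycleMap.cl_generic, one_mul] at h
  cl_mul X z z' := by
    have h := hD.isIntComb (𝟙 X.X) z z'
    rwa [hD.isFunctorial.pull_id] at h

theorem IsWeil.isInter (hD : IsWeil D) : D.IsInter where
  cl_inter X z z' h := by
    have h1 : PrA (𝟙 X.X) (cy z) (cy z') := by
      refine (proper_iff _ _).1 fun a ha b hb t ht => ?_
      obtain rfl := Finset.mem_singleton.1 (Finsupp.support_single_subset ha)
      obtain rfl := Finset.mem_singleton.1 (Finsupp.support_single_subset hb)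
      exact h t ht
    have h2 : PrI (𝟙 X.X) z z' := h1 z (by simp) z' (by simp)
    refine ⟨(act (𝟙 X.X) (cy z) (cy z')).mapRange (fun q => q.num.toNat) (by simp),
      fun t => ?_, ?_⟩
    · rw [Finsupp.mapRange_apply, act_apply, Rat.num_intCast]
      constructor
      · intro h3
        by_contra h4
        exact h3 (by rw [icm_eq_zero (f := 𝟙 X.X) h4]; rfl)
      · intro h3
        have := icm_pos (x := t) h2 h3
        omega
    · have h3 := hD.cls_act _ h1
      rw [clsHom_cy, clsHom_cy, hD.isFunctorial.pull_id] at h3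
      rw [← h3, Finsupp.sum_mapRange_index (by simp), clsHom_apply]
      refine Finsupp.sum_congr fun t _ => ?_
      rw [act_apply, Rat.num_intCast, Rat.cast_intCast, Int.cast_smul_eq_zsmul, ← natCast_zsmul,
        Int.toNat_of_nonneg (icm_nonneg _ _ _ _)]
  cl_div X φ c hφ hc := by
    have h1 : c.mapRange (Int.cast : ℤ → ℚ) Int.cast_zero ∈ ratEq X :=
      Submodule.subset_span ⟨X.X.left, inferInstance, inferInstance, 𝟙 _, inferInstance, φ, hφ,
        fun t => by rw [Finsupp.mapRange_apply, ← hc]; rfl, fun x hx => (hx ⟨x, rfl⟩).elim⟩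
    have h2 := hD.cls_rat h1
    rw [clsHom_apply, Finsupp.sum_mapRange_index (by simp)] at h2
    rw [← h2]
    refine Finsupp.sum_congr fun t _ => ?_
    rw [Rat.cast_intCast, Int.cast_smul_eq_zsmul]

/-- The theory with the derived properties of the cycle class map. -/
noncomputable def IsWeil.toWeil (hD : IsWeil D) : WeilCohomology.{u, v, w} k K where
  toCohData := D
  isFunctorial := hD.isFunctorial
  isPD := hD.isPD
  isKunneth := hD.isKunneth
  isCycle := hD.isCycle
  isInter := hD.isInter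

omit [IsAlgClosed k] in
theorem wl_clZ_eq_iff (T : ChowTheory k) {a b : Zc X} : clZ T X a = clZ T X b ↔ a - b ∈ ratEq X := by
  rw [← T.cl_ker, LinearMap.mem_ker, map_sub, sub_eq_zero]
  rfl

omit [IsAlgClosed k] in
theorem wl_clZ_cy (T : ChowTheory k) (x : X.X.left) : clZ T X (cy x) = T.cl X x := by
  simp [clZ]

omit [IsAlgClosed k] in
theorem IsWeil.exists_lift (hD : IsWeil D) (T : ChowTheory k) (X : SmProj k) :
    ∃ g : T.A X →+ D.H X, ∀ c, g (clZ T X c) = clsHom D X c := by
  have hs : Function.Surjective (clZ T X).toAddMonoidHom := T.cl_surjective X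
  refine ⟨(clZ T X).toAddMonoidHom.liftOfSurjective hs ⟨clsHom D X, fun c hc => ?_⟩, fun c => ?_⟩
  · have h1 : clZ T X c = clZ T X 0 := by rw [map_zero]; exact hc
    rw [wl_clZ_eq_iff, sub_zero] at h1
    exact hD.cls_rat h1
  · exact AddMonoidHom.liftOfRightInverse_comp_apply _ _ _ _ c

theorem IsWeil.exists_cycleMap (hD : IsWeil D) {T : ChowTheory k} (hT : IsStd T) :
    ∃ R : CycleMap T hD.toWeil, ∀ X c, R.γ X (clZ T X c) = clsHom D X c := by
  choose g hg using hD.exists_lift T
  have key : ∀ {X Y : SmProj k} (f : X.X ⟶ Y.X) (x : T.A X) (y : T.A Y),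
      g X (x * T.pull f y) = g X x * D.pull f (g Y y) := by
    intro X Y f x y
    obtain ⟨α, rfl⟩ : ∃ α, clZ T X α = x := T.cl_surjective X x
    obtain ⟨β, rfl⟩ : ∃ β, clZ T Y β = y := T.cl_surjective Y y
    obtain ⟨β', -, h2, h3⟩ := wl_exists_prA f α β
    rw [(wl_clZ_eq_iff T).2 h2, ← hT X Y f α β' h3, hg, hg, hg, hD.cls_act f h3]
  have h1 : ∀ X, g X 1 = 1 := fun X => by
    rw [← T.cl_gen X, ← wl_clZ_cy, hg, clsHom_cy, hD.isCycleMap.cl_generic]
  refine ⟨⟨fun X => { g X with map_one' := h1 X, map_mul' := fun x y => ?_ }, fun X z => ?_,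
    fun {X Y} f y => ?_⟩, fun X c => hg X c⟩
  · have h := key (𝟙 X.X) x y
    rw [T.pull_id, hD.isFunctorial.pull_id] at h
    exact h
  · have h := hg X (cy z)
    rw [wl_clZ_cy, clsHom_cy] at h
    exact h
  · have h := key f 1 y
    rw [one_mul, h1, one_mul] at h
    exact h

end Pool.Agent.P.MP_638e8a_ag.Cyc
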