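import Pool.Agent.P.MP_638e8a_ag.ChAct
import Pool.Agent.P.MP_638e8a_ag.ChDefs

/-!
Task CHOW WEIL0: comparison of the intersection cycles.
-/

open CategoryTheory AlgebraicGeometry IsLocalRing TopologicalSpace

universe u v w

namespace Pool.Agent.P.MP_638e8a_ag.Cyc

open Pool.Agent.P.MP_90138e_ag
open Pool.Agent.P.MP_90138e_ag.WeilCohomology (fstH sndH)

variable {k : Type u} [Field k] [IsAlgClosed k] {K : Type v} [Field K] [CharZero K]
  {D : CohData.{u, v, w} k K} {X Y : SmProj k}

theorem icm_id (X : SmProj k) {z z' t : X.X.left} (h : IsComponent z z' t) :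
    icm (𝟙 X.X) z z' t = imult X z z' t := by
  have hP := isProd_prod X X
  have h1 := pair_fst (𝟙 X.X) (𝟙 X.X)
  have h2 := pair_snd (𝟙 X.X) (𝟙 X.X)
  have e1 : ∀ s, (fstH X X).left ((pair (𝟙 X.X) (𝟙 X.X)).left s) = s := fun s => by
    rw [← comp_left_apply, h1]
    rfl
  have e2 : ∀ s, (sndH X X).left ((pair (𝟙 X.X) (𝟙 X.X)).left s) = s := fun s => by
    rw [← comp_left_apply, h2]
    rfl
  have hc : (Dg (fstH X X ≫ 𝟙 X.X) (sndH X X)).Comp (extPt (fstH X X) (sndH X X) z z')
      ((pair (𝟙 X.X) (𝟙 X.X)).left t) := by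
    refine ⟨⟨(hP.mem_supp_Dg h1 h2).2 ⟨t, rfl⟩, hP.le_ext.2 ?_⟩, ?_⟩
    · rw [e1, e2]
      exact h.1
    · rintro s ⟨hs, hs'⟩ hts
      obtain ⟨s, rfl⟩ := (hP.mem_supp_Dg h1 h2).1 hs
      have h3 := hP.le_ext.1 hs'
      have h4 := map_le (fstH X X).left hts
      rw [e1, e2] at h3
      rw [e1, e1] at h4
      exact map_le _ (h.2 h3 h4)
  have h5 := congrArg (fun I => I.J ((pair (𝟙 X.X) (𝟙 X.X)).left t)) (hP.prime_ext z z')
  rw [icm, IF.cm_of_comp _ hc, hP.Dg_graph h1 h2, IF.prime_J, ← ker_stm]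
  exact congrArg (emI X.dim _) h5

theorem proper_iff (α β : Zc X) : Proper α β ↔ PrA (𝟙 X.X) α β := by
  have key : ∀ z z' t : X.X.left, Order.coheight t = Order.coheight z + Order.coheight z' ↔
      X.dim - dm t = X.dim - dm z + (X.dim - dm z') := fun z z' t => by
    rw [coheight_eq, coheight_eq, coheight_eq, ← Nat.cast_add, Nat.cast_inj]
  refine forall₂_congr fun z _ => forall₂_congr fun z' _ => ⟨fun h => ?_, fun h t ht => ?_⟩
  · refine prI_of_maximal fun t ht => ?_
    have h1 := (key z z' t).1 (h t ht)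
    have := dm_le_dim z
    have := dm_le_dim z'
    have := dm_le_dim t
    omega
  · have h1 := h t ht.1.1 ht.1.2
    have h2 := dm_ge_of_maximal (f := 𝟙 X.X) ht
    have := dm_le_dim z
    have := dm_le_dim z'
    have := dm_le_dim t
    rw [key]
    omega

theorem isInterCycle_iff (α β γ : Zc X) :
    IsInterCycle (imult X) α β γ ↔ PrA (𝟙 X.X) α β ∧ γ = act (𝟙 X.X) α β := by
  classical
  have e : ∀ c : Zc X, c = c.sum fun z a => a • cy z := fun c => by
    simp only [cy, Finsupp.smul_single, smul_eq_mul, mul_one, Finsupp.sum_single]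
  have key : ∀ t, act (𝟙 X.X) α β t = α.sum fun z a => β.sum fun z' b =>
      if IsComponent z z' t then a * b * imult X z z' t else 0 := fun t => by
    conv_lhs => rw [e α, e β]
    simp only [Finsupp.sum, map_sum, map_smul, LinearMap.sum_apply, LinearMap.smul_apply,
      Finsupp.finsetSum_apply, Finsupp.smul_apply, smul_eq_mul, act_apply, Finset.mul_sum]
    rw [Finset.sum_comm]
    refine Finset.sum_congr rfl fun z _ => Finset.sum_congr rfl fun z' _ => ?_
    split_ifs with h
    · rw [icm_id X h]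
      ring
    · rw [icm_eq_zero (f := 𝟙 X.X) h]
      simp
  rw [IsInterCycle, proper_iff]
  refine and_congr_right fun _ => ?_
  simp only [← key]
  exact Finsupp.ext_iff.symm

end Pool.Agent.P.MP_638e8a_ag.Cyc
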