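import Pool.Agent.P.MP_638e8a_ag.Defs0

/-!
Chow rings with rational coefficients, composition of correspondences, cycle class maps.
Subvarieties are identified with their generic points; `x ≤ t` means that `x` lies in the closure
of `t`, and `coheight t` is the codimension of the closure of `t`.
-/

open CategoryTheory AlgebraicGeometry MonoidalCategory CartesianMonoidalCategory Order

universe u v w

namespace Pool.Agent.P.MP_638e8a_ag

open Pool.Agent.P.MP_90138e_ag

section Axioms

variable {k : Type u} [Field k] {A : SmProj k → Type u} [∀ X, CommRing (A X)]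
  [∀ X, Algebra ℚ (A X)]

/-- `A X` is the group of cycles modulo rational equivalence, the product is graded by
codimension with unit `[X]`, and a prime divisor `D` meets a subvariety `z` not contained in it
in an effective cycle supported on the components of the intersection. -/
structure ProductAxioms (cl : ∀ X : SmProj k, X.X.left → A X) : Prop where
  cl_surjective : ∀ X, Function.Surjective (Finsupp.linearCombination ℚ (cl X))
  cl_ker : ∀ X, LinearMap.ker (Finsupp.linearCombination ℚ (cl X)) = ratEq X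
  cl_generic : ∀ X : SmProj k, cl X (genericPoint X.X.left) = 1
  mul_codim : ∀ (X : SmProj k) z z', cl X z * cl X z' ∈
    Submodule.span ℚ (cl X '' {t | coheight t = coheight z + coheight z'})
  mul_divisor : ∀ (X : SmProj k) (D z : X.X.left), coheight D = 1 → ¬ z ≤ D →
    ∃ m : X.X.left →₀ ℕ, (∀ t ∈ m.support, t ≤ D ∧ t ≤ z ∧ coheight t = coheight z + 1) ∧
      cl X D * cl X z = m.sum fun t n => n • cl X t

/-- Pull-back is functorial, preserves codimension, and sends `[Z]` to `[Z × Y]` along the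
projection `X × Y → X`. -/
structure PullAxioms (cl : ∀ X : SmProj k, X.X.left → A X)
    (pull : ∀ {X Y : SmProj k}, (X.X ⟶ Y.X) → A Y → A X) : Prop where
  pull_id : ∀ (X : SmProj k) x, pull (𝟙 X.X) x = x
  pull_comp : ∀ {X Y Z : SmProj k} (f : X.X ⟶ Y.X) (g : Y.X ⟶ Z.X) x,
    pull (f ≫ g) x = pull f (pull g x)
  pull_codim : ∀ {X Y : SmProj k} (f : X.X ⟶ Y.X) z, pull f (cl Y z) ∈
    Submodule.span ℚ (cl X '' {t | coheight t = coheight z})
  pull_fst : ∀ (X Y : SmProj k) (z : (X.prod Y).X.left),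
    (∀ t, (fst X.X Y.X).left t = (fst X.X Y.X).left z → t ≤ z) →
    pull (X := X.prod Y) (fst X.X Y.X) (cl X ((fst X.X Y.X).left z)) = cl (X.prod Y) z

/-- Push-forward of cycles, the projection formula, and base change along the projection
`X × Y → X`. -/
structure PushAxioms (cl : ∀ X : SmProj k, X.X.left → A X)
    (pull : ∀ {X Y : SmProj k}, (X.X ⟶ Y.X) → A Y → A X)
    (push : ∀ {X Y : SmProj k}, (X.X ⟶ Y.X) → A X → A Y) : Prop where
  push_cl : ∀ {X Y : SmProj k} (f : X.X ⟶ Y.X) z,
    push f (cl X z) = f.left.residueDegree z • cl Y (f.left z)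
  push_codim : ∀ {X Y : SmProj k} (f : X.X ⟶ Y.X) z, push f (cl X z) ∈
    Submodule.span ℚ (cl Y '' {t | coheight t + X.dim = coheight z + Y.dim})
  projection : ∀ {X Y : SmProj k} (f : X.X ⟶ Y.X) x y, push f (x * pull f y) = push f x * y
  base_change : ∀ {X X' : SmProj k} (f : X'.X ⟶ X.X) (Y : SmProj k) x,
    pull (X := X.prod Y) (fst X.X Y.X) (push f x) =
      push (X := X'.prod Y) (Y := X.prod Y) (f ▷ Y.X) (pull (X := X'.prod Y) (fst X'.X Y.X) x)

end Axioms

/-- The Chow rings `A X = CH(X) ⊗ ℚ` of smooth projective `k`-varieties: cycles modulo rational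
equivalence, with the intersection product, pull-back and push-forward and their standard
formal properties. -/
structure ChowTheory (k : Type u) [Field k] where
  A : SmProj k → Type u
  [ring : ∀ X, CommRing (A X)]
  [algebra : ∀ X, Algebra ℚ (A X)]
  cl : ∀ X : SmProj k, X.X.left → A X
  pull : ∀ {X Y : SmProj k}, (X.X ⟶ Y.X) → (A Y →ₐ[ℚ] A X)
  push : ∀ {X Y : SmProj k}, (X.X ⟶ Y.X) → (A X →ₗ[ℚ] A Y)
  productAxioms : ProductAxioms cl
  pullAxioms : PullAxioms cl fun f y => pull f y
  pushAxioms : PushAxioms cl (fun f y => pull f y) fun f x => push f x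

attribute [instance] ChowTheory.ring ChowTheory.algebra

namespace ChowTheory

variable {k : Type u} [Field k] (T : ChowTheory k)

/-- `CH^j(X) ⊗ ℚ`: the span of the classes of subvarieties of codimension `j`. -/
def CH (X : SmProj k) (j : ℕ) : Submodule ℚ (T.A X) :=
  Submodule.span ℚ (T.cl X '' {z | coheight z = j})

/-- The class of the diagonal. -/
noncomputable def diag (X : SmProj k) : T.A (X.prod X) :=
  T.push (Y := X.prod X) (lift (𝟙 X.X) (𝟙 X.X)) 1

/-- Composition of correspondences: `β ∘ α = p_{XZ *} (p_{XY}^* α · p_{YZ}^* β)`, computed on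
`(X × Z) × Y`. -/
noncomputable def comp {X Y Z : SmProj k} (β : T.A (Y.prod Z)) (α : T.A (X.prod Y)) :
    T.A (X.prod Z) :=
  T.push (X := (X.prod Z).prod Y) (fst (X.prod Z).X Y.X)
    (T.pull (X := (X.prod Z).prod Y) (Y := X.prod Y)
        (lift (fst (X.prod Z).X Y.X ≫ fst X.X Z.X) (snd (X.prod Z).X Y.X)) α *
      T.pull (X := (X.prod Z).prod Y) (Y := Y.prod Z)
        (lift (snd (X.prod Z).X Y.X) (fst (X.prod Z).X Y.X ≫ snd X.X Z.X)) β)

end ChowTheory

variable {k : Type u} [Field k] [IsAlgClosed k] {K : Type v} [Field K] [CharZero K]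

/-- The cycle class maps of `W` on Chow rings: ring homomorphisms compatible with pull-back. -/
structure CycleMap (T : ChowTheory k) (W : WeilCohomology.{u, v, w} k K) where
  γ : ∀ X, T.A X →+* W.H X
  γ_cl : ∀ X z, γ X (T.cl X z) = W.cl X z
  γ_pull : ∀ {X Y : SmProj k} (f : X.X ⟶ Y.X) y, γ X (T.pull f y) = W.pull f (γ Y y)

/-- `H^i(Y)` is motivated by curves: an algebraic correspondence `u` maps a cohomology group
`e H^a(X)` of a homological motive `(X, e)`, with `X` of curve type, bijectively onto `H^i(Y)`. -/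
def Motivated (W : WeilCohomology.{u, v, w} k K) (Y : SmProj k) (i : ℕ) : Prop :=
  ∃ (X : SmProj k) (a : ℕ) (e : W.H X →ₗ[K] W.H X) (u : W.H X →ₗ[K] W.H Y),
    W.CurveType X ∧ (∃ ε ∈ W.C (X.prod X) X.dim, W.Induces ε e) ∧ W.IsCorr u ∧
      MapsSummandOnto e u (W.deg X a) (W.deg Y i)

/-- `Y` has a Chow-Kuenneth decomposition. -/
def HasCK {T : ChowTheory k} {W : WeilCohomology.{u, v, w} k K} (R : CycleMap T W)
    (Y : SmProj k) : Prop :=
  ∃ π : Fin (2 * Y.dim + 1) → T.A (Y.prod Y), (∀ n, π n ∈ T.CH (Y.prod Y) Y.dim) ∧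
    (∀ m n, T.comp (π m) (π n) = if m = n then π n else 0) ∧ ∑ n, π n = T.diag Y ∧
    ∀ n, ∃ P : W.H Y →ₗ[K] W.H Y, W.Induces (R.γ (Y.prod Y) (π n)) P ∧
      IsProjectorOnto (W.deg Y) n P

end Pool.Agent.P.MP_638e8a_ag
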