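import Pool.Agent.P.MP_90138e_ag.Defs

/-!
Rational equivalence, and two notions of linear algebra.
-/

open CategoryTheory AlgebraicGeometry

universe u v w

namespace Pool.Agent.P.MP_638e8a_ag

open Pool.Agent.P.MP_90138e_ag

/-- The cycles with rational coefficients that are rationally equivalent to zero: the span of the
divisors of the nonzero rational functions on the closed subvarieties of `X`. -/
noncomputable def ratEq {k : Type u} [Field k] (X : SmProj k) : Submodule ℚ (X.X.left →₀ ℚ) :=
  Submodule.span ℚ {c | ∃ (V : Scheme.{u}) (_ : IsIntegral V) (_ : IsLocallyNoetherian V)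
    (i : V ⟶ X.X.left) (_ : IsClosedImmersion i) (φ : V.functionField), φ ≠ 0 ∧
    (∀ t, c (i t) = V.ord φ t) ∧ ∀ x, x ∉ Set.range i → c x = 0}

/-- `e` is idempotent and `u` maps the image `e U` of `e` on `U`, that is the set of its fixed
points in `U`, bijectively onto `V`. -/
def MapsSummandOnto {K : Type v} [Field K] {A B : Type w} [Ring A] [Algebra K A] [Ring B]
    [Algebra K B] (e : A →ₗ[K] A) (u : A →ₗ[K] B) (U : Submodule K A) (V : Submodule K B) : Prop :=
  e ∘ₗ e = e ∧ Set.BijOn u {x | x ∈ U ∧ e x = x} V

/-- `P` is the projector onto the summand of degree `n`. -/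
def IsProjectorOnto {K : Type v} [Field K] {A : Type w} [Ring A] [Algebra K A]
    (deg : ℕ → Submodule K A) (n : ℕ) (P : A →ₗ[K] A) : Prop :=
  ∀ i, ∀ x ∈ deg i, P x = if i = n then x else 0

end Pool.Agent.P.MP_638e8a_ag
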