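import Pool.Agent.P.MP_638e8a_ag.GLoc
import Pool.Agent.P.MP_638e8a_ag.CComp

/-!
Task CK BAD: powers of a curve, and the universal divisor of a linear system.
-/

open CategoryTheory AlgebraicGeometry MonoidalCategory CartesianMonoidalCategory Order

universe u v w

namespace Pool.Agent.P.MP_638e8a_ag

open Pool.Agent.P.MP_90138e_ag
open Pool.Agent.P.MP_90138e_ag.WeilCohomology (fstH sndH)

variable {k : Type u} [Field k] [IsAlgClosed k] {K : Type v} [Field K] [CharZero K]
  (T : ChowTheory k) (W : WeilCohomology.{u, v, w} k K)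

omit [IsAlgClosed k] in
theorem bad_clD_single (X : SmProj k) (P : X.Pr) (n : ℤ) :
    T.clD X (Finsupp.single P n) = n • T.cl X P.1 :=
  Finsupp.linearCombination_single _ _ _

omit [IsAlgClosed k] in
theorem bad_ne_gen {X : SmProj k} (P : X.Pr) : P.1 ≠ X.gen := by
  intro h
  have h1 := (X.coheight_eq_zero_iff P.1).2 h
  rw [P.2] at h1
  exact one_ne_zero h1

include W in
theorem tr_clD {C : SmProj k} (hC : C.dim = 1) (N : C.Div) :
    T.tr C (T.clD C N) = algebraMap ℚ _ ((N.degree : ℤ) : ℚ) := by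
  induction N using Finsupp.induction_linear with
  | zero => simp
  | add a b ha hb => rw [map_add, map_add, ha, hb, map_add, Int.cast_add, map_add]
  | single P n =>
    obtain ⟨s, hs⟩ := C.exists_point P.1 ((curve_point W hC P.1).resolve_left (bad_ne_gen P)).2
    rw [bad_clD_single, map_zsmul, ← hs, T.tr_cl_point, Finsupp.degree_single, map_intCast,
      zsmul_one]

theorem bad_add_pow {R : Type*} [CommRing R] (x y : R) (hy : y * y = 0) (n : ℕ) :
    (y + x) ^ (n + 1) = x ^ (n + 1) + (n + 1) • (x ^ n * y) := by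
  induction n with
  | zero => simp [add_comm]
  | succ n ih =>
    rw [pow_succ, ih]
    simp only [nsmul_eq_mul]
    push_cast
    linear_combination ((n : R) + 1) * x ^ n * hy

include W in
theorem exists_power {C : SmProj k} (hC : C.dim = 1) (d : T.A C) (hd : d ∈ T.CH C 1) (M : ℚ)
    (hM : T.tr C d = algebraMap ℚ _ M) (m : ℕ) :
    ∃ (Q : SmProj k) (q : Fin m → (Q.X ⟶ C.X)), (∀ i, IsProj (q i)) ∧
      ∀ j, T.tr Q ((∑ i, T.pull (q i) d) ^ j) =
        algebraMap ℚ _ (if j = m then (m.factorial : ℚ) * M ^ m else 0) := by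
  induction m with
  | zero =>
    refine ⟨SmProj.pt k, Fin.elim0, fun i => i.elim0, fun j => ?_⟩
    rw [Finset.univ_eq_empty, Finset.sum_empty]
    split_ifs with h
    · rw [h, pow_zero, ChowTheory.tr, toPt_ext (toPt _) (𝟙 _), T.push_id]
      simp
    · rw [zero_pow h, map_zero, map_zero]
  | succ m ih =>
    obtain ⟨Q, q, hq, h⟩ := ih
    have hdd : d * d = 0 := T.eq_zero_of_dim_lt W (by omega) (T.mul_mem hd hd)
    have h1 : T.int Q C 1 = 0 := T.int_one (by omega)
    refine ⟨Q.prod C, Fin.cons (sndH Q C) fun i => fstH Q C ≫ q i,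
      Fin.cases (isProj_snd Q C) fun i => (isProj_fst Q C).comp (hq i), fun j => ?_⟩
    have e : ∑ i : Fin (m + 1), T.pull ((Fin.cons (sndH Q C) fun i => fstH Q C ≫ q i :
        Fin (m + 1) → ((Q.prod C).X ⟶ C.X)) i) d =
        T.pull (sndH Q C) d + T.pull (fstH Q C) (∑ i, T.pull (q i) d) := by
      rw [Fin.sum_univ_succ, map_sum]
      simp only [Fin.cons_zero, Fin.cons_succ, T.pull_comp]
    rw [e, ← T.tr_int]
    cases j with
    | zero => rw [pow_zero, h1, map_zero, if_neg (by omega), map_zero]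
    | succ n =>
      rw [bad_add_pow _ _ (by rw [← map_mul, hdd, map_zero]), map_add, map_nsmul, ← map_pow,
        ← map_pow, ← mul_one (T.pull (fstH Q C) (_ ^ (n + 1))), T.int_pull_mul, T.int_pull_mul, h1,
        mul_zero, zero_add, T.int_pull_snd, hM, AlgHom.commutes, mul_comm, ← Algebra.smul_def,
        map_nsmul, map_smul, h, Algebra.smul_def M, ← map_mul, ← map_nsmul]
      congr 1
      by_cases hn : n = m
      · subst hn
        rw [if_pos rfl, if_pos rfl, Nat.factorial_succ, nsmul_eq_mul]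
        push_cast
        ring
      · rw [if_neg hn, if_neg (by omega), mul_zero, smul_zero]

include W in
/-- Pull-back of a divisor along a projection onto a curve. -/
theorem bad_pull {S C : SmProj k} (hC : C.dim = 1) {q : S.X ⟶ C.X} (hq : IsProj q) (N : C.Div)
    (N' : C.X.left → ℤ) (h1 : ∀ P : C.Pr, N' P.1 = N P) (h0 : ∀ x, coheight x ≠ 1 → N' x = 0) :
    ∃ N₁ : S.Div, T.clD S N₁ = T.pull q (T.clD C N) ∧ ∀ G, N₁ G = N' (q.left G.1) := by
  obtain ⟨F, hF, hT, -⟩ := hq.exists_fibre W hC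
  have hi : Function.Injective F := fun P P' h =>
    Subtype.ext (by rw [← hF P, ← hF P', h])
  refine ⟨N.mapDomain F, ?_, fun G => ?_⟩
  · clear h1
    induction N using Finsupp.induction_linear with
    | zero => simp
    | add a b ha hb => rw [Finsupp.mapDomain_add, map_add, map_add, map_add, ha, hb]
    | single P n =>
      rw [Finsupp.mapDomain_single, bad_clD_single, bad_clD_single, map_zsmul,
        ← T.pull_cl_of_isProj hq (hT P), hF]
  · by_cases h : coheight (q.left G.1) = 1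
    · have e : G = F ⟨_, h⟩ :=
        Subtype.ext (eq_of_le_of_coheight (hT _ _ (hF ⟨_, h⟩).symm) (by rw [G.2, (F _).2]))
      rw [h1 ⟨_, h⟩]
      conv_lhs => rw [e]
      exact Finsupp.mapDomain_apply hi _ _
    · rw [h0 _ h]
      refine Finsupp.mapDomain_of_notMem_range _ _ ?_
      rintro ⟨P, rfl⟩
      exact h (by rw [hF, P.2])

include W in
theorem exists_bad {C : SmProj k} (hC : C.dim = 1) {r : ℕ} (Q : SmProj k)
    (q : Fin r → (Q.X ⟶ C.X)) (hq : ∀ i, IsProj (q i)) (φ : C.FF) (hφ : φ ≠ 0) (D E : C.Div)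
    (hD : ∀ P, D P = max (-C.X.left.ord φ P.1) 0) (f : Fin (r + 1) → C.FF)
    (hf : LinearIndependent k f) (hfE : ∀ j, f j ∈ C.LL E) :
    ∃ B : Set (Q.prod C).X.left, B.Finite ∧
      (∀ t ∈ B, (fstH Q C).left t = Q.gen ∧ t ≠ (Q.prod C).gen) ∧
      ∀ (X : SmProj k) (π : X.X ⟶ Q.X), IsProj π → ∃ H : (X.prod C).Div, 0 ≤ H ∧
        T.clD _ H = T.pull (fstH X C) (T.pull π (∑ i, T.pull (q i) (T.clD C D))) +
          T.pull (sndH X C) (T.clD C E) ∧
        (∀ G ∈ H.support, ∀ z', Top (fstH X C) z' → ¬ z' ≤ G.1) ∧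
        ∀ G ∈ H.support, ∀ t, t ≤ G.1 → π.left ((fstH X C).left t) = Q.gen →
          (pair (fstH X C ≫ π) (sndH X C)).left t ∈ B := by
  classical
  obtain ⟨E', hE1, hE0⟩ : ∃ E' : C.X.left → ℤ, (∀ P : C.Pr, E' P.1 = E P) ∧
      ∀ x, coheight x ≠ 1 → E' x = 0 :=
    ⟨fun x => if h : coheight x = 1 then E ⟨x, h⟩ else 0, fun P => dif_pos P.2,
      fun x h => dif_neg h⟩
  have hEg : E' C.gen = 0 := hE0 _ fun h => bad_ne_gen ⟨_, h⟩ rfl
  have hfE' : ∀ j P, 0 ≤ C.X.left.ord (f j) P + E' P := fun j P => by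
    by_cases h : coheight P = 1
    · rw [hE1 ⟨P, h⟩]
      exact (hfE j).resolve_left (hf.ne_zero j) ⟨P, h⟩
    · rw [hE0 P h, Scheme.ord_eq_zero_of_coheight_neq_one h, add_zero]
  have hQ : ∀ i, IsProj (fstH Q C ≫ q i) := fun i => (isProj_fst Q C).comp (hq i)
  obtain ⟨s, hs⟩ : ∃ s, s = usec (fun i => fstH Q C ≫ q i) (fun i => (hQ i).gen) (sndH Q C)
    (isProj_snd Q C).gen φ f := ⟨_, rfl⟩
  obtain ⟨hs0, -, -, hs4⟩ := usec_spec W hC q hQ φ hφ E' hEg f hf hfE' s hs _ fun _ => rfl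
  have hB : ∀ t, (E' ((sndH Q C).left t) ≠ 0 ∨ (Q.prod C).Van t s) → t ≠ (Q.prod C).gen := by
    rintro t h rfl
    rw [(isProj_snd Q C).gen, SmProj.van_gen_iff] at h
    exact h.elim (fun h => h hEg) hs0
  refine ⟨{t | (fstH Q C).left t = Q.gen ∧ (E' ((sndH Q C).left t) ≠ 0 ∨ (Q.prod C).Van t s)},
    ?_, fun t ht => ⟨ht.1, hB t ht.2⟩, fun X π hπ => ?_⟩
  · obtain ⟨N, -, hN⟩ := bad_pull T W hC (isProj_snd Q C) E E' hE1 hE0
    refine ((N.support.finite_toSet.image Subtype.val).union ((Q.prod C).ord_finite s)).subset ?_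
    rintro t ⟨h1, h2⟩
    have h3 := (fibre_point W Q hC t h1 (hB t h2)).1
    refine h2.imp (fun h => ⟨⟨t, h3⟩, ?_, rfl⟩) fun h => ?_
    · exact Finsupp.mem_support_iff.2 fun h' => h ((hN ⟨t, h3⟩).symm.trans h')
    · exact (((Q.prod C).van_iff_ord t h3 s hs0).1 h).ne'
  have hX : ∀ i, IsProj (fstH X C ≫ π ≫ q i) := fun i => (isProj_fst X C).comp (hπ.comp (hq i))
  obtain ⟨s', hs'⟩ : ∃ s, s = usec (fun i => fstH X C ≫ π ≫ q i) (fun i => (hX i).gen) (sndH X C)
    (isProj_snd X C).gen φ f := ⟨_, rfl⟩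
  obtain ⟨N, hN, hN'⟩ := bad_pull T W hC (isProj_snd X C) E E' hE1 hE0
  choose F hF hF' using fun i => bad_pull T W hC (hX i) D (fun x => max (-C.X.left.ord φ x) 0)
    (fun P => (hD P).symm)
    fun x h => by rw [Scheme.ord_eq_zero_of_coheight_neq_one h, neg_zero, max_self]
  obtain ⟨h1, h2, h3, h4⟩ := usec_spec W hC (fun i => π ≫ q i) hX φ hφ E' hEg f hf hfE' s' hs'
    (fun G => ((X.prod C).div s' + ∑ i, F i + N) G) fun G => by
      rw [Finsupp.add_apply, Finsupp.add_apply, Finsupp.finsetSum_apply, SmProj.div_apply, hN']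
      simp only [hF']
  refine ⟨(X.prod C).div s' + ∑ i, F i + N, h2, ?_,
    fun G hG z' hz hle => Finsupp.mem_support_iff.1 hG (h3 G z' hz hle), fun G hG t ht hg => ?_⟩
  · rw [map_add, map_add, T.clD_div _ _ h1, zero_add, hN, map_sum, map_sum, map_sum]
    simp only [hF, T.pull_comp]
  have e1 : (fstH Q C).left ((pair (fstH X C ≫ π) (sndH X C)).left t) = Q.gen := by
    rw [← hg, ← Scheme.Hom.comp_apply, ← Over.comp_left, pair_fst]
    rfl
  have e2 : (sndH Q C).left ((pair (fstH X C ≫ π) (sndH X C)).left t) = (sndH X C).left t := by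
    rw [← Scheme.Hom.comp_apply, ← Over.comp_left, pair_snd]
  refine ⟨e1, or_iff_not_imp_left.2 fun h => ?_⟩
  have h' := not_not.1 h
  refine van_of_ffMap _ (hπ.prod C).gen t s (hs4 _ (fun i => ?_) h').1 ?_
  · rw [Over.comp_left, Scheme.Hom.comp_apply, e1, (hq i).gen]
  · rw [hs, ffMap_usec _ _ _ _ _ _ (fun i => fstH X C ≫ π ≫ q i) (fun i => (hX i).gen) (sndH X C)
      (isProj_snd X C).gen (fun i => by rw [pair_fst_assoc, Category.assoc]) (pair_snd _ _), ← hs']
    refine (h4 t (fun i => ?_) (e2 ▸ h')).2 G ht (Finsupp.mem_support_iff.1 hG)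
    rw [Over.comp_left, Over.comp_left, Scheme.Hom.comp_apply, Scheme.Hom.comp_apply, hg,
      (hq i).gen]

end Pool.Agent.P.MP_638e8a_ag
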