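import Pool.Agent.P.MP_638e8a_ag.GRel
import Pool.Agent.P.MP_638e8a_ag.AlgHaf
import Pool.Agent.P.MP_638e8a_ag.AlgStar

/-!
Task CK CURVE: the middle projector of a curve is oddly finite-dimensional.
-/

open CategoryTheory AlgebraicGeometry MonoidalCategory CartesianMonoidalCategory Order

universe u v w

namespace Pool.Agent.P.MP_638e8a_ag

open Pool.Agent.P.MP_90138e_ag
open Pool.Agent.P.MP_90138e_ag.WeilCohomology (fstH sndH)

variable {k : Type u} [Field k] [IsAlgClosed k] {K : Type v} [Field K] [CharZero K]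
  {T : ChowTheory k} {W : WeilCohomology.{u, v, w} k K}

omit [IsAlgClosed k] in
theorem esymm_aux {C X S : SmProj k} {n m r : ℕ} (hn : m + r = n + 1) (e : T.A C) (Z h : T.A X)
    (y : Fin n → (X.X ⟶ C.X)) (c : ℚ) (hc : c ≠ 0)
    (htr : ∀ j, T.tr X (Z * h ^ j) = algebraMap ℚ _ (if j = r then c else 0))
    (hrel : T.pull (fstH X C) Z * (T.pull (fstH X C) h + T.pull (sndH X C) e) =
      T.pull (fstH X C) Z * ∑ a, T.dl (fstH X C ≫ y a) (sndH X C))
    (u : Fin (n + 1) → (S.X ⟶ C.X)) :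
    ∑ s ∈ Finset.powersetCard m Finset.univ,
      ∏ i ∈ s, (T.pull (u i) e - ∑ j ∈ Finset.Iio i, T.dl (u j) (u i)) = 0 := by
  set ξ : Fin (n + 1) → T.A S := fun i => T.pull (u i) e - ∑ j ∈ Finset.Iio i, T.dl (u j) (u i)
    with hξ
  have h1 : ∀ i, T.pull (sndH S X) Z * (T.pull (fstH S X) (ξ i) + T.pull (sndH S X) h) =
      T.pull (sndH S X) Z * (∑ a, T.dl (sndH S X ≫ y a) (fstH S X ≫ u i) -
        ∑ j ∈ Finset.Iio i, T.dl (fstH S X ≫ u j) (fstH S X ≫ u i)) := by
    intro i
    have := congrArg (T.pull (pair (sndH S X) (fstH S X ≫ u i))) hrel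
    simp only [map_mul, map_add, map_sum, ← T.pull_comp, T.pull_dl, pair_fst, pair_snd,
      pair_fst_assoc] at this
    simp only [hξ, map_sub, map_sum, ← T.pull_comp, T.pull_dl]
    rw [mul_sub, ← this]
    ring
  have h2 := mul_prod_congr Finset.univ _ _ _ fun i _ => h1 i
  rw [star_identity (fun a b : (S.prod X).X ⟶ C.X => T.dl a b) T.dl_mul_dl n
    (fun a => sndH S X ≫ y a) (fun i => fstH S X ≫ u i), mul_zero, Finset.prod_add,
    Finset.mul_sum] at h2
  have h3 := congrArg (T.int S X) h2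
  rw [map_sum, map_zero] at h3
  have h4 : ∀ t ∈ (Finset.univ : Finset (Fin (n + 1))).powerset,
      T.int S X (T.pull (sndH S X) Z * ((∏ i ∈ t, T.pull (fstH S X) (ξ i)) *
        ∏ _i ∈ Finset.univ \ t, T.pull (sndH S X) h)) =
      if t.card = m then c • ∏ i ∈ t, ξ i else 0 := by
    intro t _
    have hcard : (Finset.univ \ t).card = r ↔ t.card = m := by
      have := Finset.card_sdiff_add_card_eq_card (Finset.subset_univ t)
      rw [Finset.card_univ, Fintype.card_fin] at this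
      omega
    rw [Finset.prod_const, ← map_prod, ← map_pow, mul_left_comm, ← map_mul, T.int_pull_mul,
      T.int_pull_snd, htr, AlgHom.commutes, mul_comm, ← Algebra.smul_def]
    simp only [hcard]
    split_ifs
    · rfl
    · exact zero_smul _ _
  rw [Finset.sum_congr rfl h4, ← Finset.sum_filter, ← Finset.smul_sum,
    ← Finset.powersetCard_eq_filter] at h3
  have h5 := congrArg (c⁻¹ • ·) h3
  simpa [smul_smul, hc] using h5

theorem esymm_relation (R : CycleMap T W) {C : SmProj k} (hC : C.dim = 1) :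
    ∃ (m : ℕ) (e : T.A C), e ∈ T.CH C 1 ∧ ∀ (S : SmProj k) (u : Fin (2 * m) → (S.X ⟶ C.X)),
      ∑ s ∈ Finset.powersetCard m Finset.univ,
        ∏ i ∈ s, (T.pull (u i) e - ∑ j ∈ Finset.Iio i, T.dl (u j) (u i)) = 0 := by
  obtain ⟨m, e, X, Z, h, y, c, he, hc, htr, hrel⟩ := exists_relation R hC
  exact ⟨m + 1, e, he, fun S u => esymm_aux (n := 2 * m + 1) (by ring) e Z h y c hc htr hrel u⟩

theorem finRk_curve (R : CycleMap T W) {C : SmProj k} (hC : C.dim = 1)
    (s : (SmProj.pt k).X ⟶ C.X) :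
    T.FinRk true (T.diag C - T.pull (fstH C C) (T.cl C (s.left (SmProj.pt k).gen)) -
      T.pull (sndH C C) (T.cl C (s.left (SmProj.pt k).gen))) := by
  obtain ⟨m, e, he, h⟩ := esymm_relation R hC
  have hp : T.cl C (s.left (SmProj.pt k).gen) ∈ T.CH C 1 :=
    T.cl_mem (by rw [W.coheight_closed C _ (C.isClosed_point s), hC])
  refine ⟨2 * m, fun S => ?_⟩
  have := rk_of_esymm (toPt S ≫ s) (fun a b : S.X ⟶ C.X => T.dl a b) T.dl_symm
    (by rw [T.dl_point, T.pull_const one_ne_zero hp]) (fun a => T.pull a e)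
    (T.pull_const one_ne_zero he s) m (h S)
  convert this using 3 with a b
  rw [T.dl_point, T.dl_point, ChowTheory.ev, map_sub, map_sub, ← T.pull_comp, ← T.pull_comp,
    pair_fst, pair_snd]
  rfl

end Pool.Agent.P.MP_638e8a_ag
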