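import Pool.Agent.P.MP_638e8a_ag.GFib

/-!
Task CK LOC: the universal member of a linear system on a curve, parametrised by a power of the
curve.
-/

open CategoryTheory AlgebraicGeometry MonoidalCategory CartesianMonoidalCategory Order

universe u v w

namespace Pool.Agent.P.MP_638e8a_ag

open Pool.Agent.P.MP_90138e_ag
open Pool.Agent.P.MP_90138e_ag.WeilCohomology (fstH sndH)

variable {k : Type u} [Field k]

/-- The function `∑ j, e_j (φ(q_1), ..., φ(q_m)) f_j(u)`, with `e_j` elementary symmetric. -/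
noncomputable def usec {S C : SmProj k} {m : ℕ} (q : Fin m → (S.X ⟶ C.X))
    (hq : ∀ i, (q i).left S.gen = C.gen) (u : S.X ⟶ C.X) (hu : u.left S.gen = C.gen) (φ : C.FF)
    (f : Fin (m + 1) → C.FF) : S.FF :=
  ∑ j : Fin (m + 1), (∏ i, (1 + Polynomial.C (SmProj.ffMap (q i) (hq i) φ) * Polynomial.X)).coeff j *
    SmProj.ffMap u hu (f j)

namespace Loc

open Polynomial

theorem map_coeff {F F' : Type*} [CommRing F] [CommRing F'] (g : F →+* F') {m : ℕ}
    (φ : Fin m → F) (j : ℕ) :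
    g ((∏ i, (1 + C (φ i) * X)).coeff j) = (∏ i, (1 + C (g (φ i)) * X)).coeff j := by
  rw [← coeff_map, Polynomial.map_prod]
  simp

/-- Normalised coefficients. -/
theorem exists_coeff {F : Type u} [Field F] [Algebra k F] (R : Subalgebra k F) {m : ℕ}
    (φ : Fin m → F) (hφ : ∀ i, φ i ≠ 0) (I : Finset (Fin m)) (hI : ∀ i ∈ I, (φ i)⁻¹ ∈ R)
    (hI' : ∀ i ∉ I, φ i ∈ R) :
    ∃ c : Fin (m + 1) → R,
      (∀ j, (c j : F) = (∏ i, (1 + C (φ i) * X)).coeff j * ∏ i ∈ I, (φ i)⁻¹) ∧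
      ∀ e : R →ₐ[k] k, ∃ j, e (c j) ≠ 0 := by
  classical
  let a : Fin m → R := fun i => if h : i ∈ I then 1 else ⟨φ i, hI' i h⟩
  let b : Fin m → R := fun i => if h : i ∈ I then ⟨(φ i)⁻¹, hI i h⟩ else 1
  let P : R[X] := ∏ i, (C (a i) * X + C (b i))
  refine ⟨fun j => P.coeff j, fun j => ?_, fun e => ?_⟩
  · have h1 : P.map R.val.toRingHom =
        (∏ i, (1 + C (φ i) * X)) * C (∏ i ∈ I, (φ i)⁻¹) := by
      have h2 : (∏ i ∈ I, (φ i)⁻¹) = ∏ i, (if i ∈ I then (φ i)⁻¹ else 1) := by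
        rw [Finset.prod_ite_mem, Finset.univ_inter]
      rw [h2, map_prod, ← Finset.prod_mul_distrib, Polynomial.map_prod]
      refine Finset.prod_congr rfl fun i _ => ?_
      by_cases h : i ∈ I
      · have h3 : C (φ i) * C (φ i)⁻¹ = 1 := by rw [← C_mul, mul_inv_cancel₀ (hφ i), C_1]
        simp only [a, b, h, dif_pos, if_pos, Polynomial.map_add, Polynomial.map_mul, map_C, map_X,
          map_one, Polynomial.map_one]
        change _ * X + C (φ i)⁻¹ = _
        linear_combination (-X) * h3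
      · simp only [a, b, h, dif_neg, if_neg, not_false_eq_true, Polynomial.map_add,
          Polynomial.map_mul, map_C, map_X, map_one, Polynomial.map_one]
        change C (φ i) * X + _ = _
        ring
    have h4 := congrArg (fun Q => Q.coeff j) h1
    simp only [coeff_map, coeff_mul_C] at h4
    exact h4
  · have h1 : P.map e.toRingHom = ∏ i, (C (e (a i)) * X + C (e (b i))) := by
      rw [Polynomial.map_prod]
      refine Finset.prod_congr rfl fun i _ => ?_
      simp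
    have h2 : P.map e.toRingHom ≠ 0 := by
      rw [h1]
      refine Finset.prod_ne_zero_iff.2 fun i _ h0 => ?_
      have h3 := congrArg (fun Q => Q.coeff 0) h0
      have h4 := congrArg (fun Q => Q.coeff 1) h0
      by_cases h : i ∈ I
      · simp [a, h] at h4
      · simp [b, h] at h3
    have h5 : (P.map e.toRingHom).natDegree ≤ m := by
      rw [h1]
      refine (natDegree_prod_le _ _).trans ?_
      refine (Finset.sum_le_sum fun i _ => natDegree_linear_le).trans ?_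
      simp
    refine ⟨⟨(P.map e.toRingHom).natDegree, Nat.lt_succ_of_le h5⟩, ?_⟩
    have h6 := leadingCoeff_ne_zero.2 h2
    rw [leadingCoeff, coeff_map] at h6
    exact h6

theorem comp_left {S X Y : SmProj k} (f : S.X ⟶ X.X) (g : X.X ⟶ Y.X) (t : S.X.left) :
    (f ≫ g).left t = g.left (f.left t) := rfl

theorem ord_gen (C : SmProj k) (φ : C.FF) : C.X.left.ord φ C.gen = 0 := by
  refine Scheme.ord_eq_zero_of_coheight_neq_one ?_ φ
  rw [(C.coheight_eq_zero_iff C.gen).2 rfl]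
  exact zero_ne_one

theorem eq_gen {C : SmProj k} {x : C.X.left} (h : C.gen ≤ x) : x = C.gen := by
  refine (eq_of_le_of_coheight h ?_).symm
  rw [(C.coheight_eq_zero_iff C.gen).2 rfl]
  exact zero_le

theorem ord_prod (S : SmProj k) {ι : Type*} (I : Finset ι) (φ : ι → S.FF)
    (hφ : ∀ i ∈ I, φ i ≠ 0) (t : S.X.left) :
    S.X.left.ord (∏ i ∈ I, φ i) t = ∑ i ∈ I, S.X.left.ord (φ i) t := by
  classical
  induction I using Finset.induction_on with
  | empty => simpa using S.ord_one' t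
  | insert a I ha ih =>
    rw [Finset.prod_insert ha, Finset.sum_insert ha,
      Scheme.ord_mul (hφ a (Finset.mem_insert_self _ _))
        (Finset.prod_ne_zero_iff.2 fun i hi => hφ i (Finset.mem_insert_of_mem hi)),
      ih fun i hi => hφ i (Finset.mem_insert_of_mem hi)]

end Loc

theorem ffMap_usec {S S' C : SmProj k} {m : ℕ} (g : S'.X ⟶ S.X) (hg : g.left S'.gen = S.gen)
    (q : Fin m → (S.X ⟶ C.X)) (hq : ∀ i, (q i).left S.gen = C.gen) (u : S.X ⟶ C.X)
    (hu : u.left S.gen = C.gen) (q' : Fin m → (S'.X ⟶ C.X)) (hq' : ∀ i, (q' i).left S'.gen = C.gen)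
    (u' : S'.X ⟶ C.X) (hu' : u'.left S'.gen = C.gen) (e : ∀ i, g ≫ q i = q' i) (e' : g ≫ u = u')
    (φ : C.FF) (f : Fin (m + 1) → C.FF) :
    SmProj.ffMap g hg (usec q hq u hu φ f) = usec q' hq' u' hu' φ f := by
  subst_vars
  have h1 : q' = fun i => g ≫ q i := funext fun i => (e i).symm
  subst h1
  unfold usec
  rw [map_sum]
  refine Finset.sum_congr rfl fun j _ => ?_
  rw [map_mul, ffMap_comp g u hg hu hu']
  congr 1
  refine (Loc.map_coeff (SmProj.ffMap g hg).toRingHom _ j).trans ?_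
  congr 2
  funext i
  rw [ffMap_comp g (q i) hg (hq i) (hq' i)]
  rfl

variable [IsAlgClosed k] {K : Type v} [Field K] [CharZero K] (W : WeilCohomology.{u, v, w} k K)

namespace Loc

include W in
theorem reg_iff {C : SmProj k} (hC : C.dim = 1) (P : C.X.left) (φ : C.FF) (hφ : φ ≠ 0) :
    C.Reg P φ ↔ 0 ≤ C.X.left.ord φ P := by
  rcases curve_point W hC P with rfl | ⟨h, -⟩
  · rw [ord_gen]
    exact ⟨fun _ => le_rfl, fun _ => C.reg_gen φ⟩
  · exact C.reg_iff_ord P h φ hφ

include W in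
theorem exists_ord {C : SmProj k} (hC : C.dim = 1) (E : C.X.left → ℤ) (hE : E C.gen = 0)
    (P : C.X.left) : ∃ v : C.FF, v ≠ 0 ∧ C.X.left.ord v P = E P := by
  rcases curve_point W hC P with rfl | ⟨h, -⟩
  · exact ⟨1, one_ne_zero, by rw [ord_gen, hE]⟩
  · obtain ⟨p, hp, h1⟩ := C.exists_unif P h
    exact ⟨p ^ E P, zpow_ne_zero _ hp, by rw [ProdAux.ord_zpow C P p hp, h1, mul_one]⟩

end Loc

include W in
/-- Local study of the universal section `s` on `X × C`: the divisor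
`div s + ∑ q_i^* D + u^* E` is effective and contains no fibre of `X × C → X`. -/
theorem usec_spec {X C : SmProj k} (hC : C.dim = 1) {m : ℕ} (q : Fin m → (X.X ⟶ C.X))
    (hq : ∀ i, IsProj (fstH X C ≫ q i)) (φ : C.FF) (hφ : φ ≠ 0) (E : C.X.left → ℤ)
    (hE : E C.gen = 0) (f : Fin (m + 1) → C.FF) (hf : LinearIndependent k f)
    (hfE : ∀ j P, 0 ≤ C.X.left.ord (f j) P + E P) (s : (X.prod C).FF)
    (hs : s = usec (fun i => fstH X C ≫ q i) (fun i => (hq i).gen) (sndH X C)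
      (isProj_snd X C).gen φ f) (H : (X.prod C).Pr → ℤ)
    (hH : ∀ G, H G = (X.prod C).X.left.ord s G.1 +
      ∑ i, max (-C.X.left.ord φ ((fstH X C ≫ q i).left G.1)) 0 + E ((sndH X C).left G.1)) :
    s ≠ 0 ∧ (∀ G, 0 ≤ H G) ∧ (∀ G z', Top (fstH X C) z' → z' ≤ G.1 → H G = 0) ∧
      (∀ t, (∀ i, (fstH X C ≫ q i).left t = C.gen) → E ((sndH X C).left t) = 0 →
        (X.prod C).Reg t s ∧ ∀ G, t ≤ G.1 → H G ≠ 0 → (X.prod C).Van t s) := by
  classical
  have hfst : (fstH X C).left (X.prod C).gen = X.gen := (isProj_fst X C).gen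
  have hsnd : (sndH X C).left (X.prod C).gen = C.gen := (isProj_snd X C).gen
  have hqg : ∀ i, (q i).left X.gen = C.gen := fun i => by
    rw [← hfst]; exact (hq i).gen
  have hf0 : ∀ j, f j ≠ 0 := fun j => hf.ne_zero j
  -- the functions on `X`
  let ph : Fin m → X.FF := fun i => SmProj.ffMap (q i) (hqg i) φ
  have hph : ∀ i, ph i ≠ 0 := fun i => (map_ne_zero _).2 hφ
  have hphS : ∀ i, SmProj.ffMap (fstH X C) hfst (ph i) =
      SmProj.ffMap (fstH X C ≫ q i) (hq i).gen φ := fun i =>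
    (ffMap_comp _ _ hfst (hqg i) _ φ).symm
  let I : X.X.left → Finset (Fin m) := fun x => Finset.univ.filter fun i => ¬ C.Reg ((q i).left x) φ
  have hI : ∀ x i, i ∈ I x ↔ ¬ C.Reg ((q i).left x) φ := fun x i => by simp [I]
  have hIinv : ∀ x, ∀ i ∈ I x, C.Reg ((q i).left x) φ⁻¹ := fun x i hi => by
    have h1 := (hI x i).1 hi
    rw [Loc.reg_iff W hC _ _ hφ] at h1
    rw [Loc.reg_iff W hC _ _ (inv_ne_zero hφ), ProdAux.ord_inv C _ φ hφ]
    omega
  let ψ : X.X.left → (X.prod C).FF := fun x =>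
    s * SmProj.ffMap (fstH X C) hfst (∏ i ∈ I x, (ph i)⁻¹)
  have hnz : ∀ x, SmProj.ffMap (fstH X C) hfst (∏ i ∈ I x, (ph i)⁻¹) ≠ 0 := fun x =>
    (map_ne_zero _).2 (Finset.prod_ne_zero_iff.2 fun i _ => inv_ne_zero (hph i))
  have hψ : ∀ x, ∃ c : Fin (m + 1) → X.regSub x,
      ψ x = ∑ j, SmProj.ffMap (fstH X C) hfst (c j) * SmProj.ffMap (sndH X C) hsnd (f j) ∧
      ∀ e : X.regSub x →ₐ[k] k, ∃ j, e (c j) ≠ 0 := fun x => by
    obtain ⟨c, hc, hc'⟩ := Loc.exists_coeff (X.regSub x) ph hph (I x)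
      (fun i hi => by
        have := SmProj.ffMap_reg (q i) (hqg i) x _ (hIinv x i hi)
        rwa [map_inv₀] at this)
      (fun i hi => SmProj.ffMap_reg (q i) (hqg i) x _ (not_not.1 fun h => hi ((hI x i).2 h)))
    refine ⟨c, ?_, hc'⟩
    simp only [ψ, hs, usec]
    rw [Finset.sum_mul]
    refine Finset.sum_congr rfl fun j _ => ?_
    rw [hc j, map_mul, mul_right_comm]
    congr 2
    refine Eq.trans ?_ (Loc.map_coeff (SmProj.ffMap (fstH X C) hfst).toRingHom ph j).symm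
    congr 2
    funext i
    rw [← hphS i]
    rfl
  -- a point of the fibre over a closed point where the normalised section is a unit
  have hunit : ∀ x : X.X.left, IsClosed {x} → ∃ w w' : (X.prod C).X.left,
      (fstH X C).left w = x ∧ (fstH X C).left w' = x ∧ (sndH X C).left w' = C.gen ∧
      (X.prod C).Reg w (ψ x) ∧ ¬ (X.prod C).Van w (ψ x) := fun x hx => by
    obtain ⟨c, hc, hc'⟩ := hψ x
    obtain ⟨s0, hs0⟩ := X.exists_point x hx
    let ι : C.X ⟶ (X.prod C).X := pair (toPt C ≫ s0) (𝟙 _)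
    have hι1 : ∀ P, (fstH X C).left (ι.left P) = x := fun P => by
      rw [← Loc.comp_left, pair_fst, Loc.comp_left, ← hs0]
      have := SmProj.pt_subsingleton (k := k)
      congr 1
      exact Subsingleton.elim _ _
    have hι2 : ∀ P, (sndH X C).left (ι.left P) = P := fun P => by
      rw [← Loc.comp_left, pair_snd]
      rfl
    obtain ⟨e0, he0⟩ := X.exists_ev x hx
    obtain ⟨j0, hj0⟩ := hc' e0
    by_contra hcon
    refine hj0 (ProdAux.eq_zero_of_ev C f hf (fun j => e0 (c j)) (fun P hP hr e he => ?_) j0)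
    obtain ⟨ew, hew⟩ := (X.prod C).exists_ev (ι.left P) (SmProj.isClosed_map ι P hP)
    choose hr1 h1 using fun j => ProdAux.ev_ffMap (fstH X C) hfst (ι.left P) x (hι1 P) ew hew e0
      he0 (c j)
    choose hr2 h2 using fun j => ProdAux.ev_ffMap (sndH X C) hsnd (ι.left P) P (hι2 P) ew hew e
      he ⟨f j, hr j⟩
    let y : (X.prod C).regSub (ι.left P) := ∑ j, ⟨_, hr1 j⟩ * ⟨_, hr2 j⟩
    have hy : (y : (X.prod C).FF) = ψ x := by
      rw [hc]
      simp [y]
    have hy' : ew y = ∑ j, e0 (c j) * e ⟨f j, hr j⟩ := by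
      simp only [y, map_sum, map_mul, h1, h2]
    rw [← hy', hew, hy]
    by_contra hv
    exact hcon ⟨ι.left P, ι.left C.gen, hι1 P, hι1 _, hι2 _, hy ▸ y.2, hv⟩
  have hs0 : s ≠ 0 := by
    obtain ⟨x, hx, -⟩ := X.exists_closed_le X.gen
    obtain ⟨w, -, -, -, -, -, h2⟩ := hunit x hx
    intro h0
    refine h2 ⟨0, Ideal.zero_mem _, ?_⟩
    simp [ψ, h0]
  have hψ0 : ∀ x, ψ x ≠ 0 := fun x => mul_ne_zero hs0 (hnz x)
  -- orders
  have hordq : ∀ i (G : (X.prod C).Pr), (X.prod C).X.left.ord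
      (SmProj.ffMap (fstH X C) hfst (ph i)) G.1 = C.X.left.ord φ ((fstH X C ≫ q i).left G.1) :=
    fun i G => by
      obtain ⟨_, -, -, h⟩ := (hq i).exists_fibre W hC
      rw [hphS, h]
  have hords : ∀ (G : (X.prod C).Pr) (v : C.FF), (X.prod C).X.left.ord
      (SmProj.ffMap (sndH X C) hsnd v) G.1 = C.X.left.ord v ((sndH X C).left G.1) := by
    obtain ⟨_, -, -, h⟩ := (isProj_snd X C).exists_fibre W hC
    exact h
  have hordψ : ∀ (G : (X.prod C).Pr) (x : X.X.left), x ≤ (fstH X C).left G.1 →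
      H G = (X.prod C).X.left.ord (ψ x) G.1 + E ((sndH X C).left G.1) := fun G x hx => by
    rw [hH G]
    congr 1
    simp only [ψ]
    rw [Scheme.ord_mul hs0 (hnz x), map_prod, Loc.ord_prod _ _ _
      (fun i _ => (map_ne_zero _).2 (inv_ne_zero (hph i)))]
    congr 1
    rw [← Finset.sum_subset (Finset.subset_univ (I x))]
    · refine Finset.sum_congr rfl fun i hi => ?_
      have h1 := (hIinv x i hi).of_le (map_le (q i) hx)
      rw [Loc.reg_iff W hC _ _ (inv_ne_zero hφ), ProdAux.ord_inv C _ φ hφ] at h1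
      rw [map_inv₀, ProdAux.ord_inv _ _ _ ((map_ne_zero _).2 (hph i)), hordq]
      exact max_eq_left h1
    · intro i _ hi
      have h1 := (not_not.1 fun h => hi ((hI x i).2 h)).of_le (map_le (q i) hx)
      rw [Loc.reg_iff W hC _ _ hφ] at h1
      exact max_eq_right (neg_nonpos.2 h1)
  refine ⟨hs0, fun G => ?_, fun G z' hz hzG => ?_, fun t ht htE => ?_⟩
  · obtain ⟨v, hv, hvE⟩ := Loc.exists_ord W hC E hE ((sndH X C).left G.1)
    obtain ⟨c, hc, -⟩ := hψ ((fstH X C).left G.1)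
    have hv' : SmProj.ffMap (sndH X C) hsnd v ≠ 0 := (map_ne_zero _).2 hv
    rw [hordψ G _ le_rfl, ← hvE, ← hords, ← Scheme.ord_mul (hψ0 _) hv',
      ← (X.prod C).reg_iff_ord G.1 G.2 _ (mul_ne_zero (hψ0 _) hv'), hc, Finset.sum_mul]
    refine ((X.prod C).regSub G.1).sum_mem fun j _ => ?_
    rw [mul_assoc, ← map_mul]
    refine ((X.prod C).regSub G.1).mul_mem (SmProj.ffMap_reg _ _ _ _ (c j).2)
      (SmProj.ffMap_reg _ _ _ _ ?_)
    rw [Loc.reg_iff W hC _ _ (mul_ne_zero (hf0 j) hv), Scheme.ord_mul (hf0 j) hv, hvE]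
    exact hfE j _
  · obtain ⟨x, hx, hxz⟩ := X.exists_closed_le ((fstH X C).left z')
    obtain ⟨w, w', hw, hw', hw'', h1, h2⟩ := hunit x hx
    have hwG : w ≤ G.1 := ((isProj_fst X C).le_top hz (hw ▸ hxz)).trans hzG
    have hwG' : w' ≤ G.1 := ((isProj_fst X C).le_top hz (hw' ▸ hxz)).trans hzG
    have h3 : (sndH X C).left G.1 = C.gen := Loc.eq_gen (hw'' ▸ map_le (sndH X C) hwG')
    rw [hordψ G x (hxz.trans (map_le _ hzG)), h3, hE, add_zero]
    have h4 := ((X.prod C).reg_iff_ord G.1 G.2 _ (hψ0 x)).1 (h1.of_le hwG)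
    have h5 : ¬ 0 < (X.prod C).X.left.ord (ψ x) G.1 := fun h =>
      h2 (SmProj.Van.of_le hwG h1 (((X.prod C).van_iff_ord G.1 G.2 _ (hψ0 x)).2 h))
    omega
  · have hIe : I ((fstH X C).left t) = ∅ := by
      refine Finset.eq_empty_of_forall_notMem fun i hi => (hI _ i).1 hi ?_
      rw [← Loc.comp_left, ht i]
      exact C.reg_gen φ
    have hψs : ψ ((fstH X C).left t) = s := by simp [ψ, hIe]
    have hreg : (X.prod C).Reg t s := by
      obtain ⟨c, hc, -⟩ := hψ ((fstH X C).left t)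
      rw [← hψs, hc]
      refine ((X.prod C).regSub t).sum_mem fun j _ => ?_
      refine ((X.prod C).regSub t).mul_mem (SmProj.ffMap_reg _ _ _ _ (c j).2)
        (SmProj.ffMap_reg _ _ _ _ ?_)
      rw [Loc.reg_iff W hC _ _ (hf0 j)]
      simpa [htE] using hfE j ((sndH X C).left t)
    refine ⟨hreg, fun G hG hH0 => ?_⟩
    have h1 : E ((sndH X C).left G.1) = 0 := by
      rcases curve_point W hC ((sndH X C).left G.1) with h | ⟨-, h⟩
      · rw [h, hE]
      · have h2 := map_le (sndH X C) hG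
        have h3 : (sndH X C).left t ∈ ({(sndH X C).left G.1} : Set C.X.left) :=
          Specializes.mem_closed h2 h rfl
        rw [← Set.mem_singleton_iff.1 h3, htE]
    rw [hordψ G _ (map_le _ hG), h1, add_zero, hψs] at hH0
    have h4 := ((X.prod C).reg_iff_ord G.1 G.2 _ hs0).1 (hreg.of_le hG)
    exact SmProj.Van.of_le hG hreg (((X.prod C).van_iff_ord G.1 G.2 _ hs0).2 (by omega))

end Pool.Agent.P.MP_638e8a_ag
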