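import Pool.Agent.P.MP_638e8a_ag.GFib

/-!
Task CK SPLIT: finitely many closed points of the generic fibre become rational over a finite
extension.
-/

open CategoryTheory AlgebraicGeometry MonoidalCategory CartesianMonoidalCategory Order

universe u v w

namespace Pool.Agent.P.MP_638e8a_ag

open Pool.Agent.P.MP_90138e_ag
open Pool.Agent.P.MP_90138e_ag.WeilCohomology (fstH sndH)

variable {k : Type u} [Field k]

namespace GSplit

section fields

variable {F E Ω Ω' : Type u} [Field F] [Field E] [Field Ω] [Field Ω']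

theorem finite_hom (r : F →+* E) (hr : r.Finite) (ψ : F →+* Ω) :
    {φ : E →+* Ω | φ.comp r = ψ}.Finite := by
  let := r.toAlgebra
  let := ψ.toAlgebra
  have : Module.Finite F E := hr
  refine (Set.finite_range fun φ : E →ₐ[F] Ω => φ.toRingHom).subset fun φ hφ => ?_
  exact ⟨{ φ with commutes' := fun x => RingHom.congr_fun hφ x }, rfl⟩

theorem factor [IsAlgClosed Ω] (r : F →+* E) (hr : r.Finite) (ψ : F →+* Ω) (io : Ω →+* Ω')
    (φ : E →+* Ω') (h : φ.comp r = io.comp ψ) :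
    ∃ φ' : E →+* Ω, io.comp φ' = φ ∧ φ'.comp r = ψ := by
  let := r.toAlgebra
  let := ψ.toAlgebra
  let := io.toAlgebra
  let := (io.comp ψ).toAlgebra
  have : IsScalarTower F Ω Ω' := .of_algebraMap_eq' rfl
  have : Module.Finite F E := hr
  let φa : E →ₐ[F] Ω' := { φ with commutes' := fun x => RingHom.congr_fun h x }
  have hm : ∀ x, φ x ∈ io.range := fun x =>
    IsIntegral.mem_range_algebraMap_of_minpoly_splits (K := Ω)
      ((Algebra.IsIntegral.isIntegral (R := F) x).map φa) (IsAlgClosed.splits _)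
  choose s hs using hm
  refine ⟨{ toFun := s
            map_one' := io.injective (by simp [hs])
            map_mul' := fun x y => io.injective (by simp [hs])
            map_zero' := io.injective (by simp [hs])
            map_add' := fun x y => io.injective (by simp [hs]) },
    RingHom.ext hs, RingHom.ext fun x => io.injective ?_⟩
  exact (hs (r x)).trans (RingHom.congr_fun h x)

theorem finrank_ne (r : F →+* E) (hr : r.EssFiniteType) (φ : E →+* Ω)
    (h : (φ.comp r).IsIntegral) : (letI := r.toAlgebra; Module.finrank F E) ≠ 0 := by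
  let := r.toAlgebra
  have : Algebra.EssFiniteType F E := hr
  have : Algebra.IsIntegral F E := ⟨RingHom.IsIntegral.tower_bot r φ φ.injective h⟩
  have : Module.Finite F E := Algebra.finite_of_essFiniteType_of_isAlgebraic
  exact Module.finrank_pos.ne'

theorem exists_lift [IsAlgClosed Ω'] (φ : F →+* Ω) (h : φ.IsIntegral) (ψ : F →+* Ω') :
    ∃ io : Ω →+* Ω', io.comp φ = ψ := by
  let := φ.toAlgebra
  let := ψ.toAlgebra
  have : Algebra.IsIntegral F Ω := ⟨h⟩
  exact ⟨(IsAlgClosed.lift (R := F) (S := Ω) (M := Ω')).toRingHom, RingHom.ext fun x =>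
    (IsAlgClosed.lift (R := F) (S := Ω) (M := Ω')).commutes x⟩

end fields

section schemes

variable {W Q : Scheme.{u}} {Ω Ω' : Type u} [Field Ω] [Field Ω']

/-- The point of `W` with values in `Ω` given by an embedding of a residue field. -/
noncomputable def gp (b : W) (φ : W.residueField b →+* Ω) : Spec (.of Ω) ⟶ W :=
  Spec.map (CommRingCat.ofHom φ) ≫ W.fromSpecResidueField b

theorem gp_apply (b : W) (φ : W.residueField b →+* Ω) (s : Spec (.of Ω)) : gp b φ s = b := by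
  rw [gp, Scheme.Hom.comp_apply]
  exact Scheme.fromSpecResidueField_apply b _

theorem exists_gp (c : Spec (.of Ω) ⟶ W) : ∃ b φ, c = gp b φ :=
  ⟨_, _, (Scheme.descResidueField_stalkClosedPointTo_fromSpecResidueField Ω W c).symm⟩

theorem gp_comp (f : W ⟶ Q) (b : W) (φ : W.residueField b →+* Ω) :
    gp b φ ≫ f = gp (f b) (φ.comp (f.residueFieldMap b).hom) := by
  simp [gp, ← Scheme.Hom.SpecMap_residueFieldMap_fromSpecResidueField]

theorem map_gp (io : Ω →+* Ω') (b : W) (φ : W.residueField b →+* Ω) :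
    Spec.map (CommRingCat.ofHom io) ≫ gp b φ = gp b (io.comp φ) := by
  simp [gp]

theorem gp_inj {b : W} {φ φ' : W.residueField b →+* Ω} (h : gp b φ = gp b φ') : φ = φ' := by
  rw [gp, gp, cancel_mono] at h
  exact congrArg CommRingCat.Hom.hom (Spec.map_injective h)

theorem gp_pt {b b' : W} {φ : W.residueField b →+* Ω} {φ' : W.residueField b' →+* Ω}
    (h : gp b φ = gp b' φ') : b = b' := by
  rw [← gp_apply b φ (IsLocalRing.closedPoint Ω), h, gp_apply]

theorem finite_res (f : W ⟶ Q) (b : W) (hb : f.residueDegree b ≠ 0) :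
    (f.residueFieldMap b).hom.Finite := by
  let := (f.residueFieldMap b).hom.toAlgebra
  exact Module.finite_of_finrank_pos (R := Q.residueField (f b)) (M := W.residueField b)
    (Nat.pos_of_ne_zero hb)

theorem finite_pts (f : W ⟶ Q) (g : Spec (.of Ω) ⟶ Q) (b : W) (hb : f.residueDegree b ≠ 0) :
    {c : Spec (.of Ω) ⟶ W | c ≫ f = g ∧ ∃ φ, c = gp b φ}.Finite := by
  rcases Set.eq_empty_or_nonempty {c : Spec (.of Ω) ⟶ W | c ≫ f = g ∧ ∃ φ, c = gp b φ} with
    h | ⟨_, h0, φ0, rfl⟩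
  · rw [h]; exact Set.finite_empty
  refine ((finite_hom _ (finite_res f b hb) (φ0.comp (f.residueFieldMap b).hom)).image
    (gp b)).subset ?_
  rintro _ ⟨h1, φ, rfl⟩
  refine ⟨φ, gp_inj ?_, rfl⟩
  rw [← gp_comp, ← gp_comp, h0, h1]

theorem factor_pt [IsAlgClosed Ω] (f : W ⟶ Q) (g : Spec (.of Ω) ⟶ Q) (b : W)
    (hb : f.residueDegree b ≠ 0) (io : Ω →+* Ω') (φ : W.residueField b →+* Ω')
    (h : gp b φ ≫ f = Spec.map (CommRingCat.ofHom io) ≫ g) :
    ∃ φ' : W.residueField b →+* Ω, gp b φ' ≫ f = g ∧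
      gp b φ = Spec.map (CommRingCat.ofHom io) ≫ gp b φ' := by
  obtain ⟨q, ψ, rfl⟩ := exists_gp g
  rw [gp_comp, map_gp] at h
  obtain rfl := gp_pt h
  obtain ⟨φ', h1, h2⟩ := factor _ (finite_res f b hb) ψ io φ (gp_inj h)
  exact ⟨φ', by rw [gp_comp, h2], by rw [map_gp, h1]⟩

theorem deg_pt (f : W ⟶ Q) [LocallyOfFiniteType f] (z : W) (φ : W.residueField z →+* Ω) (q : Q)
    (ψ : Q.residueField q →+* Ω) (hψ : ψ.IsIntegral) (h : gp z φ ≫ f = gp q ψ) :
    f z = q ∧ f.residueDegree z ≠ 0 ∧ φ.IsIntegral := by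
  rw [gp_comp] at h
  obtain rfl := gp_pt h
  rw [← gp_inj h] at hψ
  exact ⟨rfl, finrank_ne _ (LocallyOfFiniteType.stalkMap f z).residueFieldMap φ hψ,
    RingHom.IsIntegral.tower_top _ _ hψ⟩

theorem lift_pt [IsAlgClosed Ω'] (f : W ⟶ Q) (t : W) (τ : W.residueField t →+* Ω') (z : Q)
    (hz : f t = z) (φ : Q.residueField z →+* Ω) (hφ : φ.IsIntegral) :
    ∃ io : Ω →+* Ω', gp t τ ≫ f = Spec.map (CommRingCat.ofHom io) ≫ gp z φ := by
  subst hz
  obtain ⟨io, h⟩ := exists_lift φ hφ (τ.comp (f.residueFieldMap t).hom)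
  exact ⟨io, by rw [gp_comp, map_gp, h]⟩

end schemes

theorem tower (Q C : SmProj k) {G : Over (Spec (CommRingCat.of k))} (g : G ⟶ Q.X)
    (l : List (G ⟶ C.X)) :
    ∃ (X : SmProj k) (π : X.X ⟶ Q.X) (_ : IsProj π) (ζ : G ⟶ X.X), ζ ≫ π = g ∧
      ∀ d ∈ l, ∃ y : X.X ⟶ C.X, ζ ≫ y = d := by
  induction l with
  | nil => exact ⟨Q, 𝟙 _, isProj_id Q, g, Category.comp_id _, by simp⟩
  | cons d l ih =>
    obtain ⟨X, π, hπ, ζ, h1, h2⟩ := ih
    obtain ⟨ζ', e1, e2⟩ : ∃ ζ' : G ⟶ (X.prod C).X, ζ' ≫ fstH X C = ζ ∧ ζ' ≫ sndH X C = d :=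
      ⟨lift ζ d, lift_fst _ _, lift_snd _ _⟩
    refine ⟨X.prod C, fstH X C ≫ π, (isProj_fst X C).comp hπ, ζ',
      by rw [← Category.assoc, e1, h1], fun d' hd' => ?_⟩
    rcases List.mem_cons.mp hd' with rfl | hd'
    · exact ⟨sndH X C, e2⟩
    · obtain ⟨y, hy⟩ := h2 d' hd'
      exact ⟨fstH X C ≫ y, by rw [← Category.assoc, e1, hy]⟩

theorem left_ext {X C : SmProj k} {T : Scheme.{u}} {a b : T ⟶ (X.prod C).X.left}
    (h1 : a ≫ (fstH X C).left = b ≫ (fstH X C).left)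
    (h2 : a ≫ (sndH X C).left = b ≫ (sndH X C).left) : a = b :=
  Limits.pullback.hom_ext h1 h2

end GSplit

open GSplit in
theorem exists_split (Q C : SmProj k) (B : Set (Q.prod C).X.left) (hB : B.Finite)
    (h₁ : ∀ t ∈ B, (fstH Q C).left t = Q.gen)
    (h₂ : ∀ t ∈ B, (fstH Q C).left.residueDegree t ≠ 0) :
    ∃ (X : SmProj k) (π : X.X ⟶ Q.X) (_ : IsProj π) (z : X.X.left) (ι : Type)
      (y : ι → (X.X ⟶ C.X)), π.left z = Q.gen ∧ π.left.residueDegree z ≠ 0 ∧
      ∀ t : (X.prod C).X.left, (fstH X C).left t = z →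
        (pair (fstH X C ≫ π) (sndH X C)).left t ∈ B → ∃ a, t = (pair (𝟙 X.X) (y a)).left z := by
  let Ω := AlgebraicClosure (Q.X.left.residueField Q.gen)
  let ψ : Q.X.left.residueField Q.gen →+* Ω := algebraMap _ _
  have hψ : ψ.IsIntegral := Algebra.IsIntegral.isIntegral
  let G : Over (Spec (CommRingCat.of k)) := Over.mk (gp Q.gen ψ ≫ Q.X.hom)
  let g : G ⟶ Q.X := Over.homMk (gp Q.gen ψ) rfl
  have hfin : {c : G ⟶ (Q.prod C).X | ∃ b ∈ B,
      c.left ≫ (fstH Q C).left = gp Q.gen ψ ∧ ∃ φ, c.left = gp b φ}.Finite := by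
    have h := hB.biUnion (t := fun b => {c : Spec (.of Ω) ⟶ (Q.prod C).X.left |
      c ≫ (fstH Q C).left = gp Q.gen ψ ∧ ∃ φ, c = gp b φ})
      fun b hb => finite_pts (fstH Q C).left (gp Q.gen ψ) b (h₂ b hb)
    refine (h.preimage (f := fun c : G ⟶ (Q.prod C).X => c.left)
      fun _ _ _ _ e => Over.OverMorphism.ext e).subset ?_
    rintro c ⟨b, hb, hc⟩
    exact Set.mem_biUnion hb hc
  obtain ⟨X, π, hπ, ζ, h1, h2⟩ := tower Q C g (hfin.toFinset.toList.map (· ≫ sndH Q C))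
  choose y hy using fun a : Fin (hfin.toFinset.toList.map (· ≫ sndH Q C)).length =>
    h2 _ (List.get_mem _ a)
  obtain ⟨z, φ, hζ⟩ := exists_gp (Ω := Ω) ζ.left
  have hw : π.left ≫ Q.X.hom = X.X.hom := Over.w π
  have : LocallyOfFiniteType (π.left ≫ Q.X.hom) := hw ▸ inferInstance
  have : LocallyOfFiniteType π.left := locallyOfFiniteType_of_comp π.left Q.X.hom
  have h3 : gp z φ ≫ π.left = gp Q.gen ψ := by rw [← hζ]; exact congrArg (·.left) h1
  obtain ⟨e1, e2, e3⟩ := deg_pt π.left z φ Q.gen ψ hψ h3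
  refine ⟨X, π, hπ, z, _, y, e1, e2, fun t ht htB => ?_⟩
  let τ : (X.prod C).X.left.residueField t →+* AlgebraicClosure
    ((X.prod C).X.left.residueField t) := algebraMap _ _
  obtain ⟨io, hio⟩ := lift_pt (fstH X C).left t τ z ht φ e3
  have p1 : (pair (fstH X C ≫ π) (sndH X C)).left ≫ (fstH Q C).left = (fstH X C).left ≫ π.left :=
    congrArg (·.left) (pair_fst (fstH X C ≫ π) (sndH X C))
  have p2 : (pair (fstH X C ≫ π) (sndH X C)).left ≫ (sndH Q C).left = (sndH X C).left :=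
    congrArg (·.left) (pair_snd (fstH X C ≫ π) (sndH X C))
  obtain ⟨φ', h4, h5⟩ := factor_pt (fstH Q C).left (gp Q.gen ψ) _ (h₂ _ htB) io
    (τ.comp ((pair (fstH X C ≫ π) (sndH X C)).left.residueFieldMap t).hom) (by
      rw [← gp_comp, Category.assoc, p1, ← Category.assoc, hio, Category.assoc, h3])
  rw [← gp_comp] at h5
  let c : G ⟶ (Q.prod C).X := Over.homMk (gp _ φ') (by
    rw [← Over.w (fstH Q C), ← Category.assoc, h4]; rfl)
  have hc : c ∈ hfin.toFinset := hfin.mem_toFinset.mpr ⟨_, htB, h4, φ', rfl⟩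
  obtain ⟨a, ha⟩ := List.get_of_mem (List.mem_map_of_mem (f := (· ≫ sndH Q C))
    (Finset.mem_toList.mpr hc))
  have h6 : gp z φ ≫ (y a).left = gp _ φ' ≫ (sndH Q C).left := by
    rw [← hζ]; exact congrArg (·.left) ((hy a).trans ha)
  have q1 : (pair (𝟙 X.X) (y a)).left ≫ (fstH X C).left = 𝟙 _ :=
    congrArg (·.left) (pair_fst (𝟙 X.X) (y a))
  have q2 : (pair (𝟙 X.X) (y a)).left ≫ (sndH X C).left = (y a).left :=
    congrArg (·.left) (pair_snd (𝟙 X.X) (y a))
  have h7 : gp t τ = (Spec.map (CommRingCat.ofHom io) ≫ gp z φ) ≫ (pair (𝟙 X.X) (y a)).left := by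
    refine left_ext ?_ ?_
    · rw [hio, Category.assoc _ _ (fstH X C).left, q1, Category.comp_id]
    · rw [Category.assoc _ _ (sndH X C).left, q2, Category.assoc, h6, ← Category.assoc, ← h5,
        Category.assoc, p2]
  rw [map_gp, gp_comp] at h7
  exact ⟨a, gp_pt h7⟩

end Pool.Agent.P.MP_638e8a_ag
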