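import Pool.Agent.P.MP_638e8a_ag.GBad
import Pool.Agent.P.MP_638e8a_ag.GSplit
import Pool.Agent.P.MP_638e8a_ag.CReal
import Pool.Agent.P.MP_90138e_ag.Curve

/-!
Task CK REL: the generic member of a linear system, split over a finite extension.
-/

open CategoryTheory AlgebraicGeometry MonoidalCategory CartesianMonoidalCategory Order

universe u v w

namespace Pool.Agent.P.MP_638e8a_ag

open Pool.Agent.P.MP_90138e_ag
open Pool.Agent.P.MP_90138e_ag.WeilCohomology (fstH sndH)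

variable {k : Type u} [Field k] [IsAlgClosed k] {K : Type v} [Field K] [CharZero K]
  {T : ChowTheory k} {W : WeilCohomology.{u, v, w} k K}

theorem exists_fin_of_mem_closure {M ι : Type*} [AddCommMonoid M] (g : ι → M) {w : M}
    (hw : w ∈ AddSubmonoid.closure (Set.range g)) :
    ∃ (n : ℕ) (y : Fin n → ι), w = ∑ a, g (y a) := by
  induction hw using AddSubmonoid.closure_induction with
  | mem x hx =>
    obtain ⟨i, rfl⟩ := hx
    exact ⟨1, fun _ => i, by simp⟩
  | zero => exact ⟨0, Fin.elim0, by simp⟩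
  | add x y _ _ hx hy =>
    obtain ⟨n, a, rfl⟩ := hx
    obtain ⟨n', a', rfl⟩ := hy
    exact ⟨n + n', Fin.append a a', by simp [Fin.sum_univ_add]⟩

theorem exists_polar (W : WeilCohomology.{u, v, w} k K) {C : SmProj k} (hC : C.dim = 1) :
    ∃ (φ : C.FF) (D : C.Div), φ ≠ 0 ∧ (∀ P, D P = max (-C.X.left.ord φ P.1) 0) ∧
      D.degree ≠ 0 := by
  obtain ⟨x, hx, -⟩ := C.exists_closed_le C.gen
  have h1 : coheight x = 1 := by rw [W.coheight_closed C x hx, hC]; rfl
  obtain ⟨π, h0, hπ⟩ := C.exists_unif x h1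
  have hD : ∀ P, C.cvPos (-(C.div π⁻¹)) P = max (-C.X.left.ord π⁻¹ P.1) 0 := fun P => rfl
  refine ⟨π⁻¹, _, inv_ne_zero h0, hD, ?_⟩
  have h2 : C.cvPos (-(C.div π⁻¹)) ⟨x, h1⟩ = 1 := by
    rw [hD, C.cv_ord_inv π h0, neg_neg, hπ]; rfl
  have h3 : C.cvPos (-(C.div π⁻¹)) ⟨x, h1⟩ ≤ (C.cvPos (-(C.div π⁻¹))).degree := by
    rw [Finsupp.degree_apply]
    refine Finset.single_le_sum (f := fun P => C.cvPos (-(C.div π⁻¹)) P)
      (fun P _ => by rw [hD]; exact le_max_right _ _) ?_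
    rw [Finsupp.mem_support_iff, h2]; exact one_ne_zero
  omega

/-- An effective divisor that contains no fibre cuts the fibre over `z` in points over `z`. -/
theorem mul_clD_mem {X C : SmProj k} (z' : (X.prod C).X.left) (hz' : Top (fstH X C) z')
    (H : (X.prod C).Div) (hH : 0 ≤ H)
    (h : ∀ G ∈ H.support, ∀ b, Top (fstH X C) b → ¬ b ≤ G.1) (M : AddSubmonoid (T.A (X.prod C)))
    (hM : ∀ G ∈ H.support, ∀ t, t ≤ G.1 → (fstH X C).left t = (fstH X C).left z' →
      T.cl _ t ∈ M) : T.cl _ z' * T.clD _ H ∈ M := by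
  rw [ChowTheory.clD, Finsupp.linearCombination_apply, Finsupp.sum, Finset.mul_sum]
  refine M.sum_mem fun G hG => ?_
  obtain ⟨n, hn⟩ := Int.eq_ofNat_of_zero_le (hH G)
  rw [show H G = n from hn, natCast_zsmul, mul_smul_comm]
  refine M.nsmul_mem ?_ n
  obtain ⟨m, hm, e⟩ := T.mul_divisor G.1 z' G.2 (h G hG z' hz')
  rw [mul_comm, e]
  refine M.sum_mem fun t ht => M.nsmul_mem (hM G hG t (hm t ht).1 ?_) _
  by_contra hne
  obtain ⟨b, hb, hb'⟩ := (isProj_fst X C).exists_top ((fstH X C).left t)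
  have h1 : t ≤ b := hb' t hb.symm
  have h2 : b ≤ z' := (isProj_fst X C).le_top hz' (hb ▸ map_le _ (hm t ht).2.1)
  have h3 : b < z' := lt_of_le_not_ge h2 fun h4 => hne (by
    rw [← hb, eq_of_le_of_coheight h2 (coheight_anti h4)])
  have h4 : t = b := eq_of_le_of_coheight h1 (by
    rw [(hm t ht).2.2]
    exact Order.add_one_le_of_lt (coheight_strictAnti h3 ((X.prod C).coheight_ne_top _).lt_top))
  exact h G hG b hb' (h4 ▸ (hm t ht).1)

theorem cl_graph {X C : SmProj k} (y : X.X ⟶ C.X) (z : X.X.left) :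
    T.cl (X.prod C) ((pair (𝟙 X.X) y).left z) =
      T.pull (fstH X C) (T.cl X z) * T.dl (fstH X C ≫ y) (sndH X C) := by
  rw [← T.push_cl_of_section _ (fstH X C) (pair_fst _ _), T.dl_graph, ← T.projection',
    ← T.pull_comp, pair_fst, T.pull_id, mul_one]

theorem exists_relation (R : CycleMap T W) {C : SmProj k} (hC : C.dim = 1) :
    ∃ (m : ℕ) (e : T.A C) (X : SmProj k) (Z h : T.A X) (y : Fin (2 * m + 1) → (X.X ⟶ C.X))
      (c : ℚ), e ∈ T.CH C 1 ∧ c ≠ 0 ∧
      (∀ j, T.tr X (Z * h ^ j) = algebraMap ℚ _ (if j = m + 1 then c else 0)) ∧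
      T.pull (fstH X C) Z * (T.pull (fstH X C) h + T.pull (sndH X C) e) =
        T.pull (fstH X C) Z * ∑ a, T.dl (fstH X C ≫ y a) (sndH X C) := by
  obtain ⟨c, hc⟩ := W.riemann C hC
  obtain ⟨E, -, hE, hf⟩ := hc (2 * (c + 1) + 1)
  rw [show 2 * (c + 1) + 1 - c = c + 1 + 1 + 1 by omega] at hf
  obtain ⟨f, hf, hfE⟩ := hf
  obtain ⟨φ, D, hφ, hD, hD'⟩ := exists_polar W hC
  obtain ⟨Q, q, hq, hQ⟩ := exists_power T W hC (T.clD C D) (T.clD_mem D) _ (tr_clD T W hC D)
    (c + 1 + 1)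
  obtain ⟨B, hB, hB', hbad⟩ := exists_bad T W hC Q q hq φ hφ D E hD f hf hfE
  obtain ⟨X, π, hπ, z, ι, y, hz, hd, hy⟩ := exists_split Q C B hB (fun t ht => (hB' t ht).1)
    fun t ht => (fibre_point W Q hC t (hB' t ht).1 (hB' t ht).2).2
  obtain ⟨H, hH, hcl, hfib, hHB⟩ := hbad X π hπ
  obtain ⟨z', hz', htop⟩ := (isProj_fst X C).exists_top z
  have hZ : T.pull (fstH X C) (T.cl X z) = T.cl _ z' := hz' ▸ T.pull_fst htop
  have hpush : T.push π (T.cl X z) = π.left.residueDegree z • (1 : T.A Q) := by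
    rw [T.push_cl, hz, T.cl_gen]
  have hmem := mul_clD_mem (T := T) z' htop H hH hfib (AddSubmonoid.closure (Set.range
    fun a : X.X ⟶ C.X => T.pull (fstH X C) (T.cl X z) * T.dl (fstH X C ≫ a) (sndH X C)))
    fun G hG t ht ht' => by
      obtain ⟨a, rfl⟩ := hy t (ht'.trans hz') (hHB G hG t ht (by rw [ht', hz', hz]))
      exact AddSubmonoid.subset_closure ⟨y a, (cl_graph _ _).symm⟩
  obtain ⟨n, Y, hY⟩ := exists_fin_of_mem_closure _ hmem
  rw [← hZ, hcl] at hY
  have hn : n = 2 * (c + 1) + 1 := by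
    have h1 := congrArg (fun x => T.push π (T.int X C x)) hY
    have h2 : ∀ a : X.X ⟶ C.X, T.int X C (T.pull (fstH X C) (T.cl X z) *
        T.dl (fstH X C ≫ a) (sndH X C)) = T.cl X z := fun a => by
      rw [mul_comm, T.int_dl_mul, ← T.pull_comp, pair_fst, T.pull_id]
    have h3 : ∀ x, T.int X C (T.pull (fstH X C) x) = 0 := fun x => by
      rw [← mul_one (T.pull (fstH X C) x), T.int_pull_mul, T.int_one (by omega), mul_zero]
    simp only [map_sum, h2, Finset.sum_const, Finset.card_univ, Fintype.card_fin, map_nsmul,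
      T.int_pull_mul, map_add, h3, smul_zero, zero_add, T.int_pull_snd, tr_clD T W hC, hE,
      AlgHom.commutes, hpush] at h1
    rw [mul_comm, ← Algebra.smul_def, map_smul, hpush] at h1
    have := R.nontrivial Q
    have h4 : algebraMap ℚ (T.A Q) ((((2 * (c + 1) + 1 : ℕ) : ℤ) : ℚ) * π.left.residueDegree z) =
        algebraMap ℚ (T.A Q) ((n : ℚ) * π.left.residueDegree z) := by
      rw [map_mul, map_mul, ← Algebra.smul_def, map_natCast, map_natCast, ← nsmul_eq_mul]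
      rwa [nsmul_one] at h1
    have h5 := mul_right_cancel₀ (Nat.cast_ne_zero.2 hd) ((algebraMap ℚ (T.A Q)).injective h4)
    exact_mod_cast h5.symm
  subst hn
  refine ⟨c + 1, T.clD C E, X, T.cl X z, T.pull π (∑ i, T.pull (q i) (T.clD C D)), Y,
    π.left.residueDegree z * (((c + 1 + 1).factorial : ℚ) * ((D.degree : ℤ) : ℚ) ^ (c + 1 + 1)),
    T.clD_mem E, ?_, fun j => ?_, by rw [hY, Finset.mul_sum]⟩
  · refine mul_ne_zero (Nat.cast_ne_zero.2 hd) (mul_ne_zero ?_ (pow_ne_zero _ ?_))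
    · exact Nat.cast_ne_zero.2 (Nat.factorial_ne_zero _)
    · exact Int.cast_ne_zero.2 hD'
  · have h1 : ∀ x, T.tr X x = T.tr Q (T.push π x) := fun x => by
      rw [ChowTheory.tr, ChowTheory.tr, ← T.push_comp, toPt_ext (π ≫ toPt Q) (toPt X)]
    rw [h1, ← map_pow, T.projection, hpush, smul_mul_assoc, one_mul, map_nsmul, hQ]
    split_ifs
    · rw [nsmul_eq_mul, map_mul _ (π.left.residueDegree z : ℚ), map_natCast]
    · rw [map_zero, smul_zero]

end Pool.Agent.P.MP_638e8a_ag
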