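import Pool.Agent.P.MP_638e8a_ag.H58Defs

/-!
The axioms of Chow rings and Weil cohomology, in pointwise form.
-/

open CategoryTheory AlgebraicGeometry

universe u v w

namespace Pool.Agent.P.MP_638e8a_ag.H58

open SmProj

namespace Chow

variable {k : Type u} [Field k] (A : Chow k)

theorem cyc_surjective (X : SmProj k) : Function.Surjective (A.cyc X) := (A.isRing X).surjective

theorem cyc_generic (X : SmProj k) :
    A.cyc X (Finsupp.single (genericPoint X.X.left) 1) = 1 := (A.isRing X).generic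

theorem mul_deg (X : SmProj k) (i j : ℤ) : ∀ x ∈ A.CHd X i, ∀ y ∈ A.CHd X j,
    x * y ∈ A.CHd X (i + j) := (A.isRing X).mul_deg i j

theorem pull_id (X : SmProj k) (x : A.CH X) : A.pull (𝟙 X) x = x := by
  rw [A.map_id]; rfl

theorem pull_comp {X Y Z : SmProj k} (f : X ⟶ Y) (g : Y ⟶ Z) (x : A.CH Z) :
    A.pull (f ≫ g) x = A.pull f (A.pull g x) := by
  rw [A.map_comp]; rfl

theorem pull_deg {X Y : SmProj k} (f : X ⟶ Y) (i : ℤ) : ∀ y ∈ A.CHd Y i,
    A.pull f y ∈ A.CHd X i := (A.isMap f).pull_deg i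

theorem push_cyc {X Y : SmProj k} (f : X ⟶ Y) (z : X.X.left) :
    A.push f (A.cyc X (Finsupp.single z 1)) =
      (sch f).residueDegree z • A.cyc Y (Finsupp.single (sch f z) 1) := (A.isMap f).push_cyc z

theorem push_deg {X Y : SmProj k} (f : X ⟶ Y) (i : ℤ) : ∀ x ∈ A.CHd X i,
    A.push f x ∈ A.CHd Y (i + Y.dim - X.dim) := by
  rw [add_sub_assoc]
  exact (A.isMap f).push_deg i

theorem projection {X Y : SmProj k} (f : X ⟶ Y) (x : A.CH X) (y : A.CH Y) :
    A.push f (A.pull f y * x) = y * A.push f x := (A.isMap f).projection x y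

theorem base_change {X' X Y' Y : SmProj k} (g' : X' ⟶ X) (f' : X' ⟶ Y') (f : X ⟶ Y) (g : Y' ⟶ Y)
    (h : IsPullback (sch g') (sch f') (sch f) (sch g)) (hd : X'.dim + Y.dim = X.dim + Y'.dim)
    (x : A.CH X) : A.pull g (A.push f x) = A.push f' (A.pull g' x) :=
  A.baseChange g' f' f g h hd x

end Chow

namespace Weil

variable {k : Type u} [Field k] {A : Chow k} {K : Type v} [Field K] [CharZero K]
  (W : Weil.{u, v, w} A K)

instance finite (X : SmProj k) : Module.Finite K (W.H X) := (W.isPoincare X).finite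

theorem deg_eq_bot (X : SmProj k) (i : ℕ) : 2 * X.dim < i → W.deg X i = ⊥ :=
  (W.isPoincare X).deg_eq_bot i

theorem mul_comm (X : SmProj k) (i j : ℕ) : ∀ x ∈ W.deg X i, ∀ y ∈ W.deg X j,
    x * y = (-1 : K) ^ (i * j) • (y * x) := (W.isPoincare X).mul_comm i j

theorem pull_id (X : SmProj k) (x : W.H X) : W.pull (𝟙 X) x = x := by
  rw [W.map_id]; rfl

theorem pull_comp {X Y Z : SmProj k} (f : X ⟶ Y) (g : Y ⟶ Z) (x : W.H Z) :
    W.pull (f ≫ g) x = W.pull f (W.pull g x) := by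
  rw [W.map_comp]; rfl

theorem pull_deg {X Y : SmProj k} (f : X ⟶ Y) (i : ℕ) : ∀ y ∈ W.deg Y i,
    W.pull f y ∈ W.deg X i := (W.isMap f).pull_deg i

theorem tr_deg (X : SmProj k) (i : ℕ) : i ≠ 2 * X.dim → ∀ x ∈ W.deg X i, W.tr X x = 0 :=
  (W.isPoincare X).tr_deg i

theorem tr_inj (X : SmProj k) : ∀ x ∈ W.deg X (2 * X.dim), W.tr X x = 0 → x = 0 :=
  (W.isPoincare X).tr_inj

theorem poincare (X : SmProj k) (x : W.H X) : (∀ y, W.tr X (x * y) = 0) → x = 0 :=
  (W.isPoincare X).poincare x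

theorem kunneth (X Y : SmProj k) : Function.Bijective
    (TensorProduct.lift ((LinearMap.mul K (W.H (X.prod Y))).compl₁₂
      (W.pull (p1 X Y)).toLinearMap (W.pull (p2 X Y)).toLinearMap)) :=
  (W.isKunneth X Y).bijective

theorem tr_prod (X Y : SmProj k) (x : W.H X) (y : W.H Y) :
    W.tr (X.prod Y) (W.pull (p1 X Y) x * W.pull (p2 X Y) y) = W.tr X x * W.tr Y y :=
  (W.isKunneth X Y).tr_prod x y

theorem cl_deg (X : SmProj k) (i : ℕ) : ∀ x ∈ A.CHd X i, W.cl X x ∈ W.deg X (2 * i) :=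
  (W.isPoincare X).cl_deg i

theorem cl_pull {X Y : SmProj k} (f : X ⟶ Y) (y : A.CH Y) :
    W.cl X (A.pull f y) = W.pull f (W.cl Y y) := (W.isMap f).cl_pull y

theorem cl_push {X Y : SmProj k} (f : X ⟶ Y) (x : A.CH X) (y : W.H Y) :
    W.tr Y (W.cl Y (A.push f x) * y) = W.tr X (W.cl X x * W.pull f y) := (W.isMap f).cl_push x y

variable {W}

theorem Tame.divisor {P : A.Pol} (h : W.Tame P) : P.2 ≤ A.CHd P.1 1 := h.num.divisor

theorem Tame.num_lt {P : A.Pol} (h : W.Tame P) : ∀ a : ℕ, 2 * a < P.1.dim → ∀ x ∈ P.2 ^ a,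
    (∀ y ∈ A.CHd P.1 (P.1.dim - a), A.push (toPt P.1) (x * y) = 0) → x = 0 := h.num.num_lt

theorem Tame.num_eq {P : A.Pol} (h : W.Tame P) : ∀ a : ℕ, 2 * a = P.1.dim → ∀ x ∈ P.2 ^ a,
    (∀ y ∈ P.2 ^ a, A.push (toPt P.1) (x * y) = 0) → x = 0 := h.num.num_eq

end Weil

end Pool.Agent.P.MP_638e8a_ag.H58
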