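import Pool.Agent.P.MP_90138e_ag.Segre

/-!
Smooth projective varieties, Chow rings with rational coefficients, Weil cohomology theories,
correspondences and Chow-Kuenneth decompositions.
-/

open CategoryTheory AlgebraicGeometry MonoidalCategory CartesianMonoidalCategory Order
open scoped TensorProduct
open Pool.Agent.P.MP_90138e_ag (IsProjective isProjective_unit)

universe u v w

namespace Pool.Agent.P.MP_638e8a_ag.H58

/-- A smooth projective (geometrically integral) variety over `k` of dimension `dim`. -/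
structure SmProj (k : Type u) [Field k] where
  X : Over (Spec (CommRingCat.of k))
  dim : ℕ
  smooth : SmoothOfRelativeDimension dim X.hom
  integral : GeometricallyIntegral X.hom
  projective : IsProjective X

namespace SmProj

variable {k : Type u} [Field k]

attribute [instance] SmProj.smooth SmProj.integral

instance (X : SmProj k) : IsIntegral X.X.left :=
  GeometricallyIntegral.isIntegral_of_subsingleton X.X.hom

instance (X : SmProj k) : IsLocallyNoetherian X.X.left :=
  haveI := SmoothOfRelativeDimension.smooth X.dim X.X.hom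
  LocallyOfFiniteType.isLocallyNoetherian X.X.hom

/-- Morphisms of varieties are morphisms of `k`-schemes. -/
noncomputable instance : Category (SmProj k) where
  Hom X Y := X.X ⟶ Y.X
  id X := 𝟙 X.X
  comp f g := f ≫ g

/-- A morphism of varieties read as a morphism of `k`-schemes. -/
noncomputable def ov {X Y : SmProj k} (f : X ⟶ Y) : X.X ⟶ Y.X := f

/-- The morphism of schemes underlying a morphism of varieties. -/
noncomputable def sch {X Y : SmProj k} (f : X ⟶ Y) : X.X.left ⟶ Y.X.left := (ov f).left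

theorem pt_integral (k : Type u) [Field k] :
    GeometricallyIntegral (𝟙 (Spec (CommRingCat.of k))) := by
  refine ⟨fun L _ y Z a b h ↦ ?_⟩
  have : IsIso b := h.isIso_snd_of_isIso
  exact IsIntegral.of_isIso (inv b)

/-- The point `Spec k`. -/
noncomputable def pt (k : Type u) [Field k] : SmProj k where
  X := 𝟙_ _
  dim := 0
  smooth := inferInstanceAs (SmoothOfRelativeDimension 0 (𝟙 (Spec (CommRingCat.of k))))
  integral := pt_integral k
  projective := isProjective_unit

theorem prod_smooth (X Y : SmProj k) :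
    SmoothOfRelativeDimension (X.dim + Y.dim) (X.X ⊗ Y.X).hom := by
  have := smoothOfRelativeDimension_isStableUnderBaseChange.{u} (n := Y.dim)
  have h : SmoothOfRelativeDimension Y.dim (Limits.pullback.fst X.X.hom Y.X.hom) :=
    MorphismProperty.pullback_fst (P := @SmoothOfRelativeDimension Y.dim) _ _ Y.smooth
  rw [Nat.add_comm]
  exact inferInstanceAs (SmoothOfRelativeDimension (Y.dim + X.dim)
    (Limits.pullback.fst X.X.hom Y.X.hom ≫ X.X.hom))

theorem prod_integral (X Y : SmProj k) : GeometricallyIntegral (X.X ⊗ Y.X).hom := by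
  have := SmoothOfRelativeDimension.smooth X.dim X.X.hom
  have := SmoothOfRelativeDimension.smooth Y.dim Y.X.hom
  change GeometricallyIntegral (Limits.pullback.fst X.X.hom Y.X.hom ≫ X.X.hom)
  refine ⟨fun L _ x Z a b h ↦ ?_⟩
  have : IsIntegral (Limits.pullback X.X.hom x) :=
    GeometricallyIntegral.geometrically_isIntegral _ _ _ (.of_hasPullback _ _)
  have : IsLocallyNoetherian (Limits.pullback X.X.hom x) :=
    LocallyOfFiniteType.isLocallyNoetherian (Limits.pullback.snd X.X.hom x)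
  have : IsIntegral (Limits.pullback (Limits.pullback.fst X.X.hom Y.X.hom)
      (Limits.pullback.fst X.X.hom x)) := inferInstance
  exact IsIntegral.of_isIso
    ((Limits.pullbackRightPullbackFstIso X.X.hom x (Limits.pullback.fst X.X.hom Y.X.hom)).hom ≫
      h.isoPullback.inv)

/-- The product `X ×_k Y`. -/
noncomputable def prod (X Y : SmProj k) : SmProj k where
  X := X.X ⊗ Y.X
  dim := X.dim + Y.dim
  smooth := prod_smooth X Y
  integral := prod_integral X Y
  projective := X.projective.tensor Y.projective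

/-- The first projection. -/
noncomputable def p1 (X Y : SmProj k) : X.prod Y ⟶ X := fst X.X Y.X

/-- The second projection. -/
noncomputable def p2 (X Y : SmProj k) : X.prod Y ⟶ Y := snd X.X Y.X

/-- The morphism `(f, g)` into a product. -/
noncomputable def pair {T X Y : SmProj k} (f : T ⟶ X) (g : T ⟶ Y) : T ⟶ X.prod Y :=
  lift (ov f) (ov g)

/-- The structure morphism. -/
noncomputable def toPt (X : SmProj k) : X ⟶ pt k := toUnit X.X

end SmProj

open SmProj

/-- Cycles of codimension `i`. A subvariety is identified with its generic point `z`, and its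
codimension is `coheight z`. -/
noncomputable def Z (S : Scheme.{u}) (i : ℤ) : Submodule ℚ (S →₀ ℚ) :=
  Finsupp.supported ℚ ℚ {z | ((coheight z).toNat : ℤ) = i}

/-- `x` is the divisor of a nonzero rational function on the integral closed subscheme `V`. -/
def IsDiv {V S : Scheme.{u}} [IsIntegral V] [IsLocallyNoetherian V] (ι : V ⟶ S) (x : S →₀ ℚ) :
    Prop :=
  ∃ (φ : V.functionField) (c : V →₀ ℚ), φ ≠ 0 ∧ (∀ t, c t = V.ord φ t) ∧ x = c.mapDomain ι

/-- Cycles rationally equivalent to zero. -/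
noncomputable def Rat (S : Scheme.{u}) : Submodule ℚ (S →₀ ℚ) :=
  Submodule.span ℚ {x | ∃ (V : Scheme.{u}) (_ : IsIntegral V) (_ : IsLocallyNoetherian V)
    (ι : V ⟶ S), IsClosedImmersion ι ∧ IsDiv ι x}

section

variable {R R' S S' : Type u} [CommRing R] [Algebra ℚ R] [CommRing R'] [Algebra ℚ R']
  [CommRing S] [Algebra ℚ S] [CommRing S'] [Algebra ℚ S']

/-- `c` identifies `R` with cycles modulo rational equivalence, and the product is graded. -/
structure IsChowRing (X : Scheme.{u}) [IsIntegral X] (c : (X →₀ ℚ) →ₗ[ℚ] R) : Prop where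
  surjective : Function.Surjective c
  ker : LinearMap.ker c = Rat X
  generic : c (Finsupp.single (genericPoint X) 1) = 1
  mul_deg : ∀ i j, ∀ x ∈ (Z X i).map c, ∀ y ∈ (Z X j).map c, x * y ∈ (Z X (i + j)).map c

/-- Pull-back and push-forward along `f : X ⟶ Y`, where `e = dim Y - dim X`. -/
structure IsChowMap {X Y : Scheme.{u}} (f : X ⟶ Y) (e : ℤ) (c : (X →₀ ℚ) →ₗ[ℚ] R)
    (d : (Y →₀ ℚ) →ₗ[ℚ] S) (pull : S →ₐ[ℚ] R) (push : R →ₗ[ℚ] S) : Prop where
  pull_deg : ∀ i, ∀ y ∈ (Z Y i).map d, pull y ∈ (Z X i).map c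
  push_cyc : ∀ z, push (c (Finsupp.single z 1)) = f.residueDegree z • d (Finsupp.single (f z) 1)
  push_deg : ∀ i, ∀ x ∈ (Z X i).map c, push x ∈ (Z Y (i + e)).map d
  projection : ∀ x y, push (pull y * x) = y * push x

/-- The base change formula `g^* f_* = f'_* g'^*`. -/
def BaseChange (push : R →ₗ[ℚ] S) (pull : S →ₐ[ℚ] S') (pull' : R →ₐ[ℚ] R')
    (push' : R' →ₗ[ℚ] S') : Prop :=
  ∀ x, pull (push x) = push' (pull' x)

/-- The sum of the images of two subspaces. -/
noncomputable def boxSum (p : R →ₐ[ℚ] S) (q : R' →ₐ[ℚ] S) (N : Submodule ℚ R)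
    (N' : Submodule ℚ R') : Submodule ℚ S :=
  N.map p.toLinearMap ⊔ N'.map q.toLinearMap

/-- `N` lies in degree one and its powers up to the middle degree are numerically nondegenerate
for the degree map `t`. -/
structure NumIndep (D : ℤ → Submodule ℚ R) (d : ℕ) (t : R →ₗ[ℚ] S) (N : Submodule ℚ R) :
    Prop where
  divisor : N ≤ D 1
  num_lt : ∀ a : ℕ, 2 * a < d → ∀ x ∈ N ^ a, (∀ y ∈ D (d - a), t (x * y) = 0) → x = 0
  num_eq : ∀ a : ℕ, 2 * a = d → ∀ x ∈ N ^ a, (∀ y ∈ N ^ a, t (x * y) = 0) → x = 0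

end

/-- The Chow rings `CH(X) = CH^*(X)_ℚ`: cycles modulo rational equivalence, with intersection
product, pull-back and push-forward (Fulton, Intersection Theory, 1.4, 6.2, 6.3, 6.6, 8.1, 8.3). -/
structure Chow (k : Type u) [Field k] where
  CH : SmProj k → Type u
  [ring : ∀ X, CommRing (CH X)]
  [algebra : ∀ X, Algebra ℚ (CH X)]
  cyc : ∀ X : SmProj k, (X.X.left →₀ ℚ) →ₗ[ℚ] CH X
  pull : ∀ {X Y : SmProj k}, (X ⟶ Y) → (CH Y →ₐ[ℚ] CH X)
  push : ∀ {X Y : SmProj k}, (X ⟶ Y) → (CH X →ₗ[ℚ] CH Y)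
  isRing : ∀ X : SmProj k, IsChowRing X.X.left (cyc X)
  isMap : ∀ {X Y : SmProj k} (f : X ⟶ Y),
    IsChowMap (sch f) (Y.dim - X.dim) (cyc X) (cyc Y) (pull f) (push f)
  map_id : ∀ X : SmProj k, pull (𝟙 X) = AlgHom.id ℚ (CH X)
  map_comp : ∀ {X Y Z : SmProj k} (f : X ⟶ Y) (g : Y ⟶ Z), pull (f ≫ g) = (pull f).comp (pull g)
  baseChange : ∀ {X' X Y' Y : SmProj k} (g' : X' ⟶ X) (f' : X' ⟶ Y') (f : X ⟶ Y) (g : Y' ⟶ Y),
    IsPullback (sch g') (sch f') (sch f) (sch g) → X'.dim + Y.dim = X.dim + Y'.dim →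
    BaseChange (push f) (pull g) (pull g') (push f')

namespace Chow

attribute [instance] Chow.ring Chow.algebra

variable {k : Type u} [Field k] (A : Chow k)

/-- `CH^i(X)`: the classes of cycles of codimension `i`. -/
noncomputable def CHd (X : SmProj k) (i : ℤ) : Submodule ℚ (A.CH X) :=
  (Z X.X.left i).map (A.cyc X)

/-- Composition of correspondences, first `α` then `β`: `p13_* (p12^* α · p23^* β)`. -/
noncomputable def comp {X Y Z : SmProj k} (α : A.CH (X.prod Y)) (β : A.CH (Y.prod Z)) :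
    A.CH (X.prod Z) :=
  A.push (pair (p1 (X.prod Y) Z ≫ p1 X Y) (p2 (X.prod Y) Z))
    (A.pull (p1 (X.prod Y) Z) α * A.pull (pair (p1 (X.prod Y) Z ≫ p2 X Y) (p2 (X.prod Y) Z)) β)

/-- The class of the diagonal. -/
noncomputable def diag (X : SmProj k) : A.CH (X.prod X) := A.push (pair (𝟙 X) (𝟙 X)) 1

/-- A variety with a space of cycle classes (it will be a space of divisor classes). -/
structure Pol where
  B : SmProj k
  N : Submodule ℚ (A.CH B)

/-- `(B × B', pr_1^* N + pr_2^* N')`. -/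
noncomputable def Pol.prod {A : Chow k} (P Q : A.Pol) : A.Pol :=
  ⟨P.B.prod Q.B, boxSum (A.pull (p1 P.B Q.B)) (A.pull (p2 P.B Q.B)) P.N Q.N⟩

/-- The product `B_1 × (B_2 × ... × (B_m × pt))` with the space `∑ pr_j^* N_j`. -/
noncomputable def bigProd (l : List A.Pol) : A.Pol := l.foldr Pol.prod ⟨pt k, ⊥⟩

end Chow

section

variable {K : Type v} [Field K] {H H' H'' : Type w} [Ring H] [Algebra K H] [Ring H'] [Algebra K H']
  [Ring H''] [Algebra K H''] {R S : Type u} [CommRing R] [Algebra ℚ R] [CommRing S] [Algebra ℚ S]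

/-- A graded commutative Poincare duality algebra with trace in degree `2 d`, and a cycle class
map doubling degrees. -/
structure IsPoincare (deg : ℕ → Submodule K H) (tr : H →ₗ[K] K) (d : ℕ)
    (D : ℤ → Submodule ℚ R) (cl : R →+* H) : Prop where
  finite : Module.Finite K H
  deg_eq_bot : ∀ i, 2 * d < i → deg i = ⊥
  mul_comm : ∀ i j, ∀ x ∈ deg i, ∀ y ∈ deg j, x * y = (-1 : K) ^ (i * j) • (y * x)
  tr_deg : ∀ i, i ≠ 2 * d → ∀ x ∈ deg i, tr x = 0
  tr_inj : ∀ x ∈ deg (2 * d), tr x = 0 → x = 0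
  poincare : ∀ x, (∀ y, tr (x * y) = 0) → x = 0
  cl_deg : ∀ i : ℕ, ∀ x ∈ D i, cl x ∈ deg (2 * i)

/-- The pull-back `φ` is graded, and cycle classes commute with pull-back and push-forward; the
push-forward in cohomology is the Poincare dual of `φ`. -/
structure IsWeilMap (deg : ℕ → Submodule K H) (deg' : ℕ → Submodule K H') (tr : H →ₗ[K] K)
    (tr' : H' →ₗ[K] K) (cl : R →+* H) (cl' : S →+* H') (pull : S →ₐ[ℚ] R) (push : R →ₗ[ℚ] S)
    (φ : H' →ₐ[K] H) : Prop where
  pull_deg : ∀ i, ∀ y ∈ deg' i, φ y ∈ deg i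
  cl_pull : ∀ y, cl (pull y) = φ (cl' y)
  cl_push : ∀ x y, tr' (cl' (push x) * y) = tr (cl x * φ y)

/-- The Kuenneth formula: `x ⊗ y ↦ p x * q y` is bijective and multiplies traces. -/
structure IsKunneth (p : H →ₐ[K] H'') (q : H' →ₐ[K] H'') (tr : H →ₗ[K] K) (tr' : H' →ₗ[K] K)
    (tr'' : H'' →ₗ[K] K) : Prop where
  bijective : Function.Bijective
    (TensorProduct.lift ((LinearMap.mul K H'').compl₁₂ p.toLinearMap q.toLinearMap))
  tr_prod : ∀ x y, tr'' (p x * q y) = tr x * tr' y

/-- The class `γ` on a product acts as `T`, that is `T x = q_* (p^* x ∪ γ)`, the push-forward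
`q_*` being the Poincare dual of `q^*`. -/
def ActsAs (p : H →ₐ[K] H'') (q : H' →ₐ[K] H'') (tr' : H' →ₗ[K] K) (tr'' : H'' →ₗ[K] K)
    (γ : H'') (T : H →ₗ[K] H') : Prop :=
  ∀ x y, tr' (T x * y) = tr'' (p x * γ * q y)

/-- The classes of the powers of `N` span the cohomology in degrees below `d`. -/
def Spans (deg : ℕ → Submodule K H) (cl : R →+* H) (d : ℕ) (N : Submodule ℚ R) : Prop :=
  ∀ j < d, deg j ≤ Submodule.span K {y | ∃ a, 2 * a = j ∧ ∃ x ∈ N ^ a, cl x = y}

/-- Weak Lefschetz for `φ` and hard Lefschetz for `η`, in dimension `d`. -/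
structure IsLefschetz (deg : ℕ → Submodule K H) (deg' : ℕ → Submodule K H') (d : ℕ)
    (φ : H' →ₐ[K] H) (η : H) : Prop where
  weak : ∀ i < d, ∀ x ∈ deg i, ∃ y ∈ deg' i, φ y = x
  hard : ∀ i < d, Set.BijOn (fun x => η ^ (d - i) * x) (deg i) (deg (2 * d - i))

end

/-- A Weil cohomology theory (Kleiman) with coefficients in `K`, Tate twists suppressed. -/
structure Weil {k : Type u} [Field k] (A : Chow k) (K : Type v) [Field K] [CharZero K] where
  H : SmProj k → Type w
  [ring : ∀ X, Ring (H X)]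
  [algebra : ∀ X, Algebra K (H X)]
  deg : ∀ X, ℕ → Submodule K (H X)
  [graded : ∀ X, GradedAlgebra (deg X)]
  pull : ∀ {X Y : SmProj k}, (X ⟶ Y) → (H Y →ₐ[K] H X)
  tr : ∀ X, H X →ₗ[K] K
  cl : ∀ X : SmProj k, A.CH X →+* H X
  isPoincare : ∀ X : SmProj k, IsPoincare (deg X) (tr X) X.dim (A.CHd X) (cl X)
  isMap : ∀ {X Y : SmProj k} (f : X ⟶ Y),
    IsWeilMap (deg X) (deg Y) (tr X) (tr Y) (cl X) (cl Y) (A.pull f) (A.push f) (pull f)
  map_id : ∀ X : SmProj k, pull (𝟙 X) = AlgHom.id K (H X)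
  map_comp : ∀ {X Y Z : SmProj k} (f : X ⟶ Y) (g : Y ⟶ Z), pull (f ≫ g) = (pull f).comp (pull g)
  isKunneth : ∀ X Y : SmProj k,
    IsKunneth (pull (p1 X Y)) (pull (p2 X Y)) (tr X) (tr Y) (tr (X.prod Y))
  tr_pt : tr (pt k) 1 = 1

namespace Weil

attribute [instance] Weil.ring Weil.algebra Weil.graded

variable {k : Type u} [Field k] {A : Chow k} {K : Type v} [Field K] [CharZero K]
  (W : Weil.{u, v, w} A K)

/-- The correspondence `γ` acts on cohomology as `T`. -/
def Acts {X Y : SmProj k} (γ : A.CH (X.prod Y)) (T : W.H X →ₗ[K] W.H Y) : Prop :=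
  ActsAs (W.pull (p1 X Y)) (W.pull (p2 X Y)) (W.tr Y) (W.tr (X.prod Y)) (W.cl _ γ) T

/-- `X` has a Chow-Kuenneth decomposition. -/
def HasCK (X : SmProj k) : Prop :=
  ∃ π : Fin (2 * X.dim + 1) → A.CH (X.prod X), (∀ i, π i ∈ A.CHd (X.prod X) X.dim) ∧
    (∀ i j, A.comp (π i) (π j) = if i = j then π i else 0) ∧ ∑ i, π i = A.diag X ∧
    ∀ i, W.Acts (π i) (GradedAlgebra.proj (W.deg X) i)

/-- `N` is a space of divisor classes on `B` whose products, up to the middle codimension, are
numerically independent, and generate the cohomology below the middle degree. -/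
structure Tame (P : A.Pol) : Prop where
  num : NumIndep (A.CHd P.B) P.B.dim (A.push (toPt P.B)) P.N
  gen : Spans (W.deg P.B) (W.cl P.B) P.B.dim P.N

/-- `f : X ⟶ B` is a Lefschetz section of codimension `c` for the divisor class `h`, and the
classes `f_* h^r` are polynomials in `N`. -/
structure Section (P : A.Pol) {X : SmProj k} (f : X ⟶ P.B) (c : ℕ) (h : A.CH X) : Prop where
  dim : P.B.dim = X.dim + c
  divisor : h ∈ A.CHd X 1
  split : ∀ r ≤ X.dim, A.push f (h ^ r) ∈ P.N ^ (r + c)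
  lefschetz : IsLefschetz (W.deg X) (W.deg P.B) X.dim (W.pull f) (W.cl X h)

end Weil

end Pool.Agent.P.MP_638e8a_ag.H58
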