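import Pool.Agent.P.MP_638e8a_ag.H58Op

/-!
Frames (systems of matrix units adapted to multiplication by divisors), generalized inverses,
orthogonalisation, and the Chow-Kuenneth decomposition of a variety with a Lefschetz type map to
a framed variety.
-/

open CategoryTheory

universe u v w

namespace Pool.Agent.P.MP_638e8a_ag.H58

open SmProj

theorem exists_ginv {ι : Type} [Fintype ι] [DecidableEq ι] (m : Matrix ι ι ℚ) :
    ∃ θ : Matrix ι ι ℚ, m * θ * m = m := by
  obtain ⟨g, hg⟩ := (Matrix.toLin' m).rangeRestrict.exists_rightInverse_of_surjective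
    (LinearMap.range_rangeRestrict _)
  obtain ⟨p, hp⟩ := (LinearMap.range (Matrix.toLin' m)).subtype.exists_leftInverse_of_injective
    (Submodule.ker_subtype _)
  refine ⟨LinearMap.toMatrix' (g ∘ₗ p), Matrix.toLin'.injective ?_⟩
  rw [Matrix.toLin'_mul, Matrix.toLin'_mul, Matrix.toLin'_toMatrix']
  refine LinearMap.ext fun x => ?_
  have h1 := LinearMap.congr_fun hp ((Matrix.toLin' m).rangeRestrict x)
  have h2 := congrArg Subtype.val (LinearMap.congr_fun hg ((Matrix.toLin' m).rangeRestrict x))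
  simp only [LinearMap.comp_apply, LinearMap.id_apply] at h1 h2 ⊢
  change p (Matrix.toLin' m x) = _ at h1
  rw [h1]
  exact h2

namespace Weil

variable {k : Type u} [Field k] {A : Chow k} {K : Type v} [Field K] [CharZero K]
  (W : Weil.{u, v, w} A K) {X Y : SmProj k}

open Mot

/-- Semi-orthogonal projectors outside the middle degree give a Chow-Kuenneth decomposition. -/
theorem hasCK_of_semi (E : ℕ → W.Op X X) (h0 : ∀ i, E i ∈ Deg W X X 0)
    (h1 : ∀ i, E i ≫ E i = E i) (h2 : ∀ i j, i < j → E i ≫ E j = 0) (hd : E X.dim = 0)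
    (h3 : ∀ i ≤ 2 * X.dim, i ≠ X.dim → sig (E i) = W.proj X (2 * X.dim - i)) : W.HasCK X := by
  let G : ℕ → W.Op X X := fun n => Nat.rec (𝟙 _) (fun i g => (𝟙 _ - E i) ≫ g) n
  have G0 : G 0 = 𝟙 _ := rfl
  have Gs : ∀ i, G (i + 1) = (𝟙 _ - E i) ≫ G i := fun _ => rfl
  have hG0 : ∀ i, G i ∈ Deg W X X 0 := by
    intro i
    induction i with
    | zero => exact id_mem_deg
    | succ i ih => exact comp_mem_deg (sub_mem id_mem_deg (h0 i)) ih rfl
  have hG1 : ∀ i j, i ≤ j → G i ≫ E j = E j := by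
    intro i j
    induction i with
    | zero => intro _; rw [G0, Category.id_comp]
    | succ i ih =>
      intro h
      rw [Gs, Category.assoc, ih (by omega), Preadditive.sub_comp, h2 i j (by omega),
        Category.id_comp, sub_zero]
  have hG2 : ∀ i j, j < i → G i ≫ E j = 0 := by
    intro i j
    induction i with
    | zero => intro h; omega
    | succ i ih =>
      intro h
      rcases Nat.lt_succ_iff_lt_or_eq.mp h with h | rfl
      · rw [Gs, Category.assoc, ih h, Limits.comp_zero]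
      · rw [Gs, Category.assoc, hG1 j j le_rfl, Preadditive.sub_comp, h1, Category.id_comp,
          sub_self]
  have hE : ∀ i j, (E i ≫ G i) ≫ E j ≫ G j = if i = j then E i ≫ G i else 0 := by
    intro i j
    rw [Category.assoc, ← Category.assoc (G i)]
    rcases lt_trichotomy i j with h | rfl | h
    · rw [hG1 i j h.le, ← Category.assoc, h2 i j h, Limits.zero_comp, if_neg h.ne]
    · rw [hG1 i i le_rfl, ← Category.assoc, h1, if_pos rfl]
    · rw [hG2 i j h, Limits.zero_comp, Limits.comp_zero, if_neg h.ne']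
  have hs : ∀ j ≤ 2 * X.dim, ∀ i ≤ j, sig (E j ≫ G i) = sig (E j) := by
    intro j hj i
    induction i with
    | zero => intro _; rw [G0, Category.comp_id]
    | succ i ih =>
      intro h
      have : sig (E j ≫ E i) = 0 := by
        by_cases hi : i = X.dim
        · rw [hi, hd, Limits.comp_zero, sig_zero]
        by_cases hj' : j = X.dim
        · rw [hj', hd, Limits.zero_comp, sig_zero]
        rw [sig_comp, h3 i (by omega) hi, h3 j hj hj']
        ext x
        exact W.proj_of_mem_ne (W.proj_mem _ x) (by omega)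
      rw [Gs, ← Category.assoc, sig_comp, Preadditive.comp_sub, Category.comp_id, sig_sub, this,
        sub_zero, ← sig_comp, ih (by omega)]
  let F : Fin (2 * X.dim + 1) → W.Op X X := fun i => E i ≫ G i
  have hF : ∀ i j, F i ≫ F j = if i = j then F i else 0 := fun i j => by
    simp only [F, hE, Fin.ext_iff]
  have hFd : ∀ i : Fin (2 * X.dim + 1), (i : ℕ) = X.dim → F i = 0 := fun i hi => by
    simp only [F, hi, hd, Limits.zero_comp]
  have hl : ∀ i, F i ≫ (𝟙 _ - ∑ j, F j) = 0 := fun i => by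
    simp only [Preadditive.comp_sub, Preadditive.comp_sum, hF, Category.comp_id]
    rw [Finset.sum_eq_single i (fun j _ hj => if_neg hj.symm) (by simp), if_pos rfl, sub_self]
  have hr : ∀ i, (𝟙 _ - ∑ j, F j) ≫ F i = 0 := fun i => by
    simp only [Preadditive.sub_comp, Preadditive.sum_comp, hF, Category.id_comp]
    rw [Finset.sum_eq_single i (fun j _ hj => if_neg hj) (by simp), if_pos rfl, sub_self]
  let d : Fin (2 * X.dim + 1) := ⟨X.dim, by omega⟩
  refine W.hasCK_of_ops (fun i => if i = d then 𝟙 _ - ∑ j, F j else F i) (fun i => ?_)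
    (fun i j => ?_) ?_ (fun i => ?_)
  · split_ifs
    · exact sub_mem id_mem_deg (Submodule.sum_mem _ fun j _ => comp_mem_deg (h0 j) (hG0 j) rfl)
    · exact comp_mem_deg (h0 i) (hG0 i) rfl
  · by_cases hi : i = d <;> by_cases hj : j = d
    · rw [if_pos hi, if_pos hj, if_pos (hi.trans hj.symm), Preadditive.comp_sub, Category.comp_id,
        Preadditive.comp_sum, Finset.sum_eq_zero fun j _ => hr j, sub_zero]
    · rw [if_pos hi, if_neg hj, hr, if_neg fun h => hj (h.symm.trans hi)]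
    · rw [if_neg hi, if_pos hj, hl, if_neg fun h => hi (h.trans hj)]
    · rw [if_neg hi, if_neg hj, hF]
  · rw [← Finset.add_sum_erase _ _ (Finset.mem_univ d), if_pos rfl,
      Finset.sum_congr rfl fun i hi => if_neg (Finset.ne_of_mem_erase hi),
      Finset.sum_erase _ (hFd d rfl), sub_add_cancel]
  · have h4 : ∀ i : Fin (2 * X.dim + 1), i ≠ d → sig (F i) = W.proj X (2 * X.dim - i) :=
      fun i hi => (hs i (by omega) i le_rfl).trans (h3 i (by omega) fun h => hi (Fin.ext h))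
    split_ifs with hi
    · subst hi
      rw [sig_sub, sig_id, sig_sum]
      refine W.deg_ext fun m x hx => ?_
      rw [LinearMap.sub_apply, LinearMap.sum_apply, LinearMap.id_apply]
      by_cases hm : m = X.dim
      · rw [Finset.sum_eq_zero, sub_zero, W.proj_of_mem (by convert hx using 2; simp [d]; omega)]
        intro j _
        by_cases hj : j = d
        · rw [hFd j (by rw [hj]), sig_zero, LinearMap.zero_apply]
        · rw [h4 j hj, W.proj_of_mem_ne hx]
          have : (j : ℕ) ≠ X.dim := fun h => hj (Fin.ext h)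
          omega
      by_cases hm' : 2 * X.dim < m
      · have : x = 0 := (Submodule.eq_bot_iff _).1 (W.deg_eq_bot X m hm') x hx
        simp [this]
      rw [W.proj_of_mem_ne hx (by simp [d]; omega), sub_eq_zero,
        Finset.sum_eq_single ⟨2 * X.dim - m, by omega⟩]
      · rw [h4 _ (fun h => hm (by have := congrArg Fin.val h; simp [d] at this; omega)),
          W.proj_of_mem (by convert hx using 2; simp; omega)]
      · intro j _ hj'
        by_cases hj : j = d
        · rw [hFd j (by rw [hj]), sig_zero, LinearMap.zero_apply]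
        · rw [h4 j hj, W.proj_of_mem_ne hx]
          have : (j : ℕ) ≠ 2 * X.dim - m := fun h => hj' (Fin.ext h)
          omega
      · simp
    · exact h4 i hi

/-- A system of matrix units among the operators on `Y`, with weights, for which multiplication by
products of elements of `N` is filtered with scalar graded part. -/
structure Frame (Y : SmProj k) (N : Submodule ℚ (A.CH Y)) where
  ι : Type
  [fin : Fintype ι]
  [dec : DecidableEq ι]
  S : Type
  [decS : DecidableEq S]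
  s : ι → S
  wt : ι → ℕ
  u : ι → ι → W.Op Y Y
  mul : ∀ a b c, s a = s b → s b = s c → u a b ≫ u b c = u a c
  orth : ∀ a b c d, s a = s b → s c = s d → b ≠ c → u a b ≫ u c d = 0
  sum : ∑ a, u a a = 𝟙 _
  deg : ∀ a b, s a = s b → ∃ r : ℤ, 2 * r = wt b - wt a ∧ u a b ∈ Deg W Y Y r
  sig_u : ∀ a j, ∀ x ∈ W.deg Y j, j + wt a ≠ 2 * Y.dim → sig (u a a) x = 0
  filt : ∀ (c : ℕ), ∀ γ ∈ N ^ c, ∀ a b, wt a + 2 * c ≤ wt b → ∃ q : ℚ,
    (q ≠ 0 → s a = s b ∧ wt a + 2 * c = wt b) ∧ u a a ≫ W.mulOp γ ≫ u b b = q • u a b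

namespace Frame

attribute [instance] Frame.fin Frame.dec Frame.decS

variable {W} {N : Submodule ℚ (A.CH Y)} (F : W.Frame Y N)

/-- The operator attached to a matrix. -/
noncomputable def φ (x : Matrix F.ι F.ι ℚ) : W.Op Y Y := ∑ a, ∑ b, x a b • F.u a b

/-- Block diagonal matrices. -/
def Blk (x : Matrix F.ι F.ι ℚ) : Prop := ∀ a b, x a b ≠ 0 → F.s a = F.s b

theorem φ_mul {x y : Matrix F.ι F.ι ℚ} (hx : F.Blk x) (hy : F.Blk y) :
    F.φ x ≫ F.φ y = F.φ (x * y) := by
  have key : ∀ a b c d, (x a b • F.u a b) ≫ (y c d • F.u c d) =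
      if b = c then (x a b * y c d) • F.u a d else 0 := by
    intro a b c d
    rw [Linear.smul_comp, Linear.comp_smul, smul_smul]
    by_cases h1 : x a b = 0
    · simp only [h1, zero_mul, zero_smul, ite_self]
    by_cases h2 : y c d = 0
    · simp only [h2, mul_zero, zero_smul, ite_self]
    split_ifs with h
    · subst h
      rw [F.mul _ _ _ (hx _ _ h1) (hy _ _ h2)]
    · rw [F.orth _ _ _ _ (hx _ _ h1) (hy _ _ h2) h, smul_zero]
  simp only [φ, Preadditive.sum_comp, Matrix.mul_apply, Finset.sum_smul]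
  refine Finset.sum_congr rfl fun a _ => ?_
  conv_rhs => rw [Finset.sum_comm]
  refine Finset.sum_congr rfl fun b _ => ?_
  simp only [Preadditive.comp_sum, key]
  rw [Finset.sum_comm]
  simp

theorem Blk.mul {x y : Matrix F.ι F.ι ℚ} (hx : F.Blk x) (hy : F.Blk y) : F.Blk (x * y) := by
  intro a b h
  obtain ⟨c, -, hc⟩ := Finset.exists_ne_zero_of_sum_ne_zero h
  exact (hx _ _ (left_ne_zero_of_mul hc)).trans (hy _ _ (right_ne_zero_of_mul hc))

/-- The diagonal matrix of weight `j`. -/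
def D (j : ℕ) : Matrix F.ι F.ι ℚ := Matrix.diagonal fun a => if F.wt a = j then 1 else 0

theorem blk_D (j : ℕ) : F.Blk (F.D j) := fun a b h => by
  by_contra h'
  exact h (Matrix.diagonal_apply_ne _ fun e => h' (congrArg F.s e))

/-- The projector onto weight `j`. -/
noncomputable def Pr (j : ℕ) : W.Op Y Y := F.φ (F.D j)

theorem Pr_eq (j : ℕ) : F.Pr j = ∑ a, if F.wt a = j then F.u a a else 0 := by
  refine Finset.sum_congr rfl fun a _ => ?_
  rw [Finset.sum_eq_single a (fun b _ hb => by rw [D, Matrix.diagonal_apply_ne _ hb.symm, zero_smul])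
    (by simp), D, Matrix.diagonal_apply_eq]
  split_ifs <;> simp

theorem sig_Pr {i j : ℕ} (h : i + j = 2 * Y.dim) : sig (F.Pr j) = W.proj Y i := by
  refine W.deg_ext fun m x hx => ?_
  rw [Pr_eq, sig_sum, LinearMap.sum_apply]
  by_cases hm : m = i
  · subst hm
    rw [W.proj_of_mem hx]
    have h1 := LinearMap.congr_fun (congrArg sig F.sum) x
    rw [sig_id, sig_sum, LinearMap.sum_apply, LinearMap.id_apply] at h1
    refine Eq.trans (Finset.sum_congr rfl fun a _ => ?_) h1
    split_ifs with ha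
    · rfl
    · rw [sig_zero, F.sig_u a m x hx (by omega), LinearMap.zero_apply]
  · rw [W.proj_of_mem_ne hx hm]
    refine Finset.sum_eq_zero fun a _ => ?_
    split_ifs with ha
    · exact F.sig_u a m x hx (by omega)
    · rw [sig_zero, LinearMap.zero_apply]

theorem exists_matrix {i j c : ℕ} (h : i + 2 * c ≤ j) {γ : A.CH Y} (hγ : γ ∈ N ^ c) :
    ∃ m : Matrix F.ι F.ι ℚ, (∀ a b, m a b ≠ 0 → F.s a = F.s b ∧ F.wt a = i ∧ F.wt b = j ∧
      i + 2 * c = j) ∧ F.Pr i ≫ W.mulOp γ ≫ F.Pr j = F.φ m := by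
  have : ∀ a b, ∃ q : ℚ, (q ≠ 0 → F.s a = F.s b ∧ F.wt a = i ∧ F.wt b = j ∧ i + 2 * c = j) ∧
      (if F.wt a = i then F.u a a else 0) ≫ W.mulOp γ ≫ (if F.wt b = j then F.u b b else 0) =
        q • F.u a b := by
    intro a b
    by_cases ha : F.wt a = i
    · by_cases hb : F.wt b = j
      · obtain ⟨q, hq, hq'⟩ := F.filt c γ hγ a b (by omega)
        exact ⟨q, fun h0 => ⟨(hq h0).1, ha, hb, by have := (hq h0).2; omega⟩,
          by rw [if_pos ha, if_pos hb, hq']⟩
      · exact ⟨0, fun h0 => absurd rfl h0, by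
          rw [if_neg hb, Limits.comp_zero, Limits.comp_zero, zero_smul]⟩
    · exact ⟨0, fun h0 => absurd rfl h0, by rw [if_neg ha, Limits.zero_comp, zero_smul]⟩
  choose m hm hm' using this
  refine ⟨Matrix.of m, hm, ?_⟩
  simp only [Pr_eq, Preadditive.sum_comp, Preadditive.comp_sum, φ, hm', Matrix.of_apply]
  rw [Finset.sum_comm]

theorem Pr_mul_Pr {i j c : ℕ} (h : i + 2 * c < j) {γ : A.CH Y} (hγ : γ ∈ N ^ c) :
    F.Pr i ≫ W.mulOp γ ≫ F.Pr j = 0 := by
  obtain ⟨m, hm, hm'⟩ := F.exists_matrix h.le hγ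
  have : m = 0 := by
    ext a b
    by_contra h0
    have := (hm a b h0).2.2.2
    omega
  rw [hm', this]
  simp only [φ, Matrix.zero_apply, zero_smul, Finset.sum_const_zero]

theorem exists_theta {i j c : ℕ} (h : i + 2 * c = j) {γ : A.CH Y} (hγ : γ ∈ N ^ c) :
    ∃ Θ : W.Op Y Y, F.Pr j ≫ Θ = Θ ∧ Θ ≫ F.Pr i = Θ ∧ Θ ≫ W.mulOp γ ≫ Θ = Θ ∧
      F.Pr i ≫ W.mulOp γ ≫ Θ ≫ W.mulOp γ ≫ F.Pr j = F.Pr i ≫ W.mulOp γ ≫ F.Pr j ∧
      Θ ∈ Deg W Y Y (-c) := by
  obtain ⟨m, hm, hm'⟩ := F.exists_matrix h.le hγ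
  obtain ⟨θ₀, h0⟩ := exists_ginv m
  let θ₁ : Matrix F.ι F.ι ℚ := Matrix.of fun a b =>
    if F.s a = F.s b ∧ F.wt a = j ∧ F.wt b = i then θ₀ a b else 0
  have hθ₁ : ∀ a b, θ₁ a b ≠ 0 → F.s a = F.s b ∧ F.wt a = j ∧ F.wt b = i := fun a b h => by
    by_contra h'
    exact h (if_neg h')
  have bm : F.Blk m := fun a b h => (hm a b h).1
  have b1 : F.Blk θ₁ := fun a b h => (hθ₁ a b h).1
  have h1 : m * θ₁ * m = m := by
    ext a d
    by_cases had : F.s a = F.s d
    · conv_rhs => rw [← h0]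
      simp only [Matrix.mul_apply, Finset.sum_mul]
      refine Finset.sum_congr rfl fun c _ => Finset.sum_congr rfl fun b _ => ?_
      by_cases e1 : m a b = 0
      · simp [e1]
      by_cases e2 : m c d = 0
      · simp [e2]
      have e3 := hm _ _ e1
      have e4 := hm _ _ e2
      rw [show θ₁ b c = θ₀ b c from
        if_pos ⟨e3.1.symm.trans (had.trans e4.1.symm), e3.2.2.1, e4.2.1⟩]
    · rw [show m a d = 0 from by_contra fun h => had (bm _ _ h)]
      exact by_contra fun h => had (((bm.mul F b1).mul F bm) _ _ h)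
  have hl : F.D j * θ₁ = θ₁ := by
    ext a b
    rw [D, Matrix.diagonal_mul]
    split_ifs with h
    · rw [one_mul]
    · rw [zero_mul]
      exact (by_contra fun h' => h (hθ₁ a b (Ne.symm h')).2.1)
  have hr : θ₁ * F.D i = θ₁ := by
    ext a b
    rw [D, Matrix.mul_diagonal]
    split_ifs with h
    · rw [mul_one]
    · rw [mul_zero]
      exact (by_contra fun h' => h (hθ₁ a b (Ne.symm h')).2.2)
  have bθ : F.Blk (θ₁ * m * θ₁) := (b1.mul F bm).mul F b1
  have e1 : F.Pr j ≫ F.φ (θ₁ * m * θ₁) = F.φ (θ₁ * m * θ₁) := by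
    rw [Pr, F.φ_mul (F.blk_D j) bθ, ← Matrix.mul_assoc, ← Matrix.mul_assoc, hl]
  have e2 : F.φ (θ₁ * m * θ₁) ≫ F.Pr i = F.φ (θ₁ * m * θ₁) := by
    rw [Pr, F.φ_mul bθ (F.blk_D i), Matrix.mul_assoc, hr]
  refine ⟨F.φ (θ₁ * m * θ₁), e1, e2, ?_, ?_, ?_⟩
  · calc _ = (F.φ (θ₁ * m * θ₁) ≫ F.Pr i) ≫ W.mulOp γ ≫ F.Pr j ≫ F.φ (θ₁ * m * θ₁) := by
          rw [e1, e2]
      _ = F.φ (θ₁ * m * θ₁) ≫ (F.Pr i ≫ W.mulOp γ ≫ F.Pr j) ≫ F.φ (θ₁ * m * θ₁) := by
          simp only [Category.assoc]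
      _ = _ := by
          rw [hm', F.φ_mul bm bθ, F.φ_mul bθ (bm.mul F bθ)]
          congr 1
          calc _ = θ₁ * (m * θ₁ * m * θ₁ * m) * θ₁ := by simp only [Matrix.mul_assoc]
            _ = _ := by rw [h1, h1]
  · calc _ = F.Pr i ≫ W.mulOp γ ≫ (F.Pr j ≫ F.φ (θ₁ * m * θ₁) ≫ F.Pr i) ≫
            W.mulOp γ ≫ F.Pr j := by rw [e2, e1]
      _ = (F.Pr i ≫ W.mulOp γ ≫ F.Pr j) ≫ F.φ (θ₁ * m * θ₁) ≫
            (F.Pr i ≫ W.mulOp γ ≫ F.Pr j) := by simp only [Category.assoc]
      _ = _ := by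
          rw [hm', F.φ_mul bθ bm, F.φ_mul bm (bθ.mul F bm)]
          congr 1
          calc _ = m * θ₁ * m * θ₁ * m := by simp only [Matrix.mul_assoc]
            _ = _ := by rw [h1, h1]
  · refine Submodule.sum_mem _ fun a _ => Submodule.sum_mem _ fun b _ => ?_
    by_cases hab : (θ₁ * m * θ₁) a b = 0
    · rw [hab, zero_smul]
      exact zero_mem _
    have ha : F.wt a = j := by
      rw [Matrix.mul_assoc, ← hl, Matrix.mul_assoc, D, Matrix.diagonal_mul] at hab
      by_contra h'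
      exact hab (by rw [if_neg h', zero_mul])
    have hb : F.wt b = i := by
      rw [← hr, ← Matrix.mul_assoc, D, Matrix.mul_diagonal] at hab
      by_contra h'
      exact hab (by rw [if_neg h', mul_zero])
    obtain ⟨r, hr1, hr2⟩ := F.deg a b (bθ a b hab)
    have : r = -c := by omega
    exact Submodule.smul_mem _ _ (this ▸ hr2)

include F in
/-- A variety with a Lefschetz type map to a framed variety has a Chow-Kuenneth decomposition. -/
theorem hasCK (f : X ⟶ Y) (c : ℕ) (hc : Y.dim = X.dim + c) (ℓ : A.CH X) (hℓ : ℓ ∈ A.CHd X 1)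
    (hγ : ∀ r ≤ X.dim, A.push f (ℓ ^ r) ∈ N ^ (r + c))
    (hw : ∀ i < X.dim, ∀ x ∈ W.deg X i, ∃ y ∈ W.deg Y i, W.pull f y = x)
    (hL : ∀ i < X.dim, Set.BijOn (fun x => W.cl X ℓ ^ (X.dim - i) * x) (W.deg X i)
      (W.deg X (2 * X.dim - i))) : W.HasCK X := by
  have hℓ' : ∀ r : ℕ, ℓ ^ r ∈ A.CHd X r := fun r =>
    A.pow_le (N := Submodule.span ℚ {ℓ}) (Submodule.span_le.mpr (Set.singleton_subset_iff.mpr hℓ))
      r (Submodule.pow_mem_pow _ (Submodule.mem_span_singleton_self ℓ) r)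
  have := fun i : ℕ => F.exists_theta (i := min i X.dim) (j := 2 * Y.dim - min i X.dim)
    (c := X.dim - min i X.dim + c) (by omega) (hγ (X.dim - min i X.dim) (by omega))
  choose Θ t1 t2 t3 t4 t5 using this
  have pmp : ∀ (r : ℕ) {Z : SmProj k} (Φ : W.Op Y Z),
      W.pullOp f ≫ W.mulOp (ℓ ^ r) ≫ W.pushOp f ≫ Φ = W.mulOp (A.push f (ℓ ^ r)) ≫ Φ :=
    fun r _ Φ => by rw [← W.pull_mul_push]; simp only [Category.assoc]
  have van : ∀ i j r, i < X.dim → j < X.dim → r ≤ X.dim → i + 2 * r + j < 2 * X.dim →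
      ∀ {Z : SmProj k} (Φ : W.Op Y Z), Θ i ≫ W.mulOp (A.push f (ℓ ^ r)) ≫ Θ j ≫ Φ = 0 := by
    intro i j r hi hj hr h Z Φ
    have h1 := F.Pr_mul_Pr (i := min i X.dim) (j := 2 * Y.dim - min j X.dim) (by omega) (hγ r hr)
    rw [← t2 i, ← t1 j]
    calc _ = Θ i ≫ (F.Pr (min i X.dim) ≫ W.mulOp (A.push f (ℓ ^ r)) ≫
          F.Pr (2 * Y.dim - min j X.dim)) ≫ Θ j ≫ Φ := by simp only [Category.assoc]
      _ = 0 := by rw [h1, Limits.zero_comp, Limits.comp_zero]
  have idem : ∀ i, i < X.dim → ∀ {Z : SmProj k} (Φ : W.Op Y Z),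
      Θ i ≫ W.mulOp (A.push f (ℓ ^ (X.dim - i))) ≫ Θ i ≫ Φ = Θ i ≫ Φ := by
    intro i hi Z Φ
    have h1 := t3 i
    rw [min_eq_left hi.le] at h1
    conv_rhs => rw [← h1]
    simp only [Category.assoc]
  -- the action on cohomology
  have hpush : ∀ r y, W.push f (W.cl X ℓ ^ r * W.pull f y) = W.cl Y (A.push f (ℓ ^ r)) * y := by
    intro r y
    have h1 := LinearMap.congr_fun (congrArg sig (W.pull_mul_push f (ℓ ^ r))) y
    rwa [sig_comp_apply, sig_comp_apply, sig_pullOp, sig_mulOp, sig_pushOp, sig_mulOp,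
      map_pow] at h1
  have hkill : ∀ i, i < X.dim → ∀ m, m ≠ 2 * X.dim - i → ∀ x ∈ W.deg X m,
      sig (Θ i) (W.push f x) = 0 := by
    intro i hi m hm x hx
    rw [← t2 i, sig_comp_apply, F.sig_Pr (i := 2 * Y.dim - i) (by omega),
      W.proj_of_mem_ne (W.push_mem f (j := m + 2 * c) (by omega) hx) (by omega), map_zero]
  have hcl : ∀ r : ℕ, W.cl X ℓ ^ r ∈ W.deg X (2 * r) := fun r => by
    rw [← map_pow]
    exact W.cl_deg X r _ (hℓ' r)
  have hfix : ∀ i, i < X.dim → ∀ y ∈ W.deg Y i,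
      W.pull f (sig (Θ i) (W.push f (W.cl X ℓ ^ (X.dim - i) * W.pull f y))) = W.pull f y := by
    intro i hi y hy
    have h1 := t1 i
    have h4 := t4 i
    rw [min_eq_left hi.le] at h1 h4
    have hy' : sig (Θ i) (W.push f (W.cl X ℓ ^ (X.dim - i) * W.pull f y)) ∈ W.deg Y i := by
      rw [← h1, sig_comp_apply, F.sig_Pr (i := i) (by omega)]
      exact W.proj_mem _ _
    have hd : ∀ z ∈ W.deg Y i,
        W.cl Y (A.push f (ℓ ^ (X.dim - i))) * z ∈ W.deg Y (2 * Y.dim - i) := fun z hz => by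
      rw [← hpush]
      exact W.push_mem f (by omega) (W.mul_mem (hcl _) (W.pull_deg f i z hz))
    have h5 := LinearMap.congr_fun (congrArg sig h4) y
    simp only [sig_comp_apply, sig_mulOp] at h5
    rw [F.sig_Pr (i := i) (j := 2 * Y.dim - i) (by omega),
      F.sig_Pr (i := 2 * Y.dim - i) (j := i) (by omega), W.proj_of_mem hy,
      W.proj_of_mem (hd y hy), ← hpush (X.dim - i) y, W.proj_of_mem (hd _ hy'), ← hpush] at h5
    refine (hL i hi).injOn (W.pull_deg f i _ hy') (W.pull_deg f i _ hy) ?_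
    refine W.eq_of_tr_deg fun m x hx => ?_
    by_cases hm : m = i
    · subst hm
      obtain ⟨z, -, rfl⟩ := hw m hi x hx
      rw [← W.tr_mul_push, ← W.tr_mul_push, h5]
    · rw [W.tr_deg X _ (by omega) _ (W.mul_mem hx (W.mul_mem (hcl _) (W.pull_deg f i _ hy'))),
        W.tr_deg X _ (by omega) _ (W.mul_mem hx (W.mul_mem (hcl _) (W.pull_deg f i _ hy)))]
  let P : ℕ → W.Op X X := fun i =>
    W.mulOp (ℓ ^ (X.dim - i)) ≫ W.pushOp f ≫ Θ i ≫ W.pullOp f
  let Q : ℕ → W.Op X X := fun i =>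
    W.pushOp f ≫ Θ i ≫ W.pullOp f ≫ W.mulOp (ℓ ^ (X.dim - i))
  refine W.hasCK_of_semi (fun i => if i < X.dim then P i else
    if X.dim < i ∧ i ≤ 2 * X.dim then Q (2 * X.dim - i) else 0) (fun i => ?_) (fun i => ?_)
    (fun i j hij => ?_) (by simp) (fun i hi hi' => ?_)
  · split_ifs with h h'
    · refine comp_mem_deg (W.mulOp_deg (hℓ' _)) (comp_mem_deg (W.pushOp_deg f)
        (comp_mem_deg (t5 i) (W.pullOp_deg f) rfl) rfl) ?_
      rw [min_eq_left h.le]
      omega
    · refine comp_mem_deg (W.pushOp_deg f) (comp_mem_deg (t5 _)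
        (comp_mem_deg (W.pullOp_deg f) (W.mulOp_deg (hℓ' _)) rfl) rfl) ?_
      rw [min_eq_left (by omega)]
      omega
    · exact zero_mem _
  · split_ifs with h h'
    · simp only [P, Category.assoc, pmp, idem i h]
    · simp only [Q, Category.assoc, pmp, idem (2 * X.dim - i) (by omega)]
    · exact Limits.zero_comp
  · split_ifs with h h1 h2 h3 h4 h5
    · simp only [P, Category.assoc, pmp]
      rw [van i j _ h h1 (by omega) (by omega), Limits.comp_zero, Limits.comp_zero]
    · have := pmp 0 (Θ (2 * X.dim - j) ≫ W.pullOp f ≫ W.mulOp (ℓ ^ (X.dim - (2 * X.dim - j))))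
      rw [pow_zero, W.mulOp_one, Category.id_comp, ← pow_zero ℓ] at this
      simp only [P, Q, Category.assoc, this]
      rw [van i _ 0 h (by omega) (by omega) (by omega), Limits.comp_zero, Limits.comp_zero]
    · exact Limits.comp_zero
    · omega
    · simp only [Q, Category.assoc, pmp]
      rw [van _ _ _ (by omega) (by omega) (by omega) (by omega), Limits.comp_zero]
    · exact Limits.comp_zero
    · exact Limits.zero_comp
    · exact Limits.zero_comp
    · exact Limits.zero_comp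
  · refine W.deg_ext fun m x hx => ?_
    split_ifs with h h'
    · simp only [P, sig_comp_apply, sig_mulOp, sig_pushOp, sig_pullOp, map_pow]
      by_cases hm : m = 2 * X.dim - i
      · subst hm
        obtain ⟨x', hx', rfl⟩ := (hL i h).surjOn hx
        obtain ⟨y, hy, rfl⟩ := hw i h x' hx'
        rw [hfix i h y hy, W.proj_of_mem hx]
      · rw [hkill i h m hm x hx, map_zero, mul_zero, W.proj_of_mem_ne hx hm]
    · simp only [Q, sig_comp_apply, sig_mulOp, sig_pushOp, sig_pullOp, map_pow]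
      by_cases hm : m = 2 * X.dim - i
      · subst hm
        obtain ⟨y, hy, rfl⟩ := hw _ (by omega) x hx
        rw [hfix _ (by omega) y hy, W.proj_of_mem hx]
      · rw [hkill _ (by omega) _ (by omega) _ (W.mul_mem (hcl _) hx), map_zero,
          W.proj_of_mem_ne hx hm]
    · omega

end Frame

end Weil

end Pool.Agent.P.MP_638e8a_ag.H58
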