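import Pool.Agent.P.MP_638e8a_ag.H58Api

/-!
Products of varieties, cartesian squares, and first consequences of the Chow axioms.
-/

open CategoryTheory AlgebraicGeometry MonoidalCategory CartesianMonoidalCategory Order

universe u v w

namespace Pool.Agent.P.MP_638e8a_ag.H58

namespace SmProj

variable {k : Type u} [Field k] {T T' X Y Z X' Y' : SmProj k}

theorem ov_comp (f : X ⟶ Y) (g : Y ⟶ Z) : ov (f ≫ g) = ov f ≫ ov g := rfl

theorem ov_id (X : SmProj k) : ov (𝟙 X) = 𝟙 X.X := rfl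

theorem sch_comp (f : X ⟶ Y) (g : Y ⟶ Z) : sch (f ≫ g) = sch f ≫ sch g := rfl

theorem sch_id (X : SmProj k) : sch (𝟙 X) = 𝟙 X.X.left := rfl

@[simp] theorem prod_dim (X Y : SmProj k) : (X.prod Y).dim = X.dim + Y.dim := rfl

@[simp] theorem pt_dim : (pt k).dim = 0 := rfl

@[reassoc (attr := simp)]
theorem pair_p1 (f : T ⟶ X) (g : T ⟶ Y) : pair f g ≫ p1 X Y = f := lift_fst (ov f) (ov g)

@[reassoc (attr := simp)]
theorem pair_p2 (f : T ⟶ X) (g : T ⟶ Y) : pair f g ≫ p2 X Y = g := lift_snd (ov f) (ov g)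

@[ext]
theorem prod_ext {f g : T ⟶ X.prod Y} (h1 : f ≫ p1 X Y = g ≫ p1 X Y)
    (h2 : f ≫ p2 X Y = g ≫ p2 X Y) : f = g :=
  CartesianMonoidalCategory.hom_ext (C := Over (Spec (CommRingCat.of k))) (ov f) (ov g) h1 h2

@[ext]
theorem pt_ext (f g : T ⟶ pt k) : f = g :=
  toUnit_unique (C := Over (Spec (CommRingCat.of k))) (ov f) (ov g)

@[reassoc (attr := simp)]
theorem comp_pair (h : T' ⟶ T) (f : T ⟶ X) (g : T ⟶ Y) :
    h ≫ pair f g = pair (h ≫ f) (h ≫ g) := by ext <;> simp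

@[simp] theorem pair_p1_p2 (X Y : SmProj k) : pair (p1 X Y) (p2 X Y) = 𝟙 _ := by ext <;> simp

/-- `g × 1`. -/
noncomputable def rt (g : T' ⟶ T) (X : SmProj k) : T'.prod X ⟶ T.prod X :=
  pair (p1 T' X ≫ g) (p2 T' X)

/-- `1 × f`. -/
noncomputable def lt (T : SmProj k) (f : X ⟶ Y) : T.prod X ⟶ T.prod Y :=
  pair (p1 T X) (p2 T X ≫ f)

@[reassoc (attr := simp)]
theorem rt_p1 (g : T' ⟶ T) (X : SmProj k) : rt g X ≫ p1 T X = p1 T' X ≫ g := by simp [rt]

@[reassoc (attr := simp)]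
theorem rt_p2 (g : T' ⟶ T) (X : SmProj k) : rt g X ≫ p2 T X = p2 T' X := by simp [rt]

@[reassoc (attr := simp)]
theorem lt_p1 (T : SmProj k) (f : X ⟶ Y) : lt T f ≫ p1 T Y = p1 T X := by simp [lt]

@[reassoc (attr := simp)]
theorem lt_p2 (T : SmProj k) (f : X ⟶ Y) : lt T f ≫ p2 T Y = p2 T X ≫ f := by simp [lt]

theorem rt_lt (g : T' ⟶ T) (f : X ⟶ Y) : rt g X ≫ lt T f = lt T' f ≫ rt g Y := by
  ext <;> simp

/-- A criterion for cartesian squares, tested on all `k`-schemes. -/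
theorem isPullback_of {g' : X' ⟶ X} {f' : X' ⟶ Y'} {f : X ⟶ Y} {g : Y' ⟶ Y}
    (w : g' ≫ f = f' ≫ g)
    (ex : ∀ {S : Over (Spec (CommRingCat.of k))} (a : S ⟶ X.X) (b : S ⟶ Y'.X),
      a ≫ ov f = b ≫ ov g → ∃ l : S ⟶ X'.X, l ≫ ov g' = a ∧ l ≫ ov f' = b)
    (un : ∀ {S : Over (Spec (CommRingCat.of k))} (l l' : S ⟶ X'.X), l ≫ ov g' = l' ≫ ov g' →
      l ≫ ov f' = l' ≫ ov f' → l = l') :
    IsPullback (sch g') (sch f') (sch f) (sch g) := by
  have h : IsPullback (ov g') (ov f') (ov f) (ov g) := by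
    refine ⟨⟨w⟩, ⟨Limits.PullbackCone.IsLimit.mk _
      (fun s => (ex s.fst s.snd s.condition).choose)
      (fun s => (ex s.fst s.snd s.condition).choose_spec.1)
      (fun s => (ex s.fst s.snd s.condition).choose_spec.2) (fun s m h1 h2 => ?_)⟩⟩
    exact un _ _ (h1.trans (ex s.fst s.snd s.condition).choose_spec.1.symm)
      (h2.trans (ex s.fst s.snd s.condition).choose_spec.2.symm)
  exact h.map (Over.forget _)

/-- A morphism from a `k`-scheme into a product of varieties. -/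
noncomputable def olift {S : Over (Spec (CommRingCat.of k))} (a : S ⟶ X.X) (b : S ⟶ Y.X) :
    S ⟶ (X.prod Y).X := lift a b

@[reassoc]
theorem olift_p1 {S : Over (Spec (CommRingCat.of k))} (a : S ⟶ X.X) (b : S ⟶ Y.X) :
    olift a b ≫ ov (p1 X Y) = a := lift_fst a b

@[reassoc]
theorem olift_p2 {S : Over (Spec (CommRingCat.of k))} (a : S ⟶ X.X) (b : S ⟶ Y.X) :
    olift a b ≫ ov (p2 X Y) = b := lift_snd a b

theorem oext {S : Over (Spec (CommRingCat.of k))} {a b : S ⟶ (X.prod Y).X}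
    (h1 : a ≫ ov (p1 X Y) = b ≫ ov (p1 X Y)) (h2 : a ≫ ov (p2 X Y) = b ≫ ov (p2 X Y)) : a = b :=
  CartesianMonoidalCategory.hom_ext (C := Over (Spec (CommRingCat.of k))) a b h1 h2

theorem isPullback_rt_lt (g : T' ⟶ T) (f : X ⟶ Y) :
    IsPullback (sch (rt g X)) (sch (lt T' f)) (sch (lt T f)) (sch (rt g Y)) := by
  refine isPullback_of (rt_lt g f) (fun {S} a b h => ?_) (fun {S} l l' h1 h2 => ?_)
  · have h1 := h =≫ ov (p1 T Y)
    have h2 := h =≫ ov (p2 T Y)
    simp only [Category.assoc, ← ov_comp, lt_p1, lt_p2, rt_p1, rt_p2] at h1 h2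
    refine ⟨olift (b ≫ ov (p1 T' Y)) (a ≫ ov (p2 T X)), oext ?_ ?_, oext ?_ ?_⟩
    · rw [Category.assoc, ← ov_comp, rt_p1, ov_comp, olift_p1_assoc, h1, ov_comp, Category.assoc]
    · rw [Category.assoc, ← ov_comp, rt_p2, olift_p2]
    · rw [Category.assoc, ← ov_comp, lt_p1, olift_p1]
    · rw [Category.assoc, ← ov_comp, lt_p2, ov_comp, olift_p2_assoc, ← h2, ov_comp, Category.assoc]
  · have h3 := h1 =≫ ov (p2 T X)
    have h4 := h2 =≫ ov (p1 T' Y)
    simp only [Category.assoc, ← ov_comp, lt_p1, lt_p2, rt_p1, rt_p2] at h3 h4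
    exact oext h4 h3

theorem isPullback_prod (X Y : SmProj k) :
    IsPullback (sch (p1 X Y)) (sch (p2 X Y)) (sch (toPt X)) (sch (toPt Y)) := by
  refine isPullback_of (pt_ext _ _) (fun {S} a b _ => ?_) (fun {S} l l' h1 h2 => ?_)
  · exact ⟨olift a b, olift_p1 _ _, olift_p2 _ _⟩
  · exact oext h1 h2

theorem isPullback_iso (φ : X ⟶ Y) (ψ : Y ⟶ X) (h : φ ≫ ψ = 𝟙 X) :
    IsPullback (sch (𝟙 X)) (sch (𝟙 X)) (sch φ) (sch φ) := by
  refine isPullback_of rfl (fun {S} a b h1 => ?_) (fun {S} l l' h1 _ => ?_)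
  · have h2 := h1 =≫ ov ψ
    rw [Category.assoc, Category.assoc, ← ov_comp, h, ov_id, Category.comp_id,
      Category.comp_id] at h2
    exact ⟨a, Category.comp_id _, (Category.comp_id _).trans h2⟩
  · simpa [ov_id] using h1

theorem isPullback_diag (X Y : SmProj k) :
    IsPullback (sch (p2 X Y)) (sch (pair (𝟙 (X.prod Y)) (p2 X Y))) (sch (pair (𝟙 Y) (𝟙 Y)))
      (sch (rt (p2 X Y) Y)) := by
  refine isPullback_of (by ext <;> simp) (fun {S} a b h => ?_) (fun {S} l l' _ h2 => ?_)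
  · have h1 := h =≫ ov (p1 Y Y)
    have h2 := h =≫ ov (p2 Y Y)
    simp only [Category.assoc, ← ov_comp, rt_p1, rt_p2, pair_p1, pair_p2] at h1 h2
    rw [ov_id, Category.comp_id] at h1 h2
    refine ⟨b ≫ ov (p1 (X.prod Y) Y), ?_, oext ?_ ?_⟩
    · rw [Category.assoc, ← ov_comp, ← h1]
    · rw [Category.assoc, Category.assoc, ← ov_comp (pair _ _), pair_p1, ov_id, Category.comp_id]
    · rw [Category.assoc, Category.assoc, ← ov_comp (pair _ _), pair_p2, ← ov_comp, ← h1, ← h2]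
  · have h4 := h2 =≫ ov (p1 (X.prod Y) Y)
    simp only [Category.assoc, ← ov_comp, pair_p1] at h4
    rwa [ov_id, Category.comp_id, Category.comp_id] at h4

end SmProj

open SmProj

namespace Chow

variable {k : Type u} [Field k] (A : Chow k) {T T' X Y Z : SmProj k}

theorem hom_ext {M : Type*} [AddCommGroup M] [Module ℚ M] {S S' : A.CH X →ₗ[ℚ] M}
    (h : ∀ z, S (A.cyc X (Finsupp.single z 1)) = S' (A.cyc X (Finsupp.single z 1))) : S = S' := by
  have h1 : S ∘ₗ A.cyc X = S' ∘ₗ A.cyc X := by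
    ext z
    simpa using h z
  ext x
  obtain ⟨c, rfl⟩ := A.cyc_surjective X x
  exact LinearMap.congr_fun h1 c

theorem push_id (x : A.CH X) : A.push (𝟙 X) x = x := by
  refine LinearMap.congr_fun (A.hom_ext (S := A.push (𝟙 X)) (S' := LinearMap.id) fun z => ?_) x
  rw [A.push_cyc, sch_id, Scheme.Hom.residueDegree_id, one_smul]
  rfl

theorem residueDegree_comp {X Y Z : Scheme.{u}} (f : X ⟶ Y) (g : Y ⟶ Z) (x : X) :
    (f ≫ g).residueDegree x = g.residueDegree (f x) * f.residueDegree x := by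
  unfold Scheme.Hom.residueDegree
  rw [Scheme.residueFieldMap_comp]
  letI := (f.residueFieldMap x).hom.toAlgebra
  letI := (g.residueFieldMap (f x)).hom.toAlgebra
  letI : Algebra (Z.residueField (g (f x))) (X.residueField x) :=
    (g.residueFieldMap (f x) ≫ f.residueFieldMap x).hom.toAlgebra
  haveI : IsScalarTower (Z.residueField (g (f x))) (Y.residueField (f x)) (X.residueField x) :=
    IsScalarTower.of_algebraMap_eq fun _ => rfl
  exact (Module.finrank_mul_finrank (Z.residueField (g (f x))) (Y.residueField (f x))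
    (X.residueField x)).symm

theorem push_comp (f : X ⟶ Y) (g : Y ⟶ Z) (x : A.CH X) :
    A.push (f ≫ g) x = A.push g (A.push f x) := by
  refine LinearMap.congr_fun
    (A.hom_ext (S := A.push (f ≫ g)) (S' := A.push g ∘ₗ A.push f) fun z => ?_) x
  rw [LinearMap.comp_apply, A.push_cyc, A.push_cyc, map_nsmul, A.push_cyc, sch_comp,
    residueDegree_comp, mul_comm, mul_smul]
  rfl

theorem projection' (f : X ⟶ Y) (x : A.CH X) (y : A.CH Y) :
    A.push f (x * A.pull f y) = A.push f x * y := by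
  rw [mul_comm, A.projection, mul_comm]

theorem push_eq_pull (φ : X ⟶ Y) (ψ : Y ⟶ X) (h : φ ≫ ψ = 𝟙 X) (h' : ψ ≫ φ = 𝟙 Y)
    (hd : X.dim = Y.dim) (x : A.CH X) : A.push φ x = A.pull ψ x := by
  have h1 := A.base_change (𝟙 X) (𝟙 X) φ φ (isPullback_iso φ ψ h) (by rw [hd]) x
  rw [A.pull_id, A.push_id] at h1
  conv_rhs => rw [← h1, ← A.pull_comp, h', A.pull_id]

theorem pull_rt_push_lt (g : T' ⟶ T) (f : X ⟶ Y) (c : A.CH (T.prod X)) :
    A.pull (rt g Y) (A.push (lt T f) c) = A.push (lt T' f) (A.pull (rt g X) c) :=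
  A.base_change _ _ _ _ (isPullback_rt_lt g f) (by simp only [prod_dim]; omega) c

theorem pull_lt_push_rt (g : T' ⟶ T) (f : X ⟶ Y) (c : A.CH (T'.prod Y)) :
    A.pull (lt T f) (A.push (rt g Y) c) = A.push (rt g X) (A.pull (lt T' f) c) :=
  A.base_change _ _ _ _ (isPullback_rt_lt g f).flip (by simp only [prod_dim]; omega) c

theorem push_p2_pull_p1 (x : A.CH X) :
    A.push (p2 X Y) (A.pull (p1 X Y) x) = A.pull (toPt Y) (A.push (toPt X) x) :=
  (A.base_change _ _ _ _ (isPullback_prod X Y) (by simp) x).symm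

theorem exists_eq_smul_one (x : A.CH (pt k)) : ∃ q : ℚ, x = q • 1 := by
  obtain ⟨c, rfl⟩ := A.cyc_surjective _ x
  haveI : Subsingleton (pt k).X.left := inferInstanceAs (Subsingleton (Spec (CommRingCat.of k)))
  refine ⟨c (genericPoint _), ?_⟩
  rw [← A.cyc_generic, ← map_smul]
  congr 1
  ext z
  rw [Subsingleton.elim z (genericPoint _)]
  simp

theorem one_mem (X : SmProj k) : (1 : A.CH X) ∈ A.CHd X 0 := by
  refine ⟨_, ?_, A.cyc_generic X⟩
  refine Finsupp.single_mem_supported ℚ 1 ?_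
  have : coheight (genericPoint X.X.left) = 0 := by
    rw [coheight_eq_zero]
    intro z _
    exact (genericPoint_specializes z)
  change ((coheight (genericPoint X.X.left)).toNat : ℤ) = 0
  rw [this]
  rfl

theorem CHd_neg (X : SmProj k) {i : ℤ} (hi : i < 0) {x : A.CH X} (hx : x ∈ A.CHd X i) : x = 0 := by
  obtain ⟨c, hc, rfl⟩ := hx
  have : c = 0 := by
    ext z
    refine (Finsupp.mem_supported' ℚ c).mp hc z ?_
    intro h
    change ((coheight z).toNat : ℤ) = i at h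
    omega
  rw [this, map_zero]

theorem mem_iSup (x : A.CH X) : x ∈ ⨆ i : ℕ, A.CHd X i := by
  obtain ⟨c, rfl⟩ := A.cyc_surjective _ x
  induction c using Finsupp.induction_linear with
  | zero => simp
  | add f g hf hg => rw [map_add]; exact add_mem hf hg
  | single z q =>
    exact Submodule.mem_iSup_of_mem (coheight z).toNat
      ⟨_, Finsupp.single_mem_supported ℚ q rfl, rfl⟩

theorem mul_mem {i j : ℤ} {x y : A.CH X} (hx : x ∈ A.CHd X i) (hy : y ∈ A.CHd X j) :
    x * y ∈ A.CHd X (i + j) := A.mul_deg X i j x hx y hy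

theorem pull_mem (f : X ⟶ Y) {i : ℤ} {y : A.CH Y} (hy : y ∈ A.CHd Y i) :
    A.pull f y ∈ A.CHd X i := A.pull_deg f i y hy

theorem push_mem (f : X ⟶ Y) {i : ℤ} {x : A.CH X} (hx : x ∈ A.CHd X i) :
    A.push f x ∈ A.CHd Y (i + Y.dim - X.dim) := A.push_deg f i x hx

theorem pow_le {N : Submodule ℚ (A.CH X)} (hN : N ≤ A.CHd X 1) (a : ℕ) :
    N ^ a ≤ A.CHd X a := by
  induction a with
  | zero =>
    rw [pow_zero, Submodule.one_le]
    exact A.one_mem X
  | succ a ih =>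
    rw [pow_succ, Submodule.mul_le]
    intro x hx y hy
    exact_mod_cast A.mul_mem (ih hx) (hN hy)

/-- The diagonal is a right unit for the composition of correspondences. -/
theorem comp_diag (α : A.CH (X.prod Y)) : A.comp α (A.diag Y) = α := by
  have h1 := A.base_change _ _ _ _ (isPullback_diag X Y) (by simp only [prod_dim]; omega) 1
  change A.push (rt (p1 X Y) Y) (A.pull _ α * A.pull (rt (p2 X Y) Y) (A.push _ 1)) = α
  rw [h1, ← A.projection, ← A.push_comp, ← A.pull_comp, map_one, mul_one, pair_p1, A.pull_id]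
  have : pair (𝟙 (X.prod Y)) (p2 X Y) ≫ rt (p1 X Y) Y = 𝟙 _ := by ext <;> simp
  rw [this, A.push_id]

end Chow

end Pool.Agent.P.MP_638e8a_ag.H58
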