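import Pool.Agent.P.MP_638e8a_ag.H58Frame

/-!
Operators on `Y` give operators on `B × Y`; frames on products.
-/

open CategoryTheory

universe u v w

namespace Pool.Agent.P.MP_638e8a_ag.H58

open SmProj

namespace SmProj

variable {k : Type u} [Field k] {T T' : SmProj k}

/-- The associator. -/
noncomputable def asc (T B Y : SmProj k) : T.prod (B.prod Y) ⟶ (T.prod B).prod Y :=
  pair (pair (p1 _ _) (p2 _ _ ≫ p1 _ _)) (p2 _ _ ≫ p2 _ _)

/-- The inverse of the associator. -/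
noncomputable def asc' (T B Y : SmProj k) : (T.prod B).prod Y ⟶ T.prod (B.prod Y) :=
  pair (p1 _ _ ≫ p1 _ _) (pair (p1 _ _ ≫ p2 _ _) (p2 _ _))

theorem asc_asc' (T B Y : SmProj k) : asc T B Y ≫ asc' T B Y = 𝟙 _ := by
  ext <;> simp [asc, asc']

theorem asc'_asc (T B Y : SmProj k) : asc' T B Y ≫ asc T B Y = 𝟙 _ := by
  ext <;> simp [asc, asc']

theorem asc_rt (g : T' ⟶ T) (B Y : SmProj k) :
    asc T' B Y ≫ rt (rt g B) Y = rt g (B.prod Y) ≫ asc T B Y := by
  ext <;> simp [asc]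

theorem asc'_rt (g : T' ⟶ T) (B Y : SmProj k) :
    asc' T' B Y ≫ rt g (B.prod Y) = rt (rt g B) Y ≫ asc' T B Y := by
  ext <;> simp [asc']

theorem asc_rt_p1 (T B Y : SmProj k) : asc T B Y ≫ rt (p1 T B) Y = lt T (p2 B Y) := by
  ext <;> simp [asc]

theorem asc'_lt (T B Y : SmProj k) : asc' T B Y ≫ lt T (p2 B Y) = rt (p1 T B) Y := by
  ext <;> simp [asc']

end SmProj

namespace Chow

variable {k : Type u} [Field k] (A : Chow k) (T B Y : SmProj k)

theorem push_asc (c) : A.push (asc T B Y) c = A.pull (asc' T B Y) c :=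
  A.push_eq_pull _ _ (asc_asc' T B Y) (asc'_asc T B Y) (by simp only [prod_dim]; omega) c

theorem push_asc' (c) : A.push (asc' T B Y) c = A.pull (asc T B Y) c :=
  A.push_eq_pull _ _ (asc'_asc T B Y) (asc_asc' T B Y) (by simp only [prod_dim]; omega) c

theorem pull_asc'_asc (c) : A.pull (asc' T B Y) (A.pull (asc T B Y) c) = c := by
  rw [← A.pull_comp, asc'_asc, A.pull_id]

theorem pull_asc_asc' (c) : A.pull (asc T B Y) (A.pull (asc' T B Y) c) = c := by
  rw [← A.pull_comp, asc_asc', A.pull_id]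

end Chow

namespace Weil

variable {k : Type u} [Field k] {A : Chow k} {K : Type v} [Field K] [CharZero K]
  (W : Weil.{u, v, w} A K) {X Y : SmProj k}

open Mot

theorem tr_pull_asc (T B Y : SmProj k) (z : W.H ((T.prod B).prod Y)) :
    W.tr _ (W.pull (asc T B Y) z) = W.tr _ z := by
  have := W.cl_push (asc T B Y) 1 z
  rw [A.push_asc, map_one, map_one, map_one, one_mul, one_mul] at this
  exact this.symm

theorem tr_asc (T B Y : SmProj k) (z : A.CH ((T.prod B).prod Y)) (a : W.H T) (b : W.H B)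
    (y : W.H Y) :
    W.tr _ (W.pull (p1 T (B.prod Y)) a * W.cl _ (A.pull (asc T B Y) z) *
      W.pull (p2 T (B.prod Y)) (W.pull (p1 B Y) b * W.pull (p2 B Y) y)) =
    W.tr _ (W.pull (p1 (T.prod B) Y) (W.pull (p1 T B) a * W.pull (p2 T B) b) * W.cl _ z *
      W.pull (p2 (T.prod B) Y) y) := by
  rw [← W.tr_pull_asc T B Y, ← W.cl_comm, ← W.cl_comm]
  simp only [map_mul (W.pull _), ← W.pull_comp, W.cl_pull, mul_assoc]
  simp [asc]

theorem adj_lift (B : SmProj k) (Φ : W.Op Y Y) :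
    W.Adj (X := B.prod Y) (Y := B.prod Y) (fun T => (A.pull (asc T B Y)).toLinearMap ∘ₗ
      act Φ (T.prod B) ∘ₗ (A.pull (asc' T B Y)).toLinearMap) (W.lbox B (sig Φ)) := by
  intro T c a z
  induction z using W.kun_induction with
  | h0 => simp
  | h2 a b ha hb => simp only [map_add, mul_add, ha, hb]
  | h1 b y =>
    simp only [LinearMap.comp_apply, AlgHom.toLinearMap_apply]
    rw [W.lbox_apply, W.tr_asc, adj_sig Φ, ← W.tr_asc, A.pull_asc_asc']

/-- The operator `1 × Φ` on `B × Y`. -/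
noncomputable def lift (B : SmProj k) (Φ : W.Op Y Y) : W.Op (B.prod Y) (B.prod Y) :=
  (⟨fun T => (A.pull (asc T B Y)).toLinearMap ∘ₗ act Φ (T.prod B) ∘ₗ
      (A.pull (asc' T B Y)).toLinearMap,
    ⟨fun g c => by
      simp only [LinearMap.comp_apply, AlgHom.toLinearMap_apply]
      rw [← A.pull_comp, asc'_rt, A.pull_comp, (isOp Φ).pull, ← A.pull_comp, asc_rt, A.pull_comp],
    fun g c => by
      simp only [LinearMap.comp_apply, AlgHom.toLinearMap_apply]
      rw [← A.push_asc, ← A.push_comp, ← asc_rt, A.push_comp, (isOp Φ).push, ← A.push_asc',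
        ← A.push_comp, ← asc'_rt, A.push_comp, A.push_asc, A.push_asc'],
    fun T t c => by
      simp only [LinearMap.comp_apply, AlgHom.toLinearMap_apply]
      have h1 : asc' T B Y ≫ p1 T (B.prod Y) = p1 _ _ ≫ p1 _ _ := by simp [asc']
      have h2 : asc T B Y ≫ p1 _ _ ≫ p1 _ _ = p1 T (B.prod Y) := by simp [asc]
      rw [map_mul, ← A.pull_comp, h1, A.pull_comp, (isOp Φ).mul, map_mul, ← A.pull_comp,
        ← A.pull_comp, Category.assoc, h2],
    _, W.adj_lift B Φ⟩⟩ : W.opSub (B.prod Y) (B.prod Y))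

variable (B : SmProj k)

theorem act_lift (Φ : W.Op Y Y) (T : SmProj k) (c) : act (W.lift B Φ) T c =
    A.pull (asc T B Y) (act Φ (T.prod B) (A.pull (asc' T B Y) c)) := rfl

theorem sig_lift (Φ : W.Op Y Y) : sig (W.lift B Φ) = W.lbox B (sig Φ) := sig_eq (W.adj_lift B Φ)

theorem lift_id : W.lift B (𝟙 (W.mot Y)) = 𝟙 _ :=
  hom_ext fun T c => by rw [act_lift, act_id, A.pull_asc_asc', act_id]

theorem lift_comp (Φ Ψ : W.Op Y Y) : W.lift B (Φ ≫ Ψ) = W.lift B Φ ≫ W.lift B Ψ :=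
  hom_ext fun T c => by rw [act_comp, act_lift, act_lift, act_lift, act_comp, A.pull_asc'_asc]

/-- `lift` as a linear map. -/
noncomputable def liftL (Y : SmProj k) : W.Op Y Y →ₗ[ℚ] W.Op (B.prod Y) (B.prod Y) where
  toFun := W.lift B
  map_add' Φ Ψ := hom_ext fun T c => by simp only [act_add, act_lift, map_add]
  map_smul' q Φ := hom_ext fun T c => by simp only [act_smul, act_lift, map_smul, RingHom.id_apply]

theorem lift_zero : W.lift B (0 : W.Op Y Y) = 0 := (W.liftL B Y).map_zero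

theorem lift_smul (q : ℚ) (Φ : W.Op Y Y) : W.lift B (q • Φ) = q • W.lift B Φ :=
  (W.liftL B Y).map_smul q Φ

theorem lift_sum {ι : Type*} (s : Finset ι) (Φ : ι → W.Op Y Y) :
    W.lift B (∑ i ∈ s, Φ i) = ∑ i ∈ s, W.lift B (Φ i) := map_sum (W.liftL B Y) Φ s

theorem lift_deg {Φ : W.Op Y Y} {r : ℤ} (h : Φ ∈ Deg W Y Y r) : W.lift B Φ ∈ Deg W _ _ r :=
  fun _ _ _ hc => A.pull_mem _ (h _ _ _ (A.pull_mem _ hc))

theorem lift_mulOp (r : A.CH Y) : W.lift B (W.mulOp r) = W.mulOp (A.pull (p2 B Y) r) :=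
  hom_ext fun T c => by
    rw [act_lift, act_mulOp, act_mulOp, map_mul, A.pull_asc_asc', ← A.pull_comp, ← A.pull_comp]
    simp [asc]

theorem lift_comm_mul (Φ : W.Op Y Y) (γ : A.CH B) :
    W.lift B Φ ≫ W.mulOp (A.pull (p1 B Y) γ) = W.mulOp (A.pull (p1 B Y) γ) ≫ W.lift B Φ :=
  hom_ext fun T c => by
    have h1 : asc' T B Y ≫ p2 T (B.prod Y) ≫ p1 B Y = p1 _ _ ≫ p2 _ _ := by simp [asc']
    have h2 : asc T B Y ≫ p1 _ _ ≫ p2 _ _ = p2 T (B.prod Y) ≫ p1 B Y := by simp [asc]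
    rw [act_comp, act_comp, act_mulOp, act_mulOp, act_lift, act_lift, map_mul, ← A.pull_comp,
      ← A.pull_comp, h1, A.pull_comp (p1 _ _), (isOp Φ).mul, map_mul, ← A.pull_comp,
      ← A.pull_comp, Category.assoc, h2]

theorem lift_push (Φ : W.Op Y Y) : W.lift B Φ ≫ W.pushOp (p2 B Y) = W.pushOp (p2 B Y) ≫ Φ :=
  hom_ext fun T c => by
    rw [act_comp, act_comp, act_pushOp, act_pushOp, act_lift, ← A.push_asc', ← A.push_comp,
      asc'_lt, ← (isOp Φ).push, ← A.push_asc, ← A.push_comp, asc_rt_p1]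

theorem pull_lift (Φ : W.Op Y Y) : W.pullOp (p2 B Y) ≫ W.lift B Φ = Φ ≫ W.pullOp (p2 B Y) :=
  hom_ext fun T c => by
    rw [act_comp, act_comp, act_pullOp, act_pullOp, act_lift, ← A.pull_comp, asc'_lt,
      (isOp Φ).pull, ← A.pull_comp, asc_rt_p1]

/-- The part of a frame on `B × Y` coming from `B`. -/
structure Side (B Y : SmProj k) (N : Submodule ℚ (A.CH B)) where
  ι : Type
  [fin : Fintype ι]
  [dec : DecidableEq ι]
  s : ι → Bool
  wt : ι → ℕ
  u : ι → ι → W.Op (B.prod Y) (B.prod Y)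
  mul : ∀ a b c, s a = s b → s b = s c → u a b ≫ u b c = u a c
  orth : ∀ a b c d, s a = s b → s c = s d → b ≠ c → u a b ≫ u c d = 0
  sum : ∑ a, u a a = 𝟙 _
  deg : ∀ a b, s a = s b → ∃ r : ℤ, 2 * r = wt b - wt a ∧ u a b ∈ Deg W _ _ r
  comm : ∀ a b Φ, W.lift B Φ ≫ u a b = u a b ≫ W.lift B Φ
  sig_u : ∀ a j, ∀ x ∈ W.deg B j, j + wt a ≠ 2 * B.dim → ∀ y,
    sig (u a a) (W.pull (p1 B Y) x * W.pull (p2 B Y) y) = 0
  filt : ∀ (c : ℕ), ∀ γ ∈ N ^ c, ∀ a b, wt a + 2 * c ≤ wt b → ∃ q : ℚ,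
    (q ≠ 0 → s a = s b ∧ wt a + 2 * c = wt b) ∧
      u a a ≫ W.mulOp (A.pull (p1 B Y) γ) ≫ u b b = q • u a b

attribute [instance] Side.fin Side.dec

theorem pow_sup_induction {R : Type*} [CommRing R] [Algebra ℚ R] {R₁ R₂ : Type*} [CommRing R₁]
    [Algebra ℚ R₁] [CommRing R₂] [Algebra ℚ R₂] (f : R₁ →ₐ[ℚ] R) (g : R₂ →ₐ[ℚ] R)
    (N₁ : Submodule ℚ R₁) (N₂ : Submodule ℚ R₂) (c : ℕ) :
    (N₁.map f.toLinearMap ⊔ N₂.map g.toLinearMap) ^ c ≤ Submodule.span ℚ
      {z | ∃ a b, a + b = c ∧ ∃ x ∈ N₁ ^ a, ∃ y ∈ N₂ ^ b, z = f x * g y} := by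
  induction c with
  | zero =>
    rw [pow_zero, Submodule.one_le]
    exact Submodule.subset_span ⟨0, 0, rfl, 1, by simpa using ⟨1, map_one _⟩, 1,
      by simpa using ⟨1, map_one _⟩, by simp⟩
  | succ c ih =>
    rw [pow_succ, Submodule.mul_le]
    intro z hz n hn
    obtain ⟨_, ⟨n₁, h₁, rfl⟩, _, ⟨n₂, h₂, rfl⟩, rfl⟩ := Submodule.mem_sup.mp hn
    have hz' := ih hz
    clear hz
    induction hz' using Submodule.span_induction with
    | zero => simp
    | add x y _ _ hx hy => rw [add_mul]; exact add_mem hx hy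
    | smul q x _ hx => rw [smul_mul_assoc]; exact Submodule.smul_mem _ _ hx
    | mem z hz =>
      obtain ⟨a, b, hab, x, hx, y, hy, rfl⟩ := hz
      rw [mul_add]
      refine add_mem (Submodule.subset_span ⟨a + 1, b, by omega, x * n₁, ?_, y, hy, ?_⟩)
        (Submodule.subset_span ⟨a, b + 1, by omega, x, hx, y * n₂, ?_, ?_⟩)
      · rw [pow_succ]; exact Submodule.mul_mem_mul hx h₁
      · simp only [AlgHom.toLinearMap_apply, map_mul]; ring
      · rw [pow_succ]; exact Submodule.mul_mem_mul hy h₂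
      · simp only [AlgHom.toLinearMap_apply, map_mul]; ring

variable {W B} in
/-- The frame on a product. -/
noncomputable def Side.frame {N₁ : Submodule ℚ (A.CH B)} {N₂ : Submodule ℚ (A.CH Y)}
    (G : W.Side B Y N₁) (F : W.Frame Y N₂) : W.Frame (B.prod Y)
      (N₁.map (A.pull (p1 B Y)).toLinearMap ⊔ N₂.map (A.pull (p2 B Y)).toLinearMap) where
  ι := G.ι × F.ι
  S := Bool × F.S
  s a := (G.s a.1, F.s a.2)
  wt a := G.wt a.1 + F.wt a.2
  u a b := G.u a.1 b.1 ≫ W.lift B (F.u a.2 b.2)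
  mul a b c h h' := by
    rw [Prod.mk.injEq] at h h'
    rw [Category.assoc, ← Category.assoc (W.lift B _), G.comm, Category.assoc, ← W.lift_comp,
      ← Category.assoc, G.mul _ _ _ h.1 h'.1, F.mul _ _ _ h.2 h'.2]
  orth a b c d h h' hbc := by
    rw [Prod.mk.injEq] at h h'
    rw [Category.assoc, ← Category.assoc (W.lift B _), G.comm, Category.assoc, ← W.lift_comp,
      ← Category.assoc]
    by_cases h1 : b.1 = c.1
    · rw [F.orth _ _ _ _ h.2 h'.2 fun h2 => hbc (Prod.ext h1 h2), W.lift_zero, Limits.comp_zero]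
    · rw [G.orth _ _ _ _ h.1 h'.1 h1, Limits.zero_comp]
  sum := by
    rw [Fintype.sum_prod_type]
    simp only [← Preadditive.comp_sum, ← W.lift_sum, F.sum, W.lift_id, Category.comp_id, G.sum]
  deg a b h := by
    rw [Prod.mk.injEq] at h
    obtain ⟨r, hr, hr'⟩ := G.deg _ _ h.1
    obtain ⟨t, ht, ht'⟩ := F.deg _ _ h.2
    exact ⟨r + t, by push_cast; omega, comp_mem_deg hr' (W.lift_deg B ht') rfl⟩
  sig_u a j x hx hj := by
    refine W.kill_deg _ j (fun i i' hi x hx y hy => ?_) hx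
    rw [sig_comp_apply, sig_lift, lbox_apply]
    by_cases h : i + G.wt a.1 = 2 * B.dim
    · rw [F.sig_u a.2 i' y hy (by simp only [prod_dim] at hj; omega), map_zero, mul_zero, map_zero]
    · exact G.sig_u a.1 i x hx h _
  filt c γ hγ a b hab := by
    have hγ' := pow_sup_induction _ _ N₁ N₂ c hγ
    clear hγ
    induction hγ' using Submodule.span_induction with
    | zero =>
      exact ⟨0, fun h => absurd rfl h, by
        rw [W.mulOp_zero, Limits.zero_comp, Limits.comp_zero, zero_smul]⟩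
    | add x y _ _ hx hy =>
      obtain ⟨q, hq, hq'⟩ := hx
      obtain ⟨r, hr, hr'⟩ := hy
      refine ⟨q + r, fun h => ?_, ?_⟩
      · by_cases h0 : q = 0
        · exact hr (by rwa [h0, zero_add] at h)
        · exact hq h0
      · rw [W.mulOp_add, Preadditive.add_comp, Preadditive.comp_add, hq', hr', add_smul]
    | smul t x _ hx =>
      obtain ⟨q, hq, hq'⟩ := hx
      exact ⟨t * q, fun h => hq (right_ne_zero_of_mul h), by
        rw [W.mulOp_smul, Linear.smul_comp, Linear.comp_smul, hq', mul_smul]⟩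
    | mem z hz =>
      obtain ⟨c₁, c₂, rfl, x, hx, y, hy, rfl⟩ := hz
      have key : (G.u a.1 a.1 ≫ W.lift B (F.u a.2 a.2)) ≫
          W.mulOp (A.pull (p1 B Y) x * A.pull (p2 B Y) y) ≫ G.u b.1 b.1 ≫ W.lift B (F.u b.2 b.2) =
          (G.u a.1 a.1 ≫ W.mulOp (A.pull (p1 B Y) x) ≫ G.u b.1 b.1) ≫
            W.lift B (F.u a.2 a.2 ≫ W.mulOp y ≫ F.u b.2 b.2) := by
        rw [W.mulOp_mul, ← W.lift_mulOp, W.lift_comp, W.lift_comp]
        simp only [Category.assoc]
        rw [← Category.assoc (W.lift B (F.u a.2 a.2)), W.lift_comm_mul, Category.assoc,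
          ← Category.assoc (W.lift B (W.mulOp y)), G.comm, Category.assoc,
          ← Category.assoc (W.lift B (F.u a.2 a.2)), G.comm, Category.assoc]
      rw [key]
      by_cases h1 : G.wt a.1 + 2 * c₁ ≤ G.wt b.1
      · obtain ⟨q, hq, hq'⟩ := G.filt c₁ x hx a.1 b.1 h1
        by_cases h2 : F.wt a.2 + 2 * c₂ ≤ F.wt b.2
        · obtain ⟨r, hr, hr'⟩ := F.filt c₂ y hy a.2 b.2 h2
          refine ⟨q * r, fun h => ?_, ?_⟩
          · have e1 := hq (left_ne_zero_of_mul h)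
            have e2 := hr (right_ne_zero_of_mul h)
            exact ⟨Prod.ext e1.1 e2.1, by omega⟩
          · rw [hq', hr', W.lift_smul, Linear.smul_comp, Linear.comp_smul, mul_smul]
        · have : q = 0 := by_contra fun h => by have := (hq h).2; omega
          exact ⟨0, fun h => absurd rfl h, by
            rw [hq', this, zero_smul, Limits.zero_comp, zero_smul]⟩
      · obtain ⟨r, hr, hr'⟩ := F.filt c₂ y hy a.2 b.2 (by omega)
        have : r = 0 := by_contra fun h => by have := (hr h).2; omega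
        exact ⟨0, fun h => absurd rfl h, by
          rw [hr', this, zero_smul, W.lift_zero, Limits.comp_zero, zero_smul]⟩

/-- The frame on the point. -/
noncomputable def framePt : W.Frame (pt k) ⊥ where
  ι := Unit
  S := Unit
  s _ := ()
  wt _ := 0
  u _ _ := 𝟙 _
  mul _ _ _ _ _ := Category.id_comp _
  orth _ _ _ _ _ _ h := absurd rfl h
  sum := by simp
  deg _ _ _ := ⟨0, by simp, id_mem_deg⟩
  sig_u _ j x hx hj := by
    rw [(Submodule.eq_bot_iff _).1 (W.deg_eq_bot (pt k) j (by simp at hj ⊢; omega)) x hx, map_zero]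
  filt c γ hγ _ _ h := by
    obtain rfl : c = 0 := by omega
    rw [pow_zero, Submodule.mem_one] at hγ
    obtain ⟨q, rfl⟩ := hγ
    refine ⟨q, fun _ => ⟨rfl, rfl⟩, ?_⟩
    rw [Algebra.algebraMap_eq_smul_one, W.mulOp_smul, W.mulOp_one, Category.id_comp,
      Category.comp_id]

end Weil

end Pool.Agent.P.MP_638e8a_ag.H58
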