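import Pool.Agent.P.MP_638e8a_ag.H58Weil

/-!
Correspondences as natural operators on the Chow groups of `T × X` (Manin's principle).
-/

open CategoryTheory

universe u v w

namespace Pool.Agent.P.MP_638e8a_ag.H58

open SmProj

namespace SmProj

variable {k : Type u} [Field k] {T X Y : SmProj k}

theorem isPullback_p2_lt (T : SmProj k) (f : X ⟶ Y) :
    IsPullback (sch (p2 T X)) (sch (lt T f)) (sch f) (sch (p2 T Y)) := by
  refine isPullback_of (lt_p2 T f).symm (fun {S} a b h => ?_) (fun {S} l l' h1 h2 => ?_)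
  · refine ⟨olift (b ≫ ov (p1 T Y)) a, olift_p2 _ _, oext ?_ ?_⟩
    · rw [Category.assoc, ← ov_comp, lt_p1, olift_p1]
    · rw [Category.assoc, ← ov_comp, lt_p2, ov_comp, olift_p2_assoc, h]
  · have h4 := h2 =≫ ov (p1 T Y)
    simp only [Category.assoc, ← ov_comp, lt_p1] at h4
    exact oext h4 h1

end SmProj

namespace Chow

variable {k : Type u} [Field k] (A : Chow k) {T X Y : SmProj k}

theorem push_lt_pull_p2 (f : X ⟶ Y) (x : A.CH X) :
    A.push (lt T f) (A.pull (p2 T X) x) = A.pull (p2 T Y) (A.push f x) :=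
  (A.base_change _ _ _ _ (isPullback_p2_lt T f) (by simp only [prod_dim]; omega) x).symm

end Chow

namespace Weil

variable {k : Type u} [Field k] {A : Chow k} {K : Type v} [Field K] [CharZero K]
  (W : Weil.{u, v, w} A K) {T T' X Y Z : SmProj k}

/-- Families of maps `CH(T × X) → CH(T × Y)`. -/
abbrev Fam (A : Chow k) (X Y : SmProj k) := ∀ T : SmProj k, A.CH (T.prod X) →ₗ[ℚ] A.CH (T.prod Y)

/-- `S` is the transpose of the action of `Φ` on cohomology. -/
def Adj (Φ : Fam A X Y) (S : W.H Y →ₗ[K] W.H X) : Prop :=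
  ∀ T c a y, W.tr _ (W.pull (p1 T Y) a * W.cl _ (Φ T c) * W.pull (p2 T Y) y) =
    W.tr _ (W.pull (p1 T X) a * W.cl _ c * W.pull (p2 T X) (S y))

/-- Natural families. -/
structure IsOp (Φ : Fam A X Y) : Prop where
  pull : ∀ {T' T : SmProj k} (g : T' ⟶ T) c, Φ T' (A.pull (rt g X) c) = A.pull (rt g Y) (Φ T c)
  push : ∀ {T' T : SmProj k} (g : T' ⟶ T) c, Φ T (A.push (rt g X) c) = A.push (rt g Y) (Φ T' c)
  mul : ∀ T t c, Φ T (A.pull (p1 T X) t * c) = A.pull (p1 T Y) t * Φ T c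
  adj : ∃ S, W.Adj Φ S

variable {W} in
theorem Adj.unique {Φ : Fam A X Y} {S S' : W.H Y →ₗ[K] W.H X} (h : W.Adj Φ S) (h' : W.Adj Φ S') :
    S = S' := by
  ext y
  refine W.eq_of_tr fun a => ?_
  rw [← W.tr_diag a, ← W.tr_diag a, ← h, ← h']

variable {W} in
theorem Adj.add {Φ Ψ : Fam A X Y} {S S' : W.H Y →ₗ[K] W.H X} (h : W.Adj Φ S) (h' : W.Adj Ψ S') :
    W.Adj (Φ + Ψ) (S + S') := fun T c a y => by
  simp only [Pi.add_apply, LinearMap.add_apply, map_add, mul_add, add_mul, h T c a y, h' T c a y]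

variable {W} in
theorem Adj.smul {Φ : Fam A X Y} {S : W.H Y →ₗ[K] W.H X} (h : W.Adj Φ S) (q : ℚ) :
    W.Adj (q • Φ) ((q : K) • S) := fun T c a y => by
  simp only [Pi.smul_apply, LinearMap.smul_apply, W.cl_smul, map_smul, mul_smul_comm,
    smul_mul_assoc, h T c a y]

theorem adj_zero : W.Adj (0 : Fam A X Y) 0 := fun T c a y => by simp

/-- The space of operators from `X` to `Y`. -/
def opSub (X Y : SmProj k) : Submodule ℚ (Fam A X Y) where
  carrier := {Φ | W.IsOp Φ}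
  zero_mem' := ⟨fun _ _ => by simp, fun _ _ => by simp, fun _ _ _ => by simp, 0, W.adj_zero⟩
  add_mem' := fun {Φ Ψ} h h' =>
    ⟨fun g c => by simp [h.pull, h'.pull], fun g c => by simp [h.push, h'.push],
      fun T t c => by simp [h.mul, h'.mul, mul_add], _, h.adj.choose_spec.add h'.adj.choose_spec⟩
  smul_mem' := fun q Φ h =>
    ⟨fun g c => by simp [h.pull], fun g c => by simp [h.push],
      fun T t c => by simp [h.mul], _, h.adj.choose_spec.smul q⟩

/-- The category of varieties and operators. -/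
structure Mot (W : Weil.{u, v, w} A K) where
  V : SmProj k

noncomputable instance : Category (Mot W) where
  Hom M N := W.opSub M.V N.V
  id M := ⟨fun _ => LinearMap.id,
    ⟨fun _ _ => rfl, fun _ _ => rfl, fun _ _ _ => rfl, LinearMap.id, fun _ _ _ _ => rfl⟩⟩
  comp Φ Ψ := ⟨fun T => Ψ.1 T ∘ₗ Φ.1 T,
    ⟨fun g c => by simp [Φ.2.pull, Ψ.2.pull], fun g c => by simp [Φ.2.push, Ψ.2.push],
      fun T t c => by simp [Φ.2.mul, Ψ.2.mul], Φ.2.adj.choose ∘ₗ Ψ.2.adj.choose,
      fun T c a y => (Ψ.2.adj.choose_spec T _ a y).trans (Φ.2.adj.choose_spec T c a _)⟩⟩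
  id_comp _ := rfl
  comp_id _ := rfl
  assoc _ _ _ := rfl

noncomputable instance : Preadditive (Mot W) where
  homGroup M N := inferInstanceAs (AddCommGroup (W.opSub M.V N.V))
  add_comp _ _ _ _ _ _ := Subtype.ext (funext fun _ => LinearMap.comp_add _ _ _)
  comp_add _ _ _ _ _ _ := Subtype.ext (funext fun _ => LinearMap.add_comp _ _ _)

noncomputable instance : Linear ℚ (Mot W) where
  homModule M N := inferInstanceAs (Module ℚ (W.opSub M.V N.V))
  smul_comp _ _ _ _ _ _ := Subtype.ext (funext fun _ => LinearMap.comp_smul _ _ _)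
  comp_smul _ _ _ _ _ _ := Subtype.ext (funext fun _ => LinearMap.smul_comp _ _ _)

/-- A variety as an object of the category of operators. -/
def mot (X : SmProj k) : Mot W := ⟨X⟩

/-- Operators from `X` to `Y`. -/
abbrev Op (X Y : SmProj k) := W.mot X ⟶ W.mot Y

namespace Mot

variable {W} {M N P : SmProj k}

/-- The action of an operator on `CH(T × X)`. -/
def act (Φ : W.Op M N) : Fam A M N := (Φ : W.opSub M N).1

theorem isOp (Φ : W.Op M N) : W.IsOp (act Φ) := (Φ : W.opSub M N).2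

theorem hom_ext {Φ Ψ : W.Op M N} (h : ∀ T c, act Φ T c = act Ψ T c) : Φ = Ψ :=
  Subtype.ext (funext fun T => LinearMap.ext (h T))

@[simp] theorem act_id (T : SmProj k) (c) : act (𝟙 (W.mot M)) T c = c := rfl

@[simp] theorem act_comp (Φ : W.Op M N) (Ψ : W.Op N P) (T : SmProj k) (c) :
    act (Φ ≫ Ψ) T c = act Ψ T (act Φ T c) := rfl

@[simp] theorem act_zero (T : SmProj k) (c) : act (0 : W.Op M N) T c = 0 := rfl

@[simp] theorem act_add (Φ Ψ : W.Op M N) (T : SmProj k) (c) :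
    act (Φ + Ψ) T c = act Φ T c + act Ψ T c := rfl

@[simp] theorem act_smul (q : ℚ) (Φ : W.Op M N) (T : SmProj k) (c) :
    act (q • Φ) T c = q • act Φ T c := rfl

/-- Evaluation of operators at a cycle class. -/
noncomputable def ev (W : Weil.{u, v, w} A K) (M N : SmProj k) (T : SmProj k) (c : A.CH (T.prod M)) :
    (W.Op M N) →ₗ[ℚ] A.CH (T.prod N) where
  toFun Φ := act Φ T c
  map_add' _ _ := rfl
  map_smul' _ _ := rfl

theorem act_sum {ι : Type*} (s : Finset ι) (Φ : ι → (W.Op M N)) (T : SmProj k) (c) :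
    act (∑ i ∈ s, Φ i) T c = ∑ i ∈ s, act (Φ i) T c := map_sum (ev W M N T c) Φ s

/-- The transpose of the action on cohomology. -/
noncomputable def sig (Φ : W.Op M N) : W.H N →ₗ[K] W.H M := (isOp Φ).adj.choose

theorem adj_sig (Φ : W.Op M N) : W.Adj (act Φ) (sig Φ) := (isOp Φ).adj.choose_spec

theorem sig_eq {Φ : W.Op M N} {S} (h : W.Adj (act Φ) S) : sig Φ = S := (adj_sig Φ).unique h

theorem sig_id : sig (𝟙 (W.mot M)) = LinearMap.id := sig_eq fun _ _ _ _ => rfl

theorem sig_comp (Φ : W.Op M N) (Ψ : W.Op N P) : sig (Φ ≫ Ψ) = sig Φ ∘ₗ sig Ψ :=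
  sig_eq fun T c a y => (adj_sig Ψ T _ a y).trans (adj_sig Φ T c a _)

theorem sig_comp_apply (Φ : W.Op M N) (Ψ : W.Op N P) (x) : sig (Φ ≫ Ψ) x = sig Φ (sig Ψ x) := by
  rw [sig_comp]; rfl

theorem sig_smul (q : ℚ) (Φ : W.Op M N) : sig (q • Φ) = (q : K) • sig Φ :=
  sig_eq ((adj_sig Φ).smul q)

/-- `sig` as an additive map. -/
noncomputable def sigHom (W : Weil.{u, v, w} A K) (M N : SmProj k) : (W.Op M N) →+ (W.H N →ₗ[K] W.H M) where
  toFun := sig
  map_zero' := sig_eq W.adj_zero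
  map_add' Φ Ψ := sig_eq ((adj_sig Φ).add (adj_sig Ψ))

theorem sig_zero : sig (0 : W.Op M N) = 0 := (sigHom W M N).map_zero

theorem sig_add (Φ Ψ : W.Op M N) : sig (Φ + Ψ) = sig Φ + sig Ψ := (sigHom W M N).map_add Φ Ψ

theorem sig_sub (Φ Ψ : W.Op M N) : sig (Φ - Ψ) = sig Φ - sig Ψ := (sigHom W M N).map_sub Φ Ψ

theorem sig_sum {ι : Type*} (s : Finset ι) (Φ : ι → (W.Op M N)) :
    sig (∑ i ∈ s, Φ i) = ∑ i ∈ s, sig (Φ i) := map_sum (sigHom W M N) Φ s

/-- Operators of degree `r`. -/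
def Deg (W : Weil.{u, v, w} A K) (M N : SmProj k) (r : ℤ) : Submodule ℚ (W.Op M N) where
  carrier := {Φ | ∀ (T : SmProj k) (i : ℤ), ∀ c ∈ A.CHd (T.prod M) i, act Φ T c ∈ A.CHd (T.prod N) (i + r)}
  zero_mem' := fun _ _ _ _ => zero_mem _
  add_mem' := fun h h' T i c hc => add_mem (h T i c hc) (h' T i c hc)
  smul_mem' := fun q _ h T i c hc => Submodule.smul_mem _ q (h T i c hc)

theorem id_mem_deg : 𝟙 (W.mot M) ∈ Deg W M M 0 := fun _ _ _ hc => by simpa using hc

theorem comp_mem_deg {Φ : W.Op M N} {Ψ : W.Op N P} {r s t : ℤ} (h : Φ ∈ Deg W M N r) (h' : Ψ ∈ Deg W N P s)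
    (ht : r + s = t) : Φ ≫ Ψ ∈ Deg W M P t := fun T i c hc => by
  rw [← ht, ← add_assoc]
  exact h' T _ _ (h T i c hc)

/-- Manin's principle. -/
theorem act_eq_comp (Ψ : W.Op N P) (α : A.CH (X.prod N)) :
    A.comp α (act Ψ N (A.diag N)) = act Ψ X α := by
  conv_rhs => rw [← A.comp_diag α]
  change A.push (rt (p1 X N) P) (A.pull _ α * A.pull (rt (p2 X N) P) _) =
    act Ψ X (A.push (rt (p1 X N) N) (A.pull _ α * A.pull (rt (p2 X N) N) _))
  rw [(isOp Ψ).push, (isOp Ψ).mul, (isOp Ψ).pull]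

end Mot

open Mot

/-- Pull-back as an operator. -/
noncomputable def pullOp (f : X ⟶ Y) : W.Op Y X :=
  (⟨fun T => (A.pull (lt T f)).toLinearMap,
    ⟨fun g c => by
      simp only [AlgHom.toLinearMap_apply, ← A.pull_comp, rt_lt],
    fun g c => A.pull_lt_push_rt g f c,
    fun T t c => by simp only [AlgHom.toLinearMap_apply, map_mul, ← A.pull_comp, lt_p1],
    W.push f, fun T c a y => by
      rw [AlgHom.toLinearMap_apply, W.cl_pull, W.tr_pull_lt]⟩⟩ : W.opSub Y X)

/-- Push-forward as an operator. -/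
noncomputable def pushOp (f : X ⟶ Y) : W.Op X Y :=
  (⟨fun T => A.push (lt T f),
    ⟨fun g c => (A.pull_rt_push_lt g f c).symm,
    fun g c => by simp only [← A.push_comp, rt_lt],
    fun T t c => by rw [← A.projection, ← A.pull_comp, lt_p1],
    (W.pull f).toLinearMap, fun T c a y => by
      rw [W.tr_cl_push, ← W.pull_comp, ← W.pull_comp, lt_p1, lt_p2, W.pull_comp]
      rfl⟩⟩ : W.opSub X Y)

/-- Multiplication by a class as an operator. -/
noncomputable def mulOp (γ : A.CH X) : W.Op X X :=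
  (⟨fun T => LinearMap.mulLeft ℚ (A.pull (p2 T X) γ),
    ⟨fun g c => by simp only [LinearMap.mulLeft_apply, map_mul, ← A.pull_comp, rt_p2],
    fun g c => by
      rw [LinearMap.mulLeft_apply, LinearMap.mulLeft_apply, ← A.projection, ← A.pull_comp, rt_p2],
    fun T t c => by simp only [LinearMap.mulLeft_apply, mul_left_comm],
    LinearMap.mulLeft K (W.cl X γ), fun T c a y => by
      rw [LinearMap.mulLeft_apply, LinearMap.mulLeft_apply, _root_.mul_comm _ c, map_mul (W.cl _),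
        W.cl_pull, map_mul (W.pull _), ← mul_assoc, ← mul_assoc]⟩⟩ : W.opSub X X)

@[simp] theorem act_pullOp (f : X ⟶ Y) (T : SmProj k) (c) :
    act (W.pullOp f) T c = A.pull (lt T f) c := rfl

@[simp] theorem act_pushOp (f : X ⟶ Y) (T : SmProj k) (c) :
    act (W.pushOp f) T c = A.push (lt T f) c := rfl

@[simp] theorem act_mulOp (γ : A.CH X) (T : SmProj k) (c) :
    act (W.mulOp γ) T c = A.pull (p2 T X) γ * c := rfl

theorem sig_pullOp (f : X ⟶ Y) : sig (W.pullOp f) = W.push f :=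
  sig_eq fun T c a y => by rw [act_pullOp, W.cl_pull, W.tr_pull_lt]

theorem sig_pushOp (f : X ⟶ Y) (y) : sig (W.pushOp f) y = W.pull f y := by
  rw [sig_eq (S := (W.pull f).toLinearMap) fun T c a y => by
    rw [act_pushOp, W.tr_cl_push, ← W.pull_comp, ← W.pull_comp, lt_p1, lt_p2, W.pull_comp]
    rfl]
  rfl

theorem sig_mulOp (γ : A.CH X) (y) : sig (W.mulOp γ) y = W.cl X γ * y := by
  rw [sig_eq (S := LinearMap.mulLeft K (W.cl X γ)) fun T c a y => by
    rw [act_mulOp, LinearMap.mulLeft_apply, _root_.mul_comm _ c, map_mul (W.cl _),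
      W.cl_pull, map_mul (W.pull _), ← mul_assoc, ← mul_assoc]]
  rfl

theorem pullOp_deg (f : X ⟶ Y) : W.pullOp f ∈ Deg W _ _ 0 := fun T i c hc => by
  simpa using A.pull_mem _ hc

theorem pushOp_deg (f : X ⟶ Y) : W.pushOp f ∈ Deg W _ _ ((Y.dim : ℤ) - X.dim) := fun T i c hc => by
  have := A.push_mem (lt T f) hc
  simp only [prod_dim] at this
  have h : i + ((T.dim + Y.dim : ℕ) : ℤ) - ((T.dim + X.dim : ℕ) : ℤ) = i + (Y.dim - X.dim) := by
    push_cast; ring
  rwa [h] at this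

theorem mulOp_deg {γ : A.CH X} {r : ℤ} (h : γ ∈ A.CHd X r) : W.mulOp γ ∈ Deg W _ _ r :=
  fun T i c hc => by
    rw [act_mulOp, _root_.mul_comm]
    exact A.mul_mem hc (A.pull_mem _ h)

theorem mulOp_one : W.mulOp (1 : A.CH X) = 𝟙 _ := hom_ext fun T c => by simp

theorem mulOp_mul (γ δ : A.CH X) : W.mulOp (γ * δ) = W.mulOp γ ≫ W.mulOp δ :=
  hom_ext fun T c => by
    simp only [act_comp, act_mulOp, map_mul]
    ring

/-- `mulOp` as a linear map. -/
noncomputable def mulL (X : SmProj k) : A.CH X →ₗ[ℚ] W.Op X X where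
  toFun := W.mulOp
  map_add' γ δ := hom_ext fun T c => by simp [add_mul]
  map_smul' q γ := hom_ext fun T c => by simp

theorem mulOp_add (γ δ : A.CH X) : W.mulOp (γ + δ) = W.mulOp γ + W.mulOp δ :=
  (W.mulL X).map_add γ δ

theorem mulOp_smul (q : ℚ) (γ : A.CH X) : W.mulOp (q • γ) = q • W.mulOp γ :=
  (W.mulL X).map_smul q γ

theorem mulOp_zero : W.mulOp (0 : A.CH X) = 0 := (W.mulL X).map_zero

theorem pull_mul_push (f : X ⟶ Y) (x : A.CH X) :
    W.pullOp f ≫ W.mulOp x ≫ W.pushOp f = W.mulOp (A.push f x) := hom_ext fun T c => by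
  simp only [act_comp, act_pullOp, act_mulOp, act_pushOp]
  rw [A.projection', A.push_lt_pull_p2]

theorem mul_pull (f : X ⟶ Y) (γ : A.CH Y) :
    W.mulOp γ ≫ W.pullOp f = W.pullOp f ≫ W.mulOp (A.pull f γ) := hom_ext fun T c => by
  simp only [act_comp, act_pullOp, act_mulOp, map_mul, ← A.pull_comp, lt_p2]

theorem push_mul (f : X ⟶ Y) (γ : A.CH Y) :
    W.pushOp f ≫ W.mulOp γ = W.mulOp (A.pull f γ) ≫ W.pushOp f := hom_ext fun T c => by
  simp only [act_comp, act_pushOp, act_mulOp]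
  rw [← A.projection, ← A.pull_comp, ← A.pull_comp, lt_p2]

theorem diag_mem (X : SmProj k) : A.diag X ∈ A.CHd (X.prod X) X.dim := by
  have := A.push_mem (pair (𝟙 X) (𝟙 X)) (A.one_mem X)
  simp only [prod_dim] at this
  have h : (0 : ℤ) + ((X.dim + X.dim : ℕ) : ℤ) - X.dim = X.dim := by push_cast; ring
  rwa [h] at this

/-- Orthogonal projectors among the operators give a Chow-Kuenneth decomposition. -/
theorem hasCK_of_ops (P : Fin (2 * X.dim + 1) → W.Op X X)
    (h0 : ∀ i, P i ∈ Deg W _ _ 0) (h1 : ∀ i j, P i ≫ P j = if i = j then P i else 0)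
    (h2 : ∑ i, P i = 𝟙 _) (h3 : ∀ i, sig (P i) = W.proj X (2 * X.dim - i)) : W.HasCK X := by
  refine ⟨fun i => act (P i) X (A.diag X), fun i => ?_, fun i j => ?_, ?_, fun i x y => ?_⟩
  · simpa using h0 i X _ _ (diag_mem X)
  · rw [act_eq_comp (P j), ← act_comp, h1]
    split_ifs <;> rfl
  · rw [← act_sum, h2, act_id]
  · rw [adj_sig (P i), W.tr_diag, h3]
    exact W.tr_mul_proj (by omega) x y

end Weil

end Pool.Agent.P.MP_638e8a_ag.H58
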