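import Pool.Agent.P.MP_638e8a_ag.H58Lift

/-!
Dual families of cycle classes on a tame variety, and the frames they define.
-/

open CategoryTheory

universe u v w

namespace Pool.Agent.P.MP_638e8a_ag.H58

open SmProj

theorem exists_dual {M : Type*} [AddCommGroup M] [Module ℚ M] (β : M →ₗ[ℚ] M →ₗ[ℚ] ℚ)
    (V V' : Submodule ℚ M) (h : ∀ x ∈ V, (∀ y ∈ V', β x y = 0) → x = 0) {ι : Type*} [Fintype ι]
    [DecidableEq ι] (x : ι → M) (hx : LinearIndependent ℚ x) (hV : ∀ i, x i ∈ V) :
    ∃ y : ι → M, (∀ j, y j ∈ V') ∧ ∀ i j, β (x i) (y j) = if i = j then 1 else 0 := by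
  let U := Submodule.span ℚ (Set.range x)
  have hU : U ≤ V := Submodule.span_le.mpr (Set.range_subset_iff.mpr hV)
  have : FiniteDimensional ℚ U := FiniteDimensional.span_of_finite ℚ (Set.finite_range x)
  have hinj : Function.Injective (β.compl₁₂ U.subtype V'.subtype) :=
    (injective_iff_map_eq_zero _).2 fun z hz =>
      Subtype.ext (h z (hU z.2) fun y hy => LinearMap.congr_fun hz ⟨y, hy⟩)
  have hs := LinearMap.flip_surjective_iff₁.mpr hinj
  choose y hy using fun j => hs ((Module.Basis.span hx).coord j)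
  refine ⟨fun j => y j, fun j => (y j).2, fun i j => ?_⟩
  have h1 := LinearMap.congr_fun (hy j) (Module.Basis.span hx i)
  rw [Module.Basis.coord_apply, Module.Basis.repr_self, Finsupp.single_apply] at h1
  rw [← h1]
  simp

namespace Weil

variable {k : Type u} [Field k] {A : Chow k} {K : Type v} [Field K] [CharZero K]
  (W : Weil.{u, v, w} A K) {B Y : SmProj k}

open Mot

theorem exists_dg (B : SmProj k) : ∃ d : A.CH B →ₗ[ℚ] ℚ, ∀ x,
    A.push (toPt B) x = d x • 1 ∧ W.tr B (W.cl B x) = d x := by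
  choose d hd using fun x => A.exists_eq_smul_one (A.push (toPt B) x)
  have h := fun x => W.tr_cl_eq (hd x)
  refine ⟨⟨⟨d, fun x y => Rat.cast_injective (α := K) ?_⟩,
    fun q x => Rat.cast_injective (α := K) ?_⟩, fun x => ⟨hd x, h x⟩⟩
  · rw [Rat.cast_add, ← h, ← h, ← h, map_add, map_add]
  · rw [RingHom.id_apply, smul_eq_mul, Rat.cast_mul, ← h, ← h, W.cl_smul, map_smul, smul_eq_mul]

/-- The degree of a cycle class. -/
noncomputable def dg (B : SmProj k) : A.CH B →ₗ[ℚ] ℚ := (W.exists_dg B).choose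

theorem push_toPt_eq (x : A.CH B) : A.push (toPt B) x = W.dg B x • 1 :=
  ((W.exists_dg B).choose_spec x).1

theorem tr_cl (x : A.CH B) : W.tr B (W.cl B x) = W.dg B x := ((W.exists_dg B).choose_spec x).2

theorem dg_eq_zero {i : ℕ} {x : A.CH B} (hx : x ∈ A.CHd B i) (hi : i ≠ B.dim) : W.dg B x = 0 := by
  apply Rat.cast_injective (α := K)
  rw [← W.tr_cl, W.tr_deg B _ (by omega) _ (W.cl_deg B i x hx), Rat.cast_zero]

theorem exists_basis (V V' : Submodule ℚ (A.CH B))
    (h : ∀ x ∈ V, (∀ y ∈ V', A.push (toPt B) (x * y) = 0) → x = 0) :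
    ∃ (m : ℕ) (x y : Fin m → A.CH B), (∀ i, x i ∈ V) ∧ (∀ j, y j ∈ V') ∧
      (∀ i j, W.dg B (x i * y j) = if i = j then 1 else 0) ∧
      V ≤ Submodule.span ℚ (Set.range x) := by
  classical
  let β : A.CH B →ₗ[ℚ] A.CH B →ₗ[ℚ] ℚ := (LinearMap.mul ℚ (A.CH B)).compr₂ (W.dg B)
  have h' : ∀ x ∈ V, (∀ y ∈ V', β x y = 0) → x = 0 := fun x hx hy => h x hx fun y hy' => by
    rw [W.push_toPt_eq, show W.dg B (x * y) = 0 from hy y hy', zero_smul]
  have hfin : Module.Finite ℚ V := by
    rw [← Module.rank_lt_aleph0_iff]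
    refine lt_of_le_of_lt (rank_le (n := Module.finrank K (W.H B)) fun s hs => ?_)
      (Cardinal.natCast_lt_aleph0)
    obtain ⟨y, -, hy⟩ := exists_dual β V V' h' (fun i : s => ((i : V) : A.CH B))
      (hs.map' V.subtype V.ker_subtype) fun i => (i : V).2
    have : LinearIndependent K fun i : s => W.cl B ((i : V) : A.CH B) := by
      rw [Fintype.linearIndependent_iff]
      intro g hg j
      have h1 := congrArg (fun z => W.tr B (z * W.cl B (y j))) hg
      simp only [Finset.sum_mul, map_sum, smul_mul_assoc, map_smul, ← map_mul (W.cl B), W.tr_cl,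
        zero_mul, map_zero] at h1
      rw [Finset.sum_eq_single j (fun i _ hi => by
        rw [show W.dg B (_ * _) = _ from hy i j, if_neg hi, Rat.cast_zero, smul_zero]) (by simp),
        show W.dg B (_ * _) = _ from hy j j, if_pos rfl, Rat.cast_one, smul_eq_mul, mul_one] at h1
      exact h1
    simpa using this.fintype_card_le_finrank
  let b := Module.finBasis ℚ V
  obtain ⟨y, hy, hy'⟩ := exists_dual β V V' h' (fun i => (b i : A.CH B))
    (b.linearIndependent.map' V.subtype V.ker_subtype) fun i => (b i).2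
  refine ⟨_, fun i => b i, y, fun i => (b i).2, hy, hy', fun z hz => ?_⟩
  have h1 := congrArg Subtype.val (b.sum_repr ⟨z, hz⟩)
  simp only [Submodule.coe_sum, Submodule.coe_smul] at h1
  rw [← h1]
  exact Submodule.sum_mem _ fun i _ => Submodule.smul_mem _ _ (Submodule.subset_span ⟨i, rfl⟩)

/-- Dual families of homogeneous cycle classes adapted to `N`. -/
structure Dual (B : SmProj k) (N : Submodule ℚ (A.CH B)) where
  τ : Type
  [fin : Fintype τ]
  [dec : DecidableEq τ]
  δ : τ → ℕ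
  e : τ → A.CH B
  e' : τ → A.CH B
  le : ∀ a, δ a ≤ B.dim
  he : ∀ a, e a ∈ A.CHd B (δ a)
  he' : ∀ a, e' a ∈ A.CHd B (B.dim - δ a : ℕ)
  dual : ∀ a b, W.dg B (e a * e' b) = if a = b then 1 else 0
  sp : ∀ c, 2 * c ≤ B.dim → N ^ c ≤ Submodule.span ℚ (Set.range e)
  sp' : ∀ c, 2 * c ≤ B.dim → N ^ c ≤ Submodule.span ℚ (Set.range e')
  mem : ∀ a, 2 * δ a ≤ B.dim → e a ∈ N ^ δ a
  mem' : ∀ a, B.dim ≤ 2 * δ a → e' a ∈ N ^ (B.dim - δ a)

attribute [instance] Dual.fin Dual.dec

theorem exists_dualFam {N : Submodule ℚ (A.CH B)} (h : W.Tame ⟨B, N⟩) : Nonempty (W.Dual B N) := by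
  have hN : ∀ a : ℕ, N ^ a ≤ A.CHd B a := A.pow_le h.divisor
  have : ∀ a : ℕ, ∃ (m : ℕ) (x y : Fin m → A.CH B), 2 * a ≤ B.dim → (∀ i, x i ∈ N ^ a) ∧
      (∀ j, y j ∈ A.CHd B (B.dim - a : ℕ)) ∧
      (∀ i j, W.dg B (x i * y j) = if i = j then 1 else 0) ∧
      N ^ a ≤ Submodule.span ℚ (Set.range x) ∧
      (2 * a = B.dim → (∀ j, y j ∈ N ^ a) ∧ N ^ a ≤ Submodule.span ℚ (Set.range y)) := by
    intro a
    rcases lt_trichotomy (2 * a) B.dim with ha | ha | ha
    · obtain ⟨m, x, y, h1, h2, h3, h4⟩ := W.exists_basis _ _ (h.num_lt a ha)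
      refine ⟨m, x, y, fun _ => ⟨h1, fun j => ?_, h3, h4, fun h5 => by omega⟩⟩
      rw [Nat.cast_sub (by omega)]
      exact h2 j
    · obtain ⟨m, x, y, h1, h2, h3, h4⟩ := W.exists_basis _ _ (h.num_eq a ha)
      refine ⟨m, x, y, fun _ => ⟨h1, fun j => ?_, h3, h4, fun _ => ⟨h2, fun z hz => ?_⟩⟩⟩
      · rw [show B.dim - a = a by omega]
        exact hN a (h2 j)
      · have : z - ∑ j, W.dg B (x j * z) • y j = 0 := by
          refine h.num_eq a ha _ (sub_mem hz (Submodule.sum_mem _ fun j _ =>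
            Submodule.smul_mem _ _ (h2 j))) fun t ht => ?_
          have ht' := h4 ht
          clear ht
          induction ht' using Submodule.span_induction with
          | zero => rw [mul_zero, map_zero]
          | add s t _ _ hs ht => rw [mul_add, map_add, hs, ht, add_zero]
          | smul q t _ ht => rw [mul_smul_comm, map_smul, ht, smul_zero]
          | mem t ht =>
            obtain ⟨i, rfl⟩ := ht
            rw [W.push_toPt_eq, _root_.mul_comm, mul_sub, map_sub, Finset.mul_sum, map_sum,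
              Finset.sum_eq_single i (fun j _ hj => by
                rw [mul_smul_comm, map_smul, h3, if_neg hj.symm, smul_zero]) (by simp),
              mul_smul_comm, map_smul, h3, if_pos rfl, smul_eq_mul, mul_one, sub_self, zero_smul]
        rw [sub_eq_zero.mp this]
        exact Submodule.sum_mem _ fun i _ => Submodule.smul_mem _ _ (Submodule.subset_span ⟨i, rfl⟩)
    · exact ⟨0, Fin.elim0, Fin.elim0, fun h => by omega⟩
  choose m x y hm using this
  have hz : ∀ {i j : ℕ} {s t : A.CH B}, s ∈ A.CHd B i → t ∈ A.CHd B j → i + j ≠ B.dim →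
      W.dg B (s * t) = 0 := fun hs ht hij =>
    W.dg_eq_zero (by exact_mod_cast A.mul_mem hs ht) hij
  refine ⟨{
    τ := (Σ a : {a : Fin (B.dim + 1) // 2 * (a : ℕ) ≤ B.dim}, Fin (m a)) ⊕
      (Σ a : {a : Fin (B.dim + 1) // 2 * (a : ℕ) < B.dim}, Fin (m a))
    δ := Sum.elim (fun p => p.1) (fun p => B.dim - p.1)
    e := Sum.elim (fun p => x _ p.2) (fun p => y _ p.2)
    e' := Sum.elim (fun p => y _ p.2) (fun p => x _ p.2)
    le := ?_, he := ?_, he' := ?_, dual := ?_, sp := ?_, sp' := ?_, mem := ?_, mem' := ?_ }⟩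
  · rintro (⟨⟨a, ha⟩, i⟩ | ⟨⟨a, ha⟩, i⟩) <;> (simp; try omega)
  · rintro (⟨⟨a, ha⟩, i⟩ | ⟨⟨a, ha⟩, i⟩)
    · exact hN a ((hm a ha).1 i)
    · exact (hm a ha.le).2.1 i
  · rintro (⟨⟨a, ha⟩, i⟩ | ⟨⟨a, ha⟩, i⟩)
    · exact (hm a ha).2.1 i
    · simp only [Sum.elim_inr]
      rw [show B.dim - (B.dim - a) = a by omega]
      exact hN a ((hm a ha.le).1 i)
  · rintro (⟨⟨a, ha⟩, i⟩ | ⟨⟨a, ha⟩, i⟩) (⟨⟨b, hb⟩, j⟩ | ⟨⟨b, hb⟩, j⟩) <;>
      simp only [Sum.elim_inl, Sum.elim_inr]
    · by_cases hab : a = b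
      · subst hab
        simp [(hm a ha).2.2.1]
      · rw [hz (hN a ((hm a ha).1 i)) ((hm b hb).2.1 j) (by have := Fin.val_ne_of_ne hab; omega),
          if_neg (by simp [hab])]
    · rw [hz (hN a ((hm a ha).1 i)) (hN b ((hm b hb.le).1 j)) (by omega), if_neg (by simp)]
    · rw [hz ((hm a ha.le).2.1 i) ((hm b hb).2.1 j) (by omega), if_neg (by simp)]
    · by_cases hab : a = b
      · subst hab
        rw [_root_.mul_comm]
        simp [(hm a ha.le).2.2.1, eq_comm]
      · rw [hz ((hm a ha.le).2.1 i) (hN b ((hm b hb.le).1 j))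
          (by have := Fin.val_ne_of_ne hab; omega), if_neg (by simp [hab])]
  · intro c hc
    refine (hm c hc).2.2.2.1.trans (Submodule.span_mono ?_)
    rintro _ ⟨i, rfl⟩
    exact ⟨Sum.inl ⟨⟨⟨c, by omega⟩, hc⟩, i⟩, rfl⟩
  · intro c hc
    rcases hc.lt_or_eq with hc' | hc'
    · refine (hm c hc).2.2.2.1.trans (Submodule.span_mono ?_)
      rintro _ ⟨i, rfl⟩
      exact ⟨Sum.inr ⟨⟨⟨c, by omega⟩, hc'⟩, i⟩, rfl⟩
    · refine ((hm c hc).2.2.2.2 hc').2.trans (Submodule.span_mono ?_)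
      rintro _ ⟨i, rfl⟩
      exact ⟨Sum.inl ⟨⟨⟨c, by omega⟩, hc⟩, i⟩, rfl⟩
  · rintro (⟨⟨a, ha⟩, i⟩ | ⟨⟨a, ha⟩, i⟩) h1
    · exact (hm a ha).1 i
    · simp only [Sum.elim_inr] at h1
      omega
  · rintro (⟨⟨a, ha⟩, i⟩ | ⟨⟨a, ha⟩, i⟩) h1
    · simp only [Sum.elim_inl] at h1 ⊢
      rw [show B.dim - a = a by omega]
      exact ((hm a ha).2.2.2.2 (by omega)).1 i
    · simp only [Sum.elim_inr]
      rw [show B.dim - (B.dim - a) = a by omega]
      exact (hm a ha.le).1 i

theorem push_p2_box (x : W.H B) (y : W.H Y) :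
    W.push (p2 B Y) (W.pull (p1 B Y) x * W.pull (p2 B Y) y) = W.tr B x • y := by
  refine W.eq_of_tr_deg fun j z hz => ?_
  rw [W.tr_mul_push]
  induction x using W.deg_induction with
  | h0 => simp
  | h2 a b ha hb => simp only [map_add, add_mul, mul_add, add_smul, ha, hb]
  | h1 i x hx =>
    rw [← mul_assoc, W.mul_comm _ j i _ (W.pull_deg _ j z hz) _ (W.pull_deg _ i x hx),
      smul_mul_assoc, map_smul, mul_assoc, ← map_mul (W.pull _), W.tr_prod, mul_smul_comm, map_smul]
    by_cases hi : i = 2 * B.dim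
    · rw [hi, mul_left_comm, pow_mul]
      simp
    · simp [W.tr_deg B i hi x hx]

namespace Dual

variable {W} {N : Submodule ℚ (A.CH B)} (D : W.Dual B N) (Y : SmProj k)

/-- Multiplication by a class from the first factor. -/
noncomputable abbrev ρ (W : Weil.{u, v, w} A K) (Y : SmProj k) (γ : A.CH B) :
    W.Op (B.prod Y) (B.prod Y) := W.mulOp (A.pull (p1 B Y) γ)

theorem ρ_ρ (γ δ : A.CH B) {Z : SmProj k} (Φ : W.Op (B.prod Y) Z) :
    ρ W Y γ ≫ ρ W Y δ ≫ Φ = ρ W Y (γ * δ) ≫ Φ := by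
  rw [ρ, ρ, ρ, map_mul, W.mulOp_mul, Category.assoc]

theorem pull_ρ_push (γ : A.CH B) {Z : SmProj k} (Φ : W.Op Y Z) :
    W.pullOp (p2 B Y) ≫ ρ W Y γ ≫ W.pushOp (p2 B Y) ≫ Φ = W.dg B γ • Φ := by
  have := W.pull_mul_push (p2 B Y) (A.pull (p1 B Y) γ)
  rw [A.push_p2_pull_p1, W.push_toPt_eq, map_smul, map_one, W.mulOp_smul, W.mulOp_one] at this
  calc _ = (W.pullOp (p2 B Y) ≫ ρ W Y γ ≫ W.pushOp (p2 B Y)) ≫ Φ := by simp only [Category.assoc]
    _ = _ := by rw [this, Linear.smul_comp, Category.id_comp]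

/-- The matrix units of the Tate part. -/
noncomputable def T (a b : D.τ) : W.Op (B.prod Y) (B.prod Y) :=
  ρ W Y (D.e' a) ≫ W.pushOp (p2 B Y) ≫ W.pullOp (p2 B Y) ≫ ρ W Y (D.e b)

/-- The projector onto the complement of the Tate part. -/
noncomputable def t : W.Op (B.prod Y) (B.prod Y) := 𝟙 _ - ∑ a, D.T Y a a

theorem T_ρ_T (a b c d : D.τ) (γ : A.CH B) :
    D.T Y a b ≫ ρ W Y γ ≫ D.T Y c d = W.dg B (D.e b * γ * D.e' c) • D.T Y a d := by
  simp only [T, Category.assoc, ρ_ρ, pull_ρ_push, Linear.comp_smul, mul_assoc]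

theorem T_T (a b c d : D.τ) :
    D.T Y a b ≫ D.T Y c d = if b = c then D.T Y a d else 0 := by
  simp only [T, Category.assoc, ρ_ρ, pull_ρ_push, Linear.comp_smul, D.dual]
  split_ifs
  · rw [one_smul]
  · rw [zero_smul]

theorem pull_ρ_t {z : A.CH B} (hz : z ∈ Submodule.span ℚ (Set.range D.e)) :
    W.pullOp (p2 B Y) ≫ ρ W Y z ≫ D.t Y = 0 := by
  induction hz using Submodule.span_induction with
  | zero => rw [ρ, map_zero, W.mulOp_zero, Limits.zero_comp, Limits.comp_zero]
  | add x y _ _ hx hy =>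
    rw [ρ, map_add, W.mulOp_add, Preadditive.add_comp, Preadditive.comp_add, hx, hy, add_zero]
  | smul q x _ hx =>
    rw [ρ, map_smul, W.mulOp_smul, Linear.smul_comp, Linear.comp_smul, hx, smul_zero]
  | mem z hz =>
    obtain ⟨c, rfl⟩ := hz
    simp only [t, T, Preadditive.comp_sub, Preadditive.comp_sum, Category.comp_id, ρ_ρ,
      pull_ρ_push, D.dual]
    rw [Finset.sum_eq_single c (fun a _ ha => by rw [if_neg ha.symm, zero_smul])
      (fun h => absurd (Finset.mem_univ c) h), if_pos rfl, one_smul, sub_self]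

theorem t_ρ_push {z : A.CH B} (hz : z ∈ Submodule.span ℚ (Set.range D.e')) :
    D.t Y ≫ ρ W Y z ≫ W.pushOp (p2 B Y) = 0 := by
  induction hz using Submodule.span_induction with
  | zero => rw [ρ, map_zero, W.mulOp_zero, Limits.zero_comp, Limits.comp_zero]
  | add x y _ _ hx hy =>
    rw [ρ, map_add, W.mulOp_add, Preadditive.add_comp, Preadditive.comp_add, hx, hy, add_zero]
  | smul q x _ hx =>
    rw [ρ, map_smul, W.mulOp_smul, Linear.smul_comp, Linear.comp_smul, hx, smul_zero]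
  | mem z hz =>
    obtain ⟨c, rfl⟩ := hz
    have := fun γ => pull_ρ_push (W := W) (B := B) Y γ (𝟙 (W.mot Y))
    simp only [Category.comp_id] at this
    simp only [t, T, Preadditive.sub_comp, Preadditive.sum_comp, Category.id_comp, Category.assoc,
      ρ_ρ, this, D.dual, Linear.comp_smul, Category.comp_id]
    rw [Finset.sum_eq_single c (fun a _ ha => by rw [if_neg ha, zero_smul])
      (fun h => absurd (Finset.mem_univ c) h), if_pos rfl, one_smul, sub_self]

theorem T_t (a b : D.τ) : D.T Y a b ≫ D.t Y = 0 := by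
  simp only [T, Category.assoc]
  rw [D.pull_ρ_t Y (Submodule.subset_span ⟨b, rfl⟩), Limits.comp_zero, Limits.comp_zero]

theorem t_T (a b : D.τ) : D.t Y ≫ D.T Y a b = 0 := by
  calc _ = (D.t Y ≫ ρ W Y (D.e' a) ≫ W.pushOp (p2 B Y)) ≫ W.pullOp (p2 B Y) ≫ ρ W Y (D.e b) := by
        simp only [T, Category.assoc]
    _ = 0 := by rw [D.t_ρ_push Y (Submodule.subset_span ⟨a, rfl⟩), Limits.zero_comp]

theorem t_t : D.t Y ≫ D.t Y = D.t Y := by
  conv_lhs => congr; rfl; rw [t]
  rw [Preadditive.comp_sub, Category.comp_id, Preadditive.comp_sum,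
    Finset.sum_eq_zero fun a _ => D.t_T Y a a, sub_zero]

theorem T_deg (a b : D.τ) : D.T Y a b ∈ Deg W _ _ ((D.δ b : ℤ) - D.δ a) := by
  refine comp_mem_deg (W.mulOp_deg (A.pull_mem _ (D.he' a))) (comp_mem_deg (W.pushOp_deg _)
    (comp_mem_deg (W.pullOp_deg _) (W.mulOp_deg (A.pull_mem _ (D.he b))) rfl) rfl) ?_
  have := D.le a
  simp only [prod_dim]
  omega

theorem lift_T (a b : D.τ) (Φ : W.Op Y Y) :
    W.lift B Φ ≫ D.T Y a b = D.T Y a b ≫ W.lift B Φ := by
  simp only [T, Category.assoc]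
  rw [← Category.assoc, W.lift_comm_mul, Category.assoc, ← Category.assoc (W.lift B Φ),
    W.lift_push, Category.assoc, ← Category.assoc Φ, ← W.pull_lift, Category.assoc,
    W.lift_comm_mul]

theorem sig_T (a b : D.τ) (x : W.H B) (y : W.H Y) :
    sig (D.T Y a b) (W.pull (p1 B Y) x * W.pull (p2 B Y) y) =
      W.pull (p1 B Y) (W.tr B (W.cl B (D.e b) * x) • W.cl B (D.e' a)) * W.pull (p2 B Y) y := by
  simp only [T, sig_comp_apply, sig_mulOp, sig_pushOp, sig_pullOp, W.cl_pull]
  rw [← mul_assoc, ← map_mul (W.pull _), W.push_p2_box, map_smul, map_smul, mul_smul_comm,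
    smul_mul_assoc]

theorem expand (h : W.Tame ⟨B, N⟩) {j : ℕ} (hj : j ≠ B.dim) {x : W.H B} (hx : x ∈ W.deg B j) :
    ∑ a, W.tr B (W.cl B (D.e a) * x) • W.cl B (D.e' a) = x := by
  have gen : ∀ (f : D.τ → A.CH B), (∀ c, 2 * c ≤ B.dim → N ^ c ≤ Submodule.span ℚ (Set.range f)) →
      ∀ i < B.dim, W.deg B i ≤ Submodule.span K (Set.range fun a => W.cl B (f a)) := by
    intro f hf i hi
    refine (h.gen i hi).trans (Submodule.span_le.mpr ?_)
    rintro _ ⟨a, ha, z, hz, rfl⟩
    have hz' := hf a (by omega) hz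
    clear hz
    induction hz' using Submodule.span_induction with
    | zero => rw [map_zero]; exact zero_mem _
    | add s t _ _ hs ht => rw [map_add]; exact add_mem hs ht
    | smul q t _ ht => rw [W.cl_smul]; exact Submodule.smul_mem _ _ ht
    | mem t ht =>
      obtain ⟨a, rfl⟩ := ht
      exact Submodule.subset_span ⟨a, rfl⟩
  have du : ∀ a b, W.tr B (W.cl B (D.e a) * W.cl B (D.e' b)) = if a = b then 1 else 0 := by
    intro a b
    rw [← map_mul (W.cl B), W.tr_cl, D.dual]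
    split_ifs <;> simp
  rcases lt_or_gt_of_ne hj with hj | hj
  · have hx' := gen _ D.sp' j hj hx
    clear hx
    induction hx' using Submodule.span_induction with
    | zero => simp
    | add s t _ _ hs ht => simp only [mul_add, map_add, add_smul, Finset.sum_add_distrib, hs, ht]
    | smul q t _ ht =>
      simp only [mul_smul_comm, map_smul, smul_eq_mul, mul_smul, ← Finset.smul_sum, ht]
    | mem t ht =>
      obtain ⟨b, rfl⟩ := ht
      simp [du]
  · refine W.eq_of_tr_deg fun i z hz => ?_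
    simp only [Finset.mul_sum, map_sum, mul_smul_comm, map_smul, smul_eq_mul]
    by_cases hi : i < B.dim
    · have hz' := gen _ D.sp i hi hz
      clear hz
      induction hz' using Submodule.span_induction with
      | zero => simp
      | add s t _ _ hs ht => simp only [add_mul, mul_add, map_add, Finset.sum_add_distrib, hs, ht]
      | smul q t _ ht =>
        simp only [smul_mul_assoc, map_smul, smul_eq_mul, mul_left_comm _ q, ← Finset.mul_sum, ht]
      | mem t ht =>
        obtain ⟨b, rfl⟩ := ht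
        simp [du]
    · rw [W.tr_deg B _ (by omega) _ (W.mul_mem hz hx)]
      refine Finset.sum_eq_zero fun a _ => ?_
      have := D.le a
      by_cases ha : 2 * D.δ a + j = 2 * B.dim
      · rw [W.tr_deg B _ (by omega) _ (W.mul_mem hz (W.cl_deg B _ _ (D.he' a))), mul_zero]
      · rw [W.tr_deg B _ ha _ (W.mul_mem (W.cl_deg B _ _ (D.he a)) hx), zero_mul]

/-- The matrix units on `B × Y` coming from `B`. -/
noncomputable def U : Option D.τ → Option D.τ → W.Op (B.prod Y) (B.prod Y)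
  | some a, some b => D.T Y a b
  | none, none => D.t Y
  | _, _ => 0

/-- The part of the frame on `B × Y` coming from `B`. -/
noncomputable def side (h : W.Tame ⟨B, N⟩) : W.Side B Y N where
  ι := Option D.τ
  s := Option.isSome
  wt a := a.elim B.dim fun a => 2 * D.δ a
  u := D.U Y
  mul := by
    rintro (_ | a) (_ | b) (_ | c) h1 h2 <;> simp at h1 h2
    · exact D.t_t Y
    · exact (D.T_T Y a b b c).trans (if_pos rfl)
  orth := by
    rintro (_ | a) (_ | b) (_ | c) (_ | d) h1 h2 h3 <;> simp at h1 h2 h3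
    · exact D.t_T Y c d
    · exact D.T_t Y a b
    · exact (D.T_T Y a b c d).trans (if_neg h3)
  sum := by
    rw [Fintype.sum_option]
    exact sub_add_cancel _ _
  deg := by
    rintro (_ | a) (_ | b) h1 <;> simp at h1
    · exact ⟨0, by simp, sub_mem id_mem_deg (Submodule.sum_mem _ fun a _ => by
        simpa using D.T_deg Y a a)⟩
    · exact ⟨_, by simp; ring, D.T_deg Y a b⟩
  comm := by
    rintro (_ | a) (_ | b) Φ
    · simp only [U, t, Preadditive.comp_sub, Preadditive.sub_comp, Preadditive.comp_sum,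
        Preadditive.sum_comp, Category.id_comp, Category.comp_id, lift_T]
    · exact Limits.comp_zero.trans Limits.zero_comp.symm
    · exact Limits.comp_zero.trans Limits.zero_comp.symm
    · exact D.lift_T Y a b Φ
  sig_u := by
    rintro (_ | a) j x hx hj y
    · simp only [U, t, sig_sub, sig_id, sig_sum, LinearMap.sub_apply, LinearMap.id_apply,
        LinearMap.sum_apply, sig_T]
      rw [← Finset.sum_mul, ← map_sum, D.expand h (by simp at hj; omega) hx, sub_self]
    · simp only [U, sig_T]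
      rw [W.tr_deg B _ (by simp at hj; omega) _ (W.mul_mem (W.cl_deg B _ _ (D.he a)) hx), zero_smul,
        map_zero, zero_mul]
  filt := by
    rintro c γ hγ (_ | a) (_ | b) hab <;> simp only [Option.elim] at hab ⊢
    · obtain rfl : c = 0 := by omega
      rw [pow_zero, Submodule.mem_one] at hγ
      obtain ⟨q, rfl⟩ := hγ
      refine ⟨q, fun _ => ⟨trivial, rfl⟩, ?_⟩
      rw [Algebra.algebraMap_eq_smul_one, map_smul, map_one, W.mulOp_smul, W.mulOp_one,
        Linear.smul_comp, Category.id_comp, Linear.comp_smul]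
      exact congrArg _ (D.t_t Y)
    · refine ⟨0, fun h => absurd rfl h, ?_⟩
      have := D.le b
      have h1 : γ * D.e' b ∈ N ^ (c + (B.dim - D.δ b)) := by
        rw [pow_add]
        exact Submodule.mul_mem_mul hγ (D.mem' b (by omega))
      calc _ = (D.t Y ≫ ρ W Y (γ * D.e' b) ≫ W.pushOp (p2 B Y)) ≫ W.pullOp (p2 B Y) ≫
            ρ W Y (D.e b) := by simp only [U, T, Category.assoc, ρ_ρ]
        _ = _ := by rw [D.t_ρ_push Y (D.sp' _ (by omega) h1), Limits.zero_comp, zero_smul]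
    · refine ⟨0, fun h => absurd rfl h, ?_⟩
      have h1 : D.e a * γ ∈ N ^ (D.δ a + c) := by
        rw [pow_add]
        exact Submodule.mul_mem_mul (D.mem a (by omega)) hγ
      simp only [U, T, Category.assoc, ρ_ρ]
      rw [D.pull_ρ_t Y (D.sp _ (by omega) h1), Limits.comp_zero, Limits.comp_zero, zero_smul]
    · refine ⟨_, fun h0 => ⟨rfl, ?_⟩, D.T_ρ_T Y a a b b γ⟩
      by_contra h1
      have := D.le b
      refine h0 (W.dg_eq_zero (i := D.δ a + c + (B.dim - D.δ b)) ?_ (by omega))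
      exact_mod_cast A.mul_mem (A.mul_mem (D.he a) (A.pow_le h.divisor c hγ)) (D.he' b)

end Dual

theorem exists_frame (l : List A.Pol) (hl : ∀ P ∈ l, W.Tame P) :
    Nonempty (W.Frame (A.bigProd l).1 (A.bigProd l).2) := by
  induction l with
  | nil => exact ⟨W.framePt⟩
  | cons P l ih =>
    obtain ⟨F⟩ := ih fun Q hQ => hl Q (List.mem_cons_of_mem _ hQ)
    have h := hl P List.mem_cons_self
    obtain ⟨D⟩ := W.exists_dualFam h
    exact ⟨(D.side _ h).frame F⟩

end Weil

end Pool.Agent.P.MP_638e8a_ag.H58
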