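import Pool.Agent.P.MP_638e8a_ag.H58Geo

/-!
First properties of a Weil cohomology theory.
-/

open CategoryTheory
open scoped TensorProduct

universe u v w

namespace Pool.Agent.P.MP_638e8a_ag.H58

open SmProj

namespace Weil

variable {k : Type u} [Field k] {A : Chow k} {K : Type v} [Field K] [CharZero K]
  (W : Weil.{u, v, w} A K) {T T' X Y Z : SmProj k}

/-- The projection onto `H^m`. -/
noncomputable abbrev proj (X : SmProj k) (m : ℕ) : W.H X →ₗ[K] W.H X :=
  GradedAlgebra.proj (W.deg X) m

theorem proj_mem (m : ℕ) (x : W.H X) : W.proj X m x ∈ W.deg X m :=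
  (DirectSum.decompose (W.deg X) x m).2

theorem proj_of_mem {m : ℕ} {x : W.H X} (hx : x ∈ W.deg X m) : W.proj X m x = x :=
  DirectSum.decompose_of_mem_same (W.deg X) hx

theorem proj_of_mem_ne {m m' : ℕ} {x : W.H X} (hx : x ∈ W.deg X m) (h : m ≠ m') :
    W.proj X m' x = 0 :=
  DirectSum.decompose_of_mem_ne (W.deg X) hx h

theorem deg_induction {P : W.H X → Prop} (h0 : P 0) (h1 : ∀ i, ∀ x ∈ W.deg X i, P x)
    (h2 : ∀ x y, P x → P y → P (x + y)) (x : W.H X) : P x := by
  induction x using DirectSum.Decomposition.inductionOn (W.deg X) with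
  | zero => exact h0
  | @homogeneous i c => exact h1 i c c.2
  | add a b ha hb => exact h2 a b ha hb

theorem deg_ext {M : Type*} [AddCommGroup M] [Module K M] {S S' : W.H X →ₗ[K] M}
    (h : ∀ i, ∀ x ∈ W.deg X i, S x = S' x) : S = S' := by
  ext x
  induction x using W.deg_induction with
  | h0 => simp
  | h1 i x hx => exact h i x hx
  | h2 x y hx hy => rw [map_add, map_add, hx, hy]

theorem mul_mem {i j : ℕ} {x y : W.H X} (hx : x ∈ W.deg X i) (hy : y ∈ W.deg X j) :
    x * y ∈ W.deg X (i + j) := SetLike.mul_mem_graded hx hy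

theorem cl_comm (c : A.CH X) (y : W.H X) : W.cl X c * y = y * W.cl X c := by
  induction A.mem_iSup c using Submodule.iSup_induction' with
  | mem i c hc =>
    induction y using W.deg_induction with
    | h0 => simp
    | h1 j y hy =>
      rw [W.mul_comm X _ _ _ (W.cl_deg X i c hc) y hy, mul_assoc, pow_mul]
      simp
    | h2 x y hx hy => rw [mul_add, add_mul, hx, hy]
  | zero => simp
  | add a b _ _ ha hb => rw [map_add, mul_add, add_mul, ha, hb]

theorem cl_smul (q : ℚ) (c : A.CH X) : W.cl X (q • c) = (q : K) • W.cl X c := by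
  have := map_ratCast_smul (W.cl X) ℚ K q c
  rwa [Rat.cast_id] at this

theorem poincare' (y : W.H X) (h : ∀ x, W.tr X (x * y) = 0) : y = 0 := by
  let B : W.H X →ₗ[K] Module.Dual K (W.H X) := (LinearMap.mul K (W.H X)).compr₂ (W.tr X)
  have hB : Function.Injective B := (injective_iff_map_eq_zero _).2 fun x hx =>
    W.poincare X x fun y => LinearMap.congr_fun hx y
  have hs := (LinearMap.injective_iff_surjective_of_finrank_eq_finrank
    (Subspace.dual_finrank_eq (K := K) (V := W.H X)).symm).mp hB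
  refine (Module.forall_dual_apply_eq_zero_iff K y).mp fun φ => ?_
  obtain ⟨x, rfl⟩ := hs φ
  exact h x

theorem eq_of_tr {y y' : W.H X} (h : ∀ x, W.tr X (x * y) = W.tr X (x * y')) : y = y' :=
  sub_eq_zero.mp (W.poincare' _ fun x => by rw [mul_sub, map_sub, h, sub_self])

theorem eq_of_tr_deg {y y' : W.H X}
    (h : ∀ i, ∀ x ∈ W.deg X i, W.tr X (x * y) = W.tr X (x * y')) : y = y' := by
  refine W.eq_of_tr fun x => ?_
  induction x using W.deg_induction with
  | h0 => simp
  | h1 i x hx => exact h i x hx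
  | h2 a b ha hb => rw [add_mul, add_mul, map_add, map_add, ha, hb]

/-- Poincare duality. -/
noncomputable def pd (X : SmProj k) : W.H X ≃ₗ[K] Module.Dual K (W.H X) :=
  LinearEquiv.ofInjectiveOfFinrankEq ((LinearMap.mul K (W.H X)).compr₂ (W.tr X)).flip
    ((injective_iff_map_eq_zero _).2 fun y hy => W.poincare' y fun x => LinearMap.congr_fun hy x)
    (Subspace.dual_finrank_eq (K := K) (V := W.H X)).symm

theorem pd_apply (x y : W.H X) : W.pd X y x = W.tr X (x * y) := rfl

/-- Push-forward in cohomology. -/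
noncomputable def push (f : X ⟶ Y) : W.H X →ₗ[K] W.H Y :=
  (W.pd Y).symm.toLinearMap ∘ₗ (W.pull f).toLinearMap.dualMap ∘ₗ (W.pd X).toLinearMap

theorem tr_mul_push (f : X ⟶ Y) (x : W.H X) (y : W.H Y) :
    W.tr Y (y * W.push f x) = W.tr X (W.pull f y * x) := by
  rw [← pd_apply, push]
  simp [pd_apply]

theorem tr_mul_proj {i j : ℕ} (h : i + j = 2 * X.dim) (x y : W.H X) :
    W.tr X (W.proj X i x * y) = W.tr X (x * W.proj X j y) := by
  induction x using W.deg_induction with
  | h0 => simp
  | h2 a b ha hb => rw [map_add, add_mul, add_mul, map_add, map_add, ha, hb]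
  | h1 a x hx =>
    induction y using W.deg_induction with
    | h0 => simp
    | h2 a b ha hb => rw [map_add, mul_add, mul_add, map_add, map_add, ha, hb]
    | h1 b y hy =>
      by_cases ha : a = i
      · subst ha
        rw [W.proj_of_mem hx]
        by_cases hb : b = j
        · subst hb
          rw [W.proj_of_mem hy]
        · rw [W.proj_of_mem_ne hy hb, mul_zero, map_zero,
            W.tr_deg X _ (by omega) _ (W.mul_mem hx hy)]
      · rw [W.proj_of_mem_ne hx ha, zero_mul, map_zero]
        by_cases hb : b = j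
        · subst hb
          rw [W.proj_of_mem hy, W.tr_deg X _ (by omega) _ (W.mul_mem hx hy)]
        · rw [W.proj_of_mem_ne hy hb, mul_zero, map_zero]

theorem mem_deg_of_tr {j : ℕ} {z : W.H X}
    (h : ∀ i, i + j ≠ 2 * X.dim → ∀ y ∈ W.deg X i, W.tr X (y * z) = 0) : z ∈ W.deg X j := by
  by_cases hj : j ≤ 2 * X.dim
  · have : z = W.proj X j z := by
      refine W.eq_of_tr_deg fun i y hy => ?_
      rw [← W.tr_mul_proj (i := 2 * X.dim - j) (by omega)]
      by_cases hi : i = 2 * X.dim - j
      · subst hi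
        rw [W.proj_of_mem hy]
      · rw [W.proj_of_mem_ne hy hi, zero_mul, map_zero, h i (by omega) y hy]
    rw [this]
    exact W.proj_mem j z
  · have : z = 0 := W.eq_of_tr_deg fun i y hy => by
      by_cases hi : i + j = 2 * X.dim
      · omega
      · rw [h i hi y hy, mul_zero, map_zero]
    rw [this]
    exact zero_mem _

theorem push_mem (f : X ⟶ Y) {i j : ℕ} (h : j + 2 * X.dim = i + 2 * Y.dim) {x : W.H X}
    (hx : x ∈ W.deg X i) : W.push f x ∈ W.deg Y j :=
  W.mem_deg_of_tr fun a ha y hy => by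
    rw [W.tr_mul_push, W.tr_deg X _ (by omega) _ (W.mul_mem (W.pull_deg f a y hy) hx)]

theorem eq_smul_one (x : W.H (pt k)) : x = W.tr _ x • 1 := by
  induction x using W.deg_induction with
  | h0 => simp
  | h2 a b ha hb => rw [map_add, add_smul, ← ha, ← hb]
  | h1 i x hx =>
    rcases Nat.eq_zero_or_pos i with rfl | hi
    · refine sub_eq_zero.mp (W.tr_inj (pt k) _ (sub_mem hx (Submodule.smul_mem _ _ ?_)) ?_)
      · exact SetLike.one_mem_graded (W.deg (pt k))
      · rw [map_sub, map_smul, W.tr_pt, smul_eq_mul, mul_one, sub_self]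
    · have : x = 0 := (Submodule.eq_bot_iff _).1 (W.deg_eq_bot (pt k) i hi) x hx
      simp [this]

theorem push_toPt (x : W.H X) : W.push (toPt X) x = W.tr X x • 1 := by
  rw [W.eq_smul_one (W.push (toPt X) x), ← one_mul (W.push (toPt X) x), W.tr_mul_push, map_one,
    one_mul]

theorem kun_induction {P : W.H (X.prod Y) → Prop} (h0 : P 0)
    (h1 : ∀ x y, P (W.pull (p1 X Y) x * W.pull (p2 X Y) y))
    (h2 : ∀ x y, P x → P y → P (x + y)) (z : W.H (X.prod Y)) : P z := by
  obtain ⟨t, rfl⟩ := (W.kunneth X Y).2 z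
  induction t with
  | zero => rw [map_zero]; exact h0
  | tmul x y => exact h1 x y
  | add a b ha hb => rw [map_add]; exact h2 _ _ ha hb

theorem tr_cl_push (f : X ⟶ Y) (c : A.CH X) (a y : W.H Y) :
    W.tr Y (a * W.cl Y (A.push f c) * y) = W.tr X (W.pull f a * W.cl X c * W.pull f y) := by
  rw [← W.cl_comm, ← W.cl_comm, mul_assoc, mul_assoc, W.cl_push, map_mul (W.pull f)]

theorem tr_diag (a y : W.H X) :
    W.tr (X.prod X) (W.pull (p1 X X) a * W.cl _ (A.diag X) * W.pull (p2 X X) y) =
      W.tr X (a * y) := by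
  rw [Chow.diag, W.tr_cl_push, map_one, mul_one, ← W.pull_comp, ← W.pull_comp, pair_p1, pair_p2,
    W.pull_id, W.pull_id]

theorem tr_pull_lt (f : X ⟶ Y) (a : W.H T) (z : W.H (T.prod Y)) (x : W.H X) :
    W.tr _ (W.pull (p1 T X) a * W.pull (lt T f) z * W.pull (p2 T X) x) =
      W.tr _ (W.pull (p1 T Y) a * z * W.pull (p2 T Y) (W.push f x)) := by
  induction z using W.kun_induction with
  | h0 => simp
  | h2 a b ha hb => simp only [map_add, mul_add, add_mul, ha, hb]
  | h1 b y =>
    rw [map_mul (W.pull _), ← W.pull_comp, ← W.pull_comp, lt_p1, lt_p2, W.pull_comp, ← mul_assoc,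
      ← mul_assoc, ← map_mul (W.pull (p1 T X)), ← map_mul (W.pull (p1 T Y)), mul_assoc, mul_assoc,
      ← map_mul (W.pull (p2 T X)), ← map_mul (W.pull (p2 T Y)), W.tr_prod, W.tr_prod,
      W.tr_mul_push]

theorem tr_cl_eq {x : A.CH X} {q : ℚ} (h : A.push (toPt X) x = q • 1) :
    W.tr X (W.cl X x) = q := by
  have := W.cl_push (toPt X) x 1
  rw [h, map_one, mul_one, mul_one, W.cl_smul, map_one, map_smul, W.tr_pt, smul_eq_mul,
    mul_one] at this
  exact this.symm

/-- The Kuenneth isomorphism. -/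
noncomputable def kun (X Y : SmProj k) : W.H X ⊗[K] W.H Y ≃ₗ[K] W.H (X.prod Y) :=
  LinearEquiv.ofBijective _ (W.kunneth X Y)

theorem kun_tmul (x : W.H X) (y : W.H Y) :
    W.kun X Y (x ⊗ₜ y) = W.pull (p1 X Y) x * W.pull (p2 X Y) y := rfl

/-- The operator `1 ⊗ S`. -/
noncomputable def lbox (T : SmProj k) (S : W.H X →ₗ[K] W.H Y) :
    W.H (T.prod X) →ₗ[K] W.H (T.prod Y) :=
  (W.kun T Y).toLinearMap ∘ₗ LinearMap.lTensor (W.H T) S ∘ₗ (W.kun T X).symm.toLinearMap

theorem lbox_apply (S : W.H X →ₗ[K] W.H Y) (a : W.H T) (x : W.H X) :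
    W.lbox T S (W.pull (p1 T X) a * W.pull (p2 T X) x) =
      W.pull (p1 T Y) a * W.pull (p2 T Y) (S x) := by
  rw [← kun_tmul, ← kun_tmul, lbox]
  simp

/-- A linear map killing the exterior products of total degree `j` kills `H^j`. -/
theorem kill_deg {M : Type*} [AddCommGroup M] [Module K M] (S : W.H (X.prod Y) →ₗ[K] M) (j : ℕ)
    (h : ∀ a b, a + b = j → ∀ x ∈ W.deg X a, ∀ y ∈ W.deg Y b,
      S (W.pull (p1 X Y) x * W.pull (p2 X Y) y) = 0) {z : W.H (X.prod Y)}
    (hz : z ∈ W.deg (X.prod Y) j) : S z = 0 := by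
  have : ∀ z, S (W.proj _ j z) = 0 := by
    intro z
    induction z using W.kun_induction with
    | h0 => simp
    | h2 a b ha hb => rw [map_add, map_add, ha, hb, add_zero]
    | h1 x y =>
      induction x using W.deg_induction with
      | h0 => simp
      | h2 a b ha hb => rw [map_add, add_mul, map_add, map_add, ha, hb, add_zero]
      | h1 a x hx =>
        induction y using W.deg_induction with
        | h0 => simp
        | h2 a b ha hb => rw [map_add, mul_add, map_add, map_add, ha, hb, add_zero]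
        | h1 b y hy =>
          have h1 := W.mul_mem (W.pull_deg (p1 X Y) a x hx) (W.pull_deg (p2 X Y) b y hy)
          by_cases hab : a + b = j
          · rw [W.proj_of_mem (hab ▸ h1), h a b hab x hx y hy]
          · rw [W.proj_of_mem_ne h1 hab, map_zero]
  rw [← W.proj_of_mem hz, this]

end Weil

end Pool.Agent.P.MP_638e8a_ag.H58
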