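import Pool.Agent.P.MP_638e8a_ag.HPar
import Pool.Agent.P.MP_638e8a_ag.CFin
import Pool.Agent.P.MP_638e8a_ag.CReal
import Pool.Agent.P.MP_638e8a_ag.GCurve
import Pool.Agent.P.MP_90138e_ag.Image

/-!
Task CK FD: operators induced by finite-dimensional correspondences.
-/

open CategoryTheory AlgebraicGeometry MonoidalCategory CartesianMonoidalCategory Order

universe u v w

namespace Pool.Agent.P.MP_638e8a_ag

open Pool.Agent.P.MP_90138e_ag
open Pool.Agent.P.MP_90138e_ag.WeilCohomology (fstH sndH)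

variable {k : Type u} [Field k] [IsAlgClosed k] {K : Type v} [Field K] [CharZero K]
  {T : ChowTheory k} {W : WeilCohomology.{u, v, w} k K} {X X' Y Y' : SmProj k}

/-- Operators induced by a sum of homogeneous finite-dimensional correspondences. -/
def FOp (R : CycleMap T W) (b : Bool) (P : W.H X →ₗ[K] W.H Y) : Prop :=
  ∃ x ∈ AddSubmonoid.closure {y : T.A (X.prod Y) | (∃ j, y ∈ T.CH _ j) ∧ T.FinRk b y},
    R.op x = P

variable {R : CycleMap T W} {b b' : Bool}

theorem FOp.zero : FOp R b (0 : W.H X →ₗ[K] W.H Y) := ⟨0, zero_mem _, R.op_zero⟩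

theorem FOp.add {P P' : W.H X →ₗ[K] W.H Y} (h : FOp R b P) (h' : FOp R b P') :
    FOp R b (P + P') := by
  obtain ⟨x, hx, rfl⟩ := h
  obtain ⟨y, hy, rfl⟩ := h'
  exact ⟨x + y, add_mem hx hy, R.op_add x y⟩

theorem FOp.of_mem {x : T.A (X.prod Y)} {j : ℕ} (hx : x ∈ T.CH _ j) (h : T.FinRk b x) :
    FOp R b (R.op x) := ⟨x, AddSubmonoid.subset_closure ⟨⟨j, hx⟩, h⟩, rfl⟩

theorem FOp.algOp {P : W.H X →ₗ[K] W.H Y} (h : FOp R b P) : W.AlgOp P := by
  obtain ⟨x, -, rfl⟩ := h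
  exact R.algOp_op x

/-- Induction over the operators induced by finite-dimensional correspondences. -/
theorem FOp.ind {Q : (W.H X →ₗ[K] W.H Y) → Prop} (h0 : Q 0)
    (hadd : ∀ P P', Q P → Q P' → Q (P + P'))
    (hx : ∀ j, ∀ x ∈ T.CH (X.prod Y) j, T.FinRk b x → Q (R.op x)) {P : W.H X →ₗ[K] W.H Y}
    (h : FOp R b P) : Q P := by
  obtain ⟨x, hx', rfl⟩ := h
  induction hx' using AddSubmonoid.closure_induction with
  | mem y hy =>
    obtain ⟨⟨j, hj⟩, hy⟩ := hy
    exact hx j y hj hy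
  | zero => rw [R.op_zero]; exact h0
  | add y z _ _ hy hz => rw [R.op_add]; exact hadd _ _ hy hz

theorem FOp.comp_left {P : W.H X →ₗ[K] W.H Y} (h : FOp R b P) {U : W.H Y →ₗ[K] W.H Y'}
    (hU : W.AlgOp U) : FOp R b (U ∘ₗ P) := by
  obtain ⟨β, rfl⟩ := R.exists_op hU
  refine h.ind (Q := fun P => FOp R b (R.op β ∘ₗ P)) ?_ (fun P P' h h' => ?_) fun j x hx hf => ?_
  · rw [LinearMap.comp_zero]; exact FOp.zero
  · rw [LinearMap.comp_add]; exact h.add h'
  · clear hU
    induction β using T.hom_ind with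
    | h0 => rw [R.op_zero, LinearMap.zero_comp]; exact FOp.zero
    | hadd a c ha hc => rw [R.op_add, LinearMap.add_comp]; exact ha.add hc
    | h i β hβ =>
      obtain ⟨n, hn⟩ := T.comp_mem' hβ hx
      rw [← R.op_comp]
      exact FOp.of_mem hn (hf.comp_left β)

theorem FOp.comp_right {P : W.H X →ₗ[K] W.H Y} (h : FOp R b P) {V : W.H X' →ₗ[K] W.H X}
    (hV : W.AlgOp V) : FOp R b (P ∘ₗ V) := by
  obtain ⟨α, rfl⟩ := R.exists_op hV
  refine h.ind (Q := fun P => FOp R b (P ∘ₗ R.op α)) ?_ (fun P P' h h' => ?_) fun j x hx hf => ?_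
  · rw [LinearMap.zero_comp]; exact FOp.zero
  · rw [LinearMap.add_comp]; exact h.add h'
  · clear hV
    induction α using T.hom_ind with
    | h0 => rw [R.op_zero, LinearMap.comp_zero]; exact FOp.zero
    | hadd a c ha hc => rw [R.op_add, LinearMap.comp_add]; exact ha.add hc
    | h i α hα =>
      obtain ⟨n, hn⟩ := T.comp_mem' hx hα
      rw [← R.op_comp]
      exact FOp.of_mem hn (hf.comp_right α)

theorem FOp.comp {P : W.H X →ₗ[K] W.H Y} (h : FOp R b P) {U : W.H Y →ₗ[K] W.H Y'}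
    {V : W.H X' →ₗ[K] W.H X} (hU : W.AlgOp U) (hV : W.AlgOp V) : FOp R b (U ∘ₗ P ∘ₗ V) :=
  (h.comp_right hV).comp_left hU

theorem fd_box_zero_left (Q : W.H X' →ₗ[K] W.H Y') :
    W.box (0 : W.H X →ₗ[K] W.H Y) Q = 0 :=
  W.kun_ext fun x y => by rw [W.box_apply]; simp

theorem fd_box_zero_right (P : W.H X →ₗ[K] W.H Y) :
    W.box P (0 : W.H X' →ₗ[K] W.H Y') = 0 :=
  W.kun_ext fun x y => by rw [W.box_apply]; simp

theorem FOp.box {P : W.H X →ₗ[K] W.H Y} {P' : W.H X' →ₗ[K] W.H Y'} (h : FOp R b P)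
    (h' : FOp R b' P') : FOp R (xor b b') (W.box P P') := by
  refine h.ind (Q := fun P => FOp R (xor b b') (W.box P P')) ?_ (fun P₁ P₂ h₁ h₂ => ?_)
    fun j x hx hf => ?_
  · rw [fd_box_zero_left]; exact FOp.zero
  · rw [box_add_left]; exact h₁.add h₂
  · refine h'.ind (Q := fun P' => FOp R (xor b b') (W.box (R.op x) P')) ?_
      (fun P₁ P₂ h₁ h₂ => ?_) fun j' x' hx' hf' => ?_
    · rw [fd_box_zero_right]; exact FOp.zero
    · rw [box_add_right]; exact h₁.add h₂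
    · rw [← R.op_boxc]
      exact FOp.of_mem (T.boxc_mem hx hx') (hf.boxc hf')

/-- Sums of an even and an odd operator. -/
def FDOp (R : CycleMap T W) (Q : W.H X →ₗ[K] W.H Y) : Prop :=
  ∃ P₀ P₁ : W.H X →ₗ[K] W.H Y, FOp R false P₀ ∧ FOp R true P₁ ∧ Par W false P₀ ∧
    Par W true P₁ ∧ P₀ + P₁ = Q

theorem FDOp.zero : FDOp R (0 : W.H X →ₗ[K] W.H Y) :=
  ⟨0, 0, FOp.zero, FOp.zero, Par.zero, Par.zero, add_zero _⟩

theorem FDOp.add {Q Q' : W.H X →ₗ[K] W.H Y} (h : FDOp R Q) (h' : FDOp R Q') :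
    FDOp R (Q + Q') := by
  obtain ⟨P₀, P₁, a, b, c, d, rfl⟩ := h
  obtain ⟨P₀', P₁', a', b', c', d', rfl⟩ := h'
  exact ⟨_, _, a.add a', b.add b', c.add c', d.add d', add_add_add_comm _ _ _ _⟩

theorem FDOp.comp {Q : W.H X →ₗ[K] W.H Y} (h : FDOp R Q) {U : W.H Y →ₗ[K] W.H Y'}
    {V : W.H X' →ₗ[K] W.H X} (hU : W.AlgOp U) (hV : W.AlgOp V) : FDOp R (U ∘ₗ Q ∘ₗ V) := by
  obtain ⟨P₀, P₁, a, b, c, d, rfl⟩ := h
  exact ⟨_, _, a.comp hU hV, b.comp hU hV, c.comp U hV, d.comp U hV, by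
    rw [LinearMap.add_comp, LinearMap.comp_add]⟩

theorem FDOp.box {Q : W.H X →ₗ[K] W.H Y} {Q' : W.H X' →ₗ[K] W.H Y'} (h : FDOp R Q)
    (h' : FDOp R Q') : FDOp R (W.box Q Q') := by
  obtain ⟨P₀, P₁, a, b, c, d, rfl⟩ := h
  obtain ⟨P₀', P₁', a', b', c', d', rfl⟩ := h'
  have a1 := a.box a'
  have a2 := b.box b'
  have b1 := a.box b'
  have b2 := b.box a'
  have c1 := c.box c'
  have c2 := d.box d'
  have d1 := c.box d'
  have d2 := d.box c'
  rw [Bool.xor_self] at a1 a2 c1 c2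
  rw [Bool.false_xor] at b1 d1
  rw [Bool.xor_false] at b2 d2
  refine ⟨_, _, a1.add a2, b1.add b2, c1.add c2, d1.add d2, ?_⟩
  rw [box_add_left, box_add_right, box_add_right, add_add_add_comm, add_comm (W.box P₁ P₁')]

theorem fOp_rank_one (R : CycleMap T W) {a : T.A X} {c : T.A Y} {i j : ℕ} (ha : a ∈ T.CH X i)
    (hc : c ∈ T.CH Y j) :
    FOp R false (R.op (T.pull (fstH X Y) a * T.pull (sndH X Y) c)) :=
  FOp.of_mem (T.mul_mem (T.pull_mem _ ha) (T.pull_mem _ hc)) (ChowTheory.finRk_rank_one a c)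

theorem fdOp_dim_zero (R : CycleMap T W) (hX : X.dim = 0) :
    FDOp R (LinearMap.id : W.H X →ₗ[K] W.H X) := by
  obtain ⟨z, hz, -⟩ := X.exists_closed_le X.gen
  have h := fOp_rank_one R (T.one_mem X) (T.cl_mem (W.coheight_closed X z hz))
  have hv : ∀ m, m ≠ 0 → ∀ x ∈ W.deg X m, x = 0 := fun m hm x hx => by
    rwa [W.deg_eq_bot X m (by omega), Submodule.mem_bot] at hx
  have e : R.op (T.pull (fstH X X) 1 * T.pull (sndH X X) (T.cl X z)) = LinearMap.id := by
    refine W.hom_ext fun m x hx => ?_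
    rw [R.op_rank_one, map_one, mul_one, R.γ_cl, LinearMap.id_apply]
    by_cases hm : m = 0
    · exact (W.top_eq X z hz x (by rw [hX]; subst hm; exact hx)).symm
    · rw [hv m hm x hx]
      simp
  rw [e] at h
  refine ⟨_, 0, h, FOp.zero, par_of_forall fun m x hx hm => hv m ?_ x hx, Par.zero, add_zero _⟩
  rintro rfl
  simp at hm

theorem fdOp_curve (R : CycleMap T W) (hX : X.dim = 1) :
    FDOp R (LinearMap.id : W.H X →ₗ[K] W.H X) := by
  obtain ⟨z, hz, -⟩ := X.exists_closed_le X.gen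
  obtain ⟨s, hs⟩ := X.exists_point z hz
  have hc : T.cl X z ∈ T.CH X 1 := hX ▸ T.cl_mem (W.coheight_closed X z hz)
  have hd : W.cl X z ∈ W.deg X 2 := by
    have := R.γ_mem hc
    rwa [R.γ_cl] at this
  have h1 := fOp_rank_one R hc (T.one_mem X)
  have h2 := fOp_rank_one R (T.one_mem X) hc
  have h3 := finRk_curve R hX s
  rw [hs] at h3
  have h4 : FOp R true _ := FOp.of_mem (j := 1) (sub_mem (sub_mem (hX ▸ T.diag_mem X)
    (T.pull_mem _ hc)) (T.pull_mem _ hc)) h3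
  have e1 : ∀ x, R.op (T.pull (fstH X X) (T.cl X z)) x = W.tr X (x * W.cl X z) • 1 := fun x => by
    have := R.op_rank_one (T.cl X z) (1 : T.A X) x
    rwa [map_one, mul_one, map_one, R.γ_cl] at this
  have e2 : ∀ x, R.op (T.pull (sndH X X) (T.cl X z)) x = W.tr X x • W.cl X z := fun x => by
    have := R.op_rank_one (1 : T.A X) (T.cl X z) x
    rwa [map_one, one_mul, map_one, mul_one, R.γ_cl] at this
  rw [map_one, mul_one] at h1
  rw [map_one, one_mul] at h2
  have t1 : ∀ m, m ≠ 0 → ∀ x ∈ W.deg X m, W.tr X (x * W.cl X z) = 0 := fun m hm x hx =>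
    W.tr_deg X (m + 2) (by omega) _ (WeilCohomology.mul_mem_deg hx hd)
  have t2 : ∀ m, m ≠ 2 → ∀ x ∈ W.deg X m, W.tr X x = 0 := fun m hm x hx =>
    W.tr_deg X m (by omega) x hx
  refine ⟨_, _, h1.add h2, h4, par_of_forall fun m x hx hm => ?_,
    par_of_forall fun m x hx hm => ?_, ?_⟩
  · have ho : Odd m := by simpa using hm
    rw [LinearMap.add_apply, e1, e2, t1 m (by rintro rfl; simp at ho) x hx,
      t2 m (by rintro rfl; exact absurd ho (by decide)) x hx]
    simp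
  · have ho : ¬ Odd m := by simpa using hm
    rw [R.op_sub, R.op_sub, R.op_diag, LinearMap.sub_apply, LinearMap.sub_apply, e1, e2,
      LinearMap.id_apply]
    rcases (by omega : m = 0 ∨ m = 1 ∨ m = 2 ∨ 2 < m) with rfl | rfl | rfl | hm'
    · obtain ⟨c, rfl⟩ := W.exists_eq_smul_one _ x hx
      rw [t2 0 (by omega) _ hx, smul_mul_assoc, one_mul, map_smul, W.tr_cl X z hz]
      simp
    · exact absurd (by decide) ho
    · rw [t1 2 (by omega) x hx, zero_smul, sub_zero, sub_eq_zero]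
      exact W.top_eq X z hz x (by rw [hX]; exact hx)
    · rw [W.deg_eq_bot X m (by omega), Submodule.mem_bot] at hx
      subst hx
      simp
  · rw [R.op_sub, R.op_sub, R.op_diag]
    abel

theorem fdOp_image {f : Y.X ⟶ X.X} [Surjective f.left]
    (h : FDOp R (LinearMap.id : W.H Y →ₗ[K] W.H Y)) :
    FDOp R (LinearMap.id : W.H X →ₗ[K] W.H X) := by
  obtain ⟨z, hz, hd⟩ := SmProj.exists_multisection f
  have h1 := h.comp (((WeilCohomology.AlgOp.push f).comp
    (WeilCohomology.AlgOp.mulLeft (WeilCohomology.IsAlg.cl z))).smul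
      (f.left.residueDegree z : ℚ)⁻¹) (WeilCohomology.AlgOp.pull f)
  convert h1 using 1
  refine LinearMap.ext fun x => ?_
  change x = (((f.left.residueDegree z : ℚ)⁻¹ : ℚ) : K) • W.push f (W.cl Y z * W.pull f x)
  have hg : W.cl X X.gen = 1 := W.cl_generic X
  have hK : (f.left.residueDegree z : K) ≠ 0 := Nat.cast_ne_zero.2 hd
  rw [W.push_mul_pull, W.push_cl', hz, hg, smul_mul_assoc, one_mul, smul_smul]
  simp [hK]

/-- The identity of a variety of curve type is the sum of an even and an odd part. -/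
theorem fd_of_curveType (R : CycleMap T W) (hX : W.CurveType X) :
    ∃ P₀ P₁ : W.H X →ₗ[K] W.H X, FOp R false P₀ ∧ FOp R true P₁ ∧ Par W false P₀ ∧
      Par W true P₁ ∧ P₀ + P₁ = LinearMap.id := by
  change FDOp R (LinearMap.id : W.H X →ₗ[K] W.H X)
  induction hX with
  | curve X hX =>
    by_cases h0 : X.dim = 0
    · exact fdOp_dim_zero R h0
    · exact fdOp_curve R (by omega)
  | prod X Y _ _ ihX ihY =>
    rw [← box_id_id]
    exact ihX.box ihY
  | image X Y f hf _ ih => exact fdOp_image (f := f) ih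
  | summand X n Y A B _ hA hB hs ih =>
    have e : ∑ j, B j ∘ₗ LinearMap.id ∘ₗ A j = LinearMap.id := LinearMap.ext fun x => by
      rw [LinearMap.sum_apply]
      exact hs x Submodule.mem_top
    rw [← e]
    exact Finset.sum_induction _ (FDOp R) (fun _ _ => FDOp.add) FDOp.zero fun j _ =>
      (ih j).comp (WeilCohomology.AlgOp.of_isCorr (hB j)) (WeilCohomology.AlgOp.of_isCorr (hA j))

theorem Par.apply_eq_zero {P : W.H X →ₗ[K] W.H Y} (h : Par W b P) {m : ℕ}
    (hm : decide (Odd m) ≠ b) {x : W.H X} (hx : x ∈ W.deg X m) : P x = 0 := by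
  have := LinearMap.congr_fun (h.comp_proj m hm) x
  rwa [LinearMap.comp_apply, W.proj_of_mem hx] at this

theorem fOp_proj_aux {n : ℕ} {P P' : W.H Y →ₗ[K] W.H Y} (hP : Par W (decide (Odd n)) P)
    (hP' : Par W (!decide (Odd n)) P') (h : P + P' = W.proj Y n) : P = W.proj Y n := by
  refine W.hom_ext fun m x hx => ?_
  by_cases hm : decide (Odd m) = decide (Odd n)
  · rw [← h, LinearMap.add_apply, hP'.apply_eq_zero (by rw [hm]; simp) hx, add_zero]
  · rw [hP.apply_eq_zero hm hx, W.proj_of_mem_ne hx]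
    rintro rfl
    exact hm rfl

theorem fOp_proj (R : CycleMap T W) (hX : W.CurveType X) {U : W.H X →ₗ[K] W.H Y}
    {V : W.H Y →ₗ[K] W.H X} (hU : W.AlgOp U) (hV : W.AlgOp V) {n : ℕ}
    (h : U ∘ₗ V = W.proj Y n) : FOp R (decide (Odd n)) (W.proj Y n) := by
  obtain ⟨P₀, P₁, a, b, c, d, e⟩ := FDOp.comp (fd_of_curveType R hX) hU hV
  rw [LinearMap.id_comp, h] at e
  by_cases hn : Odd n
  · rw [← fOp_proj_aux (P := P₁) (P' := P₀) (by simpa [hn] using d) (by simpa [hn] using c)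
      (by rw [add_comm, e])]
    simpa [hn] using b
  · rw [← fOp_proj_aux (P := P₀) (P' := P₁) (by simpa [hn] using c) (by simpa [hn] using d) e]
    simpa [hn] using a

theorem FOp.exists_mem {n : ℕ} (h : FOp R b (W.proj Y n)) :
    ∃ x ∈ T.CH (Y.prod Y) Y.dim, T.FinRk b x ∧ R.op x = W.proj Y n := by
  obtain ⟨γ, hγ, hi⟩ := h.algOp.exists_C Y.dim fun m m' hm x hx => by
    by_cases hn : m = n
    · subst hn
      rw [W.proj_of_mem hx]
      exact W.proj_of_mem_ne hx (by omega)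
    · rw [W.proj_of_mem_ne hx hn, map_zero]
  obtain ⟨x, hx, e⟩ := h
  have key : ∃ x' ∈ T.CH (Y.prod Y) Y.dim, T.FinRk b x' ∧
      R.γ _ x' = W.proj (Y.prod Y) (2 * Y.dim) (R.γ _ x) := by
    clear e
    induction hx using AddSubmonoid.closure_induction with
    | mem y hy =>
      obtain ⟨⟨j, hj⟩, hy⟩ := hy
      by_cases hjd : j = Y.dim
      · subst hjd
        exact ⟨y, hj, hy, (W.proj_of_mem (R.γ_mem hj)).symm⟩
      · exact ⟨0, zero_mem _, ChowTheory.FinRk.zero, by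
          rw [map_zero, W.proj_of_mem_ne (R.γ_mem hj) (by omega)]⟩
    | zero => exact ⟨0, zero_mem _, ChowTheory.FinRk.zero, by rw [map_zero, map_zero]⟩
    | add y z _ _ hy hz =>
      obtain ⟨y', a, b, c⟩ := hy
      obtain ⟨z', a', b', c'⟩ := hz
      exact ⟨y' + z', add_mem a a', b.add b', by rw [map_add, map_add, map_add, c, c']⟩
  obtain ⟨x', a, b, c⟩ := key
  refine ⟨x', a, b, ?_⟩
  have h1 := R.induces_op x
  rw [e] at h1
  rw [← e]
  refine R.op_congr ?_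
  rw [c, h1.unique hi, W.proj_of_mem (WeilCohomology.mem_deg_of_C hγ)]

end Pool.Agent.P.MP_638e8a_ag
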