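import Pool.Agent.P.MP_638e8a_ag.CDefs

/-!
Task CK PAR: the parity involution.
-/

open CategoryTheory AlgebraicGeometry MonoidalCategory CartesianMonoidalCategory Order

universe u v w

namespace Pool.Agent.P.MP_638e8a_ag

open Pool.Agent.P.MP_90138e_ag
open Pool.Agent.P.MP_90138e_ag.WeilCohomology (fstH sndH)

variable {k : Type u} [Field k] [IsAlgClosed k] {K : Type v} [Field K] [CharZero K]
  (W : WeilCohomology.{u, v, w} k K) {X X' Y Y' Z : SmProj k}

/-- The involution acting by `(-1)^m` on `H^m`. -/
noncomputable def par (X : SmProj k) : W.H X →ₗ[K] W.H X :=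
  ∑ m ∈ Finset.range (2 * X.dim + 1), (-1 : K) ^ m • W.proj X m

/-- `P` kills the classes of odd (`b = false`), respectively even (`b = true`) degree. -/
def Par (b : Bool) (P : W.H X →ₗ[K] W.H Y) : Prop :=
  P ∘ₗ par W X = (if b then -1 else 1 : K) • P

theorem par_of_mem {m : ℕ} {x : W.H X} (hx : x ∈ W.deg X m) : par W X x = (-1 : K) ^ m • x := by
  unfold par
  rw [LinearMap.sum_apply]
  by_cases hi : m ∈ Finset.range (2 * X.dim + 1)
  · rw [Finset.sum_eq_single_of_mem m hi fun j _ hj => by
      rw [LinearMap.smul_apply, W.proj_of_mem_ne hx hj.symm, smul_zero],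
      LinearMap.smul_apply, W.proj_of_mem hx]
  · have h1 : x = 0 := (Submodule.eq_bot_iff _).1 (W.deg_eq_bot X m (by simpa using hi)) _ hx
    simp [h1]

theorem par_mul (x y : W.H X) : par W X (x * y) = par W X x * par W X y := by
  induction x using WeilCohomology.hom_ind with
  | h0 => simp
  | hadd a b ha hb => rw [add_mul, map_add, map_add, add_mul, ha, hb]
  | hhom i x hx =>
    induction y using WeilCohomology.hom_ind with
    | h0 => simp
    | hadd a b ha hb => rw [mul_add, map_add, map_add, mul_add, ha, hb]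
    | hhom j y hy =>
      rw [par_of_mem W (WeilCohomology.mul_mem_deg hx hy), par_of_mem W hx, par_of_mem W hy,
        smul_mul_smul_comm, pow_add]

theorem par_par (x : W.H X) : par W X (par W X x) = x := by
  induction x using WeilCohomology.hom_ind with
  | h0 => simp
  | hadd a b ha hb => rw [map_add, map_add, ha, hb]
  | hhom i x hx =>
    rw [par_of_mem W hx, map_smul, par_of_mem W hx, smul_smul, ← mul_pow]
    simp

theorem tr_par (x : W.H X) : W.tr X (par W X x) = W.tr X x := by
  induction x using WeilCohomology.hom_ind with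
  | h0 => simp
  | hadd a b ha hb => rw [map_add, map_add, map_add, ha, hb]
  | hhom i x hx =>
    rw [par_of_mem W hx, map_smul]
    by_cases hi : i = 2 * X.dim
    · rw [hi, pow_mul]
      simp
    · rw [W.tr_deg X i hi x hx, smul_zero]

theorem par_pull (f : X.X ⟶ Y.X) (y : W.H Y) : par W X (W.pull f y) = W.pull f (par W Y y) := by
  induction y using WeilCohomology.hom_ind with
  | h0 => simp
  | hadd a b ha hb => rw [map_add, map_add, map_add, map_add, ha, hb]
  | hhom i y hy => rw [par_of_mem W (W.pull_deg f i y hy), par_of_mem W hy, map_smul]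

theorem tr_par_mul (x y : W.H X) : W.tr X (par W X x * y) = W.tr X (x * par W X y) := by
  rw [← tr_par W (x * _), par_mul, par_par]

theorem par_push (f : X.X ⟶ Y.X) (x : W.H X) : par W Y (W.push f x) = W.push f (par W X x) :=
  W.eq_of_tr fun y => by
    rw [tr_par_mul, W.tr_push_mul, W.tr_push_mul, tr_par_mul, par_pull]

theorem par_isAlg {x : W.H X} (hx : W.IsAlg x) : par W X x = x := by
  induction hx using AddSubgroup.closure_induction with
  | mem y hy =>
    obtain ⟨q, t, rfl⟩ := hy
    rw [map_smul, par_of_mem W (W.cl_deg X t), pow_mul]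
    simp
  | zero => simp
  | add a b _ _ ha hb => rw [map_add, ha, hb]
  | neg a _ ha => rw [map_neg, ha]

theorem par_prod (X Y : SmProj k) : par W (X.prod Y) = W.box (par W X) (par W Y) :=
  W.kun_ext fun x y => by
    rw [W.box_apply, par_mul, WeilCohomology.p1_eq, WeilCohomology.p2_eq, par_pull, par_pull]

variable {W}

theorem algOp_par {P : W.H X →ₗ[K] W.H Y} (hP : W.AlgOp P) : P ∘ₗ par W X = par W Y ∘ₗ P := by
  obtain ⟨γ, hγ, h⟩ := hP
  rw [WeilCohomology.induces_iff.1 h]
  ext x
  simp only [LinearMap.comp_apply, LinearMap.mulRight_apply, AlgHom.toLinearMap_apply]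
  rw [par_push, par_mul, par_isAlg W hγ, WeilCohomology.p1_eq, par_pull]

variable {b b' : Bool}

theorem Par.zero : Par W b (0 : W.H X →ₗ[K] W.H Y) := by
  unfold Par
  rw [LinearMap.zero_comp, smul_zero]

theorem Par.add {P P' : W.H X →ₗ[K] W.H Y} (h : Par W b P) (h' : Par W b P') :
    Par W b (P + P') := by
  unfold Par at *
  rw [LinearMap.add_comp, h, h', smul_add]

theorem Par.comp {P : W.H X →ₗ[K] W.H Y} (h : Par W b P) (U : W.H Y →ₗ[K] W.H Y')
    {V : W.H X' →ₗ[K] W.H X} (hV : W.AlgOp V) : Par W b (U ∘ₗ P ∘ₗ V) := by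
  unfold Par at *
  rw [LinearMap.comp_assoc, LinearMap.comp_assoc, algOp_par hV, ← LinearMap.comp_assoc V, h,
    LinearMap.smul_comp, LinearMap.comp_smul]

theorem Par.box {P : W.H X →ₗ[K] W.H Y} {P' : W.H X' →ₗ[K] W.H Y'} (h : Par W b P)
    (h' : Par W b' P') : Par W (xor b b') (W.box P P') := by
  unfold Par at *
  rw [par_prod, ← WeilCohomology.box_comp, h, h']
  refine W.kun_ext fun x y => ?_
  rw [LinearMap.smul_apply, W.box_apply, W.box_apply, LinearMap.smul_apply, LinearMap.smul_apply,
    map_smul, map_smul, smul_mul_smul_comm]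
  cases b <;> cases b' <;> simp

theorem par_of_forall {P : W.H X →ₗ[K] W.H Y}
    (h : ∀ m, ∀ x ∈ W.deg X m, decide (Odd m) ≠ b → P x = 0) : Par W b P := by
  unfold Par
  refine W.hom_ext fun m x hx => ?_
  rw [LinearMap.comp_apply, par_of_mem W hx, map_smul, LinearMap.smul_apply]
  by_cases hm : decide (Odd m) = b
  · subst hm
    rcases Nat.even_or_odd m with h1 | h1
    · simp [h1.neg_one_pow, Nat.not_odd_iff_even.2 h1]
    · simp [h1.neg_one_pow, h1]
  · rw [h m x hx hm, smul_zero, smul_zero]

theorem Par.comp_proj {P : W.H X →ₗ[K] W.H Y} (h : Par W b P) (m : ℕ) (hm : decide (Odd m) ≠ b) :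
    P ∘ₗ W.proj X m = 0 := by
  ext x
  have h1 := LinearMap.congr_fun h (W.proj X m x)
  rw [LinearMap.comp_apply, par_of_mem W (W.proj_mem X m x), map_smul, LinearMap.smul_apply] at h1
  rw [LinearMap.comp_apply, LinearMap.zero_apply]
  have h2 : (2 : K) • P (W.proj X m x) = 0 := by
    rw [two_smul]
    rcases Nat.even_or_odd m with h3 | h3
    · have hb : b = true := by
        cases b
        · exact absurd (by simp [Nat.not_odd_iff_even.2 h3]) hm
        · rfl
      rw [h3.neg_one_pow, hb, if_pos rfl, one_smul, neg_one_smul] at h1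
      exact add_eq_zero_iff_eq_neg.2 h1
    · have hb : b = false := by
        cases b
        · rfl
        · exact absurd (by simp [h3]) hm
      rw [h3.neg_one_pow, hb, if_neg (by simp), one_smul, neg_one_smul] at h1
      exact add_eq_zero_iff_eq_neg.2 h1.symm
  exact (smul_eq_zero.1 h2).resolve_left two_ne_zero

theorem box_add_left (P P' : W.H X →ₗ[K] W.H Y) (Q : W.H X' →ₗ[K] W.H Y') :
    W.box (P + P') Q = W.box P Q + W.box P' Q :=
  W.kun_ext fun x y => by
    rw [LinearMap.add_apply, W.box_apply, W.box_apply, W.box_apply, LinearMap.add_apply, map_add,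
      add_mul]

theorem box_add_right (P : W.H X →ₗ[K] W.H Y) (Q Q' : W.H X' →ₗ[K] W.H Y') :
    W.box P (Q + Q') = W.box P Q + W.box P Q' :=
  W.kun_ext fun x y => by
    rw [LinearMap.add_apply, W.box_apply, W.box_apply, W.box_apply, LinearMap.add_apply, map_add,
      mul_add]

theorem box_id_id (X Y : SmProj k) :
    W.box (LinearMap.id : W.H X →ₗ[K] W.H X) (LinearMap.id : W.H Y →ₗ[K] W.H Y) = LinearMap.id :=
  W.kun_ext fun x y => by rw [W.box_apply]; rfl

end Pool.Agent.P.MP_638e8a_ag
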